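import Mathlib

/-!
# A finitely generated group with arbitrarily large finite abelian quotients maps onto the integers
-/

set_option autoImplicit false

open scoped commutatorElement

namespace BCX

theorem AB_finite {A : Type} [AddCommGroup A] [Module.Finite ℤ A]
    (h : ∀ f : A →ₗ[ℤ] ℤ, f = 0) : Finite A := by
  have htor : Module.IsTorsion ℤ A := by
    intro a
    have h1 : (Submodule.Quotient.mk a : A ⧸ Submodule.torsion ℤ A) = 0 := by
      rw [← Module.forall_dual_apply_eq_zero_iff ℤ]
      intro f
      have h2 := h (f.comp (Submodule.mkQ (Submodule.torsion ℤ A)))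
      exact LinearMap.congr_fun h2 a
    rw [Submodule.Quotient.mk_eq_zero] at h1
    exact h1
  exact Module.finite_of_fg_torsion A htor

/-- ROW AB: a finitely generated group with arbitrarily large finite abelian quotients maps onto `ℤ` -/
theorem exists_toZ {X : Type} [Group X] [Group.FG X]
    (h : ∀ n : ℕ, ∃ K : Subgroup X, commutator X ≤ K ∧ K.index ≠ 0 ∧ n ≤ K.index) :
    ∃ c : X →* Multiplicative ℤ, c ≠ 1 := by
  by_contra hc
  push Not at hc
  have : Group.FG (Abelianization X) := QuotientGroup.fg (commutator X)
  have : AddGroup.FG (Additive (Abelianization X)) := inferInstance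
  have : Module.Finite ℤ (Additive (Abelianization X)) := Module.Finite.iff_addGroup_fg.2 inferInstance
  have hfin : Finite (Additive (Abelianization X)) := by
    refine AB_finite (fun f => ?_)
    have h1 := hc ((AddMonoidHom.toMultiplicativeRight f.toAddMonoidHom).comp Abelianization.of)
    ext a
    obtain ⟨x, hx⟩ := QuotientGroup.mk_surjective (Additive.toMul a)
    have h2 := DFunLike.congr_fun h1 x
    have h3 : a = Additive.ofMul (Abelianization.of x) := by
      rw [← ofMul_toMul a]
      congr 1
      exact hx.symm
    rw [h3]
    exact Multiplicative.ofAdd.injective h2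
  have : Finite (X ⧸ commutator X) := hfin
  have hne : (commutator X).index ≠ 0 := by
    rw [Subgroup.index]
    exact Nat.card_pos.ne'
  obtain ⟨K, hK, -, hn⟩ := h ((commutator X).index + 1)
  have := Nat.le_of_dvd (Nat.pos_of_ne_zero hne) (Subgroup.index_dvd_of_le hK)
  omega

end BCX
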