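import Mathlib

/-!
# Periodic points of endomorphisms of finite abelian groups
-/

namespace BCXA

/-- The subgroup of the periodic points of an endomorphism. -/
def per {A : Type*} [AddCommGroup A] (T : A →+ A) : AddSubgroup A where
  carrier := {x | ∃ n : ℕ, 0 < n ∧ T^[n] x = x}
  zero_mem' := ⟨1, one_pos, map_zero T⟩
  add_mem' := by
    rintro x y ⟨n, hn, hx⟩ ⟨m, hm, hy⟩
    refine ⟨n * m, Nat.mul_pos hn hm, ?_⟩
    have h1 : T^[n * m] x = x := by
      rw [Function.iterate_mul]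
      exact Function.iterate_fixed hx m
    have h2 : T^[n * m] y = y := by
      rw [mul_comm, Function.iterate_mul]
      exact Function.iterate_fixed hy n
    rw [iterate_map_add, h1, h2]
  neg_mem' := by
    rintro x ⟨n, hn, hx⟩
    exact ⟨n, hn, by rw [iterate_map_neg, hx]⟩

theorem mem_per {A : Type*} [AddCommGroup A] (T : A →+ A) (x : A) :
    x ∈ per T ↔ ∃ n : ℕ, 0 < n ∧ T^[n] x = x := Iff.rfl

/-- Some power of the endomorphism is idempotent. -/
def Idm {A : Type*} [AddCommGroup A] (T : A →+ A) : Prop :=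
  ∃ n : ℕ, 0 < n ∧ ∀ x, T^[n] (T^[n] x) = T^[n] x

theorem idm_mul {A : Type*} [AddCommGroup A] {T : A →+ A} {n : ℕ}
    (h : ∀ x, T^[n] (T^[n] x) = T^[n] x) (m : ℕ) (hm : 0 < m) (x : A) :
    T^[n * m] x = T^[n] x := by
  obtain ⟨k, rfl⟩ : ∃ k, m = k + 1 := ⟨m - 1, by omega⟩
  rw [Function.iterate_mul, Function.iterate_succ_apply]
  exact Function.iterate_fixed (h x) k

theorem idm_of_finite {A : Type*} [AddCommGroup A] [Finite A] (T : A →+ A) : Idm T := by
  -- two different powers agree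
  have h1 : ∃ m n : ℕ, m < n ∧ T^[m] = T^[n] := by
    have h2 : ¬ Function.Injective (fun n : ℕ => T^[n]) := by
      intro hinj
      have := Finite.of_injective _ hinj
      exact not_finite ℕ
    rw [Function.Injective] at h2
    push Not at h2
    obtain ⟨a, b, hab, hne⟩ := h2
    rcases lt_or_gt_of_ne hne with h | h
    · exact ⟨a, b, h, hab⟩
    · exact ⟨b, a, h, hab.symm⟩
  obtain ⟨m, n, hmn, h⟩ := h1
  -- for k ≥ m the powers are periodic with period n - m
  have key : ∀ k, m ≤ k → ∀ j, T^[k + j * (n - m)] = T^[k] := by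
    intro k hk j
    induction j with
    | zero => rw [zero_mul, add_zero]
    | succ j ih =>
      have h3 : k + (j + 1) * (n - m) = (k - m + j * (n - m)) + n := by
        have : (j + 1) * (n - m) = j * (n - m) + (n - m) := by ring
        omega
      have h4 : k + j * (n - m) = (k - m + j * (n - m)) + m := by omega
      rw [h3, Function.iterate_add, ← h, ← Function.iterate_add, ← h4, ih]
  refine ⟨(m + 1) * (n - m), Nat.mul_pos (Nat.succ_pos m) (by omega), fun x => ?_⟩
  rw [← Function.iterate_add_apply]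
  have h5 : m ≤ (m + 1) * (n - m) := by
    have : 1 ≤ n - m := by omega
    nlinarith
  rw [key _ h5 (m + 1)]

theorem idm_of_nilp {A : Type*} [AddCommGroup A] {T : A →+ A} {k : ℕ}
    (h : ∀ x, T^[k] x = 0) : Idm T := by
  refine ⟨k + 1, Nat.succ_pos k, fun x => ?_⟩
  have h2 : ∀ x, T^[k + 1] x = 0 := by
    intro x
    rw [Function.iterate_succ_apply]
    exact h _
  rw [h2, h2]

theorem iter_comm {A B : Type*} [AddCommGroup A] [AddCommGroup B] {T : A →+ A} {S : B →+ B}
    {f : A →+ B} (h : ∀ x, f (T x) = S (f x)) (n : ℕ) (x : A) : f (T^[n] x) = S^[n] (f x) :=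
  (Function.Semiconj.iterate_right (f := f) (ga := T) (gb := S) h n) x

theorem map_per {A B : Type*} [AddCommGroup A] [AddCommGroup B] {T : A →+ A} {S : B →+ B}
    {f : A →+ B} (h : ∀ x, f (T x) = S (f x)) {x : A} (hx : x ∈ per T) : f x ∈ per S := by
  obtain ⟨n, hn, hx⟩ := hx
  exact ⟨n, hn, by rw [← iter_comm h, hx]⟩

theorem exists_per {A B : Type*} [AddCommGroup A] [AddCommGroup B] {T : A →+ A} {S : B →+ B}
    {f : A →+ B} (h : ∀ x, f (T x) = S (f x)) (hT : Idm T) {b : B} (hb : b ∈ per S)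
    (hf : ∃ a, f a = b) : ∃ a ∈ per T, f a = b := by
  obtain ⟨a, rfl⟩ := hf
  obtain ⟨n, hn, hb⟩ := hb
  obtain ⟨m, hm, hi⟩ := hT
  refine ⟨T^[m * n] a, ⟨m, hm, ?_⟩, ?_⟩
  · rw [idm_mul hi n hn, hi]
  · rw [iter_comm h, mul_comm, Function.iterate_mul]
    exact Function.iterate_fixed hb m

/-- The order of the image of the periodic part. -/
noncomputable def im {A B : Type*} [AddCommGroup A] [AddCommGroup B] (T : A →+ A)
    (f : A →+ B) : ℕ := Nat.card ((per T).map f)

/-- The order of the periodic part. -/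
noncomputable def un {A : Type*} [AddCommGroup A] (T : A →+ A) : ℕ := Nat.card (per T)

theorem un_pos {A : Type*} [AddCommGroup A] [Finite A] (T : A →+ A) : 0 < un T :=
  Nat.card_pos

theorem un_exact {A B C : Type*} [AddCommGroup A] [AddCommGroup B] [AddCommGroup C]
    {T : A →+ A} {S : B →+ B} (f : A →+ B) (g : B →+ C)
    (h : ∀ x, f (T x) = S (f x)) (hT : Idm T)
    (hex : ∀ b, g b = 0 ↔ ∃ a, f a = b) : un S = im T f * im S g := by
  have h1 : Nat.card (per S) = Nat.card (((g.comp (per S).subtype)).ker) *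
      Nat.card ((g.comp (per S).subtype).range) := by
    rw [← AddSubgroup.index_ker]
    exact (AddSubgroup.card_mul_index _).symm
  have h2 : (g.comp (per S).subtype).range = (per S).map g := by
    rw [AddMonoidHom.range_comp, AddSubgroup.range_subtype]
  have h3 : Nat.card (((g.comp (per S).subtype)).ker) = Nat.card ((per T).map f) := by
    refine Nat.card_congr ⟨fun x => ⟨x.1.1, ?_⟩, fun x => ⟨⟨x.1, ?_⟩, ?_⟩, fun _ => rfl,
      fun _ => rfl⟩
    · obtain ⟨a, ha, ha2⟩ := exists_per h hT x.1.2 ((hex x.1.1).1 x.2)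
      exact ⟨a, ha, ha2⟩
    · obtain ⟨a, ha, ha2⟩ := x.2
      rw [← ha2]
      exact map_per h ha
    · obtain ⟨a, ha, ha2⟩ := x.2
      exact (hex x.1).2 ⟨a, ha2⟩
  unfold un im
  rw [h1, h2, h3]

theorem un_inj {A B : Type*} [AddCommGroup A] [AddCommGroup B] (T : A →+ A) (f : A →+ B)
    (hf : Function.Injective f) : im T f = un T := by
  refine (Nat.card_congr (Equiv.ofBijective (fun x : per T => (⟨f x.1, x.1, x.2, rfl⟩ :
    (per T).map f)) ⟨?_, ?_⟩)).symm
  · intro x y hxy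
    exact Subtype.ext (hf (congrArg Subtype.val hxy))
  · rintro ⟨_, x, hx, rfl⟩
    exact ⟨⟨x, hx⟩, rfl⟩

theorem im_zero {A B : Type*} [AddCommGroup A] [AddCommGroup B] (T : A →+ A) (f : A →+ B)
    (hf : ∀ x ∈ per T, f x = 0) : im T f = 1 := by
  have h : (per T).map f = ⊥ := by
    rw [eq_bot_iff]
    rintro _ ⟨x, hx, rfl⟩
    exact hf x hx
  unfold im
  rw [h]
  simp

theorem per_zero_of_nilp {C : Type*} [AddCommGroup C] {S : C →+ C} {k : ℕ}
    (h : ∀ x, S^[k] x = 0) {c : C} (hc : c ∈ per S) : c = 0 := by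
  obtain ⟨n, hn, hc⟩ := hc
  have h1 : S^[n * k] c = c := by
    rw [Function.iterate_mul]
    exact Function.iterate_fixed hc k
  have h2 : S^[n * k] c = 0 := by
    obtain ⟨l, hl⟩ : ∃ l, n * k = k + l := ⟨n * k - k, by
      have := Nat.mul_le_mul_right k hn
      omega⟩
    rw [hl, Function.iterate_add_apply]
    exact h _
  rw [← h1, h2]

/-- An equivariant isomorphism. -/
theorem un_equiv {A B : Type*} [AddCommGroup A] [AddCommGroup B] {T : A →+ A} {S : B →+ B}
    (f : A →+ B) (h : ∀ x, f (T x) = S (f x)) (hf : Function.Bijective f) : un T = un S := by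
  refine Nat.card_congr (Equiv.ofBijective (fun x : per T => (⟨f x.1, map_per h x.2⟩ :
    per S)) ⟨?_, ?_⟩)
  · intro x y hxy
    exact Subtype.ext (hf.1 (congrArg Subtype.val hxy))
  · rintro ⟨y, n, hn, hy⟩
    obtain ⟨x, rfl⟩ := hf.2 y
    refine ⟨⟨x, n, hn, hf.1 ?_⟩, rfl⟩
    rw [iter_comm h, hy]

/-- The alternating product of the orders in an exact sequence with nine terms. -/
theorem nine {i₁ i₂ i₃ i₄ i₅ i₆ i₇ i₈ a₀ b₀ c₀ a₁ b₁ c₁ a₂ b₂ c₂ : ℕ}
    (h1 : a₀ = i₁) (h2 : b₀ = i₁ * i₂) (h3 : c₀ = i₂ * i₃) (h4 : a₁ = i₃ * i₄)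
    (h5 : b₁ = i₄ * i₅) (h6 : c₁ = i₅ * i₆) (h7 : a₂ = i₆ * i₇) (h8 : b₂ = i₇ * i₈)
    (h9 : c₂ = i₈) : b₀ * b₂ * (a₁ * c₁) = b₁ * (a₀ * a₂) * (c₀ * c₂) := by
  subst h1 h2 h3 h4 h5 h6 h7 h8 h9
  ring

end BCXA
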