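import Pool.Agent.BCX.Defs3

/-!
# A liftable character is isotropic (row ALT)
-/

set_option autoImplicit false

open CategoryTheory groupCohomology EssMap
open scoped commutatorElement

namespace BCX

/-- doubling of the triangular numbers -/
theorem alt_tri (n : ℤ) : 2 * (n * (n - 1) / 2) = n * (n - 1) :=
  Int.mul_ediv_cancel' (Int.even_mul_pred_self n).two_dvd

/-- triangular numbers are quadratic, modulo `m`, on classes modulo `2 m` -/
theorem alt_add (m x y z j : ℤ) (h : z = x + y + 2 * m * j) :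
    ∃ r : ℤ, z * (z - 1) / 2 = x * (x - 1) / 2 + y * (y - 1) / 2 + x * y + m * r := by
  refine ⟨j * (2 * (x + y) + 2 * m * j - 1), ?_⟩
  have h1 := alt_tri x
  have h2 := alt_tri y
  have h3 := alt_tri z
  have h4 : z * (z - 1) = x * (x - 1) + y * (y - 1) + 2 * (x * y) +
      2 * (m * (j * (2 * (x + y) + 2 * m * j - 1))) := by
    subst h; ring
  linarith

/-- ROW ALT: a liftable character is isotropic -/
theorem alt0 {G : Type} [Group G] (a : G →* Multiplicative ℤ) (m : ℕ) (hm : 2 ≤ m)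
    (v : G →* Multiplicative (ZMod m))
    (hv : ∃ w : G →* Multiplicative (ZMod (2 * m)),
      ∀ g, ZMod.castHom (Dvd.intro_left 2 rfl) (ZMod m) (w g).toAdd = (v g).toAdd) :
    IsB3 (fun g h k : G => (v g).toAdd * (((a h).toAdd : ZMod m) * (v k).toAdd)) := by
  obtain ⟨w, hw⟩ := hv
  have : NeZero (2 * m) := ⟨by omega⟩
  set W : G → ℤ := fun g => ((w g).toAdd.val : ℤ) with hW
  have hWv : ∀ g, ((W g : ℤ) : ZMod m) = (v g).toAdd := by
    intro g
    rw [← hw g, ZMod.castHom_apply, ZMod.cast_eq_val]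
    simp [hW]
  have hq : ∀ g h, (((W (g * h) * (W (g * h) - 1) / 2 : ℤ)) : ZMod m) =
      ((W g * (W g - 1) / 2 : ℤ) : ZMod m) + ((W h * (W h - 1) / 2 : ℤ) : ZMod m) +
        (v g).toAdd * (v h).toAdd := by
    intro g h
    have h1 : ((W (g * h) : ℤ) : ZMod (2 * m)) = ((W g + W h : ℤ) : ZMod (2 * m)) := by
      simp [hW, map_mul, toAdd_mul]
    have h2 : ((2 * m : ℕ) : ℤ) ∣ (W g + W h) - W (g * h) :=
      (ZMod.intCast_eq_intCast_iff_dvd_sub _ _ _).1 h1
    obtain ⟨j, hj⟩ := h2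
    obtain ⟨r, hr⟩ := alt_add m (W g) (W h) (W (g * h)) (-j) (by push_cast at hj; linarith)
    rw [hr]
    push_cast
    rw [← hWv g, ← hWv h]
    simp
  refine ⟨fun g h => - (((a g).toAdd : ZMod m) * ((W h * (W h - 1) / 2 : ℤ) : ZMod m)) -
    ((a g).toAdd : ZMod m) * (v g).toAdd * (v h).toAdd, fun g h k => ?_⟩
  have hah : ∀ g h : G, ((a (g * h)).toAdd : ZMod m) =
      ((a g).toAdd : ZMod m) + ((a h).toAdd : ZMod m) := by
    intro g h; rw [map_mul, toAdd_mul, Int.cast_add]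
  have hvh : ∀ g h : G, (v (g * h)).toAdd = (v g).toAdd + (v h).toAdd := by
    intro g h; rw [map_mul, toAdd_mul]
  simp only [hah, hvh, hq]
  ring

end BCX
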