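import Pool.Agent.PCN.Contr
import Pool.Agent.BCX.AB

set_option autoImplicit false

open scoped commutatorElement

namespace BCX

/-- a normal subgroup of `p`-power index contains a term of the series -/
private theorem CB_term {X : Type} [Group X] (p : ℕ) [hp : Fact p.Prime] : ∀ (a : ℕ)
    (K : Subgroup X), K.Normal → K.index = p ^ a → ∃ m, (PCN.L p m : Subgroup X) ≤ K := by
  intro a
  induction a with
  | zero =>
    intro K _ hK
    refine ⟨0, ?_⟩
    rw [pow_zero, Subgroup.index_eq_one] at hK
    rw [hK]
    exact le_top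
  | succ a ih =>
    intro K hKn hK
    have hcard : Nat.card (X ⧸ K) = p ^ (a + 1) := hK
    have hfin : Finite (X ⧸ K) := Nat.finite_of_card_ne_zero (by
      rw [hcard]; exact pow_ne_zero _ hp.out.ne_zero)
    have hP : IsPGroup p (X ⧸ K) := IsPGroup.of_card hcard
    have hnt : Nontrivial (X ⧸ K) := by
      rw [← Finite.one_lt_card_iff_nontrivial, hcard]
      exact Nat.one_lt_pow (Nat.succ_ne_zero a) hp.out.one_lt
    have hcnt : Nontrivial (Subgroup.center (X ⧸ K)) := hP.center_nontrivial
    have hPc : IsPGroup p (Subgroup.center (X ⧸ K)) := hP.to_subgroup _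
    obtain ⟨k, hk⟩ := IsPGroup.iff_card.mp hPc
    have hk0 : k ≠ 0 := by
      rintro rfl
      rw [pow_zero] at hk
      have := Finite.one_lt_card_iff_nontrivial.mpr hcnt
      omega
    obtain ⟨z, hz⟩ := exists_prime_orderOf_dvd_card' (G := Subgroup.center (X ⧸ K)) p
      (by rw [hk]; exact dvd_pow_self p hk0)
    have hzo : orderOf (z : X ⧸ K) = p := by rw [Subgroup.orderOf_coe, hz]
    set Z : Subgroup (X ⧸ K) := Subgroup.zpowers (z : X ⧸ K) with hZ
    have hZc : Z ≤ Subgroup.center (X ⧸ K) := by
      rw [hZ, Subgroup.zpowers_le]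
      exact z.2
    have hZn : Z.Normal := by
      constructor
      intro n hn g
      have h1 := Subgroup.mem_center_iff.mp (hZc hn) g
      rw [h1, mul_inv_cancel_right]
      exact hn
    set K' : Subgroup X := Z.comap (QuotientGroup.mk' K) with hK'
    have hK'n : K'.Normal := hZn.comap _
    have hidx : K'.index = p ^ a := by
      rw [hK', Subgroup.index_comap_of_surjective _ (QuotientGroup.mk'_surjective K)]
      have h1 := Z.card_mul_index
      rw [hcard, hZ, Nat.card_zpowers, hzo, pow_succ'] at h1
      exact Nat.eq_of_mul_eq_mul_left hp.out.pos h1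
    obtain ⟨m, hm⟩ := ih K' hK'n hidx
    refine ⟨m + 1, ?_⟩
    rw [PCN.L_succ, sup_le_iff]
    constructor
    · rw [Subgroup.commutator_le]
      intro x hx g _
      have h1 : (QuotientGroup.mk' K x) ∈ Subgroup.center (X ⧸ K) := hZc (hm hx)
      have h2 := Subgroup.mem_center_iff.mp h1 (QuotientGroup.mk' K g)
      have h3 : QuotientGroup.mk' K ⁅x, g⁆ = 1 := by
        rw [map_commutatorElement, commutatorElement_eq_one_iff_mul_comm]
        exact h2.symm
      exact (QuotientGroup.eq_one_iff _).mp h3
    · refine PCN.pw_le fun x hx => ?_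
      have h1 : (QuotientGroup.mk' K x) ∈ Z := hm hx
      obtain ⟨i, hi⟩ := Subgroup.mem_zpowers_iff.mp h1
      have h2 : QuotientGroup.mk' K (x ^ p) = 1 := by
        rw [map_pow, ← hi, ← zpow_natCast, ← zpow_mul, mul_comm, zpow_mul, zpow_natCast]
        have : (z : X ⧸ K) ^ p = 1 := by
          have := pow_orderOf_eq_one (z : X ⧸ K)
          rwa [hzo] at this
        rw [this, one_zpow]
      exact (QuotientGroup.eq_one_iff _).mp h2

/-- a finitely generated nilpotent group with finite abelianization is finite -/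
private theorem CB_nilp (N : Type) [Group N] [Group.IsNilpotent N] :
    Group.FG N → Finite (N ⧸ commutator N) → Finite N := by
  refine Group.nilpotent_center_quotient_ind
    (P := fun (G : Type) [Group G] [Group.IsNilpotent G] => Group.FG G →
      Finite (G ⧸ commutator G) → Finite G) N ?_ ?_
  · intro G _ _ _ _
    infer_instance
  · intro G _ _ ih hfg hab
    have h1 : Finite (G ⧸ Subgroup.center G) := by
      refine ih (QuotientGroup.fg _) ?_
      have hle : commutator G ≤ (commutator (G ⧸ Subgroup.center G)).comap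
          (QuotientGroup.mk' (Subgroup.center G)) := by
        rw [← Subgroup.map_le_iff_le_comap, commutator_def, commutator_def,
          Subgroup.map_commutator]
        exact Subgroup.commutator_mono le_top le_top
      have hsurj : Function.Surjective (QuotientGroup.map (commutator G)
          (commutator (G ⧸ Subgroup.center G)) (QuotientGroup.mk' (Subgroup.center G)) hle) := by
        intro y
        obtain ⟨y', rfl⟩ := QuotientGroup.mk_surjective y
        obtain ⟨x, rfl⟩ := QuotientGroup.mk_surjective y'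
        exact ⟨(x : G ⧸ commutator G), rfl⟩
      exact Finite.of_surjective _ hsurj
    have h2 : Finite (commutatorSet G) := by
      have hfin2 : Finite ((G ⧸ Subgroup.center G) × (G ⧸ Subgroup.center G)) := inferInstance
      let F : (G ⧸ Subgroup.center G) × (G ⧸ Subgroup.center G) → G := fun q =>
        ⁅q.1.out, q.2.out⁆
      refine Set.Finite.subset (Set.finite_range F) ?_
      rintro _ ⟨g, h, rfl⟩
      refine ⟨((g : G ⧸ Subgroup.center G), (h : G ⧸ Subgroup.center G)), ?_⟩
      obtain ⟨c, hc⟩ := QuotientGroup.mk_out_eq_mul (Subgroup.center G) g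
      obtain ⟨e, he⟩ := QuotientGroup.mk_out_eq_mul (Subgroup.center G) h
      show ⁅((g : G ⧸ Subgroup.center G)).out, ((h : G ⧸ Subgroup.center G)).out⁆ = ⁅g, h⁆
      rw [hc, he]
      have hc1 := Subgroup.mem_center_iff.mp c.2
      have he1 := Subgroup.mem_center_iff.mp e.2
      simp only [commutatorElement_def, mul_inv_rev]
      have e1 : g * (c : G) * (h * (e : G)) * ((c : G)⁻¹ * g⁻¹) * ((e : G)⁻¹ * h⁻¹)
          = g * ((c : G) * h * (e : G) * (c : G)⁻¹) * g⁻¹ * (e : G)⁻¹ * h⁻¹ := by group
      rw [e1]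
      have e2 : (c : G) * h * (e : G) * (c : G)⁻¹ = h * (e : G) := by
        rw [← hc1 h, mul_assoc h, he1 (c : G)]
        group
      rw [e2]
      have e3 : g * (h * (e : G)) * g⁻¹ * (e : G)⁻¹ = g * h * g⁻¹ := by
        rw [← mul_assoc g h, mul_assoc (g * h), ← he1 g⁻¹]
        group
      rw [e3]
    have h3 : Finite (commutator G) := inferInstance
    exact Finite.of_equiv _ (Subgroup.groupEquivQuotientProdSubgroup
      (s := commutator G)).symm

/-- ROW CB: contraction and unbounded p-quotients give b_1 > 0. -/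
theorem contr_b1 {X : Type} [Group X] [Group.FG X] (p : ℕ) [Fact p.Prime] (θ : X →* X)
    (hfin : θ.range.FiniteIndex) (r : ℕ) (hr : ∀ x : X, θ^[r] x ∈ (PCN.L p 1 : Subgroup X))
    (hq : ∀ n : ℕ, ∃ K : Subgroup X, K.Normal ∧ (∃ a, K.index = p ^ a) ∧ n ≤ K.index) :
    ∃ Y : Subgroup X, Y.FiniteIndex ∧ ∃ c : Y →* Multiplicative ℤ, c ≠ 1 := by
  obtain ⟨n, w, hYfin, hYw⟩ := contr_core p θ hfin r hr
  set Y : Subgroup X := PCN.L p n with hY
  refine ⟨Y, hYfin, ?_⟩
  by_contra hc
  push Not at hc
  set I : Subgroup X := ⨅ m, PCN.L p m with hI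
  have hIn : I.Normal := by
    rw [hI]
    exact Subgroup.normal_iInf_normal fun m => PCN.L_normal p m
  have hIYn : (I.subgroupOf Y).Normal := by infer_instance
  have hYfg : Group.FG Y := Subgroup.fg_of_index_ne_zero Y
  have hNfg : Group.FG (Y ⧸ I.subgroupOf Y) := QuotientGroup.fg _
  have hNnil : Group.IsNilpotent (Y ⧸ I.subgroupOf Y) := by
    rw [Subgroup.nilpotent_iff_lowerCentralSeries]
    refine ⟨w, ?_⟩
    have htop : (⊤ : Subgroup (Y ⧸ I.subgroupOf Y))
        = (⊤ : Subgroup Y).map (QuotientGroup.mk' (I.subgroupOf Y)) := by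
      rw [← MonoidHom.range_eq_map]
      exact (MonoidHom.range_eq_top.2 (QuotientGroup.mk'_surjective _)).symm
    rw [htop, ← Subgroup.map_lowerCentralSeries, Subgroup.map_eq_bot_iff, QuotientGroup.ker_mk']
    intro y hy
    rw [Subgroup.mem_subgroupOf, hI, Subgroup.mem_iInf]
    refine hYw y.1 ?_ y.2
    have h1 : (y : X) ∈ (Y.lowerCentralSeries w) := by
      rw [← Subgroup.top_subtype_lowerCentralSeries]
      exact ⟨y, hy, rfl⟩
    have hmono : ∀ k, Y.lowerCentralSeries k ≤ (⊤ : Subgroup X).lowerCentralSeries k := by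
      intro k
      induction k with
      | zero => exact le_top
      | succ k ih => exact Subgroup.commutator_mono ih le_top
    exact hmono w h1
  have hab : Finite ((Y ⧸ I.subgroupOf Y) ⧸ commutator (Y ⧸ I.subgroupOf Y)) := by
    have : Group.FG (Abelianization (Y ⧸ I.subgroupOf Y)) := QuotientGroup.fg (commutator _)
    have : AddGroup.FG (Additive (Abelianization (Y ⧸ I.subgroupOf Y))) := inferInstance
    have : Module.Finite ℤ (Additive (Abelianization (Y ⧸ I.subgroupOf Y))) :=
      Module.Finite.iff_addGroup_fg.2 inferInstance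
    have hfin : Finite (Additive (Abelianization (Y ⧸ I.subgroupOf Y))) := by
      refine AB_finite (fun f => ?_)
      have h1 := hc (((AddMonoidHom.toMultiplicativeRight f.toAddMonoidHom).comp
        Abelianization.of).comp (QuotientGroup.mk' (I.subgroupOf Y)))
      ext a
      obtain ⟨x, hx⟩ := QuotientGroup.mk_surjective (Additive.toMul a)
      obtain ⟨x', rfl⟩ := QuotientGroup.mk_surjective x
      have h2 := DFunLike.congr_fun h1 x'
      have h3 : a = Additive.ofMul (Abelianization.of (x' : Y ⧸ I.subgroupOf Y)) := by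
        rw [← ofMul_toMul a]
        congr 1
        exact hx.symm
      rw [h3]
      exact Multiplicative.ofAdd.injective h2
    exact hfin
  have hNfin : Finite (Y ⧸ I.subgroupOf Y) := CB_nilp _ hNfg hab
  have hIYfin : (I.subgroupOf Y).index ≠ 0 := by
    rw [Subgroup.index]
    exact Nat.card_pos.ne'
  have hIY : I ≤ Y := iInf_le _ n
  have hIfin : I.index ≠ 0 := by
    rw [← Subgroup.relIndex_mul_index hIY]
    exact mul_ne_zero hIYfin hYfin.index_ne_zero
  obtain ⟨K, hKn, ⟨a, ha⟩, hK⟩ := hq (I.index + 1)
  obtain ⟨m, hm⟩ := CB_term p a K hKn ha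
  have hIK : I ≤ K := (iInf_le _ m).trans hm
  have := Nat.le_of_dvd (Nat.pos_of_ne_zero hIfin) (Subgroup.index_dvd_of_le hIK)
  omega

end BCX
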