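import Pool.Agent.PCN.Series
import Pool.Agent.EssMap.Link

/-!
# Characters modulo `p` and the first term of the lower exponent-`p` central series
-/

set_option autoImplicit false

open scoped commutatorElement

namespace BCX

/-- An element killed by all homomorphisms to the field with `p` elements lies in
`X^p [X, X]`. -/
theorem mem_L_one {X : Type} [Group X] (p : ℕ) [Fact p.Prime] (x : X)
    (h : ∀ c : X →* Multiplicative (ZMod p), c x = 1) : x ∈ (PCN.L p 1 : Subgroup X) := by
  have hcom : commutator X ≤ (PCN.L p 1 : Subgroup X) := by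
    have h1 := PCN.L_comm_le (G := X) p 0
    rw [PCN.L_zero] at h1
    exact h1
  have hpow : ∀ y : X, y ^ p ∈ (PCN.L p 1 : Subgroup X) := by
    intro y
    apply PCN.L_pw_le p 0
    apply PCN.pow_mem_pw
    rw [PCN.L_zero]
    exact Subgroup.mem_top y
  have hQ : ∀ a b : X ⧸ (PCN.L p 1 : Subgroup X), a * b = b * a := by
    intro a b
    obtain ⟨a, rfl⟩ := QuotientGroup.mk'_surjective _ a
    obtain ⟨b, rfl⟩ := QuotientGroup.mk'_surjective _ b
    rw [← map_mul, ← map_mul]
    apply (QuotientGroup.eq).2
    apply hcom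
    have h1 : (a * b)⁻¹ * (b * a) = ⁅b⁻¹, a⁻¹⁆ := by
      rw [commutatorElement_def]
      group
    rw [h1]
    exact Subgroup.commutator_mem_commutator (Subgroup.mem_top _) (Subgroup.mem_top _)
  let iQ : CommGroup (X ⧸ (PCN.L p 1 : Subgroup X)) :=
    { (inferInstance : Group (X ⧸ (PCN.L p 1 : Subgroup X))) with mul_comm := hQ }
  by_contra hx
  obtain ⟨c, hc⟩ := EssMap.exists_charE (A := X ⧸ (PCN.L p 1 : Subgroup X))
    (QuotientGroup.mk' (PCN.L p 1 : Subgroup X)) p (Fact.out : p.Prime).pos
    (fun y => by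
      rw [← map_pow]
      exact (QuotientGroup.eq_one_iff _).2 (hpow y)) x
    (fun h1 => hx ((QuotientGroup.eq_one_iff x).1 h1))
  exact hc (h c)

end BCX
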