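import Mathlib

set_option autoImplicit false

namespace BCX

/-- ROW HQ: unbounded p-quotients pass to subgroups of finite index -/
theorem hq_sub {G : Type} [Group G] (p : ℕ) [Fact p.Prime]
    (hq : ∀ n : ℕ, ∃ K : Subgroup G, K.Normal ∧ (∃ a, K.index = p ^ a) ∧ n ≤ K.index)
    (X : Subgroup G) (hX : X.FiniteIndex) :
    ∀ n : ℕ, ∃ K : Subgroup X, K.Normal ∧ (∃ a, K.index = p ^ a) ∧ n ≤ K.index := by
  intro n
  obtain ⟨K, hK, ⟨a, ha⟩, hn⟩ := hq (n * X.index)
  have hp : p.Prime := Fact.out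
  have hX0 : X.index ≠ 0 := hX.index_ne_zero
  have hK0 : K.index ≠ 0 := by
    rw [ha]
    exact pow_ne_zero _ hp.ne_zero
  have hinf : (K ⊓ X).index ≠ 0 := Subgroup.index_inf_ne_zero hK0 hX0
  have h1 : K.relIndex X * X.index = (K ⊓ X).index := by
    rw [← Subgroup.inf_relIndex_right K X]
    exact Subgroup.relIndex_mul_index inf_le_right
  have h2 : K.index ≤ (K ⊓ X).index :=
    Nat.le_of_dvd (Nat.pos_of_ne_zero hinf) (Subgroup.index_dvd_of_le inf_le_left)
  have h3 : (K.subgroupOf X).index = K.relIndex X := rfl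
  refine ⟨K.subgroupOf X, hK.subgroupOf X, ?_, ?_⟩
  · have h4 : K.relIndex X ∣ p ^ a := by
      rw [← ha]
      exact Subgroup.relIndex_dvd_index_of_normal K X
    obtain ⟨b, _, hb⟩ := (Nat.dvd_prime_pow hp).1 h4
    exact ⟨b, h3.trans hb⟩
  · rw [h3]
    have h5 : n * X.index ≤ K.relIndex X * X.index := by
      rw [h1]
      exact hn.trans h2
    exact Nat.le_of_mul_le_mul_right h5 (Nat.pos_of_ne_zero hX0)

end BCX
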