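import Pool.Agent.BCX.Defs

/-!
# BCX, row DEL: the connecting homomorphism commutes with `θ^*`
-/

set_option autoImplicit false

open CategoryTheory groupCohomology EssMap
open scoped commutatorElement

namespace BCX

section coh

variable {G : Type} [Group G] (θ : G →* G)

/-- the endomorphism of the short complex of cochain complexes -/
private noncomputable def delPhi {X : ShortComplex (Rep ℤ G)}
    (h1 : ∀ g, X.X₁.ρ (θ g) = X.X₁.ρ g) (h2 : ∀ g, X.X₂.ρ (θ g) = X.X₂.ρ g)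
    (h3 : ∀ g, X.X₃.ρ (θ g) = X.X₃.ρ g) :
    X.map (cochainsFunctor ℤ G) ⟶ X.map (cochainsFunctor ℤ G) where
  τ₁ := cochainsMap θ (tw θ X.X₁ h1)
  τ₂ := cochainsMap θ (tw θ X.X₂ h2)
  τ₃ := cochainsMap θ (tw θ X.X₃ h3)
  comm₁₂ := by
    ext i x
    rfl
  comm₂₃ := by
    ext i x
    rfl

/-- ROW DEL -/
theorem TT_delta {X : ShortComplex (Rep ℤ G)} (hX : X.ShortExact)
    (h1 : ∀ g, X.X₁.ρ (θ g) = X.X₁.ρ g) (h2 : ∀ g, X.X₂.ρ (θ g) = X.X₂.ρ g)
    (h3 : ∀ g, X.X₃.ρ (θ g) = X.X₃.ρ g) (i j : ℕ) (hij : i + 1 = j)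
    (x : groupCohomology X.X₃ i) :
    (δ hX i j hij).hom (TT θ X.X₃ h3 i x) = TT θ X.X₁ h1 j ((δ hX i j hij).hom x) := by
  have h := HomologicalComplex.HomologySequence.δ_naturality (delPhi θ h1 h2 h3)
    (map_cochainsFunctor_shortExact hX) (map_cochainsFunctor_shortExact hX) i j hij
  have h' := congrArg (fun f => f.hom x) h
  exact h'.symm

end coh

end BCX
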