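import Pool.Agent.BCX.Defs

/-!
# Devissage of the good modules
-/

set_option autoImplicit false

open CategoryTheory groupCohomology EssMap
open scoped commutatorElement

namespace BCX

section fil

variable {G : Type} [Group G] (θ : G →* G)

private theorem FIL_fix (p : ℕ) [Fact p.Prime] (V : Rep ℤ G) (hV : Good θ p V)
    (hn : ¬ Subsingleton V) : ∃ u : V, u ≠ 0 ∧ p • u = 0 ∧ ∀ g, V.ρ g u = u := by
  have hfin : Finite V := hV.fin
  have hp : p.Prime := Fact.out
  let φ := MonoidHom.toHomUnits V.ρ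
  have hH : IsPGroup p φ.range := by
    rintro ⟨x, g, rfl⟩
    obtain ⟨n, h⟩ := hV.pgr g
    refine ⟨n, ?_⟩
    apply Subtype.ext
    show (φ g) ^ p ^ n = 1
    rw [← map_pow]
    apply Units.ext
    exact h
  have h1 := hH.card_modEq_card_fixedPoints V
  obtain ⟨n, hc⟩ := hV.pp
  have hn0 : n ≠ 0 := by
    rintro rfl
    rw [pow_zero, Nat.card_eq_one_iff_unique] at hc
    exact hn hc.1
  have h2 : p ∣ Nat.card V := by
    rw [hc]
    exact dvd_pow_self p hn0
  have h3 : p ∣ Nat.card (MulAction.fixedPoints φ.range V) := by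
    have := (Nat.modEq_zero_iff_dvd.2 h2)
    exact (Nat.modEq_zero_iff_dvd.1 (h1.symm.trans this))
  have h0 : (0 : V) ∈ MulAction.fixedPoints φ.range V := by
    rintro ⟨x, g, rfl⟩
    show V.ρ g 0 = 0
    exact map_zero _
  have h4 : 0 < Nat.card (MulAction.fixedPoints φ.range V) :=
    Nat.card_pos_iff.2 ⟨⟨⟨0, h0⟩⟩, inferInstance⟩
  have h5 : 1 < Nat.card (MulAction.fixedPoints φ.range V) :=
    lt_of_lt_of_le hp.one_lt (Nat.le_of_dvd h4 h3)
  rw [Finite.one_lt_card_iff_nontrivial] at h5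
  obtain ⟨⟨v, hv⟩, hne⟩ := exists_ne (⟨0, h0⟩ : MulAction.fixedPoints φ.range V)
  have hv0 : v ≠ 0 := fun h => hne (Subtype.ext h)
  have hvf : ∀ g, V.ρ g v = v := fun g => hv ⟨φ g, g, rfl⟩
  have h6 : addOrderOf v ∣ p ^ n := by
    rw [← hc]
    exact addOrderOf_dvd_natCard v
  obtain ⟨k, -, hk⟩ := (Nat.dvd_prime_pow hp).1 h6
  have hk0 : k ≠ 0 := by
    rintro rfl
    rw [pow_zero, AddMonoid.addOrderOf_eq_one_iff] at hk
    exact hv0 hk
  obtain ⟨j, rfl⟩ := Nat.exists_eq_succ_of_ne_zero hk0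
  refine ⟨p ^ j • v, ?_, ?_, ?_⟩
  · intro h
    have h7 := addOrderOf_dvd_of_nsmul_eq_zero h
    rw [hk] at h7
    have h8 := Nat.le_of_dvd (pow_pos hp.pos j) h7
    have h9 : p ^ j < p ^ (j + 1) := Nat.pow_lt_pow_right hp.one_lt (Nat.lt_succ_self j)
    exact absurd h8 (not_le.2 h9)
  · rw [← mul_nsmul', mul_comm, ← pow_succ]
    rw [show p ^ (j + 1) = addOrderOf v from hk.symm]
    exact addOrderOf_nsmul_eq_zero v
  · intro g
    rw [map_nsmul, hvf g]

private theorem FIL_map {M : Type} [AddCommGroup M] [hM : Module ℤ M] (ρ : Representation ℤ G M)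
    (p : ℕ) [Fact p.Prime] (u : M) (h0 : u ≠ 0) (hu : p • u = 0) (hf : ∀ g, ρ g u = u) :
    ∃ f : Fm G p ⟶ Rep.of ρ, Function.Injective f.hom := by
  have hz : (zmultiplesHom M) u (p : ℤ) = 0 := by
    rw [zmultiplesHom_apply, natCast_zsmul]
    exact hu
  let f0 : ZMod p →+ M := ZMod.lift p ⟨(zmultiplesHom M) u, hz⟩
  have hf0 : ∀ n : ℤ, f0 (n : ZMod p) = n • u := by
    intro n
    show ZMod.lift p ⟨(zmultiplesHom M) u, hz⟩ (n : ZMod p) = n • u
    rw [ZMod.lift_coe]
    rfl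
  have hinv : ∀ x : ZMod p, ∀ g, ρ g (f0 x) = f0 x := by
    intro x g
    obtain ⟨n, rfl⟩ := ZMod.intCast_surjective x
    rw [hf0, map_zsmul, hf]
  let f1 : ZMod p →ₗ[ℤ] M :=
    { toFun := f0
      map_add' := map_add f0
      map_smul' := fun m x => by
        rw [RingHom.id_apply]
        have e1 : f0 (m • x) = (AddCommGroup.toIntModule M).smul m (f0 x) := map_zsmul f0 m x
        rw [e1]
        exact (int_smul_eq_zsmul hM m (f0 x)).symm }
  have hinj : Function.Injective f0 := by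
    rw [injective_iff_map_eq_zero]
    intro x hx
    by_contra hx0
    have hfd : Field (ZMod p) := inferInstance
    obtain ⟨n, rfl⟩ := ZMod.intCast_surjective x
    rw [hf0] at hx
    have h1 : (addOrderOf u : ℤ) ∣ n := addOrderOf_dvd_iff_zsmul_eq_zero.2 hx
    have h2 : addOrderOf u = p := addOrderOf_eq_prime hu h0
    rw [h2] at h1
    exact hx0 ((ZMod.intCast_zmod_eq_zero_iff_dvd n p).2 h1)
  have h2 : ∀ g : G, f1 ∘ₗ (Representation.trivial ℤ G (ZMod p)) g = ρ g ∘ₗ f1 := by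
    intro g
    ext x
    exact (hinv x g).symm
  let f2 : (Representation.trivial ℤ G (ZMod p)).IntertwiningMap ρ := ⟨f1, h2⟩
  exact ⟨Rep.ofHom f2, hinj⟩

private theorem FIL_quot {k : Type} [CommRing k] (A V : Rep k G) (f : A ⟶ V)
    (hinj : Function.Injective f.hom) :
    ∃ (W : Rep k G) (q : V ⟶ W) (w : f ≫ q = 0), (ShortComplex.mk f q w).ShortExact ∧
      Function.Surjective q.hom ∧ Nat.card V = Nat.card A * Nat.card W := by
  let R : Submodule k V := LinearMap.range f.hom.toLinearMap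
  have hR : ∀ g, R ≤ R.comap (V.ρ g) := by
    rintro g _ ⟨x, rfl⟩
    exact ⟨A.ρ g x, Rep.hom_comm_apply f g x⟩
  let q := Rep.mkQ V R hR
  have hqs : Function.Surjective q.hom := Submodule.mkQ_surjective R
  have w : f ≫ q = 0 := by
    ext x
    exact (Submodule.Quotient.mk_eq_zero R).2 ⟨x, rfl⟩
  have hmono : Mono f := (Rep.mono_iff_injective _).2 hinj
  have hepi : Epi q := (Rep.epi_iff_surjective _).2 hqs
  refine ⟨Rep.quotient V R hR, q, w, ?_, hqs, ?_⟩
  · refine { exact := ?_, mono_f := hmono, epi_g := hepi }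
    apply rep_exact
    intro x hx
    exact (Submodule.Quotient.mk_eq_zero R).1 hx
  · have h1 : Nat.card A = Nat.card R := Nat.card_congr (Equiv.ofInjective _ hinj)
    rw [Submodule.card_eq_card_quotient_mul_card R, h1, mul_comm]

private theorem FIL_one {k : Type} [CommRing k] (V W : Rep k G) (q : V ⟶ W)
    (hqs : Function.Surjective q.hom) (g h : G) (e : V.ρ g = V.ρ h) : W.ρ g = W.ρ h := by
  apply LinearMap.ext
  intro x
  obtain ⟨y, rfl⟩ := hqs x
  rw [← Rep.hom_comm_apply, ← Rep.hom_comm_apply, e]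

private theorem FIL_step (p : ℕ) [Fact p.Prime] (V : Rep ℤ G) (hV : Good θ p V)
    (hs : ¬ Subsingleton V) :
    ∃ (W : Rep ℤ G) (f : Fm G p ⟶ V) (q : V ⟶ W) (w : f ≫ q = 0),
      (ShortComplex.mk f q w).ShortExact ∧ Good θ p W ∧ Nat.card V = p * Nat.card W := by
  have hp : p.Prime := Fact.out
  obtain ⟨u, hu0, hpu, huf⟩ := FIL_fix θ p V hV hs
  obtain ⟨f, hinj⟩ : ∃ f : Fm G p ⟶ V, Function.Injective f.hom :=
    FIL_map (hM := V.hV2) V.ρ p u hu0 hpu huf
  have hfin : Finite V := hV.fin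
  obtain ⟨W, q, w, hse, hqs, hcard⟩ := FIL_quot (Fm G p) V f hinj
  have hz : Nat.card (Fm G p) = p := Nat.card_zmod p
  rw [hz] at hcard
  have hWf : Finite W := Finite.of_surjective _ hqs
  refine ⟨W, f, q, w, hse, ⟨hWf, ?_, ?_, ?_⟩, hcard⟩
  · obtain ⟨m, hm⟩ := hV.pp
    have hd : Nat.card W ∣ p ^ m := by
      rw [← hm]
      exact ⟨p, by rw [mul_comm]; exact hcard⟩
    obtain ⟨k, -, hk⟩ := (Nat.dvd_prime_pow hp).1 hd
    exact ⟨k, hk⟩
  · intro g
    obtain ⟨m, hm⟩ := hV.pgr g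
    refine ⟨m, ?_⟩
    rw [← map_one V.ρ] at hm
    rw [← map_one W.ρ]
    exact FIL_one V W q hqs _ _ hm
  · intro g
    exact FIL_one V W q hqs _ _ (hV.inv g)

/-- ROW FIL: devissage -/
theorem devissage (p : ℕ) [Fact p.Prime] (P : Rep ℤ G → Prop)
    (h0 : ∀ V : Rep ℤ G, Subsingleton V → P V)
    (h1 : ∀ (V W : Rep ℤ G) (f : Fm G p ⟶ V) (g : V ⟶ W) (w : f ≫ g = 0),
      (ShortComplex.mk f g w).ShortExact → Good θ p V → Good θ p W →
        Nat.card V = p * Nat.card W → P W → P V)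
    (V : Rep ℤ G) (hV : Good θ p V) : P V := by
  have hp : p.Prime := Fact.out
  induction hn : Nat.card V using Nat.strong_induction_on generalizing V with
  | _ n ih =>
    by_cases hs : Subsingleton V
    · exact h0 V hs
    · obtain ⟨W, f, q, w, hse, hW, hcard⟩ := FIL_step θ p V hV hs
      have hlt : Nat.card W < n := by
        have hf := hW.fin
        rw [← hn, hcard]
        have h2 : 0 < Nat.card W := by
          rcases Nat.eq_zero_or_pos (Nat.card W) with h | h
          · exact absurd h Nat.card_pos.ne'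
          · exact h
        have h3 := hp.two_le
        nlinarith
      exact h1 V W f q w hse hV hW hcard (ih _ hlt W hW rfl)

end fil

end BCX
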