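import Pool.Agent.BCX.Bock
import Pool.Agent.BCX.Fil

/-!
# Finiteness of the cohomology in the degrees up to two
-/

set_option autoImplicit false

open CategoryTheory groupCohomology EssMap

namespace BCX

variable {G : Type} [Group G] (θ : G →* G)

theorem finite_h0 (p : ℕ) [Fact p.Prime] : Finite (groupCohomology (Fm G p) 0) := by
  have e := (H0IsoOfIsTrivial (Fm G p)).toLinearEquiv
  have h1 : Finite (ZMod p) := inferInstance
  have h2 : Finite (Fm G p).V := h1
  exact Finite.of_equiv _ e.symm.toEquiv

theorem finite_ext {A B C : Type*} [AddCommGroup A] [AddCommGroup B] [AddCommGroup C]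
    [Finite A] [Finite C] (f : A →+ B) (g : B →+ C) (h : ∀ b, g b = 0 → ∃ a, f a = b) :
    Finite B := by
  have h1 : Finite g.ker := by
    have h2 : Finite f.range := Finite.of_surjective _ f.rangeRestrict_surjective
    have h3 : g.ker ≤ f.range := fun b hb => h b hb
    exact Finite.of_injective _ (AddSubgroup.inclusion_injective h3)
  have h4 : Finite (B ⧸ g.ker) :=
    Finite.of_injective _ (QuotientAddGroup.kerLift_injective g)
  exact Finite.of_equiv _ (AddSubgroup.addGroupEquivQuotientProdAddSubgroup (s := g.ker)).symm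

theorem fin_coh (hG : Dual 3 G) (ho : Ori 3 G = ⊤) (hb : ∀ c : G →* Multiplicative ℤ, c = 1)
    (p : ℕ) [Fact p.Prime]
    (V : Rep ℤ G) (hV : Good θ p V) (n : ℕ) (hn : n ≤ 2) : Finite (groupCohomology V n) := by
  have hp : 0 < p := (Fact.out : p.Prime).pos
  have := hG.fg
  have hbase : Finite (groupCohomology (Fm G p) n) := by
    have h : n = 0 ∨ n = 1 ∨ n = 2 := by omega
    rcases h with rfl | rfl | rfl
    · exact finite_h0 p
    · exact finite_h1 p
    · exact finite_h2 hG ho hb p hp
  refine devissage θ p (fun V => Finite (groupCohomology V n)) ?_ ?_ V hV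
  · intro V hs
    have h : Subsingleton (groupCohomology V n) :=
      ⟨fun x y => (coh_sub V n x).trans (coh_sub V n y).symm⟩
    infer_instance
  · intro V W f g w hX hV hW _ ih
    exact finite_ext (cmap f n).toAddMonoidHom (cmap g n).toAddMonoidHom
      (fun b hb => (les2 hX n b).1 hb)

end BCX
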