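import Pool.Agent.BCX.Defs

/-!
# BCX, row NAT: the endomorphism of the cohomology is natural in the coefficients
-/

set_option autoImplicit false

open CategoryTheory groupCohomology EssMap
open scoped commutatorElement

namespace BCX

section coh

variable {G : Type} [Group G] (θ : G →* G)

/-- ROW NAT -/
theorem TT_nat {V W : Rep ℤ G} (hV : ∀ g, V.ρ (θ g) = V.ρ g) (hW : ∀ g, W.ρ (θ g) = W.ρ g)
    (f : V ⟶ W) (n : ℕ) (x : groupCohomology V n) :
    cmap f n (TT θ V hV n x) = TT θ W hW n (cmap f n x) := by
  unfold TT cmap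
  have h1 := groupCohomology.map_comp (A := V) (MonoidHom.id G) θ f (tw θ W hW) n
  have h2 := groupCohomology.map_comp (A := V) (B := V) θ (MonoidHom.id G) (tw θ V hV) f n
  have h3 : groupCohomology.map ((MonoidHom.id G).comp θ)
      ((Rep.resFunctor θ).map f ≫ tw θ W hW) n =
      groupCohomology.map (θ.comp (MonoidHom.id G))
      ((Rep.resFunctor (MonoidHom.id G)).map (tw θ V hV) ≫ f) n := by
    apply groupCohomology.map_congr
    · rfl
    · rfl
  rw [h1, h2] at h3
  exact (congrArg (fun F => F.hom x) h3).symm

end coh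

end BCX
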