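import Pool.Agent.BCX.Defs

/-!
# The top degree with trivial coefficients
-/

set_option autoImplicit false

open CategoryTheory groupCohomology EssMap
open scoped commutatorElement

namespace BCX

variable {G : Type} [Group G] (θ : G →* G)

private theorem H3_pullB_comp (B : Type) [AddCommGroup B] {G H K : Type} [Group G] [Group H]
    [Group K] (f : H →* K) (g : G →* H) (n : ℕ)
    (x : groupCohomology (Rep.trivial ℤ K B) n) :
    pullB B (f.comp g) n x = pullB B g n (pullB B f n x) := by
  unfold pullB
  have h := groupCohomology.map_comp f g (trB B f) (trB B g) n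
  have h2 : groupCohomology.map (f.comp g) (trB B (f.comp g)) n =
      groupCohomology.map f (trB B f) n ≫ groupCohomology.map g (trB B g) n := by
    rw [← h]
    exact groupCohomology.map_congr rfl rfl n
  rw [h2]
  rfl

private theorem H3_TT (m n : ℕ) (x : groupCohomology (Fm G m) n) :
    TT θ (Fm G m) (Fm_inv θ m) n x = pullB (ZMod m) θ n x := by
  unfold TT pullB
  have h : groupCohomology.map θ (tw θ (Fm G m) (Fm_inv θ m)) n =
      groupCohomology.map θ (trB (ZMod m) θ) n := by
    exact groupCohomology.map_congr rfl rfl n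
  rw [h]
  rfl

/-- ROW H3: the top degree with trivial coefficients -/
theorem h3_zero (hG : Dual 3 G) (ho : Ori 3 G = ⊤) (hinj : Function.Injective θ)
    (hfin : θ.range.FiniteIndex) (p : ℕ) [Fact p.Prime] (hp : p ∣ θ.range.index)
    (x : groupCohomology (Fm G p) 3) : TT θ (Fm G p) (Fm_inv θ p) 3 x = 0 := by
  have h1 : θ.range.subtype.comp θ.rangeRestrict = θ := MonoidHom.subtype_comp_rangeRestrict θ
  rw [H3_TT]
  have h2 : pullB (ZMod p) θ 3 x =
      pullB (ZMod p) (θ.range.subtype.comp θ.rangeRestrict) 3 x := by
    rw [h1]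
  rw [h2, H3_pullB_comp, res_mod 3 hG.cd ho θ.range p hp x, map_zero]

end BCX
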