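import Pool.Agent.BCX.Les
import Pool.Agent.BCX.Nat
import Pool.Agent.BCX.Fil
import Pool.Agent.BCX.H3

/-!
# The top degree: the endomorphism is nilpotent
-/

set_option autoImplicit false

open CategoryTheory groupCohomology EssMap

namespace BCX

variable {G : Type} [Group G] (θ : G →* G)

theorem TT_iter_nat {V W : Rep ℤ G} (hV : ∀ g, V.ρ (θ g) = V.ρ g)
    (hW : ∀ g, W.ρ (θ g) = W.ρ g) (f : V ⟶ W) (n k : ℕ) (x : groupCohomology V n) :
    cmap f n ((TT θ V hV n)^[k] x) = (TT θ W hW n)^[k] (cmap f n x) := by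
  induction k generalizing x with
  | zero => rfl
  | succ k ih => rw [Function.iterate_succ_apply, Function.iterate_succ_apply, ih, TT_nat θ hV hW]

theorem top_nil (hG : Dual 3 G) (ho : Ori 3 G = ⊤) (hinj : Function.Injective θ)
    (hfin : θ.range.FiniteIndex) (p : ℕ) [Fact p.Prime] (hp : p ∣ θ.range.index)
    (V : Rep ℤ G) (hV : Good θ p V) :
    ∃ k, ∀ x : groupCohomology V 3, (TT θ V hV.inv 3)^[k] x = 0 := by
  have key := devissage θ p (fun V => ∀ h : ∀ g, V.ρ (θ g) = V.ρ g,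
    ∃ k, ∀ x : groupCohomology V 3, (TT θ V h 3)^[k] x = 0) ?_ ?_ V hV
  · exact key hV.inv
  · intro V hs h
    exact ⟨0, fun x => coh_sub V 3 x⟩
  · intro V W f g w hX hV hW _ ih h
    obtain ⟨k, hk⟩ := ih hW.inv
    refine ⟨k + 1, fun x => ?_⟩
    have h1 : cmap g 3 ((TT θ V h 3)^[k] x) = 0 := by
      rw [TT_iter_nat θ h hW.inv, hk]
    obtain ⟨y, hy⟩ := (les2 hX 3 ((TT θ V h 3)^[k] x)).1 h1
    have hy2 : cmap f 3 y = (TT θ V h 3)^[k] x := hy
    rw [Function.iterate_succ_apply', ← hy2, ← TT_nat θ (Fm_inv θ p) h f 3 y,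
      h3_zero θ hG ho hinj hfin p hp, map_zero]

end BCX
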