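import Pool.Agent.BCX.Defs

/-!
# The coinduced module is good
-/

set_option autoImplicit false

open CategoryTheory groupCohomology EssMap
open scoped commutatorElement

namespace BCX

section coh

variable {G : Type} [Group G] (θ : G →* G)

private theorem Coi_inv (p : ℕ) [Fact p.Prime] (U : Subgroup G) [hn : U.Normal]
    (f : Rep.coind U.subtype (Fm U p)) (h g : G) (hg : g ∈ U) : f.1 (h * g) = f.1 h := by
  have h1 := f.2 ⟨h * g * h⁻¹, hn.conj_mem g hg h⟩ h
  have h2 : U.subtype ⟨h * g * h⁻¹, hn.conj_mem g hg h⟩ * h = h * g := by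
    show h * g * h⁻¹ * h = h * g
    group
  rw [h2] at h1
  exact h1

private theorem Coi_rho (p : ℕ) [Fact p.Prime] (U : Subgroup G)
    (f : Rep.coind U.subtype (Fm U p)) (h g : G) :
    ((Rep.coind U.subtype (Fm U p)).ρ g f).1 h = f.1 (h * g) := rfl

private noncomputable def Coi_equiv (p : ℕ) [Fact p.Prime] (U : Subgroup G) [hn : U.Normal] :
    Rep.coind U.subtype (Fm U p) ≃ (G ⧸ U → ZMod p) where
  toFun f := fun q => Quotient.liftOn' q f.1 (fun a b hab => by
    have h1 : a⁻¹ * b ∈ U := QuotientGroup.leftRel_apply.1 hab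
    have h2 := Coi_inv p U f a (a⁻¹ * b) h1
    rw [mul_inv_cancel_left] at h2
    exact h2.symm)
  invFun F := ⟨fun g => F (g : G ⧸ U), fun u h => by
    show F ((U.subtype u * h : G) : G ⧸ U) = F (h : G ⧸ U)
    congr 1
    rw [QuotientGroup.eq]
    show ((u : G) * h)⁻¹ * h ∈ U
    have h1 := hn.conj_mem (u : G)⁻¹ (U.inv_mem u.2) h⁻¹
    rw [inv_inv] at h1
    rw [mul_inv_rev]
    exact h1⟩
  left_inv f := Subtype.ext (funext fun g => rfl)
  right_inv F := by
    funext q
    induction q using Quotient.inductionOn'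
    rfl

theorem coi_good (p : ℕ) [Fact p.Prime] (U : Subgroup G) [U.Normal] [U.FiniteIndex]
    (hU : ∀ x : G, ∃ n : ℕ, x ^ p ^ n ∈ U) (hθ : ∀ g, g⁻¹ * θ g ∈ U) :
    Good θ p (Rep.coind U.subtype (Fm U p)) ∧
      Nat.card (Rep.coind U.subtype (Fm U p)) = p ^ U.index ∧
      ∀ h, un θ (Rep.coind U.subtype (Fm U p)) h 0 ≤ p := by
  have hcard : Nat.card (Rep.coind U.subtype (Fm U p)) = p ^ U.index := by
    rw [Nat.card_congr (Coi_equiv p U), Nat.card_fun, Nat.card_zmod]
    rfl
  refine ⟨⟨?_, ⟨_, hcard⟩, ?_, ?_⟩, hcard, ?_⟩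
  · exact Finite.of_equiv _ (Coi_equiv p U).symm
  · intro g
    obtain ⟨n, hn⟩ := hU g
    refine ⟨n, ?_⟩
    refine LinearMap.ext fun f => Subtype.ext (funext fun h => ?_)
    exact Coi_inv p U f h _ hn
  · intro g
    refine LinearMap.ext fun f => Subtype.ext (funext fun h => ?_)
    show f.1 (h * θ g) = f.1 (h * g)
    have h1 := Coi_inv p U f (h * g) _ (hθ g)
    have h2 : h * g * (g⁻¹ * θ g) = h * θ g := by group
    rw [h2] at h1
    exact h1
  · intro h
    have key : Function.Injective (fun x : st (TT θ (Rep.coind U.subtype (Fm U p)) h 0) =>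
        ((H0Iso (Rep.coind U.subtype (Fm U p))).hom x.1).1.1 1) := by
      intro x y hxy
      apply Subtype.ext
      have h1 : Function.Injective (H0Iso (Rep.coind U.subtype (Fm U p))).hom :=
        (ModuleCat.mono_iff_injective _).1 inferInstance
      apply h1
      apply Subtype.ext
      apply Subtype.ext
      funext g
      have hx := ((H0Iso (Rep.coind U.subtype (Fm U p))).hom x.1).2 g
      have hy := ((H0Iso (Rep.coind U.subtype (Fm U p))).hom y.1).2 g
      have hx1 := congrFun (congrArg Subtype.val hx) 1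
      have hy1 := congrFun (congrArg Subtype.val hy) 1
      rw [← one_mul g]
      exact (hx1.trans hxy).trans hy1.symm
    have h2 := Nat.card_le_card_of_injective _ key
    rw [Nat.card_zmod] at h2
    exact h2

end coh

end BCX
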