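import Pool.Agent.BCX.Bock

/-!
# The Shapiro map and the stable parts
-/

set_option autoImplicit false

open CategoryTheory groupCohomology EssMap

namespace BCX

variable {G : Type} [Group G] (θ : G →* G)

theorem shA_TT (p : ℕ) (U : Subgroup G) (hU : ∀ x ∈ U, θ x ∈ U)
    (h : ∀ g, (Rep.coind U.subtype (Fm U p)).ρ (θ g) = (Rep.coind U.subtype (Fm U p)).ρ g)
    (n : ℕ) (x : groupCohomology (Rep.coind U.subtype (Fm U p)) n) :
    shA U (Fm U p) n (TT θ (Rep.coind U.subtype (Fm U p)) h n x) =
      TT (rst θ U hU) (Fm U p) (Fm_inv _ p) n (shA U (Fm U p) n x) := by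
  have h1 := groupCohomology.map_comp θ U.subtype (tw θ (Rep.coind U.subtype (Fm U p)) h)
    (evA U (Fm U p)) n
  have h2 := groupCohomology.map_comp U.subtype (rst θ U hU) (evA U (Fm U p))
    (tw (rst θ U hU) (Fm U p) (Fm_inv _ p)) n
  have h3 := h1.symm.trans ((groupCohomology.map_congr rfl rfl n).trans h2)
  exact congrArg (fun F => F.hom x) h3

theorem finite_coind (p : ℕ) (U : Subgroup G) (n : ℕ)
    (hfin : Finite (groupCohomology (Fm U p) n)) :
    Finite (groupCohomology (Rep.coind U.subtype (Fm U p)) n) := by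
  let i := (groupCohomology.coindIso (Fm U p) n).toLinearEquiv
  exact Finite.of_equiv _ i.symm.toEquiv

theorem shA_bij (p : ℕ) (U : Subgroup G) (n : ℕ)
    (hfin : Finite (groupCohomology (Fm U p) n)) :
    Function.Bijective (shA U (Fm U p) n) := by
  have h1 := finite_coind p U n hfin
  let i := (groupCohomology.coindIso (Fm U p) n).toLinearEquiv
  have h2 : Function.Surjective (i.symm.toLinearMap.comp (shA U (Fm U p) n)) :=
    i.symm.surjective.comp (shA_surjective U (Fm U p) n)
  have h3 := Finite.injective_iff_surjective.2 h2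
  refine ⟨?_, shA_surjective U (Fm U p) n⟩
  intro a b hab
  apply h3
  show i.symm (shA U (Fm U p) n a) = i.symm (shA U (Fm U p) n b)
  rw [hab]

/-- Shapiro: equality of the orders of the stable parts, all degrees -/
theorem shapiro_un (p : ℕ) (U : Subgroup G) (hU : ∀ x ∈ U, θ x ∈ U)
    (h : ∀ g, (Rep.coind U.subtype (Fm U p)).ρ (θ g) = (Rep.coind U.subtype (Fm U p)).ρ g)
    (n : ℕ) (hfin : Finite (groupCohomology (Fm U p) n)) :
    un θ (Rep.coind U.subtype (Fm U p)) h n = un (rst θ U hU) (Fm U p) (Fm_inv _ p) n := by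
  have h1 := finite_coind p U n hfin
  unfold un
  rw [card_st, card_st]
  exact BCXA.un_equiv (shA U (Fm U p) n).toAddMonoidHom
    (fun x => shA_TT θ p U hU h n x) (shA_bij p U n hfin)

end BCX
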