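import Pool.Agent.BCX.Fin
import Pool.Agent.BCX.Sha
import Pool.Agent.BCX.Chi
import Pool.Agent.BCX.Coi

/-!
# The endomorphism is nilpotent on the first cohomology modulo `p`
-/

set_option autoImplicit false

open CategoryTheory groupCohomology EssMap

namespace BCX

theorem exists_idem_iter {α : Type*} [Finite α] (f : α → α) :
    ∃ n : ℕ, 0 < n ∧ ∀ x, f^[n] (f^[n] x) = f^[n] x := by
  have h1 : ∃ m n : ℕ, m < n ∧ f^[m] = f^[n] := by
    have h2 : ¬ Function.Injective (fun n : ℕ => f^[n]) := by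
      intro hinj
      have := Finite.of_injective _ hinj
      exact not_finite ℕ
    rw [Function.Injective] at h2
    push Not at h2
    obtain ⟨a, b, hab, hne⟩ := h2
    rcases lt_or_gt_of_ne hne with h | h
    · exact ⟨a, b, h, hab⟩
    · exact ⟨b, a, h, hab.symm⟩
  obtain ⟨m, n, hmn, h⟩ := h1
  have key : ∀ k, m ≤ k → ∀ j, f^[k + j * (n - m)] = f^[k] := by
    intro k hk j
    induction j with
    | zero => rw [zero_mul, add_zero]
    | succ j ih =>
      have h3 : k + (j + 1) * (n - m) = (k - m + j * (n - m)) + n := by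
        have : (j + 1) * (n - m) = j * (n - m) + (n - m) := by ring
        omega
      have h4 : k + j * (n - m) = (k - m + j * (n - m)) + m := by omega
      rw [h3, Function.iterate_add, ← h, ← Function.iterate_add, ← h4, ih]
  refine ⟨(m + 1) * (n - m), Nat.mul_pos (Nat.succ_pos m) (by omega), fun x => ?_⟩
  rw [← Function.iterate_add_apply]
  have h5 : m ≤ (m + 1) * (n - m) := by
    have : 1 ≤ n - m := by omega
    nlinarith
  rw [key _ h5 (m + 1)]

theorem pow_p_one (p : ℕ) [Fact p.Prime] (z : Multiplicative (ZMod p)) : z ^ p = 1 := by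
  apply Multiplicative.toAdd.injective
  rw [toAdd_pow, toAdd_one, nsmul_eq_mul, CharP.cast_eq_zero, zero_mul]

theorem fix_case {G : Type} [Group G] (hG : Dual 3 G) (ho : Ori 3 G = ⊤) (θ : G →* G)
    (hinj : Function.Injective θ) (hfin : θ.range.FiniteIndex) (p : ℕ) [Fact p.Prime]
    (hp : p ∣ θ.range.index)
    (hb : ∀ U : Subgroup G, U.FiniteIndex → ∀ c : U →* Multiplicative ℤ, c = 1)
    (b : G →* Multiplicative (ZMod p)) (hfix : ∀ x, b (θ x) = b x) : b = 1 := by
  by_contra hne
  have hpp : p.Prime := Fact.out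
  have hbG : ∀ c : G →* Multiplicative ℤ, c = 1 := by
    intro c
    have h1 := hb ⊤ inferInstance (c.comp (⊤ : Subgroup G).subtype)
    ext g
    exact congrArg (fun F : (⊤ : Subgroup G) →* Multiplicative ℤ =>
      (F ⟨g, Subgroup.mem_top g⟩).toAdd) h1
  have hfi : b.ker.FiniteIndex := by
    have : Finite b.range := inferInstance
    infer_instance
  have hU : ∀ x ∈ b.ker, θ x ∈ b.ker := by
    intro x hx
    rw [MonoidHom.mem_ker] at hx ⊢
    rw [hfix, hx]
  have hθ : ∀ g, g⁻¹ * θ g ∈ b.ker := by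
    intro g
    rw [MonoidHom.mem_ker, map_mul, map_inv, hfix, inv_mul_cancel]
  have hpU : ∀ x : G, ∃ n : ℕ, x ^ p ^ n ∈ b.ker := by
    intro x
    refine ⟨1, ?_⟩
    rw [MonoidHom.mem_ker, pow_one, map_pow, pow_p_one]
  obtain ⟨hgood, hcard, -⟩ := coi_good θ p b.ker hpU hθ
  have hD := hG.sub b.ker
  have hoU : Ori 3 b.ker = ⊤ := ori_top b.ker 3 hG.cd (by rw [ho]; exact le_top)
  have hbU : ∀ c : b.ker →* Multiplicative ℤ, c = 1 := hb b.ker hfi
  have hDf := hD.fg
  have c1 := chi_mul θ hG ho hbG hinj hfin p hp _ hgood b.ker.index hcard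
  have s0 := shapiro_un θ p b.ker hU hgood.inv 0 (finite_h0 p)
  have s1 := shapiro_un θ p b.ker hU hgood.inv 1 (finite_h1 p)
  have s2 := shapiro_un θ p b.ker hU hgood.inv 2 (finite_h2 hD hoU hbU p hpp.pos)
  have f2 : Finite (groupCohomology (Fm b.ker p) 2) := finite_h2 hD hoU hbU p hpp.pos
  have f3 : Finite (groupCohomology (Fm G p) 2) := finite_h2 hG ho hbG p hpp.pos
  rw [s0, s1, s2, un_zero, un_zero, un_one_two _ hD hoU hbU p, un_one_two θ hG ho hbG p] at c1
  have p1 : 0 < un (rst θ b.ker hU) (Fm b.ker p) (Fm_inv _ p) 2 := by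
    unfold un
    exact Nat.card_pos
  have p2 : 0 < un θ (Fm G p) (Fm_inv θ p) 2 := by
    unfold un
    exact Nat.card_pos
  have h1 : p = p ^ b.ker.index := by
    rw [mul_pow] at c1
    have p3 : 0 < un (rst θ b.ker hU) (Fm b.ker p) (Fm_inv _ p) 2 *
        un θ (Fm G p) (Fm_inv θ p) 2 ^ b.ker.index := Nat.mul_pos p1 (pow_pos p2 _)
    apply Nat.eq_of_mul_eq_mul_right p3
    linarith
  have h2 : b.ker.index = 1 := by
    have h3 : p ^ b.ker.index = p ^ 1 := by rw [pow_one, ← h1]
    exact Nat.pow_right_injective hpp.two_le h3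
  rw [Subgroup.index_eq_one] at h2
  apply hne
  ext g
  have h3 : g ∈ b.ker := by rw [h2]; exact Subgroup.mem_top g
  rw [MonoidHom.mem_ker] at h3
  rw [h3]
  rfl

/-- The endomorphism is nilpotent on the homomorphisms to the field with `p` elements. -/
theorem nilp_mod_p {G : Type} [Group G] (hG : Dual 3 G) (ho : Ori 3 G = ⊤) (θ : G →* G)
    (hinj : Function.Injective θ) (hfin : θ.range.FiniteIndex) (p : ℕ) [Fact p.Prime]
    (hp : p ∣ θ.range.index)
    (hb : ∀ U : Subgroup G, U.FiniteIndex → ∀ c : U →* Multiplicative ℤ, c = 1) :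
    ∃ k : ℕ, ∀ (c : G →* Multiplicative (ZMod p)) (x : G), c (θ^[k] x) = 1 := by
  have := hG.fg
  have hW : Finite (G →* Multiplicative (ZMod p)) := finite_hom G (Multiplicative (ZMod p))
  obtain ⟨n, hn, hi⟩ := exists_idem_iter
    (fun c : G →* Multiplicative (ZMod p) => c.comp θ)
  have hT : ∀ (k : ℕ) (c : G →* Multiplicative (ZMod p)) (x : G),
      ((fun c : G →* Multiplicative (ZMod p) => c.comp θ)^[k] c) x = c (θ^[k] x) := by
    intro k
    induction k with
    | zero => exact fun _ _ => rfl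
    | succ k ih =>
      intro c x
      rw [Function.iterate_succ_apply, ih]
      show c (θ (θ^[k] x)) = _
      rw [Function.iterate_succ_apply']
  refine ⟨n, fun c x => ?_⟩
  set B := (fun c : G →* Multiplicative (ZMod p) => c.comp θ)^[n] c with hB
  have h1 : B = 1 := by
    apply fix_case hG ho (itr θ n) (itr_inj hinj n) (itr_range_finiteIndex hinj hfin n) p
    · rw [itr_index hinj]
      exact dvd_pow hp hn.ne'
    · exact hb
    · intro x
      rw [itr_eq_iterate, ← hT n B x, hB, hi]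
  rw [← hT, ← hB, h1]
  rfl

end BCX
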