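import Pool.Agent.BCX.Defs

/-!
# Unit quotients have order prime to `p` (the statement `unit_index` with the main theorem
`nilp_mod_p` as a hypothesis)
-/

set_option autoImplicit false

open CategoryTheory groupCohomology EssMap
open scoped commutatorElement

namespace BCX

/-- the statement of the row MAIN -/
def NilpModP : Prop :=
  ∀ (G : Type) [Group G], Dual 3 G → Ori 3 G = ⊤ → ∀ θ : G →* G,
    Function.Injective θ → θ.range.FiniteIndex → ∀ (p : ℕ) [Fact p.Prime],
    p ∣ θ.range.index →
    (∀ U : Subgroup G, U.FiniteIndex → ∀ f : U →* Multiplicative ℤ, f = 1) →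
    ∃ k, ∀ c : G →* Multiplicative (ZMod p), c.comp (itr θ k) = 1

private theorem UNI_mk {G : Type} [Group G] (θ : G →* G) (V : Subgroup G) [V.Normal]
    (h : V ≤ V.comap θ) (m : ℕ) (x : G) :
    (QuotientGroup.map V V θ h)^[m] (x : G ⧸ V) = ((itr θ m x : G) : G ⧸ V) := by
  induction m with
  | zero => rfl
  | succ m ih =>
    rw [Function.iterate_succ_apply', ih, itr_succ]
    rfl

/-- an automorphism induced on a finite quotient has finite order -/
theorem UNI_order {G : Type} [Group G] (θ : G →* G) (V : Subgroup G) [V.Normal]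
    [V.FiniteIndex] (h : V.comap θ = V) :
    ∃ m : ℕ, 0 < m ∧ ∀ x : G, ((itr θ m x : G) : G ⧸ V) = (x : G ⧸ V) := by
  have hfin : Finite (G ⧸ V) := Subgroup.finite_quotient_of_finiteIndex
  have hle : V ≤ V.comap θ := h.ge
  have hinj : Function.Injective (QuotientGroup.map V V θ hle) := by
    rw [injective_iff_map_eq_one]
    intro q
    induction q using QuotientGroup.induction_on with
    | H x =>
      intro hq
      have h1 : ((θ x : G) : G ⧸ V) = 1 := hq
      rw [QuotientGroup.eq_one_iff] at h1 ⊢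
      have h2 : x ∈ V.comap θ := h1
      rwa [h] at h2
  let e : Equiv.Perm (G ⧸ V) :=
    Equiv.ofBijective _ (Finite.injective_iff_bijective.1 hinj)
  refine ⟨orderOf e, orderOf_pos e, ?_⟩
  intro x
  rw [← UNI_mk θ V hle]
  have h1 : (e ^ orderOf e) (x : G ⧸ V) = (x : G ⧸ V) := by
    rw [pow_orderOf_eq_one]
    rfl
  rw [← Equiv.Perm.iterate_eq_pow] at h1
  exact h1

theorem UNI_hb {G : Type} [Group G]
    (hb : ∀ U : Subgroup G, U.FiniteIndex → ∀ f : U →* Multiplicative ℤ, f = 1)
    (X : Subgroup G) (hX : X.FiniteIndex) (U : Subgroup X) (hU : U.FiniteIndex)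
    (f : U →* Multiplicative ℤ) : f = 1 := by
  have hinj : Function.Injective X.subtype := X.subtype_injective
  have hfin : (U.map X.subtype).FiniteIndex := by
    constructor
    rw [Subgroup.index_map_subtype]
    exact mul_ne_zero hU.index_ne_zero hX.index_ne_zero
  have h1 := hb (U.map X.subtype) hfin
    (f.comp (U.equivMapOfInjective X.subtype hinj).symm.toMonoidHom)
  ext u
  have h2 := DFunLike.congr_fun h1 (U.equivMapOfInjective X.subtype hinj u)
  have h3 : (f.comp (U.equivMapOfInjective X.subtype hinj).symm.toMonoidHom)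
      (U.equivMapOfInjective X.subtype hinj u) = f u := by
    show f ((U.equivMapOfInjective X.subtype hinj).symm
      (U.equivMapOfInjective X.subtype hinj u)) = f u
    rw [MulEquiv.symm_apply_apply]
  rw [h3] at h2
  rw [h2]
  rfl

/-- unit quotients have order prime to `p` -/
theorem unit_index_of (hmain : NilpModP) {G : Type} [Group G] (hG : Dual 3 G)
    (ho : Ori 3 G = ⊤) (θ : G →* G)
    (hinj : Function.Injective θ) (hfin : θ.range.FiniteIndex) (p : ℕ) [Fact p.Prime]
    (hp : p ∣ θ.range.index)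
    (hb : ∀ U : Subgroup G, U.FiniteIndex → ∀ f : U →* Multiplicative ℤ, f = 1)
    (V : Subgroup G) (hV : V.Normal) (hVf : V.FiniteIndex) (h : V.comap θ = V) :
    ¬ p ∣ V.index := by
  intro hpV
  obtain ⟨m, hm, hmx⟩ := UNI_order θ V h
  have hfinQ : Finite (G ⧸ V) := Subgroup.finite_quotient_of_finiteIndex
  obtain ⟨g, hg⟩ := exists_prime_orderOf_dvd_card' (G := G ⧸ V) p hpV
  let X : Subgroup G := (Subgroup.zpowers g).comap (QuotientGroup.mk' V)
  have hmemX : ∀ x : G, x ∈ X ↔ (x : G ⧸ V) ∈ Subgroup.zpowers g := fun x => Iff.rfl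
  have hVX : V ≤ X := by
    intro x hx
    rw [hmemX, (QuotientGroup.eq_one_iff x).2 hx]
    exact one_mem _
  have hXf : X.FiniteIndex := Subgroup.finiteIndex_of_le hVX
  have hX : ∀ x ∈ X, itr θ m x ∈ X := by
    intro x hx
    rw [hmemX] at hx ⊢
    rw [hmx]
    exact hx
  have hirange := itr_range_finiteIndex hinj hfin m
  have hψi : Function.Injective (rst (itr θ m) X hX) := rst_inj (itr_inj hinj m) X hX
  have hψf : (rst (itr θ m) X hX).range.FiniteIndex :=
    rst_fin (itr_inj hinj m) hirange X hXf hX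
  have hidx : (rst (itr θ m) X hX).range.index = (itr θ m).range.index := by
    have h1 : (rst (itr θ m) X hX).range.map X.subtype = X.map (itr θ m) := by
      ext x
      constructor
      · rintro ⟨_, ⟨y, rfl⟩, rfl⟩
        exact ⟨y, y.2, rfl⟩
      · rintro ⟨y, hy, rfl⟩
        exact ⟨_, ⟨⟨y, hy⟩, rfl⟩, rfl⟩
    have h2 := Subgroup.index_map_subtype (rst (itr θ m) X hX).range
    rw [h1, Subgroup.index_map_of_injective _ (itr_inj hinj m), mul_comm] at h2
    exact (Nat.eq_of_mul_eq_mul_right (Nat.pos_of_ne_zero hXf.index_ne_zero) h2).symm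
  have hpidx : p ∣ (rst (itr θ m) X hX).range.index := by
    rw [hidx]
    refine hp.trans (Subgroup.index_dvd_of_le ?_)
    obtain ⟨l, rfl⟩ : ∃ l, m = l + 1 := ⟨m - 1, by omega⟩
    rintro _ ⟨x, rfl⟩
    exact ⟨itr θ l x, rfl⟩
  obtain ⟨k, hk⟩ := hmain X (hG.sub X) (ori_top X 3 hG.cd (by rw [ho]; exact le_top))
    (rst (itr θ m) X hX) hψi hψf p hpidx (UNI_hb hb X hXf)
  -- the homomorphism onto the group of order `p`
  let E : Subgroup.zpowers g ≃* Multiplicative (ZMod p) :=
    mulEquivOfPrimeCardEq (p := p) (by rw [Nat.card_zpowers, hg])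
      (by rw [Nat.card_eq_fintype_card, Fintype.card_multiplicative, ZMod.card])
  let π : X →* Subgroup.zpowers g :=
    ((QuotientGroup.mk' V).comp X.subtype).codRestrict (Subgroup.zpowers g) (fun x => x.2)
  have hπ : ∀ x : X, π (rst (itr θ m) X hX x) = π x := fun x => Subtype.ext (hmx x)
  have hπk : ∀ (j : ℕ) (x : X), π (itr (rst (itr θ m) X hX) j x) = π x := by
    intro j
    induction j with
    | zero => intro x; rfl
    | succ j ih =>
      intro x
      rw [itr_succ, hπ, ih]
  obtain ⟨x₀, hx₀⟩ := QuotientGroup.mk_surjective g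
  have hx₀X : x₀ ∈ X := by
    rw [hmemX, hx₀]
    exact Subgroup.mem_zpowers g
  have h1 := DFunLike.congr_fun (hk (E.toMonoidHom.comp π)) ⟨x₀, hx₀X⟩
  have h2 : E (π (itr (rst (itr θ m) X hX) k ⟨x₀, hx₀X⟩)) = 1 := h1
  rw [hπk, map_eq_one_iff E E.injective] at h2
  have h3 : (x₀ : G ⧸ V) = 1 := congrArg Subtype.val h2
  rw [hx₀] at h3
  rw [h3, orderOf_one] at hg
  exact (Fact.out : p.Prime).one_lt.ne hg

end BCX
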