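import Pool.Agent.BCX.UNB
import Pool.Agent.BCX.UNI
import Pool.Agent.BCX.NilpP
import Pool.Agent.BCX.Chr
import Pool.Agent.BCX.CB
import Pool.Agent.BCX.HQ
import Pool.Agent.PCN.Contr

/-!
# Positive virtual first Betti number
-/

set_option autoImplicit false

open CategoryTheory groupCohomology EssMap
open scoped commutatorElement

namespace BCX

theorem nilpModP : NilpModP := by
  intro G _ hG ho θ hinj hfin p _ hp hb
  obtain ⟨k, hk⟩ := nilp_mod_p hG ho θ hinj hfin p hp hb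
  refine ⟨k, fun c => ?_⟩
  ext x
  rw [MonoidHom.comp_apply, itr_eq_iterate, hk c x]
  rfl

theorem rst_index {Q : Type*} [Group Q] {φ : Q →* Q} (h : Function.Injective φ)
    (G : Subgroup Q) (hGf : G.FiniteIndex) (hG : ∀ x ∈ G, φ x ∈ G) :
    (rst φ G hG).range.index = φ.range.index := by
  have h1 : (rst φ G hG).range.map G.subtype = G.map φ := by
    ext x
    constructor
    · rintro ⟨_, ⟨y, rfl⟩, rfl⟩
      exact ⟨y, y.2, rfl⟩
    · rintro ⟨y, hy, rfl⟩
      exact ⟨_, ⟨⟨y, hy⟩, rfl⟩, rfl⟩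
  have h2 := Subgroup.index_map_subtype (rst φ G hG).range
  rw [h1, Subgroup.index_map_of_injective _ h, mul_comm] at h2
  exact (Nat.eq_of_mul_eq_mul_right (Nat.pos_of_ne_zero hGf.index_ne_zero) h2).symm

/-- no virtual homomorphism to `ℤ` passes to subgroups of finite index -/
theorem hb_sub {Q : Type} [Group Q] (hb : ∀ Y : Subgroup Q, Y.FiniteIndex →
    ∀ c : Y →* Multiplicative ℤ, c = 1) (G : Subgroup Q) (hG : G.FiniteIndex) :
    ∀ U : Subgroup G, U.FiniteIndex → ∀ f : U →* Multiplicative ℤ, f = 1 := by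
  intro U hU f
  let e : U ≃* U.map G.subtype := U.equivMapOfInjective G.subtype (Subgroup.subtype_injective G)
  have hY : (U.map G.subtype).FiniteIndex := by
    constructor
    rw [Subgroup.index_map_subtype]
    exact mul_ne_zero hU.index_ne_zero hG.index_ne_zero
  have h1 := hb _ hY (f.comp e.symm.toMonoidHom)
  ext x
  have h2 := DFunLike.congr_fun h1 (e x)
  rw [MonoidHom.comp_apply] at h2
  have h3 : e.symm.toMonoidHom (e x) = x := e.symm_apply_apply x
  rw [h3] at h2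
  rw [h2]
  rfl

/-- unbounded quotients of order a power of `p` -/
theorem b1_of_hq {Q : Type} [Group Q] (hQ : Dual 3 Q) (φ : Q →* Q) (hinj : Function.Injective φ)
    (hfin : φ.range.FiniteIndex) (p : ℕ) [hp' : Fact p.Prime] (hp : p ∣ φ.range.index)
    (H : Subgroup Q) (hH : H.FiniteIndex)
    (hq : ∀ n : ℕ, ∃ K : Subgroup H, K.Normal ∧ (∃ a, K.index = p ^ a) ∧ n ≤ K.index) :
    ∃ Y : Subgroup Q, Y.FiniteIndex ∧ ∃ c : Y →* Multiplicative ℤ, c ≠ 1 := by
  by_contra hno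
  have hb : ∀ Y : Subgroup Q, Y.FiniteIndex → ∀ c : Y →* Multiplicative ℤ, c = 1 := by
    intro Y hY c
    by_contra hc
    exact hno ⟨Y, hY, c, hc⟩
  have hfg := hQ.fg
  obtain ⟨G, hGf, hGH, hGφ, hGo⟩ := reduce hQ φ H hH
  have hGfg : Group.FG G := inferInstance
  have hbG := hb_sub hb G hGf
  obtain ⟨k, hk⟩ := nilp_mod_p (hQ.sub G) hGo (rst φ G hGφ) (rst_inj hinj G hGφ)
    (rst_fin hinj hfin G hGf hGφ) p (by rw [rst_index hinj G hGf]; exact hp) hbG
  have hr : ∀ x : G, (rst φ G hGφ)^[k] x ∈ (PCN.L p 1 : Subgroup G) := by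
    intro x
    apply mem_L_one
    intro c
    exact hk c x
  have hqG : ∀ n : ℕ, ∃ K : Subgroup G, K.Normal ∧ (∃ a, K.index = p ^ a) ∧ n ≤ K.index := by
    intro n
    have hfi : (G.subgroupOf H).FiniteIndex := inferInstance
    obtain ⟨K, hKn, hKp, hK⟩ := hq_sub p hq (G.subgroupOf H) hfi n
    let e : G.subgroupOf H ≃* G := Subgroup.subgroupOfEquivOfLe hGH
    have hidx : (K.map e.toMonoidHom).index = K.index := by
      exact Subgroup.index_map_equiv K e
    refine ⟨K.map e.toMonoidHom, hKn.map _ e.surjective, ?_, ?_⟩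
    · rw [hidx]; exact hKp
    · rw [hidx]; exact hK
  obtain ⟨Y, hY, c, hc⟩ := contr_b1 p (rst φ G hGφ) (rst_fin hinj hfin G hGf hGφ) k hr hqG
  exact hc (hbG Y hY c)

/-- ROW B1: Theorem C -/
theorem b1_pos {Q : Type} [Group Q] (hQ : Dual 3 Q) (φ : Q →* Q) (hinj : Function.Injective φ)
    (hfin : φ.range.FiniteIndex) (hD : φ.range.index ≠ 1) :
    ∃ Y : Subgroup Q, Y.FiniteIndex ∧ ∃ c : Y →* Multiplicative ℤ, c ≠ 1 := by
  by_contra hno
  have hb : ∀ Y : Subgroup Q, Y.FiniteIndex → ∀ c : Y →* Multiplicative ℤ, c = 1 := by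
    intro Y hY c
    by_contra hc
    exact hno ⟨Y, hY, c, hc⟩
  have hfg := hQ.fg
  obtain ⟨p, hp, hpD⟩ := Nat.exists_prime_and_dvd hD
  have hpf : Fact p.Prime := ⟨hp⟩
  obtain ⟨G, hGf, -, hGφ, hGo⟩ := reduce hQ φ ⊤ inferInstance
  have hGfg : Group.FG G := inferInstance
  have hbG := hb_sub hb G hGf
  have hpG : p ∣ (rst φ G hGφ).range.index := by rw [rst_index hinj G hGf]; exact hpD
  have hGinj := rst_inj hinj G hGφ
  have hGfin := rst_fin hinj hfin G hGf hGφ
  obtain ⟨H, hH, hq⟩ := unb p (rst φ G hGφ) hGinj hGfin hpG (fun V hVn hVf hV =>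
    unit_index_of nilpModP (hQ.sub G) hGo (rst φ G hGφ) hGinj hGfin p hpG hbG V hVn hVf hV)
  obtain ⟨Y, hY, c, hc⟩ := b1_of_hq (hQ.sub G) (rst φ G hGφ) hGinj hGfin p hpG H hH hq
  exact hc (hbG Y hY c)

end BCX
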