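import Pool.Agent.BCX.Les
import Pool.Agent.BCX.Alg
import Pool.Agent.BCX.Nat
import Pool.Agent.BCX.Del

/-!
# The Bockstein sequence and the stable parts with coefficients modulo `p`
-/

set_option autoImplicit false

open CategoryTheory groupCohomology EssMap

namespace BCX

theorem per_le_st {W : Type*} [AddCommGroup W] (T : W →+ W) : BCXA.per T ≤ st T := by
  rintro x ⟨n, hn, hx⟩ k
  obtain ⟨l, hl⟩ : ∃ l, n * k = k + l := ⟨n * k - k, by
    have := Nat.mul_le_mul_right k hn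
    omega⟩
  refine ⟨T^[l] x, ?_⟩
  rw [← Function.iterate_add_apply, ← hl, Function.iterate_mul]
  exact Function.iterate_fixed hx k

theorem st_eq_per {W : Type*} [AddCommGroup W] (T : W →+ W) (hT : BCXA.Idm T) :
    st T = BCXA.per T := by
  apply le_antisymm _ (per_le_st T)
  intro x hx
  obtain ⟨n, hn, hi⟩ := hT
  obtain ⟨y, rfl⟩ := hx n
  exact ⟨n, hn, hi y⟩

theorem card_st {W : Type*} [AddCommGroup W] [Finite W] (T : W →+ W) :
    Nat.card (st T) = BCXA.un T := by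
  rw [st_eq_per T (BCXA.idm_of_finite T)]
  rfl

variable {G : Type} [Group G]

theorem TT_deg_zero (θ : G →* G) (V : Rep ℤ G) (hV : ∀ g, V.ρ (θ g) = V.ρ g)
    (x : groupCohomology V 0) : TT θ V hV 0 x = x := by
  induction x using groupCohomology_induction_on with
  | h z =>
    rw [eq_cocyclesMk _ 0 z]
    exact map_mk θ (tw θ V hV) 0 _ _ _ _ (fun g => by
      rw [tw_apply]
      exact congrArg _ (Subsingleton.elim (θ ∘ g) g))

theorem st_id {W : Type*} [AddCommGroup W] (T : W →+ W) (h : ∀ x, T x = x) :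
    Nat.card (st T) = Nat.card W := by
  have h1 : st T = ⊤ := by
    rw [eq_top_iff]
    intro x _ k
    exact ⟨x, Function.iterate_fixed (h x) k⟩
  rw [h1]
  exact Nat.card_congr AddSubgroup.topEquiv.toEquiv

theorem card_h0 (p : ℕ) : Nat.card (groupCohomology (Fm G p) 0) = p := by
  have e := (H0IsoOfIsTrivial (Fm G p)).toLinearEquiv
  have h := Nat.card_congr e.toEquiv
  refine h.trans ?_
  exact Nat.card_zmod p

theorem un_zero (θ : G →* G) (p : ℕ) : un θ (Fm G p) (Fm_inv θ p) 0 = p := by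
  unfold un
  rw [st_id _ (TT_deg_zero θ _ _), card_h0]

theorem h1Z_zero (hb : ∀ c : G →* Multiplicative ℤ, c = 1) (x : HZ G 1) : x = 0 := by
  let e := (H1IsoOfIsTrivial (Rep.trivial ℤ G ℤ)).toLinearEquiv
  apply e.injective
  rw [map_zero]
  let f : Additive G →+ ℤ := e x
  have h1 : f = 0 := by
    have h2 := hb (AddMonoidHom.toMultiplicativeRight f)
    ext g
    exact congrArg (fun c : G →* Multiplicative ℤ => (c g).toAdd) h2
  exact h1

theorem finite_h1 [Group.FG G] (p : ℕ) [Fact p.Prime] :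
    Finite (groupCohomology (Fm G p) 1) := by
  let e := (H1IsoOfIsTrivial (Fm G p)).toLinearEquiv
  have h1 : Finite (G →* Multiplicative (ZMod p)) := finite_hom G (Multiplicative (ZMod p))
  have h2 : Finite (Additive G →+ ZMod p) :=
    Finite.of_equiv _ (AddMonoidHom.toMultiplicativeRight (α := G) (β := ZMod p)).symm
  have h3 : Finite (ModuleCat.of ℤ (Additive G →+ (Fm G p))) := h2
  exact Finite.of_equiv _ e.symm.toEquiv

theorem finite_IG (hG : Dual 3 G) (ho : Ori 3 G = ⊤) (hb : ∀ c : G →* Multiplicative ℤ, c = 1) :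
    Finite (groupCohomology (IG G) 3) := by
  have := hG.fg
  obtain ⟨e⟩ := hG.top
  have hs : Function.Surjective (clHom 3 ho (e.symm 1)) := fun z => by
    obtain ⟨g, hg⟩ := cl_surjective 3 e hG.cd ho z.toAdd
    exact ⟨g, congrArg Multiplicative.ofAdd hg.symm⟩
  have h1 : Group.FG (Multiplicative (groupCohomology (IG G) 3)) :=
    Group.fg_of_surjective hs
  have h2 : ∀ z : Multiplicative (groupCohomology (IG G) 3), IsOfFinOrder z := by
    intro z
    obtain ⟨g, rfl⟩ := hs z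
    obtain ⟨m, hm, hm2⟩ := pow_mem_commutator g (fun a => by rw [hb a]; rfl)
    rw [isOfFinOrder_iff_pow_eq_one]
    refine ⟨m, hm, ?_⟩
    rw [← map_pow]
    exact Abelianization.commutator_subset_ker (clHom 3 ho (e.symm 1)) hm2
  have h3 : Finite (Multiplicative (groupCohomology (IG G) 3)) :=
    CommGroup.finite_of_fg_isMulTorsion _ h2
  exact h3

theorem finite_h2Z (hG : Dual 3 G) (ho : Ori 3 G = ⊤)
    (hb : ∀ c : G →* Multiplicative ℤ, c = 1) : Finite (HZ G 2) := by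
  have hd : Mono (δ (XG_shortExact G) 2 3 rfl) :=
    mono_δ_of_isZero (XG_shortExact G) 2 (hG.low 2 rfl)
  have hd2 := (ModuleCat.mono_iff_injective _).1 hd
  have h := finite_IG hG ho hb
  have h8 : Finite (groupCohomology (XG G).X₁ 3) := h
  exact Finite.of_injective _ hd2

theorem h3Z_tf (hG : Dual 3 G) (ho : Ori 3 G = ⊤) (m : ℤ) (hm : m ≠ 0) (x : HZ G 3)
    (hx : m • x = 0) : x = 0 := by
  have := hG.fg
  obtain ⟨e⟩ := hG.top
  obtain ⟨y, hy⟩ := top_surj (eps G) (fun k => ⟨_, eps_single G 1 k⟩) 3 hG.cd x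
  have hy2 : cmap (eps G) 3 y = x := hy
  rw [← hy2, ← map_zsmul] at hx
  have h1 := eps_injective 3 e hG.cd ho _ hx
  have h2 := congrArg e h1
  rw [map_zsmul, map_zero, smul_eq_mul] at h2
  have h3 : e y = 0 := by
    rcases mul_eq_zero.1 h2 with h4 | h4
    · exact absurd h4 hm
    · exact h4
  have h4 : y = 0 := e.injective (h3.trans (map_zero e).symm)
  rw [← hy2, h4, map_zero]

theorem delta_h2_zero (hG : Dual 3 G) (ho : Ori 3 G = ⊤) (p : ℕ) (hp : 0 < p)
    (x : groupCohomology (Fm G p) 2) :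
    (δ (XE_shortExact G p hp) 2 3 rfl).hom x = 0 := by
  have h1 := (les1 (XE_shortExact G p hp) 2 3 rfl
    ((δ (XE_shortExact G p hp) 2 3 rfl).hom x)).2 ⟨x, rfl⟩
  have h2 : cmap ((p : ℤ) • 𝟙 (Rep.trivial ℤ G ℤ)) 3
    ((δ (XE_shortExact G p hp) 2 3 rfl).hom x) = 0 := h1
  rw [cmap_int_smul, cmap_id] at h2
  exact h3Z_tf hG ho p (by exact_mod_cast hp.ne') _ h2

theorem red_surj (hG : Dual 3 G) (ho : Ori 3 G = ⊤) (p : ℕ) (hp : 0 < p)
    (x : groupCohomology (Fm G p) 2) : ∃ y : HZ G 2, cmap (redE G p) 2 y = x :=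
  (les3 (XE_shortExact G p hp) 2 3 rfl x).1 (delta_h2_zero hG ho p hp x)

theorem finite_h2 (hG : Dual 3 G) (ho : Ori 3 G = ⊤)
    (hb : ∀ c : G →* Multiplicative ℤ, c = 1) (p : ℕ) (hp : 0 < p) :
    Finite (groupCohomology (Fm G p) 2) := by
  have := finite_h2Z hG ho hb
  exact Finite.of_surjective _ (red_surj hG ho p hp)

theorem ZZ_inv (θ : G →* G) (g : G) :
    (Rep.trivial ℤ G ℤ).ρ (θ g) = (Rep.trivial ℤ G ℤ).ρ g := rfl

/-- the stable parts in degrees one and two have the same order -/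
theorem un_one_two (θ : G →* G) (hG : Dual 3 G) (ho : Ori 3 G = ⊤)
    (hb : ∀ c : G →* Multiplicative ℤ, c = 1) (p : ℕ) [Fact p.Prime] :
    un θ (Fm G p) (Fm_inv θ p) 1 = un θ (Fm G p) (Fm_inv θ p) 2 := by
  have hp : 0 < p := (Fact.out : p.Prime).pos
  have := hG.fg
  have i1 : Finite (groupCohomology (Fm G p) 1) := finite_h1 p
  have i2 : Finite (groupCohomology (Fm G p) 2) := finite_h2 hG ho hb p hp
  have i3 : Finite (HZ G 2) := finite_h2Z hG ho hb
  let hX := XE_shortExact G p hp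
  let A := TT θ (Rep.trivial ℤ G ℤ) (ZZ_inv θ) 2
  let T1 := TT θ (Fm G p) (Fm_inv θ p) 1
  let T2 := TT θ (Fm G p) (Fm_inv θ p) 2
  let d : groupCohomology (Fm G p) 1 →+ HZ G 2 := (δ hX 1 2 rfl).hom.toAddMonoidHom
  let f : HZ G 2 →+ HZ G 2 := (cmap ((p : ℤ) • 𝟙 (Rep.trivial ℤ G ℤ)) 2).toAddMonoidHom
  let r : HZ G 2 →+ groupCohomology (Fm G p) 2 := (cmap (redE G p) 2).toAddMonoidHom
  let z : groupCohomology (Fm G p) 2 →+ HZ G 3 := 0
  have hd : Function.Injective d := by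
    rw [injective_iff_map_eq_zero]
    intro x hx
    obtain ⟨y, hy⟩ := (les3 hX 1 2 rfl x).1 hx
    have h1 : y = 0 := h1Z_zero hb y
    rw [← hy, h1]
    exact map_zero _
  have cd : ∀ x, d (T1 x) = A (d x) := fun x => TT_delta θ hX (ZZ_inv θ) (ZZ_inv θ) (Fm_inv θ p) 1 2 rfl x
  have cf : ∀ x, f (A x) = A (f x) := fun x => TT_nat θ (ZZ_inv θ) (ZZ_inv θ) _ 2 x
  have cr : ∀ x, r (A x) = T2 (r x) := fun x => TT_nat θ (ZZ_inv θ) (Fm_inv θ p) _ 2 x
  have e1 := BCXA.un_exact (T := T1) (S := A) d f cd (BCXA.idm_of_finite T1)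
    (fun b => les1 hX 1 2 rfl b)
  have e2 := BCXA.un_exact (T := A) (S := A) f r cf (BCXA.idm_of_finite A)
    (fun b => les2 hX 2 b)
  have e3 := BCXA.un_exact (T := A) (S := T2) r z cr (BCXA.idm_of_finite A)
    (fun b => ⟨fun _ => red_surj hG ho p hp b, fun _ => rfl⟩)
  have e4 := BCXA.un_inj T1 d hd
  have e5 := BCXA.im_zero T2 z (fun _ _ => rfl)
  rw [e4] at e1
  rw [e5, mul_one] at e3
  have e6 : 0 < BCXA.im A f := Nat.card_pos
  have e7 : BCXA.un T1 = BCXA.im A r := by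
    have h1 : BCXA.im A f * BCXA.un T1 = BCXA.im A f * BCXA.im A r := by
      rw [← e2, e1, mul_comm]
    exact Nat.eq_of_mul_eq_mul_left e6 h1
  unfold un
  rw [card_st, card_st]
  exact e7.trans e3.symm

end BCX
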