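import Pool.Agent.BCX.Ev

/-!
# Restriction to subgroups of index divisible by `m`
-/

set_option autoImplicit false

open CategoryTheory groupCohomology EssMap

namespace BCX

theorem pullB_comp' (B : Type) [AddCommGroup B] {G H K : Type} [Group G] [Group H]
    [Group K] (f : H →* K) (g : G →* H) (n : ℕ)
    (x : groupCohomology (Rep.trivial ℤ K B) n) :
    pullB B (f.comp g) n x = pullB B g n (pullB B f n x) := by
  unfold pullB
  have h := groupCohomology.map_comp f g (trB B f) (trB B g) n
  have h2 : groupCohomology.map (f.comp g) (trB B (f.comp g)) n =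
      groupCohomology.map f (trB B f) n ≫ groupCohomology.map g (trB B g) n := by
    rw [← h]
    exact groupCohomology.map_congr rfl rfl n
  rw [h2]
  rfl

theorem TT_pullB {G : Type} [Group G] (θ : G →* G) (m n : ℕ)
    (x : groupCohomology (Fm G m) n) :
    TT θ (Fm G m) (Fm_inv θ m) n x = pullB (ZMod m) θ n x := by
  unfold TT pullB
  have h : groupCohomology.map θ (tw θ (Fm G m) (Fm_inv θ m)) n =
      groupCohomology.map θ (trB (ZMod m) θ) n := by
    exact groupCohomology.map_congr rfl rfl n
  rw [h]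
  rfl

/-- the top degree with trivial coefficients modulo `m` -/
theorem top_zero {G : Type} [Group G] (hG : Dual 3 G) (ho : Ori 3 G = ⊤) (θ : G →* G)
    (hfin : θ.range.FiniteIndex) (m : ℕ) (hd : m ∣ θ.range.index)
    (x : groupCohomology (Fm G m) 3) : pullB (ZMod m) θ 3 x = 0 := by
  have h1 : θ.range.subtype.comp θ.rangeRestrict = θ := MonoidHom.subtype_comp_rangeRestrict θ
  have h2 : pullB (ZMod m) θ 3 x =
      pullB (ZMod m) (θ.range.subtype.comp θ.rangeRestrict) 3 x := by
    rw [h1]
  rw [h2, pullB_comp', res_mod 3 hG.cd ho θ.range m hd x, map_zero]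

section maps

variable {X Y : Type} [Group X] [Group Y] {B : Type} [AddCommGroup B]

theorem IsZ2.comp {c : X → X → B} (hc : IsZ2 c) (f : Y →* X) :
    IsZ2 (fun g h => c (f g) (f h)) := by
  intro g h k
  have h1 := hc (f g) (f h) (f k)
  rw [← map_mul, ← map_mul] at h1
  exact h1

theorem IsZ3.comp {c : X → X → X → B} (hc : IsZ3 c) (f : Y →* X) :
    IsZ3 (fun g h k => c (f g) (f h) (f k)) := by
  intro g h k l
  have h1 := hc (f g) (f h) (f k) (f l)
  rw [← map_mul, ← map_mul, ← map_mul] at h1
  exact h1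

theorem pull_k2 (f : Y →* X) (c : X → X → B) (hc : IsZ2 c) :
    pullB B f 2 (k2 c hc) = k2 (fun g h => c (f g) (f h)) (hc.comp f) := by
  unfold pullB k2 clsB
  apply map_mk
  intro g
  rfl

theorem pull_k3 (f : Y →* X) (c : X → X → X → B) (hc : IsZ3 c) :
    pullB B f 3 (k3 c hc) = k3 (fun g h k => c (f g) (f h) (f k)) (hc.comp f) := by
  unfold pullB k3 clsB
  apply map_mk
  intro g
  rfl

end maps

/-- ROW RES: degree divisible by `m` -/
theorem res_zero {X : Type} [Group X] (hX : Dual 3 X) (ho : Ori 3 X = ⊤) (m : ℕ) (hm : 2 ≤ m)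
    (θ : X →* X) (hinj : Function.Injective θ) (hfin : θ.range.FiniteIndex)
    (hd : m ∣ θ.range.index) (d : X → X → X → ZMod m) (hc : IsZ3 d) :
    IsB3 (fun g h k => d (θ g) (θ h) (θ k)) := by
  have h1 := top_zero hX ho θ hfin m hd (k3 d hc)
  rw [pull_k3] at h1
  exact (k3_zero _ _).1 h1

end BCX
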