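import Pool.Agent.BCX.Lif
import Pool.Agent.BCX.Res
import Pool.Agent.BCX.Alt

/-!
# Counting the characters that die on the image
-/

set_option autoImplicit false

open CategoryTheory groupCohomology EssMap
open scoped commutatorElement

namespace BCX

/-- multiplication by `c` -/
def io3 (m n c : ℕ) (h : c * m = n) : ZMod m →+ ZMod n :=
  ZMod.lift m ⟨(AddMonoidHom.mulLeft (c : ZMod n)).comp (Int.castAddHom (ZMod n)), by
      show (c : ZMod n) * (((m : ℤ)) : ZMod n) = 0
      rw [Int.cast_natCast, ← Nat.cast_mul, h, ZMod.natCast_self]⟩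

theorem io3_cast (m n c : ℕ) (h : c * m = n) (z : ℤ) :
    io3 m n c h (z : ZMod m) = (c : ZMod n) * (z : ZMod n) := by
  rw [io3, ZMod.lift_coe]
  rfl

theorem io3_inj (m n c : ℕ) (h : c * m = n) (hc : 0 < c) : Function.Injective (io3 m n c h) := by
  rw [injective_iff_map_eq_zero]
  intro x hx
  obtain ⟨z, rfl⟩ := ZMod.intCast_surjective x
  rw [io3_cast] at hx
  have h1 : (((c : ℤ) * z : ℤ) : ZMod n) = 0 := by
    push_cast
    exact hx
  rw [ZMod.intCast_zmod_eq_zero_iff_dvd, ← h] at h1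
  rw [ZMod.intCast_zmod_eq_zero_iff_dvd]
  push_cast at h1
  exact (mul_dvd_mul_iff_left (by positivity)).1 h1

section

variable {G : Type} [Group G]

theorem triv_io3 (a : G →* Multiplicative ℤ) (t : G) (m n c : ℕ) (h : c * m = n) (hc : 0 < c)
    (htriv : ∀ (v : a.ker →* Multiplicative (ZMod n)) (x y : a.ker),
      (y : G) = t * x * t⁻¹ → v y = v x) :
    ∀ (v : a.ker →* Multiplicative (ZMod m)) (x y : a.ker),
      (y : G) = t * x * t⁻¹ → v y = v x := by
  intro v x y hxy
  have h1 := htriv (psh (io3 m n c h) v) x y hxy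
  have h2 : io3 m n c h (v y).toAdd = io3 m n c h (v x).toAdd := congrArg Multiplicative.toAdd h1
  exact io3_inj m n c h hc h2

theorem fin_io3 {N : Type} [Group N] (m n c : ℕ) (h : c * m = n) (hc : 0 < c)
    (hfin : Finite (N →* Multiplicative (ZMod n))) :
    Finite (N →* Multiplicative (ZMod m)) := by
  refine Finite.of_injective (fun v => psh (io3 m n c h) v) fun v v' h' => ?_
  ext x
  have h1 : io3 m n c h (v x).toAdd = io3 m n c h (v' x).toAdd :=
    congrArg Multiplicative.toAdd (DFunLike.congr_fun h' x)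
  exact io3_inj m n c h hc h1

/-- independent characters modulo `q` lift to independent characters -/
theorem lift_indep {N : Type} [Group N] (q : ℕ) [Fact q.Prime] (s : ℕ) (hs : 0 < s)
    (e f : N →* Multiplicative (ZMod q)) (w1 w2 : N →* Multiplicative (ZMod (q ^ s)))
    (h1 : ∀ x, ZMod.castHom (dvd_pow_self q hs.ne') (ZMod q) (w1 x).toAdd = (e x).toAdd)
    (h2 : ∀ x, ZMod.castHom (dvd_pow_self q hs.ne') (ZMod q) (w2 x).toAdd = (f x).toAdd)
    (he : e ≠ 1) (hf : ∀ i : ZMod q, ∃ x, (f x).toAdd ≠ i * (e x).toAdd)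
    (i j : ZMod (q ^ s)) (hij : ∀ x, i * (w1 x).toAdd + j * (w2 x).toAdd = 0) :
    i = 0 ∧ j = 0 := by
  obtain ⟨I, rfl⟩ := ZMod.intCast_surjective i
  obtain ⟨J, rfl⟩ := ZMod.intCast_surjective j
  have hq0 : 0 < q := (Fact.out : q.Prime).pos
  have key : ∀ r : ℕ, r ≤ s → (q : ℤ) ^ r ∣ I ∧ (q : ℤ) ^ r ∣ J := by
    intro r
    induction r with
    | zero => intro _; simp
    | succ r ih =>
      intro hr
      obtain ⟨⟨I', hI⟩, ⟨J', hJ⟩⟩ := ih (by omega)
      have h3 : ∀ x, (I' : ZMod q) * (e x).toAdd + (J' : ZMod q) * (f x).toAdd = 0 := by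
        intro x
        obtain ⟨u, hu⟩ := ZMod.intCast_surjective (w1 x).toAdd
        obtain ⟨v, hv⟩ := ZMod.intCast_surjective (w2 x).toAdd
        have h4 := hij x
        rw [← hu, ← hv, ← Int.cast_mul, ← Int.cast_mul, ← Int.cast_add,
          ZMod.intCast_zmod_eq_zero_iff_dvd] at h4
        have h5 : ((q ^ s : ℕ) : ℤ) = (q : ℤ) ^ r * (q : ℤ) ^ (s - r) := by
          rw [← pow_add, Nat.add_sub_cancel' (by omega)]
          push_cast
          rfl
        have h6 : I * u + J * v = (q : ℤ) ^ r * (I' * u + J' * v) := by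
          rw [hI, hJ]
          ring
        rw [h5, h6] at h4
        have h7 : (q : ℤ) ^ (s - r) ∣ I' * u + J' * v :=
          (mul_dvd_mul_iff_left (by positivity)).1 h4
        have h8 : (q : ℤ) ∣ I' * u + J' * v :=
          (dvd_pow_self (q : ℤ) (by omega)).trans h7
        rw [← h1, ← h2, ← hu, ← hv, map_intCast, map_intCast]
        have h9 := (ZMod.intCast_zmod_eq_zero_iff_dvd (I' * u + J' * v) q).2 h8
        push_cast at h9
        exact h9
      have hJ0 : (J' : ZMod q) = 0 := by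
        by_contra hne
        obtain ⟨x, hx⟩ := hf (-(J' : ZMod q)⁻¹ * I')
        apply hx
        have h4 := h3 x
        have h5 : (J' : ZMod q) * (f x).toAdd = -(I' * (e x).toAdd) := by
          rw [add_comm] at h4
          exact eq_neg_of_add_eq_zero_left h4
        have h6 : (f x).toAdd = (J' : ZMod q)⁻¹ * ((J' : ZMod q) * (f x).toAdd) := by
          rw [← mul_assoc, inv_mul_cancel₀ hne, one_mul]
        rw [h6, h5]
        ring
      have hI0 : (I' : ZMod q) = 0 := by
        by_contra hne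
        apply he
        ext x
        have h4 := h3 x
        rw [hJ0, zero_mul, add_zero] at h4
        exact (mul_eq_zero.1 h4).resolve_left hne
      rw [ZMod.intCast_zmod_eq_zero_iff_dvd] at hI0 hJ0
      rw [hI, hJ, pow_succ]
      exact ⟨mul_dvd_mul_left _ hI0, mul_dvd_mul_left _ hJ0⟩
  obtain ⟨h5, h6⟩ := key s le_rfl
  rw [ZMod.intCast_zmod_eq_zero_iff_dvd, ZMod.intCast_zmod_eq_zero_iff_dvd]
  push_cast
  exact ⟨h5, h6⟩

/-- the pairing of a liftable character with itself -/
theorem self_zero (a : G →* Multiplicative ℤ) (t : G) (ht : a t = Multiplicative.ofAdd 1)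
    (q : ℕ) [Fact q.Prime] (s : ℕ) (hs0 : 0 < s)
    (htriv : ∀ (v : a.ker →* Multiplicative (ZMod (q ^ (s + 1)))) (x y : a.ker),
      (y : G) = t * x * t⁻¹ → v y = v x)
    (e : a.ker →* Multiplicative (ZMod q)) (w : a.ker →* Multiplicative (ZMod (q ^ (s + 1))))
    (hw : ∀ x, ZMod.castHom (dvd_pow_self q (Nat.succ_ne_zero s)) (ZMod q) (w x).toAdd =
      (e x).toAdd) :
    ∃ V : G →* Multiplicative (ZMod q), rk a V = e ∧ IsB3 (cp a q V V) := by
  have hq2 : 2 ≤ q := (Fact.out : q.Prime).two_le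
  obtain ⟨W, hWt, hW⟩ := ext_ker a t ht w (htriv w)
  refine ⟨psh (rdq q (s + 1) (Nat.succ_pos s)) W, ?_, ?_⟩
  · ext x
    show ZMod.castHom (dvd_pow_self q (Nat.succ_ne_zero s)) (ZMod q) (W x).toAdd = _
    rw [hW]
    exact hw x
  · refine alt0 a q hq2 _ ?_
    rcases (Fact.out : q.Prime).eq_two_or_odd with h2 | h2
    · subst h2
      have hdvd : 2 * 2 ∣ 2 ^ (s + 1) := by
        have : 2 * 2 = 2 ^ 2 := by norm_num
        rw [this]
        exact pow_dvd_pow 2 (by omega)
      refine ⟨psh (ZMod.castHom hdvd (ZMod (2 * 2))).toAddMonoidHom W, fun g => ?_⟩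
      show ZMod.castHom (Dvd.intro_left 2 rfl) (ZMod 2)
        (ZMod.castHom hdvd (ZMod (2 * 2)) (W g).toAdd) =
        ZMod.castHom (dvd_pow_self 2 (Nat.succ_ne_zero s)) (ZMod 2) (W g).toAdd
      obtain ⟨z, hz⟩ := ZMod.intCast_surjective (W g).toAdd
      rw [← hz, map_intCast, map_intCast, map_intCast]
    · have hk : ((q + 1 : ℕ) : ZMod (2 * q)) * (((q : ℤ)) : ZMod (2 * q)) = 0 := by
        obtain ⟨c, hc⟩ : 2 ∣ q + 1 := by omega
        rw [Int.cast_natCast, ← Nat.cast_mul, hc]
        have : 2 * c * q = c * (2 * q) := by ring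
        rw [this, Nat.cast_mul, ZMod.natCast_self, mul_zero]
      let κ : ZMod q →+ ZMod (2 * q) :=
        ZMod.lift q ⟨(AddMonoidHom.mulLeft ((q + 1 : ℕ) : ZMod (2 * q))).comp
          (Int.castAddHom (ZMod (2 * q))), hk⟩
      refine ⟨psh κ (psh (rdq q (s + 1) (Nat.succ_pos s)) W), fun g => ?_⟩
      show ZMod.castHom (Dvd.intro_left 2 rfl) (ZMod q) (κ (psh (rdq q (s + 1) (Nat.succ_pos s)) W g).toAdd) =
        (psh (rdq q (s + 1) (Nat.succ_pos s)) W g).toAdd
      obtain ⟨z, hz⟩ := ZMod.intCast_surjective (psh (rdq q (s + 1) (Nat.succ_pos s)) W g).toAdd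
      rw [← hz]
      have h3 : κ ((z : ℤ) : ZMod q) = ((q + 1 : ℕ) : ZMod (2 * q)) * (z : ZMod (2 * q)) := by
        show ZMod.lift q _ _ = _
        rw [ZMod.lift_coe]
        rfl
      rw [h3, map_mul, map_intCast, map_natCast]
      push_cast
      rw [ZMod.natCast_self, zero_add, one_mul]

/-- ROW CNT (from LIF, NDA, EV, RES, ALT, EXK) -/
theorem count0 {G : Type} [Group G] (hG : Dual 3 G) (ho : Ori 3 G = ⊤)
    (a : G →* Multiplicative ℤ) (t : G) (ht : a t = Multiplicative.ofAdd 1) (θ : G →* G)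
    (hinj : Function.Injective θ) (hfin : θ.range.FiniteIndex) (haθ : ∀ g, a (θ g) = a g)
    (q : ℕ) [Fact q.Prime] (s : ℕ) (hs0 : 0 < s) (hs : q ^ s ∣ θ.range.index)
    (hfinE : Finite (a.ker →* Multiplicative (ZMod (q ^ (s + 1)))))
    (htriv : ∀ (v : a.ker →* Multiplicative (ZMod (q ^ (s + 1)))) (x y : a.ker),
      (y : G) = t * x * t⁻¹ → v y = v x)
    (hne : ∃ v : a.ker →* Multiplicative (ZMod q), v ≠ 1) :
    q ^ s ≤ Nat.card {f : a.ker →* Multiplicative (ZMod (q ^ s)) //
      ∀ x y : a.ker, (y : G) = θ x → f y = 1} := by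
  classical
  have hq2 : 2 ≤ q := (Fact.out : q.Prime).two_le
  have hq0 : 0 < q := by omega
  haveI : NeZero q := ⟨hq0.ne'⟩
  haveI : NeZero (q ^ s) := ⟨(pow_pos hq0 s).ne'⟩
  have hqs : 2 ≤ q ^ s := by
    calc 2 ≤ q := hq2
      _ = q ^ 1 := (pow_one q).symm
      _ ≤ q ^ s := Nat.pow_le_pow_right hq0 hs0
  have hc1 : q * q ^ s = q ^ (s + 1) := by rw [pow_succ, mul_comm]
  have hc2 : q ^ s * q = q ^ (s + 1) := by rw [pow_succ]
  have htrivs := triv_io3 a t (q ^ s) (q ^ (s + 1)) q hc1 hq0 htriv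
  have htriv1 := triv_io3 a t q (q ^ (s + 1)) (q ^ s) hc2 (pow_pos hq0 s) htriv
  have hfins : Finite (a.ker →* Multiplicative (ZMod (q ^ s))) :=
    fin_io3 (q ^ s) (q ^ (s + 1)) q hc1 hq0 hfinE
  obtain ⟨B, hB1, hB2, hB3, hB4⟩ := pairing hG ho a t ht (q ^ s) hqs htrivs
  obtain ⟨C, hC1, hC2, hC3, hC4⟩ := pairing hG ho a t ht q hq2 htriv1
  obtain ⟨e, he⟩ := hne
  -- a second character
  obtain ⟨f, hf⟩ : ∃ f : a.ker →* Multiplicative (ZMod q),
      ∀ i : ZMod q, ∃ x, (f x).toAdd ≠ i * (e x).toAdd := by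
    by_contra hcon
    push Not at hcon
    apply he
    refine hC3 e fun w => ?_
    obtain ⟨i, hi⟩ := hcon w
    obtain ⟨w', hw'⟩ := lift0 hG ho a t ht q (s + 1) (Nat.succ_pos s) hfinE htriv e
    obtain ⟨V, hV1, hV2⟩ := self_zero a t ht q s hs0 htriv e w' hw'
    have h1 : rk a (psh (AddMonoidHom.mulLeft i) V) = w := by
      ext x
      show i * (V x).toAdd = _
      rw [hi x, ← hV1]
      rfl
    rw [← h1]
    conv_lhs => rw [← hV1]
    rw [hC4]
    obtain ⟨b, hb⟩ := hV2
    refine ⟨fun g h => i * b g h, fun g h k => ?_⟩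
    have h2 := congrArg (fun z => i * z) (hb g h k)
    simp only [mul_add, mul_sub] at h2
    rw [← h2]
    show i * (V g).toAdd * _ = i * ((V g).toAdd * _)
    rw [mul_assoc]
  -- the lower bound for the number of characters
  have hcardE : q ^ s * q ^ s ≤ Nat.card (a.ker →* Multiplicative (ZMod (q ^ s))) := by
    have htrivs' := htrivs
    obtain ⟨w1, hw1⟩ := lift0 hG ho a t ht q s hs0 hfins htrivs e
    obtain ⟨w2, hw2⟩ := lift0 hG ho a t ht q s hs0 hfins htrivs f
    have hinj2 : Function.Injective (fun p : ZMod (q ^ s) × ZMod (q ^ s) =>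
        psh (AddMonoidHom.mulLeft p.1) w1 * psh (AddMonoidHom.mulLeft p.2) w2) := by
      intro p p' hp
      have h1 : ∀ x, (p.1 - p'.1) * (w1 x).toAdd + (p.2 - p'.2) * (w2 x).toAdd = 0 := by
        intro x
        have h2 : p.1 * (w1 x).toAdd + p.2 * (w2 x).toAdd =
            p'.1 * (w1 x).toAdd + p'.2 * (w2 x).toAdd :=
          congrArg Multiplicative.toAdd (DFunLike.congr_fun hp x)
        linear_combination h2
      obtain ⟨h3, h4⟩ := lift_indep q s hs0 e f w1 w2 hw1 hw2 he hf _ _ h1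
      exact Prod.ext (sub_eq_zero.1 h3) (sub_eq_zero.1 h4)
    have h5 := Nat.card_le_card_of_injective _ hinj2
    rw [Nat.card_prod, Nat.card_zmod] at h5
    exact h5
  -- the map `T`
  let θN : a.ker →* a.ker :=
    { toFun := fun x => ⟨θ (x : G), by
        rw [MonoidHom.mem_ker, haθ]
        exact x.2⟩
      map_one' := Subtype.ext (map_one θ)
      map_mul' := fun x y => Subtype.ext (map_mul θ (x : G) (y : G)) }
  let T : (a.ker →* Multiplicative (ZMod (q ^ s))) →* (a.ker →* Multiplicative (ZMod (q ^ s))) :=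
    { toFun := fun v => v.comp θN
      map_one' := rfl
      map_mul' := fun v w => rfl }
  have hiso : ∀ w v, B (T w) (T v) = 0 := by
    intro w v
    obtain ⟨W, -, hW⟩ := ext_ker a t ht w (htrivs w)
    obtain ⟨V, -, hV⟩ := ext_ker a t ht v (htrivs v)
    have h1 : rk a (W.comp θ) = T w := by
      ext x
      exact congrArg Multiplicative.toAdd (hW (θN x))
    have h2 : rk a (V.comp θ) = T v := by
      ext x
      exact congrArg Multiplicative.toAdd (hV (θN x))
    rw [← h1, ← h2, hB4]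
    have h3 := res_zero hG ho (q ^ s) hqs θ hinj hfin hs (cp a (q ^ s) W V) (cp_z3 W V)
    have h4 : (fun g h k => cp a (q ^ s) W V (θ g) (θ h) (θ k)) =
        cp a (q ^ s) (W.comp θ) (V.comp θ) := by
      funext g h k
      simp only [cp, haθ, MonoidHom.comp_apply]
    rwa [h4] at h3
  have hB0 : ∀ w, B 1 w = 0 := by
    intro w
    have := hB1 1 1 w
    rw [one_mul] at this
    simpa using this
  have hB0' : ∀ w, B w 1 = 0 := by
    intro w
    have := hB2 w 1 1
    rw [one_mul] at this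
    simpa using this
  let φ : (a.ker →* Multiplicative (ZMod (q ^ s))) →
      ((a.ker →* Multiplicative (ZMod (q ^ s))) →* Multiplicative (ZMod (q ^ s))) := fun f =>
    { toFun := fun w => Multiplicative.ofAdd (B w f)
      map_one' := by
        show Multiplicative.ofAdd (B 1 f) = 1
        rw [hB0]
        rfl
      map_mul' := by
        intro w w'
        show Multiplicative.ofAdd (B (w * w') f) = _
        rw [hB1]
        rfl }
  have hφ : ∀ f ∈ T.range, T.range ≤ (φ f).ker := by
    rintro f ⟨v, rfl⟩ w ⟨w', rfl⟩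
    rw [MonoidHom.mem_ker]
    show Multiplicative.ofAdd (B (T w') (T v)) = 1
    rw [hiso]
    rfl
  have hle : Nat.card T.range ≤ T.range.index := by
    have hinj3 : Function.Injective (fun f : T.range =>
        (QuotientGroup.lift T.range (φ f.1) (hφ f.1 f.2) :
          ((a.ker →* Multiplicative (ZMod (q ^ s))) ⧸ T.range) →*
            Multiplicative (ZMod (q ^ s)))) := by
      intro f f' hff
      have h1 : ∀ w, B w f.1 = B w f'.1 := by
        intro w
        have := DFunLike.congr_fun hff (QuotientGroup.mk w)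
        exact congrArg Multiplicative.toAdd this
      have h2 : f.1 * f'.1⁻¹ = 1 := by
        refine hB3 _ fun w => ?_
        have h3 := hB2 w (f.1 * f'.1⁻¹) f'.1
        rw [inv_mul_cancel_right, h1 w] at h3
        simpa using h3
      exact Subtype.ext (mul_inv_eq_one.1 h2)
    obtain ⟨h4, h5⟩ := pr_card_hom_le
      ((a.ker →* Multiplicative (ZMod (q ^ s))) ⧸ T.range) (q ^ s)
    exact (Nat.card_le_card_of_injective _ hinj3).trans h5
  have hmul := T.range.card_mul_index
  have hker : Nat.card T.ker * Nat.card T.range =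
      Nat.card (a.ker →* Multiplicative (ZMod (q ^ s))) := by
    rw [← Subgroup.index_ker]
    exact T.ker.card_mul_index
  have hpos : 0 < Nat.card T.range := Nat.card_pos
  have hTle : Nat.card T.range ≤ Nat.card T.ker := by
    have h1 : Nat.card T.range * Nat.card T.range ≤ Nat.card T.ker * Nat.card T.range := by
      rw [hker, ← hmul]
      exact Nat.mul_le_mul_left _ hle
    exact Nat.le_of_mul_le_mul_right h1 hpos
  have hfinal : q ^ s ≤ Nat.card T.ker := by
    by_contra hcon
    push Not at hcon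
    have h1 : Nat.card T.ker * Nat.card T.range < q ^ s * q ^ s :=
      Nat.mul_lt_mul_of_lt_of_le hcon (by omega) (by omega)
    omega
  refine hfinal.trans (le_of_eq (Nat.card_congr (Equiv.subtypeEquivRight fun f => ?_)))
  constructor
  · intro hf' x y hxy
    have h1 : T f = 1 := hf'
    have h2 := DFunLike.congr_fun h1 x
    have h3 : θN x = y := Subtype.ext hxy.symm
    rw [← h3]
    exact h2
  · intro hf'
    show T f = 1
    ext x
    exact congrArg Multiplicative.toAdd (hf' x (θN x) rfl)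

end

end BCX
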