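import Pool.Agent.BCX.Fn0
import Pool.Agent.BCX.Res

/-!
# The stable classes in degree two (row UN2)
-/

set_option autoImplicit false

open CategoryTheory groupCohomology EssMap
open scoped commutatorElement

namespace BCX

namespace U2


section

variable {X : Type} [Group X] {m : ℕ}

/-- the cochain of a 2-cocycle -/
def cz2 (z : cocycles₂ (Fm X m)) : X → X → ZMod m := fun g h => z.1 (g, h)

theorem cz2_isZ2 (z : cocycles₂ (Fm X m)) : IsZ2 (cz2 z) := by
  intro g h k
  exact (mem_cocycles₂_def z.1).1 z.2 g h k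

theorem cz2_zero_iff (z : cocycles₂ (Fm X m)) : H2π (Fm X m) z = 0 ↔ IsB2 (cz2 z) := by
  rw [H2π_eq_zero_iff]
  constructor
  · rintro ⟨b, hb⟩
    refine ⟨b, fun g h => ?_⟩
    exact (congrFun hb (g, h)).symm
  · rintro ⟨b, hb⟩
    refine ⟨b, ?_⟩
    funext g
    exact (hb g.1 g.2).symm

theorem cz2_add (z z' : cocycles₂ (Fm X m)) : cz2 (z + z') = cz2 z + cz2 z' := rfl

theorem cz2_sub (z z' : cocycles₂ (Fm X m)) : cz2 (z - z') = cz2 z - cz2 z' := rfl

theorem isZ3_cup (y : X →* Multiplicative (ZMod m)) (c : X → X → ZMod m) (hc : IsZ2 c) :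
    IsZ3 (fun g h k => (y g).toAdd * c h k) := by
  intro g h k l
  have h1 := hc h k l
  have h2 : (y (g * h)).toAdd = (y g).toAdd + (y h).toAdd := by
    rw [map_mul]
    rfl
  show (y h).toAdd * c k l - (y (g * h)).toAdd * c k l + (y g).toAdd * c (h * k) l -
    (y g).toAdd * c h (k * l) + (y g).toAdd * c h k = 0
  rw [h2]
  linear_combination -(y g).toAdd * h1

/-- the pairing of the 2-cocycles with the characters -/
noncomputable def pairF (ev : (X → X → X → ZMod m) → ZMod m)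
    (hev : ∀ d d', IsZ3 d → IsZ3 d' → ev (d + d') = ev d + ev d') :
    cocycles₂ (Fm X m) →+ (Additive (X →* Multiplicative (ZMod m)) →+ ZMod m) :=
  AddMonoidHom.mk' (fun z => AddMonoidHom.mk'
    (fun y => ev (fun g h k => (y.toMul g).toAdd * cz2 z h k)) (by
      intro y y'
      rw [← hev _ _ (isZ3_cup y.toMul _ (cz2_isZ2 z)) (isZ3_cup y'.toMul _ (cz2_isZ2 z))]
      congr 1
      funext g h k
      show (((y + y').toMul) g).toAdd * cz2 z h k = (y.toMul g).toAdd * cz2 z h k +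
        (y'.toMul g).toAdd * cz2 z h k
      rw [← add_mul]
      rfl)) (by
    intro z z'
    ext y
    refine Eq.trans ?_ (hev _ _ (isZ3_cup y _ (cz2_isZ2 z)) (isZ3_cup y _ (cz2_isZ2 z')))
    refine congrArg ev ?_
    funext g h k
    exact mul_add (y g).toAdd (cz2 z h k) (cz2 z' h k))

theorem pairF_apply (ev : (X → X → X → ZMod m) → ZMod m)
    (hev : ∀ d d', IsZ3 d → IsZ3 d' → ev (d + d') = ev d + ev d') (z : cocycles₂ (Fm X m))
    (y : Additive (X →* Multiplicative (ZMod m))) :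
    pairF ev hev z y = ev (fun g h k => (y.toMul g).toAdd * cz2 z h k) := rfl

theorem pairF_eq_zero (hX : Dual 3 X) (ho : Ori 3 X = ⊤) (hm : 2 ≤ m)
    (ev : (X → X → X → ZMod m) → ZMod m)
    (hev : ∀ d d', IsZ3 d → IsZ3 d' → ev (d + d') = ev d + ev d')
    (hev0 : ∀ d, IsZ3 d → (ev d = 0 ↔ IsB3 d)) (z : cocycles₂ (Fm X m))
    (hz : pairF ev hev z = 0) : H2π (Fm X m) z = 0 := by
  rw [cz2_zero_iff]
  refine nd hX ho m hm _ (cz2_isZ2 z) fun y => ?_
  rw [← hev0 _ (isZ3_cup y _ (cz2_isZ2 z))]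
  exact DFunLike.congr_fun hz (Additive.ofMul y)

theorem exists_rep2 (x : groupCohomology (Fm X m) 2) :
    ∃ z : cocycles₂ (Fm X m), H2π (Fm X m) z = x := by
  induction x using H2_induction_on with
  | h z => exact ⟨z, rfl⟩

/-- a cocycle that represents a class -/
noncomputable def rep2 (x : groupCohomology (Fm X m) 2) : cocycles₂ (Fm X m) :=
  (exists_rep2 x).choose

theorem rep2_spec (x : groupCohomology (Fm X m) 2) : H2π (Fm X m) (rep2 x) = x :=
  (exists_rep2 x).choose_spec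

theorem pairF_rep_injective (hX : Dual 3 X) (ho : Ori 3 X = ⊤) (hm : 2 ≤ m)
    (ev : (X → X → X → ZMod m) → ZMod m)
    (hev : ∀ d d', IsZ3 d → IsZ3 d' → ev (d + d') = ev d + ev d')
    (hev0 : ∀ d, IsZ3 d → (ev d = 0 ↔ IsB3 d)) :
    Function.Injective fun x : groupCohomology (Fm X m) 2 => pairF ev hev (rep2 x) := by
  intro x y hxy
  have h1 : pairF ev hev (rep2 x - rep2 y) = 0 := by
    rw [map_sub, sub_eq_zero]
    exact hxy
  have h2 := pairF_eq_zero hX ho hm ev hev hev0 _ h1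
  rw [map_sub, sub_eq_zero, rep2_spec, rep2_spec] at h2
  exact h2

theorem finite_homs [Group.FG X] (hm : 2 ≤ m) : Finite (X →* Multiplicative (ZMod m)) := by
  have : NeZero m := ⟨by omega⟩
  exact finite_hom X (Multiplicative (ZMod m))

end


section

variable {X : Type} [Group X] {m : ℕ}

/-- the pull back of a 2-cocycle -/
def pullZ (θ : X →* X) (z : cocycles₂ (Fm X m)) : cocycles₂ (Fm X m) :=
  ⟨fun g => z.1 (θ g.1, θ g.2), by
    rw [mem_cocycles₂_def]
    intro g h k
    have h1 := cz2_isZ2 z (θ g) (θ h) (θ k)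
    show (z.1 (θ h, θ k) : ZMod m) - z.1 (θ (g * h), θ k) + z.1 (θ g, θ (h * k)) -
      z.1 (θ g, θ h) = 0
    rw [map_mul, map_mul]
    exact h1⟩

theorem cz2_pullZ (θ : X →* X) (z : cocycles₂ (Fm X m)) (g h : X) :
    cz2 (pullZ θ z) g h = cz2 z (θ g) (θ h) := rfl

theorem TT_H2 (θ : X →* X) (z : cocycles₂ (Fm X m)) :
    TT θ (Fm X m) (Fm_inv θ m) 2 (H2π (Fm X m) z) = H2π (Fm X m) (pullZ θ z) := by
  have h1 := H2π_comp_map (A := Fm X m) (B := Fm X m) θ (tw θ (Fm X m) (Fm_inv θ m))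
  have h2 := congrArg (fun F => F.hom z) h1
  refine Eq.trans (show _ = _ from h2) ?_
  refine congrArg (H2π (Fm X m)) ?_
  rfl

theorem TT_iter_H2 (θ : X →* X) (k : ℕ) (z : cocycles₂ (Fm X m)) :
    (TT θ (Fm X m) (Fm_inv θ m) 2)^[k] (H2π (Fm X m) z) =
      H2π (Fm X m) (pullZ (itr θ k) z) := by
  induction k generalizing z with
  | zero => rfl
  | succ k ih =>
    rw [Function.iterate_succ_apply, TT_H2, ih]
    refine congrArg (H2π (Fm X m)) ?_
    apply Subtype.ext
    funext g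
    show z.1 (θ (itr θ k g.1), θ (itr θ k g.2)) = z.1 (itr θ (k + 1) g.1, itr θ (k + 1) g.2)
    rw [itr_succ, itr_succ]

theorem isB3_cup (y : X →* Multiplicative (ZMod m)) (c : X → X → ZMod m) (hc : IsB2 c) :
    IsB3 (fun g h k => (y g).toAdd * c h k) := by
  obtain ⟨b, hb⟩ := hc
  refine ⟨fun g h => -((y g).toAdd * b h), fun g h k => ?_⟩
  have h2 : (y (g * h)).toAdd = (y g).toAdd + (y h).toAdd := by
    rw [map_mul]
    rfl
  show (y g).toAdd * c h k = -((y h).toAdd * b k) - -((y (g * h)).toAdd * b k) +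
    -((y g).toAdd * b (h * k)) - -((y g).toAdd * b h)
  rw [h2, hb]
  ring

theorem isB3_add {d d' : X → X → X → ZMod m} (h : IsB3 d) (h' : IsB3 d') : IsB3 (d + d') := by
  obtain ⟨b, hb⟩ := h
  obtain ⟨b', hb'⟩ := h'
  refine ⟨b + b', fun g h k => ?_⟩
  show d g h k + d' g h k = _
  rw [hb, hb']
  simp only [Pi.add_apply]
  ring

theorem card_hom_le {B : Type} [AddCommGroup B] [Finite B] (hm : 2 ≤ m) :
    Nat.card (B →+ ZMod m) ≤ Nat.card B := by
  have : NeZero m := ⟨by omega⟩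
  have : Fintype B := Fintype.ofFinite B
  have h1 : Nat.card (AddChar B ℂ) = Nat.card B := by
    rw [Nat.card_eq_fintype_card, Nat.card_eq_fintype_card]
    exact AddChar.card_eq
  rw [← h1]
  refine Nat.card_le_card_of_injective
    (fun f => (ZMod.stdAddChar (N := m)).compAddMonoidHom f) ?_
  intro f g hfg
  ext x
  have h2 := DFunLike.congr_fun hfg x
  exact ZMod.injective_stdAddChar h2

theorem card_van_le {H : Type} [CommGroup H] [Finite H] (hm : 2 ≤ m) (S : Subgroup H) :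
    Nat.card {f : Additive H →+ ZMod m // ∀ y ∈ S, f (Additive.ofMul y) = 0} * Nat.card S ≤
      Nat.card H := by
  have : NeZero m := ⟨by omega⟩
  have h1 : Nat.card {f : Additive H →+ ZMod m // ∀ y ∈ S, f (Additive.ofMul y) = 0} ≤
      Nat.card (Additive (H ⧸ S) →+ ZMod m) := by
    have : Finite (Additive (H ⧸ S) →+ ZMod m) := DFunLike.finite _
    refine Nat.card_le_card_of_injective (fun f => MonoidHom.toAdditiveLeft
      (QuotientGroup.lift S (AddMonoidHom.toMultiplicativeRight f.1) (fun y hy => ?_))) ?_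
    · exact congrArg Multiplicative.ofAdd (f.2 y hy)
    · intro f g hfg
      apply Subtype.ext
      ext x
      have h2 := DFunLike.congr_fun hfg (Additive.ofMul (QuotientGroup.mk x))
      exact h2
  have h2 := card_hom_le (m := m) (B := Additive (H ⧸ S)) hm
  have h3 : Nat.card (Additive (H ⧸ S)) = Nat.card (H ⧸ S) := rfl
  calc _ ≤ Nat.card (H ⧸ S) * Nat.card S := Nat.mul_le_mul_right _ (h1.trans (h2.trans_eq h3))
    _ = Nat.card H := (Subgroup.card_eq_card_quotient_mul_card_subgroup S).symm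

end

end U2

open U2 in
/-- ROW UN2 (from ND, EV, RES) -/
theorem un_two_le {X : Type} [Group X] (hX : Dual 3 X) (ho : Ori 3 X = ⊤) (θ : X →* X)
    (hinj : Function.Injective θ) (hfin : θ.range.FiniteIndex) (p : ℕ) [Fact p.Prime]
    (hp : p ∣ θ.range.index) (k : ℕ) (hk : 0 < k)
    (S : Subgroup (X →* Multiplicative (ZMod (p ^ k))))
    (hS : ∀ y ∈ S, ∃ y' ∈ S, ∀ g, y' (θ g) = y g) :
    Finite (groupCohomology (Fm X (p ^ k)) 2) ∧
      un θ (Fm X (p ^ k)) (Fm_inv θ _) 2 * Nat.card S ≤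
        Nat.card (X →* Multiplicative (ZMod (p ^ k))) := by
  have hpp : p.Prime := Fact.out
  have hm : 2 ≤ p ^ k := hpp.two_le.trans (Nat.le_self_pow hk.ne' p)
  have := hX.fg
  have : NeZero (p ^ k) := ⟨by omega⟩
  have h1 : Finite (X →* Multiplicative (ZMod (p ^ k))) := finite_homs hm
  have h2 : Finite (Additive (X →* Multiplicative (ZMod (p ^ k))) →+ ZMod (p ^ k)) :=
    DFunLike.finite _
  have hf2 : Finite (groupCohomology (Fm X (p ^ k)) 2) := fin_two hX ho (p ^ k) hm
  refine ⟨hf2, ?_⟩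
  obtain ⟨ev, hev, hev0⟩ := exists_ev hX ho (p ^ k) hm
  -- iterates
  have hS' : ∀ j : ℕ, ∀ y ∈ S, ∃ y' ∈ S, ∀ g, y' (itr θ j g) = y g := by
    intro j
    induction j with
    | zero => exact fun y hy => ⟨y, hy, fun g => rfl⟩
    | succ j ih =>
      intro y hy
      obtain ⟨y1, hy1, h1⟩ := hS y hy
      obtain ⟨y2, hy2, h2⟩ := ih y1 hy1
      refine ⟨y2, hy2, fun g => ?_⟩
      rw [itr_succ', h2, h1]
  have hinj' : Function.Injective (itr θ k) := itr_inj hinj k
  have hidx : (itr θ k).range.index = θ.range.index ^ k := EssMap.itr_index hinj k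
  have hfin' : (itr θ k).range.FiniteIndex :=
    ⟨by rw [hidx]; exact pow_ne_zero _ hfin.index_ne_zero⟩
  have hdvd : p ^ k ∣ (itr θ k).range.index := by
    rw [hidx]
    exact pow_dvd_pow_of_dvd hp k
  -- stable classes pair trivially with `S`
  have key : ∀ x ∈ st (TT θ (Fm X (p ^ k)) (Fm_inv θ _) 2), ∀ y ∈ S,
      pairF ev hev (rep2 x) (Additive.ofMul y) = 0 := by
    intro x hx y hy
    obtain ⟨x', hx'⟩ := hx k
    obtain ⟨z', rfl⟩ := exists_rep2 x'
    rw [TT_iter_H2] at hx'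
    obtain ⟨y', hy', hyy⟩ := hS' k y hy
    have h3 : IsB2 (cz2 (rep2 x - pullZ (itr θ k) z')) := by
      rw [← cz2_zero_iff, map_sub, rep2_spec, hx', sub_self]
    have h4 := isB3_cup y _ h3
    have h5 := res_zero hX ho (p ^ k) hm (itr θ k) hinj' hfin' hdvd _
      (isZ3_cup y' _ (cz2_isZ2 z'))
    have h6 := isB3_add h5 h4
    refine (hev0 _ (isZ3_cup y _ (cz2_isZ2 _))).2 ?_
    have h8 : (fun g h l => (y g).toAdd * cz2 (rep2 x) h l) =
        (fun g h l => (y' (itr θ k g)).toAdd * cz2 z' (itr θ k h) (itr θ k l)) +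
        fun g h l => (y g).toAdd * cz2 (rep2 x - pullZ (itr θ k) z') h l := by
      funext g h l
      show (y g).toAdd * cz2 (rep2 x) h l =
        (y' (itr θ k g)).toAdd * cz2 z' (itr θ k h) (itr θ k l) +
        (y g).toAdd * (cz2 (rep2 x) h l - cz2 z' (itr θ k h) (itr θ k l))
      rw [hyy]
      ring
    rw [h8]
    exact h6
  have h7 : un θ (Fm X (p ^ k)) (Fm_inv θ _) 2 ≤
      Nat.card {f : Additive (X →* Multiplicative (ZMod (p ^ k))) →+ ZMod (p ^ k) //
        ∀ y ∈ S, f (Additive.ofMul y) = 0} := by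
    refine Nat.card_le_card_of_injective
      (fun x => ⟨pairF ev hev (rep2 x.1), key x.1 x.2⟩) ?_
    intro x x' hxx
    apply Subtype.ext
    exact pairF_rep_injective hX ho hm ev hev hev0 (congrArg Subtype.val hxx)
  calc _ ≤ _ := Nat.mul_le_mul_right _ h7
    _ ≤ _ := card_van_le hm S

end BCX
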