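import Pool.Agent.BCX.Rtr
import Pool.Agent.BCX.Cnt
import Pool.Agent.BCX.Un2

/-!
# The commutators of the kernel lie in the image
-/

set_option autoImplicit false

open CategoryTheory groupCohomology EssMap
open scoped commutatorElement

namespace BCX

/-- many homomorphisms to the cyclic group of order `q ^ k` -/
theorem cmm_dvd {A : Type} [CommGroup A] [Finite A] (q k : ℕ) [Fact q.Prime] (hk : 0 < k)
    (h : q ^ k ≤ Nat.card (A →* Multiplicative (ZMod (q ^ k)))) : q ^ k ∣ Nat.card A := by
  have hq : q.Prime := Fact.out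
  have hm : 2 ≤ q ^ k := hq.two_le.trans (Nat.le_self_pow hk.ne' q)
  have : NeZero (q ^ k) := ⟨by omega⟩
  let P : Subgroup A := (powMonoidHom (q ^ k) : A →* A).range
  let B := A ⧸ P
  have hB : IsPGroup q B := by
    intro b
    induction b using QuotientGroup.induction_on with
    | H x =>
      refine ⟨k, ?_⟩
      rw [← QuotientGroup.mk_pow, QuotientGroup.eq_one_iff]
      exact ⟨x, rfl⟩
  obtain ⟨r, hr⟩ := hB.exists_card_eq
  have h1 : Nat.card (A →* Multiplicative (ZMod (q ^ k))) ≤ Nat.card (Additive B →+ ZMod (q ^ k)) := by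
    have : Finite (Additive B →+ ZMod (q ^ k)) := DFunLike.finite _
    refine Nat.card_le_card_of_injective (fun f => MonoidHom.toAdditiveLeft
      (QuotientGroup.lift P f (fun y hy => ?_))) ?_
    · obtain ⟨x, rfl⟩ := hy
      show f (x ^ q ^ k) = 1
      rw [map_pow]
      apply Multiplicative.toAdd.injective
      rw [toAdd_pow, toAdd_one, nsmul_eq_mul, ZMod.natCast_self, zero_mul]
    · intro f g hfg
      ext x
      have h2 := DFunLike.congr_fun hfg (Additive.ofMul (QuotientGroup.mk x))
      exact h2
  have h2 := U2.card_hom_le (m := q ^ k) (B := Additive B) hm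
  have h3 : Nat.card (Additive B) = Nat.card B := rfl
  rw [h3, hr] at h2
  have h4 : q ^ k ≤ q ^ r := h.trans (h1.trans h2)
  have h5 : k ≤ r := (Nat.pow_le_pow_iff_right hq.one_lt).1 h4
  have h6 : Nat.card B ∣ Nat.card A := Subgroup.card_quotient_dvd_card P
  rw [hr] at h6
  exact (pow_dvd_pow q h5).trans h6

/-- the index of the image in the kernel -/
theorem cmm_index {G : Type} [Group G] (a : G →* Multiplicative ℤ) (t : G)
    (ht : a t = Multiplicative.ofAdd 1) (θ : G →* G) (haθ : ∀ g, a (θ g) = a g) :
    (θ.range.subgroupOf a.ker).index = θ.range.index := by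
  unfold Subgroup.index
  refine Nat.card_congr (Equiv.ofBijective (Quotient.map' (fun x : a.ker => (x : G)) ?_) ⟨?_, ?_⟩)
  · intro x y hxy
    rw [QuotientGroup.leftRel_apply] at hxy ⊢
    exact Subgroup.mem_subgroupOf.1 hxy
  · intro x y hxy
    induction x using Quotient.inductionOn' with
    | h x =>
      induction y using Quotient.inductionOn' with
      | h y =>
        have h1 : (QuotientGroup.mk (x : G) : G ⧸ θ.range) = QuotientGroup.mk (y : G) := hxy
        rw [QuotientGroup.eq] at h1
        exact QuotientGroup.eq.2 (Subgroup.mem_subgroupOf.2 h1)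
  · intro g
    induction g using Quotient.inductionOn' with
    | h g =>
      set n : ℤ := (a g).toAdd with hn
      have h1 : a (t ^ n) = a g := by
        rw [map_zpow, ht]
        apply Multiplicative.toAdd.injective
        rw [toAdd_zpow, toAdd_ofAdd, smul_eq_mul, mul_one]
      refine ⟨Quotient.mk'' ⟨g * (θ (t ^ n))⁻¹, ?_⟩, ?_⟩
      · rw [MonoidHom.mem_ker, map_mul, map_inv, haθ, h1, mul_inv_cancel]
      · have h2 : (QuotientGroup.mk (g * (θ (t ^ n))⁻¹) : G ⧸ θ.range) = QuotientGroup.mk g := by
          rw [QuotientGroup.eq]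
          refine ⟨t ^ n, ?_⟩
          group
        exact h2

theorem comm_mem {G : Type} [Group G] (hG : Dual 3 G) (ho : Ori 3 G = ⊤)
    (a : G →* Multiplicative ℤ) (t : G) (ht : a t = Multiplicative.ofAdd 1) (θ : G →* G)
    (hinj : Function.Injective θ) (hfin : θ.range.FiniteIndex) (haθ : ∀ g, a (θ g) = a g)
    (hfinE : ∀ m : ℕ, 0 < m → Finite (a.ker →* Multiplicative (ZMod m)))
    (hne : ∀ q : ℕ, q.Prime → q ∣ θ.range.index →
      ∃ v : a.ker →* Multiplicative (ZMod q), v ≠ 1)
    (x y : G) (hx : x ∈ a.ker) (hy : y ∈ a.ker) : ⁅x, y⁆ ∈ θ.range := by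
  classical
  let K : Subgroup a.ker := θ.range.subgroupOf a.ker
  have hKi : K.index = θ.range.index := cmm_index a t ht θ haθ
  have hKf : K.FiniteIndex := ⟨by rw [hKi]; exact hfin.index_ne_zero⟩
  let L : Subgroup a.ker := K ⊔ commutator a.ker
  have hcL : commutator a.ker ≤ L := le_sup_right
  have hLn : L.Normal := by
    refine ⟨fun n hn g => ?_⟩
    have h1 : ⁅g, n⁆ ∈ L := hcL (Subgroup.commutator_mem_commutator
      (Subgroup.mem_top g) (Subgroup.mem_top n))
    have h2 : g * n * g⁻¹ = ⁅g, n⁆ * n := by
      rw [commutatorElement_def]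
      group
    rw [h2]
    exact L.mul_mem h1 hn
  have hLf : L.FiniteIndex := Subgroup.finiteIndex_of_le (show K ≤ L from le_sup_left)
  have hcomm : ∀ u v : a.ker ⧸ L, u * v = v * u := by
    intro u v
    induction u using QuotientGroup.induction_on with
    | H u =>
      induction v using QuotientGroup.induction_on with
      | H v =>
        rw [← QuotientGroup.mk_mul, ← QuotientGroup.mk_mul, QuotientGroup.eq]
        apply hcL
        have h1 : (u * v)⁻¹ * (v * u) = ⁅v⁻¹, u⁻¹⁆ := by
          rw [commutatorElement_def]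
          group
        rw [h1]
        exact Subgroup.commutator_mem_commutator (Subgroup.mem_top _) (Subgroup.mem_top _)
  let instA : CommGroup (a.ker ⧸ L) := { (inferInstance : Group (a.ker ⧸ L)) with
    mul_comm := hcomm }
  have hfA : Finite (a.ker ⧸ L) := inferInstance
  -- divisibility
  have key : ∀ q k : ℕ, q.Prime → q ^ k ∣ θ.range.index → q ^ k ∣ L.index := by
    intro q k hq hqk
    rcases Nat.eq_zero_or_pos k with rfl | hk
    · rw [pow_zero]
      exact one_dvd _
    have hqf : Fact q.Prime := ⟨hq⟩
    have hqD : q ∣ θ.range.index := (dvd_pow_self q hk.ne').trans hqk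
    have hmpos : 0 < q ^ (k + 1) := pow_pos hq.pos _
    obtain ⟨G', a', t', j, hj, hG'f, hG', ht', hat', ha', htriv⟩ :=
      reduce_triv a t ht (q ^ (k + 1)) (hfinE _ hmpos)
    have hG'θ : ∀ x ∈ G', θ x ∈ G' := by
      intro x hx
      rw [hG', haθ, ← hG']
      exact hx
    have hker' : ∀ x : G', x ∈ a'.ker ↔ (x : G) ∈ a.ker := by
      intro x
      have h1 : (a (x : G)).toAdd = j * (a' x).toAdd := ha' x
      constructor
      · intro hx
        have hx1 : a' x = 1 := hx
        apply Multiplicative.toAdd.injective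
        rw [h1, hx1, toAdd_one, mul_zero]
      · intro hx
        have hx1 : a (x : G) = 1 := hx
        rw [hx1, toAdd_one] at h1
        rcases mul_eq_zero.1 h1.symm with h3 | h3
        · exact absurd h3 (by exact_mod_cast hj.ne')
        · exact Multiplicative.toAdd.injective h3
    have hmem : ∀ x ∈ a.ker, x ∈ G' := by
      intro x hx
      have hx1 : a x = 1 := hx
      rw [hG', hx1, toAdd_one]
      exact dvd_zero _
    let e : a.ker ≃* a'.ker :=
      { toFun := fun x => ⟨⟨x.1, hmem x.1 x.2⟩, (hker' ⟨x.1, hmem x.1 x.2⟩).2 x.2⟩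
        invFun := fun x => ⟨((x : G') : G), (hker' x.1).1 x.2⟩
        left_inv := fun _ => rfl
        right_inv := fun _ => rfl
        map_mul' := fun _ _ => rfl }
    have hinj' : Function.Injective (rst θ G' hG'θ) := rst_inj hinj G' hG'θ
    have hfin' : (rst θ G' hG'θ).range.FiniteIndex := rst_fin hinj hfin G' hG'f hG'θ
    have hidx : (rst θ G' hG'θ).range.index = θ.range.index := rst_index hinj G' hG'f hG'θ
    have haθ' : ∀ g, a' (rst θ G' hG'θ g) = a' g := by
      intro g
      apply Multiplicative.toAdd.injective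
      apply mul_left_cancel₀ (show (j : ℤ) ≠ 0 by exact_mod_cast hj.ne')
      rw [← ha', ← ha']
      exact congrArg Multiplicative.toAdd (haθ (g : G))
    have hfinE' : Finite (a'.ker →* Multiplicative (ZMod (q ^ (k + 1)))) := by
      have := hfinE _ hmpos
      refine Finite.of_injective
        (fun f : a'.ker →* Multiplicative (ZMod (q ^ (k + 1))) => f.comp e.toMonoidHom) ?_
      intro f g hfg
      ext z
      have h2 := DFunLike.congr_fun hfg (e.symm z)
      have h3 : f (e (e.symm z)) = g (e (e.symm z)) := h2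
      rw [MulEquiv.apply_symm_apply] at h3
      rw [h3]
    have hne' : ∃ v : a'.ker →* Multiplicative (ZMod q), v ≠ 1 := by
      obtain ⟨v, hv⟩ := hne q hq hqD
      refine ⟨v.comp e.symm.toMonoidHom, fun h => hv ?_⟩
      ext z
      have h2 := DFunLike.congr_fun h (e z)
      have h3 : v (e.symm (e z)) = 1 := h2
      rw [MulEquiv.symm_apply_apply] at h3
      rw [h3]
      rfl
    have h5 := count0 (hG.sub G') (ori_top G' 3 hG.cd (by rw [ho]; exact le_top)) a' t' hat'
      (rst θ G' hG'θ) hinj' hfin' haθ' q k hk (by rw [hidx]; exact hqk) hfinE' htriv hne'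
    have h6 : q ^ k ≤ Nat.card ((a.ker ⧸ L) →* Multiplicative (ZMod (q ^ k))) := by
      refine h5.trans ?_
      have : NeZero (q ^ k) := ⟨(pow_pos hq.pos k).ne'⟩
      have : Finite ((a.ker ⧸ L) →* Multiplicative (ZMod (q ^ k))) := DFunLike.finite _
      refine Nat.card_le_card_of_injective (fun f => QuotientGroup.lift L
        (f.1.comp e.toMonoidHom) ?_) ?_
      · have h7 : L ≤ (f.1.comp e.toMonoidHom).ker := by
          apply sup_le
          · intro z hz
            obtain ⟨w, hw⟩ := Subgroup.mem_subgroupOf.1 hz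
            have haw : a w = 1 := by
              rw [← haθ, hw]
              exact z.2
            rw [MonoidHom.mem_ker]
            exact f.2 (e ⟨w, haw⟩) (e z) (Subtype.ext hw.symm)
          · exact Abelianization.commutator_subset_ker _
        exact fun z hz => h7 hz
      · intro f g hfg
        apply Subtype.ext
        ext z
        have h8 := DFunLike.congr_fun hfg (QuotientGroup.mk (e.symm z))
        have h9 : f.1 (e (e.symm z)) = g.1 (e (e.symm z)) := h8
        rw [MulEquiv.apply_symm_apply] at h9
        rw [h9]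
    exact cmm_dvd q k hk h6
  have hdvd : θ.range.index ∣ L.index :=
    (Nat.dvd_iff_prime_pow_dvd_dvd _ _).2 fun q k hq h => key q k hq h
  have hle : L ≤ K := by
    have h1 : K.relIndex L * L.index = K.index := Subgroup.relIndex_mul_index le_sup_left
    rw [← hKi] at hdvd
    obtain ⟨c, hc⟩ := hdvd
    have h2 : 0 < L.index := Nat.pos_of_ne_zero hLf.index_ne_zero
    have h3 : K.relIndex L = 1 := by
      have h4 : K.relIndex L * L.index ≤ 1 * L.index := by
        rw [h1, one_mul]
        have hc0 : c ≠ 0 := by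
          rintro rfl
          rw [mul_zero] at hc
          exact h2.ne' hc
        rw [hc]
        exact Nat.le_mul_of_pos_right _ (Nat.pos_of_ne_zero hc0)
      have h5 := Nat.le_of_mul_le_mul_right h4 h2
      have h6 : K.relIndex L ≠ 0 := by
        intro h0
        rw [h0, zero_mul] at h1
        exact hKf.index_ne_zero h1.symm
      omega
    exact Subgroup.relIndex_eq_one.1 h3
  have h9 : (⁅(⟨x, hx⟩ : a.ker), ⟨y, hy⟩⁆ : a.ker) ∈ K :=
    hle (hcL (Subgroup.commutator_mem_commutator (Subgroup.mem_top _) (Subgroup.mem_top _)))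
  exact Subgroup.mem_subgroupOf.1 h9

end BCX
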