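import Pool.Agent.BCX.Coc

/-!
# The top cohomology modulo `m`
-/

set_option autoImplicit false

open CategoryTheory groupCohomology EssMap

namespace BCX

variable {X : Type} [Group X]

/-- the fundamental class -/
noncomputable def fz (u : groupCohomology (Rep.leftRegular ℤ X) 3 ≃+ ℤ) : HZ X 3 :=
  cmap (eps X) 3 (u.symm 1)

theorem fz_zero (hX : Dual 3 X) (ho : Ori 3 X = ⊤)
    (u : groupCohomology (Rep.leftRegular ℤ X) 3 ≃+ ℤ) (k : ℤ) (h : k • fz u = 0) : k = 0 := by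
  have := hX.fg
  unfold fz at h
  rw [← map_zsmul] at h
  have h3 := eps_injective 3 u hX.cd ho _ h
  have h4 := congrArg u h3
  rw [map_zsmul, u.apply_symm_apply, map_zero, smul_eq_mul, mul_one] at h4
  exact h4

theorem fz_gen (hX : Dual 3 X) (u : groupCohomology (Rep.leftRegular ℤ X) 3 ≃+ ℤ) (x : HZ X 3) :
    ∃ k : ℤ, x = k • fz u := by
  obtain ⟨y, hy⟩ := top_surj (eps X) (fun k => ⟨_, eps_single X 1 k⟩) 3 hX.cd x
  have hy2 : cmap (eps X) 3 y = x := hy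
  refine ⟨u y, ?_⟩
  have h3 : u y • u.symm 1 = y := by
    rw [← map_zsmul, smul_eq_mul, mul_one, u.symm_apply_apply]
  unfold fz
  rw [← map_zsmul, h3, hy2]

/-- the fundamental class modulo `m` -/
noncomputable def fm (u : groupCohomology (Rep.leftRegular ℤ X) 3 ≃+ ℤ) (m : ℕ) :
    groupCohomology (Fm X m) 3 := cmap (redE X m) 3 (fz u)

theorem fm_gen (hX : Dual 3 X) (u : groupCohomology (Rep.leftRegular ℤ X) 3 ≃+ ℤ) (m : ℕ)
    (x : groupCohomology (Fm X m) 3) : ∃ k : ℤ, x = k • fm u m := by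
  obtain ⟨y, hy⟩ := top_surj (redE X m) (redE_surj X m) 3 hX.cd x
  have hy2 : cmap (redE X m) 3 y = x := hy
  obtain ⟨k, rfl⟩ := fz_gen hX u y
  refine ⟨k, ?_⟩
  unfold fm
  rw [← hy2, map_zsmul]

theorem fm_ker (hX : Dual 3 X) (ho : Ori 3 X = ⊤)
    (u : groupCohomology (Rep.leftRegular ℤ X) 3 ≃+ ℤ) (m : ℕ) (hm : 0 < m) (k : ℤ) :
    k • fm u m = 0 ↔ (m : ℤ) ∣ k := by
  constructor
  · intro h
    unfold fm at h
    rw [← map_zsmul] at h
    obtain ⟨y, hy⟩ := red_zero m hm 3 _ h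
    obtain ⟨l, rfl⟩ := fz_gen hX u y
    have h1 : (k - m * l) • fz u = 0 := by
      rw [sub_zsmul, mul_smul, ← sub_eq_add_neg, sub_eq_zero]
      exact hy
    exact ⟨l, by have := fz_zero hX ho u _ h1; linarith⟩
  · rintro ⟨l, rfl⟩
    unfold fm
    rw [← map_zsmul]
    exact (les2 (XE_shortExact X m hm) 3 _).2 ⟨l • fz u, by
      show cmap ((m : ℤ) • 𝟙 (Rep.trivial ℤ X ℤ)) 3 (l • fz u) = _
      rw [cmap_int_smul, cmap_id, mul_zsmul]
      rfl⟩

theorem exists_iso3 (hX : Dual 3 X) (ho : Ori 3 X = ⊤) (m : ℕ) (hm : 0 < m) :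
    Nonempty (ZMod m ≃+ groupCohomology (Fm X m) 3) := by
  obtain ⟨u⟩ := hX.top
  let j : ZMod m →+ groupCohomology (Fm X m) 3 := ZMod.lift m ⟨zmultiplesHom _ (fm u m), by
    rw [zmultiplesHom_apply]
    exact (fm_ker hX ho u m hm _).2 (dvd_refl _)⟩
  have hjc : ∀ k : ℤ, j (k : ZMod m) = k • fm u m := fun k => ZMod.lift_coe m _ k
  refine ⟨AddEquiv.ofBijective j ⟨?_, ?_⟩⟩
  · rw [injective_iff_map_eq_zero]
    intro z hz
    obtain ⟨k, rfl⟩ := ZMod.intCast_surjective z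
    rw [hjc, fm_ker hX ho u m hm] at hz
    rwa [ZMod.intCast_zmod_eq_zero_iff_dvd]
  · intro x
    obtain ⟨k, rfl⟩ := fm_gen hX u m x
    exact ⟨k, hjc k⟩

/-- ROW EV: the top cohomology modulo `m` embeds in `Z/m` -/
theorem exists_ev {X : Type} [Group X] (hX : Dual 3 X) (ho : Ori 3 X = ⊤) (m : ℕ) (hm : 2 ≤ m) :
    ∃ ev : (X → X → X → ZMod m) → ZMod m,
      (∀ d d', IsZ3 d → IsZ3 d' → ev (d + d') = ev d + ev d') ∧
      (∀ d, IsZ3 d → (ev d = 0 ↔ IsB3 d)) := by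
  classical
  obtain ⟨i⟩ := exists_iso3 hX ho m (by omega)
  refine ⟨fun d => if h : IsZ3 d then i.symm (k3 d h) else 0, ?_, ?_⟩
  · intro d d' hd hd'
    show (if h : IsZ3 (d + d') then i.symm (k3 (d + d') h) else 0) =
      (if h : IsZ3 d then i.symm (k3 d h) else 0) + (if h : IsZ3 d' then i.symm (k3 d' h) else 0)
    rw [dif_pos hd, dif_pos hd', dif_pos (hd.add hd'), ← map_add, k3_add]
  · intro d hd
    show (if h : IsZ3 d then i.symm (k3 d h) else 0) = 0 ↔ _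
    rw [dif_pos hd, ← k3_zero d hd]
    exact i.symm.map_eq_zero_iff

end BCX
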