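import Mathlib

/-!
# EXK: extension of characters of the kernel
-/

set_option autoImplicit false

namespace BCX

/-- ROW EXK: extension of characters of the kernel -/
theorem ext_ker {G : Type} [Group G] (a : G →* Multiplicative ℤ) (t : G)
    (ht : a t = Multiplicative.ofAdd 1) {A : Type} [CommGroup A] (v : a.ker →* A)
    (htriv : ∀ x y : a.ker, (y : G) = t * x * t⁻¹ → v y = v x) :
    ∃ w : G →* A, w t = 1 ∧ ∀ x : a.ker, w x = v x := by
  have hmem : ∀ g : G, g * t ^ (-(a g).toAdd) ∈ a.ker := by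
    intro g
    rw [MonoidHom.mem_ker, map_mul, map_zpow, ht]
    apply Multiplicative.toAdd.injective
    simp
  have hn : ∀ (n : ℕ) (x y : a.ker), (y : G) = t ^ n * x * (t ^ n)⁻¹ → v y = v x := by
    intro n
    induction n with
    | zero =>
      intro x y h
      congr 1
      apply Subtype.ext
      simpa using h
    | succ n ih =>
      intro x y h
      have h1 := ih x ⟨t ^ n * x * (t ^ n)⁻¹, a.normal_ker.conj_mem x x.2 (t ^ n)⟩ rfl
      rw [← h1]
      apply htriv
      rw [h, pow_succ']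
      group
  have hz : ∀ (n : ℤ) (x y : a.ker), (y : G) = t ^ n * x * (t ^ n)⁻¹ → v y = v x := by
    intro n x y h
    obtain ⟨k, rfl | rfl⟩ := Int.eq_nat_or_neg n
    · exact hn k x y (by simpa using h)
    · symm
      apply hn k y x
      rw [h]
      group
  refine ⟨MonoidHom.mk' (fun g => v ⟨g * t ^ (-(a g).toAdd), hmem g⟩) ?_, ?_, ?_⟩
  · intro g h
    have h1 := hz (a g).toAdd ⟨h * t ^ (-(a h).toAdd), hmem h⟩
      ⟨t ^ (a g).toAdd * (h * t ^ (-(a h).toAdd)) * (t ^ (a g).toAdd)⁻¹,
        a.normal_ker.conj_mem _ (hmem h) (t ^ (a g).toAdd)⟩ rfl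
    rw [← h1, ← map_mul]
    congr 1
    apply Subtype.ext
    simp only [Subgroup.coe_mul, map_mul, toAdd_mul]
    rw [neg_add, add_comm, zpow_add]
    group
  · simp only [MonoidHom.mk'_apply]
    have : (⟨t * t ^ (-(a t).toAdd), hmem t⟩ : a.ker) = 1 := by
      apply Subtype.ext
      simp [ht]
    rw [this, map_one]
  · intro x
    simp only [MonoidHom.mk'_apply]
    congr 1
    apply Subtype.ext
    have hx : a (x : G) = 1 := MonoidHom.mem_ker.1 x.2
    simp [hx]

end BCX
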