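import Pool.Agent.BCX.Nd

/-!
# The pairing on the characters of the kernel is nondegenerate (row NDA)
-/

set_option autoImplicit false

open CategoryTheory groupCohomology EssMap
open scoped commutatorElement

namespace BCX

/-- the cochain computation of row NDA -/
theorem nda_coh {G : Type} [Group G]
    (a : G →* Multiplicative ℤ) (t : G) (ht : a t = Multiplicative.ofAdd 1) (m : ℕ)
    (htriv : ∀ (v : a.ker →* Multiplicative (ZMod m)) (x y : a.ker),
      (y : G) = t * x * t⁻¹ → v y = v x)
    (v : G →* Multiplicative (ZMod m))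
    (h : IsB2 (fun h k : G => ((a h).toAdd : ZMod m) * (v k).toAdd)) :
    ∀ x ∈ a.ker, v x = 1 := by
  obtain ⟨b, hb⟩ := h
  have hN : ∀ g ∈ a.ker, ∀ k, b (g * k) = b g + b k := by
    intro g hg k
    have h1 := hb g k
    have h2 : a g = 1 := hg
    simp only [h2, toAdd_one, Int.cast_zero, zero_mul] at h1
    linear_combination h1
  have h1 : b 1 = 0 := by
    have := hN 1 (one_mem _) 1
    rw [mul_one] at this
    simpa using this
  let β : a.ker →* Multiplicative (ZMod m) :=
    { toFun := fun x => Multiplicative.ofAdd (b (x : G))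
      map_one' := by
        show Multiplicative.ofAdd (b 1) = 1
        rw [h1]; rfl
      map_mul' := by
        intro x y
        show Multiplicative.ofAdd (b ((x : G) * (y : G))) = _
        rw [hN x x.2 y, ofAdd_add] }
  intro x hx
  have hy : t * x * t⁻¹ ∈ a.ker := by
    rw [MonoidHom.mem_ker, map_mul, map_mul, MonoidHom.mem_ker.1 hx, mul_one, ← map_mul,
      mul_inv_cancel, map_one]
  have h2 := htriv β ⟨x, hx⟩ ⟨t * x * t⁻¹, hy⟩ rfl
  have h3 : b (t * x * t⁻¹) = b x := h2
  have h4 := hN _ hy t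
  rw [inv_mul_cancel_right] at h4
  have h5 := hb t x
  simp only [ht, toAdd_ofAdd, Int.cast_one, one_mul] at h5
  have h6 : (v x).toAdd = 0 := by
    rw [h5, h4, h3]; ring
  exact h6

/-- ROW NDA (from ND) -/
theorem nondeg0 {G : Type} [Group G] (hG : Dual 3 G) (ho : Ori 3 G = ⊤)
    (a : G →* Multiplicative ℤ) (t : G) (ht : a t = Multiplicative.ofAdd 1) (m : ℕ) (hm : 2 ≤ m)
    (htriv : ∀ (v : a.ker →* Multiplicative (ZMod m)) (x y : a.ker),
      (y : G) = t * x * t⁻¹ → v y = v x)
    (v : G →* Multiplicative (ZMod m))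
    (h : ∀ w : G →* Multiplicative (ZMod m),
      IsB3 (fun g h k : G => (w g).toAdd * (((a h).toAdd : ZMod m) * (v k).toAdd))) :
    ∀ x ∈ a.ker, v x = 1 := by
  refine nda_coh a t ht m htriv v (nd hG ho m hm _ ?_ h)
  intro g h k
  simp only [map_mul, toAdd_mul, Int.cast_add]
  ring

end BCX
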