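import Pool.Agent.BCX.Pair
import Pool.Agent.BCX.Ev
import Pool.Agent.BCX.Exk
import Pool.Agent.BCX.Nda

/-!
# Characters of the kernel lift
-/

set_option autoImplicit false

open CategoryTheory groupCohomology EssMap
open scoped commutatorElement

namespace BCX

section

variable {G : Type} [Group G]

/-- restriction to the kernel of `a` -/
abbrev rk (a : G →* Multiplicative ℤ) {m : ℕ} (W : G →* Multiplicative (ZMod m)) :
    a.ker →* Multiplicative (ZMod m) := W.comp a.ker.subtype

/-- the pairing on the characters of the kernel -/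
theorem pairing (hG : Dual 3 G) (ho : Ori 3 G = ⊤)
    (a : G →* Multiplicative ℤ) (t : G) (ht : a t = Multiplicative.ofAdd 1) (m : ℕ) (hm : 2 ≤ m)
    (htriv : ∀ (v : a.ker →* Multiplicative (ZMod m)) (x y : a.ker),
      (y : G) = t * x * t⁻¹ → v y = v x) :
    ∃ B : (a.ker →* Multiplicative (ZMod m)) → (a.ker →* Multiplicative (ZMod m)) → ZMod m,
      (∀ w w' v, B (w * w') v = B w v + B w' v) ∧ (∀ w v v', B w (v * v') = B w v + B w v') ∧
      (∀ v, (∀ w, B w v = 0) → v = 1) ∧
      (∀ W V : G →* Multiplicative (ZMod m), B (rk a W) (rk a V) = 0 ↔ IsB3 (cp a m W V)) := by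
  classical
  obtain ⟨ev, hadd, hev⟩ := exists_ev hG ho m hm
  have hext : ∀ v : a.ker →* Multiplicative (ZMod m), ∃ w : G →* Multiplicative (ZMod m),
      w t = 1 ∧ ∀ x : a.ker, w x = v x := fun v => ext_ker a t ht v (htriv v)
  choose e he1 he2 using hext
  have key : ∀ W V : G →* Multiplicative (ZMod m),
      ev (cp a m (e (rk a W)) (e (rk a V))) = ev (cp a m W V) := by
    intro W V
    obtain ⟨z, c, hz, hzc⟩ := ker_decomp (a := a) ht (w := W) (w' := e (rk a W))
      (fun x hx => (he2 (rk a W) ⟨x, hx⟩).symm)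
    obtain ⟨z', c', hz', hzc'⟩ := ker_decomp (a := a) ht (w := V) (w' := e (rk a V))
      (fun x hx => (he2 (rk a V) ⟨x, hx⟩).symm)
    have h1 : ev (cp a m W V) = ev (cp a m (e (rk a W)) V) := by
      have h2 : cp a m W V = cp a m z V + cp a m (e (rk a W)) V := by
        rw [← cp_mul_left, ← hz]
      rw [h2, hadd _ _ (cp_z3 _ _) (cp_z3 _ _), (hev _ (cp_z3 _ _)).2 (cp_left_a _ _ c hzc),
        zero_add]
    have h3 : ev (cp a m (e (rk a W)) V) = ev (cp a m (e (rk a W)) (e (rk a V))) := by
      have h2 : cp a m (e (rk a W)) V =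
          cp a m (e (rk a W)) z' + cp a m (e (rk a W)) (e (rk a V)) := by
        rw [← cp_mul_right, ← hz']
      rw [h2, hadd _ _ (cp_z3 _ _) (cp_z3 _ _), (hev _ (cp_z3 _ _)).2 (cp_right_a _ _ c' hzc'),
        zero_add]
    rw [h1, h3]
  have hrk : ∀ v, rk a (e v) = v := by
    intro v
    ext x
    exact congrArg Multiplicative.toAdd (he2 v x)
  refine ⟨fun w v => ev (cp a m (e w) (e v)), ?_, ?_, ?_, ?_⟩
  · intro w w' v
    have h1 := key (e w * e w') (e v)
    rw [hrk] at h1
    have h2 : rk a (e w * e w') = w * w' := by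
      conv_rhs => rw [← hrk w, ← hrk w']
      rfl
    rw [h2] at h1
    show ev (cp a m (e (w * w')) (e v)) = _
    rw [h1, cp_mul_left, hadd _ _ (cp_z3 _ _) (cp_z3 _ _)]
  · intro w v v'
    have h1 := key (e w) (e v * e v')
    rw [hrk] at h1
    have h2 : rk a (e v * e v') = v * v' := by
      conv_rhs => rw [← hrk v, ← hrk v']
      rfl
    rw [h2] at h1
    show ev (cp a m (e w) (e (v * v'))) = _
    rw [h1, cp_mul_right, hadd _ _ (cp_z3 _ _) (cp_z3 _ _)]
  · intro v hv
    have h1 : ∀ x ∈ a.ker, e v x = 1 := by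
      refine nondeg0 hG ho a t ht m hm htriv (e v) fun w => ?_
      have h2 := hv (rk a w)
      have h3 := key w (e v)
      rw [hrk] at h3
      exact (hev _ (cp_z3 _ _)).1 (h3.symm.trans h2)
    ext x
    have := h1 x x.2
    rw [he2] at this
    exact congrArg Multiplicative.toAdd this
  · intro W V
    show ev (cp a m (e (rk a W)) (e (rk a V))) = 0 ↔ _
    rw [key]
    exact hev _ (cp_z3 _ _)

/-- multiplication by `q ^ (K - 1)` -/
def io (q K : ℕ) (hK : 0 < K) : ZMod q →+ ZMod (q ^ K) :=
  ZMod.lift q ⟨(AddMonoidHom.mulLeft ((q : ZMod (q ^ K)) ^ (K - 1))).comp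
    (Int.castAddHom (ZMod (q ^ K))), by
      show (q : ZMod (q ^ K)) ^ (K - 1) * (((q : ℤ)) : ZMod (q ^ K)) = 0
      rw [Int.cast_natCast, ← pow_succ, Nat.sub_add_cancel hK, ← Nat.cast_pow, ZMod.natCast_self]⟩

theorem io_cast (q K : ℕ) (hK : 0 < K) (z : ℤ) :
    io q K hK (z : ZMod q) = (q : ZMod (q ^ K)) ^ (K - 1) * (z : ZMod (q ^ K)) := by
  rw [io, ZMod.lift_coe]
  rfl

theorem io_inj (q K : ℕ) (hq : 0 < q) (hK : 0 < K) : Function.Injective (io q K hK) := by
  rw [injective_iff_map_eq_zero]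
  intro x hx
  obtain ⟨z, rfl⟩ := ZMod.intCast_surjective x
  rw [io_cast] at hx
  have h1 : (((q : ℤ) ^ (K - 1) * z : ℤ) : ZMod (q ^ K)) = 0 := by
    push_cast
    exact hx
  rw [ZMod.intCast_zmod_eq_zero_iff_dvd] at h1
  rw [ZMod.intCast_zmod_eq_zero_iff_dvd]
  have h2 : ((q ^ K : ℕ) : ℤ) = (q : ℤ) ^ (K - 1) * q := by
    rw [← pow_succ, Nat.sub_add_cancel hK]
    push_cast
    rfl
  rw [h2] at h1
  exact (mul_dvd_mul_iff_left (by positivity)).1 h1

theorem io_mul (q K : ℕ) (hK : 0 < K) (x : ZMod (q ^ K)) (y : ZMod q) :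
    x * io q K hK y = io q K hK (ZMod.castHom (dvd_pow_self q hK.ne') (ZMod q) x * y) := by
  obtain ⟨z, rfl⟩ := ZMod.intCast_surjective x
  obtain ⟨z', rfl⟩ := ZMod.intCast_surjective y
  rw [map_intCast (ZMod.castHom (dvd_pow_self q hK.ne') (ZMod q)), ← Int.cast_mul z z',
    io_cast, io_cast]
  push_cast
  ring

/-- push a character along a homomorphism of the coefficients -/
def psh {H : Type} [Group H] {m m' : ℕ} (f : ZMod m →+ ZMod m')
    (v : H →* Multiplicative (ZMod m)) : H →* Multiplicative (ZMod m') :=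
  (AddMonoidHom.toMultiplicative f).comp v

@[simp] theorem psh_apply {H : Type} [Group H] {m m' : ℕ} (f : ZMod m →+ ZMod m')
    (v : H →* Multiplicative (ZMod m)) (x : H) : (psh f v x).toAdd = f (v x).toAdd := rfl

/-- reduction modulo `q` -/
def rdq (q K : ℕ) (hK : 0 < K) : ZMod (q ^ K) →+ ZMod q :=
  (ZMod.castHom (dvd_pow_self q hK.ne') (ZMod q)).toAddMonoidHom

theorem cp_io (a : G →* Multiplicative ℤ) (q K : ℕ) (hK : 0 < K)
    (W : G →* Multiplicative (ZMod (q ^ K))) (F : G →* Multiplicative (ZMod q))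
    (h : IsB3 (cp a q (psh (rdq q K hK) W) F)) :
    IsB3 (cp a (q ^ K) W (psh (io q K hK) F)) := by
  obtain ⟨b, hb⟩ := h
  refine ⟨fun g h => io q K hK (b g h), fun g h k => ?_⟩
  have h1 := congrArg (io q K hK) (hb g h k)
  simp only [map_add, map_sub] at h1
  rw [← h1]
  show (W g).toAdd * (((a h).toAdd : ZMod (q ^ K)) * io q K hK (F k).toAdd) =
    io q K hK (ZMod.castHom (dvd_pow_self q hK.ne') (ZMod q) (W g).toAdd *
      (((a h).toAdd : ZMod q) * (F k).toAdd))
  rw [io_mul, map_intCast (ZMod.castHom (dvd_pow_self q hK.ne') (ZMod q)), io_mul]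

/-- triviality of the action descends -/
theorem triv_io (a : G →* Multiplicative ℤ) (t : G) (q K : ℕ) (hq : 0 < q) (hK : 0 < K)
    (htriv : ∀ (v : a.ker →* Multiplicative (ZMod (q ^ K))) (x y : a.ker),
      (y : G) = t * x * t⁻¹ → v y = v x) :
    ∀ (v : a.ker →* Multiplicative (ZMod q)) (x y : a.ker),
      (y : G) = t * x * t⁻¹ → v y = v x := by
  intro v x y hxy
  have h1 := htriv (psh (io q K hK) v) x y hxy
  have h2 : io q K hK (v y).toAdd = io q K hK (v x).toAdd := congrArg Multiplicative.toAdd h1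
  exact io_inj q K hq hK h2

/-- ROW LIF (from NDA, EV, EXK): characters of the kernel lift -/
theorem lift0 {G : Type} [Group G] (hG : Dual 3 G) (ho : Ori 3 G = ⊤)
    (a : G →* Multiplicative ℤ) (t : G) (ht : a t = Multiplicative.ofAdd 1) (q : ℕ)
    [Fact q.Prime] (K : ℕ) (hK : 0 < K)
    (hfin : Finite (a.ker →* Multiplicative (ZMod (q ^ K))))
    (htriv : ∀ (v : a.ker →* Multiplicative (ZMod (q ^ K))) (x y : a.ker),
      (y : G) = t * x * t⁻¹ → v y = v x)
    (v : a.ker →* Multiplicative (ZMod q)) :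
    ∃ w : a.ker →* Multiplicative (ZMod (q ^ K)),
      ∀ x, ZMod.castHom (dvd_pow_self q hK.ne') (ZMod q) (w x).toAdd = (v x).toAdd := by
  classical
  have hq2 : 2 ≤ q := (Fact.out : q.Prime).two_le
  have hq0 : 0 < q := by omega
  haveI : NeZero q := ⟨hq0.ne'⟩
  have hqK : 2 ≤ q ^ K := by
    calc 2 ≤ q := hq2
      _ = q ^ 1 := (pow_one q).symm
      _ ≤ q ^ K := Nat.pow_le_pow_right hq0 hK
  have htriv1 := triv_io a t q K hq0 hK htriv
  obtain ⟨B, hB1, hB2, -, hB4⟩ := pairing hG ho a t ht q hq2 htriv1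
  obtain ⟨C, -, -, hC3, hC4⟩ := pairing hG ho a t ht (q ^ K) hqK htriv
  have hfin1 : Finite (a.ker →* Multiplicative (ZMod q)) := by
    refine Finite.of_injective (fun v => psh (io q K hK) v) fun v v' h => ?_
    ext x
    have h1 : io q K hK (v x).toAdd = io q K hK (v' x).toAdd :=
      congrArg Multiplicative.toAdd (DFunLike.congr_fun h x)
    exact io_inj q K hq0 hK h1
  let red : (a.ker →* Multiplicative (ZMod (q ^ K))) →* (a.ker →* Multiplicative (ZMod q)) :=
    { toFun := fun w => psh (rdq q K hK) w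
      map_one' := by
        ext x
        exact map_zero (rdq q K hK)
      map_mul' := by
        intro w w'
        ext x
        exact map_add (rdq q K hK) _ _ }
  by_cases hv : v ∈ red.range
  · obtain ⟨w, hw⟩ := hv
    refine ⟨w, fun x => ?_⟩
    exact congrArg Multiplicative.toAdd (DFunLike.congr_fun hw x)
  exfalso
  have hB0 : ∀ w, B w 1 = 0 := by
    intro w
    have := hB2 w 1 1
    rw [one_mul] at this
    simpa using this
  have hB0' : ∀ w, B 1 w = 0 := by
    intro w
    have := hB1 1 1 w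
    rw [one_mul] at this
    simpa using this
  let Ψ : (a.ker →* Multiplicative (ZMod q)) →* (red.range →* Multiplicative (ZMod q)) :=
    { toFun := fun f =>
        { toFun := fun w => Multiplicative.ofAdd (B w.1 f)
          map_one' := by
            show Multiplicative.ofAdd (B 1 f) = 1
            rw [hB0']
            rfl
          map_mul' := by
            intro w w'
            show Multiplicative.ofAdd (B (w.1 * w'.1) f) = _
            rw [hB1]
            rfl }
      map_one' := by
        ext w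
        exact hB0 w.1
      map_mul' := by
        intro f f'
        ext w
        exact hB2 w.1 f f' }
  have hcard : Nat.card (red.range →* Multiplicative (ZMod q)) <
      Nat.card (a.ker →* Multiplicative (ZMod q)) := by
    refine lt_of_le_of_lt (pr_card_hom_le red.range q).2 ?_
    have h1 := red.range.card_mul_index
    have h2 : red.range.index ≠ 1 := by
      intro h
      rw [Subgroup.index_eq_one] at h
      exact hv (h ▸ Subgroup.mem_top v)
    have h3 : red.range.index ≠ 0 := Subgroup.index_ne_zero_of_finite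
    have h4 : 0 < Nat.card red.range := Nat.card_pos
    rw [← h1]
    nlinarith [Nat.lt_of_le_of_ne (Nat.one_le_iff_ne_zero.2 h3) (Ne.symm h2)]
  haveI := (pr_card_hom_le red.range q).1
  have hni : ¬ Function.Injective Ψ := by
    intro h
    exact absurd (Nat.card_le_card_of_injective _ h) (not_le.2 hcard)
  rw [injective_iff_map_eq_one] at hni
  push Not at hni
  obtain ⟨f, hf1, hf2⟩ := hni
  have hf3 : ∀ w : a.ker →* Multiplicative (ZMod (q ^ K)), B (red w) f = 0 := by
    intro w
    exact congrArg Multiplicative.toAdd (DFunLike.congr_fun hf1 ⟨red w, w, rfl⟩)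
  apply hf2
  obtain ⟨F, -, hF⟩ := ext_ker a t ht f (htriv1 f)
  have hFk : rk a F = f := by
    ext x
    exact congrArg Multiplicative.toAdd (hF x)
  have h5 : rk a (psh (io q K hK) F) = 1 := by
    refine hC3 _ fun w => ?_
    obtain ⟨W, -, hW⟩ := ext_ker a t ht w (htriv w)
    have hWk : rk a W = w := by
      ext x
      exact congrArg Multiplicative.toAdd (hW x)
    rw [← hWk, hC4]
    apply cp_io
    rw [← hB4, hFk]
    have h6 : rk a (psh (rdq q K hK) W) = red w := by
      rw [← hWk]
      rfl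
    rw [h6]
    exact hf3 w
  rw [← hFk]
  ext x
  have h7 : io q K hK (F x).toAdd = 0 := congrArg Multiplicative.toAdd (DFunLike.congr_fun h5 x)
  rw [← map_zero (io q K hK)] at h7
  exact io_inj q K hq0 hK h7

end

end BCX
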