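import Pool.Agent.EssMap.DimF

/-!
# Passing to a power of the stable letter
-/

set_option autoImplicit false

open CategoryTheory groupCohomology EssMap
open scoped commutatorElement

namespace BCX

/-- After passing to a power of `t` the action on the characters of the kernel is trivial. -/
theorem reduce_triv {G : Type} [Group G] (a : G →* Multiplicative ℤ) (t : G)
    (ht : a t = Multiplicative.ofAdd 1) (m : ℕ) (hfin : Finite (a.ker →* Multiplicative (ZMod m))) :
    ∃ (G' : Subgroup G) (a' : G' →* Multiplicative ℤ) (t' : G') (j : ℕ), 0 < j ∧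
      G'.FiniteIndex ∧ (∀ g : G, g ∈ G' ↔ (j : ℤ) ∣ (a g).toAdd) ∧ (t' : G) = t ^ j ∧
      a' t' = Multiplicative.ofAdd 1 ∧
      (∀ x : G', (a (x : G)).toAdd = j * (a' x).toAdd) ∧
      (∀ (v : a'.ker →* Multiplicative (ZMod m)) (x y : a'.ker),
        (y : G') = t' * x * t'⁻¹ → v y = v x) := by
  obtain ⟨j, hj, hfix⟩ := exists_pow_fix a t hfin
  have hj0 : (j : ℤ) ≠ 0 := by exact_mod_cast hj.ne'
  have hHf := Hp_fin a j hj
  have hdiv : ∀ x : Hp a j, ∃ k : ℤ, (j : ℤ) * k = (a x).toAdd := by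
    intro x
    obtain ⟨k, hk⟩ := (mem_Hp a j x.1).1 x.2
    exact ⟨k, hk.symm⟩
  choose k hk using hdiv
  let a' : Hp a j →* Multiplicative ℤ := MonoidHom.mk' (fun x => Multiplicative.ofAdd (k x))
    (fun x y => by
      rw [← ofAdd_add]
      congr 1
      apply mul_left_cancel₀ hj0
      rw [mul_add, hk, hk, hk, ← toAdd_mul, ← map_mul a]
      rfl)
  have ha' : ∀ x : Hp a j, a' x = 1 ↔ a x = 1 := by
    intro x
    constructor
    · intro h
      have h1 : k x = 0 := Multiplicative.ofAdd.injective h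
      apply Multiplicative.toAdd.injective
      rw [← hk, h1, mul_zero, toAdd_one]
    · intro h
      have h1 := hk x
      rw [h, toAdd_one] at h1
      rcases mul_eq_zero.1 h1 with h3 | h3
      · exact absurd h3 hj0
      · show Multiplicative.ofAdd (k x) = 1
        rw [h3]
        rfl
  have htm : t ^ j ∈ Hp a j := by
    rw [mem_Hp, map_pow a, ht, toAdd_pow]
    show (j : ℤ) ∣ j • (1 : ℤ)
    rw [nsmul_eq_mul, mul_one]
  have hKm : ∀ x ∈ a.ker, x ∈ Hp a j := by
    intro x hx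
    have hx2 : a x = 1 := hx
    rw [mem_Hp, hx2, toAdd_one]
    exact dvd_zero _
  have ht' : a' ⟨t ^ j, htm⟩ = Multiplicative.ofAdd 1 := by
    show Multiplicative.ofAdd (k ⟨t ^ j, htm⟩) = _
    congr 1
    apply mul_left_cancel₀ hj0
    rw [hk]
    show (a (t ^ j)).toAdd = _
    rw [map_pow a, ht, toAdd_pow, mul_one]
    show j • (1 : ℤ) = j
    rw [nsmul_eq_mul, mul_one]
  let ι : a'.ker →* a.ker := MonoidHom.mk' (fun x => ⟨((x : Hp a j) : G), (ha' x.1).1 x.2⟩)
    (fun x y => rfl)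
  let ι' : a.ker →* a'.ker := MonoidHom.mk'
    (fun x => ⟨⟨x.1, hKm x.1 x.2⟩, (ha' _).2 x.2⟩) (fun x y => rfl)
  refine ⟨Hp a j, a', ⟨t ^ j, htm⟩, j, hj, hHf, fun g => mem_Hp a j g, rfl, ht', ?_, ?_⟩
  · intro x
    exact (hk x).symm
  · intro v x y hxy
    exact hfix (v.comp ι') (ι x) (ι y) (congrArg Subtype.val hxy)

end BCX
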