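import Pool.Agent.BCX.Defs3
import Pool.Agent.BCX.Rtr
import Pool.Agent.BCX.Lif

/-!
# BCX part 3, row DSC: the property passes to subgroups of finite index
-/

set_option autoImplicit false

open CategoryTheory groupCohomology EssMap
open scoped commutatorElement

namespace BCX

private theorem dsc_hom {p : ℕ} [hp : Fact p.Prime] {S : Type} [Group S] [Finite S]
    (hS : IsPGroup p S) (H : Subgroup S) (hH : H ≠ ⊤) :
    ∃ f : S →* Multiplicative (ZMod p), f ≠ 1 ∧ ∀ h ∈ H, f h = 1 := by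
  obtain ⟨N, hN⟩ := IsPGroup.iff_card.1 hS
  obtain ⟨n, hn⟩ := IsPGroup.iff_card.1 (hS.to_subgroup H)
  have hlt : n < N := by
    by_contra hle
    rw [not_lt] at hle
    apply hH
    apply Subgroup.eq_top_of_le_card
    rw [hN, hn]
    exact Nat.pow_le_pow_right hp.out.pos hle
  obtain ⟨M, rfl⟩ : ∃ M, N = M + 1 := ⟨N - 1, by omega⟩
  obtain ⟨K, hK, hHK⟩ := Sylow.exists_subgroup_card_pow_prime_le p (n := n) (m := M)
    (by rw [hN]; exact pow_dvd_pow p (by omega)) H hn (by omega)
  have hidx : K.index = p := by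
    have h1 := K.card_mul_index
    rw [hK, hN, pow_succ] at h1
    exact Nat.eq_of_mul_eq_mul_left (pow_pos hp.out.pos M) h1
  have hnorm : K.Normal := by
    apply Subgroup.normal_of_index_eq_minFac_card
    rw [hidx, hN, Nat.Prime.pow_minFac hp.out (Nat.succ_ne_zero M)]
  have hc1 : Nat.card (S ⧸ K) = p := hidx
  have hc2 : Nat.card (Multiplicative (ZMod p)) = p := by
    rw [Nat.card_congr Multiplicative.toAdd, Nat.card_zmod]
  let e : S ⧸ K ≃* Multiplicative (ZMod p) := mulEquivOfPrimeCardEq hc1 hc2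
  refine ⟨e.toMonoidHom.comp (QuotientGroup.mk' K), ?_, ?_⟩
  · intro h1
    have hne : K ≠ ⊤ := by
      intro h
      rw [h, Subgroup.index_top] at hidx
      exact hp.out.one_lt.ne hidx
    apply hne
    rw [eq_top_iff]
    intro s _
    have h2 := DFunLike.congr_fun h1 s
    have h3 : e (QuotientGroup.mk' K s) = 1 := h2
    rw [map_eq_one_iff e e.injective] at h3
    exact (QuotientGroup.eq_one_iff s).1 h3
  · intro h hh
    show e (QuotientGroup.mk' K h) = 1
    have : QuotientGroup.mk' K h = 1 := (QuotientGroup.eq_one_iff h).2 (hHK hh)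
    rw [this, map_one]

/-- a nontrivial homomorphism to `Z/q^K` gives one to `Z/q` -/
private theorem dsc_down {H : Type} [Group H] (q K : ℕ) [hq : Fact q.Prime]
    (u : H →* Multiplicative (ZMod (q ^ K))) (hu : u ≠ 1) :
    ∃ f : H →* Multiplicative (ZMod q), f ≠ 1 := by
  have : NeZero (q ^ K) := ⟨pow_ne_zero _ hq.out.ne_zero⟩
  have hfinM : Finite (Multiplicative (ZMod (q ^ K))) :=
    Finite.of_equiv (ZMod (q ^ K)) Multiplicative.ofAdd
  have hP : IsPGroup q (Multiplicative (ZMod (q ^ K))) := IsPGroup.of_card (n := K) (by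
    rw [Nat.card_congr Multiplicative.toAdd, Nat.card_zmod])
  have hPR : IsPGroup q u.range := hP.to_subgroup _
  have hbot : (⊥ : Subgroup u.range) ≠ ⊤ := by
    intro h
    apply hu
    ext x
    have h1 : u.rangeRestrict x ∈ (⊥ : Subgroup u.range) := by rw [h]; trivial
    rw [Subgroup.mem_bot] at h1
    have h2 : (u.rangeRestrict x : Multiplicative (ZMod (q ^ K))) = 1 := by rw [h1]; rfl
    have h3 : u x = 1 := h2
    rw [h3]
    rfl
  obtain ⟨f, hf, -⟩ := dsc_hom hPR ⊥ hbot
  refine ⟨f.comp u.rangeRestrict, ?_⟩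
  intro h
  apply hf
  ext y
  obtain ⟨x, hx⟩ := u.rangeRestrict_surjective y
  have h1 := DFunLike.congr_fun h x
  rw [MonoidHom.comp_apply, hx] at h1
  rw [h1]
  rfl

/-- ROW DSC (from RTR, LIF): the property passes to subgroups of finite index -/
theorem desc_ker {G : Type} [Group G] (hG : Dual 3 G) (ho : Ori 3 G = ⊤)
    (a : G →* Multiplicative ℤ) (t : G) (ht : a t = Multiplicative.ofAdd 1)
    (hfinE : ∀ m : ℕ, 0 < m → Finite (a.ker →* Multiplicative (ZMod m))) (q : ℕ) [Fact q.Prime]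
    (hne : ∃ v : a.ker →* Multiplicative (ZMod q), v ≠ 1) (Y : Subgroup G)
    (hY : Y.FiniteIndex) :
    ∃ f : (a.ker ⊓ Y : Subgroup G) →* Multiplicative (ZMod q), f ≠ 1 := by
  classical
  have hq : q.Prime := Fact.out
  obtain ⟨v, hv⟩ := hne
  have hIfin : (Y.subgroupOf a.ker).FiniteIndex := inferInstance
  set I := (Y.subgroupOf a.ker).index with hI
  have hI0 : I ≠ 0 := hIfin.index_ne_zero
  obtain ⟨n, hn⟩ : ∃ n, I = n + 1 := ⟨I - 1, by omega⟩
  have hIlt : I < q ^ (n + 1) := by
    rw [← hn]; exact Nat.lt_pow_self hq.one_lt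
  have hpos : 0 < q ^ (n + 1) := pow_pos hq.pos _
  obtain ⟨G', a', t', j, hj, hG', hmem, ht', ha't', ha', htriv⟩ :=
    reduce_triv a t ht (q ^ (n + 1)) (hfinE _ hpos)
  have hD' : Dual 3 G' := hG.sub G'
  have ho' : Ori 3 G' = ⊤ := ori_top G' 3 hG.cd (by rw [ho]; exact le_top)
  -- the two kernels agree
  have hk1 : ∀ x : a.ker, (x : G) ∈ G' := by
    intro x
    rw [hmem]
    have : a (x : G) = 1 := x.2
    rw [this]
    exact dvd_zero _
  have hk2 : ∀ x : a.ker, (⟨(x : G), hk1 x⟩ : G') ∈ a'.ker := by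
    intro x
    have h1 := ha' ⟨(x : G), hk1 x⟩
    have h2 : a (x : G) = 1 := x.2
    simp only [h2, toAdd_one] at h1
    have hj' : (j : ℤ) ≠ 0 := by exact_mod_cast hj.ne'
    have h3 : (a' ⟨(x : G), hk1 x⟩).toAdd = 0 := by
      rcases mul_eq_zero.1 h1.symm with h | h
      · exact absurd h hj'
      · exact h
    rw [MonoidHom.mem_ker]
    exact Multiplicative.toAdd.injective (by rw [h3, toAdd_one])
  have hk3 : ∀ x : a'.ker, ((x : G') : G) ∈ a.ker := by
    intro x
    have h1 := ha' (x : G')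
    have h2 : a' (x : G') = 1 := x.2
    rw [h2, toAdd_one, mul_zero] at h1
    rw [MonoidHom.mem_ker]
    exact Multiplicative.toAdd.injective (by rw [h1, toAdd_one])
  let φ : a'.ker →* a.ker :=
    { toFun := fun x => ⟨((x : G') : G), hk3 x⟩
      map_one' := rfl
      map_mul' := fun _ _ => rfl }
  let ψ : a.ker →* a'.ker :=
    { toFun := fun x => ⟨⟨(x : G), hk1 x⟩, hk2 x⟩
      map_one' := rfl
      map_mul' := fun _ _ => rfl }
  have hφψ : ∀ x, φ (ψ x) = x := fun x => rfl
  have hψφ : ∀ x, ψ (φ x) = x := fun x => rfl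
  have hfin' : Finite (a'.ker →* Multiplicative (ZMod (q ^ (n + 1)))) := by
    have := hfinE _ hpos
    apply Finite.of_injective (fun f : a'.ker →* Multiplicative (ZMod (q ^ (n + 1))) => f.comp ψ)
    intro f g hfg
    ext x
    have h1 := DFunLike.congr_fun hfg (φ x)
    simp only [MonoidHom.comp_apply, hψφ] at h1
    rw [h1]
  obtain ⟨w, hw⟩ := lift0 hD' ho' a' t' ha't' q (n + 1) (Nat.succ_pos n) hfin' htriv (v.comp φ)
  have : NeZero (q ^ (n + 1)) := ⟨hpos.ne'⟩
  have hfinM : Finite (Multiplicative (ZMod (q ^ (n + 1)))) :=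
    Finite.of_equiv (ZMod (q ^ (n + 1))) Multiplicative.ofAdd
  -- the index of the kernel of `w ∘ ψ`
  have hidx : q ^ (n + 1) ≤ (w.comp ψ).ker.index := by
    obtain ⟨x, hx⟩ : ∃ x, v x ≠ 1 := by
      by_contra hcon
      push Not at hcon
      exact hv (MonoidHom.ext hcon)
    have hord : orderOf ((w.comp ψ) x) = q ^ (n + 1) := by
      apply orderOf_eq_prime_pow
      · intro h
        have h1 : (((w.comp ψ) x) ^ q ^ n).toAdd = 0 := by rw [h, toAdd_one]
        rw [toAdd_pow, nsmul_eq_mul] at h1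
        set z := ((w.comp ψ) x).toAdd with hz
        have h2 : ((q ^ n * z.val : ℕ) : ZMod (q ^ (n + 1))) = 0 := by
          rw [Nat.cast_mul, ZMod.natCast_zmod_val]
          exact_mod_cast h1
        rw [ZMod.natCast_eq_zero_iff] at h2
        have h2' : q ^ n * q ∣ q ^ n * z.val := (pow_succ q n) ▸ h2
        have h3 : q ∣ z.val := Nat.dvd_of_mul_dvd_mul_left (pow_pos hq.pos n) h2'
        have h4 := hw (ψ x)
        have h5 : ZMod.castHom (dvd_pow_self q (Nat.succ_pos n).ne') (ZMod q) z = 0 := by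
          rw [← ZMod.natCast_zmod_val z, map_natCast, ZMod.natCast_eq_zero_iff]
          exact h3
        apply hx
        apply Multiplicative.toAdd.injective
        rw [toAdd_one]
        have h6 : (v.comp φ) (ψ x) = v x := rfl
        rw [← h6, ← h4]
        exact h5
      · apply Multiplicative.toAdd.injective
        rw [toAdd_pow, toAdd_one, nsmul_eq_mul, ZMod.natCast_self, zero_mul]
    rw [Subgroup.index_ker]
    have h1 : orderOf (⟨(w.comp ψ) x, ⟨x, rfl⟩⟩ : (w.comp ψ).range) = q ^ (n + 1) :=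
      (Subgroup.orderOf_mk _ _).trans hord
    calc q ^ (n + 1) = orderOf (⟨(w.comp ψ) x, ⟨x, rfl⟩⟩ : (w.comp ψ).range) := h1.symm
      _ ≤ Nat.card (w.comp ψ).range := orderOf_le_card
  let u : (a.ker ⊓ Y : Subgroup G) →* Multiplicative (ZMod (q ^ (n + 1))) :=
    (w.comp ψ).comp (Subgroup.inclusion inf_le_left)
  have hu : u ≠ 1 := by
    intro h
    have hle : Y.subgroupOf a.ker ≤ (w.comp ψ).ker := by
      intro x hx
      rw [Subgroup.mem_subgroupOf] at hx
      have h1 := DFunLike.congr_fun h ⟨(x : G), ⟨x.2, hx⟩⟩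
      exact h1
    have h2 : (w.comp ψ).ker.index ∣ I := Subgroup.index_dvd_of_le hle
    have h3 := Nat.le_of_dvd (Nat.pos_of_ne_zero hI0) h2
    omega
  exact dsc_down q (n + 1) u hu

end BCX
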