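import Pool.Agent.BCX.Z4

/-!
# Four commuting elements satisfy a relation
-/

set_option autoImplicit false

open CategoryTheory groupCohomology EssMap
open scoped commutatorElement

namespace BCX

private theorem dep_mul {B : Type} [CommGroup B] (g : Fin 4 → B) (a b : Fin 4 → ℤ) :
    g 0 ^ (a 0 + b 0) * g 1 ^ (a 1 + b 1) * g 2 ^ (a 2 + b 2) * g 3 ^ (a 3 + b 3) =
      (g 0 ^ a 0 * g 1 ^ a 1 * g 2 ^ a 2 * g 3 ^ a 3) *
        (g 0 ^ b 0 * g 1 ^ b 1 * g 2 ^ b 2 * g 3 ^ b 3) := by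
  simp only [zpow_add, mul_mul_mul_comm]

private theorem dep_mul' {B : Type} [Group B] (hc : ∀ x y : B, x * y = y * x) (g : Fin 4 → B)
    (a b : Fin 4 → ℤ) :
    g 0 ^ (a 0 + b 0) * g 1 ^ (a 1 + b 1) * g 2 ^ (a 2 + b 2) * g 3 ^ (a 3 + b 3) =
      (g 0 ^ a 0 * g 1 ^ a 1 * g 2 ^ a 2 * g 3 ^ a 3) *
        (g 0 ^ b 0 * g 1 ^ b 1 * g 2 ^ b 2 * g 3 ^ b 3) := by
  let inst : CommGroup B := { (inferInstance : Group B) with mul_comm := hc }
  exact dep_mul g a b

/-- the homomorphism given by four commuting elements -/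
private def dep_hom {B : Type} [Group B] (hc : ∀ x y : B, x * y = y * x) (g : Fin 4 → B) :
    Multiplicative (Fin 4 → ℤ) →* B :=
  MonoidHom.mk' (fun n => g 0 ^ n.toAdd 0 * g 1 ^ n.toAdd 1 * g 2 ^ n.toAdd 2 * g 3 ^ n.toAdd 3)
    (fun a b => dep_mul' hc g a.toAdd b.toAdd)

/-- Four elements of a commutative subgroup satisfy a relation. -/
theorem dep4 {G : Type} [Group G] (hG : Dual 3 G) (H : Subgroup G)
    (hH : ∀ x y : H, x * y = y * x) (g : Fin 4 → H) :
    ∃ n : Fin 4 → ℤ, n ≠ 0 ∧ g 0 ^ n 0 * g 1 ^ n 1 * g 2 ^ n 2 * g 3 ^ n 3 = 1 := by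
  by_contra hno
  push Not at hno
  let Ψ : Multiplicative (Fin 4 → ℤ) →* G := H.subtype.comp (dep_hom hH g)
  have hinj : Function.Injective Ψ := by
    rw [injective_iff_map_eq_one]
    intro n hn
    by_contra hn0
    apply hno n.toAdd (fun h => hn0 (Multiplicative.toAdd.injective h))
    exact Subtype.ext hn
  let e : Multiplicative (Fin 4 → ℤ) ≃* Ψ.range := MonoidHom.ofInjective hinj
  let ev : Fin 4 → (Multiplicative (Fin 4 → ℤ) →* Multiplicative ℤ) := fun i =>
    AddMonoidHom.toMultiplicative (Pi.evalAddMonoidHom (fun _ : Fin 4 => ℤ) i)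
  have hcomm : ∀ x y : Ψ.range, x * y = y * x := by
    intro x y
    obtain ⟨u, rfl⟩ := e.surjective x
    obtain ⟨v, rfl⟩ := e.surjective y
    rw [← map_mul, ← map_mul, mul_comm]
  have h := z4 hG Ψ.range hcomm ℤ (fun i => (ev i).comp e.symm.toMonoidHom)
    (fun j => e (Multiplicative.ofAdd (Pi.single j 1)))
  have h1 : (Matrix.of fun i j : Fin 4 => (((ev i).comp e.symm.toMonoidHom)
      (e (Multiplicative.ofAdd (Pi.single j 1)))).toAdd) = (1 : Matrix (Fin 4) (Fin 4) ℤ) := by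
    ext i j
    have h2 : ((ev i).comp e.symm.toMonoidHom) (e (Multiplicative.ofAdd (Pi.single j 1))) =
        ev i (Multiplicative.ofAdd (Pi.single j 1)) := by
      show ev i (e.symm (e (Multiplicative.ofAdd (Pi.single j 1)))) = _
      rw [MulEquiv.symm_apply_apply]
    rw [Matrix.of_apply, h2]
    show (Pi.single j (1 : ℤ) : Fin 4 → ℤ) i = _
    rw [Matrix.one_apply, Pi.single_apply]
  rw [h1, Matrix.det_one] at h
  exact one_ne_zero h

end BCX
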