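import Pool.Agent.BCX.Defs3
import Mathlib

/-!
# Groups of finite cohomological dimension are torsion free
-/

set_option autoImplicit false

open CategoryTheory groupCohomology EssMap

namespace BCX

theorem tf_of_dual {G : Type} [Group G] (hG : Dual 3 G) (x : G) (n : ℕ) (hn : 0 < n)
    (hx : x ^ n = 1) : x = 1 := by
  classical
  by_contra hne
  have hfo : IsOfFinOrder x := isOfFinOrder_iff_pow_eq_one.2 ⟨n, hn, hx⟩
  let C : Subgroup G := Subgroup.zpowers x
  have hfin : Finite C := by
    have h := Subgroup.zpowers x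
    exact (Nat.finite_of_card_ne_zero (by
      rw [Nat.card_zpowers]
      exact (orderOf_pos_iff.2 hfo).ne'))
  let _ : Fintype C := Fintype.ofFinite C
  let _ : CommGroup C := { (inferInstance : Group C) with
    mul_comm := fun a b => IsMulCommutative.is_comm.comm a b }
  let g : C := ⟨x, Subgroup.mem_zpowers x⟩
  have hg : ∀ y : C, y ∈ Subgroup.zpowers g := by
    intro y
    obtain ⟨k, hk⟩ := Subgroup.mem_zpowers_iff.1 y.2
    refine Subgroup.mem_zpowers_iff.2 ⟨k, Subtype.ext ?_⟩
    exact hk
  let A : Rep ℤ C := Rep.trivial ℤ C ℤ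
  have h1 : Limits.IsZero (groupCohomology A 4) :=
    (hG.cd (Rep.coind C.subtype A)).of_iso (groupCohomology.coindIso A 4).symm
  have h2 : Subsingleton (groupCohomology A 4) := ModuleCat.subsingleton_of_isZero h1
  have hker : (1 : ℤ) ∈ LinearMap.ker (Rep.applyAsHom A g - 𝟙 A).hom.toLinearMap := by
    rw [LinearMap.mem_ker]
    show (1 : ℤ) - 1 = 0
    rw [sub_self]
  have h3 := (Rep.FiniteCyclicGroup.groupCohomologyπEven_eq_zero_iff A g hg 4 (by decide)
    ⟨(1 : ℤ), hker⟩).1 (Subsingleton.elim _ _)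
  obtain ⟨y, hy⟩ := h3
  have h4 : (Representation.norm A.ρ) y = (Fintype.card C) • y := by
    unfold Representation.norm
    rw [LinearMap.sum_apply]
    have h5 : ∀ c : C, (A.ρ c) y = y := fun _ => rfl
    rw [Finset.sum_congr rfl fun c _ => h5 c, Finset.sum_const, Finset.card_univ]
  have h6 : (Fintype.card C) • (y : ℤ) = 1 := by
    have h7 : (Representation.norm A.ρ) y = (1 : ℤ) := hy
    exact h4.symm.trans h7
  rw [nsmul_eq_mul] at h6
  have h7 : (Fintype.card C : ℤ) ∣ 1 := ⟨y, h6.symm⟩
  have h8 : Fintype.card C = 1 := by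
    have := Int.natCast_dvd_natCast.1 (show ((Fintype.card C : ℕ) : ℤ) ∣ ((1 : ℕ) : ℤ) by
      exact_mod_cast h7)
    exact Nat.dvd_one.1 this
  have h9 : g = 1 := by
    have h10 := Fintype.card_le_one_iff_subsingleton.1 (le_of_eq h8)
    exact Subsingleton.elim _ _
  exact hne (congrArg Subtype.val h9)

end BCX
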