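import Pool.Agent.BCX.FixA
import Pool.Agent.BCX.FixB
import Pool.Agent.BCX.Dep

/-!
# The abelian case
-/

set_option autoImplicit false

open CategoryTheory groupCohomology EssMap
open scoped commutatorElement

namespace BCX

/-- ROW FIX (from DEP): the abelian case -/
theorem abelian_case {G : Type} [Group G] (hG : Dual 3 G) (a : G →* Multiplicative ℤ) (t : G)
    (ht : a t = Multiplicative.ofAdd 1) (θ : G →* G)
    (hcap : ∀ g : G, (∀ k : ℕ, g ∈ Set.range (θ^[k])) → g = 1) (haθ : ∀ g, a (θ g) = a g)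
    (hab : ∀ x ∈ a.ker, ∀ y ∈ a.ker, x * y = y * x)
    (hfinE : ∀ m : ℕ, 0 < m → Finite (a.ker →* Multiplicative (ZMod m))) : False := by
  classical
  have hfix : ∀ g : G, θ g = g → g = 1 := fun g hg =>
    hcap g fun k => ⟨g, Function.iterate_fixed hg k⟩
  have hH : ∀ x y : a.ker, x * y = y * x := fun x y => Subtype.ext (hab x x.2 y y.2)
  have hθN : ∀ x ∈ a.ker, θ x ∈ a.ker := by
    intro x hx
    rw [MonoidHom.mem_ker] at hx ⊢
    rw [haθ, hx]
  let Bm : a.ker →* a.ker := rst θ a.ker hθN
  let σm : a.ker →* a.ker := (MulAut.conjNormal t⁻¹ : MulAut a.ker).toMonoidHom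
  have hσm : ∀ x : a.ker, ((σm x : a.ker) : G) = t⁻¹ * x * t := by
    intro x
    show ((MulAut.conjNormal t⁻¹ x : a.ker) : G) = _
    rw [MulAut.conjNormal_apply, inv_inv]
  have huk : t⁻¹ * θ t ∈ a.ker := by
    rw [MonoidHom.mem_ker, map_mul, map_inv, haθ, inv_mul_cancel]
  let u : a.ker := ⟨t⁻¹ * θ t, huk⟩
  have hθt : θ t = t * (u : G) := by
    show θ t = t * (t⁻¹ * θ t)
    group
  have hcomm : ∀ x : a.ker, Bm (σm x) = σm (Bm x) := by
    intro x
    apply Subtype.ext
    rw [hσm]
    show θ ((σm x : a.ker) : G) = t⁻¹ * θ (x : G) * t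
    rw [hσm, map_mul, map_mul, map_inv, hθt]
    have h1 : t⁻¹ * θ (x : G) * t ∈ a.ker := by
      have h2 := (σm (Bm x)).2
      rw [hσm] at h2
      exact h2
    have h3 := hab _ h1 _ u.2
    calc (t * (u : G))⁻¹ * θ (x : G) * (t * (u : G))
        = (u : G)⁻¹ * ((t⁻¹ * θ (x : G) * t) * (u : G)) := by group
      _ = (u : G)⁻¹ * ((u : G) * (t⁻¹ * θ (x : G) * t)) := by rw [h3]
      _ = t⁻¹ * θ (x : G) * t := by group
  let _ : CommGroup a.ker := { (inferInstance : Group a.ker) with mul_comm := hH }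
  let B : Additive a.ker →+ Additive a.ker := MonoidHom.toAdditive Bm
  let σ : Additive a.ker →+ Additive a.ker := MonoidHom.toAdditive σm
  have hσ : Function.Bijective σ := (MulAut.conjNormal t⁻¹ : MulAut a.ker).bijective
  obtain ⟨n, hn, hrel⟩ := dep4 hG a.ker hH ![u, Bm u, Bm (Bm u), Bm (Bm (Bm u))]
  have hB : ∀ x : Additive a.ker, B x = x → x = 0 := by
    intro x hx
    have h1 : θ ((Additive.toMul x : a.ker) : G) = ((Additive.toMul x : a.ker) : G) :=
      congrArg (fun y : Additive a.ker => ((Additive.toMul y : a.ker) : G)) hx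
    have h2 := hfix _ h1
    exact Subtype.ext h2
  have htf : ∀ (n : ℕ) (x : Additive a.ker), 0 < n → n • x = 0 → x = 0 := by
    intro n x hn h0
    have h1 : ((Additive.toMul x : a.ker) : G) ^ n = 1 :=
      congrArg (fun y : Additive a.ker => ((Additive.toMul y : a.ker) : G)) h0
    exact Subtype.ext (tf_of_dual hG _ n hn h1)
  have hfin : ∀ m : ℕ, 0 < m → Finite (Additive a.ker →+ ZMod m) := by
    intro m hm
    have := hfinE m hm
    refine Finite.of_injective (fun f : Additive a.ker →+ ZMod m =>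
      ({ toFun := fun x => Multiplicative.ofAdd (f (Additive.ofMul x))
         map_one' := congrArg Multiplicative.ofAdd (map_zero f)
         map_mul' := fun x y => congrArg Multiplicative.ofAdd
           (map_add f (Additive.ofMul x) (Additive.ofMul y)) } :
        a.ker →* Multiplicative (ZMod m))) ?_
    intro f g hfg
    apply AddMonoidHom.ext
    intro x
    exact congrArg Multiplicative.toAdd (DFunLike.congr_fun hfg (Additive.toMul x))
  obtain ⟨i, hi, w, hw⟩ := fix_core B σ hσ (fun y => hcomm y) hB htf (Additive.ofMul u) n hn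
    (congrArg Additive.ofMul hrel) hfin
  -- the powers of `t`
  have hpow : ∀ i : ℕ, θ (t ^ i) =
      t ^ i * ((Additive.toMul (osum σ (Additive.ofMul u) i) : a.ker) : G) := by
    intro i
    induction i with
    | zero =>
      show θ (t ^ 0) = t ^ 0 * (1 : G)
      rw [pow_zero, map_one, mul_one]
    | succ i ih =>
      have h1 : ((Additive.toMul (osum σ (Additive.ofMul u) (i + 1)) : a.ker) : G) =
          (u : G) * (t⁻¹ * ((Additive.toMul (osum σ (Additive.ofMul u) i) : a.ker) : G) * t) := by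
        rw [← hσm]
        rfl
      have h2 : t⁻¹ * ((Additive.toMul (osum σ (Additive.ofMul u) i) : a.ker) : G) * t ∈
          a.ker := by
        rw [← hσm]
        exact (σm _).2
      rw [h1, hab _ u.2 _ h2, pow_succ, map_mul, ih, hθt]
      group
  have hw' : ((Additive.toMul (osum σ (Additive.ofMul u) i) : a.ker) : G) *
      θ ((Additive.toMul w : a.ker) : G) = ((Additive.toMul w : a.ker) : G) :=
    congrArg (fun y : Additive a.ker => ((Additive.toMul y : a.ker) : G)) hw
  have h1 : t ^ i * ((Additive.toMul w : a.ker) : G) = 1 := by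
    apply hfix
    rw [map_mul, hpow, mul_assoc, hw']
  have h2 : a (t ^ i * ((Additive.toMul w : a.ker) : G)) = 1 := by rw [h1, map_one]
  rw [map_mul, MonoidHom.mem_ker.1 (Additive.toMul w : a.ker).2, mul_one, map_pow, ht,
    ← ofAdd_nsmul] at h2
  have h3 : i • (1 : ℤ) = 0 := h2
  simp at h3
  omega

end BCX
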