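import Pool.Agent.EssMap.DimF

/-!
# Finitely many characters of the kernel
-/

set_option autoImplicit false

open CategoryTheory groupCohomology EssMap
open scoped commutatorElement

namespace BCX

/-- The kernel of a homomorphism onto the integers has finitely many characters modulo `m` when
no subgroup of finite index has two independent homomorphisms to the integers. -/
theorem fin_ker {G : Type} [Group G] (hfp : Group.IsFinitelyPresented G) (h2 : NTwo G)
    (a : G →* Multiplicative ℤ) (t : G) (ht : a t = Multiplicative.ofAdd 1) (m : ℕ)
    (hm : 0 < m) : Finite (a.ker →* Multiplicative (ZMod m)) := by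
  have hne : NeZero m := ⟨hm.ne'⟩
  by_contra hfin
  have hinf := not_finite_iff_infinite.1 hfin
  obtain ⟨ι, hι, q, o, R, hq, hqo, hR, hRq⟩ := exists_pres hfp t
  obtain ⟨n, S, hn, hS, hS2⟩ := howie q o a (by rw [hqo]; exact ht) hq R hR hRq hinf
  have hHf := Hp_fin a n hn
  exact h2 S ((Hp a n).subtype.comp S.subtype)
    ((Subgroup.subtype_injective _).comp (Subgroup.subtype_injective _))
    (range_comp_fin _ _ (Subgroup.subtype_injective _) (range_sub S hS)
      (range_sub (Hp a n) hHf)) hS2

end BCX
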