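import Pool.Agent.BCX.Defs3

/-!
# A subgroup of finite index with a character modulo `q`
-/

set_option autoImplicit false

open CategoryTheory groupCohomology EssMap
open scoped commutatorElement

namespace BCX

/-- ROW XQ: a subgroup with a character modulo `q` -/
theorem exists_Xq {G : Type} [Group G] (a : G →* Multiplicative ℤ) (θ : G →* G)
    (hinj : Function.Injective θ) (hfin : θ.range.FiniteIndex) (haθ : ∀ g, a (θ g) = a g)
    (q : ℕ) [Fact q.Prime] (hq : q ∣ θ.range.index) :
    ∃ X : Subgroup G, X.FiniteIndex ∧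
      ∃ f : (a.ker ⊓ X : Subgroup G) →* Multiplicative (ZMod q), f ≠ 1 := by
  classical
  have hqp : q.Prime := Fact.out
  set K : Subgroup G := θ.range.normalCore with hK
  have hKle : K ≤ θ.range := Subgroup.normalCore_le _
  have hKfin : K.FiniteIndex := inferInstance
  have hKn : K.Normal := inferInstance
  -- the index of `θ(G)` in terms of the kernel
  have hpre : MulAction.IsPretransitive a.ker (G ⧸ θ.range) := by
    rw [MulAction.isPretransitive_iff_base ((1 : G) : G ⧸ θ.range)]
    intro x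
    obtain ⟨g, rfl⟩ := QuotientGroup.mk_surjective x
    refine ⟨⟨g * (θ g)⁻¹, ?_⟩, ?_⟩
    · rw [MonoidHom.mem_ker, map_mul, map_inv, haθ, mul_inv_cancel]
    · show (((g * (θ g)⁻¹) * 1 : G) : G ⧸ θ.range) = (g : G ⧸ θ.range)
      rw [QuotientGroup.eq]
      refine ⟨g, ?_⟩
      group
  have hstab : MulAction.stabilizer a.ker ((1 : G) : G ⧸ θ.range) =
      θ.range.subgroupOf a.ker := by
    ext x
    rw [MulAction.mem_stabilizer_iff, Subgroup.mem_subgroupOf]
    show (((x : G) * 1 : G) : G ⧸ θ.range) = ((1 : G) : G ⧸ θ.range) ↔ _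
    rw [mul_one, QuotientGroup.eq, mul_one, inv_mem_iff]
  have hidx : (θ.range.subgroupOf a.ker).index = θ.range.index := by
    rw [← hstab]
    exact MulAction.index_stabilizer_of_transitive _ _
  have hdvd : q ∣ (K.subgroupOf a.ker).index := by
    refine (hq.trans ?_)
    rw [← hidx]
    exact Subgroup.index_dvd_of_le (Subgroup.comap_mono hKle)
  have hfi : (K.subgroupOf a.ker).FiniteIndex := inferInstance
  obtain ⟨y, hy⟩ := exists_prime_orderOf_dvd_card' (G := a.ker ⧸ K.subgroupOf a.ker) q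
    (by rwa [← Subgroup.index_eq_card])
  obtain ⟨x, rfl⟩ := QuotientGroup.mk_surjective y
  have hxK : (x : G) ∉ K := by
    intro hx
    have h1 : ((x : a.ker) : a.ker ⧸ K.subgroupOf a.ker) = 1 := by
      rw [QuotientGroup.eq_one_iff]
      exact hx
    rw [h1, orderOf_one] at hy
    exact hqp.one_lt.ne hy
  have hxq : (x : G) ^ q ∈ K := by
    have h1 : ((x ^ q : a.ker) : a.ker ⧸ K.subgroupOf a.ker) = 1 := by
      rw [QuotientGroup.mk_pow, ← hy]
      exact pow_orderOf_eq_one _
    rw [QuotientGroup.eq_one_iff] at h1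
    exact h1
  have hord : orderOf (((x : G) : G ⧸ K)) = q := by
    refine orderOf_eq_prime ?_ ?_
    · rw [← QuotientGroup.mk_pow, QuotientGroup.eq_one_iff]
      exact hxq
    · rw [Ne, QuotientGroup.eq_one_iff]
      exact hxK
  set Z : Subgroup (G ⧸ K) := Subgroup.zpowers ((x : G) : G ⧸ K) with hZ
  have hcard : Nat.card Z = q := by rw [hZ, Nat.card_zpowers, hord]
  have hcyc : IsCyclic Z := inferInstance
  let e0 : Z ≃* Multiplicative (ZMod (Nat.card Z)) := (zmodCyclicMulEquiv hcyc).symm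
  have hcast : ∀ m : ℕ, Nat.card Z = m →
      ∃ e : Z →* Multiplicative (ZMod m), Function.Injective e := by
    rintro m rfl
    exact ⟨e0.toMonoidHom, e0.injective⟩
  obtain ⟨e, he⟩ := hcast q hcard
  set X : Subgroup G := Z.comap (QuotientGroup.mk' K) with hX
  have hKX : K ≤ X := by
    intro k hk
    show ((k : G) : G ⧸ K) ∈ Z
    rw [(QuotientGroup.eq_one_iff k).2 hk]
    exact one_mem _
  refine ⟨X, Subgroup.finiteIndex_of_le hKX, ?_⟩
  let π : (a.ker ⊓ X : Subgroup G) →* Z :=
    ((QuotientGroup.mk' K).comp (a.ker ⊓ X).subtype).codRestrict Z (fun y => y.2.2)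
  refine ⟨e.comp π, ?_⟩
  intro h
  have hx1 : (x : G) ∈ a.ker ⊓ X := by
    refine ⟨x.2, ?_⟩
    show ((x : G) : G ⧸ K) ∈ Z
    exact Subgroup.mem_zpowers _
  have h2 : e (π ⟨x, hx1⟩) = 1 := by
    have := DFunLike.congr_fun h ⟨(x : G), hx1⟩
    exact this
  have h3 : π ⟨x, hx1⟩ = 1 := he (h2.trans (map_one e).symm)
  have h4 : ((x : G) : G ⧸ K) = 1 := congrArg Subtype.val h3
  rw [QuotientGroup.eq_one_iff] at h4
  exact hxK h4

end BCX
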