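import Pool.Agent.BCX.C2E
import Pool.Agent.BCX.Fke
import Pool.Agent.BCX.Cmm
import Pool.Agent.BCX.Fix
import Pool.Agent.BCX.Xq
import Pool.Agent.BCX.Dsc

/-!
# Case 1: all virtual first Betti numbers are at most one
-/

set_option autoImplicit false

open CategoryTheory groupCohomology EssMap
open scoped commutatorElement

namespace BCX

theorem mem_range_iter {G : Type*} [Group G] (θ : G →* G) (m : ℕ) (hm : 0 < m) (g : G)
    (h : ∀ k : ℕ, g ∈ Set.range ((itr θ m)^[k])) (k : ℕ) : g ∈ Set.range (θ^[k]) := by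
  obtain ⟨y, hy⟩ := h k
  rw [← itr_eq_iterate, itr_mul, itr_eq_iterate] at hy
  refine ⟨θ^[m * k - k] y, ?_⟩
  rw [← Function.iterate_add_apply, Nat.add_sub_cancel' (Nat.le_mul_of_pos_left k hm)]
  exact hy

theorem cap_rst {Q : Type*} [Group Q] (φ : Q →* Q)
    (hcap : ∀ q : Q, (∀ k : ℕ, q ∈ Set.range (φ^[k])) → q = 1) (G : Subgroup Q)
    (hφ : ∀ x ∈ G, φ x ∈ G) (g : G) (hg : ∀ k : ℕ, g ∈ Set.range ((rst φ G hφ)^[k])) :
    g = 1 := by
  apply Subtype.ext
  apply hcap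
  intro k
  obtain ⟨y, hy⟩ := hg k
  refine ⟨(y : Q), ?_⟩
  rw [← itr_eq_iterate, ← itr_rst φ G hφ, itr_eq_iterate, hy]

theorem St3.autG {G : Type} [Group G] {θ : G →* G} (hs : St3 G θ) : AutH θ := by
  intro c
  have hX : ∀ x ∈ (⊤ : Subgroup G), itr θ 1 x ∈ (⊤ : Subgroup G) := fun _ _ => Subgroup.mem_top _
  obtain ⟨e, he⟩ := hs.aut 1 ⊤ hX one_pos inferInstance (c.comp (⊤ : Subgroup G).subtype)
  refine ⟨e.comp (Subgroup.topEquiv (G := G)).symm.toMonoidHom, fun g => ?_⟩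
  exact he ⟨g, Subgroup.mem_top g⟩

theorem comp_ne_one {A B C : Type*} [Group A] [Group B] [Group C] (f : A →* C) (hf : f ≠ 1)
    (e : B →* A) (he : Function.Surjective e) : f.comp e ≠ 1 := by
  intro h
  apply hf
  ext x
  obtain ⟨y, rfl⟩ := he x
  exact DFunLike.congr_fun h y

theorem ne_of_sub {G : Type} [Group G] (a : G →* Multiplicative ℤ) (t : G)
    (ht : a t = Multiplicative.ofAdd 1) (X : Subgroup G) (hX : X.FiniteIndex) :
    a.comp X.subtype ≠ 1 := by
  intro h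
  obtain ⟨n, hn, -, htn⟩ := Subgroup.exists_pow_mem_of_index_ne_zero hX.index_ne_zero t
  have h1 := DFunLike.congr_fun h ⟨t ^ n, htn⟩
  have h3 : a (t ^ n) = 1 := h1
  have h4 := congrArg Multiplicative.toAdd h3
  rw [map_pow a, toAdd_pow, ht, toAdd_one, nsmul_eq_mul] at h4
  have h5 : (n : ℤ) * 1 = 0 := h4
  exact hn.ne' (by exact_mod_cast (by linarith : (n : ℤ) = 0))

/-- ROW C1E -/
theorem case1 {G : Type} [Group G] (hfp : Group.IsFinitelyPresented G) (θ : G →* G)
    (hs : St3 G θ) (hD : θ.range.index ≠ 1) (h2 : NTwo G) (a₀ : G →* Multiplicative ℤ)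
    (ha₀ : a₀ ≠ 1) : False := by
  classical
  have hfg := hs.dual.fg
  obtain ⟨a, t, r, hr, ht, -⟩ := exists_norm a₀ ha₀
  have hid : (MonoidHom.id G).range.FiniteIndex := by
    rw [MonoidHom.range_eq_top.2 Function.surjective_id]
    infer_instance
  have hnt : ¬ Two G := h2 G (MonoidHom.id G) Function.injective_id hid
  -- `a ∘ θ² = a`
  set l : ℤ := (a (θ t)).toAdd with hl
  have hal : ∀ g, (a (θ g)).toAdd = l * (a g).toAdd := fun g =>
    prop_of_not_two hnt a (a.comp θ) t (by rw [ht]; rfl) g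
  have hll : l * l = 1 := by
    obtain ⟨e, he⟩ := hs.autG a
    have h1 : (e (θ t)).toAdd = (e t).toAdd * (a (θ t)).toAdd :=
      prop_of_not_two hnt a e t (by rw [ht]; rfl) (θ t)
    rw [he t, ht, ← hl] at h1
    have h3 : (e t).toAdd * l = 1 := h1.symm
    rcases Int.eq_one_or_neg_one_of_mul_eq_one' h3 with h | h
    · rw [h.2]; rfl
    · rw [h.2]; rfl
  set θ2 : G →* G := itr θ 2 with hθ2
  have ha2 : ∀ g, a (θ2 g) = a g := by
    intro g
    apply Multiplicative.toAdd.injective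
    have h1 : θ2 g = θ (θ g) := rfl
    rw [h1, hal, hal, ← mul_assoc, hll, one_mul]
  have hinj2 : Function.Injective θ2 := itr_inj hs.inj 2
  have hfin2 : θ2.range.FiniteIndex := itr_range_finiteIndex hs.inj hs.fin 2
  -- subgroups with characters
  have hex : ∀ q : ℕ, ∃ X : Subgroup G, X.FiniteIndex ∧ (q.Prime → q ∣ θ2.range.index →
      ∃ f : (a.ker ⊓ X : Subgroup G) →* Multiplicative (ZMod q), f ≠ 1) := by
    intro q
    by_cases hq : q.Prime ∧ q ∣ θ2.range.index
    · have : Fact q.Prime := ⟨hq.1⟩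
      obtain ⟨X, hX, hf⟩ := exists_Xq a θ2 hinj2 hfin2 ha2 q hq.2
      exact ⟨X, hX, fun _ _ => hf⟩
    · exact ⟨⊤, inferInstance, fun h1 h3 => absurd ⟨h1, h3⟩ hq⟩
  choose X hXf hX using hex
  let K : Subgroup G := ⨅ q : θ2.range.index.primeFactors, X q
  have hK : K.FiniteIndex := Subgroup.finiteIndex_iInf (fun q => hXf q)
  obtain ⟨G', hG'f, hG'K, hG'θ⟩ := exists_invariant θ2 K hK
  have hG'X : ∀ q : ℕ, q.Prime → q ∣ θ2.range.index → G' ≤ X q := by
    intro q hq hqD x hx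
    have h1 := hG'K hx
    rw [Subgroup.mem_iInf] at h1
    exact h1 ⟨q, Nat.mem_primeFactors.2 ⟨hq, hqD, hfin2.index_ne_zero⟩⟩
  -- the group `G'`
  have hori : ∀ Y : Subgroup G, Y.FiniteIndex → Ori 3 Y = ⊤ := fun Y hY =>
    ori_top Y 3 hs.dual.cd (by rw [hs.ori]; exact le_top)
  have hNT : ∀ Y : Subgroup G, Y.FiniteIndex → NTwo Y := fun Y hY =>
    h2.comp Y.subtype (Subgroup.subtype_injective Y) (range_sub Y hY)
  obtain ⟨a', t', r', hr', ht', har'⟩ := exists_norm (a.comp G'.subtype) (ne_of_sub a t ht G' hG'f)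
  have hfinE' : ∀ m : ℕ, 0 < m → Finite (a'.ker →* Multiplicative (ZMod m)) := fun m hm =>
    fin_ker (fp_sub hfp G' hG'f) (hNT G' hG'f) a' t' ht' m hm
  set θ' : G' →* G' := rst θ2 G' hG'θ with hθ'
  have hinj' : Function.Injective θ' := rst_inj hinj2 G' hG'θ
  have hfin' : θ'.range.FiniteIndex := rst_fin hinj2 hfin2 G' hG'f hG'θ
  have hidx : θ'.range.index = θ2.range.index := rst_index hinj2 G' hG'f hG'θ
  have ha' : ∀ g, a' (θ' g) = a' g := by
    intro g
    apply Multiplicative.toAdd.injective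
    apply mul_left_cancel₀ hr'
    rw [← har', ← har']
    exact congrArg Multiplicative.toAdd (ha2 (g : G))
  have hker' : ∀ x : G', x ∈ a'.ker ↔ (x : G) ∈ a.ker := by
    intro x
    have h1 : (a (x : G)).toAdd = r' * (a' x).toAdd := har' x
    constructor
    · intro hx
      have hx1 : a' x = 1 := hx
      apply Multiplicative.toAdd.injective
      rw [h1, hx1, toAdd_one, mul_zero]
    · intro hx
      have hx1 : a (x : G) = 1 := hx
      rw [hx1, toAdd_one] at h1
      rcases mul_eq_zero.1 h1.symm with h3 | h3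
      · exact absurd h3 hr'
      · exact Multiplicative.toAdd.injective h3
  have hne' : ∀ q : ℕ, q.Prime → q ∣ θ2.range.index →
      ∃ v : a'.ker →* Multiplicative (ZMod q), v ≠ 1 := by
    intro q hq hqD
    have hqf : Fact q.Prime := ⟨hq⟩
    obtain ⟨f, hf⟩ := hX q hq hqD
    have hXq := hXf q
    obtain ⟨b, s, r₁, hr₁, hs₁, har₁⟩ := exists_norm (a.comp (X q).subtype)
      (ne_of_sub a t ht (X q) hXq)
    have hkb : ∀ x : X q, x ∈ b.ker ↔ (x : G) ∈ a.ker := by
      intro x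
      have h1 : (a (x : G)).toAdd = r₁ * (b x).toAdd := har₁ x
      constructor
      · intro hx
        have hx1 : b x = 1 := hx
        apply Multiplicative.toAdd.injective
        rw [h1, hx1, toAdd_one, mul_zero]
      · intro hx
        have hx1 : a (x : G) = 1 := hx
        rw [hx1, toAdd_one] at h1
        rcases mul_eq_zero.1 h1.symm with h3 | h3
        · exact absurd h3 hr₁
        · exact Multiplicative.toAdd.injective h3
    have hfinb : ∀ m : ℕ, 0 < m → Finite (b.ker →* Multiplicative (ZMod m)) := fun m hm =>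
      fin_ker (fp_sub hfp (X q) hXq) (hNT (X q) hXq) b s hs₁ m hm
    let e1 : b.ker →* (a.ker ⊓ X q : Subgroup G) := MonoidHom.mk'
      (fun x => ⟨((x : X q) : G), (hkb x.1).1 x.2, x.1.2⟩) (fun _ _ => rfl)
    have he1 : Function.Surjective e1 := fun y =>
      ⟨⟨⟨y.1, y.2.2⟩, (hkb ⟨y.1, y.2.2⟩).2 y.2.1⟩, rfl⟩
    have hYf : (G'.subgroupOf (X q)).FiniteIndex := inferInstance
    obtain ⟨f', hf'⟩ := desc_ker (hs.dual.sub (X q)) (hori (X q) hXq) b s hs₁ hfinb q
      ⟨f.comp e1, comp_ne_one f hf e1 he1⟩ (G'.subgroupOf (X q)) hYf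
    have hle := hG'X q hq hqD
    let e2 : a'.ker →* (b.ker ⊓ G'.subgroupOf (X q) : Subgroup (X q)) := MonoidHom.mk'
      (fun x => ⟨⟨((x : G') : G), hle x.1.2⟩,
        (hkb ⟨((x : G') : G), hle x.1.2⟩).2 ((hker' x.1).1 x.2),
        Subgroup.mem_subgroupOf.2 x.1.2⟩) (fun _ _ => rfl)
    have he2 : Function.Surjective e2 := fun y =>
      ⟨⟨⟨(y.1 : G), Subgroup.mem_subgroupOf.1 y.2.2⟩,
        (hker' ⟨(y.1 : G), Subgroup.mem_subgroupOf.1 y.2.2⟩).2 ((hkb y.1).1 y.2.1)⟩, rfl⟩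
    exact ⟨f'.comp e2, comp_ne_one f' hf' e2 he2⟩
  have hcap' : ∀ g : G', (∀ k : ℕ, g ∈ Set.range (θ'^[k])) → g = 1 :=
    cap_rst θ2 (fun q hq => hs.cap q (mem_range_iter θ 2 two_pos q hq)) G' hG'θ
  have hab : ∀ x ∈ a'.ker, ∀ y ∈ a'.ker, x * y = y * x := by
    intro x hx y hy
    rw [← commutatorElement_eq_one_iff_mul_comm]
    apply hcap'
    intro k
    have hak : ∀ g, a' (itr θ' k g) = a' g := by
      intro g
      induction k with
      | zero => rfl
      | succ k ih => rw [itr_succ, ha', ih]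
    have h1 := comm_mem (hs.dual.sub G') (hori G' hG'f) a' t' ht' (itr θ' k) (itr_inj hinj' k)
      (itr_range_finiteIndex hinj' hfin' k) hak hfinE' (fun q hq hqD => by
        rw [itr_index θ' hinj', hidx] at hqD
        exact hne' q hq (hq.dvd_of_dvd_pow hqD)) x y hx hy
    obtain ⟨z, hz⟩ := h1
    exact ⟨z, by rw [← itr_eq_iterate, hz]⟩
  exact abelian_case (hs.dual.sub G') a' t' ht' θ' hcap' ha' hab hfinE'

end BCX
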