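import Pool.Agent.BCX.Defs3

set_option autoImplicit false

open CategoryTheory groupCohomology EssMap
open scoped commutatorElement

namespace BCX

/-- independent functions have points with nonzero determinant -/
theorem fch_det {K X E : Type} [Field K] [AddCommGroup E] [Module K E] [Module.Finite K E]
    (L : E →ₗ[K] (X → K)) (hL : Function.Injective L) (n : ℕ) (hn : n ≤ Module.finrank K E) :
    ∃ (f : Fin n → E) (g : Fin n → X), Matrix.det (Matrix.of fun i j => L (f i) (g j)) ≠ 0 := by
  induction n with
  | zero => exact ⟨Fin.elim0, Fin.elim0, by rw [Matrix.det_fin_zero]; exact one_ne_zero⟩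
  | succ n ih =>
    obtain ⟨b, x, hb⟩ := ih (by omega)
    let T : E →ₗ[K] (Fin n → K) :=
      { toFun := fun f i => L f (x i)
        map_add' := fun _ _ => by ext i; rw [map_add]; rfl
        map_smul' := fun _ _ => by ext i; rw [map_smul]; rfl }
    have hT : LinearMap.ker T ≠ ⊥ := by
      intro h0
      have h1 := LinearMap.finrank_range_add_finrank_ker T
      rw [h0, finrank_bot, add_zero] at h1
      have h2 := Submodule.finrank_le (LinearMap.range T)
      rw [Module.finrank_fin_fun] at h2
      omega
    obtain ⟨f, hf, hf0⟩ := (Submodule.ne_bot_iff _).1 hT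
    have hy : ∃ y, L f y ≠ 0 := by
      by_contra hcon
      push Not at hcon
      exact hf0 (hL (by rw [map_zero]; exact funext hcon))
    obtain ⟨y, hy⟩ := hy
    refine ⟨Fin.cons f b, Fin.cons y x, ?_⟩
    rw [Matrix.det_succ_row_zero, Finset.sum_eq_single 0]
    · simp only [Fin.val_zero, pow_zero, one_mul, Matrix.of_apply, Fin.cons_zero]
      apply mul_ne_zero hy
      have h1 : (Matrix.of fun i j => L ((Fin.cons f b : Fin (n + 1) → E) i)
          ((Fin.cons y x : Fin (n + 1) → X) j)).submatrix Fin.succ (Fin.succAbove 0) =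
          Matrix.of fun i j => L (b i) (x j) := by
        ext i j
        simp [Matrix.submatrix_apply, Matrix.of_apply, Fin.succAbove_zero]
      rw [h1]
      exact hb
    · intro j _ hj
      obtain ⟨k, rfl⟩ := Fin.exists_succ_eq.2 hj
      have h1 : L f (x k) = 0 := congrFun hf k
      simp [Matrix.of_apply, h1]
    · intro h
      exact absurd (Finset.mem_univ _) h

/-- characters vanishing on the commutator subgroup -/
theorem fch_ker {Γ : Type} [Group Γ] (p : ℕ) [Fact p.Prime] (r : ℕ)
    (π : (Fin r → ℤ) →ₗ[ℤ] Additive (Abelianization Γ)) (hπ : Function.Surjective π)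
    (W : Subgroup Γ) (E : Submodule (ZMod p) (Addf W (ZMod p)))
    (hE : ∀ c ∈ E, ∀ z : W, (z : Γ) ∈ commutator Γ → c.1 z = 0) :
    Module.Finite (ZMod p) E ∧ Module.finrank (ZMod p) E ≤ r := by
  -- the preimage of `W`
  let S : Submodule ℤ (Fin r → ℤ) :=
    { carrier := {x | ∃ w : W, π x = Additive.ofMul (Abelianization.of (w : Γ))}
      zero_mem' := ⟨1, by rw [map_zero]; show (0 : Additive (Abelianization Γ)) = Additive.ofMul (Abelianization.of (1 : Γ)); rw [map_one]; rfl⟩
      add_mem' := by
        rintro a b ⟨u, hu⟩ ⟨v, hv⟩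
        refine ⟨u * v, ?_⟩
        rw [map_add, hu, hv, Subgroup.coe_mul, map_mul]
        rfl
      smul_mem' := by
        rintro c a ⟨u, hu⟩
        refine ⟨u ^ c, ?_⟩
        rw [map_smul, hu, Subgroup.coe_zpow, map_zpow]
        rfl }
  let b := Module.finBasis ℤ S
  have hs : Module.finrank ℤ S ≤ r := by
    have := Submodule.finrank_le S
    rwa [Module.finrank_fin_fun] at this
  have hch : ∀ i, ∃ w : W, π (b i : Fin r → ℤ) = Additive.ofMul (Abelianization.of (w : Γ)) :=
    fun i => (b i).2
  choose w hw using hch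
  let T : E →ₗ[ZMod p] (Fin (Module.finrank ℤ S) → ZMod p) :=
    { toFun := fun c i => c.1.1 (w i)
      map_add' := fun _ _ => rfl
      map_smul' := fun _ _ => rfl }
  have hT : Function.Injective T := by
    rw [← LinearMap.ker_eq_bot, LinearMap.ker_eq_bot']
    intro c hc
    have hc1 : ∀ i, c.1.1 (w i) = 0 := fun i => congrFun hc i
    have hadd := c.1.2
    have hone : c.1.1 1 = 0 := addf_one c.1
    have key : ∀ x : S, ∃ u : W, π (x : Fin r → ℤ) = Additive.ofMul (Abelianization.of (u : Γ)) ∧
        c.1.1 u = 0 := by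
      intro x
      have hx := b.mem_span x
      induction hx using Submodule.span_induction with
      | mem x hx =>
        obtain ⟨i, rfl⟩ := hx
        exact ⟨w i, hw i, hc1 i⟩
      | zero =>
        exact ⟨1, by
          rw [Submodule.coe_zero, map_zero]
          show (0 : Additive (Abelianization Γ)) = Additive.ofMul (Abelianization.of (1 : Γ))
          rw [map_one]; rfl, hone⟩
      | add x y _ _ hx hy =>
        obtain ⟨u, hu, hu'⟩ := hx
        obtain ⟨v, hv, hv'⟩ := hy
        refine ⟨u * v, ?_, ?_⟩
        · rw [Submodule.coe_add, map_add, hu, hv, Subgroup.coe_mul, map_mul]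
          rfl
        · rw [hadd, hu', hv', add_zero]
      | smul n x _ hx =>
        obtain ⟨u, hu, hu'⟩ := hx
        refine ⟨u ^ n, ?_, ?_⟩
        · rw [Submodule.coe_smul, map_smul, hu, Subgroup.coe_zpow, map_zpow]
          rfl
        · let h : W →* Multiplicative (ZMod p) :=
            { toFun := fun x => Multiplicative.ofAdd (c.1.1 x)
              map_one' := by rw [hone]; rfl
              map_mul' := fun x y => by rw [hadd]; rfl }
          have h1 : h (u ^ n) = (h u) ^ n := map_zpow h u n
          have h2 : h u = 1 := by show Multiplicative.ofAdd (c.1.1 u) = 1; rw [hu']; rfl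
          rw [h2, one_zpow] at h1
          exact h1
    apply Subtype.ext
    apply Subtype.ext
    funext z
    show c.1.1 z = 0
    obtain ⟨x, hx⟩ := hπ (Additive.ofMul (Abelianization.of (z : Γ)))
    obtain ⟨u, hu, hu'⟩ := key ⟨x, z, hx⟩
    have h1 : Abelianization.of (z : Γ) = Abelianization.of (u : Γ) := by
      have : Additive.ofMul (Abelianization.of (z : Γ)) =
          Additive.ofMul (Abelianization.of (u : Γ)) := by rw [← hx, ← hu]
      exact this
    have h2 : (z : Γ)⁻¹ * u ∈ commutator Γ := by
      have h3 : Abelianization.of ((z : Γ)⁻¹ * u) = 1 := by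
        rw [map_mul, map_inv, h1, inv_mul_cancel]
      rw [← Abelianization.ker_of, MonoidHom.mem_ker]
      exact h3
    have h4 : c.1.1 (z⁻¹ * u) = 0 := hE c.1 c.2 (z⁻¹ * u) h2
    have h5 : c.1.1 u = c.1.1 z + c.1.1 (z⁻¹ * u) := by
      rw [← hadd, mul_inv_cancel_left]
    rw [hu', h4, add_zero] at h5
    exact h5.symm
  refine ⟨Module.Finite.of_injective T hT, ?_⟩
  have := LinearMap.finrank_le_finrank_of_injective hT
  rw [Module.finrank_fin_fun] at this
  exact this.trans hs

/-- ROW FCH: many characters on `W` give independent characters on the commutator subgroup -/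
theorem four_chars {Γ : Type} [Group Γ] [Group.FG Γ] (p : ℕ) [Fact p.Prime] :
    ∃ d : ℕ, ∀ W : Subgroup Γ, W.FiniteIndex → commutator Γ ≤ W →
      d ≤ Module.finrank (ZMod p) (Addf W (ZMod p)) →
      ∃ (f : Fin 4 → (commutator Γ →* Multiplicative (ZMod p))) (g : Fin 4 → commutator Γ),
        Matrix.det (Matrix.of fun i j => (f i (g j)).toAdd) ≠ 0 := by
  have hfg : Group.FG (Abelianization Γ) :=
    Group.fg_of_surjective (f := Abelianization.of (G := Γ)) (QuotientGroup.mk_surjective)
  have hfin : Module.Finite ℤ (Additive (Abelianization Γ)) := by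
    rw [Module.Finite.iff_addGroup_fg]
    exact GroupFG.iff_add_fg.1 hfg
  obtain ⟨r, π, hπ⟩ := Module.Finite.exists_fin' ℤ (Additive (Abelianization Γ))
  refine ⟨r + 4, fun W hWf hW hd => ?_⟩
  have hWfg : Group.FG W := Subgroup.fg_of_index_ne_zero W
  have hfd : FiniteDimensional (ZMod p) (Addf W (ZMod p)) := addf_fd
  let i : commutator Γ → W := fun x => ⟨x.1, hW x.2⟩
  let R : Addf W (ZMod p) →ₗ[ZMod p] (commutator Γ → ZMod p) :=
    { toFun := fun c x => c.1 (i x)
      map_add' := fun _ _ => rfl
      map_smul' := fun _ _ => rfl }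
  have hker := (fch_ker p r π hπ W (LinearMap.ker R) (fun c hc z hz => by
    have := congrFun (LinearMap.mem_ker.1 hc) ⟨z.1, hz⟩
    exact this)).2
  have hrn := LinearMap.finrank_range_add_finrank_ker R
  have h4 : 4 ≤ Module.finrank (ZMod p) (LinearMap.range R) := by omega
  have hrf : Module.Finite (ZMod p) (LinearMap.range R) := inferInstance
  obtain ⟨f, g, hfg'⟩ := fch_det (LinearMap.range R).subtype Subtype.val_injective 4 h4
  have hch : ∀ j, ∃ c : Addf W (ZMod p), R c = (f j).1 := fun j => (f j).2
  choose c hc using hch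
  refine ⟨fun j =>
    { toFun := fun x => Multiplicative.ofAdd ((c j).1 (i x))
      map_one' := by
        have : i 1 = 1 := rfl
        rw [this, addf_one]; rfl
      map_mul' := fun x y => by
        have : i (x * y) = i x * i y := rfl
        rw [this, (c j).2]; rfl }, g, ?_⟩
  have e : (Matrix.of fun j k => (LinearMap.range R).subtype (f j) (g k)) =
      Matrix.of fun j k => (c j).1 (i (g k)) := by
    ext j k
    show (f j).1 (g k) = (c j).1 (i (g k))
    rw [← hc]
    rfl
  rw [e] at hfg'
  exact hfg'

end BCX
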