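import Pool.Agent.BCX.Final

/-!
# Definitions for the third part: cochains, stable characters
-/

set_option autoImplicit false

open CategoryTheory groupCohomology EssMap
open scoped commutatorElement

namespace BCX

section cochains

variable {X : Type} [Group X] {A : Type} [AddCommGroup A]

/-- 2-cocycles with trivial coefficients -/
def IsZ2 (c : X → X → A) : Prop :=
  ∀ g h k, c h k - c (g * h) k + c g (h * k) - c g h = 0

/-- 2-coboundaries -/
def IsB2 (c : X → X → A) : Prop := ∃ b : X → A, ∀ g h, c g h = b h - b (g * h) + b g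

/-- 3-cocycles with trivial coefficients -/
def IsZ3 (d : X → X → X → A) : Prop :=
  ∀ g h k l, d h k l - d (g * h) k l + d g (h * k) l - d g h (k * l) + d g h k = 0

/-- 3-coboundaries -/
def IsB3 (d : X → X → X → A) : Prop :=
  ∃ b : X → X → A, ∀ g h k, d g h k = b h k - b (g * h) k + b g (h * k) - b g h

end cochains

/-- precomposition is surjective on the homomorphisms to `ℤ` -/
def AutH {X : Type} [Group X] (θ : X →* X) : Prop :=
  ∀ c : X →* Multiplicative ℤ, ∃ e : X →* Multiplicative ℤ, ∀ g, e (θ g) = c g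

/-- the standing assumptions of the third part -/
structure St3 (G : Type) [Group G] (θ : G →* G) : Prop where
  dual : Dual 3 G
  ori : Ori 3 G = ⊤
  inj : Function.Injective θ
  fin : θ.range.FiniteIndex
  cap : ∀ g : G, (∀ k : ℕ, g ∈ Set.range (θ^[k])) → g = 1
  aut : ∀ (m : ℕ) (X : Subgroup G) (hX : ∀ x ∈ X, itr θ m x ∈ X), 0 < m → X.FiniteIndex →
    AutH (rst (itr θ m) X hX)

/-- the stable homomorphisms to the field with `p` elements -/
def stA {X : Type} [Group X] (θ : X →* X) (p : ℕ) [Fact p.Prime] :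
    Submodule (ZMod p) (Addf X (ZMod p)) where
  carrier := {c | ∀ k : ℕ, ∃ e : Addf X (ZMod p), ∀ x, e.1 (θ^[k] x) = c.1 x}
  zero_mem' := fun k => ⟨0, fun _ => rfl⟩
  add_mem' := by
    intro a b ha hb k
    obtain ⟨e, he⟩ := ha k
    obtain ⟨f, hf⟩ := hb k
    refine ⟨e + f, fun x => ?_⟩
    show e.1 _ + f.1 _ = a.1 _ + b.1 _
    rw [he, hf]
  smul_mem' := by
    intro c a ha k
    obtain ⟨e, he⟩ := ha k
    refine ⟨c • e, fun x => ?_⟩
    show c • e.1 _ = c • a.1 _
    rw [he]

/-- reduction of homomorphisms modulo `m` -/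
def redm (X : Type) [Group X] (m : ℕ) :
    (X →* Multiplicative ℤ) →* (X →* Multiplicative (ZMod m)) where
  toFun c := (AddMonoidHom.toMultiplicative (Int.castAddHom (ZMod m))).comp c
  map_one' := by
    ext x
    show Multiplicative.ofAdd (((0 : ℤ) : ZMod m)) = 1
    rw [Int.cast_zero]
    rfl
  map_mul' := by
    intro a b
    ext x
    show Multiplicative.ofAdd ((((a x).toAdd + (b x).toAdd : ℤ) : ZMod m)) = _
    rw [Int.cast_add]
    rfl

end BCX
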