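import Pool.Agent.BCX.Defs3

set_option autoImplicit false

open CategoryTheory groupCohomology EssMap
open scoped commutatorElement

namespace BCX

/-- commutators act trivially on a normal cyclic subgroup -/
theorem leh_cent {Q : Type} [Group Q] (v : Q) (hv : ∀ g : Q, ∃ n : ℤ, g * v * g⁻¹ = v ^ n)
    (g h : Q) : Commute ⁅g, h⁆ v := by
  obtain ⟨n, hn⟩ := hv g⁻¹
  obtain ⟨m, hm⟩ := hv h⁻¹
  have h1 : (g⁻¹ * h⁻¹) * v * (g⁻¹ * h⁻¹)⁻¹ = v ^ (n * m) := by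
    have : (g⁻¹ * h⁻¹) * v * (g⁻¹ * h⁻¹)⁻¹ = g⁻¹ * (h⁻¹ * v * h⁻¹⁻¹) * g⁻¹⁻¹ := by group
    rw [this, hm, ← MulAut.conj_apply, map_zpow, MulAut.conj_apply, hn, ← zpow_mul]
  have h2 : (h⁻¹ * g⁻¹) * v * (h⁻¹ * g⁻¹)⁻¹ = v ^ (n * m) := by
    have : (h⁻¹ * g⁻¹) * v * (h⁻¹ * g⁻¹)⁻¹ = h⁻¹ * (g⁻¹ * v * g⁻¹⁻¹) * h⁻¹⁻¹ := by group
    rw [this, hn, ← MulAut.conj_apply, map_zpow, MulAut.conj_apply, hm, ← zpow_mul, mul_comm]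
  have h3 : (h⁻¹ * g⁻¹) * v * (h⁻¹ * g⁻¹)⁻¹ = (g⁻¹ * h⁻¹) * v * (g⁻¹ * h⁻¹)⁻¹ := by
    rw [h1, h2]
  show ⁅g, h⁆ * v = v * ⁅g, h⁆
  have h4 : ⁅g, h⁆ * v * ⁅g, h⁆⁻¹ = v := by
    have : ⁅g, h⁆ * v * ⁅g, h⁆⁻¹ = (g * h) * ((g⁻¹ * h⁻¹) * v * (g⁻¹ * h⁻¹)⁻¹) * (g * h)⁻¹ := by
      rw [commutatorElement_def]; group
    rw [this, ← h3]
    group
  rw [mul_inv_eq_iff_eq_mul] at h4
  exact h4

/-- ROW LEH -/
theorem comm_le_of {Γ : Type} [Group Γ] (K A V : Subgroup Γ) (hA : A.Normal) (hV : V.Normal)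
    (hAK : A ≤ K) (hAV : A ≤ V) (hKV : ∀ g, ∃ k ∈ K, ∃ v ∈ V, g = k * v)
    (hcyc : ∃ v0 ∈ V, ∀ v ∈ V, ∃ n : ℤ, v⁻¹ * v0 ^ n ∈ A) :
    ⁅commutator Γ, commutator Γ⁆ ≤ K := by
  obtain ⟨v0, hv0, hc⟩ := hcyc
  have hq : ∀ v ∈ V, ∃ n : ℤ, (v : Γ ⧸ A) = (v0 : Γ ⧸ A) ^ n := by
    intro v hv
    obtain ⟨n, hn⟩ := hc v hv
    refine ⟨n, ?_⟩
    rw [← QuotientGroup.mk_zpow]
    exact QuotientGroup.eq.2 hn
  have hconj : ∀ g : Γ ⧸ A, ∃ n : ℤ, g * (v0 : Γ ⧸ A) * g⁻¹ = (v0 : Γ ⧸ A) ^ n := by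
    intro g
    obtain ⟨g, rfl⟩ := QuotientGroup.mk_surjective g
    obtain ⟨n, hn⟩ := hq (g * v0 * g⁻¹) (hV.conj_mem v0 hv0 g)
    exact ⟨n, hn⟩
  -- commutators commute with `v0` in the quotient
  have hcomm : ∀ x ∈ commutator Γ, Commute (x : Γ ⧸ A) (v0 : Γ ⧸ A) := by
    intro x hx
    have hle : commutator Γ ≤ (Subgroup.centralizer {(v0 : Γ ⧸ A)}).comap
        (QuotientGroup.mk' A) := by
      rw [commutator_def, Subgroup.commutator_le]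
      intro g _ h _
      rw [Subgroup.mem_comap, Subgroup.mem_centralizer_singleton_iff]
      have := leh_cent (v0 : Γ ⧸ A) hconj (g : Γ ⧸ A) (h : Γ ⧸ A)
      rw [map_commutatorElement]
      exact this
    have := hle hx
    rw [Subgroup.mem_comap, Subgroup.mem_centralizer_singleton_iff] at this
    exact this
  rw [Subgroup.commutator_le]
  intro x hx y hy
  obtain ⟨k, hk, v, hv, rfl⟩ := hKV x
  obtain ⟨l, hl, w, hw, rfl⟩ := hKV y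
  obtain ⟨n, hn⟩ := hq v hv
  obtain ⟨m, hm⟩ := hq w hw
  have e1 : Commute ((k * v : Γ) : Γ ⧸ A) (v0 : Γ ⧸ A) := hcomm _ hx
  have e2 : Commute ((l * w : Γ) : Γ ⧸ A) (v0 : Γ ⧸ A) := hcomm _ hy
  rw [QuotientGroup.mk_mul, hn] at e1
  rw [QuotientGroup.mk_mul, hm] at e2
  have f1 : Commute (k : Γ ⧸ A) (v0 : Γ ⧸ A) := by
    have := e1.mul_left (((Commute.refl (v0 : Γ ⧸ A)).zpow_left n).inv_left)
    rwa [mul_inv_cancel_right] at this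
  have f2 : Commute (l : Γ ⧸ A) (v0 : Γ ⧸ A) := by
    have := e2.mul_left (((Commute.refl (v0 : Γ ⧸ A)).zpow_left m).inv_left)
    rwa [mul_inv_cancel_right] at this
  have hfin : ((⁅k * v, l * w⁆ : Γ) : Γ ⧸ A) = ((⁅k, l⁆ : Γ) : Γ ⧸ A) := by
    have g1 : Commute (k : Γ ⧸ A) ((v0 : Γ ⧸ A) ^ m) := f1.zpow_right m
    have g2 : Commute (l : Γ ⧸ A) ((v0 : Γ ⧸ A) ^ n) := f2.zpow_right n
    have g3 : Commute ((v0 : Γ ⧸ A) ^ n) ((v0 : Γ ⧸ A) ^ m) :=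
      Commute.zpow_zpow_self _ _ _
    have a1 : ((⁅k * v, l * w⁆ : Γ) : Γ ⧸ A) =
        ⁅(k : Γ ⧸ A) * (v0 : Γ ⧸ A) ^ n, (l : Γ ⧸ A) * (v0 : Γ ⧸ A) ^ m⁆ := by
      rw [← hn, ← hm]; rfl
    have a2 : ((⁅k, l⁆ : Γ) : Γ ⧸ A) = ⁅(k : Γ ⧸ A), (l : Γ ⧸ A)⁆ := rfl
    rw [a1, a2]
    generalize (k : Γ ⧸ A) = a at *
    generalize (l : Γ ⧸ A) = c at *
    generalize (v0 : Γ ⧸ A) ^ n = b at *
    generalize (v0 : Γ ⧸ A) ^ m = d at *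
    rw [commutatorElement_def, commutatorElement_def]
    calc a * b * (c * d) * (a * b)⁻¹ * (c * d)⁻¹
        = a * (b * c) * d * b⁻¹ * a⁻¹ * d⁻¹ * c⁻¹ := by group
      _ = a * (c * b) * d * b⁻¹ * a⁻¹ * d⁻¹ * c⁻¹ := by rw [g2.eq]
      _ = a * c * (b * d) * b⁻¹ * a⁻¹ * d⁻¹ * c⁻¹ := by group
      _ = a * c * (d * b) * b⁻¹ * a⁻¹ * d⁻¹ * c⁻¹ := by rw [g3.eq]
      _ = a * c * (d * a⁻¹) * d⁻¹ * c⁻¹ := by group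
      _ = a * c * (a⁻¹ * d) * d⁻¹ * c⁻¹ := by rw [g1.inv_left.eq]
      _ = a * c * a⁻¹ * c⁻¹ := by group
  have hmem : (⁅k * v, l * w⁆)⁻¹ * ⁅k, l⁆ ∈ A := QuotientGroup.eq.1 hfin
  have hkl : ⁅k, l⁆ ∈ K := by
    rw [commutatorElement_def]
    exact K.mul_mem (K.mul_mem (K.mul_mem hk hl) (K.inv_mem hk)) (K.inv_mem hl)
  have := K.mul_mem hkl (K.inv_mem (hAK hmem))
  rwa [mul_inv_rev, inv_inv, mul_inv_cancel_left] at this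

end BCX
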