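import Pool.Agent.BCX.Cyp
import Pool.Agent.BCX.Leh
import Pool.Agent.BCX.B1
import Pool.Agent.BCX.Defs3

/-!
# The metabelian case (row MET)
-/

set_option autoImplicit false

open CategoryTheory groupCohomology EssMap
open scoped commutatorElement

namespace BCX

/-- an invariant normal subgroup on whose quotient `θ` is bijective is a supplement of the
images of the iterates -/
theorem met_suppl {Γ : Type} [Group Γ] (r : Γ →* Γ) (W : Subgroup Γ) (hWn : W.Normal)
    (hWf : W.FiniteIndex) (hW : ∀ x, r x ∈ W ↔ x ∈ W) (k : ℕ) (g : Γ) :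
    ∃ x : Γ, (itr r k x)⁻¹ * g ∈ W := by
  let f : Γ ⧸ W → Γ ⧸ W := QuotientGroup.map W W r (fun x hx => (hW x).2 hx)
  have hinj : Function.Injective f := by
    intro x y
    obtain ⟨x, rfl⟩ := QuotientGroup.mk_surjective x
    obtain ⟨y, rfl⟩ := QuotientGroup.mk_surjective y
    intro h
    have h1 : (QuotientGroup.mk (r x) : Γ ⧸ W) = QuotientGroup.mk (r y) := h
    rw [QuotientGroup.eq] at h1 ⊢
    rw [← hW, map_mul, map_inv]
    exact h1
  have hsurj : ∀ g : Γ, ∃ x : Γ, (r x)⁻¹ * g ∈ W := by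
    intro g
    obtain ⟨y, hy⟩ := (Finite.injective_iff_surjective.1 hinj) (QuotientGroup.mk g)
    obtain ⟨x, rfl⟩ := QuotientGroup.mk_surjective y
    have h1 : (QuotientGroup.mk (r x) : Γ ⧸ W) = QuotientGroup.mk g := hy
    exact ⟨x, QuotientGroup.eq.1 h1⟩
  have hitr : ∀ k x, x ∈ W → itr r k x ∈ W := by
    intro k
    induction k with
    | zero => exact fun x hx => hx
    | succ k ih => exact fun x hx => (hW _).2 (ih x hx)
  induction k generalizing g with
  | zero => exact ⟨g, by rw [itr_zero, inv_mul_cancel]; exact one_mem _⟩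
  | succ k ih =>
    obtain ⟨y, hy⟩ := ih g
    obtain ⟨x, hx⟩ := hsurj y
    refine ⟨x, ?_⟩
    have h1 := hitr k _ hx
    have e : (itr r (k + 1) x)⁻¹ * g = itr r k ((r x)⁻¹ * y) * ((itr r k y)⁻¹ * g) := by
      rw [itr_succ', map_mul, map_inv]
      group
    rw [e]
    exact mul_mem h1 hy

/-- an endomorphism of degree prime to `p` kills no homomorphism to the field with `p` elements -/
theorem met_prime {X : Type} [Group X] (r : X →* X) (p : ℕ) [hp : Fact p.Prime]
    (hr : ¬ p ∣ r.range.index) (c : X →* Multiplicative (ZMod p)) (hc : ∀ x, c (r x) = 1) :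
    c = 1 := by
  by_contra h
  have h1 : c.ker.index = Nat.card c.range := Subgroup.index_ker c
  have h2 : Nat.card c.range ∣ p := by
    have h3 := Subgroup.card_subgroup_dvd_card c.range
    have h4 : Nat.card (Multiplicative (ZMod p)) = p := by
      rw [Nat.card_congr Multiplicative.toAdd, Nat.card_zmod]
    rwa [h4] at h3
  rcases (Nat.dvd_prime hp.out).1 h2 with h3 | h3
  · apply h
    have h4 : c.range = ⊥ := Subgroup.card_eq_one.1 h3
    ext x
    have h5 : c x ∈ c.range := ⟨x, rfl⟩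
    rw [h4] at h5
    rw [Subgroup.mem_bot.1 h5]
    rfl
  · apply hr
    rw [← h3, ← h1]
    apply Subgroup.index_dvd_of_le
    rintro _ ⟨x, rfl⟩
    exact hc x

/-- the number of homomorphisms to the field with `p` elements of a subgroup of `V / A` -/
theorem met_card {G : Type} [Group G] [Group.FG G] (θ : G →* G) (hinj : Function.Injective θ)
    (m : ℕ) (hm : 0 < m)
    (h1 : ∀ (m : ℕ) (X : Subgroup G) (hX : ∀ x ∈ X, itr θ m x ∈ X), 0 < m → X.FiniteIndex →
      ∀ p : ℕ, ∀ _ : Fact p.Prime, p ∣ θ.range.index → dnl (rst (itr θ m) X hX) p ≤ 1)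
    (A H : Subgroup G) (hAn : A.Normal) (hAf : A.FiniteIndex) (hAH : A ≤ H)
    (hmA : ∀ x ∈ H, itr θ m x ∈ A) (p : ℕ) (hp : Fact p.Prime)
    (S : Subgroup (H ⧸ A.subgroupOf H)) :
    Nat.card (S →* Multiplicative (ZMod p)) ≤ p := by
  let π : H →* H ⧸ A.subgroupOf H := QuotientGroup.mk' (A.subgroupOf H)
  let X : Subgroup G := (S.comap π).map H.subtype
  have hXH : X ≤ H := by
    rintro _ ⟨x, -, rfl⟩
    exact x.2
  have hXm : ∀ x : X, π ⟨x, hXH x.2⟩ ∈ S := by
    rintro ⟨_, ⟨x, hx, rfl⟩⟩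
    exact hx
  have hAX : A ≤ X := by
    intro x hx
    refine ⟨⟨x, hAH hx⟩, ?_, rfl⟩
    show π ⟨x, hAH hx⟩ ∈ S
    have : π ⟨x, hAH hx⟩ = 1 := (QuotientGroup.eq_one_iff _).2 hx
    rw [this]
    exact one_mem _
  have hX : ∀ x ∈ X, itr θ m x ∈ X := fun x hx => hAX (hmA x (hXH hx))
  have hXf : X.FiniteIndex := Subgroup.finiteIndex_of_le hAX
  let q : X →* S :=
    { toFun := fun x => ⟨π ⟨x, hXH x.2⟩, hXm x⟩
      map_one' := by
        apply Subtype.ext
        exact map_one π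
      map_mul' := by
        intro x y
        apply Subtype.ext
        exact map_mul π ⟨x, hXH x.2⟩ ⟨y, hXH y.2⟩ }
  have hq : Function.Surjective q := by
    rintro ⟨s, hs⟩
    obtain ⟨x, rfl⟩ := QuotientGroup.mk_surjective s
    exact ⟨⟨x, ⟨x, hs, rfl⟩⟩, rfl⟩
  let r : X →* X := rst (itr θ m) X hX
  have hqr : ∀ x, q (r x) = 1 := by
    intro x
    apply Subtype.ext
    show π ⟨itr θ m x, _⟩ = 1
    exact (QuotientGroup.eq_one_iff _).2 (hmA x (hXH x.2))
  by_cases hpD : p ∣ θ.range.index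
  · have h2 := h1 m X hX hm hXf p hp hpD
    have hXfg : Group.FG X := inferInstance
    have hfd : FiniteDimensional (ZMod p) (Addf X (ZMod p)) := addf_fd
    let F : (S →* Multiplicative (ZMod p)) → nlA r p := fun c =>
      ⟨⟨fun x => (c (q x)).toAdd, fun x y => by
          show (c (q (x * y))).toAdd = (c (q x)).toAdd + (c (q y)).toAdd
          rw [map_mul, map_mul, toAdd_mul]⟩,
        ⟨1, fun x => by
          show (c (q (r x))).toAdd = 0
          rw [hqr, map_one, toAdd_one]⟩⟩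
    have hF : Function.Injective F := by
      intro c d h
      ext s
      obtain ⟨x, rfl⟩ := hq s
      exact congrFun (congrArg (fun z => z.1.1) h) x
    have hfin : Finite (nlA r p) := Module.finite_of_finite (ZMod p)
    have h3 : Nat.card (nlA r p) = p ^ Module.finrank (ZMod p) (nlA r p) := by
      rw [Module.natCard_eq_pow_finrank (K := ZMod p), Nat.card_zmod]
    have h4 := Nat.card_le_card_of_injective F hF
    rw [h3] at h4
    refine h4.trans ?_
    calc p ^ Module.finrank (ZMod p) (nlA r p) ≤ p ^ 1 := Nat.pow_le_pow_right hp.out.pos h2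
      _ = p := pow_one p
  · have hr : ¬ p ∣ r.range.index := by
      rw [rst_index (itr_inj hinj m) X hXf hX, itr_index θ hinj m]
      exact fun h => hpD (hp.out.dvd_of_dvd_pow h)
    have h5 : ∀ c d : S →* Multiplicative (ZMod p), c = d := by
      have h6 : ∀ c : S →* Multiplicative (ZMod p), c = 1 := by
        intro c
        have h7 := met_prime r p hr (c.comp q) (fun x => by
          rw [MonoidHom.comp_apply, hqr, map_one])
        ext s
        obtain ⟨x, rfl⟩ := hq s
        have h8 := DFunLike.congr_fun h7 x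
        rw [MonoidHom.comp_apply] at h8
        rw [h8]
        rfl
      intro c d
      rw [h6 c, h6 d]
    have h9 : Subsingleton (S →* Multiplicative (ZMod p)) := ⟨h5⟩
    have h10 : Nat.card (S →* Multiplicative (ZMod p)) ≤ 1 := Finite.card_le_one_iff_subsingleton.2 h9
    exact h10.trans hp.out.one_lt.le

/-- ROW MET (from CYP, LEH, chain_unit, exists_cen, exists_A) -/
theorem metab {G : Type} [Group G] [Group.FG G] (θ : G →* G) (hinj : Function.Injective θ)
    (hfin : θ.range.FiniteIndex) (hcap : ∀ g : G, (∀ k : ℕ, g ∈ Set.range (θ^[k])) → g = 1)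
    (h1 : ∀ (m : ℕ) (X : Subgroup G) (hX : ∀ x ∈ X, itr θ m x ∈ X), 0 < m → X.FiniteIndex →
      ∀ p : ℕ, ∀ _ : Fact p.Prime, p ∣ θ.range.index → dnl (rst (itr θ m) X hX) p ≤ 1) :
    ∃ Γ : Subgroup G, Γ.FiniteIndex ∧ (∀ x ∈ Γ, θ x ∈ Γ) ∧
      ⁅commutator Γ, commutator Γ⁆ = ⊥ := by
  obtain ⟨G1, hG1n, hG1f, hcen⟩ := exists_cen (G := G) θ.range.index
  obtain ⟨Γ, hΓn, hΓf, hΓθ, hΓle⟩ := exists_A θ G1 hG1f
  refine ⟨Γ, hΓf, hΓθ, ?_⟩
  rw [eq_bot_iff]
  intro z hz
  have key : ∀ j, z ∈ (itr θ j).range.subgroupOf Γ := by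
    intro j
    have hjf : (itr θ j).range.FiniteIndex := itr_range_finiteIndex hinj hfin j
    obtain ⟨A, hAn, hAf, hAθ, hAle⟩ := exists_A θ ((itr θ j).range ⊓ Γ) inferInstance
    obtain ⟨hch, m0, hm0⟩ := chain_unit θ hfin A hAn hAf hAθ
    have hsucc : ∀ i, A.comap (itr θ (i + 1)) = (A.comap (itr θ i)).comap θ := by
      intro i
      ext x
      rw [Subgroup.mem_comap, Subgroup.mem_comap, Subgroup.mem_comap, itr_succ']
    set C : ℕ → Subgroup G := fun i => A.comap (itr θ i) with hC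
    have hCn : ∀ i, (C i).Normal := fun i => by rw [hC]; infer_instance
    have h0 : C 0 = A := by
      ext x
      rfl
    have hc : ∀ i, ⁅G1, C (i + 1)⁆ ≤ C i := fun i =>
      hcen (C (i + 1)) (C i) (hCn _) (hCn _) (hch i).1 (hch i).2.1 (hch i).2.2
    have hAC : ∀ i, A ≤ C i := by
      intro i
      induction i with
      | zero => rw [h0]
      | succ i ih => exact ih.trans (hch i).1
    have hm1 : C (m0 + 1) = C m0 := (hsucc m0).trans hm0
    have hm : (C (m0 + 1)).comap θ = C (m0 + 1) := by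
      rw [hm1]; exact hm0
    set V := C (m0 + 1) with hV
    have hVn : V.Normal := hCn _
    have hAV : A ≤ V := hAC _
    have hθV : ∀ x, θ x ∈ V ↔ x ∈ V := by
      intro x
      rw [← Subgroup.mem_comap, hm]
    have hmA : ∀ x ∈ V, itr θ (m0 + 1) x ∈ A := fun x hx => hx
    have hAr : A ≤ (itr θ j).range := hAle.trans inf_le_left
    have hAΓ : A ≤ Γ := hAle.trans inf_le_right
    have hVf : V.FiniteIndex := Subgroup.finiteIndex_of_le hAV
    -- the cyclic quotient
    have hcyc : IsCyclic ((Γ ⊓ V : Subgroup G) ⧸ A.subgroupOf (Γ ⊓ V)) := by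
      apply cyclic_of
      · refine ⟨m0 + 1, ?_⟩
        rw [eq_top_iff]
        rintro y -
        obtain ⟨x, rfl⟩ := QuotientGroup.mk_surjective y
        apply ucs_ge (Γ ⊓ V) A hAn C h0 _ (m0 + 1) x x.2.2
        intro i
        exact (Subgroup.commutator_mono (inf_le_left.trans hΓle) le_rfl).trans (hc i)
      · intro p hp S _
        exact met_card θ hinj (m0 + 1) (Nat.succ_pos _) h1 A (Γ ⊓ V) hAn hAf
          (le_inf hAΓ hAV) (fun x hx => hmA x hx.2) p hp S
    apply comm_le_of ((itr θ j).range.subgroupOf Γ) (A.subgroupOf Γ) (V.subgroupOf Γ)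
      inferInstance inferInstance (fun x hx => hAr hx) (fun x hx => hAV hx) _ _ hz
    · intro g
      have hW : ∀ x : Γ, rst θ Γ hΓθ x ∈ V.subgroupOf Γ ↔ x ∈ V.subgroupOf Γ := fun x => hθV x
      obtain ⟨x, hx⟩ := met_suppl (rst θ Γ hΓθ) (V.subgroupOf Γ) inferInstance inferInstance
        hW j g
      refine ⟨itr (rst θ Γ hΓθ) j x, ?_, _, hx, by rw [mul_inv_cancel_left]⟩
      rw [Subgroup.mem_subgroupOf, itr_rst]
      exact ⟨_, rfl⟩
    · obtain ⟨y, hy⟩ := hcyc.exists_generator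
      obtain ⟨v0, rfl⟩ := QuotientGroup.mk_surjective y
      refine ⟨⟨v0, v0.2.1⟩, v0.2.2, fun v hv => ?_⟩
      obtain ⟨n, hn⟩ := Subgroup.mem_zpowers_iff.1
        (hy (QuotientGroup.mk (⟨v, ⟨v.2, hv⟩⟩ : (Γ ⊓ V : Subgroup G))))
      refine ⟨n, ?_⟩
      have h2 : (QuotientGroup.mk (v0 ^ n) : (Γ ⊓ V : Subgroup G) ⧸ A.subgroupOf (Γ ⊓ V)) =
        QuotientGroup.mk (⟨v, ⟨v.2, hv⟩⟩ : (Γ ⊓ V : Subgroup G)) := hn
      have h3 := QuotientGroup.eq.1 h2.symm
      rw [Subgroup.mem_subgroupOf] at h3 ⊢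
      rw [Subgroup.coe_mul, Subgroup.coe_inv, Subgroup.coe_zpow] at h3 ⊢
      exact h3
  rw [Subgroup.mem_bot]
  apply Subtype.ext
  apply hcap
  intro k
  obtain ⟨y, hy⟩ := key k
  refine ⟨y, ?_⟩
  rw [← itr_eq_iterate]
  exact hy

end BCX
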