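import Pool.Agent.BCX.Defs3

/-!
# The kernel of the cup product with nilpotent classes
-/

set_option autoImplicit false

open CategoryTheory groupCohomology EssMap
open scoped commutatorElement

namespace BCX

section core

variable {W F E : Type} [Group W] [Field F] [AddCommGroup E] [Module F E] {n : ℕ}

/-- pairs `(x, f)` with `δ f = Σ x_i ∪ z_i` -/
private def Cuk_P (z : Fin n → W → F) (ξ : E →ₗ[F] (Fin n → W → F)) :
    Submodule F (E × (W → F)) where
  carrier := {q | ∀ g h, ∑ i, ξ q.1 i g * z i h = q.2 h - q.2 (g * h) + q.2 g}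
  zero_mem' := by
    intro g h
    simp
  add_mem' := by
    intro a b ha hb g h
    have h1 := ha g h
    have h2 := hb g h
    have e : ∑ i, ξ (a + b).1 i g * z i h = ∑ i, ξ a.1 i g * z i h + ∑ i, ξ b.1 i g * z i h := by
      rw [← Finset.sum_add_distrib]
      refine Finset.sum_congr rfl fun i _ => ?_
      have e1 : ξ (a + b).1 = ξ a.1 + ξ b.1 := map_add ξ a.1 b.1
      rw [e1]
      show (ξ a.1 i g + ξ b.1 i g) * z i h = _
      ring
    rw [e, h1, h2]
    show _ = (a.2 h + b.2 h) - (a.2 (g * h) + b.2 (g * h)) + (a.2 g + b.2 g)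
    ring
  smul_mem' := by
    intro c a ha g h
    have h1 := ha g h
    have e : ∑ i, ξ (c • a).1 i g * z i h = c * ∑ i, ξ a.1 i g * z i h := by
      rw [Finset.mul_sum]
      refine Finset.sum_congr rfl fun i _ => ?_
      have e1 : ξ (c • a).1 = c • ξ a.1 := map_smul ξ c a.1
      rw [e1]
      show (c * ξ a.1 i g) * z i h = _
      ring
    rw [e, h1]
    show _ = c * a.2 h - c * a.2 (g * h) + c * a.2 g
    ring

private theorem Cuk_core [Module.Finite F E] {A : Type} [AddCommGroup A] [Module F A]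
    [Module.Finite F A] (α : A →ₗ[F] (W → F)) (hα : Function.Injective α)
    (hα2 : ∀ a x y, α a (x * y) = α a x + α a y)
    (hα3 : ∀ f : W → F, (∀ x y, f (x * y) = f x + f y) → ∃ a, α a = f)
    (ψ : W →* W) (hfin : ψ.range.FiniteIndex)
    (z : Fin n → W → F) (hz0 : ∀ i x, z i (ψ x) = 0)
    (hli : ∀ c : Fin n → F, (∀ h, ∑ i, c i * z i h = 0) → c = 0)
    (ξ : E →ₗ[F] (Fin n → W → F)) (hξ : Function.Injective ξ)
    (hK : ∀ x, IsB2 (fun g h => ∑ i, ξ x i g * z i h)) :
    Module.finrank F E ≤ ψ.range.index := by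
  -- a linear section
  let π : Cuk_P z ξ →ₗ[F] E := (LinearMap.fst F E (W → F)).comp (Cuk_P z ξ).subtype
  have hπ : LinearMap.range π = ⊤ := by
    rw [LinearMap.range_eq_top]
    intro x
    obtain ⟨b, hb⟩ := hK x
    exact ⟨⟨(x, b), fun g h => hb g h⟩, rfl⟩
  obtain ⟨s, hs⟩ := LinearMap.exists_rightInverse_of_surjective π hπ
  let L : (E × A) →ₗ[F] (W → F) :=
    ((LinearMap.snd F E (W → F)).comp ((Cuk_P z ξ).subtype.comp s)).comp
      (LinearMap.fst F E A) + α.comp (LinearMap.snd F E A)
  have hL : ∀ (q : E × A) (g h : W),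
      L q h - L q (g * h) + L q g = ∑ i, ξ q.1 i g * z i h := by
    intro q g h
    have h1 : (s q.1).1.1 = q.1 := congrArg (fun m => m q.1) hs
    have h2 := (s q.1).2 g h
    have h3 := hα2 q.2 g h
    have e : ∀ w, L q w = (s q.1).1.2 w + α q.2 w := fun w => rfl
    rw [e, e, e, h3]
    rw [h1] at h2
    rw [h2]
    ring
  -- restriction to the range of `ψ`
  let T : (E × A) →ₗ[F] (W → F) := (LinearMap.funLeft F F ψ).comp L
  have hT : LinearMap.range T ≤ LinearMap.range α := by
    rintro _ ⟨q, rfl⟩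
    apply hα3
    intro x y
    show L q (ψ (x * y)) = L q (ψ x) + L q (ψ y)
    have h1 := hL q (ψ x) (ψ y)
    have h2 : ∑ i, ξ q.1 i (ψ x) * z i (ψ y) = 0 :=
      Finset.sum_eq_zero fun i _ => by rw [hz0, mul_zero]
    rw [h2, ← map_mul] at h1
    linear_combination -h1
  -- elements of the kernel are functions on the quotient
  have hker : ∀ q ∈ LinearMap.ker T, ∀ w, L q (ψ w) = 0 := by
    intro q hq w
    have h1 : T q = 0 := hq
    exact congrFun h1 w
  have hinv : ∀ q ∈ LinearMap.ker T, ∀ g w, L q (g * ψ w) = L q g := by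
    intro q hq g w
    have h1 := hL q g (ψ w)
    have h2 : ∑ i, ξ q.1 i g * z i (ψ w) = 0 :=
      Finset.sum_eq_zero fun i _ => by rw [hz0, mul_zero]
    rw [h2, hker q hq w] at h1
    linear_combination -h1
  let R : LinearMap.ker T →ₗ[F] (W ⧸ ψ.range → F) :=
    (LinearMap.funLeft F F (fun c : W ⧸ ψ.range => c.out)).comp
      (L.comp (LinearMap.ker T).subtype)
  have hR : Function.Injective R := by
    refine (injective_iff_map_eq_zero R).2 fun q hq => ?_
    have h1 : ∀ g, L q.1 g = 0 := by
      intro g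
      obtain ⟨⟨_, w, rfl⟩, hw⟩ := QuotientGroup.mk_out_eq_mul ψ.range g
      have h2 : L q.1 ((g : W ⧸ ψ.range).out) = 0 := congrFun hq (g : W ⧸ ψ.range)
      rw [hw] at h2
      rw [← hinv q.1 q.2 g w]
      exact h2
    have hx : q.1.1 = 0 := by
      apply hξ
      rw [map_zero]
      funext i g
      have h3 : (fun i => ξ q.1.1 i g) = 0 := by
        apply hli
        intro h
        have h4 := hL q.1 g h
        rw [h1, h1, h1] at h4
        linear_combination -h4
      exact congrFun h3 i
    have hy : q.1.2 = 0 := by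
      apply hα
      rw [map_zero]
      funext g
      have h2 := h1 g
      have e : L q.1 g = (s q.1.1).1.2 g + α q.1.2 g := rfl
      rw [e, hx, map_zero] at h2
      have h3 : ((0 : Cuk_P z ξ).1.2) g = 0 := rfl
      rw [h3, zero_add] at h2
      exact h2
    exact Subtype.ext (Prod.ext hx hy)
  have hfinQ : Finite (W ⧸ ψ.range) := Subgroup.finite_quotient_of_finiteIndex
  have := Fintype.ofFinite (W ⧸ ψ.range)
  have h1 := LinearMap.finrank_range_add_finrank_ker T
  rw [Module.finrank_prod] at h1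
  have h2 : Module.finrank F (LinearMap.range T) ≤ Module.finrank F A := by
    rw [← LinearMap.finrank_range_of_inj hα]
    exact Submodule.finrank_mono hT
  have h3 := LinearMap.finrank_le_finrank_of_injective hR
  rw [Module.finrank_fintype_fun_eq_card, ← Nat.card_eq_fintype_card] at h3
  have h4 : Nat.card (W ⧸ ψ.range) = ψ.range.index := rfl
  omega

end core

/-- ROW CUK: the kernel of the cup product with nilpotent classes. The space `F` of pairs
`(x, f)`, `x ∈ K`, `δ f = Σ x_i ∪ z_i`, has dimension `dim K + dim Hom(W, F_p)`; `f ↦ f ∘ θ^v` maps it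
to `Hom(W, F_p)`; on the kernel `f` is right invariant under `θ^v(W)` and determines `x`. -/
theorem cup_ker {X : Type} [Group X] [Group.FG X] (θ : X →* X) (hinj : Function.Injective θ)
    (hfin : θ.range.FiniteIndex) (p : ℕ) [Fact p.Prime] (u : US θ p) (v : ℕ)
    (hv : ∀ c : Addf X (ZMod p), c ∈ nlA θ p → ∀ x, c.1 (θ^[v] x) = 0) (n : ℕ)
    (z : Fin n → Addf X (ZMod p)) (hz : ∀ i, z i ∈ nlA θ p) (hli : LinearIndependent (ZMod p) z)
    (K : Submodule (ZMod p) (Fin n → Addf u.U (ZMod p)))
    (hK : ∀ x ∈ K, IsB2 (fun g h : u.U => ∑ i, (x i).1 g * (z i).1 (h : X))) :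
    Module.finrank (ZMod p) K ≤ θ.range.index ^ v := by
  have hUfin := u.fin
  have hfg : Group.FG u.U := inferInstance
  have hfd : Module.Finite (ZMod p) (Addf u.U (ZMod p)) := addf_fd
  set ψ : u.U →* u.U := itr (rst θ u.U u.inv) v with hψ
  have hψc : ∀ x : u.U, ((ψ x : u.U) : X) = θ^[v] (x : X) := by
    intro x
    rw [hψ, itr_rst, itr_eq_iterate]
  have hrinj : Function.Injective (rst θ u.U u.inv) := by
    intro a b hab
    apply Subtype.ext
    apply hinj
    exact congrArg Subtype.val hab
  have hidx : ψ.range.index = θ.range.index ^ v := by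
    rw [hψ, itr_index _ hrinj, rst_index hinj u.U u.fin u.inv]
  have hψfin : ψ.range.FiniteIndex := by
    constructor
    rw [hidx]
    exact pow_ne_zero _ hfin.index_ne_zero
  rw [← hidx]
  have hfdP : Module.Finite (ZMod p) (Fin n → Addf u.U (ZMod p)) := Module.Finite.pi
  have hfdK : Module.Finite (ZMod p) K :=
    FiniteDimensional.finiteDimensional_submodule (K := ZMod p)
      (V := Fin n → Addf u.U (ZMod p)) K
  let ξ : K →ₗ[ZMod p] (Fin n → u.U → ZMod p) :=
    { toFun := fun x i g => (x.1 i).1 g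
      map_add' := fun _ _ => rfl
      map_smul' := fun _ _ => rfl }
  have hξ : Function.Injective ξ := by
    intro x y hxy
    apply Subtype.ext
    funext i
    apply Subtype.ext
    funext g
    exact congrFun (congrFun hxy i) g
  refine Cuk_core (Addf u.U (ZMod p)).subtype Subtype.val_injective (fun a x y => a.2 x y)
    (fun f hf => ⟨⟨f, hf⟩, rfl⟩) ψ hψfin (fun i (h : u.U) => (z i).1 (h : X)) ?_ ?_ ξ hξ
    (fun x => hK x.1 x.2)
  · intro i x
    rw [hψc]
    exact hv (z i) (hz i) x
  · intro c hc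
    -- the combination vanishes on `U` and on `θ^v(X)`, hence everywhere
    set w : Addf X (ZMod p) := ∑ i, c i • z i with hw
    have hwn : w ∈ nlA θ p := Submodule.sum_mem _ fun i _ => Submodule.smul_mem _ _ (hz i)
    have hwv := hv w hwn
    have hwe : ∀ x, w.1 x = ∑ i, c i * (z i).1 x := by
      intro x
      have e : w.1 = ∑ i, c i • (z i).1 := by
        rw [hw]
        simp
      rw [e, Finset.sum_apply]
      rfl
    have hwU : ∀ x : u.U, w.1 (x : X) = 0 := by
      intro x
      rw [hwe]
      exact hc x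
    -- `θ` is bijective on `X ⧸ U`
    let θq : X ⧸ u.U →* X ⧸ u.U := QuotientGroup.map u.U u.U θ (fun x hx => u.inv x hx)
    have hθi : Function.Injective θq := by
      rw [injective_iff_map_eq_one]
      intro q hq
      obtain ⟨x, rfl⟩ := QuotientGroup.mk_surjective q
      have h1 : (QuotientGroup.mk (θ x) : X ⧸ u.U) = 1 := hq
      rw [QuotientGroup.eq_one_iff] at h1 ⊢
      exact (u.iff x).1 h1
    have hfinq : Finite (X ⧸ u.U) := Subgroup.finite_quotient_of_finiteIndex
    have hθs : Function.Surjective θq := Finite.surjective_of_injective hθi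
    have hdec : ∀ (k : ℕ) (x : X), ∃ y : X, (θ^[k] y)⁻¹ * x ∈ u.U := by
      intro k
      induction k with
      | zero =>
        intro x
        refine ⟨x, ?_⟩
        simp [u.U.one_mem]
      | succ k ih =>
        intro x
        obtain ⟨q, hq⟩ := hθs (QuotientGroup.mk x)
        obtain ⟨x', rfl⟩ := QuotientGroup.mk_surjective q
        have h1 : (θ x')⁻¹ * x ∈ u.U := QuotientGroup.eq.1 hq
        obtain ⟨y, hy⟩ := ih x'
        refine ⟨y, ?_⟩
        have h2 : θ ((θ^[k] y)⁻¹ * x') ∈ u.U := u.inv _ hy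
        rw [map_mul, map_inv, ← Function.iterate_succ_apply' θ k y] at h2
        have h3 := u.U.mul_mem h2 h1
        have e : (θ^[k + 1] y)⁻¹ * θ x' * ((θ x')⁻¹ * x) = (θ^[k + 1] y)⁻¹ * x := by group
        rwa [e] at h3
    have hw0 : w = 0 := by
      apply Subtype.ext
      funext x
      obtain ⟨y, hy⟩ := hdec v x
      have h1 := hwU ⟨_, hy⟩
      have h2 := w.2 (θ^[v] y) ((θ^[v] y)⁻¹ * x)
      rw [mul_inv_cancel_left] at h2
      show w.1 x = 0
      rw [h2, hwv y, zero_add]
      exact h1
    have h3 := Fintype.linearIndependent_iff.1 hli c hw0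
    exact funext h3

end BCX
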