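import Pool.Agent.BCX.Nd
import Pool.Agent.BCX.Ev

/-!
# Row CUN: nondegeneracy of the cup product, linear form
-/

set_option autoImplicit false

open CategoryTheory groupCohomology EssMap
open scoped commutatorElement

namespace BCX

private theorem Cun_z3 {W : Type} [Group W] (p : ℕ) [Fact p.Prime] (c : W → W → ZMod p)
    (hc : IsZ2 c) (y : Addf W (ZMod p)) : IsZ3 (fun g h k => y.1 g * c h k) := by
  intro g h k l
  have h1 : y.1 (g * h) = y.1 g + y.1 h := y.2 g h
  have h2 := hc h k l
  simp only [h1]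
  linear_combination (-y.1 g) * h2

/-- ROW CUN (from ND, EV) -/
theorem cup_nd {W : Type} [Group W] (hW : Dual 3 W) (ho : Ori 3 W = ⊤) (p : ℕ) [Fact p.Prime]
    {E : Type} [AddCommGroup E] [Module (ZMod p) E] [Module.Finite (ZMod p) E]
    (Φ : E →ₗ[ZMod p] (W → W → ZMod p)) (hΦ : ∀ x, IsZ2 (Φ x)) :
    ∃ K : Submodule (ZMod p) E, (∀ x ∈ K, IsB2 (Φ x)) ∧
      Module.finrank (ZMod p) E ≤
        Module.finrank (ZMod p) K + Module.finrank (ZMod p) (Addf W (ZMod p)) := by
  classical
  have hfg : Group.FG W := hW.fg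
  have hfd : FiniteDimensional (ZMod p) (Addf W (ZMod p)) := addf_fd
  have hp2 : 2 ≤ p := (Fact.out : p.Prime).two_le
  obtain ⟨ev, hadd, hev⟩ := exists_ev hW ho p hp2
  have hz : ∀ (x : E) (y : Addf W (ZMod p)), IsZ3 (fun g h k => y.1 g * Φ x h k) := fun x y =>
    Cun_z3 p (Φ x) (hΦ x) y
  let L : E →+ (Addf W (ZMod p) →+ ZMod p) :=
    AddMonoidHom.mk' (fun x => AddMonoidHom.mk' (fun y => ev (fun g h k => y.1 g * Φ x h k)) (by
      intro y y'
      rw [← hadd _ _ (hz x y) (hz x y')]
      congr 1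
      funext g h k
      show (y.1 g + y'.1 g) * Φ x h k = y.1 g * Φ x h k + y'.1 g * Φ x h k
      rw [add_mul])) (by
      intro x x'
      apply AddMonoidHom.ext
      intro y
      show ev (fun g h k => y.1 g * Φ (x + x') h k) =
        ev (fun g h k => y.1 g * Φ x h k) + ev (fun g h k => y.1 g * Φ x' h k)
      rw [← hadd _ _ (hz x y) (hz x' y)]
      congr 1
      funext g h k
      rw [map_add]
      show y.1 g * (Φ x h k + Φ x' h k) = y.1 g * Φ x h k + y.1 g * Φ x' h k
      rw [mul_add])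
  let L' : E →+ Module.Dual (ZMod p) (Addf W (ZMod p)) :=
    AddMonoidHom.mk' (fun x => (L x).toZModLinearMap p) (by
      intro x x'
      apply LinearMap.ext
      intro y
      show L (x + x') y = L x y + L x' y
      rw [map_add]
      rfl)
  let M : E →ₗ[ZMod p] Module.Dual (ZMod p) (Addf W (ZMod p)) := L'.toZModLinearMap p
  refine ⟨LinearMap.ker M, ?_, ?_⟩
  · intro x hx
    rw [LinearMap.mem_ker] at hx
    refine nd hW ho p hp2 (Φ x) (hΦ x) ?_
    intro y
    let y' : Addf W (ZMod p) := ⟨fun g => (y g).toAdd, fun g h => by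
      show (y (g * h)).toAdd = (y g).toAdd + (y h).toAdd
      rw [map_mul, toAdd_mul]⟩
    have h1 : M x y' = 0 := by rw [hx]; rfl
    exact (hev _ (hz x y')).1 h1
  · have h1 := LinearMap.finrank_range_add_finrank_ker M
    have h2 : Module.finrank (ZMod p) (LinearMap.range M) ≤
        Module.finrank (ZMod p) (Module.Dual (ZMod p) (Addf W (ZMod p))) :=
      Submodule.finrank_le _
    rw [Subspace.dual_finrank_eq] at h2
    omega

end BCX
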