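import Pool.Agent.BCX.Defs3

set_option autoImplicit false

open CategoryTheory groupCohomology EssMap
open scoped commutatorElement

namespace BCX

/-- powers of an ideal with `b` generators whose `q`-th powers vanish -/
theorem nia_pow {A : Type} [CommRing A] (q : ℕ) {b : ℕ} (x : Fin b → A)
    (hx : ∀ i, x i ^ q = 0) (s : Finset (Fin b)) :
    (Ideal.span (x '' (s : Set (Fin b)))) ^ (s.card * q) ≤ ⊥ ∨ s = ∅ := by
  classical
  induction s using Finset.induction_on with
  | empty => exact Or.inr rfl
  | insert a s ha ih =>
    left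
    rw [Finset.card_insert_of_notMem ha, Finset.coe_insert, Set.image_insert_eq,
      Ideal.span_insert, Nat.add_mul, one_mul, add_comm (s.card * q) q]
    have h1 : (Ideal.span {x a}) ^ q ≤ (⊥ : Ideal A) := by
      rw [Ideal.span_singleton_pow, hx a]
      simp
    rcases ih with ih | rfl
    · exact le_trans Ideal.sup_pow_add_le_pow_sup_pow (sup_le h1 ih)
    · simpa using h1

/-- ROW NIA: the nilpotency index of an abelian group of exponent `p ^ k` -/
theorem NI_comm {p : ℕ} [Fact p.Prime] {B : Type} [Group B] (hc : ∀ x y : B, x * y = y * x)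
    (k b : ℕ) (hb : 0 < b) (γ : Fin b → B) (hgen : Subgroup.closure (Set.range γ) = ⊤)
    (hexp : ∀ x : B, x ^ p ^ k = 1) : NI p B (b * p ^ k) := by
  intro M _ _ ρ l hl
  let _ : CommGroup B := { (inferInstance : Group B) with mul_comm := hc }
  let A := MonoidAlgebra (ZMod p) B
  let e : B →* A := MonoidAlgebra.of (ZMod p) B
  have : CharP A p := by
    have : Nontrivial A := inferInstance
    exact charP_of_injective_algebraMap (algebraMap (ZMod p) A).injective p
  let I : Ideal A := Ideal.span (Set.range fun i => e (γ i) - 1)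
  have hmem : ∀ x : B, e x - 1 ∈ I := by
    intro x
    have hx : x ∈ Subgroup.closure (Set.range γ) := by rw [hgen]; trivial
    induction hx using Subgroup.closure_induction with
    | mem x hx =>
      obtain ⟨i, rfl⟩ := hx
      exact Ideal.subset_span ⟨i, rfl⟩
    | one => rw [map_one, sub_self]; exact I.zero_mem
    | mul x y _ _ hx hy =>
      have : e (x * y) - 1 = (e x - 1) * e y + (e y - 1) := by rw [map_mul]; ring
      rw [this]
      exact I.add_mem (I.mul_mem_right _ hx) hy
    | inv x _ hx =>
      have : e x⁻¹ - 1 = -(e x⁻¹) * (e x - 1) := by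
        have h1 : e x⁻¹ * e x = 1 := by rw [← map_mul, inv_mul_cancel, map_one]
        linear_combination h1
      rw [this]
      exact I.mul_mem_left _ hx
  have hnil : ∀ i, (e (γ i) - 1) ^ p ^ k = 0 := by
    intro i
    rw [sub_pow_char_pow, ← map_pow, hexp, map_one, one_pow, sub_self]
  have hI : I ^ (b * p ^ k) ≤ ⊥ := by
    have := nia_pow (p ^ k) (fun i => e (γ i) - 1) hnil Finset.univ
    rcases this with h | h
    · simpa using h
    · exfalso
      have : (Finset.univ : Finset (Fin b)).card = 0 := by rw [h]; rfl
      rw [Finset.card_univ, Fintype.card_fin] at this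
      omega
  have hprod : ∀ l : List B, (l.map fun x => e x - 1).prod ∈ I ^ l.length := by
    intro l
    induction l with
    | nil => simp
    | cons x l ih =>
      rw [List.map_cons, List.prod_cons, List.length_cons, pow_succ']
      exact Ideal.mul_mem_mul (hmem x) ih
  have h0 : (l.map fun x => e x - 1).prod = 0 := by
    have := hprod l
    rw [hl] at this
    exact (Submodule.mem_bot _).1 (hI this)
  have h1 := congrArg (MonoidAlgebra.lift (ZMod p) (Module.End (ZMod p) M) B ρ) h0
  rw [map_zero, map_list_prod, List.map_map] at h1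
  rw [← h1]
  refine congrArg List.prod (List.map_congr_left fun x _ => ?_)
  show ρ x - 1 = MonoidAlgebra.lift (ZMod p) (Module.End (ZMod p) M) B ρ (e x - 1)
  rw [map_sub, map_one]
  show ρ x - 1 = MonoidAlgebra.lift (ZMod p) (Module.End (ZMod p) M) B ρ
    (MonoidAlgebra.of (ZMod p) B x) - 1
  rw [MonoidAlgebra.lift_of]

end BCX
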