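import Pool.Agent.BCX.Defs3
import Pool.Agent.BCX.Nia

/-!
# Abelian unit quotients
-/

set_option autoImplicit false

open CategoryTheory groupCohomology EssMap
open scoped commutatorElement

namespace BCX


/-- A nontrivial homomorphism to the integers is a multiple of a surjective one. -/
theorem UNT_prim {X : Type} [Group X] (c : X →* Multiplicative ℤ) (hc : ∃ g, (c g).toAdd ≠ 0) :
    ∃ (e : X →* Multiplicative ℤ) (s : X) (d : ℤ), (e s).toAdd = 1 ∧
      ∀ g, (c g).toAdd = (e g).toAdd * d := by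
  let R : AddSubgroup ℤ := (MonoidHom.toAdditiveLeft c : Additive X →+ ℤ).range
  have hR : ∀ g : X, (c g).toAdd ∈ R := fun g => ⟨Additive.ofMul g, rfl⟩
  obtain ⟨d, hd⟩ := Int.subgroup_cyclic R
  have h1 : ∀ g : X, ∃ n : ℤ, n * d = (c g).toAdd := by
    intro g
    have h2 := hR g
    rw [hd, AddSubgroup.mem_closure_singleton] at h2
    obtain ⟨n, hn⟩ := h2
    exact ⟨n, by rw [← hn, smul_eq_mul]⟩
  choose n hn using h1
  have hd0 : d ≠ 0 := by
    rintro rfl
    obtain ⟨g, hg⟩ := hc
    apply hg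
    rw [← hn g, mul_zero]
  have hdR : d ∈ R := by
    rw [hd]
    exact AddSubgroup.subset_closure rfl
  obtain ⟨s, hs⟩ := hdR
  have hs1 : (c (Additive.toMul s)).toAdd = d := hs
  refine ⟨⟨⟨fun g => Multiplicative.ofAdd (n g), ?_⟩, ?_⟩, Additive.toMul s, d, ?_, ?_⟩
  · apply Multiplicative.toAdd.injective
    show n 1 = 0
    apply mul_right_cancel₀ hd0
    rw [hn, map_one c, zero_mul]
    rfl
  · intro x y
    apply Multiplicative.toAdd.injective
    show n (x * y) = n x + n y
    apply mul_right_cancel₀ hd0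
    rw [hn, map_mul c, add_mul, hn, hn]
    rfl
  · show n (Additive.toMul s) = 1
    apply mul_right_cancel₀ hd0
    rw [hn, hs1, one_mul]
  · intro g
    exact (hn g).symm

/-- Two homomorphisms to the integers which together are surjective. -/
theorem UNT_pair {X : Type} [Group X] (h2 : Two X) :
    ∃ (e f : X →* Multiplicative ℤ) (s t : X), (e s).toAdd = 1 ∧ (f s).toAdd = 0 ∧
      (f t).toAdd = 1 := by
  obtain ⟨b, c, hbc⟩ := h2
  have hb : ∃ g, (b g).toAdd ≠ 0 := by
    by_contra hcon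
    push Not at hcon
    have h3 := hbc 1 0 (fun g => by rw [hcon g]; ring)
    exact one_ne_zero h3.1
  obtain ⟨e, s, d, hs, he⟩ := UNT_prim b hb
  -- the second character minus its value at `s` times the first
  let f0 : X →* Multiplicative ℤ :=
    { toFun := fun g => Multiplicative.ofAdd ((c g).toAdd - (c s).toAdd * (e g).toAdd)
      map_one' := by
        apply Multiplicative.toAdd.injective
        show (c 1).toAdd - (c s).toAdd * (e 1).toAdd = 0
        rw [map_one c, map_one e, toAdd_one, mul_zero, sub_zero]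
      map_mul' := fun x y => by
        apply Multiplicative.toAdd.injective
        show (c (x * y)).toAdd - (c s).toAdd * (e (x * y)).toAdd =
          ((c x).toAdd - (c s).toAdd * (e x).toAdd) + ((c y).toAdd - (c s).toAdd * (e y).toAdd)
        rw [map_mul c, map_mul e, toAdd_mul, toAdd_mul]
        ring }
  have hf0 : ∀ g, (f0 g).toAdd = (c g).toAdd - (c s).toAdd * (e g).toAdd := fun g => rfl
  have h3 : ∃ g, (f0 g).toAdd ≠ 0 := by
    by_contra hcon
    push Not at hcon
    have h4 := hbc (-(c s).toAdd) d (fun g => by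
      have h5 := hcon g
      rw [hf0] at h5
      rw [he g]
      have h6 : (c g).toAdd = (c s).toAdd * (e g).toAdd := by linarith
      rw [h6]
      ring)
    have h5 : ∀ g, (b g).toAdd = 0 := fun g => by rw [he g, h4.2, mul_zero]
    obtain ⟨g, hg⟩ := hb
    exact hg (h5 g)
  obtain ⟨f, t, d', ht, hf⟩ := UNT_prim f0 h3
  refine ⟨e, f, s, t, hs, ?_, ht⟩
  have h4 : (f s).toAdd * d' = 0 := by
    rw [← hf s, hf0, hs, mul_one, sub_self]
  rcases mul_eq_zero.1 h4 with h5 | h5
  · exact h5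
  · exfalso
    obtain ⟨g, hg⟩ := h3
    apply hg
    rw [hf g, h5, mul_zero]

/-- The elements on which all homomorphisms to the integers are divisible by `m`. -/
def UNT_W (X : Type) [Group X] (m : ℕ) : Subgroup X where
  carrier := {x | ∀ c : X →* Multiplicative ℤ, (m : ℤ) ∣ (c x).toAdd}
  one_mem' := fun c => by rw [map_one c, toAdd_one]; exact dvd_zero _
  mul_mem' := fun {x y} hx hy c => by
    rw [map_mul c, toAdd_mul]
    exact dvd_add (hx c) (hy c)
  inv_mem' := fun {x} hx c => by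
    rw [map_inv c, toAdd_inv]
    exact (dvd_neg).2 (hx c)

theorem UNT_mem {X : Type} [Group X] {m : ℕ} {x : X} :
    x ∈ UNT_W X m ↔ ∀ c : X →* Multiplicative ℤ, (m : ℤ) ∣ (c x).toAdd := Iff.rfl

theorem UNT_comm {X : Type} [Group X] (m : ℕ) : commutator X ≤ UNT_W X m := by
  rw [commutator_def, Subgroup.commutator_le]
  intro x _ y _ c
  have h1 : c ⁅x, y⁆ = 1 := by
    rw [map_commutatorElement c]
    exact commutatorElement_eq_one_iff_mul_comm.2 (mul_comm _ _)
  rw [h1, toAdd_one]
  exact dvd_zero _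

theorem UNT_pow {X : Type} [Group X] (m : ℕ) (x : X) : x ^ m ∈ UNT_W X m := by
  intro c
  rw [map_pow c, toAdd_pow, nsmul_eq_mul]
  exact dvd_mul_right _ _

theorem UNT_normal {X : Type} [Group X] (m : ℕ) : (UNT_W X m).Normal := by
  refine ⟨fun x hx g c => ?_⟩
  have h1 : (c (g * x * g⁻¹)).toAdd = (c x).toAdd := by
    rw [map_mul c, map_mul c, map_inv c, toAdd_mul, toAdd_mul, toAdd_inv]
    ring
  rw [h1]
  exact hx c

theorem UNT_fin {X : Type} [Group X] [Group.FG X] (m : ℕ) (hm : 0 < m) :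
    (UNT_W X m).FiniteIndex := by
  have := UNT_normal (X := X) m
  have hc : ∀ a b : X ⧸ UNT_W X m, a * b = b * a := by
    intro a b
    obtain ⟨x, rfl⟩ := QuotientGroup.mk_surjective a
    obtain ⟨y, rfl⟩ := QuotientGroup.mk_surjective b
    rw [← QuotientGroup.mk_mul, ← QuotientGroup.mk_mul, QuotientGroup.eq]
    have h1 : (x * y)⁻¹ * (y * x) = ⁅y⁻¹, x⁻¹⁆ := by
      rw [commutatorElement_def]
      group
    rw [h1]
    apply UNT_comm m
    rw [commutator_def]
    exact Subgroup.commutator_mem_commutator (Subgroup.mem_top _) (Subgroup.mem_top _)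
  let : CommGroup (X ⧸ UNT_W X m) := { (inferInstance : Group (X ⧸ UNT_W X m)) with
    mul_comm := hc }
  have : Group.FG (X ⧸ UNT_W X m) := QuotientGroup.fg _
  have : Finite (X ⧸ UNT_W X m) := by
    apply CommGroup.finite_of_fg_torsion
    intro a
    obtain ⟨x, rfl⟩ := QuotientGroup.mk_surjective a
    rw [isOfFinOrder_iff_pow_eq_one]
    refine ⟨m, hm, ?_⟩
    rw [← QuotientGroup.mk_pow, QuotientGroup.eq_one_iff]
    exact UNT_pow m x
  exact Subgroup.finiteIndex_of_finite_quotient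

theorem UNT_index {X : Type} [Group X] [Group.FG X] (h2 : Two X) (m : ℕ) (hm : 0 < m) :
    m ^ 2 ≤ (UNT_W X m).index := by
  have : NeZero m := ⟨hm.ne'⟩
  obtain ⟨e, f, s, t, hes, hfs, hft⟩ := UNT_pair h2
  have := UNT_fin (X := X) m hm
  let φ : X → ZMod m × ZMod m := fun x => (((e x).toAdd : ZMod m), ((f x).toAdd : ZMod m))
  have h1 : ∀ x y : X, x⁻¹ * y ∈ UNT_W X m → φ x = φ y := by
    intro x y hxy
    have h3 := hxy e
    have h4 := hxy f
    rw [map_mul e, map_inv e, toAdd_mul, toAdd_inv] at h3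
    rw [map_mul f, map_inv f, toAdd_mul, toAdd_inv] at h4
    apply Prod.ext
    · show ((e x).toAdd : ZMod m) = ((e y).toAdd : ZMod m)
      rw [← sub_eq_zero, ← neg_sub, neg_eq_zero, ← Int.cast_sub,
        ZMod.intCast_zmod_eq_zero_iff_dvd]
      have h5 : (e y).toAdd - (e x).toAdd = -(e x).toAdd + (e y).toAdd := by ring
      rw [h5]
      exact h3
    · show ((f x).toAdd : ZMod m) = ((f y).toAdd : ZMod m)
      rw [← sub_eq_zero, ← neg_sub, neg_eq_zero, ← Int.cast_sub,
        ZMod.intCast_zmod_eq_zero_iff_dvd]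
      have h5 : (f y).toAdd - (f x).toAdd = -(f x).toAdd + (f y).toAdd := by ring
      rw [h5]
      exact h4
  let ψ : X ⧸ UNT_W X m → ZMod m × ZMod m :=
    Quotient.lift φ (fun x y hxy => h1 x y (QuotientGroup.leftRel_apply.1 hxy))
  have h3 : Function.Surjective ψ := by
    rintro ⟨a, b⟩
    obtain ⟨a', rfl⟩ := ZMod.intCast_surjective a
    obtain ⟨b', rfl⟩ := ZMod.intCast_surjective b
    refine ⟨QuotientGroup.mk (s ^ (a' - b' * (e t).toAdd) * t ^ b'), ?_⟩
    show φ (s ^ (a' - b' * (e t).toAdd) * t ^ b') = _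
    apply Prod.ext
    · show ((e (s ^ (a' - b' * (e t).toAdd) * t ^ b')).toAdd : ZMod m) = (a' : ZMod m)
      congr 1
      rw [map_mul e, map_zpow e, map_zpow e, toAdd_mul, toAdd_zpow, toAdd_zpow, hes, smul_eq_mul,
        smul_eq_mul]
      ring
    · show ((f (s ^ (a' - b' * (e t).toAdd) * t ^ b')).toAdd : ZMod m) = (b' : ZMod m)
      congr 1
      rw [map_mul f, map_zpow f, map_zpow f, toAdd_mul, toAdd_zpow, toAdd_zpow, hfs, hft, smul_eq_mul,
        smul_eq_mul]
      ring
  have h4 : Finite (X ⧸ UNT_W X m) := inferInstance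
  have h5 := Nat.card_le_card_of_surjective ψ h3
  rw [Nat.card_prod, Nat.card_zmod] at h5
  rw [Subgroup.index, pow_two]
  exact h5

/-- ROW UNT (from NIA): abelian unit quotients -/
theorem exists_units {X : Type} [Group X] [Group.FG X] (p : ℕ) [Fact p.Prime] (θ : X →* X)
    (haut : AutH θ) (h2 : Two X) :
    ∃ b : ℕ, ∀ k : ℕ, ∃ u : US θ p, p ^ (2 * k) ≤ u.U.index ∧ commutator X ≤ u.U ∧
      NI p (X ⧸ u.U) (b * p ^ k) := by
  have hp : 0 < p := (Fact.out : p.Prime).pos
  obtain ⟨S, hS⟩ := (Group.fg_def.1 (inferInstance : Group.FG X))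
  refine ⟨S.card + 1, fun k => ?_⟩
  have hpk : 0 < p ^ k := pow_pos hp k
  have hnorm := UNT_normal (X := X) (p ^ k)
  have hfin := UNT_fin (X := X) (p ^ k) hpk
  refine ⟨⟨UNT_W X (p ^ k), hnorm, hfin, fun x => ⟨k, UNT_pow _ x⟩, ?_⟩, ?_, ?_, ?_⟩
  · intro x
    constructor
    · intro hx c
      obtain ⟨e, he⟩ := haut c
      rw [← he x]
      exact hx e
    · intro hx c
      exact hx (c.comp θ)
  · show p ^ (2 * k) ≤ (UNT_W X (p ^ k)).index
    rw [mul_comm 2 k, pow_mul]
    exact UNT_index h2 (p ^ k) hpk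
  · exact UNT_comm _
  · show NI p (X ⧸ UNT_W X (p ^ k)) ((S.card + 1) * p ^ k)
    let γ : Fin (S.card + 1) → X ⧸ UNT_W X (p ^ k) :=
      Fin.cases 1 (fun i => QuotientGroup.mk ((S.equivFin.symm i : S) : X))
    apply NI_comm (γ := γ)
    · intro a b
      obtain ⟨x, rfl⟩ := QuotientGroup.mk_surjective a
      obtain ⟨y, rfl⟩ := QuotientGroup.mk_surjective b
      rw [← QuotientGroup.mk_mul, ← QuotientGroup.mk_mul, QuotientGroup.eq]
      have h1 : (x * y)⁻¹ * (y * x) = ⁅y⁻¹, x⁻¹⁆ := by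
        rw [commutatorElement_def]
        group
      rw [h1]
      apply UNT_comm (p ^ k)
      rw [commutator_def]
      exact Subgroup.commutator_mem_commutator (Subgroup.mem_top _) (Subgroup.mem_top _)
    · exact Nat.succ_pos _
    · have h1 : (⊤ : Subgroup X).map (QuotientGroup.mk' (UNT_W X (p ^ k))) = ⊤ :=
        Subgroup.map_top_of_surjective _ (QuotientGroup.mk'_surjective _)
      rw [eq_top_iff, ← h1, ← hS, MonoidHom.map_closure]
      apply Subgroup.closure_mono
      rintro _ ⟨x, hx, rfl⟩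
      refine ⟨(S.equivFin ⟨x, hx⟩).succ, ?_⟩
      show (QuotientGroup.mk (((S.equivFin.symm (S.equivFin ⟨x, hx⟩)) : S) : X) :
        X ⧸ UNT_W X (p ^ k)) = _
      rw [Equiv.symm_apply_apply]
      rfl
    · intro a
      obtain ⟨x, rfl⟩ := QuotientGroup.mk_surjective a
      rw [← QuotientGroup.mk_pow, QuotientGroup.eq_one_iff]
      exact UNT_pow _ x

end BCX
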