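import Pool.Agent.BCX.Defs3

/-!
# A uniform exponent for the nilpotent homomorphisms
-/

set_option autoImplicit false

open EssMap

namespace BCX

private theorem Vv_finite (G : Type) [Group G] [Group.FG G] (p : ℕ) [Fact p.Prime] :
    Finite (Addf G (ZMod p)) := by
  have h1 : Finite (G →* Multiplicative (ZMod p)) := finite_hom G (Multiplicative (ZMod p))
  let f : Addf G (ZMod p) → (G →* Multiplicative (ZMod p)) := fun c =>
    MonoidHom.mk' (fun g => Multiplicative.ofAdd (c.1 g)) (by
      intro x y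
      rw [c.2, ofAdd_add])
  refine Finite.of_injective f ?_
  intro a b hab
  apply Subtype.ext
  funext g
  have h2 := DFunLike.congr_fun hab g
  exact Multiplicative.ofAdd.injective h2

/-- ROW VV -/
theorem exists_v {G : Type} [Group G] [Group.FG G] (p : ℕ) [Fact p.Prime] (θ : G →* G) :
    ∃ v : ℕ, ∀ c : Addf G (ZMod p), c ∈ nlA θ p → ∀ x, c.1 (θ^[v] x) = 0 := by
  classical
  have := Vv_finite G p
  have hfin : Finite (nlA θ p) := inferInstance
  have := Fintype.ofFinite (nlA θ p)
  have h : ∀ c : nlA θ p, ∃ k : ℕ, ∀ x, c.1.1 (θ^[k] x) = 0 := fun c => c.2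
  choose k hk using h
  refine ⟨Finset.univ.sup k, fun c hc x => ?_⟩
  have h1 : k ⟨c, hc⟩ ≤ Finset.univ.sup k := Finset.le_sup (f := k) (Finset.mem_univ _)
  obtain ⟨j, hj⟩ := Nat.exists_eq_add_of_le h1
  rw [hj, Function.iterate_add_apply]
  exact hk ⟨c, hc⟩ _

end BCX
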