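import Pool.Agent.BCX.Gro
import Pool.Agent.BCX.Cuk
import Pool.Agent.BCX.Cun
import Pool.Agent.BCX.Vv
import Pool.Agent.BCX.Unt

/-!
# Row ONE: the nilpotent part of the characters has dimension at most one
-/

set_option autoImplicit false

open CategoryTheory groupCohomology EssMap
open scoped commutatorElement

namespace BCX

/-- the cup product of additive functions is a cocycle -/
theorem one_isZ2 {W : Type} [Group W] {A : Type} [CommRing A] {ι : Type} [Fintype ι]
    (a b : ι → W → A) (ha : ∀ i x y, a i (x * y) = a i x + a i y)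
    (hb : ∀ i x y, b i (x * y) = b i x + b i y) :
    IsZ2 (fun g h : W => ∑ i, a i g * b i h) := by
  intro g h k
  show (∑ i, a i h * b i k) - (∑ i, a i (g * h) * b i k) + (∑ i, a i g * b i (h * k)) -
    (∑ i, a i g * b i h) = 0
  rw [← Finset.sum_sub_distrib, ← Finset.sum_add_distrib, ← Finset.sum_sub_distrib]
  apply Finset.sum_eq_zero
  intro i _
  rw [ha, hb]
  ring

/-- the linear map given by the cup products with given additive functions -/
noncomputable def onePhi {X : Type} [Group X] (θ : X →* X) (p : ℕ) [Fact p.Prime] (u : US θ p)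
    (z : Fin 2 → Addf X (ZMod p)) :
    (Fin 2 → Addf u.U (ZMod p)) →ₗ[ZMod p] (u.U → u.U → ZMod p) where
  toFun x := fun g h => ∑ i, (x i).1 g * (z i).1 (h : X)
  map_add' := by
    intro x y
    funext g h
    show (∑ i, ((x i).1 g + (y i).1 g) * (z i).1 (h : X)) =
      (∑ i, (x i).1 g * (z i).1 (h : X)) + ∑ i, (y i).1 g * (z i).1 (h : X)
    rw [← Finset.sum_add_distrib]
    exact Finset.sum_congr rfl (fun i _ => add_mul _ _ _)
  map_smul' := by
    intro c x
    funext g h
    show (∑ i, (c * (x i).1 g) * (z i).1 (h : X)) =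
      c * ∑ i, (x i).1 g * (z i).1 (h : X)
    rw [Finset.mul_sum]
    exact Finset.sum_congr rfl (fun i _ => mul_assoc _ _ _)

/-- the growth comparison -/
theorem one_growth (p : ℕ) (hp : 2 ≤ p) (a : ℕ)
    (h : ∀ k : ℕ, 1 + p ^ (2 * k) ≤ a) : False := by
  have h1 := h a
  have h2 : 2 * a < p ^ (2 * a) := Nat.lt_pow_self hp
  omega

/-- ROW ONE (from GRO, CUK, CUN, VV, UNT) -/
theorem dnl_le_one {X : Type} [Group X] (hX : Dual 3 X) (ho : Ori 3 X = ⊤) (θ : X →* X)
    (hinj : Function.Injective θ) (hfin : θ.range.FiniteIndex) (p : ℕ) [Fact p.Prime]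
    (hp : p ∣ θ.range.index) (haut : ∀ r, 0 < r → AutH (itr θ r)) (h2 : Two X) :
    dnl θ p ≤ 1 := by
  by_contra hcon
  have hdnl : 2 ≤ dnl θ p := by omega
  have hfg : Group.FG X := hX.fg
  have hfd : FiniteDimensional (ZMod p) (Addf X (ZMod p)) := addf_fd
  -- two independent elements
  let bs := Module.finBasis (ZMod p) (nlA θ p)
  let z : Fin 2 → Addf X (ZMod p) := fun i => (bs (Fin.castLE hdnl i)).1
  have hz : ∀ i, z i ∈ nlA θ p := fun i => (bs (Fin.castLE hdnl i)).2
  have hli : LinearIndependent (ZMod p) z := by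
    have h1 : LinearIndependent (ZMod p) (fun i : Fin 2 => bs (Fin.castLE hdnl i)) :=
      bs.linearIndependent.comp _ (Fin.castLE_injective hdnl)
    exact h1.map' (nlA θ p).subtype (Submodule.ker_subtype _)
  obtain ⟨v, hv⟩ := exists_v p θ
  have hautθ : AutH θ := by
    intro c
    obtain ⟨e, he⟩ := haut 1 Nat.one_pos c
    exact ⟨e, fun g => he g⟩
  obtain ⟨b, hb⟩ := exists_units p θ hautθ h2
  have hpp : p.Prime := Fact.out
  apply one_growth p hpp.two_le (θ.range.index ^ v)
  intro k
  obtain ⟨u, hu1, hu2, hu3⟩ := hb k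
  have hW : Dual 3 u.U := hX.sub u.U
  have hoW : Ori 3 u.U = ⊤ := ori_top u.U 3 hX.cd (by rw [ho]; exact le_top)
  have hfgW : Group.FG u.U := hW.fg
  have hfdW : FiniteDimensional (ZMod p) (Addf u.U (ZMod p)) := addf_fd
  have hΦ : ∀ x, IsZ2 (onePhi θ p u z x) := by
    intro x
    exact one_isZ2 (fun i g => (x i).1 g) (fun i (h : u.U) => (z i).1 (h : X))
      (fun i g h => (x i).2 g h) (fun i g h => (z i).2 g h)
  obtain ⟨K, hK1, hK2⟩ := cup_nd hW hoW p (onePhi θ p u z) hΦ
  have hK3 := cup_ker θ hinj hfin p u v hv 2 z hz hli K hK1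
  have hs : Module.finrank (ZMod p) (stA (rst θ u.U u.inv) p) ≤
      Module.finrank (ZMod p) (Addf u.U (ZMod p)) := Submodule.finrank_le _
  have hgro := grow hX ho θ hinj hfin p hp haut h2 u
  rw [Module.finrank_pi_fintype] at hK2
  simp only [Finset.sum_const, Finset.card_univ, Fintype.card_fin, smul_eq_mul] at hK2
  omega

end BCX
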