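import Pool.Agent.BCX.Defs3
import Pool.Agent.EssMap.Her

set_option autoImplicit false

open CategoryTheory groupCohomology EssMap
open scoped commutatorElement

namespace BCX

private theorem z4_d {H : Type} [Group H] {A : Type} [CommRing A] {m : ℕ}
    (c : (Fin m → H) → A) (g : Fin (m + 1) → H) :
    (inhomogeneousCochains.d (Rep.trivial ℤ H A) m c : (Fin (m + 1) → H) → A) g =
      c (fun i => g i.succ) + ∑ j : Fin (m + 1),
        (-1 : ℤ) ^ ((j : ℕ) + 1) • c (Fin.contractNth j (· * ·) g) :=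
  inhomogeneousCochains.d_hom_apply _ _ _ _

private theorem z4_exists {H : Type} [Group H] {A : Type} [CommRing A]
    (hz : Limits.IsZero (groupCohomology (Rep.trivial ℤ H A) 4)) (c : (Fin 4 → H) → A)
    (hc : inhomogeneousCochains.d (Rep.trivial ℤ H A) 4 c = 0) :
    ∃ b : (Fin 3 → H) → A, inhomogeneousCochains.d (Rep.trivial ℤ H A) 3 b = c := by
  have h1 : (inhomogeneousCochains (Rep.trivial ℤ H A)).ExactAt 4 :=
    (HomologicalComplex.exactAt_iff_isZero_homology _ _).2 hz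
  rw [HomologicalComplex.exactAt_iff' _ 3 4 5 (by simp) (by simp)] at h1
  rw [ShortComplex.moduleCat_exact_iff] at h1
  obtain ⟨b, hb⟩ := h1 c (by
    show ((inhomogeneousCochains (Rep.trivial ℤ H A)).d 4 5) c = 0
    rw [inhomogeneousCochains.d_def]
    exact hc)
  refine ⟨b, ?_⟩
  have hb' : ((inhomogeneousCochains (Rep.trivial ℤ H A)).d 3 4) b = c := hb
  rw [inhomogeneousCochains.d_def] at hb'
  exact hb'

private theorem z4_d3 {H : Type} [Group H] {A : Type} [CommRing A]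
    (b : (Fin 3 → H) → A) (g : Fin 4 → H) :
    (inhomogeneousCochains.d (Rep.trivial ℤ H A) 3 b : (Fin 4 → H) → A) g =
      b ![g 1, g 2, g 3] - b ![g 0 * g 1, g 2, g 3] + b ![g 0, g 1 * g 2, g 3] -
        b ![g 0, g 1, g 2 * g 3] + b ![g 0, g 1, g 2] := by
  have e0 : (fun i : Fin 3 => g i.succ) = ![g 1, g 2, g 3] := by
    funext i; fin_cases i <;> rfl
  have e1 : Fin.contractNth 0 (· * ·) g = ![g 0 * g 1, g 2, g 3] := by
    funext i; fin_cases i <;> rfl
  have e2 : Fin.contractNth 1 (· * ·) g = ![g 0, g 1 * g 2, g 3] := by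
    funext i; fin_cases i <;> rfl
  have e3 : Fin.contractNth 2 (· * ·) g = ![g 0, g 1, g 2 * g 3] := by
    funext i; fin_cases i <;> rfl
  have e4 : Fin.contractNth 3 (· * ·) g = ![g 0, g 1, g 2] := by
    funext i; fin_cases i <;> rfl
  rw [z4_d, e0, Fin.sum_univ_four, e1, e2, e3, e4]
  simp
  ring

private theorem z4_d4 {H : Type} [Group H] {A : Type} [CommRing A]
    (c : (Fin 4 → H) → A) (g : Fin 5 → H) :
    (inhomogeneousCochains.d (Rep.trivial ℤ H A) 4 c : (Fin 5 → H) → A) g =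
      c ![g 1, g 2, g 3, g 4] - c ![g 0 * g 1, g 2, g 3, g 4] + c ![g 0, g 1 * g 2, g 3, g 4] -
        c ![g 0, g 1, g 2 * g 3, g 4] + c ![g 0, g 1, g 2, g 3 * g 4] - c ![g 0, g 1, g 2, g 3] := by
  have e0 : (fun i : Fin 4 => g i.succ) = ![g 1, g 2, g 3, g 4] := by
    funext i; fin_cases i <;> rfl
  have e1 : Fin.contractNth 0 (· * ·) g = ![g 0 * g 1, g 2, g 3, g 4] := by
    funext i; fin_cases i <;> rfl
  have e2 : Fin.contractNth 1 (· * ·) g = ![g 0, g 1 * g 2, g 3, g 4] := by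
    funext i; fin_cases i <;> rfl
  have e3 : Fin.contractNth 2 (· * ·) g = ![g 0, g 1, g 2 * g 3, g 4] := by
    funext i; fin_cases i <;> rfl
  have e4 : Fin.contractNth 3 (· * ·) g = ![g 0, g 1, g 2, g 3 * g 4] := by
    funext i; fin_cases i <;> rfl
  have e5 : Fin.contractNth 4 (· * ·) g = ![g 0, g 1, g 2, g 3] := by
    funext i; fin_cases i <;> rfl
  rw [z4_d, e0, Fin.sum_univ_five, e1, e2, e3, e4, e5]
  simp
  ring

private theorem z4_swap {A : Type} [CommRing A] (F : Equiv.Perm (Fin 4) → A) (i j : Fin 4)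
    (hij : i ≠ j) (hF : ∀ σ, F (σ * Equiv.swap i j) = F σ) :
    ∑ σ : Equiv.Perm (Fin 4), Equiv.Perm.sign σ • F σ = 0 := by
  refine Finset.sum_involution (fun σ _ => σ * Equiv.swap i j) ?_ ?_ ?_ ?_
  · intro σ _
    rw [hF, Equiv.Perm.sign_mul, Equiv.Perm.sign_swap hij, mul_neg, mul_one, Units.neg_smul,
      add_neg_cancel]
  · intro σ _ _ h
    have h1 : Equiv.swap i j = 1 := by
      have := mul_left_cancel (a := σ) (h.trans (mul_one σ).symm)
      exact this
    exact hij (Equiv.swap_eq_one_iff.1 h1)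
  · intro σ _
    exact Finset.mem_univ _
  · intro σ _
    rw [mul_assoc, Equiv.swap_mul_self, mul_one]

/-- ROW Z4: no free abelian subgroup of rank four -/
theorem z4 {G : Type} [Group G] (hG : Dual 3 G) (H : Subgroup G)
    (hH : ∀ x y : H, x * y = y * x) (A : Type) [CommRing A]
    (f : Fin 4 → (H →* Multiplicative A)) (g : Fin 4 → H) :
    Matrix.det (Matrix.of fun i j => (f i (g j)).toAdd) = 0 := by
  have hz : Limits.IsZero (groupCohomology (Rep.trivial ℤ H A) 4) :=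
    inh_zero H 4 hG.cd (Rep.trivial ℤ H A)
  obtain ⟨b, hb⟩ := z4_exists hz (fun h => ∏ i, (f i (h i)).toAdd) (by
    funext h
    rw [z4_d4]
    simp only [Fin.prod_univ_four, Matrix.cons_val, map_mul, toAdd_mul]
    show _ = (0 : A)
    ring)
  have hc : ∀ h : Fin 4 → H, ∏ i, (f i (h i)).toAdd =
      b ![h 1, h 2, h 3] - b ![h 0 * h 1, h 2, h 3] + b ![h 0, h 1 * h 2, h 3] -
        b ![h 0, h 1, h 2 * h 3] + b ![h 0, h 1, h 2] := by
    intro h
    rw [← z4_d3, hb]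
  rw [← Matrix.det_transpose, Matrix.det_apply]
  have e : ∀ σ : Equiv.Perm (Fin 4), ∏ i, (Matrix.of fun i j => (f i (g j)).toAdd).transpose (σ i) i
      = ∏ i, (f i ((fun k => g (σ k)) i)).toAdd := fun σ => rfl
  simp only [e, hc, smul_add, smul_sub, Finset.sum_add_distrib, Finset.sum_sub_distrib]
  rw [z4_swap (fun σ => b ![g (σ 0) * g (σ 1), g (σ 2), g (σ 3)]) 0 1 (by decide),
    z4_swap (fun σ => b ![g (σ 0), g (σ 1) * g (σ 2), g (σ 3)]) 1 2 (by decide),
    z4_swap (fun σ => b ![g (σ 0), g (σ 1), g (σ 2) * g (σ 3)]) 2 3 (by decide)]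
  · have h1 : ∑ σ : Equiv.Perm (Fin 4), Equiv.Perm.sign σ • b ![g (σ 0), g (σ 1), g (σ 2)] =
        -∑ σ : Equiv.Perm (Fin 4), Equiv.Perm.sign σ • b ![g (σ 1), g (σ 2), g (σ 3)] := by
      rw [← Equiv.sum_comp (Equiv.mulRight (finRotate 4)), ← Finset.sum_neg_distrib]
      refine Finset.sum_congr rfl (fun σ _ => ?_)
      have hs : Equiv.Perm.sign (σ * finRotate 4) = -Equiv.Perm.sign σ := by
        rw [Equiv.Perm.sign_mul, sign_finRotate]
        norm_num
      show Equiv.Perm.sign (σ * finRotate 4) • b ![g (σ (finRotate 4 0)), g (σ (finRotate 4 1)),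
        g (σ (finRotate 4 2))] = _
      have r0 : finRotate 4 0 = 1 := by decide
      have r1 : finRotate 4 1 = 2 := by decide
      have r2 : finRotate 4 2 = 3 := by decide
      rw [hs, r0, r1, r2, Units.neg_smul]
    rw [h1]
    ring
  · intro σ
    show b ![g (σ (Equiv.swap 2 3 0)), g (σ (Equiv.swap 2 3 1)),
      g (σ (Equiv.swap 2 3 2)) * g (σ (Equiv.swap 2 3 3))] = _
    have s0 : (Equiv.swap 2 3 : Equiv.Perm (Fin 4)) 0 = 0 := by decide
    have s1 : (Equiv.swap 2 3 : Equiv.Perm (Fin 4)) 1 = 1 := by decide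
    have s2 : (Equiv.swap 2 3 : Equiv.Perm (Fin 4)) 2 = 3 := by decide
    have s3 : (Equiv.swap 2 3 : Equiv.Perm (Fin 4)) 3 = 2 := by decide
    rw [s0, s1, s2, s3, hH (g (σ 3))]
  · intro σ
    show b ![g (σ (Equiv.swap 1 2 0)), g (σ (Equiv.swap 1 2 1)) * g (σ (Equiv.swap 1 2 2)),
      g (σ (Equiv.swap 1 2 3))] = _
    have s0 : (Equiv.swap 1 2 : Equiv.Perm (Fin 4)) 0 = 0 := by decide
    have s1 : (Equiv.swap 1 2 : Equiv.Perm (Fin 4)) 1 = 2 := by decide
    have s2 : (Equiv.swap 1 2 : Equiv.Perm (Fin 4)) 2 = 1 := by decide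
    have s3 : (Equiv.swap 1 2 : Equiv.Perm (Fin 4)) 3 = 3 := by decide
    rw [s0, s1, s2, s3, hH (g (σ 2))]
  · intro σ
    show b ![g (σ (Equiv.swap 0 1 0)) * g (σ (Equiv.swap 0 1 1)), g (σ (Equiv.swap 0 1 2)),
      g (σ (Equiv.swap 0 1 3))] = _
    have s0 : (Equiv.swap 0 1 : Equiv.Perm (Fin 4)) 0 = 1 := by decide
    have s1 : (Equiv.swap 0 1 : Equiv.Perm (Fin 4)) 1 = 0 := by decide
    have s2 : (Equiv.swap 0 1 : Equiv.Perm (Fin 4)) 2 = 2 := by decide
    have s3 : (Equiv.swap 0 1 : Equiv.Perm (Fin 4)) 3 = 3 := by decide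
    rw [s0, s1, s2, s3, hH (g (σ 1))]

end BCX
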