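import Pool.Agent.BCX.Gro
import Pool.Agent.BCX.Unt
import Pool.Agent.BCX.Z4
import Pool.Agent.BCX.Met
import Pool.Agent.BCX.One
import Pool.Agent.BCX.Fch

/-!
# Case 2: two independent homomorphisms to the integers
-/

set_option autoImplicit false

open CategoryTheory groupCohomology EssMap
open scoped commutatorElement

namespace BCX

theorem itr_mul {G : Type*} [Group G] (θ : G →* G) (m r : ℕ) (x : G) :
    itr (itr θ m) r x = itr θ (m * r) x := by
  induction r with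
  | zero => rfl
  | succ r ih =>
    rw [itr_succ, ih, ← itr_add]
    congr 2
    ring

theorem AutH.congr {X : Type} [Group X] {θ θ' : X →* X} (h : AutH θ) (he : ∀ x, θ x = θ' x) :
    AutH θ' := by
  intro c
  obtain ⟨e, he'⟩ := h c
  exact ⟨e, fun g => by rw [← he, he']⟩

theorem St3.autr {G : Type} [Group G] {θ : G →* G} (hs : St3 G θ) (m : ℕ) (X : Subgroup G)
    (hX : ∀ x ∈ X, itr θ m x ∈ X) (hm : 0 < m) (hXf : X.FiniteIndex) (r : ℕ) (hr : 0 < r) :
    AutH (itr (rst (itr θ m) X hX) r) := by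
  have hX' : ∀ x ∈ X, itr θ (m * r) x ∈ X := by
    intro x hx
    have h := (itr (rst (itr θ m) X hX) r ⟨x, hx⟩).2
    rw [itr_rst, itr_mul] at h
    exact h
  refine (hs.aut (m * r) X hX' (Nat.mul_pos hm hr) hXf).congr ?_
  intro x
  apply Subtype.ext
  rw [itr_rst, itr_mul, rst_coe]

theorem case2_one {G : Type} [Group G] (θ : G →* G) (hs : St3 G θ) (h2 : Two G) (m : ℕ)
    (X : Subgroup G) (hX : ∀ x ∈ X, itr θ m x ∈ X) (hm : 0 < m) (hXf : X.FiniteIndex) (p : ℕ)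
    (hp' : Fact p.Prime) (hp : p ∣ θ.range.index) : dnl (rst (itr θ m) X hX) p ≤ 1 := by
  have hfg := hs.dual.fg
  have hinj := itr_inj hs.inj m
  have hfin := itr_range_finiteIndex hs.inj hs.fin m
  refine dnl_le_one (hs.dual.sub X) (ori_top X 3 hs.dual.cd (by rw [hs.ori]; exact le_top)) _
    (rst_inj hinj X hX) (rst_fin hinj hfin X hXf hX) p ?_ (fun r hr => hs.autr m X hX hm hXf r hr)
    ?_
  · rw [rst_index hinj X hXf hX, itr_index θ hs.inj]
    exact hp.trans (dvd_pow_self _ hm.ne')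
  · exact Two.descend X.subtype (by rw [Subgroup.range_subtype]; exact hXf) h2

/-- ROW C2E -/
theorem case2 {G : Type} [Group G] (θ : G →* G) (hs : St3 G θ) (hD : θ.range.index ≠ 1)
    (h2 : Two G) : False := by
  have hfg := hs.dual.fg
  obtain ⟨p, hp, hpD⟩ := Nat.exists_prime_and_dvd hD
  have hpf : Fact p.Prime := ⟨hp⟩
  obtain ⟨Γ, hΓf, hΓθ, hΓm⟩ := metab θ hs.inj hs.fin hs.cap
    (fun m X hX hm hXf p hp' hp => case2_one θ hs h2 m X hX hm hXf p hp' hp)
  have hΓfg : Group.FG Γ := inferInstance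
  have hX1 : ∀ x ∈ Γ, itr θ 1 x ∈ Γ := hΓθ
  have haut : ∀ r, 0 < r → AutH (itr (rst θ Γ hΓθ) r) := fun r hr =>
    hs.autr 1 Γ hX1 one_pos hΓf r hr
  have h2Γ : Two Γ := Two.descend Γ.subtype (by rw [Subgroup.range_subtype]; exact hΓf) h2
  have hdual := hs.dual.sub Γ
  have hori : Ori 3 Γ = ⊤ := ori_top Γ 3 hs.dual.cd (by rw [hs.ori]; exact le_top)
  have hinj := rst_inj hs.inj Γ hΓθ
  have hfin := rst_fin hs.inj hs.fin Γ hΓf hΓθ
  have hpΓ : p ∣ (rst θ Γ hΓθ).range.index := by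
    rw [rst_index hs.inj Γ hΓf hΓθ]; exact hpD
  obtain ⟨d, hd⟩ := four_chars (Γ := Γ) p
  obtain ⟨b, hb⟩ := exists_units p (rst θ Γ hΓθ) (haut 1 one_pos) h2Γ
  obtain ⟨u, hu1, hu2, -⟩ := hb d
  have h3 := grow hdual hori (rst θ Γ hΓθ) hinj hfin p hpΓ haut h2Γ u
  have hUfg : Group.FG u.U := inferInstance
  have hfd : FiniteDimensional (ZMod p) (Addf u.U (ZMod p)) := addf_fd
  have h4 : Module.finrank (ZMod p) (stA (rst (rst θ Γ hΓθ) u.U u.inv) p) ≤
      Module.finrank (ZMod p) (Addf u.U (ZMod p)) := Submodule.finrank_le _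
  have h5 : d ≤ Module.finrank (ZMod p) (Addf u.U (ZMod p)) := by
    have h6 : d < p ^ (2 * d) := lt_of_le_of_lt (by omega : d ≤ 2 * d)
      (Nat.lt_pow_self hp.one_lt)
    omega
  obtain ⟨f, g, hfg'⟩ := hd u.U u.fin hu2 h5
  refine hfg' (z4 hdual (commutator Γ) ?_ (ZMod p) f g)
  intro x y
  have h7 : ⁅(x : Γ), (y : Γ)⁆ ∈ ⁅commutator Γ, commutator Γ⁆ :=
    Subgroup.commutator_mem_commutator x.2 y.2
  rw [hΓm, Subgroup.mem_bot, commutatorElement_eq_one_iff_mul_comm] at h7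
  exact Subtype.ext h7

end BCX
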