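import Pool.Agent.EssMap.Grp

/-!
# Row CEN: one subgroup of finite index centralises all small normal sections
-/

set_option autoImplicit false

open EssMap
open scoped commutatorElement

namespace BCX

/-- ROW CEN: one subgroup of finite index centralises all small normal sections -/
theorem exists_cen {G : Type} [Group G] [Group.FG G] (D : ℕ) :
    ∃ G1 : Subgroup G, G1.Normal ∧ G1.FiniteIndex ∧ ∀ E F : Subgroup G, E.Normal → F.Normal →
      F ≤ E → F.relIndex E ≠ 0 → F.relIndex E ≤ D → ⁅G1, E⁆ ≤ F := by
  have hf : ∀ n : Fin (D + 1), Finite (G →* Equiv.Perm (Fin n)) := fun n => finite_hom G _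
  refine ⟨⨅ n : Fin (D + 1), ⨅ h : G →* Equiv.Perm (Fin n), h.ker, ?_, ?_, ?_⟩
  · exact Subgroup.normal_iInf_normal fun n => Subgroup.normal_iInf_normal fun h => inferInstance
  · apply Subgroup.finiteIndex_iInf
    intro n
    apply Subgroup.finiteIndex_iInf
    intro h
    infer_instance
  · intro E F hE hF hFE h0 hD
    have hEn : (E.map (QuotientGroup.mk' F)).Normal :=
      hE.map _ (QuotientGroup.mk'_surjective F)
    have hcard : Nat.card (E.map (QuotientGroup.mk' F)) = F.relIndex E := by
      have h1 := Subgroup.relIndex_ker (K := E) (QuotientGroup.mk' F)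
      rw [QuotientGroup.ker_mk'] at h1
      exact h1.symm
    have hfin : Finite (E.map (QuotientGroup.mk' F)) :=
      Nat.finite_of_card_ne_zero (by rw [hcard]; exact h0)
    obtain ⟨e⟩ : Nonempty (E.map (QuotientGroup.mk' F) ≃
        Fin (Nat.card (E.map (QuotientGroup.mk' F)))) := ⟨Finite.equivFin _⟩
    rw [Subgroup.commutator_le]
    intro g hg x hx
    rw [Subgroup.mem_iInf] at hg
    have hg1 := hg ⟨Nat.card (E.map (QuotientGroup.mk' F)), by rw [hcard]; omega⟩
    rw [Subgroup.mem_iInf] at hg1
    have hg2 := hg1 ((e.permCongrHom.toMonoidHom.comp (MulAut.toPerm _)).comp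
      ((MulAut.conjNormal (H := E.map (QuotientGroup.mk' F))).comp (QuotientGroup.mk' F)))
    have hg3 : MulAut.toPerm _ (MulAut.conjNormal (H := E.map (QuotientGroup.mk' F))
        (QuotientGroup.mk' F g)) = 1 := by
      apply e.permCongrHom.injective
      rw [map_one]
      exact hg2
    have hx' : QuotientGroup.mk' F x ∈ E.map (QuotientGroup.mk' F) :=
      Subgroup.mem_map_of_mem _ hx
    have h4 := congrArg (fun (σ : Equiv.Perm (E.map (QuotientGroup.mk' F))) =>
      ((σ ⟨_, hx'⟩ : E.map (QuotientGroup.mk' F)) : G ⧸ F)) hg3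
    have h5 : QuotientGroup.mk' F g * QuotientGroup.mk' F x * (QuotientGroup.mk' F g)⁻¹
        = QuotientGroup.mk' F x := h4
    rw [← QuotientGroup.ker_mk' F, MonoidHom.mem_ker, commutatorElement_def, map_mul, map_mul,
      map_mul, map_inv, map_inv, h5, mul_inv_cancel]

end BCX
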