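import Pool.Agent.EssMap.Grp

/-! Row CHN of board bcx_modules: the preimages of an invariant normal subgroup. -/

set_option autoImplicit false

open EssMap

namespace BCX

private theorem CHN_succ {G : Type} [Group G] (θ : G →* G) (A : Subgroup G) (i : ℕ) :
    A.comap (itr θ (i + 1)) = (A.comap (itr θ i)).comap θ := by
  ext x
  rw [Subgroup.mem_comap, Subgroup.mem_comap, Subgroup.mem_comap, itr_succ']

private theorem CHN_le {G : Type} [Group G] (θ : G →* G) (A : Subgroup G)
    (hθ : ∀ x ∈ A, θ x ∈ A) (i : ℕ) : A.comap (itr θ i) ≤ A.comap (itr θ (i + 1)) := by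
  intro x hx
  rw [Subgroup.mem_comap] at hx ⊢
  rw [itr_succ]
  exact hθ _ hx

private theorem CHN_dvd {G : Type} [Group G] (θ : G →* G) (B : Subgroup G)
    (hB : B.FiniteIndex) (hle : B ≤ B.comap θ) :
    B.relIndex (B.comap θ) ∣ θ.range.index ∧ B.relIndex (B.comap θ) * (B.comap θ).index = B.index := by
  have h1 : B.relIndex (B.comap θ) * (B.comap θ).index = B.index :=
    Subgroup.relIndex_mul_index hle
  have h2 : (B.comap θ).index = B.relIndex θ.range := Subgroup.index_comap B θ
  have h3 : B.index ∣ (B ⊓ θ.range).index := Subgroup.index_dvd_of_le inf_le_left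
  have h4 : (B ⊓ θ.range).relIndex θ.range * θ.range.index = (B ⊓ θ.range).index :=
    Subgroup.relIndex_mul_index inf_le_right
  rw [Subgroup.inf_relIndex_right] at h4
  have h5 : B.index ≠ 0 := hB.index_ne_zero
  have h6 : B.relIndex θ.range ≠ 0 := by
    intro h
    rw [h2, h, mul_zero] at h1
    exact h5 h1.symm
  refine ⟨?_, h1⟩
  rw [← h4, ← h1, h2, mul_comm (B.relIndex θ.range)] at h3
  exact Nat.dvd_of_mul_dvd_mul_right (Nat.pos_of_ne_zero h6) h3

private theorem CHN_fin {G : Type} [Group G] (θ : G →* G) (A : Subgroup G) (hA : A.Normal)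
    (hAf : A.FiniteIndex) (i : ℕ) : (A.comap (itr θ i)).FiniteIndex := by
  constructor
  rw [Subgroup.index_comap]
  intro h
  have h1 := Subgroup.relIndex_dvd_index_of_normal A (itr θ i).range
  rw [h] at h1
  exact hAf.index_ne_zero (Nat.eq_zero_of_zero_dvd h1)

/-- ROW CHN: the preimages of an invariant normal subgroup -/
theorem chain_unit {G : Type} [Group G] (θ : G →* G) (hfin : θ.range.FiniteIndex)
    (A : Subgroup G) (hA : A.Normal) (hAf : A.FiniteIndex) (hθ : ∀ x ∈ A, θ x ∈ A) :
    (∀ i, A.comap (itr θ i) ≤ A.comap (itr θ (i + 1)) ∧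
      (A.comap (itr θ i)).relIndex (A.comap (itr θ (i + 1))) ≠ 0 ∧
      (A.comap (itr θ i)).relIndex (A.comap (itr θ (i + 1))) ≤ θ.range.index) ∧
    ∃ m : ℕ, (A.comap (itr θ m)).comap θ = A.comap (itr θ m) := by
  have hdvd : ∀ i, (A.comap (itr θ i)).relIndex ((A.comap (itr θ i)).comap θ) ∣ θ.range.index ∧
      (A.comap (itr θ i)).relIndex ((A.comap (itr θ i)).comap θ) *
        ((A.comap (itr θ i)).comap θ).index = (A.comap (itr θ i)).index := by
    intro i
    have hle := CHN_le θ A hθ i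
    rw [CHN_succ] at hle
    exact CHN_dvd θ _ (CHN_fin θ A hA hAf i) hle
  refine ⟨fun i => ⟨CHN_le θ A hθ i, ?_, ?_⟩, ?_⟩
  · rw [CHN_succ]
    intro h
    have h1 := (hdvd i).1
    rw [h] at h1
    exact hfin.index_ne_zero (Nat.eq_zero_of_zero_dvd h1)
  · rw [CHN_succ]
    exact Nat.le_of_dvd (Nat.pos_of_ne_zero hfin.index_ne_zero) (hdvd i).1
  · obtain ⟨m, hm⟩ : ∃ m : ℕ, ∀ j : ℕ, (A.comap (itr θ m)).index ≤ (A.comap (itr θ j)).index := by
      have hne : (Set.range (fun j : ℕ => (A.comap (itr θ j)).index)).Nonempty :=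
        ⟨_, 0, rfl⟩
      obtain ⟨m, hm⟩ := Nat.sInf_mem hne
      refine ⟨m, fun j => ?_⟩
      have h1 : (A.comap (itr θ m)).index = sInf (Set.range (fun j : ℕ => (A.comap (itr θ j)).index)) := hm
      rw [h1]
      exact Nat.sInf_le ⟨j, rfl⟩
    refine ⟨m, ?_⟩
    have h1 := (hdvd m).2
    have h2 := hm (m + 1)
    rw [CHN_succ] at h2
    have h3 : (A.comap (itr θ m)).index ≠ 0 := (CHN_fin θ A hA hAf m).index_ne_zero
    have hle := CHN_le θ A hθ m
    rw [CHN_succ] at hle
    have h4 : (A.comap (itr θ m)).relIndex ((A.comap (itr θ m)).comap θ) = 1 := by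
      have h5 : ((A.comap (itr θ m)).comap θ).index ≠ 0 := by
        intro h
        rw [h, mul_zero] at h1
        exact h3 h1.symm
      have h6 : (A.comap (itr θ m)).relIndex ((A.comap (itr θ m)).comap θ) ≠ 0 := by
        intro h
        rw [h, zero_mul] at h1
        exact h3 h1.symm
      by_contra h7
      have h8 : 2 ≤ (A.comap (itr θ m)).relIndex ((A.comap (itr θ m)).comap θ) := by omega
      have h9 : 2 * ((A.comap (itr θ m)).comap θ).index ≤ (A.comap (itr θ m)).index := by
        rw [← h1]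
        exact Nat.mul_le_mul_right _ h8
      omega
    exact le_antisymm (Subgroup.relIndex_eq_one.1 h4) hle

end BCX
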