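import Pool.Agent.BCX.Defs3

/-!
# BCX part 3, row HBD: characters modulo prime powers and integral characters
-/

set_option autoImplicit false

open CategoryTheory groupCohomology EssMap
open scoped commutatorElement

namespace BCX

/-- the structure theorem: the abelianisation as a map onto the sum of a free group and a finite
group, with its universal property -/
private theorem HBD_str (X : Type) [Group X] [Group.FG X] :
    ∃ (n : ℕ) (D : Type) (_ : AddCommGroup D) (_ : Finite D)
      (π : X →* Multiplicative ((Fin n → ℤ) × D)), Function.Surjective π ∧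
      ∀ (B : Type) [AddCommGroup B] (f : X →* Multiplicative B),
        ∃ g : ((Fin n → ℤ) × D) →+ B, ∀ x, (f x).toAdd = g (π x).toAdd := by
  have h1 : Group.FG (Abelianization X) :=
    Group.fg_of_surjective (f := Abelianization.of) (QuotientGroup.mk'_surjective _)
  have h2 : AddGroup.FG (Additive (Abelianization X)) := inferInstance
  obtain ⟨n, ι, hι, p, hp, e, ⟨φ⟩⟩ :=
    AddCommGroup.equiv_free_prod_directSum_zmod (Additive (Abelianization X))
  have hD : Finite (DirectSum ι fun i => ZMod (p i ^ e i)) := by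
    classical
    have : ∀ i, NeZero (p i ^ e i) := fun i => ⟨pow_ne_zero _ (hp i).ne_zero⟩
    have : ∀ i, Finite (ZMod (p i ^ e i)) := fun i => inferInstance
    exact Finite.of_equiv (∀ i, ZMod (p i ^ e i)) (DirectSum.addEquivProd _).symm.toEquiv
  let ψ : ((Fin n →₀ ℤ) × DirectSum ι fun i => ZMod (p i ^ e i)) ≃+
      ((Fin n → ℤ) × DirectSum ι fun i => ZMod (p i ^ e i)) :=
    (Finsupp.linearEquivFunOnFinite ℤ ℤ (Fin n)).toAddEquiv.prodCongr (AddEquiv.refl _)
  let Φ : Additive (Abelianization X) ≃+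
      ((Fin n → ℤ) × DirectSum ι fun i => ZMod (p i ^ e i)) := φ.trans ψ
  refine ⟨n, DirectSum ι fun i => ZMod (p i ^ e i), inferInstance, hD,
    (AddMonoidHom.toMultiplicativeRight Φ.toAddMonoidHom).comp Abelianization.of, ?_, ?_⟩
  · intro y
    obtain ⟨a, ha⟩ := Φ.surjective y.toAdd
    obtain ⟨x, hx⟩ := QuotientGroup.mk'_surjective (commutator X) (Additive.toMul a)
    refine ⟨x, ?_⟩
    have h3 : Abelianization.of x = Additive.toMul a := hx
    show Multiplicative.ofAdd (Φ (Additive.ofMul (Abelianization.of x))) = y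
    rw [h3]
    show Multiplicative.ofAdd (Φ a) = y
    rw [ha]
    rfl
  · intro B _ f
    let f' : Abelianization X →* Multiplicative B := Abelianization.lift f
    let f'' : Additive (Abelianization X) →+ B := MonoidHom.toAdditiveLeft f'
    refine ⟨f''.comp Φ.symm.toAddMonoidHom, fun x => ?_⟩
    show (f x).toAdd = f'' (Φ.symm (Φ (Additive.ofMul (Abelianization.of x))))
    rw [AddEquiv.symm_apply_apply]
    show (f x).toAdd = (Abelianization.lift f (Abelianization.of x)).toAdd
    rw [Abelianization.lift_apply_of]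

private theorem HBD_sum {n : ℕ} {D B : Type} [AddCommGroup D] [AddCommGroup B]
    (g : ((Fin n → ℤ) × D) →+ B) (v : Fin n → ℤ) (d : D) :
    g (v, d) = (∑ i, v i • g (Pi.single i 1, 0)) + g (0, d) := by
  have h1 : ((v, d) : (Fin n → ℤ) × D) =
      (∑ i, v i • ((Pi.single i 1, 0) : (Fin n → ℤ) × D)) + (0, d) := by
    apply Prod.ext
    · rw [Prod.fst_add, Prod.fst_sum]
      ext j
      simp [Finset.sum_apply, Pi.single_apply]
    · rw [Prod.snd_add, Prod.snd_sum]
      simp
  rw [h1, map_add, map_sum]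
  congr 1
  exact Finset.sum_congr rfl fun i _ => map_zsmul g _ _

private theorem HBD_finite (X : Type) [Group X] [Group.FG X] (m : ℕ) [NeZero m] :
    Finite (X →* Multiplicative (ZMod m)) := by
  obtain ⟨n, D, _, hD, π, hπ, huniv⟩ := HBD_str X
  have : Finite (((Fin n → ℤ) × D) →+ ZMod m) := by
    have hinj : Function.Injective (fun g : ((Fin n → ℤ) × D) →+ ZMod m =>
        ((fun i : Fin n => g (Pi.single i 1, 0)), (fun d : D => g (0, d)))) := by
      intro g g' h
      have h1 := congrArg Prod.fst h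
      have h2 := congrArg Prod.snd h
      refine AddMonoidHom.ext fun v => ?_
      have h3 := HBD_sum g v.1 v.2
      have h4 := HBD_sum g' v.1 v.2
      have h5 : ∀ i, g (Pi.single i 1, 0) = g' (Pi.single i 1, 0) := fun i => congrFun h1 i
      have h6 : ∀ d, g (0, d) = g' (0, d) := fun d => congrFun h2 d
      rw [← h6, ← Finset.sum_congr rfl fun i _ => congrArg (v.1 i • ·) (h5 i)] at h4
      exact h3.trans h4.symm
    exact Finite.of_injective _ hinj
  choose g hg using fun f : X →* Multiplicative (ZMod m) => huniv (ZMod m) f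
  refine Finite.of_injective g ?_
  intro f f' h
  ext x
  have h1 := hg f x
  rw [h, ← hg f' x] at h1
  exact h1

/-- the homomorphism to the integers with given values on the coordinates -/
private def HBD_co {X : Type} [Group X] {n : ℕ} {D : Type} [AddCommGroup D]
    (π : X →* Multiplicative ((Fin n → ℤ) × D)) (r : Fin n → ℤ) : X →* Multiplicative ℤ :=
  MonoidHom.mk' (fun x => Multiplicative.ofAdd (∑ i, r i * (π x).toAdd.1 i)) (fun a b => by
    rw [← ofAdd_add, ← Finset.sum_add_distrib, map_mul]
    congr 1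
    refine Finset.sum_congr rfl fun i _ => ?_
    rw [toAdd_mul, Prod.fst_add, Pi.add_apply, mul_add])

private theorem HBD_mem {X : Type} [Group X] {n : ℕ} {D : Type} [AddCommGroup D]
    (π : X →* Multiplicative ((Fin n → ℤ) × D)) (hπ : Function.Surjective π) (m : ℕ) [NeZero m]
    (χ : X →* Multiplicative (ZMod m)) (g : ((Fin n → ℤ) × D) →+ ZMod m)
    (hg : ∀ x, (χ x).toAdd = g (π x).toAdd)
    (h : ∀ x d, (π x).toAdd = (0, d) → χ x = 1) : χ ∈ (redm X m).range := by
  refine ⟨HBD_co π (fun i => ((g (Pi.single i 1, 0)).val : ℤ)), ?_⟩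
  ext x
  have h0 : ∀ d : D, g (0, d) = 0 := by
    intro d
    obtain ⟨y, hy⟩ := hπ (Multiplicative.ofAdd (0, d))
    have h1 := hg y
    rw [hy, h y d (by rw [hy]; rfl)] at h1
    exact h1.symm
  have h2 : (χ x).toAdd = ∑ i, (π x).toAdd.1 i • g (Pi.single i 1, 0) := by
    rw [hg x]
    have h3 := HBD_sum g (π x).toAdd.1 (π x).toAdd.2
    rw [h0, add_zero] at h3
    exact h3
  show Multiplicative.ofAdd (((∑ i, ((g (Pi.single i 1, 0)).val : ℤ) * (π x).toAdd.1 i : ℤ)) :
    ZMod m) = χ x
  apply Multiplicative.toAdd.injective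
  rw [toAdd_ofAdd, h2, Int.cast_sum]
  refine Finset.sum_congr rfl fun i _ => ?_
  rw [Int.cast_mul, Int.cast_natCast, ZMod.natCast_zmod_val, zsmul_eq_mul, mul_comm]

private theorem HBD_two {X : Type} [Group X] {n : ℕ} {D : Type} [AddCommGroup D] [Finite D]
    (π : X →* Multiplicative ((Fin n → ℤ) × D))
    (huniv : ∀ f : X →* Multiplicative ℤ,
      ∃ g : ((Fin n → ℤ) × D) →+ ℤ, ∀ x, (f x).toAdd = g (π x).toAdd)
    (h2 : Two X) : 2 ≤ n := by
  obtain ⟨b, c, hbc⟩ := h2
  obtain ⟨gb, hgb⟩ := huniv b
  obtain ⟨gc, hgc⟩ := huniv c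
  have h0 : ∀ (g : ((Fin n → ℤ) × D) →+ ℤ) (d : D), g (0, d) = 0 := by
    intro g d
    have h1 : (Nat.card D) • g (0, d) = 0 := by
      rw [← map_nsmul]
      have h2 : Nat.card D • ((0, d) : (Fin n → ℤ) × D) = 0 := by
        apply Prod.ext
        · simp
        · exact card_nsmul_eq_zero'
      rw [h2, map_zero]
    rw [nsmul_eq_mul] at h1
    rcases mul_eq_zero.1 h1 with h3 | h3
    · exact absurd h3 (by exact_mod_cast Nat.card_pos.ne')
    · exact h3
  have hb : ∀ x, (b x).toAdd = ∑ i, (π x).toAdd.1 i • gb (Pi.single i 1, 0) := by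
    intro x
    rw [hgb x]
    have h3 := HBD_sum gb (π x).toAdd.1 (π x).toAdd.2
    rw [h0, add_zero] at h3
    exact h3
  have hc : ∀ x, (c x).toAdd = ∑ i, (π x).toAdd.1 i • gc (Pi.single i 1, 0) := by
    intro x
    rw [hgc x]
    have h3 := HBD_sum gc (π x).toAdd.1 (π x).toAdd.2
    rw [h0, add_zero] at h3
    exact h3
  by_contra hn
  have hn' : n = 0 ∨ n = 1 := by omega
  rcases hn' with rfl | rfl
  · have h4 := hbc 1 0 (fun x => by rw [hb x]; simp)
    exact one_ne_zero h4.1
  · have h4 := hbc (gc (Pi.single 0 1, 0)) (-(gb (Pi.single 0 1, 0))) (fun x => by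
      rw [hb x, hc x, Fin.sum_univ_one, Fin.sum_univ_one, smul_eq_mul, smul_eq_mul]
      ring)
    have h5 := hbc 1 0 (fun x => by
      rw [hb x, Fin.sum_univ_one, neg_eq_zero.1 h4.2]
      simp)
    exact one_ne_zero h5.1

/-- ROW HBD: characters modulo `p ^ k` and integral characters -/
theorem hom_bound {X : Type} [Group X] [Group.FG X] (p : ℕ) [Fact p.Prime] (h2 : Two X) :
    ∃ C : ℕ, 0 < C ∧ ∀ k : ℕ,
      Nat.card (X →* Multiplicative (ZMod (p ^ k))) ≤ C * Nat.card (redm X (p ^ k)).range ∧
      p ^ (2 * k) ≤ Nat.card (redm X (p ^ k)).range := by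
  classical
  obtain ⟨n, D, _, hD, π, hπ, huniv⟩ := HBD_str X
  have hn : 2 ≤ n := HBD_two π (fun f => huniv ℤ f) h2
  have : Fintype D := Fintype.ofFinite D
  have hDpos : 0 < Nat.card D := Nat.card_pos
  refine ⟨Nat.card D ^ Nat.card D, pow_pos hDpos _, fun k => ?_⟩
  have hm : NeZero (p ^ k) := ⟨pow_ne_zero _ (Fact.out : p.Prime).ne_zero⟩
  generalize hmk : p ^ k = m at hm ⊢
  have hpk : p ^ (2 * k) = m * m := by rw [two_mul, pow_add, hmk]
  rw [hpk]
  have hfin : Finite (X →* Multiplicative (ZMod m)) := HBD_finite X m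
  have hfinR : Finite (redm X m).range := inferInstance
  constructor
  · choose y hy using fun d : D => hπ (Multiplicative.ofAdd (0, d))
    let Ψ : (X →* Multiplicative (ZMod m)) →* (D → Multiplicative (ZMod m)) :=
      { toFun := fun χ d => χ (y d)
        map_one' := rfl
        map_mul' := fun _ _ => rfl }
    have hker : Ψ.ker ≤ (redm X m).range := by
      intro χ hχ
      obtain ⟨g, hg⟩ := huniv (ZMod m) χ
      refine HBD_mem π hπ m χ g hg (fun x d hx => ?_)
      have h1 : χ (y d) = 1 := congrFun (MonoidHom.mem_ker.1 hχ) d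
      have h3 := hg x
      have h4 := hg (y d)
      rw [hx] at h3
      rw [hy d] at h4
      have h5 : (χ x).toAdd = (χ (y d)).toAdd := by rw [h3, h4]; rfl
      rw [← h1]
      exact Multiplicative.toAdd.injective h5
    have hcard : Nat.card (X →* Multiplicative (ZMod m)) =
        Nat.card Ψ.ker * Nat.card Ψ.range := by
      rw [← Subgroup.index_ker, Subgroup.card_mul_index]
    have hk1 : Nat.card Ψ.ker ≤ Nat.card (redm X m).range :=
      Nat.card_le_card_of_injective (Subgroup.inclusion hker) (Subgroup.inclusion_injective hker)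
    have hk2 : Nat.card Ψ.range ≤ Nat.card D ^ Nat.card D := by
      have hpw : ∀ f ∈ Ψ.range, ∀ d, f d ^ Nat.card D = 1 := by
        rintro f ⟨χ, rfl⟩ d
        obtain ⟨g, hg⟩ := huniv (ZMod m) χ
        have h4 := hg (y d)
        rw [hy d] at h4
        apply Multiplicative.toAdd.injective
        show (χ (y d) ^ Nat.card D).toAdd = 0
        rw [toAdd_pow, h4]
        show Nat.card D • g (0, d) = 0
        rw [← map_nsmul]
        have h5 : Nat.card D • ((0, d) : (Fin n → ℤ) × D) = 0 := by
          apply Prod.ext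
          · simp
          · exact card_nsmul_eq_zero'
        rw [h5, map_zero]
      let ι : Ψ.range → (D → {z : Multiplicative (ZMod m) // z ^ Nat.card D = 1}) :=
        fun f d => ⟨f.1 d, hpw f.1 f.2 d⟩
      have hι : Function.Injective ι := by
        intro f f' h
        apply Subtype.ext
        funext d
        exact congrArg Subtype.val (congrFun h d)
      refine (Nat.card_le_card_of_injective ι hι).trans ?_
      rw [Nat.card_fun]
      refine Nat.pow_le_pow_left ?_ _
      have : IsCyclic (Multiplicative (ZMod m)) := inferInstance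
      have h6 := IsCyclic.card_pow_eq_one_le (α := Multiplicative (ZMod m)) hDpos
      rw [Nat.card_eq_fintype_card, Fintype.card_subtype]
      exact h6
    rw [hcard, mul_comm]
    exact Nat.mul_le_mul hk2 hk1
  · have hcz : Nat.card (ZMod m × ZMod m) = m * m := by
      rw [Nat.card_prod, Nat.card_zmod]
    rw [← hcz]
    let i0 : Fin n := ⟨0, by omega⟩
    let i1 : Fin n := ⟨1, by omega⟩
    have hne : i0 ≠ i1 := by
      intro h
      have := congrArg Fin.val h
      simp [i0, i1] at this
    let κ : ZMod m × ZMod m → (redm X m).range := fun z =>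
      ⟨redm X m (HBD_co π (Pi.single i0 (z.1.val : ℤ) + Pi.single i1 (z.2.val : ℤ))), ⟨_, rfl⟩⟩
    refine Nat.card_le_card_of_injective κ ?_
    have hval : ∀ (r : Fin n → ℤ) (i : Fin n) (x : X), (π x).toAdd = (Pi.single i 1, 0) →
        (redm X m (HBD_co π r) x).toAdd = ((r i : ℤ) : ZMod m) := by
      intro r i x hx
      show (((∑ j, r j * (π x).toAdd.1 j : ℤ)) : ZMod m) = ((r i : ℤ) : ZMod m)
      rw [hx]
      congr 1
      rw [Finset.sum_eq_single i]
      · simp
      · intro j _ hj
        simp [hj]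
      · intro h
        exact absurd (Finset.mem_univ _) h
    intro z z' h
    have h7 : redm X m (HBD_co π (Pi.single i0 (z.1.val : ℤ) + Pi.single i1 (z.2.val : ℤ))) =
        redm X m (HBD_co π (Pi.single i0 (z'.1.val : ℤ) + Pi.single i1 (z'.2.val : ℤ))) :=
      congrArg Subtype.val h
    obtain ⟨x0, hx0⟩ := hπ (Multiplicative.ofAdd (Pi.single i0 1, 0))
    obtain ⟨x1, hx1⟩ := hπ (Multiplicative.ofAdd (Pi.single i1 1, 0))
    apply Prod.ext
    · have h8 := hval (Pi.single i0 (z.1.val : ℤ) + Pi.single i1 (z.2.val : ℤ)) i0 x0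
        (by rw [hx0]; rfl)
      have h9 := hval (Pi.single i0 (z'.1.val : ℤ) + Pi.single i1 (z'.2.val : ℤ)) i0 x0
        (by rw [hx0]; rfl)
      rw [h7, h9] at h8
      simp [hne] at h8
      exact h8.symm
    · have h8 := hval (Pi.single i0 (z.1.val : ℤ) + Pi.single i1 (z.2.val : ℤ)) i1 x1
        (by rw [hx1]; rfl)
      have h9 := hval (Pi.single i0 (z'.1.val : ℤ) + Pi.single i1 (z'.2.val : ℤ)) i1 x1
        (by rw [hx1]; rfl)
      rw [h7, h9] at h8
      simp [hne.symm] at h8
      exact h8.symm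

end BCX
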