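import Pool.Agent.BCX.Defs3

/-!
# Stable classes in degree one contain the stable characters
-/

set_option autoImplicit false

open CategoryTheory groupCohomology EssMap
open scoped commutatorElement

namespace BCX

private theorem UN1_map {X : Type} [Group X] (θ : X →* X) (m : ℕ) (z : cocycles₁ (Fm X m)) :
    (H1IsoOfIsTrivial (Fm X m)).hom
        (TT θ (Fm X m) (Fm_inv θ m) 1 (H1π (Fm X m) z)) =
      ((H1IsoOfIsTrivial (Fm X m)).hom (H1π (Fm X m) z) : Additive X →+ (Fm X m)).comp
        θ.toAdditive := by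
  have h1 : TT θ (Fm X m) (Fm_inv θ m) 1 (H1π (Fm X m) z) =
      H1π (Fm X m) (mapCocycles₁ θ (tw θ (Fm X m) (Fm_inv θ m)) z) :=
    H1π_comp_map_apply θ (tw θ (Fm X m) (Fm_inv θ m)) z
  rw [h1]
  refine AddMonoidHom.ext fun x => ?_
  have h2 := H1IsoOfIsTrivial_H1π_apply_apply
    ((mapCocycles₁ θ (tw θ (Fm X m) (Fm_inv θ m))) z) x
  have h3 := H1IsoOfIsTrivial_H1π_apply_apply z (θ.toAdditive x)
  exact h2.trans h3.symm

/-- stable classes in degree one contain the stable characters -/
theorem un_one_ge {X : Type} [Group X] [Group.FG X] (θ : X →* X) (m : ℕ) (hm : 2 ≤ m)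
    (S : Subgroup (X →* Multiplicative (ZMod m)))
    (hS : ∀ y ∈ S, ∃ y' ∈ S, ∀ g, y' (θ g) = y g) :
    Nat.card S ≤ un θ (Fm X m) (Fm_inv θ m) 1 := by
  have : NeZero m := ⟨by omega⟩
  let e := (H1IsoOfIsTrivial (Fm X m)).toLinearEquiv
  have f1 : Finite (X →* Multiplicative (ZMod m)) := finite_hom X (Multiplicative (ZMod m))
  have f2 : Finite (Additive X →+ ZMod m) :=
    Finite.of_equiv _ (AddMonoidHom.toMultiplicativeRight (α := X) (β := ZMod m)).symm
  have f3 : Finite (ModuleCat.of ℤ (Additive X →+ (Fm X m))) := f2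
  have f4 : Finite (groupCohomology (Fm X m) 1) := Finite.of_equiv _ e.symm.toEquiv
  have key : ∀ x : groupCohomology (Fm X m) 1,
      (e (TT θ (Fm X m) (Fm_inv θ m) 1 x) : Additive X →+ ZMod m) =
        (e x : Additive X →+ ZMod m).comp θ.toAdditive := by
    intro x
    induction x using H1_induction_on with
    | h z => exact UN1_map θ m z
  have key2 : ∀ f : Additive X →+ ZMod m,
      TT θ (Fm X m) (Fm_inv θ m) 1 (e.symm f) = e.symm (f.comp θ.toAdditive) := by
    intro f
    apply e.injective
    rw [LinearEquiv.apply_symm_apply]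
    have h := key (e.symm f)
    rw [LinearEquiv.apply_symm_apply] at h
    exact h
  let L : (X →* Multiplicative (ZMod m)) → groupCohomology (Fm X m) 1 :=
    fun y => e.symm (AddMonoidHom.toMultiplicativeRight.symm y)
  have hL : Function.Injective L := by
    intro y y' h
    exact AddMonoidHom.toMultiplicativeRight.symm.injective (e.symm.injective h)
  have hT : ∀ y y' : X →* Multiplicative (ZMod m), (∀ g, y' (θ g) = y g) →
      TT θ (Fm X m) (Fm_inv θ m) 1 (L y') = L y := by
    intro y y' h
    have h1 := key2 (AddMonoidHom.toMultiplicativeRight.symm y')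
    refine h1.trans (congrArg e.symm ?_)
    ext x
    exact congrArg Multiplicative.toAdd (h x)
  have hst : ∀ y ∈ S, L y ∈ st (TT θ (Fm X m) (Fm_inv θ m) 1) := by
    intro y hy k
    induction k generalizing y with
    | zero => exact ⟨L y, rfl⟩
    | succ k ih =>
      obtain ⟨y', hy', h⟩ := hS y hy
      obtain ⟨z, hz⟩ := ih y' hy'
      refine ⟨z, ?_⟩
      rw [Function.iterate_succ_apply', hz, hT y y' h]
  unfold un
  refine Nat.card_le_card_of_injective
    (fun y : S => (⟨L y.1, hst y.1 y.2⟩ : st (TT θ (Fm X m) (Fm_inv θ m) 1))) ?_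
  intro y y' h
  exact Subtype.ext (hL (congrArg Subtype.val h))

end BCX
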