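import Pool.Agent.BCX.Chi2
import Pool.Agent.BCX.Un1
import Pool.Agent.BCX.Un2
import Pool.Agent.BCX.Hbd

/-!
Row CH2: the stable Euler characteristic when there are two independent integral characters.
-/

set_option autoImplicit false

open CategoryTheory groupCohomology EssMap
open scoped commutatorElement

namespace BCX

private theorem CH2_arith (a b C : ℕ) (h : ∀ k : ℕ, 0 < k → a ^ k ≤ C * b ^ k) : a ≤ b := by
  by_contra hab
  push Not at hab
  rcases Nat.eq_zero_or_pos b with rfl | hb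
  · have h1 := h 1 one_pos
    rw [pow_one, pow_one, Nat.mul_zero] at h1
    omega
  · obtain ⟨k, hk⟩ : ∃ k, k = C * b + 1 := ⟨_, rfl⟩
    have hk0 : 0 < k := by omega
    have h1 := h k hk0
    have h2 : (b + 1) ^ k ≤ a ^ k := Nat.pow_le_pow_left hab k
    have h3 : b ^ k + k * b ^ (k - 1) ≤ (b + 1) ^ k := by
      have h4 : ∀ n : ℕ, b ^ (n + 1) + (n + 1) * b ^ n ≤ (b + 1) ^ (n + 1) := by
        intro n
        induction n with
        | zero => simp
        | succ n ih =>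
          calc b ^ (n + 1 + 1) + (n + 1 + 1) * b ^ (n + 1)
              ≤ (b ^ (n + 1) + (n + 1) * b ^ n) * (b + 1) := by
                rw [pow_succ b (n + 1), pow_succ b n]
                ring_nf
                nlinarith [Nat.zero_le (b ^ n), Nat.zero_le (n * b ^ n)]
            _ ≤ (b + 1) ^ (n + 1) * (b + 1) := Nat.mul_le_mul_right _ ih
            _ = (b + 1) ^ (n + 1 + 1) := (pow_succ _ _).symm
      obtain ⟨n, rfl⟩ : ∃ n, k = n + 1 := ⟨k - 1, by omega⟩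
      exact h4 n
    have h5 : b ^ k = b * b ^ (k - 1) := by
      obtain ⟨n, rfl⟩ : ∃ n, k = n + 1 := ⟨k - 1, by omega⟩
      rw [Nat.add_sub_cancel, pow_succ, mul_comm]
    have h6 : 0 < b ^ (k - 1) := pow_pos hb _
    have h7 : (b + k) * b ^ (k - 1) ≤ (C * b) * b ^ (k - 1) := by
      calc (b + k) * b ^ (k - 1) = b ^ k + k * b ^ (k - 1) := by rw [h5]; ring
        _ ≤ C * b ^ k := h3.trans (h2.trans h1)
        _ = (C * b) * b ^ (k - 1) := by rw [h5]; ring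
    have h8 := Nat.le_of_mul_le_mul_right h7 h6
    omega

private theorem CH2_num (p a b u1 u2 s C H k : ℕ) (hp : 0 < p)
    (h1 : p ^ k * u2 * b ^ k = u1 * (p * a) ^ k) (hH : H ≤ C * s) (hB : p ^ (2 * k) ≤ s)
    (hU1 : s ≤ u1) (hU2 : u2 * s ≤ H) : (p ^ 2 * a) ^ k ≤ C * b ^ k := by
  have hs : 0 < s := lt_of_lt_of_le (pow_pos hp _) hB
  have h2 : u2 ≤ C := Nat.le_of_mul_le_mul_right (hU2.trans hH) hs
  have h3 : u2 * b ^ k = u1 * a ^ k := by
    have h4 : p ^ k * (u2 * b ^ k) = p ^ k * (u1 * a ^ k) := by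
      rw [← mul_assoc, h1, mul_pow]; ring
    exact Nat.eq_of_mul_eq_mul_left (pow_pos hp k) h4
  calc (p ^ 2 * a) ^ k = p ^ (2 * k) * a ^ k := by rw [mul_pow, ← pow_mul]
    _ ≤ u1 * a ^ k := Nat.mul_le_mul_right _ (hB.trans hU1)
    _ = u2 * b ^ k := h3.symm
    _ ≤ C * b ^ k := Nat.mul_le_mul_right _ h2

theorem chi_two {X : Type} [Group X] (hX : Dual 3 X) (ho : Ori 3 X = ⊤) (θ : X →* X)
    (hinj : Function.Injective θ) (hfin : θ.range.FiniteIndex) (p : ℕ) [Fact p.Prime]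
    (hp : p ∣ θ.range.index) (haut : AutH θ) (h2 : Two X) :
    p ^ 2 * un θ (Fm X p) (Fm_inv θ p) 2 ≤ un θ (Fm X p) (Fm_inv θ p) 1 := by
  have hfg : Group.FG X := hX.fg
  have hp1 : 1 < p := (Fact.out : p.Prime).one_lt
  obtain ⟨C, -, hC⟩ := hom_bound p h2
  refine CH2_arith _ _ C fun k hk => ?_
  have hp0 : 0 < p ^ k := pow_pos (by omega) k
  have hne : NeZero (p ^ k) := ⟨hp0.ne'⟩
  have hV : Good θ p (Fm X (p ^ k)) :=
    { fin := inferInstanceAs (Finite (ZMod (p ^ k)))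
      pp := ⟨k, Nat.card_zmod _⟩
      pgr := fun g => ⟨0, rfl⟩
      inv := Fm_inv θ _ }
  have h1 := chi_mul2 θ hX ho hinj hfin p hp (Fm X (p ^ k)) hV k (Nat.card_zmod _)
  rw [un_zero θ (p ^ k), un_zero θ p] at h1
  have hm : 2 ≤ p ^ k := hp1.trans_le (Nat.le_self_pow hk.ne' p)
  have hS : ∀ y ∈ (redm X (p ^ k)).range, ∃ y' ∈ (redm X (p ^ k)).range,
      ∀ g, y' (θ g) = y g := by
    rintro _ ⟨c, rfl⟩
    obtain ⟨e, he⟩ := haut c
    refine ⟨redm X (p ^ k) e, ⟨e, rfl⟩, fun g => ?_⟩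
    show Multiplicative.ofAdd ((((e (θ g)).toAdd : ℤ) : ZMod (p ^ k))) =
      Multiplicative.ofAdd ((((c g).toAdd : ℤ) : ZMod (p ^ k)))
    rw [he]
  obtain ⟨hH, hB⟩ := hC k
  exact CH2_num p _ _ _ _ _ C _ k (by omega) h1 hH hB
    (un_one_ge θ (p ^ k) hm _ hS) (un_two_le hX ho θ hinj hfin p hp k hk _ hS).2

end BCX
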