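import Pool.Agent.BCX.Nd

/-!
# Finiteness of the second cohomology modulo `m`
-/

set_option autoImplicit false

open CategoryTheory groupCohomology EssMap

namespace BCX

section cup

variable {X : Type} [Group X] {m : ℕ}

theorem cup_z3 (y : X →* Multiplicative (ZMod m)) {c : X → X → ZMod m} (hc : IsZ2 c) :
    IsZ3 (fun g h k => (y g).toAdd * c h k) := by
  intro g h k l
  have h1 := hc h k l
  have h2 : (y (g * h)).toAdd = (y g).toAdd + (y h).toAdd := by rw [map_mul, toAdd_mul]
  show (y h).toAdd * c k l - (y (g * h)).toAdd * c k l + (y g).toAdd * c (h * k) l -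
    (y g).toAdd * c h (k * l) + (y g).toAdd * c h k = 0
  rw [h2]
  linear_combination -(y g).toAdd * h1

theorem IsZ2.sub {B : Type} [AddCommGroup B] {c d : X → X → B} (hc : IsZ2 c) (hd : IsZ2 d) :
    IsZ2 (c - d) := by
  intro g h k
  have h1 := hc g h k
  have h2 := hd g h k
  show (c h k - d h k) - (c (g * h) k - d (g * h) k) +
    (c g (h * k) - d g (h * k)) - (c g h - d g h) = 0
  have h3 : (c h k - c (g * h) k + c g (h * k) - c g h) -
    (d h k - d (g * h) k + d g (h * k) - d g h) = 0 := by
    rw [h1, h2, sub_zero]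
  rw [← h3]
  abel

theorem k2_eq_iff {B : Type} [AddCommGroup B] {c d : X → X → B} (hc : IsZ2 c) (hd : IsZ2 d) :
    k2 c hc = k2 d hd ↔ IsB2 (c - d) := by
  have h1 : k2 c hc = k2 (c - d) (hc.sub hd) + k2 d hd := by
    rw [← k2_add]
    congr 1
    exact (sub_add_cancel c d).symm
  rw [h1, add_eq_right, k2_zero]

end cup

/-- ROW FN0 (from ND, EV) -/
theorem fin_two {X : Type} [Group X] (hX : Dual 3 X) (ho : Ori 3 X = ⊤) (m : ℕ) (hm : 2 ≤ m) :
    Finite (groupCohomology (Fm X m) 2) := by
  have := hX.fg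
  have hm0 : NeZero m := ⟨by omega⟩
  obtain ⟨ev, hev, hev0⟩ := exists_ev hX ho m hm
  have h1 : Finite (X →* Multiplicative (ZMod m)) := finite_hom X (Multiplicative (ZMod m))
  choose c hc hk using (fun x : groupCohomology (Fm X m) 2 => k2_surj x)
  let Φ : groupCohomology (Fm X m) 2 → ((X →* Multiplicative (ZMod m)) → ZMod m) :=
    fun x y => ev (fun g h k => (y g).toAdd * c x h k)
  have hΦ : Function.Injective Φ := by
    intro a b hab
    rw [← hk a, ← hk b, k2_eq_iff]
    apply nd hX ho m hm _ ((hc a).sub (hc b))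
    intro y
    rw [← hev0 _ (cup_z3 y ((hc a).sub (hc b)))]
    have h2 : ev (fun g h k => (y g).toAdd * c a h k) = ev (fun g h k => (y g).toAdd * c b h k) :=
      congrFun hab y
    have h3 : (fun g h k => (y g).toAdd * c a h k) =
        (fun g h k => (y g).toAdd * (c a - c b) h k) + (fun g h k => (y g).toAdd * c b h k) := by
      funext g h k
      show (y g).toAdd * c a h k = (y g).toAdd * (c a h k - c b h k) + (y g).toAdd * c b h k
      ring
    rw [h3, hev _ _ (cup_z3 y ((hc a).sub (hc b))) (cup_z3 y (hc b))] at h2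
    exact add_eq_right.1 h2
  exact Finite.of_injective Φ hΦ

end BCX
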