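import Pool.Agent.BCX.Fin
import Pool.Agent.BCX.Fn0

/-!
# Finiteness of the cohomology in the degrees up to two, without assumption on `b_1`
-/

set_option autoImplicit false

open CategoryTheory groupCohomology EssMap

namespace BCX

/-- ROW FIN2 (from FIL, FN0): finiteness without assumption on `b_1` -/
theorem fin_coh2 {X : Type} [Group X] (θ : X →* X) (hX : Dual 3 X) (ho : Ori 3 X = ⊤) (p : ℕ)
    [Fact p.Prime] (V : Rep ℤ X) (hV : Good θ p V) (n : ℕ) (hn : n ≤ 2) :
    Finite (groupCohomology V n) := by
  have := hX.fg
  have hbase : Finite (groupCohomology (Fm X p) n) := by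
    have h : n = 0 ∨ n = 1 ∨ n = 2 := by omega
    rcases h with rfl | rfl | rfl
    · exact finite_h0 p
    · exact finite_h1 p
    · exact fin_two hX ho p (Fact.out : p.Prime).two_le
  refine devissage θ p (fun V => Finite (groupCohomology V n)) ?_ ?_ V hV
  · intro V hs
    have h : Subsingleton (groupCohomology V n) :=
      ⟨fun x y => (coh_sub V n x).trans (coh_sub V n y).symm⟩
    infer_instance
  · intro V W f g w hX hV hW _ ih
    exact finite_ext (cmap f n).toAddMonoidHom (cmap g n).toAddMonoidHom
      (fun b hb => (les2 hX n b).1 hb)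

end BCX
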