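import Pool.Agent.BCX.Eul
import Pool.Agent.BCX.Nat
import Pool.Agent.BCX.Del
import Pool.Agent.BCX.Fil
import Pool.Agent.BCX.Fin2
import Pool.Agent.BCX.Top

/-! BCY row CHI2: the Euler characteristic is multiplicative. -/

set_option autoImplicit false

open CategoryTheory groupCohomology EssMap
open scoped commutatorElement

namespace BCX

section coh

variable {G : Type} [Group G] (θ : G →* G)

private theorem CHI2_inj {X : ShortComplex (Rep ℤ G)} (hX : X.ShortExact) :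
    Function.Injective (cmap X.f 0).toAddMonoidHom := by
  have h1 : Mono X.f := hX.mono_f
  have h2 : Mono (groupCohomology.map (MonoidHom.id G) X.f 0) := inferInstance
  exact (ModuleCat.mono_iff_injective _).1 h2

private theorem CHI2_ex2 {X : ShortComplex (Rep ℤ G)} (hX : X.ShortExact) (n : ℕ) (x : groupCohomology X.X₂ n) :
    (cmap X.g n).toAddMonoidHom x = 0 ↔ ∃ y, (cmap X.f n).toAddMonoidHom y = x := by
  have h := mapShortComplex₂_exact hX n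
  rw [ShortComplex.moduleCat_exact_iff] at h
  constructor
  · intro hx
    obtain ⟨y, hy⟩ := h x hx
    exact ⟨y, hy⟩
  · rintro ⟨y, rfl⟩
    show cmap X.g n (cmap X.f n y) = 0
    rw [← cmap_comp, X.zero, cmap_zero]
    rfl

private theorem CHI2_ex3 {X : ShortComplex (Rep ℤ G)} (hX : X.ShortExact) (i j : ℕ) (hij : i + 1 = j)
    (x : groupCohomology X.X₃ i) :
    (δ hX i j hij).hom.toAddMonoidHom x = 0 ↔ ∃ y, (cmap X.g i).toAddMonoidHom y = x := by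
  have h := mapShortComplex₃_exact hX hij
  constructor
  · intro hx
    rw [ShortComplex.moduleCat_exact_iff] at h
    obtain ⟨y, hy⟩ := h x hx
    exact ⟨y, hy⟩
  · rintro ⟨y, rfl⟩
    exact (mapShortComplex₃ hX hij).moduleCat_zero_apply y

private theorem CHI2_ex1 {X : ShortComplex (Rep ℤ G)} (hX : X.ShortExact) (i j : ℕ) (hij : i + 1 = j)
    (x : groupCohomology X.X₁ j) :
    (cmap X.f j).toAddMonoidHom x = 0 ↔ ∃ y, (δ hX i j hij).hom.toAddMonoidHom y = x := by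
  have h := mapShortComplex₁_exact hX hij
  constructor
  · intro hx
    rw [ShortComplex.moduleCat_exact_iff] at h
    obtain ⟨y, hy⟩ := h x hx
    exact ⟨y, hy⟩
  · rintro ⟨y, rfl⟩
    exact (mapShortComplex₁ hX hij).moduleCat_zero_apply y

private theorem CHI2_sub (V : Rep ℤ G) (h : Subsingleton V) (n : ℕ) :
    Subsingleton (groupCohomology V n) := by
  have h1 : (𝟙 V : V ⟶ V) = 0 := by
    apply Rep.hom_ext
    exact DFunLike.ext _ _ (fun x => h.elim _ _)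
  refine ⟨fun x y => ?_⟩
  have h2 : ∀ z : groupCohomology V n, z = 0 := by
    intro z
    have h3 : cmap (𝟙 V) n z = z := by rw [cmap_id]; rfl
    rw [h1, cmap_zero] at h3
    exact h3.symm
  rw [h2 x, h2 y]

private theorem CHI2_un_sub (V : Rep ℤ G) (hV : ∀ g, V.ρ (θ g) = V.ρ g) (h : Subsingleton V) (n : ℕ) :
    un θ V hV n = 1 := by
  have := CHI2_sub V h n
  unfold un
  exact Nat.card_eq_one_iff_unique.2 ⟨inferInstance, ⟨0⟩⟩

private theorem CHI2_good (p : ℕ) [Fact p.Prime] : Good θ p (Fm G p) where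
  fin := inferInstanceAs (Finite (ZMod p))
  pp := ⟨1, by rw [pow_one]; exact Nat.card_zmod p⟩
  pgr := fun g => ⟨0, rfl⟩
  inv := fun g => rfl

private theorem CHI2_step {X : ShortComplex (Rep ℤ G)} (hX : X.ShortExact)
    (hA : ∀ g, X.X₁.ρ (θ g) = X.X₁.ρ g) (hV : ∀ g, X.X₂.ρ (θ g) = X.X₂.ρ g)
    (hW : ∀ g, X.X₃.ρ (θ g) = X.X₃.ρ g)
    (fA : ∀ n ≤ 2, Finite (groupCohomology X.X₁ n)) (fV : ∀ n ≤ 2, Finite (groupCohomology X.X₂ n))
    (fW : ∀ n ≤ 2, Finite (groupCohomology X.X₃ n)) (k : ℕ)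
    (hk : ∀ x : groupCohomology X.X₁ 3, (TT θ X.X₁ hA 3)^[k] x = 0) :
    un θ X.X₂ hV 0 * un θ X.X₂ hV 2 * (un θ X.X₁ hA 1 * un θ X.X₃ hW 1) =
      un θ X.X₂ hV 1 * ((un θ X.X₁ hA 0 * un θ X.X₁ hA 2) *
        (un θ X.X₃ hW 0 * un θ X.X₃ hW 2)) := by
  have i1 := fA 0 (by norm_num)
  have i2 := fA 1 (by norm_num)
  have i3 := fA 2 (by norm_num)
  have i4 := fV 0 (by norm_num)
  have i5 := fV 1 (by norm_num)
  have i6 := fV 2 (by norm_num)
  have i7 := fW 0 (by norm_num)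
  have i8 := fW 1 (by norm_num)
  have i9 := fW 2 (by norm_num)
  exact euler (TT θ X.X₁ hA 0) (TT θ X.X₂ hV 0) (TT θ X.X₃ hW 0)
    (TT θ X.X₁ hA 1) (TT θ X.X₂ hV 1) (TT θ X.X₃ hW 1)
    (TT θ X.X₁ hA 2) (TT θ X.X₂ hV 2) (TT θ X.X₃ hW 2)
    (TT θ X.X₁ hA 3)
    (cmap X.f 0).toAddMonoidHom (cmap X.g 0).toAddMonoidHom (δ hX 0 1 rfl).hom.toAddMonoidHom
    (cmap X.f 1).toAddMonoidHom (cmap X.g 1).toAddMonoidHom (δ hX 1 2 rfl).hom.toAddMonoidHom
    (cmap X.f 2).toAddMonoidHom (cmap X.g 2).toAddMonoidHom (δ hX 2 3 rfl).hom.toAddMonoidHom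
    (fun x => TT_nat θ hA hV X.f 0 x) (fun x => TT_nat θ hV hW X.g 0 x)
    (fun x => TT_delta θ hX hA hV hW 0 1 rfl x)
    (fun x => TT_nat θ hA hV X.f 1 x) (fun x => TT_nat θ hV hW X.g 1 x)
    (fun x => TT_delta θ hX hA hV hW 1 2 rfl x)
    (fun x => TT_nat θ hA hV X.f 2 x) (fun x => TT_nat θ hV hW X.g 2 x)
    (fun x => TT_delta θ hX hA hV hW 2 3 rfl x)
    (CHI2_inj hX) (CHI2_ex2 hX 0) (CHI2_ex3 hX 0 1 rfl) (CHI2_ex1 hX 0 1 rfl) (CHI2_ex2 hX 1)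
    (CHI2_ex3 hX 1 2 rfl) (CHI2_ex1 hX 1 2 rfl) (CHI2_ex2 hX 2) (CHI2_ex3 hX 2 3 rfl) k hk

/-- ROW CHI (from EUL, NAT, DEL, FIN, TOP, FIL) -/
theorem chi_mul2 (hG : Dual 3 G) (ho : Ori 3 G = ⊤)
    (hinj : Function.Injective θ)
    (hfin : θ.range.FiniteIndex) (p : ℕ) [Fact p.Prime] (hp : p ∣ θ.range.index)
    (V : Rep ℤ G) (hV : Good θ p V) (n : ℕ) (hn : Nat.card V = p ^ n) :
    un θ V hV.inv 0 * un θ V hV.inv 2 * un θ (Fm G p) (Fm_inv θ p) 1 ^ n =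
      un θ V hV.inv 1 * (un θ (Fm G p) (Fm_inv θ p) 0 * un θ (Fm G p) (Fm_inv θ p) 2) ^ n := by
  have hp1 : 1 < p := (Fact.out : p.Prime).one_lt
  revert hV n hn
  have key := devissage θ p (fun V => ∀ (hV : Good θ p V) (n : ℕ), Nat.card V = p ^ n →
    un θ V hV.inv 0 * un θ V hV.inv 2 * un θ (Fm G p) (Fm_inv θ p) 1 ^ n =
      un θ V hV.inv 1 * (un θ (Fm G p) (Fm_inv θ p) 0 * un θ (Fm G p) (Fm_inv θ p) 2) ^ n) ?_ ?_
  · intro hV
    exact key V hV hV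
  · intro V hV hg n hn
    rw [CHI2_un_sub θ V hg.inv hV, CHI2_un_sub θ V hg.inv hV, CHI2_un_sub θ V hg.inv hV]
    have h1 : Nat.card V = 1 := Nat.card_eq_one_iff_unique.2 ⟨hV, ⟨0⟩⟩
    rw [h1] at hn
    have h2 : n = 0 := by
      by_contra h
      exact absurd hn (Nat.one_lt_pow h hp1).ne
    rw [h2, pow_zero, pow_zero]
  · intro V W f g w hX hV hW hc ih hV' n hn
    obtain ⟨n', hn'⟩ := hW.pp
    have h1 : n = n' + 1 := by
      rw [hn, hn', ← pow_succ'] at hc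
      exact Nat.pow_right_injective hp1 hc
    have h2 := ih hW n' hn'
    obtain ⟨k, hk⟩ := top_nil θ hG ho hinj hfin p hp (Fm G p) (CHI2_good θ p)
    have h3 := CHI2_step θ hX (CHI2_good θ p).inv hV'.inv hW.inv
      (fun n hn => fin_coh2 θ hG ho p (Fm G p) (CHI2_good θ p) n hn)
      (fun n hn => fin_coh2 θ hG ho p V hV n hn)
      (fun n hn => fin_coh2 θ hG ho p W hW n hn) k hk
    have h4 : 0 < un θ W hW.inv 1 := by
      have := fin_coh2 θ hG ho p W hW 1 (by norm_num)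
      unfold un
      exact Nat.card_pos
    rw [h1]
    have h5 : ∀ A0 A1 A2 B0 B1 B2 C0 C1 C2 : ℕ, 0 < C1 → C0 * C2 * A1 ^ n' = C1 * (A0 * A2) ^ n' →
        B0 * B2 * (A1 * C1) = B1 * (A0 * A2 * (C0 * C2)) →
        B0 * B2 * A1 ^ (n' + 1) = B1 * (A0 * A2) ^ (n' + 1) := by
      intro A0 A1 A2 B0 B1 B2 C0 C1 C2 h4 h2 h3
      apply Nat.eq_of_mul_eq_mul_right h4
      calc B0 * B2 * A1 ^ (n' + 1) * C1 = (B0 * B2 * (A1 * C1)) * A1 ^ n' := by ring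
        _ = B1 * (A0 * A2) * (C0 * C2 * A1 ^ n') := by rw [h3]; ring
        _ = B1 * (A0 * A2) * (C1 * (A0 * A2) ^ n') := by rw [h2]
        _ = B1 * (A0 * A2) ^ (n' + 1) * C1 := by ring
    exact h5 _ _ _ _ _ _ _ _ _ h4 h2 h3

end coh

end BCX
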