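import Pool.Agent.BCX.Defs

/-!
# The Euler characteristic is at least one: the statement `chi_pos` with `chi_mul` and the
finiteness of the second cohomology as hypotheses
-/

set_option autoImplicit false

open CategoryTheory groupCohomology EssMap
open scoped commutatorElement

namespace BCX

private theorem CHP_arith (X Y C : ℕ) (h : ∀ k : ℕ, Y ^ k ≤ C * X ^ k) : Y ≤ X := by
  by_contra hlt
  rw [not_le] at hlt
  rcases Nat.eq_zero_or_pos X with h0 | h0
  · have h1 := h 1
    rw [h0] at h1 hlt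
    simp at h1
    omega
  · have h2 : (1 : ℚ) < (Y : ℚ) / X := by
      rw [one_lt_div (by exact_mod_cast h0)]
      exact_mod_cast hlt
    obtain ⟨n, hn⟩ := pow_unbounded_of_one_lt (C : ℚ) h2
    rw [div_pow, lt_div_iff₀ (by positivity)] at hn
    have h3 := h n
    have h4 : (Y : ℚ) ^ n ≤ C * X ^ n := by exact_mod_cast h3
    linarith

private theorem CHP_comm {G : Type} [Group G] {A : Type} [AddCommGroup A]
    (f : Additive G →+ A) (x : G) (hx : x ∈ commutator G) : f (Additive.ofMul x) = 0 := by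
  let F : G →* Multiplicative A := MonoidHom.mk'
    (fun g => Multiplicative.ofAdd (f (Additive.ofMul g))) (fun g h => by
      rw [ofMul_mul, map_add, ofAdd_add])
  have h1 : F x = 1 := Abelianization.commutator_subset_ker F hx
  exact Multiplicative.ofAdd.injective h1

private theorem CHP_hom {G : Type} [Group G] [Group.FG G]
    (hb : ∀ c : G →* Multiplicative ℤ, c = 1) :
    ∃ C : ℕ, ∀ m : ℕ, 0 < m → Finite (Additive G →+ ZMod m) ∧
      Nat.card (Additive G →+ ZMod m) ≤ C := by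
  classical
  obtain ⟨r, g, hg⟩ := exists_gens (G := G)
  have h1 : ∀ i, ∃ m : ℕ, 0 < m ∧ (g i) ^ m ∈ commutator G := fun i =>
    pow_mem_commutator (g i) (fun a => by rw [hb a]; rfl)
  choose e he hc using h1
  refine ⟨∏ i, e i, fun m hm => ?_⟩
  have : NeZero m := ⟨hm.ne'⟩
  let T : (Additive G →+ ZMod m) → ∀ i, {y : ZMod m // e i • y = 0} := fun f i =>
    ⟨f (Additive.ofMul (g i)), by
      rw [← map_nsmul, ← ofMul_pow]
      exact CHP_comm f _ (hc i)⟩
  have h3 : Function.Injective T := by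
    intro f f' hff
    have h4 : ∀ i, f (Additive.ofMul (g i)) = f' (Additive.ofMul (g i)) := fun i =>
      congrArg Subtype.val (congrFun hff i)
    let S : Subgroup G :=
      { carrier := {x | f (Additive.ofMul x) = f' (Additive.ofMul x)}
        one_mem' := by simp
        mul_mem' := by
          intro a b ha hb
          simp only [Set.mem_ofPred_eq] at ha hb ⊢
          rw [ofMul_mul, map_add, map_add, ha, hb]
        inv_mem' := by
          intro a ha
          simp only [Set.mem_ofPred_eq] at ha ⊢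
          rw [ofMul_inv, map_neg, map_neg, ha] }
    have h5 : (⊤ : Subgroup G) ≤ S := by
      rw [← hg, Subgroup.closure_le]
      rintro _ ⟨i, rfl⟩
      exact h4 i
    ext x
    exact h5 (Subgroup.mem_top (Additive.toMul x))
  have h6 : ∀ i, Nat.card {y : ZMod m // e i • y = 0} ≤ e i := by
    intro i
    have h7 := IsAddCyclic.card_nsmul_eq_zero_le (α := ZMod m) (he i)
    rw [Nat.card_eq_fintype_card, Fintype.card_subtype]
    exact h7
  have h8 : Nat.card (∀ i, {y : ZMod m // e i • y = 0}) ≤ ∏ i, e i := by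
    rw [Nat.card_pi]
    exact Finset.prod_le_prod' (fun i _ => h6 i)
  exact ⟨Finite.of_injective T h3, (Nat.card_le_card_of_injective T h3).trans h8⟩

variable {G : Type} [Group G] (θ : G →* G)

private theorem CHP_T0 (V : Rep ℤ G) (hV : ∀ g, V.ρ (θ g) = V.ρ g) (x : groupCohomology V 0) :
    TT θ V hV 0 x = x := by
  have h := map_H0Iso_hom_f_apply (f := θ) (φ := tw θ V hV) x
  have hi : Function.Injective (fun y : groupCohomology V 0 =>
      (shortComplexH0 V).f ((H0Iso V).hom y)) := by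
    intro a b hab
    have h1 : (H0Iso V).hom a = (H0Iso V).hom b := Subtype.ext hab
    have h2 := congrArg (H0Iso V).inv h1
    simpa using h2
  exact hi h

private theorem CHP_un0 (m : ℕ) :
    un θ (Fm G m) (Fm_inv θ m) 0 = Nat.card (ZMod m) := by
  have h1 : st (TT θ (Fm G m) (Fm_inv θ m) 0) = ⊤ := by
    rw [eq_top_iff]
    intro x _ k
    refine ⟨x, ?_⟩
    induction k with
    | zero => rfl
    | succ k ih => rw [Function.iterate_succ_apply, CHP_T0, ih]
  unfold un
  rw [h1]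
  have e1 : (⊤ : AddSubgroup (groupCohomology (Fm G m) 0)) ≃ groupCohomology (Fm G m) 0 :=
    AddSubgroup.topEquiv.toEquiv
  have e2 : groupCohomology (Fm G m) 0 ≃ ZMod m :=
    (H0IsoOfIsTrivial (Fm G m)).toLinearEquiv.toEquiv
  exact Nat.card_congr (e1.trans e2)

theorem chi_pos_of (hG : Dual 3 G) (p : ℕ) [Fact p.Prime]
    (hchi : ∀ (V : Rep ℤ G) (hV : Good θ p V) (n : ℕ), Nat.card V = p ^ n →
      un θ V hV.inv 0 * un θ V hV.inv 2 * un θ (Fm G p) (Fm_inv θ p) 1 ^ n =
        un θ V hV.inv 1 * (un θ (Fm G p) (Fm_inv θ p) 0 * un θ (Fm G p) (Fm_inv θ p) 2) ^ n)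
    (hfc : ∀ V : Rep ℤ G, Good θ p V → Finite (groupCohomology V 2))
    (hb : ∀ c : G →* Multiplicative ℤ, c = 1) :
    un θ (Fm G p) (Fm_inv θ p) 1 * p ≤
      un θ (Fm G p) (Fm_inv θ p) 0 * un θ (Fm G p) (Fm_inv θ p) 2 := by
  have hfg := hG.fg
  obtain ⟨C, hC⟩ := CHP_hom hb
  apply CHP_arith _ _ C
  intro k
  have hp0 : 0 < p ^ k := pow_pos (Fact.out (p := p.Prime)).pos k
  have : NeZero (p ^ k) := ⟨hp0.ne'⟩
  have hV : Good θ p (Fm G (p ^ k)) :=
    { fin := inferInstanceAs (Finite (ZMod (p ^ k)))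
      pp := ⟨k, Nat.card_zmod _⟩
      pgr := fun g => ⟨0, rfl⟩
      inv := Fm_inv θ _ }
  have h1 := hchi (Fm G (p ^ k)) hV k (Nat.card_zmod _)
  have h2 : un θ (Fm G (p ^ k)) hV.inv 0 = p ^ k := by
    rw [CHP_un0, Nat.card_zmod]
  have h3 : un θ (Fm G (p ^ k)) hV.inv 1 ≤ C := by
    obtain ⟨hF, hCk⟩ := hC (p ^ k) hp0
    have e : groupCohomology (Fm G (p ^ k)) 1 ≃ (Additive G →+ ZMod (p ^ k)) :=
      (H1IsoOfIsTrivial (Fm G (p ^ k))).toLinearEquiv.toEquiv
    have hF1 : Finite (groupCohomology (Fm G (p ^ k)) 1) := Finite.of_equiv _ e.symm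
    have h4 : Nat.card (groupCohomology (Fm G (p ^ k)) 1) ≤ C := by
      rw [Nat.card_congr e]
      exact hCk
    exact (Nat.card_le_card_of_injective (Subtype.val) Subtype.val_injective).trans h4
  have h5 : 1 ≤ un θ (Fm G (p ^ k)) hV.inv 2 := by
    have hF2 := hfc (Fm G (p ^ k)) hV
    exact Nat.card_pos
  rw [h2] at h1
  calc (un θ (Fm G p) (Fm_inv θ p) 1 * p) ^ k
      = p ^ k * 1 * un θ (Fm G p) (Fm_inv θ p) 1 ^ k := by rw [mul_pow, mul_one, mul_comm]
    _ ≤ p ^ k * un θ (Fm G (p ^ k)) hV.inv 2 * un θ (Fm G p) (Fm_inv θ p) 1 ^ k := by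
        gcongr
    _ = un θ (Fm G (p ^ k)) hV.inv 1 *
        (un θ (Fm G p) (Fm_inv θ p) 0 * un θ (Fm G p) (Fm_inv θ p) 2) ^ k := h1
    _ ≤ C * (un θ (Fm G p) (Fm_inv θ p) 0 * un θ (Fm G p) (Fm_inv θ p) 2) ^ k := by
        gcongr

end BCX
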