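import Pool.Agent.BCX.Defs3

/-!
# Cochains in the degrees two and three and cohomology classes
-/

set_option autoImplicit false

open CategoryTheory groupCohomology EssMap

namespace BCX

section gen

variable {G : Type} [Group G] (A : Rep ℤ G)

theorem pi_zero (n : ℕ) (z : cocycles A (n + 1)) (h : π A (n + 1) z = 0) :
    ∃ b : (Fin n → G) → A, inhomogeneousCochains.d A n b = iCocycles A (n + 1) z := by
  let K := inhomogeneousCochains A
  let S : ShortComplex (ModuleCat ℤ) := ShortComplex.mk (K.toCycles n (n + 1))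
    (K.homologyπ (n + 1)) (K.toCycles_comp_homologyπ n (n + 1))
  have hS : S.Exact := ShortComplex.exact_of_g_is_cokernel S
    (K.homologyIsCokernel n (n + 1) (by simp))
  rw [ShortComplex.moduleCat_exact_iff] at hS
  obtain ⟨b, hb⟩ := hS z h
  refine ⟨b, ?_⟩
  have h1 : K.toCycles n (n + 1) ≫ K.iCycles (n + 1) = K.d n (n + 1) := K.toCycles_i _ _
  have h2 := congrArg (fun F => F.hom b) h1
  have h3 : iCocycles A (n + 1) ((K.toCycles n (n + 1)).hom b) = (K.d n (n + 1)).hom b := h2
  have h4 : (K.toCycles n (n + 1)).hom b = z := hb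
  rw [h4] at h3
  rw [h3]
  exact congrArg (fun F => F.hom b) (inhomogeneousCochains.d_def A n).symm

theorem pi_d (n : ℕ) (b : (Fin n → G) → A) (c : (Fin (n + 1) → G) → A)
    (hc : inhomogeneousCochains.d A (n + 1) c = 0)
    (h : inhomogeneousCochains.d A n b = c) : π A (n + 1) (cocyclesMk c hc) = 0 := by
  let K := inhomogeneousCochains A
  have h1 : K.toCycles n (n + 1) ≫ K.iCycles (n + 1) = K.d n (n + 1) := K.toCycles_i _ _
  have h2 := congrArg (fun F => F.hom b) h1
  have h3 : iCocycles A (n + 1) ((K.toCycles n (n + 1)).hom b) = (K.d n (n + 1)).hom b := h2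
  have h5 : (K.d n (n + 1)).hom b = c := by
    rw [← h]
    exact congrArg (fun F => F.hom b) (inhomogeneousCochains.d_def A n)
  have h4 : (K.toCycles n (n + 1)).hom b = cocyclesMk c hc := by
    apply iCocycles_inj
    rw [iCocycles_mk, h3, h5]
  have h6 := congrArg (fun F => F.hom b) (K.toCycles_comp_homologyπ n (n + 1))
  have h7 : π A (n + 1) ((K.toCycles n (n + 1)).hom b) = 0 := h6
  rw [h4] at h7
  exact h7

end gen

variable {X : Type} [Group X] {B : Type} [AddCommGroup B]

/-- uncurried cochains -/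
def u2 (c : X → X → B) : (Fin 2 → X) → B := fun g => c (g 0) (g 1)

/-- uncurried cochains -/
def u3 (c : X → X → X → B) : (Fin 3 → X) → B := fun g => c (g 0) (g 1) (g 2)

theorem d1_apply (b : X → B) (g : Fin 2 → X) :
    (inhomogeneousCochains.d (Rep.trivial ℤ X B) 1 (fun g => b (g 0)) : (Fin 2 → X) → B) g =
      b (g 1) - b (g 0 * g 1) + b (g 0) := by
  rw [d_trivB, Fin.sum_univ_two]
  simp [Fin.contractNth]
  abel

theorem d2_apply (c : X → X → B) (g : Fin 3 → X) :
    (inhomogeneousCochains.d (Rep.trivial ℤ X B) 2 (u2 c) : (Fin 3 → X) → B) g =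
      c (g 1) (g 2) - c (g 0 * g 1) (g 2) + c (g 0) (g 1 * g 2) - c (g 0) (g 1) := by
  rw [d_trivB, Fin.sum_univ_three]
  simp [u2, Fin.contractNth]
  abel

theorem d3_apply (c : X → X → X → B) (g : Fin 4 → X) :
    (inhomogeneousCochains.d (Rep.trivial ℤ X B) 3 (u3 c) : (Fin 4 → X) → B) g =
      c (g 1) (g 2) (g 3) - c (g 0 * g 1) (g 2) (g 3) + c (g 0) (g 1 * g 2) (g 3) -
        c (g 0) (g 1) (g 2 * g 3) + c (g 0) (g 1) (g 2) := by
  rw [d_trivB, Fin.sum_univ_four]
  simp [u3, Fin.contractNth]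
  abel

theorem ext1 (b : (Fin 1 → X) → B) : b = fun g => (fun x => b (fun _ => x)) (g 0) := by
  funext g
  show b g = b (fun _ => g 0)
  congr 1
  funext i
  rw [Subsingleton.elim i 0]

theorem ext2 (b : (Fin 2 → X) → B) : b = u2 (fun x y => b ![x, y]) := by
  funext g
  show b g = b ![g 0, g 1]
  congr 1
  funext i
  fin_cases i <;> rfl

theorem z2_iff (c : X → X → B) :
    inhomogeneousCochains.d (Rep.trivial ℤ X B) 2 (u2 c) = 0 ↔ IsZ2 c := by
  constructor
  · intro h g k l
    have h1 := d2_apply c ![g, k, l]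
    rw [h] at h1
    exact h1.symm
  · intro h
    funext g
    refine (d2_apply c g).trans ?_
    exact h _ _ _

theorem z3_iff (c : X → X → X → B) :
    inhomogeneousCochains.d (Rep.trivial ℤ X B) 3 (u3 c) = 0 ↔ IsZ3 c := by
  constructor
  · intro h g k l m
    have h1 := d3_apply c ![g, k, l, m]
    rw [h] at h1
    exact h1.symm
  · intro h
    funext g
    refine (d3_apply c g).trans ?_
    exact h _ _ _ _

/-- the class of a two-cocycle -/
noncomputable def k2 (c : X → X → B) (hc : IsZ2 c) : groupCohomology (Rep.trivial ℤ X B) 2 :=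
  clsB (u2 c) ((z2_iff c).2 hc)

/-- the class of a three-cocycle -/
noncomputable def k3 (c : X → X → X → B) (hc : IsZ3 c) :
    groupCohomology (Rep.trivial ℤ X B) 3 :=
  clsB (u3 c) ((z3_iff c).2 hc)

theorem k2_zero (c : X → X → B) (hc : IsZ2 c) : k2 c hc = 0 ↔ IsB2 c := by
  constructor
  · intro h
    obtain ⟨b, hb⟩ := pi_zero (Rep.trivial ℤ X B) 1 _ h
    rw [iCocycles_mk] at hb
    refine ⟨fun x => b (fun _ => x), fun g k => ?_⟩
    have h1 := d1_apply (fun x => b (fun _ => x)) ![g, k]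
    rw [← ext1 b, hb] at h1
    exact h1
  · rintro ⟨b, hb⟩
    refine pi_d (Rep.trivial ℤ X B) 1 (fun g => b (g 0)) _ _ ?_
    funext g
    refine (d1_apply b g).trans ?_
    exact (hb _ _).symm

theorem k3_zero (c : X → X → X → B) (hc : IsZ3 c) : k3 c hc = 0 ↔ IsB3 c := by
  constructor
  · intro h
    obtain ⟨b, hb⟩ := pi_zero (Rep.trivial ℤ X B) 2 _ h
    rw [iCocycles_mk] at hb
    refine ⟨fun x y => b ![x, y], fun g k l => ?_⟩
    have h1 := d2_apply (fun x y => b ![x, y]) ![g, k, l]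
    rw [← ext2 b, hb] at h1
    exact h1
  · rintro ⟨b, hb⟩
    refine pi_d (Rep.trivial ℤ X B) 2 (u2 b) _ _ ?_
    funext g
    refine (d2_apply b g).trans ?_
    exact (hb _ _ _).symm

theorem k2_surj (x : groupCohomology (Rep.trivial ℤ X B) 2) :
    ∃ (c : X → X → B) (hc : IsZ2 c), k2 c hc = x := by
  induction x using groupCohomology_induction_on with
  | h z =>
    let f : (Fin 2 → X) → B := iCocycles (Rep.trivial ℤ X B) 2 z
    have hf : inhomogeneousCochains.d (Rep.trivial ℤ X B) 2 f = 0 := d_iCocycles _ 2 z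
    have h1 : f = u2 (fun x y => f ![x, y]) := ext2 f
    refine ⟨fun x y => f ![x, y], (z2_iff _).1 (by rw [← h1]; exact hf), ?_⟩
    unfold k2 clsB
    congr 1
    rw [eq_cocyclesMk _ 2 z]
    congr 1
    exact h1.symm

theorem ext3 (b : (Fin 3 → X) → B) : b = u3 (fun x y z => b ![x, y, z]) := by
  funext g
  show b g = b ![g 0, g 1, g 2]
  congr 1
  funext i
  fin_cases i <;> rfl

theorem k3_surj (x : groupCohomology (Rep.trivial ℤ X B) 3) :
    ∃ (c : X → X → X → B) (hc : IsZ3 c), k3 c hc = x := by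
  induction x using groupCohomology_induction_on with
  | h z =>
    let f : (Fin 3 → X) → B := iCocycles (Rep.trivial ℤ X B) 3 z
    have hf : inhomogeneousCochains.d (Rep.trivial ℤ X B) 3 f = 0 := d_iCocycles _ 3 z
    have h1 : f = u3 (fun x y z => f ![x, y, z]) := ext3 f
    refine ⟨fun x y z => f ![x, y, z], (z3_iff _).1 (by rw [← h1]; exact hf), ?_⟩
    unfold k3 clsB
    congr 1
    rw [eq_cocyclesMk _ 3 z]
    congr 1
    exact h1.symm

theorem clsB_add {j : ℕ} (c d : (Fin j → X) → B)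
    (hc : inhomogeneousCochains.d (Rep.trivial ℤ X B) j c = 0)
    (hd : inhomogeneousCochains.d (Rep.trivial ℤ X B) j d = 0)
    (he : inhomogeneousCochains.d (Rep.trivial ℤ X B) j (c + d) = 0) :
    clsB (c + d) he = clsB c hc + clsB d hd := by
  unfold clsB
  rw [← map_add]
  congr 1
  apply iCocycles_inj
  rw [map_add, iCocycles_mk, iCocycles_mk, iCocycles_mk]

theorem IsZ3.add {c d : X → X → X → B} (hc : IsZ3 c) (hd : IsZ3 d) : IsZ3 (c + d) := by
  intro g h k l
  have h1 := hc g h k l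
  have h2 := hd g h k l
  show (c h k l + d h k l) - (c (g * h) k l + d (g * h) k l) +
    (c g (h * k) l + d g (h * k) l) - (c g h (k * l) + d g h (k * l)) +
    (c g h k + d g h k) = 0
  have h3 : (c h k l - c (g * h) k l + c g (h * k) l - c g h (k * l) + c g h k) +
    (d h k l - d (g * h) k l + d g (h * k) l - d g h (k * l) + d g h k) = 0 := by
    rw [h1, h2, add_zero]
  rw [← h3]
  abel

theorem IsZ2.add {c d : X → X → B} (hc : IsZ2 c) (hd : IsZ2 d) : IsZ2 (c + d) := by
  intro g h k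
  have h1 := hc g h k
  have h2 := hd g h k
  show (c h k + d h k) - (c (g * h) k + d (g * h) k) +
    (c g (h * k) + d g (h * k)) - (c g h + d g h) = 0
  have h3 : (c h k - c (g * h) k + c g (h * k) - c g h) +
    (d h k - d (g * h) k + d g (h * k) - d g h) = 0 := by
    rw [h1, h2, add_zero]
  rw [← h3]
  abel

theorem k3_add (c d : X → X → X → B) (hc : IsZ3 c) (hd : IsZ3 d) :
    k3 (c + d) (hc.add hd) = k3 c hc + k3 d hd :=
  clsB_add (u3 c) (u3 d) _ _ _

theorem k2_add (c d : X → X → B) (hc : IsZ2 c) (hd : IsZ2 d) :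
    k2 (c + d) (hc.add hd) = k2 c hc + k2 d hd :=
  clsB_add (u2 c) (u2 d) _ _ _

end BCX
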