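import Mathlib

/-!
# A nilpotent group with few characters on its `p`-subgroups is cyclic
-/

set_option autoImplicit false

namespace BCX

private theorem cyp_hom {p : ℕ} [hp : Fact p.Prime] {S : Type} [Group S] [Finite S]
    (hS : IsPGroup p S) (H : Subgroup S) (hH : H ≠ ⊤) :
    ∃ f : S →* Multiplicative (ZMod p), f ≠ 1 ∧ ∀ h ∈ H, f h = 1 := by
  obtain ⟨N, hN⟩ := IsPGroup.iff_card.1 hS
  obtain ⟨n, hn⟩ := IsPGroup.iff_card.1 (hS.to_subgroup H)
  have hlt : n < N := by
    by_contra hle
    rw [not_lt] at hle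
    apply hH
    apply Subgroup.eq_top_of_le_card
    rw [hN, hn]
    exact Nat.pow_le_pow_right hp.out.pos hle
  obtain ⟨M, rfl⟩ : ∃ M, N = M + 1 := ⟨N - 1, by omega⟩
  obtain ⟨K, hK, hHK⟩ := Sylow.exists_subgroup_card_pow_prime_le p (n := n) (m := M)
    (by rw [hN]; exact pow_dvd_pow p (by omega)) H hn (by omega)
  have hidx : K.index = p := by
    have h1 := K.card_mul_index
    rw [hK, hN, pow_succ] at h1
    exact Nat.eq_of_mul_eq_mul_left (pow_pos hp.out.pos M) h1
  have hnorm : K.Normal := by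
    apply Subgroup.normal_of_index_eq_minFac_card
    rw [hidx, hN, Nat.Prime.pow_minFac hp.out (Nat.succ_ne_zero M)]
  have hc1 : Nat.card (S ⧸ K) = p := hidx
  have hc2 : Nat.card (Multiplicative (ZMod p)) = p := by
    rw [Nat.card_congr Multiplicative.toAdd, Nat.card_zmod]
  let e : S ⧸ K ≃* Multiplicative (ZMod p) := mulEquivOfPrimeCardEq hc1 hc2
  refine ⟨e.toMonoidHom.comp (QuotientGroup.mk' K), ?_, ?_⟩
  · intro h1
    have hne : K ≠ ⊤ := by
      intro h
      rw [h, Subgroup.index_top] at hidx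
      exact hp.out.one_lt.ne hidx
    apply hne
    rw [eq_top_iff]
    intro s _
    have h2 := DFunLike.congr_fun h1 s
    have h3 : e (QuotientGroup.mk' K s) = 1 := h2
    rw [map_eq_one_iff e e.injective] at h3
    exact (QuotientGroup.eq_one_iff s).1 h3
  · intro h hh
    show e (QuotientGroup.mk' K h) = 1
    have : QuotientGroup.mk' K h = 1 := (QuotientGroup.eq_one_iff h).2 (hHK hh)
    rw [this, map_one]

private theorem cyp_cyclic {p : ℕ} [hp : Fact p.Prime] {S : Type} [Group S] [Finite S]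
    (hS : IsPGroup p S) (hc : Nat.card (S →* Multiplicative (ZMod p)) ≤ p) : IsCyclic S := by
  classical
  rcases subsingleton_or_nontrivial S with hs | hs
  · exact isCyclic_of_subsingleton
  obtain ⟨f, hf, -⟩ := cyp_hom hS ⊥ bot_ne_top
  obtain ⟨x, hx⟩ : ∃ x, f x ≠ 1 := by
    by_contra hcon
    push Not at hcon
    exact hf (MonoidHom.ext hcon)
  have hpow : ∀ y : Multiplicative (ZMod p), y ^ p = 1 := by
    intro y
    apply Multiplicative.toAdd.injective
    rw [toAdd_pow, toAdd_one, nsmul_eq_mul, CharP.cast_eq_zero, zero_mul]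
  have hfp : f ^ p = 1 := by
    ext s
    rw [MonoidHom.pow_apply, hpow]
    rfl
  have hof : orderOf f = p := orderOf_eq_prime hfp hf
  have hfin : Finite (S →* Multiplicative (ZMod p)) :=
    Finite.of_injective (fun g : S →* Multiplicative (ZMod p) => (g : S → Multiplicative (ZMod p)))
      DFunLike.coe_injective
  have htop : Subgroup.zpowers f = ⊤ := by
    apply Subgroup.eq_top_of_le_card
    rw [Nat.card_zpowers, hof]
    exact hc
  refine ⟨x, fun s => ?_⟩
  by_contra hs'
  have hne : Subgroup.zpowers x ≠ ⊤ := by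
    intro h
    apply hs'
    have : s ∈ Subgroup.zpowers x := by rw [h]; trivial
    exact this
  obtain ⟨f', hf', hf'x⟩ := cyp_hom hS (Subgroup.zpowers x) hne
  have hmem : f' ∈ Subgroup.zpowers f := by rw [htop]; trivial
  obtain ⟨j, hj⟩ := Subgroup.mem_zpowers_iff.1 hmem
  have h1 : (f x) ^ j = 1 := by
    have := hf'x x (Subgroup.mem_zpowers x)
    rw [← hj] at this
    exact this
  have hofx : orderOf (f x) = p := orderOf_eq_prime (hpow _) hx
  have h2 : (p : ℤ) ∣ j := by
    rw [← hofx]
    exact orderOf_dvd_iff_zpow_eq_one.2 h1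
  apply hf'
  rw [← hj]
  rw [← hof] at h2
  exact orderOf_dvd_iff_zpow_eq_one.1 h2

/-- ROW CYP: a nilpotent group with few characters on its p-subgroups is cyclic -/
theorem cyclic_of {F : Type} [Group F] [Finite F] (hn : Group.IsNilpotent F)
    (h : ∀ p : ℕ, Fact p.Prime → ∀ S : Subgroup F, IsPGroup p S →
      Nat.card (S →* Multiplicative (ZMod p)) ≤ p) : IsCyclic F := by
  have hz : IsZGroup F := by
    refine ⟨fun p hp P => ?_⟩
    have : Fact p.Prime := ⟨hp⟩
    exact cyp_cyclic P.isPGroup' (h p this P P.isPGroup')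
  infer_instance

end BCX
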