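import Pool.Agent.BCX.C2E
import Pool.Agent.BCX.C1E

/-!
# Dimension three, complete
-/

set_option autoImplicit false

open CategoryTheory groupCohomology EssMap
open scoped commutatorElement

namespace BCX


/-- the standing assumptions hold on small invariant subgroups -/
theorem mkSt3 {Q : Type} [Group Q] (hQ : Dual 3 Q) (hfp : Group.IsFinitelyPresented Q)
    (φ : Q →* Q) (hinj : Function.Injective φ) (hfin : φ.range.FiniteIndex)
    (hcap : ∀ q : Q, (∀ k : ℕ, q ∈ Set.range (φ^[k])) → q = 1)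
    (hno : ¬ ∃ N : Subgroup Q, N.FiniteIndex ∧ Group.IsNilpotent N)
    (G : Subgroup Q) (hG : G.FiniteIndex) (hφ : ∀ x ∈ G, φ x ∈ G) (ho : Ori 3 G = ⊤) :
    St3 G (rst φ G hφ) where
  dual := hQ.sub G
  ori := ho
  inj := rst_inj hinj G hφ
  fin := rst_fin hinj hfin G hG hφ
  cap := by
    intro g hg
    apply Subtype.ext
    apply hcap
    intro k
    obtain ⟨y, hy⟩ := hg k
    refine ⟨(y : Q), ?_⟩
    rw [← itr_eq_iterate, ← itr_rst φ G hφ, itr_eq_iterate, hy]
  aut := by
    intro m X hX hm hXf c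
    by_contra hc
    push Not at hc
    apply hno
    let Y : Subgroup Q := X.map G.subtype
    have hYf : Y.FiniteIndex := by
      constructor
      show (X.map G.subtype).index ≠ 0
      rw [Subgroup.index_map_subtype]
      exact mul_ne_zero hXf.index_ne_zero hG.index_ne_zero
    let e : X ≃* Y := X.equivMapOfInjective G.subtype (Subgroup.subtype_injective G)
    have he : ∀ x : X, ((e x : Y) : Q) = ((x : G) : Q) := fun x =>
      Subgroup.coe_equivMapOfInjective_apply X G.subtype (Subgroup.subtype_injective G) x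
    have hY : ∀ x ∈ Y, itr φ m x ∈ Y := by
      rintro _ ⟨x, hx, rfl⟩
      refine ⟨itr (rst φ G hφ) m x, hX x hx, ?_⟩
      exact itr_rst φ G hφ m x
    have hcapm : ∀ q : Q, (∀ k : ℕ, q ∈ Set.range ((itr φ m)^[k])) → q = 1 := fun q hq =>
      hcap q (mem_range_iter φ m hm q hq)
    refine dim_three_full hQ hfp (itr φ m) (itr_inj hinj m)
      (itr_range_finiteIndex hinj hfin m) hcapm Y hYf hY ⟨c.comp e.symm.toMonoidHom, ?_⟩
    intro f
    obtain ⟨g, hg⟩ := hc (f.comp e.toMonoidHom)
    refine ⟨e g, fun h => hg ?_⟩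
    have h1 : c (e.symm (e g)) = c g := by rw [e.symm_apply_apply]
    have h2 : (⟨itr φ m (e g), hY (e g) (e g).2⟩ : Y) =
        e (rst (itr (rst φ G hφ) m) X hX g) := by
      apply Subtype.ext
      show itr φ m ((e g : Y) : Q) = _
      rw [he g, he (rst (itr (rst φ G hφ) m) X hX g), rst_coe, itr_rst]
    rw [h2] at h
    exact h.trans h1

/-- ROW D3 -/
theorem dim3 {Q : Type} [Group Q] (hQ : Dual 3 Q) (hfp : Group.IsFinitelyPresented Q)
    (φ : Q →* Q) (hinj : Function.Injective φ) (hfin : φ.range.FiniteIndex)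
    (hcap : ∀ q : Q, (∀ k : ℕ, q ∈ Set.range (φ^[k])) → q = 1) :
    ∃ N : Subgroup Q, N.FiniteIndex ∧ Group.IsNilpotent N := by
  by_contra hno
  have hfg := hQ.fg
  have hD : φ.range.index ≠ 1 := by
    intro h
    apply hno
    have htop : φ.range = ⊤ := Subgroup.index_eq_one.1 h
    have hsub : ∀ q : Q, q = 1 := fun q => hcap q (fun k =>
      (MonoidHom.range_eq_top.1 htop).iterate k q)
    have : Subsingleton Q := ⟨fun a b => (hsub a).trans (hsub b).symm⟩
    exact ⟨⊤, inferInstance, inferInstance⟩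
  by_cases hT : ∃ S : Subgroup Q, S.FiniteIndex ∧ Two S
  · obtain ⟨S, hS, hS2⟩ := hT
    obtain ⟨G, hG, hGS, hφ, ho⟩ := reduce hQ φ S hS
    have hs := mkSt3 hQ hfp φ hinj hfin hcap hno G hG hφ ho
    refine case2 (rst φ G hφ) hs (by rw [rst_index hinj G hG hφ]; exact hD) ?_
    apply Two.descend (Subgroup.inclusion hGS) _ hS2
    rw [Subgroup.inclusion_range]
    infer_instance
  · obtain ⟨Y, hY, c, hc⟩ := b1_pos hQ φ hinj hfin hD
    obtain ⟨G, hG, hGY, hφ, ho⟩ := reduce hQ φ Y hY
    have hs := mkSt3 hQ hfp φ hinj hfin hcap hno G hG hφ ho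
    refine case1 (fp_sub hfp G hG) (rst φ G hφ) hs
      (by rw [rst_index hinj G hG hφ]; exact hD) ?_ (c.comp (Subgroup.inclusion hGY))
      (res_ne Y G hG hGY c hc)
    intro X _ j hj hjf hX
    apply hT
    have hinc : (G.subtype.comp j).range.FiniteIndex :=
      range_comp_fin _ _ (Subgroup.subtype_injective _) hjf (range_sub G hG)
    refine ⟨(G.subtype.comp j).range, hinc, ?_⟩
    apply hX.descend (MonoidHom.ofInjective
      (show Function.Injective (G.subtype.comp j) from
        (Subgroup.subtype_injective _).comp hj)).symm.toMonoidHom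
    rw [MonoidHom.range_eq_top.2 (MulEquiv.surjective _)]
    infer_instance

end BCX
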