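import Pool.Agent.EssMap.DimF
import Pool.Agent.PCN.Series

/-!
# Stable and nilpotent parts, definitions
-/

set_option autoImplicit false

open CategoryTheory groupCohomology EssMap
open scoped commutatorElement

namespace BCX

/-- the stable part of an endomorphism -/
def st {W : Type*} [AddCommGroup W] (T : W →+ W) : AddSubgroup W where
  carrier := {x | ∀ k : ℕ, ∃ y, T^[k] y = x}
  zero_mem' := fun k => ⟨0, iterate_map_zero T k⟩
  add_mem' := by
    intro a b ha hb k
    obtain ⟨y, rfl⟩ := ha k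
    obtain ⟨z, rfl⟩ := hb k
    exact ⟨y + z, iterate_map_add T k y z⟩
  neg_mem' := by
    intro a ha k
    obtain ⟨y, rfl⟩ := ha k
    exact ⟨-y, iterate_map_neg T k y⟩

/-- the nilpotent part of an endomorphism -/
def nl {W : Type*} [AddCommGroup W] (T : W →+ W) : AddSubgroup W where
  carrier := {x | ∃ k : ℕ, T^[k] x = 0}
  zero_mem' := ⟨0, rfl⟩
  add_mem' := by
    rintro a b ⟨k, hk⟩ ⟨l, hl⟩
    refine ⟨k + l, ?_⟩
    rw [iterate_map_add]
    have h1 : T^[k + l] a = 0 := by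
      rw [add_comm, Function.iterate_add_apply, hk, iterate_map_zero]
    have h2 : T^[k + l] b = 0 := by
      rw [Function.iterate_add_apply, hl, iterate_map_zero]
    rw [h1, h2, add_zero]
  neg_mem' := by
    rintro a ⟨k, hk⟩
    exact ⟨k, by rw [iterate_map_neg, hk, neg_zero]⟩

/-- the homomorphisms to the field with `p` elements that die on some `θ^k(X)` -/
def nlA {X : Type} [Group X] (θ : X →* X) (p : ℕ) [Fact p.Prime] :
    Submodule (ZMod p) (Addf X (ZMod p)) where
  carrier := {c | ∃ k : ℕ, ∀ x, c.1 (θ^[k] x) = 0}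
  zero_mem' := ⟨0, fun _ => rfl⟩
  add_mem' := by
    rintro a b ⟨k, hk⟩ ⟨l, hl⟩
    refine ⟨k + l, fun x => ?_⟩
    show a.1 _ + b.1 _ = 0
    rw [Function.iterate_add_apply, hk, ← Function.iterate_add_apply, add_comm k l,
      Function.iterate_add_apply, hl, add_zero]
  smul_mem' := by
    rintro c a ⟨k, hk⟩
    refine ⟨k, fun x => ?_⟩
    show c • a.1 _ = 0
    rw [hk, smul_zero]

/-- the dimension of the nilpotent part of `Hom(X, F_p)` -/
noncomputable def dnl {X : Type} [Group X] (θ : X →* X) (p : ℕ) [Fact p.Prime] : ℕ :=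
  Module.finrank (ZMod p) (nlA θ p)

/-- `U^p [U, U]` -/
def Ph {G : Type*} [Group G] (p : ℕ) (U : Subgroup G) : Subgroup G := ⁅U, U⁆ ⊔ PCN.pw p U

/-- unit subgroups: normal, of `p`-power index, `θ⁻¹(U) = U` -/
structure US {G : Type} [Group G] (θ : G →* G) (p : ℕ) where
  U : Subgroup G
  norm : U.Normal
  fin : U.FiniteIndex
  pg : ∀ x : G, ∃ n : ℕ, x ^ p ^ n ∈ U
  iff : ∀ x, θ x ∈ U ↔ x ∈ U

instance US.instNormal {G : Type} [Group G] {θ : G →* G} {p : ℕ} (u : US θ p) : u.U.Normal :=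
  u.norm

instance US.instFin {G : Type} [Group G] {θ : G →* G} {p : ℕ} (u : US θ p) : u.U.FiniteIndex :=
  u.fin

/-- `θ` maps a unit subgroup to itself -/
theorem US.inv {G : Type} [Group G] {θ : G →* G} {p : ℕ} (u : US θ p) :
    ∀ x ∈ u.U, θ x ∈ u.U := fun x hx => (u.iff x).2 hx

/-- the nilpotency index of the augmentation ideal of `F_p[B]` is at most `N` -/
def NI (p : ℕ) (B : Type) [Group B] (N : ℕ) : Prop :=
  ∀ (M : Type) [AddCommGroup M] [Module (ZMod p) M] (ρ : B →* Module.End (ZMod p) M)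
    (l : List B), l.length = N → (l.map fun b => ρ b - 1).prod = 0

/-- the identity as a map of the restricted module -/
noncomputable def tw {G : Type} [Group G] (θ : G →* G) (V : Rep ℤ G)
    (hV : ∀ g, V.ρ (θ g) = V.ρ g) : Rep.res θ V ⟶ V :=
  @Rep.ofHom ℤ G _ _ V V V.hV1 V.hV1 V.hV2 V.hV2 (V.ρ.comp θ) V.ρ
    (@Representation.IntertwiningMap.mk ℤ G V V _ _ V.hV1.toAddCommMonoid V.hV1.toAddCommMonoid
      V.hV2 V.hV2 (V.ρ.comp θ) V.ρ (@LinearMap.id ℤ V _ _ V.hV2) (fun g => by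
      have h : (V.ρ.comp θ) g = V.ρ g := hV g
      rw [h]
      rfl))

theorem tw_apply {G : Type} [Group G] (θ : G →* G) (V : Rep ℤ G)
    (hV : ∀ g, V.ρ (θ g) = V.ρ g) (x : V) : (tw θ V hV).hom x = x := rfl

/-- the endomorphism `θ^*` of the cohomology -/
noncomputable def TT {G : Type} [Group G] (θ : G →* G) (V : Rep ℤ G)
    (hV : ∀ g, V.ρ (θ g) = V.ρ g) (n : ℕ) : groupCohomology V n →+ groupCohomology V n :=
  (groupCohomology.map θ (tw θ V hV) n).hom.toAddMonoidHom

/-- the order of the stable part -/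
noncomputable def un {G : Type} [Group G] (θ : G →* G) (V : Rep ℤ G)
    (hV : ∀ g, V.ρ (θ g) = V.ρ g) (n : ℕ) : ℕ := Nat.card (st (TT θ V hV n))

/-- finite modules on which a unit subgroup acts trivially, `θ` trivial on the quotient -/
structure Good {G : Type} [Group G] (θ : G →* G) (p : ℕ) (V : Rep ℤ G) : Prop where
  fin : Finite V
  pp : ∃ n, Nat.card V = p ^ n
  pgr : ∀ g : G, ∃ n : ℕ, V.ρ (g ^ p ^ n) = 1
  inv : ∀ g, V.ρ (θ g) = V.ρ g

/-- the trivial module `Z/m` -/
noncomputable abbrev Fm (G : Type) [Group G] (m : ℕ) : Rep ℤ G := Rep.trivial ℤ G (ZMod m)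

theorem Fm_inv {G : Type} [Group G] (θ : G →* G) (m : ℕ) (g : G) :
    (Fm G m).ρ (θ g) = (Fm G m).ρ g := rfl

end BCX
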