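import Pool.Agent.EssMap.Grp

/-!
# Row EXA: small invariant normal subgroups
-/

set_option autoImplicit false

open EssMap

namespace BCX

/-- ROW EXA: small invariant normal subgroups -/
theorem exists_A {G : Type} [Group G] [Group.FG G] (θ : G →* G) (K : Subgroup G)
    (hK : K.FiniteIndex) :
    ∃ A : Subgroup G, A.Normal ∧ A.FiniteIndex ∧ (∀ x ∈ A, θ x ∈ A) ∧ A ≤ K := by
  have : Finite (G ⧸ K.normalCore) := inferInstance
  have := finite_hom G (G ⧸ K.normalCore)
  refine ⟨⨅ h : G →* G ⧸ K.normalCore, h.ker, ?_, ?_, ?_, ?_⟩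
  · exact Subgroup.normal_iInf_normal fun h => inferInstance
  · apply Subgroup.finiteIndex_iInf
    intro h
    infer_instance
  · intro x hx
    rw [Subgroup.mem_iInf] at hx ⊢
    intro h
    exact hx (h.comp θ)
  · intro x hx
    have h1 := (Subgroup.mem_iInf.1 hx) (QuotientGroup.mk' K.normalCore)
    rw [QuotientGroup.ker_mk'] at h1
    exact Subgroup.normalCore_le K h1

end BCX
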