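import Pool.Agent.BCX.Sta
import Pool.Agent.BCX.Nat
import Pool.Agent.BCX.Del
import Pool.Agent.BCX.Fil
import Pool.Agent.BCX.Fin
import Pool.Agent.BCX.Top

/-!
# The Euler characteristic of the stable parts in all degrees
-/

set_option autoImplicit false

open CategoryTheory groupCohomology EssMap
open scoped commutatorElement

namespace BCX

/-- the product over the even degrees below `n` -/
def evp (n : ℕ) (u : ℕ → ℕ) : ℕ := ∏ i ∈ Finset.range n, if i % 2 = 0 then u i else 1

/-- the product over the odd degrees below `n` -/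
def odp (n : ℕ) (u : ℕ → ℕ) : ℕ := ∏ i ∈ Finset.range n, if i % 2 = 0 then 1 else u i

theorem evp_succ (n : ℕ) (u : ℕ → ℕ) :
    evp (n + 1) u = evp n u * (if n % 2 = 0 then u n else 1) := Finset.prod_range_succ _ _

theorem odp_succ (n : ℕ) (u : ℕ → ℕ) :
    odp (n + 1) u = odp n u * (if n % 2 = 0 then 1 else u n) := Finset.prod_range_succ _ _

theorem evp_congr (n : ℕ) (u v : ℕ → ℕ) (h : ∀ i < n, u i = v i) : evp n u = evp n v := by
  apply Finset.prod_congr rfl
  intro i hi
  rw [h i (Finset.mem_range.1 hi)]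

theorem odp_congr (n : ℕ) (u v : ℕ → ℕ) (h : ∀ i < n, u i = v i) : odp n u = odp n v := by
  apply Finset.prod_congr rfl
  intro i hi
  rw [h i (Finset.mem_range.1 hi)]

theorem alt_prod (a b c g : ℕ → ℕ) (n : ℕ) (h : ∀ i < n, a i * c i = b i * g i * g (i + 1))
    (h0 : g 0 = 1) (hn : g n = 1) :
    evp n b * (odp n a * odp n c) = odp n b * (evp n a * evp n c) := by
  have key : ∀ m ≤ n, (m % 2 = 0 → evp m b * (odp m a * odp m c) =
      odp m b * (evp m a * evp m c) * g m) ∧
      (m % 2 ≠ 0 → odp m b * (evp m a * evp m c) =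
        evp m b * (odp m a * odp m c) * g m) := by
    intro m
    induction m with
    | zero =>
      intro _
      refine ⟨fun _ => ?_, fun h => absurd rfl h⟩
      rw [h0, mul_one]
      rfl
    | succ m ih =>
      intro hm
      obtain ⟨i1, i2⟩ := ih (by omega)
      have h1 := h m (by omega)
      rcases Nat.mod_two_eq_zero_or_one m with hp | hp
      · refine ⟨fun h => by omega, fun _ => ?_⟩
        have h2 := i1 hp
        simp only [evp_succ, odp_succ, if_pos hp]
        calc odp m b * 1 * (evp m a * a m * (evp m c * c m))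
            = odp m b * (evp m a * evp m c) * (a m * c m) := by ring
          _ = odp m b * (evp m a * evp m c) * g m * (b m * g (m + 1)) := by rw [h1]; ring
          _ = evp m b * (odp m a * odp m c) * (b m * g (m + 1)) := by rw [h2]
          _ = _ := by ring
      · have hp' : ¬ m % 2 = 0 := by omega
        refine ⟨fun _ => ?_, fun h => by omega⟩
        have h2 := i2 hp'
        simp only [evp_succ, odp_succ, if_neg hp']
        calc evp m b * 1 * (odp m a * a m * (odp m c * c m))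
            = evp m b * (odp m a * odp m c) * (a m * c m) := by ring
          _ = evp m b * (odp m a * odp m c) * g m * (b m * g (m + 1)) := by rw [h1]; ring
          _ = odp m b * (evp m a * evp m c) * (b m * g (m + 1)) := by rw [h2]
          _ = _ := by ring
  obtain ⟨k1, k2⟩ := key n le_rfl
  by_cases hp : n % 2 = 0
  · rw [k1 hp, hn, mul_one]
  · rw [k2 hp, hn, mul_one]

private theorem EG_iter {A B : Type*} [AddCommGroup A] [AddCommGroup B] (S : A →+ A)
    (T : B →+ B) (f : A →+ B) (hf : ∀ a, f (S a) = T (f a)) (k : ℕ) (a : A) :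
    f (S^[k] a) = T^[k] (f a) := by
  induction k generalizing a with
  | zero => rfl
  | succ k ih => rw [Function.iterate_succ_apply, Function.iterate_succ_apply, ih, hf]

private theorem EG_maps {A B : Type*} [AddCommGroup A] [AddCommGroup B] (S : A →+ A)
    (T : B →+ B) (f : A →+ B) (hf : ∀ a, f (S a) = T (f a)) (a : A) (ha : a ∈ st S) :
    f a ∈ st T := by
  intro k
  obtain ⟨y, rfl⟩ := ha k
  exact ⟨f y, (EG_iter S T f hf k y).symm⟩

/-- one place of the sequence -/
theorem EG_step {A B C : Type*} [AddCommGroup A] [AddCommGroup B] [AddCommGroup C]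
    [Finite B] (S : A →+ A) (T : B →+ B) (f : A →+ B) (g : B →+ C)
    (hf : ∀ a, f (S a) = T (f a))
    (hex : ∀ b ∈ st T, (g b = 0 ↔ ∃ a ∈ st S, f a = b)) :
    Nat.card (st T) = Nat.card ((st S).map f) * Nat.card ((st T).map g) := by
  set φ : st T →+ C := g.comp (st T).subtype with hφ
  have h1 : Nat.card (st T) = Nat.card φ.ker * Nat.card (st T ⧸ φ.ker) := by
    rw [AddSubgroup.card_eq_card_quotient_mul_card_addSubgroup φ.ker, mul_comm]
  have h2 : Nat.card (st T ⧸ φ.ker) = Nat.card φ.range :=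
    Nat.card_congr (QuotientAddGroup.quotientKerEquivRange φ).toEquiv
  have h3 : φ.range = (st T).map g := by
    ext x
    constructor
    · rintro ⟨y, rfl⟩
      exact ⟨y.1, y.2, rfl⟩
    · rintro ⟨y, hy, rfl⟩
      exact ⟨⟨y, hy⟩, rfl⟩
  have h4 : Nat.card φ.ker = Nat.card ((st S).map f) := by
    refine Nat.card_congr ⟨fun x => ⟨x.1.1, ?_⟩, fun x => ⟨⟨x.1, ?_⟩, ?_⟩, ?_, ?_⟩
    · obtain ⟨a, ha, hab⟩ := (hex x.1.1 x.1.2).1 x.2
      exact ⟨a, ha, hab⟩
    · obtain ⟨a, ha, hab⟩ := x.2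
      rw [← hab]
      exact EG_maps S T f hf a ha
    · obtain ⟨a, ha, hab⟩ := x.2
      have hm : x.1 ∈ st T := by
        rw [← hab]
        exact EG_maps S T f hf a ha
      exact (hex x.1 hm).2 ⟨a, ha, hab⟩
    · intro x
      rfl
    · intro x
      rfl
  rw [h1, h2, h3, h4]

theorem EG_first {A B : Type*} [AddCommGroup A] [AddCommGroup B] (S : A →+ A)
    (f : A →+ B) (hf : Function.Injective f) :
    Nat.card (st S) = Nat.card ((st S).map f) :=
  Nat.card_congr (AddSubgroup.equivMapOfInjective (st S) f hf).toEquiv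

/-- the last place -/
theorem EG_last {B C : Type*} [AddCommGroup B] [AddCommGroup C]
    (T : B →+ B) (R : C →+ C) (g : B →+ C)
    (hg : ∀ b, g (T b) = R (g b)) (k : ℕ) (hk : ∀ x, R^[k] x = 0) :
    Nat.card ((st T).map g) = 1 := by
  have h1 : (st T).map g = ⊥ := by
    rw [eq_bot_iff]
    rintro x ⟨b, hb, rfl⟩
    obtain ⟨y, rfl⟩ := hb k
    rw [EG_iter T R g hg, hk]
    rfl
  rw [h1]
  simp

section coh

variable {G : Type} [Group G] (θ : G →* G)

theorem EG_inj {X : ShortComplex (Rep ℤ G)} (hX : X.ShortExact) :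
    Function.Injective (cmap X.f 0).toAddMonoidHom := by
  have h1 : Mono X.f := hX.mono_f
  have h2 : Mono (groupCohomology.map (MonoidHom.id G) X.f 0) := inferInstance
  exact (ModuleCat.mono_iff_injective _).1 h2

theorem EG_un_sub (V : Rep ℤ G) (hV : ∀ g, V.ρ (θ g) = V.ρ g) (h : Subsingleton V) (n : ℕ) :
    un θ V hV n = 1 := by
  have h1 : Subsingleton (groupCohomology V n) :=
    ⟨fun x y => (coh_sub V n x).trans (coh_sub V n y).symm⟩
  unfold un
  exact Nat.card_eq_one_iff_unique.2 ⟨inferInstance, ⟨0⟩⟩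

theorem good_Fm (p : ℕ) [Fact p.Prime] (k : ℕ) : Good θ p (Fm G (p ^ k)) where
  fin := by
    have : NeZero (p ^ k) := ⟨pow_ne_zero _ (Fact.out : p.Prime).ne_zero⟩
    exact inferInstanceAs (Finite (ZMod (p ^ k)))
  pp := ⟨k, Nat.card_zmod _⟩
  pgr := fun g => ⟨0, rfl⟩
  inv := fun g => rfl

theorem good_Fp (p : ℕ) [Fact p.Prime] : Good θ p (Fm G p) where
  fin := inferInstanceAs (Finite (ZMod p))
  pp := ⟨1, by rw [pow_one]; exact Nat.card_zmod p⟩
  pgr := fun g => ⟨0, rfl⟩
  inv := fun g => rfl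

/-- the Euler characteristic in a short exact sequence -/
theorem chi_step {X : ShortComplex (Rep ℤ G)} (hX : X.ShortExact)
    (hA : ∀ g, X.X₁.ρ (θ g) = X.X₁.ρ g) (hV : ∀ g, X.X₂.ρ (θ g) = X.X₂.ρ g)
    (hW : ∀ g, X.X₃.ρ (θ g) = X.X₃.ρ g) (n : ℕ) (hn : 0 < n)
    (fA : ∀ i < n, Finite (groupCohomology X.X₁ i)) (fV : ∀ i < n, Finite (groupCohomology X.X₂ i))
    (fW : ∀ i < n, Finite (groupCohomology X.X₃ i)) (k : ℕ)
    (hk : ∀ x : groupCohomology X.X₁ n, (TT θ X.X₁ hA n)^[k] x = 0) :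
    evp n (un θ X.X₂ hV) * (odp n (un θ X.X₁ hA) * odp n (un θ X.X₃ hW)) =
      odp n (un θ X.X₂ hV) * (evp n (un θ X.X₁ hA) * evp n (un θ X.X₃ hW)) := by
  let al : ℕ → ℕ := fun i => Nat.card ((st (TT θ X.X₁ hA i)).map (cmap X.f i).toAddMonoidHom)
  let be : ℕ → ℕ := fun i => Nat.card ((st (TT θ X.X₂ hV i)).map (cmap X.g i).toAddMonoidHom)
  let ga : ℕ → ℕ := fun i =>
    Nat.card ((st (TT θ X.X₃ hW i)).map (δ hX i (i + 1) rfl).hom.toAddMonoidHom)
  let ga' : ℕ → ℕ := fun i => Nat.casesOn i 1 ga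
  have e2 : ∀ i < n, un θ X.X₂ hV i = al i * be i := by
    intro i hi
    have i1 := fA i hi
    have i2 := fV i hi
    have i3 := fW i hi
    exact EG_step (TT θ X.X₁ hA i) (TT θ X.X₂ hV i) (cmap X.f i).toAddMonoidHom
      (cmap X.g i).toAddMonoidHom (fun x => TT_nat θ hA hV X.f i x)
      (fun b hb => st_exact (TT θ X.X₁ hA i) (TT θ X.X₂ hV i) (TT θ X.X₃ hW i)
        (cmap X.f i).toAddMonoidHom (cmap X.g i).toAddMonoidHom
        (fun x => TT_nat θ hA hV X.f i x) (fun x => TT_nat θ hV hW X.g i x)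
        (fun x => les2 hX i x) b hb)
  have hR : ∀ i, ∀ x : (δ hX i (i + 1) rfl).hom.toAddMonoidHom.range,
      (TT θ X.X₁ hA (i + 1)) x.1 ∈ (δ hX i (i + 1) rfl).hom.toAddMonoidHom.range := by
    rintro i ⟨x, y, rfl⟩
    exact ⟨TT θ X.X₃ hW i y, TT_delta θ hX hA hV hW i (i + 1) rfl y⟩
  have e3 : ∀ i < n, un θ X.X₃ hW i = be i * ga i := by
    intro i hi
    have i2 := fV i hi
    have i3 := fW i hi
    have i4 : Finite (δ hX i (i + 1) rfl).hom.toAddMonoidHom.range :=
      Finite.of_surjective _ (δ hX i (i + 1) rfl).hom.toAddMonoidHom.rangeRestrict_surjective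
    refine EG_step (TT θ X.X₂ hV i) (TT θ X.X₃ hW i) (cmap X.g i).toAddMonoidHom
      (δ hX i (i + 1) rfl).hom.toAddMonoidHom (fun x => TT_nat θ hV hW X.g i x) ?_
    intro b hb
    have h := st_exact (TT θ X.X₂ hV i) (TT θ X.X₃ hW i)
      (((TT θ X.X₁ hA (i + 1)).comp
        (δ hX i (i + 1) rfl).hom.toAddMonoidHom.range.subtype).codRestrict
          (δ hX i (i + 1) rfl).hom.toAddMonoidHom.range (hR i))
      (cmap X.g i).toAddMonoidHom (δ hX i (i + 1) rfl).hom.toAddMonoidHom.rangeRestrict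
      (fun x => TT_nat θ hV hW X.g i x)
      (fun x => Subtype.ext (TT_delta θ hX hA hV hW i (i + 1) rfl x))
      (fun x => Iff.trans Subtype.ext_iff (les3 hX i (i + 1) rfl x)) b hb
    rw [← h]
    exact ⟨fun h0 => Subtype.ext h0, fun h0 => congrArg Subtype.val h0⟩
  have e1 : ∀ i, i + 1 < n → un θ X.X₁ hA (i + 1) = ga i * al (i + 1) := by
    intro i hi
    have i1 := fA (i + 1) hi
    have i2 := fV (i + 1) hi
    have i3 := fW i (by omega)
    exact EG_step (TT θ X.X₃ hW i) (TT θ X.X₁ hA (i + 1))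
      (δ hX i (i + 1) rfl).hom.toAddMonoidHom (cmap X.f (i + 1)).toAddMonoidHom
      (fun x => TT_delta θ hX hA hV hW i (i + 1) rfl x)
      (fun b hb => st_exact (TT θ X.X₃ hW i) (TT θ X.X₁ hA (i + 1)) (TT θ X.X₂ hV (i + 1))
        (δ hX i (i + 1) rfl).hom.toAddMonoidHom (cmap X.f (i + 1)).toAddMonoidHom
        (fun x => TT_delta θ hX hA hV hW i (i + 1) rfl x)
        (fun x => TT_nat θ hA hV X.f (i + 1) x)
        (fun x => les1 hX i (i + 1) rfl x) b hb)
  have e0 : un θ X.X₁ hA 0 = al 0 :=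
    EG_first (TT θ X.X₁ hA 0) (cmap X.f 0).toAddMonoidHom (EG_inj hX)
  refine alt_prod (un θ X.X₁ hA) (un θ X.X₂ hV) (un θ X.X₃ hW) ga' n ?_ rfl ?_
  · intro i hi
    rw [e2 i hi, e3 i hi]
    cases i with
    | zero =>
      rw [e0]
      show al 0 * (be 0 * ga 0) = al 0 * be 0 * 1 * ga 0
      ring
    | succ i =>
      rw [e1 i hi]
      show ga i * al (i + 1) * (be (i + 1) * ga (i + 1)) =
        al (i + 1) * be (i + 1) * ga i * ga (i + 1)
      ring
  · obtain ⟨m, rfl⟩ : ∃ m, n = m + 1 := ⟨n - 1, by omega⟩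
    exact EG_last (TT θ X.X₃ hW m) (TT θ X.X₁ hA (m + 1))
      (δ hX m (m + 1) rfl).hom.toAddMonoidHom
      (fun x => TT_delta θ hX hA hV hW m (m + 1) rfl x) k hk

/-- the top degree with trivial coefficients -/
theorem hn_zero {n : ℕ} (hG : Dual n G) (ho : Ori n G = ⊤)
    (p : ℕ) (hp : p ∣ θ.range.index) (hfin : θ.range.FiniteIndex)
    (x : groupCohomology (Fm G p) n) : TT θ (Fm G p) (Fm_inv θ p) n x = 0 := by
  have h0 : TT θ (Fm G p) (Fm_inv θ p) n x = pullB (ZMod p) θ n x := by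
    unfold TT pullB
    have h : groupCohomology.map θ (tw θ (Fm G p) (Fm_inv θ p)) n =
        groupCohomology.map θ (trB (ZMod p) θ) n := by
      exact groupCohomology.map_congr rfl rfl n
    rw [h]
    rfl
  have h1 : θ.range.subtype.comp θ.rangeRestrict = θ := MonoidHom.subtype_comp_rangeRestrict θ
  have h2 : pullB (ZMod p) θ n x =
      pullB (ZMod p) (θ.range.subtype.comp θ.rangeRestrict) n x := by
    rw [h1]
  have h3 : pullB (ZMod p) (θ.range.subtype.comp θ.rangeRestrict) n x =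
      pullB (ZMod p) θ.rangeRestrict n (pullB (ZMod p) θ.range.subtype n x) := by
    unfold pullB
    have h := groupCohomology.map_comp θ.range.subtype θ.rangeRestrict
      (trB (ZMod p) θ.range.subtype) (trB (ZMod p) θ.rangeRestrict) n
    have h2 : groupCohomology.map (θ.range.subtype.comp θ.rangeRestrict)
        (trB (ZMod p) (θ.range.subtype.comp θ.rangeRestrict)) n =
        groupCohomology.map θ.range.subtype (trB (ZMod p) θ.range.subtype) n ≫
          groupCohomology.map θ.rangeRestrict (trB (ZMod p) θ.rangeRestrict) n := by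
      rw [← h]
      exact groupCohomology.map_congr rfl rfl n
    rw [h2]
    rfl
  rw [h0, h2, h3, res_mod n hG.cd ho θ.range p hp x, map_zero]

theorem top_nil_gen {n : ℕ} (hG : Dual n G) (ho : Ori n G = ⊤)
    (hfin : θ.range.FiniteIndex) (p : ℕ) [Fact p.Prime] (hp : p ∣ θ.range.index)
    (V : Rep ℤ G) (hV : Good θ p V) :
    ∃ k, ∀ x : groupCohomology V n, (TT θ V hV.inv n)^[k] x = 0 := by
  have key := devissage θ p (fun V => ∀ h : ∀ g, V.ρ (θ g) = V.ρ g,
    ∃ k, ∀ x : groupCohomology V n, (TT θ V h n)^[k] x = 0) ?_ ?_ V hV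
  · exact key hV.inv
  · intro V hs h
    exact ⟨0, fun x => coh_sub V n x⟩
  · intro V W f g w hX hV hW _ ih h
    obtain ⟨k, hk⟩ := ih hW.inv
    refine ⟨k + 1, fun x => ?_⟩
    have h1 : cmap g n ((TT θ V h n)^[k] x) = 0 := by
      rw [TT_iter_nat θ h hW.inv, hk]
    obtain ⟨y, hy⟩ := (les2 hX n ((TT θ V h n)^[k] x)).1 h1
    have hy2 : cmap f n y = (TT θ V h n)^[k] x := hy
    rw [Function.iterate_succ_apply', ← hy2, ← TT_nat θ (Fm_inv θ p) h f n y,
      hn_zero θ hG ho p hp hfin, map_zero]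

/-- finiteness by devissage -/
theorem fin_gen (p : ℕ) [Fact p.Prime] (i : ℕ) (hbase : Finite (groupCohomology (Fm G p) i))
    (V : Rep ℤ G) (hV : Good θ p V) : Finite (groupCohomology V i) := by
  refine devissage θ p (fun V => Finite (groupCohomology V i)) ?_ ?_ V hV
  · intro V hs
    have h : Subsingleton (groupCohomology V i) :=
      ⟨fun x y => (coh_sub V i x).trans (coh_sub V i y).symm⟩
    infer_instance
  · intro V W f g w hX hV hW _ ih
    exact finite_ext (cmap f i).toAddMonoidHom (cmap g i).toAddMonoidHom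
      (fun b hb => (les2 hX i b).1 hb)

theorem evp_pos {n : ℕ} {u : ℕ → ℕ} (h : ∀ i < n, 0 < u i) : 0 < evp n u := by
  apply Finset.prod_pos
  intro i hi
  split_ifs
  · exact h i (Finset.mem_range.1 hi)
  · exact one_pos

theorem odp_pos {n : ℕ} {u : ℕ → ℕ} (h : ∀ i < n, 0 < u i) : 0 < odp n u := by
  apply Finset.prod_pos
  intro i hi
  split_ifs
  · exact one_pos
  · exact h i (Finset.mem_range.1 hi)

theorem un_pos (p : ℕ) [Fact p.Prime] (i : ℕ) (hbase : Finite (groupCohomology (Fm G p) i))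
    (V : Rep ℤ G) (hV : Good θ p V) : 0 < un θ V hV.inv i := by
  have := fin_gen θ p i hbase V hV
  unfold un
  exact Nat.card_pos

/-- the Euler characteristic is multiplicative, all degrees -/
theorem chi_gen {n : ℕ} (hn0 : 0 < n) (hG : Dual n G) (ho : Ori n G = ⊤)
    (hfin : θ.range.FiniteIndex) (p : ℕ) [Fact p.Prime] (hp : p ∣ θ.range.index)
    (hF : ∀ i < n, Finite (groupCohomology (Fm G p) i))
    (V : Rep ℤ G) (hV : Good θ p V) (r : ℕ) (hr : Nat.card V = p ^ r) :
    evp n (un θ V hV.inv) * odp n (un θ (Fm G p) (Fm_inv θ p)) ^ r =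
      odp n (un θ V hV.inv) * evp n (un θ (Fm G p) (Fm_inv θ p)) ^ r := by
  have hp1 : 1 < p := (Fact.out : p.Prime).one_lt
  revert hV r hr
  have key := devissage θ p (fun V => ∀ (hV : Good θ p V) (r : ℕ), Nat.card V = p ^ r →
    evp n (un θ V hV.inv) * odp n (un θ (Fm G p) (Fm_inv θ p)) ^ r =
      odp n (un θ V hV.inv) * evp n (un θ (Fm G p) (Fm_inv θ p)) ^ r) ?_ ?_
  · intro hV
    exact key V hV hV
  · intro V hs hg r hr
    have h1 : Nat.card V = 1 := Nat.card_eq_one_iff_unique.2 ⟨hs, ⟨0⟩⟩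
    rw [h1] at hr
    have h2 : r = 0 := by
      by_contra h
      exact absurd hr (Nat.one_lt_pow h hp1).ne
    have h3 : ∀ i < n, un θ V hg.inv i = (fun _ => 1) i := fun i _ => EG_un_sub θ V hg.inv hs i
    rw [h2, pow_zero, pow_zero, evp_congr n _ _ h3, odp_congr n _ _ h3]
    unfold evp odp
    simp
  · intro V W f g w hX hV hW hc ih hV' r hr
    obtain ⟨r', hr'⟩ := hW.pp
    have h1 : r = r' + 1 := by
      rw [hr, hr', ← pow_succ'] at hc
      exact Nat.pow_right_injective hp1 hc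
    have h2 := ih hW r' hr'
    obtain ⟨k, hk⟩ := top_nil_gen θ hG ho hfin p hp (Fm G p) (good_Fp θ p)
    have h3 := chi_step θ hX (good_Fp θ p).inv hV'.inv hW.inv n hn0
      (fun i hi => fin_gen θ p i (hF i hi) (Fm G p) (good_Fp θ p))
      (fun i hi => fin_gen θ p i (hF i hi) V hV)
      (fun i hi => fin_gen θ p i (hF i hi) W hW) k hk
    have h4 : 0 < odp n (un θ W hW.inv) := odp_pos fun i hi => un_pos θ p i (hF i hi) W hW
    have h4' : 0 < evp n (un θ W hW.inv) := evp_pos fun i hi => un_pos θ p i (hF i hi) W hW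
    rw [h1]
    have h5 : ∀ A0 A1 B0 B1 C0 C1 : ℕ, 0 < C0 → 0 < C1 → C0 * A1 ^ r' = C1 * A0 ^ r' →
        B0 * (A1 * C1) = B1 * (A0 * C0) →
        B0 * A1 ^ (r' + 1) = B1 * A0 ^ (r' + 1) := by
      intro A0 A1 B0 B1 C0 C1 h4 h4' h2 h3
      apply Nat.eq_of_mul_eq_mul_right h4'
      calc B0 * A1 ^ (r' + 1) * C1 = (B0 * (A1 * C1)) * A1 ^ r' := by ring
        _ = B1 * A0 * (C0 * A1 ^ r') := by rw [h3]; ring
        _ = B1 * A0 * (C1 * A0 ^ r') := by rw [h2]
        _ = B1 * A0 ^ (r' + 1) * C1 := by ring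
    exact h5 _ _ _ _ _ _ h4' h4 h2 h3

end coh

end BCX
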