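import Pool.Agent.BCX.Les
import Pool.Agent.EssMap.ModE

/-!
# Finiteness of the cohomology with coefficients `Z/m` from the integral cohomology
-/

set_option autoImplicit false

open CategoryTheory groupCohomology EssMap

namespace BCX

/-- the cohomology with coefficients `Z/m` is killed by `m` -/
theorem fm_smul_zero {G : Type} [Group G] (m : ℕ) (i : ℕ) (x : groupCohomology (Fm G m) i) :
    (m : ℤ) • x = 0 := by
  have h0 : ((m : ℤ) • 𝟙 (Fm G m)) = 0 := by
    ext x
    show (m : ℤ) • (x : ZMod m) = (0 : ZMod m)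
    rw [zsmul_eq_mul]
    push_cast
    rw [ZMod.natCast_self, zero_mul]
  have h1 : cmap ((m : ℤ) • 𝟙 (Fm G m)) i x = (m : ℤ) • x := by
    rw [cmap_int_smul, cmap_id]
    rfl
  rw [← h1, h0, cmap_zero]
  rfl

/-- ROW E2 -/
theorem fin_of_fg {G : Type} [Group G] (m : ℕ) (hm : 0 < m) (i : ℕ) (h1 : Module.Finite ℤ (HZ G i))
    (h2 : Module.Finite ℤ (HZ G (i + 1))) : Finite (groupCohomology (Fm G m) i) := by
  have hX := XE_shortExact G m hm
  let d : groupCohomology (Fm G m) i →ₗ[ℤ] HZ G (i + 1) := (δ hX i (i + 1) rfl).hom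
  have hfg : (⊤ : Submodule ℤ (groupCohomology (Fm G m) i)).FG := by
    refine Submodule.fg_of_fg_map_of_fg_inf_ker d ?_ ?_
    · have : IsNoetherian ℤ (HZ G (i + 1)) := isNoetherian_of_isNoetherianRing_of_finite ℤ _
      exact IsNoetherian.noetherian _
    · have h3 : (⊤ : Submodule ℤ (groupCohomology (Fm G m) i)) ⊓ LinearMap.ker d =
          (⊤ : Submodule ℤ (HZ G i)).map (cmap (redE G m) i) := by
        rw [top_inf_eq, Submodule.map_top]
        ext x
        rw [LinearMap.mem_ker, LinearMap.mem_range]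
        exact les3 hX i (i + 1) rfl x
      rw [h3]
      exact Submodule.FG.map _ h1.fg_top
  have hf : Module.Finite ℤ (groupCohomology (Fm G m) i) := ⟨hfg⟩
  refine Module.finite_of_fg_torsion _ ?_
  intro x
  refine ⟨⟨(m : ℤ), mem_nonZeroDivisors_of_ne_zero (by exact_mod_cast hm.ne')⟩, ?_⟩
  exact (int_smul_eq_zsmul (groupCohomology (Fm G m) i).isModule (m : ℤ) x).trans
    (fm_smul_zero m i x)

end BCX
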