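import Pool.Agent.BCX.Pth

/-!
# Bounded unit quotients
-/

set_option autoImplicit false

open EssMap
open scoped commutatorElement

namespace BCX

theorem itr_mulP {G : Type*} [Group G] (θ : G →* G) (m r : ℕ) (x : G) :
    itr (itr θ m) r x = itr θ (m * r) x := by
  rw [itr_eq_iterate, itr_eq_iterate, Function.iterate_mul]
  congr 1
  funext y
  exact itr_eq_iterate θ m y

/-- For every injection `j : Y → G` with image of finite index and every endomorphism `η` of `Y`
that is the restriction of a power of `θ`: the `p`-parts of the orders of the quotients `Y/V` with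
`η⁻¹(V) = V` are bounded. -/
def BU {G : Type} [Group G] (θ : G →* G) (p : ℕ) : Prop :=
  ∀ (Y : Type) [Group Y] (j : Y →* G) (η : Y →* Y) (m : ℕ), Function.Injective j →
    j.range.FiniteIndex → 0 < m → (∀ y, j (η y) = itr θ m (j y)) →
    ∃ B : ℕ, ∀ V : Subgroup Y, V.Normal → V.FiniteIndex → V.comap η = V → ¬ p ^ B ∣ V.index

theorem BU.sub {G : Type} [Group G] {θ : G →* G} {p : ℕ} (h : BU θ p) {G' : Type} [Group G']
    (i : G' →* G) (θ' : G' →* G') (M : ℕ) (hi : Function.Injective i) (hif : i.range.FiniteIndex)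
    (hM : 0 < M) (hc : ∀ y, i (θ' y) = itr θ M (i y)) : BU θ' p := by
  intro Y _ j η m hj hjf hm hjc
  have h1 : ∀ (k : ℕ) (y : G'), i (itr θ' k y) = itr (itr θ M) k (i y) := by
    intro k
    induction k with
    | zero => intro y; rfl
    | succ k ih =>
      intro y
      rw [itr_succ, itr_succ, hc, ih]
  refine h Y (i.comp j) η (M * m) (hi.comp hj) ⟨?_⟩ (Nat.mul_pos hM hm) (fun y => ?_)
  · rw [MonoidHom.range_comp, Subgroup.index_map_of_injective _ hi]
    exact mul_ne_zero hjf.index_ne_zero hif.index_ne_zero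
  · rw [MonoidHom.comp_apply, MonoidHom.comp_apply, hjc, h1, itr_mulP]

theorem BU.bdd {G : Type} [Group G] {θ : G →* G} {p : ℕ} (h : BU θ p) :
    ∃ B : ℕ, ∀ V : Subgroup G, V.Normal → V.FiniteIndex → V.comap θ = V → ¬ p ^ B ∣ V.index := by
  refine h G (MonoidHom.id G) θ 1 Function.injective_id ?_ one_pos (fun y => rfl)
  rw [MonoidHom.range_eq_top.2 Function.surjective_id]
  infer_instance

/-- a subgroup that is a unit subgroup for a power contains a unit subgroup -/
theorem unit_inter {G : Type*} [Group G] (θ : G →* G) (m : ℕ) (hm : 0 < m) (V : Subgroup G)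
    (hV : V.Normal) (hVf : V.FiniteIndex) (h : V.comap (itr θ m) = V) :
    ∃ W : Subgroup G, W ≤ V ∧ W.Normal ∧ W.FiniteIndex ∧ W.comap θ = W := by
  have hmem : ∀ x, (itr θ m x ∈ V ↔ x ∈ V) := by
    intro x
    conv_rhs => rw [← h]
    rfl
  refine ⟨⨅ i : Fin m, V.comap (itr θ i), ?_, ?_, ?_, ?_⟩
  · intro x hx
    rw [Subgroup.mem_iInf] at hx
    exact hx ⟨0, hm⟩
  · exact Subgroup.normal_iInf_normal fun i => inferInstance
  · refine Subgroup.finiteIndex_iInf fun i => ⟨?_⟩
    rw [Subgroup.index_comap]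
    have h1 : (V.subgroupOf (itr θ i).range).FiniteIndex := inferInstance
    exact h1.index_ne_zero
  · ext x
    rw [Subgroup.mem_comap, Subgroup.mem_iInf, Subgroup.mem_iInf]
    have hs : ∀ i, itr θ i (θ x) = itr θ (i + 1) x := by
      intro i
      rw [itr_eq_iterate, itr_eq_iterate, Function.iterate_succ_apply]
    constructor
    · intro hx i
      rw [Subgroup.mem_comap]
      obtain ⟨i, hi⟩ := i
      cases i with
      | zero =>
        obtain ⟨k, rfl⟩ : ∃ k, m = k + 1 := ⟨m - 1, by omega⟩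
        have h1 := hx ⟨k, by omega⟩
        rw [Subgroup.mem_comap, hs, hmem] at h1
        exact h1
      | succ i =>
        have h1 := hx ⟨i, by omega⟩
        rw [Subgroup.mem_comap, hs] at h1
        exact h1
    · intro hx i
      rw [Subgroup.mem_comap, hs]
      obtain ⟨i, hi⟩ := i
      by_cases h1 : i + 1 = m
      · show itr θ (i + 1) x ∈ V
        rw [h1, hmem]
        exact hx ⟨0, hm⟩
      · exact hx ⟨i + 1, by omega⟩

/-- the largest unit quotients, for finitely many primes -/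
theorem max_unit {G : Type} [Group G] (θ : G →* G) (P : Finset ℕ) (hP : ∀ p ∈ P, p.Prime)
    (hbd : ∀ p ∈ P, ∃ B : ℕ, ∀ V : Subgroup G, V.Normal → V.FiniteIndex → V.comap θ = V →
      ¬ p ^ B ∣ V.index) :
    ∃ (Q : Subgroup G) (M : ℕ) (hQ : ∀ x ∈ Q, itr θ M x ∈ Q), 0 < M ∧ Q.Normal ∧
      Q.FiniteIndex ∧ ∀ (m : ℕ) (W : Subgroup Q), 0 < m → W.Normal → W.FiniteIndex →
        W.comap (itr (rst (itr θ M) Q hQ) m) = W → ∀ p ∈ P, ¬ p ∣ W.index := by
  classical
  choose! B hB using hbd
  let S : Subgroup G → Prop := fun V => V.Normal ∧ V.FiniteIndex ∧ ∃ m, 0 < m ∧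
    V.comap (itr θ m) = V
  let f : Subgroup G → ℕ := fun V => ∑ p ∈ P, V.index.factorization p
  have hle : ∀ V, S V → ∀ p ∈ P, V.index.factorization p ≤ B p := by
    rintro V ⟨hV, hVf, m, hm, h⟩ p hp
    obtain ⟨W, hWV, hWn, hWf, hW⟩ := unit_inter θ m hm V hV hVf h
    have h1 := hB p hp W hWn hWf hW
    have h2 : ¬ p ^ B p ∣ V.index := fun h3 => h1 (h3.trans (Subgroup.index_dvd_of_le hWV))
    rw [(hP p hp).pow_dvd_iff_le_factorization hVf.index_ne_zero] at h2
    omega
  have hfle : ∀ V, S V → f V ≤ ∑ p ∈ P, B p := fun V hV => Finset.sum_le_sum (hle V hV)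
  have hST : S ⊤ := ⟨inferInstance, inferInstance, 1, one_pos, rfl⟩
  let R : ℕ → Prop := fun n => ∃ V, S V ∧ f V = n
  have hR := Nat.findGreatest_spec (P := R) (hfle ⊤ hST) ⟨⊤, hST, rfl⟩
  obtain ⟨V, ⟨hVn, hVf, m, hm, hVm⟩, hfV⟩ := hR
  have hmax : ∀ W, S W → f W ≤ f V := by
    intro W hW
    rw [hfV]
    exact Nat.le_findGreatest (hfle W hW) ⟨W, hW, rfl⟩
  obtain ⟨m', hm', hx'⟩ := UNI_order (itr θ m) V hVm
  have hM : 0 < m * m' := Nat.mul_pos hm hm'
  have hx : ∀ x : G, ((itr θ (m * m') x : G) : G ⧸ V) = (x : G ⧸ V) := by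
    intro x
    rw [← itr_mulP]
    exact hx' x
  have hQ : ∀ x ∈ V, itr θ (m * m') x ∈ V := by
    intro x hxV
    rw [← QuotientGroup.eq_one_iff] at hxV ⊢
    rw [hx, hxV]
  refine ⟨V, m * m', hQ, hM, hVn, hVf, ?_⟩
  intro r W hr hWn hWf hW
  have hxr : ∀ x : G, ((itr θ (m * m' * r) x : G) : G ⧸ V) = (x : G ⧸ V) := by
    intro x
    rw [← itr_mulP]
    induction r generalizing x with
    | zero => rfl
    | succ r ih =>
      rcases Nat.eq_zero_or_pos r with rfl | hr0
      · exact hx x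
      · rw [itr_succ, hx]
        have h1 : ∀ (k : ℕ) (x : G), ((itr (itr θ (m * m')) k x : G) : G ⧸ V) = (x : G ⧸ V) := by
          intro k
          induction k with
          | zero => intro x; rfl
          | succ k ih => intro x; rw [itr_succ, hx, ih]
        exact h1 r x
  set Θ : G →* G := itr θ (m * m' * r) with hΘ
  have hVΘ : ∀ x, (Θ x ∈ V ↔ x ∈ V) := by
    intro x
    rw [← QuotientGroup.eq_one_iff, ← QuotientGroup.eq_one_iff, hxr]
  -- the image of `W` in `G`
  set W1 : Subgroup G := W.map V.subtype with hW1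
  have hW1V : W1 ≤ V := by
    rintro _ ⟨x, -, rfl⟩
    exact x.2
  have hmemW1 : ∀ x : V, ((x : G) ∈ W1 ↔ x ∈ W) := by
    intro x
    constructor
    · rintro ⟨y, hy, hyx⟩
      have : y = x := Subtype.ext hyx
      rw [← this]
      exact hy
    · intro h
      exact ⟨x, h, rfl⟩
  have hW1f : W1.FiniteIndex := by
    constructor
    rw [hW1, Subgroup.index_map_subtype]
    exact mul_ne_zero hWf.index_ne_zero hVf.index_ne_zero
  have hcW1 : ∀ v ∈ V, ∀ x ∈ W1, v * x * v⁻¹ ∈ W1 := by
    rintro v hv _ ⟨x, hxW, rfl⟩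
    exact ⟨⟨v, hv⟩ * x * ⟨v, hv⟩⁻¹, hWn.conj_mem x hxW _, rfl⟩
  have hcW2 : ∀ v ∈ V, ∀ x, (v * x * v⁻¹ ∈ W1 ↔ x ∈ W1) := by
    intro v hv x
    constructor
    · intro h
      have h1 := hcW1 v⁻¹ (V.inv_mem hv) _ h
      have h2 : v⁻¹ * (v * x * v⁻¹) * v⁻¹⁻¹ = x := by group
      rwa [h2] at h1
    · intro h
      exact hcW1 v hv x h
  have hW1Θ : ∀ z, (Θ z ∈ W1 ↔ z ∈ W1) := by
    have h0 : ∀ z : V, (Θ z ∈ W1 ↔ (z : G) ∈ W1) := by
      intro z
      have h1 : ((itr (rst (itr θ (m * m')) V hQ) r z : V) : G) = Θ z := by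
        rw [itr_rst, itr_mulP]
      rw [hmemW1, ← h1, hmemW1]
      conv_rhs => rw [← hW]
      rfl
    intro z
    constructor
    · intro h
      have hz : z ∈ V := (hVΘ z).1 (hW1V h)
      exact (h0 ⟨z, hz⟩).1 h
    · intro h
      exact (h0 ⟨z, hW1V h⟩).2 h
  set K : Subgroup G := W1.normalCore with hK
  have hKmem : ∀ x, x ∈ K ↔ ∀ g : G, g * x * g⁻¹ ∈ W1 := fun x => Iff.rfl
  have hKS : S K := by
    refine ⟨inferInstance, inferInstance, m * m' * r, Nat.mul_pos hM hr, ?_⟩
    ext x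
    rw [Subgroup.mem_comap, hKmem, hKmem]
    have h1 : ∀ g : G, (g * Θ x * g⁻¹ ∈ W1 ↔ g * x * g⁻¹ ∈ W1) := by
      intro g
      have hv : Θ g * g⁻¹ ∈ V := by
        have h1 := hxr g
        rw [← QuotientGroup.eq_one_iff, QuotientGroup.mk_mul, h1, ← QuotientGroup.mk_mul,
          mul_inv_cancel]
        rfl
      rw [← hcW2 _ hv, ← hW1Θ (g * x * g⁻¹), map_mul, map_mul, map_inv]
      have h2 : Θ g * g⁻¹ * (g * Θ x * g⁻¹) * (Θ g * g⁻¹)⁻¹ = Θ g * Θ x * (Θ g)⁻¹ := by group
      rw [h2]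
    exact forall_congr' h1
  have hKW : K ≤ W1 := Subgroup.normalCore_le W1
  have hdvd : W.index * V.index ∣ K.index := by
    have h1 := Subgroup.index_dvd_of_le hKW
    rw [hW1, Subgroup.index_map_subtype] at h1
    exact h1
  intro p hp hpW
  have h1 := hmax K hKS
  have hK0 : K.index ≠ 0 := hKS.2.1.index_ne_zero
  have h2 : f V < f K := by
    apply Finset.sum_lt_sum
    · intro q hq
      have h3 := (Nat.factorization_le_iff_dvd (mul_ne_zero hWf.index_ne_zero
        hVf.index_ne_zero) hK0).2 hdvd q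
      rw [Nat.factorization_mul hWf.index_ne_zero hVf.index_ne_zero, Finsupp.add_apply] at h3
      omega
    · refine ⟨p, hp, ?_⟩
      have h3 := (Nat.factorization_le_iff_dvd (mul_ne_zero hWf.index_ne_zero
        hVf.index_ne_zero) hK0).2 hdvd p
      rw [Nat.factorization_mul hWf.index_ne_zero hVf.index_ne_zero, Finsupp.add_apply] at h3
      have h4 : 0 < W.index.factorization p :=
        (hP p hp).factorization_pos_of_dvd hWf.index_ne_zero hpW
      omega
  omega

theorem L_hom (p : ℕ) {G H : Type*} [Group G] [Group H] (ψ : G →* H) (n : ℕ) :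
    ∀ x ∈ (PCN.L p n : Subgroup G), ψ x ∈ (PCN.L p n : Subgroup H) := by
  induction n with
  | zero => intro x _; rw [PCN.L_zero]; exact Subgroup.mem_top _
  | succ n ih =>
    have h1 : PCN.L p (n + 1) ≤ (PCN.L p (n + 1) : Subgroup H).comap ψ := by
      conv_lhs => rw [PCN.L_succ p n]
      rw [sup_le_iff]
      constructor
      · rw [Subgroup.commutator_le]
        intro x hx y _
        rw [Subgroup.mem_comap, map_commutatorElement]
        exact PCN.L_comm_le p n (Subgroup.commutator_mem_commutator (ih x hx)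
          (Subgroup.mem_top _))
      · apply PCN.pw_le
        intro x hx
        rw [Subgroup.mem_comap, map_pow]
        exact PCN.L_pow_mem (ih x hx)
    exact fun x hx => h1 hx

/-- elements in all terms of all series lie in all images -/
theorem residN {G : Type} [Group G] [Group.FG G] (θ : G →* G)
    (hinj : Function.Injective θ) (hfin : θ.range.FiniteIndex)
    (hN : ∀ p : ℕ, p.Prime → p ∣ θ.range.index → ∀ V : Subgroup G, V.Normal → V.FiniteIndex →
      V.comap θ = V → ¬ p ∣ V.index)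
    (X : Subgroup G) (hXn : X.Normal) (hXf : X.FiniteIndex)
    (hcen : ∀ E F : Subgroup G, E.Normal → F.Normal →
      F ≤ E → F.relIndex E ≠ 0 → F.relIndex E ≤ θ.range.index → ⁅X, E⁆ ≤ F)
    (x : X) (hx : ∀ p : ℕ, p.Prime → p ∣ θ.range.index → ∀ m, x ∈ (PCN.L p m : Subgroup X))
    (j : ℕ) : (x : G) ∈ (itr θ j).range := by
  classical
  have hSf : (itr θ j).range.FiniteIndex :=
    ⟨by rw [itr_index θ hinj]; exact pow_ne_zero _ hfin.index_ne_zero⟩
  obtain ⟨A, hAn, hAf, hAθ, hAle⟩ := exists_A θ (itr θ j).range hSf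
  obtain ⟨hch, m, hm⟩ := chain_unit θ hfin A hAn hAf hAθ
  set C : ℕ → Subgroup G := fun i => A.comap (itr θ i) with hC
  have hCn : ∀ i, (C i).Normal := fun i => by rw [hC]; infer_instance
  have h0 : C 0 = A := by
    ext x
    rfl
  have hc : ∀ i, ⁅X, C (i + 1)⁆ ≤ C i := fun i =>
    hcen (C (i + 1)) (C i) (hCn _) (hCn _) (hch i).1 (hch i).2.1 (hch i).2.2
  have hAC : ∀ i, A ≤ C i := by
    intro i
    induction i with
    | zero => rw [h0]
    | succ i ih => exact ih.trans (hch i).1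
  have hVf : (C m).FiniteIndex := Subgroup.finiteIndex_of_le (hAC m)
  let A1 : Subgroup X := A.subgroupOf X
  have hA1n : A1.Normal := inferInstance
  have hA1f : A1.FiniteIndex := inferInstance
  have hfin1 : Finite (X ⧸ A1) := inferInstance
  have hR : ∀ p : ℕ, ∃ R : Subgroup (X ⧸ A1), R.Normal ∧ (QuotientGroup.mk' A1 x) ∈ R ∧
      (p.Prime → p ∣ θ.range.index → ¬ p ∣ Nat.card R) := by
    intro p
    by_cases hp : p.Prime ∧ p ∣ θ.range.index
    · have hpf : Fact p.Prime := ⟨hp.1⟩
      have hV : ¬ p ∣ (C m).index := hN p hp.1 hp.2 (C m) (hCn m) hVf hm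
      have h1 : ¬ p ∣ (Subgroup.upperCentralSeries (X ⧸ A1) m).index := by
        intro h
        apply hV
        have h2 : ((C m).subgroupOf X) ≤
            (Subgroup.upperCentralSeries (X ⧸ A1) m).comap (QuotientGroup.mk' A1) := by
          intro x hx
          exact ucs_ge X A hAn C h0 hc m x hx
        have h3 := Subgroup.index_dvd_of_le h2
        rw [Subgroup.index_comap_of_surjective _ (QuotientGroup.mk'_surjective _)] at h3
        have h4 : ((C m).subgroupOf X).index ∣ (C m).index := by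
          have hn : (C m).Normal := hCn m
          exact Subgroup.relIndex_dvd_index_of_normal _ _
        exact h.trans (h3.trans h4)
      obtain ⟨R, hRn, ⟨a, ha⟩, hR⟩ := p_compl m h1
      refine ⟨R, hRn, ?_, fun _ _ => hR⟩
      obtain ⟨l, hl⟩ := term_le p a (R.comap (QuotientGroup.mk' A1)) (hRn.comap _) (by
        rw [Subgroup.index_comap_of_surjective _ (QuotientGroup.mk'_surjective _), ha])
      exact hl (hx p hp.1 hp.2 l)
    · exact ⟨⊤, inferInstance, Subgroup.mem_top _, fun h1 h2 => absurd ⟨h1, h2⟩ hp⟩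
  choose R hRn hRx hRp using hR
  let R0 : Subgroup (X ⧸ A1) := ⨅ p, R p
  have hR0n : R0.Normal := Subgroup.normal_iInf_normal hRn
  have hR0x : QuotientGroup.mk' A1 x ∈ R0 := Subgroup.mem_iInf.2 hRx
  let K : Subgroup X := R0.comap (QuotientGroup.mk' A1)
  have hKn : K.Normal := hR0n.comap _
  have hKx : x ∈ K := hR0x
  have hA1K : A1 ≤ K := by
    intro y hy
    show QuotientGroup.mk' A1 y ∈ R0
    have : QuotientGroup.mk' A1 y = 1 := (QuotientGroup.eq_one_iff y).2 hy
    rw [this]
    exact one_mem _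
  have hKf : K.FiniteIndex := Subgroup.finiteIndex_of_le hA1K
  let S : Subgroup X := (itr θ j).range.subgroupOf X
  have hAS : A1 ≤ S := fun y hy => hAle hy
  -- the index of `S ∩ K` in `K`
  have h1 : S.relIndex K ∣ Nat.card R0 := by
    have h2 : A1.relIndex K = Nat.card R0 := by
      have h3 : A1.relIndex K * K.index = A1.index := Subgroup.relIndex_mul_index hA1K
      have h4 : K.index = R0.index :=
        Subgroup.index_comap_of_surjective _ (QuotientGroup.mk'_surjective _)
      have h5 : Nat.card R0 * R0.index = A1.index := Subgroup.card_mul_index R0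
      rw [h4, ← h5] at h3
      exact Nat.eq_of_mul_eq_mul_right (Nat.pos_of_ne_zero (h4 ▸ hKf.index_ne_zero)) h3
    rw [← h2]
    exact Subgroup.relIndex_dvd_of_le_left K hAS
  have h2 : S.relIndex K ∣ θ.range.index ^ j := by
    refine (rel_dvd S K hKf.index_ne_zero).trans ?_
    rw [← itr_index θ hinj]
    exact rel_dvd (itr θ j).range X hXf.index_ne_zero
  have h3 : Nat.Coprime (Nat.card R0) (θ.range.index ^ j) := by
    apply Nat.Coprime.pow_right
    apply Nat.Coprime.symm
    apply Nat.coprime_of_dvd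
    intro p hp hpD hpR
    apply hRp p hp hpD
    exact hpR.trans (Subgroup.card_dvd_of_le (iInf_le R p))
  have h4 : S.relIndex K = 1 := Nat.eq_one_of_dvd_coprimes h3 h1 h2
  exact (Subgroup.relIndex_eq_one.1 h4) hKx

/-- no stable characters when there are no unit quotients -/
theorem no_char {Y : Type} [Group Y] (ψ : Y →* Y) (p : ℕ) [hp : Fact p.Prime] (n : ℕ)
    (hn : 0 < n) (hU : ∀ (m : ℕ) (W : Subgroup Y), 0 < m → W.Normal → W.FiniteIndex →
      W.comap (itr ψ m) = W → ¬ p ∣ W.index)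
    (c : Y →* Multiplicative (ZMod p)) (hc : ∀ x, c (ψ^[n] x) = c x) : c = 1 := by
  by_contra hne
  have hcard : Nat.card (Multiplicative (ZMod p)) = p := by
    rw [Nat.card_eq_fintype_card, Fintype.card_multiplicative, ZMod.card]
  have h1 : c.ker.index ∣ p := by
    rw [Subgroup.index_ker]
    have h2 := c.range.card_subgroup_dvd_card
    rwa [hcard] at h2
  have h2 : c.ker.index ≠ 1 := by
    intro h
    rw [Subgroup.index_eq_one] at h
    apply hne
    ext x
    have h3 : x ∈ c.ker := by rw [h]; exact Subgroup.mem_top _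
    rw [MonoidHom.mem_ker] at h3
    rw [h3]
    rfl
  have h3 : c.ker.index = p := ((Nat.dvd_prime hp.out).1 h1).resolve_left h2
  refine hU n c.ker hn inferInstance ⟨by rw [h3]; exact hp.out.ne_zero⟩ ?_ (by rw [h3])
  ext x
  rw [Subgroup.mem_comap, MonoidHom.mem_ker, MonoidHom.mem_ker, itr_eq_iterate, hc]

/-- the case without unit quotients -/
theorem nilp_core {Q : Type} [Group Q] [Group.FG Q] (φ : Q →* Q)
    (hinj : Function.Injective φ) (hfin : φ.range.FiniteIndex)
    (hcap : ∀ q : Q, (∀ k : ℕ, q ∈ Set.range (φ^[k])) → q = 1)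
    (hN : ∀ p : ℕ, p.Prime → p ∣ φ.range.index → ∀ V : Subgroup Q, V.Normal → V.FiniteIndex →
      V.comap φ = V → ¬ p ∣ V.index)
    (hbu : ∀ p : ℕ, p.Prime → p ∣ φ.range.index → BU φ p) :
    ∃ N : Subgroup Q, N.FiniteIndex ∧ Group.IsNilpotent N := by
  classical
  have hD0 : φ.range.index ≠ 0 := hfin.index_ne_zero
  let P : Finset ℕ := φ.range.index.primeFactors
  have hP : ∀ p, p ∈ P ↔ p.Prime ∧ p ∣ φ.range.index := by
    intro p
    show p ∈ φ.range.index.primeFactors ↔ _
    rw [Nat.mem_primeFactors]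
    exact ⟨fun h => ⟨h.1, h.2.1⟩, fun h => ⟨h.1, h.2, hD0⟩⟩
  obtain ⟨G1, hG1n, hG1f, hcen⟩ := exists_cen (G := Q) φ.range.index
  obtain ⟨X, hXn, hXf, hXφ, hXG1⟩ := exists_A φ G1 hG1f
  have hcen' : ∀ E F : Subgroup Q, E.Normal → F.Normal →
      F ≤ E → F.relIndex E ≠ 0 → F.relIndex E ≤ φ.range.index → ⁅X, E⁆ ≤ F :=
    fun E F hE hF hFE h1 h2 =>
      (Subgroup.commutator_mono hXG1 le_rfl).trans (hcen E F hE hF hFE h1 h2)
  have hXfg : Group.FG X := inferInstance
  obtain ⟨Y, M, hY, hM, hYn, hYf, hYu⟩ := max_unit (rst φ X hXφ) P (fun p hp => ((hP p).1 hp).1)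
    (fun p hp => (BU.sub (hbu p ((hP p).1 hp).1 ((hP p).1 hp).2) X.subtype (rst φ X hXφ) 1
      X.subtype_injective (by rw [Subgroup.range_subtype]; exact hXf) one_pos
      (fun y => rfl)).bdd)
  have hYfg : Group.FG Y := inferInstance
  set ψ : Y →* Y := rst (itr (rst φ X hXφ) M) Y hY with hψ
  have hψf : ψ.range.FiniteIndex :=
    rst_fin (itr_inj (rst_inj hinj X hXφ) M)
      (itr_range_finiteIndex (rst_inj hinj X hXφ) (rst_fin hinj hfin X hXf hXφ) M) Y hYf hY
  -- contraction modulo each prime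
  have hcon : ∀ p : ℕ, ∃ n w : ℕ, (p.Prime → p ∣ φ.range.index →
      (PCN.L p n : Subgroup Y).FiniteIndex ∧
      ∀ x : Y, x ∈ (⊤ : Subgroup Y).lowerCentralSeries w → x ∈ (PCN.L p n : Subgroup Y) →
        ∀ m, x ∈ (PCN.L p m : Subgroup Y)) := by
    intro p
    by_cases hp : p.Prime ∧ p ∣ φ.range.index
    · have hpf : Fact p.Prime := ⟨hp.1⟩
      have hW : Finite (Y →* Multiplicative (ZMod p)) := finite_hom Y (Multiplicative (ZMod p))
      obtain ⟨n, hn, hi⟩ := exists_idem_iter
        (fun c : Y →* Multiplicative (ZMod p) => c.comp ψ)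
      have hT : ∀ (k : ℕ) (c : Y →* Multiplicative (ZMod p)) (x : Y),
          ((fun c : Y →* Multiplicative (ZMod p) => c.comp ψ)^[k] c) x = c (ψ^[k] x) := by
        intro k
        induction k with
        | zero => intro c x; rfl
        | succ k ih =>
          intro c x
          rw [Function.iterate_succ_apply, ih, Function.iterate_succ_apply']
          rfl
      have hz : ∀ (c : Y →* Multiplicative (ZMod p)) (x : Y), c (ψ^[n] x) = 1 := by
        intro c x
        have h1 := no_char ψ p n hn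
          (fun m W hm hWn hWf hW => hYu m W hm hWn hWf hW p ((hP p).2 hp))
          ((fun c : Y →* Multiplicative (ZMod p) => c.comp ψ)^[n] c) (fun y => by
            have h2 := DFunLike.congr_fun (hi c) y
            rw [hT n _ y] at h2
            exact h2)
        rw [← hT, h1]
        rfl
      obtain ⟨n', w, h1, h2⟩ := contr_core p ψ hψf n (fun x => by
        apply mem_L_one
        intro c
        exact hz c x)
      exact ⟨n', w, fun _ _ => ⟨h1, h2⟩⟩
    · exact ⟨0, 0, fun h1 h2 => absurd ⟨h1, h2⟩ hp⟩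
  choose n w hnw using hcon
  let N : Subgroup Y := ⨅ p : P, PCN.L (p : ℕ) (n p)
  have hNf : N.FiniteIndex := by
    apply Subgroup.finiteIndex_iInf
    intro p
    exact (hnw p ((hP p).1 p.2).1 ((hP p).1 p.2).2).1
  let w0 : ℕ := P.sup w
  have hbot : (⊤ : Subgroup N).lowerCentralSeries w0 = ⊥ := by
    rw [eq_bot_iff]
    intro y hy
    have h1 : (N.subtype y) ∈ (⊤ : Subgroup Y).lowerCentralSeries w0 := by
      have h2 : ((⊤ : Subgroup N).lowerCentralSeries w0).map N.subtype ≤
          (⊤ : Subgroup Y).lowerCentralSeries w0 := by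
        rw [Subgroup.map_lowerCentralSeries]
        exact Subgroup.lowerCentralSeries_mono w0 le_top
      exact h2 ⟨y, hy, rfl⟩
    have h3 : ∀ p : ℕ, p.Prime → p ∣ φ.range.index → ∀ m,
        Y.subtype (N.subtype y) ∈ (PCN.L p m : Subgroup X) := by
      intro p hp hpD m
      have hpP : p ∈ P := (hP p).2 ⟨hp, hpD⟩
      apply L_hom p Y.subtype m
      refine (hnw p hp hpD).2 _ ?_ ?_ m
      · exact Subgroup.lowerCentralSeries_antitone _ (Finset.le_sup hpP) h1
      · exact (Subgroup.mem_iInf.1 y.2) ⟨p, hpP⟩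
    have h4 : ((Y.subtype (N.subtype y) : X) : Q) = 1 := by
      apply hcap
      intro k
      obtain ⟨z, hz⟩ := residN φ hinj hfin hN X hXn hXf hcen' (Y.subtype (N.subtype y)) h3 k
      exact ⟨z, by rw [← itr_eq_iterate]; exact hz⟩
    rw [Subgroup.mem_bot]
    exact Subtype.ext (Subtype.ext (Subtype.ext h4))
  have hNn : Group.IsNilpotent N := by
    rw [Subgroup.nilpotent_iff_lowerCentralSeries]
    exact ⟨w0, hbot⟩
  have hinjX : Function.Injective (X.subtype.comp Y.subtype) :=
    X.subtype_injective.comp Y.subtype_injective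
  refine ⟨N.map (X.subtype.comp Y.subtype), ⟨?_⟩, ?_⟩
  · rw [Subgroup.index_map_of_injective _ hinjX, MonoidHom.range_comp, Subgroup.range_subtype,
      Subgroup.index_map_subtype]
    exact mul_ne_zero hNf.index_ne_zero (mul_ne_zero hYf.index_ne_zero hXf.index_ne_zero)
  · exact Group.nilpotent_of_mulEquiv (N.equivMapOfInjective _ hinjX)

/-- THEOREM P'': bounded `p`-parts of the unit quotients -/
theorem nilp_of_bu {Q : Type} [Group Q] [Group.FG Q] (φ : Q →* Q)
    (hinj : Function.Injective φ) (hfin : φ.range.FiniteIndex)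
    (hcap : ∀ q : Q, (∀ k : ℕ, q ∈ Set.range (φ^[k])) → q = 1)
    (hbu : ∀ p : ℕ, p.Prime → p ∣ φ.range.index → BU φ p) :
    ∃ N : Subgroup Q, N.FiniteIndex ∧ Group.IsNilpotent N := by
  classical
  have hD0 : φ.range.index ≠ 0 := hfin.index_ne_zero
  let P : Finset ℕ := φ.range.index.primeFactors
  have hP : ∀ p, p ∈ P ↔ p.Prime ∧ p ∣ φ.range.index := by
    intro p
    show p ∈ φ.range.index.primeFactors ↔ _
    rw [Nat.mem_primeFactors]
    exact ⟨fun h => ⟨h.1, h.2.1⟩, fun h => ⟨h.1, h.2, hD0⟩⟩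
  obtain ⟨Y, M, hY, hM, hYn, hYf, hYu⟩ := max_unit φ P (fun p hp => ((hP p).1 hp).1)
    (fun p hp => (hbu p ((hP p).1 hp).1 ((hP p).1 hp).2).bdd)
  have hYfg : Group.FG Y := inferInstance
  have hinjM : Function.Injective (itr φ M) := itr_inj hinj M
  have hfinM : (itr φ M).range.FiniteIndex := itr_range_finiteIndex hinj hfin M
  set ψ : Y →* Y := rst (itr φ M) Y hY with hψ
  have hψi : Function.Injective ψ := rst_inj hinjM Y hY
  have hψf : ψ.range.FiniteIndex := rst_fin hinjM hfinM Y hYf hY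
  have hidx : ψ.range.index = φ.range.index ^ M := by
    rw [hψ, rst_idx hinjM Y hYf hY, itr_index φ hinj]
  have hpp : ∀ p : ℕ, p.Prime → p ∣ ψ.range.index → p ∣ φ.range.index := by
    intro p hp h
    rw [hidx] at h
    exact hp.dvd_of_dvd_pow h
  obtain ⟨N, hNf, hNn⟩ := nilp_core ψ hψi hψf (fun q hq => by
      apply Subtype.ext
      apply hcap
      intro k
      obtain ⟨z, hz⟩ := hq k
      refine ⟨φ^[M * k - k] (z : Q), ?_⟩
      rw [← Function.iterate_add_apply, Nat.add_sub_cancel' (Nat.le_mul_of_pos_left k hM),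
        ← itr_eq_iterate, ← itr_mulP, ← itr_rst (itr φ M) Y hY, itr_eq_iterate, ← hψ, hz])
    (fun p hp hpD V hV hVf h => hYu 1 V one_pos hV hVf h p ((hP p).2 ⟨hp, hpp p hp hpD⟩))
    (fun p hp hpD => BU.sub (hbu p hp (hpp p hp hpD)) Y.subtype ψ M Y.subtype_injective
      (by rw [Subgroup.range_subtype]; exact hYf) hM (fun y => rfl))
  refine ⟨N.map Y.subtype, ⟨?_⟩, ?_⟩
  · rw [Subgroup.index_map_subtype]
    exact mul_ne_zero hNf.index_ne_zero hYf.index_ne_zero
  · exact Group.nilpotent_of_mulEquiv (N.equivMapOfInjective Y.subtype Y.subtype_injective)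

end BCX
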