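import Pool.Agent.BCX.Stq

/-!
# The stable parts modulo the powers of a prime, up to bounded factors
-/

set_option autoImplicit false

open CategoryTheory groupCohomology EssMap

namespace BCX

/-- the stable part of the middle term, up to bounded factors -/
private theorem SW_abs {H W K : Type*} [AddCommGroup H] [AddCommGroup W] [AddCommGroup K]
    [Finite W] (T : H →+ H) (S : W →+ W) (R : K →+ K) (q : H →+ W) (d : W →+ K)
    (hq : ∀ x, q (T x) = S (q x)) (hd : ∀ x, d (S x) = R (d x))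
    (hex : ∀ w, d w = 0 ↔ ∃ h, q h = w) (m : ℕ) (hmW : ∀ w : W, m • w = 0)
    (tK : AddSubgroup K) [Finite tK] (htK : ∀ x : K, m • x = 0 → x ∈ tK) :
    ∃ S' : q.range →+ q.range, (∀ x, q.rangeRestrict (T x) = S' (q.rangeRestrict x)) ∧
      Nat.card (st S) ≤ Nat.card (st S') * Nat.card tK ∧
      Nat.card (st S') ≤ Nat.card (st S) := by
  let S' : q.range →+ q.range :=
    { toFun := fun x => ⟨S x.1, by
        obtain ⟨y, hy⟩ := x.2
        exact ⟨T y, by rw [hq, hy]⟩⟩
      map_zero' := Subtype.ext (map_zero S)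
      map_add' := fun a b => Subtype.ext (map_add S a.1 b.1) }
  let R' : d.range →+ d.range :=
    { toFun := fun x => ⟨R x.1, by
        obtain ⟨y, hy⟩ := x.2
        exact ⟨S y, by rw [hd, hy]⟩⟩
      map_zero' := Subtype.ext (map_zero R)
      map_add' := fun a b => Subtype.ext (map_add R a.1 b.1) }
  have fr : Finite d.range := Finite.of_surjective _ d.rangeRestrict_surjective
  have key : ∀ w ∈ st S, d w = 0 → ∃ t : st S', t.1.1 = w := by
    intro w hw h0
    have h1 := (st_exact S' S R' q.range.subtype d.rangeRestrict (fun _ => rfl)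
      (fun b => Subtype.ext (hd b)) (fun b => by
        constructor
        · intro h
          have h2 : d b = 0 := congrArg Subtype.val h
          obtain ⟨x, hx⟩ := (hex b).1 h2
          exact ⟨⟨b, x, hx⟩, rfl⟩
        · rintro ⟨⟨a, x, hx⟩, rfl⟩
          apply Subtype.ext
          exact (hex _).2 ⟨x, hx⟩) w hw).1 (Subtype.ext h0)
    obtain ⟨a, ha, rfl⟩ := h1
    exact ⟨⟨a, ha⟩, rfl⟩
  refine ⟨S', fun x => Subtype.ext (hq x), ?_, ?_⟩
  · let D : st S →+ K := d.comp (st S).subtype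
    have c1 := AddSubgroup.card_eq_card_quotient_mul_card_addSubgroup D.ker
    have c2 : Nat.card D.ker ≤ Nat.card (st S') := by
      have hc : ∀ x : D.ker, ∃ t : st S', t.1.1 = x.1.1 := fun x => key x.1.1 x.1.2 x.2
      choose f hf using hc
      apply Nat.card_le_card_of_injective f
      intro a b hab
      apply Subtype.ext
      apply Subtype.ext
      rw [← hf a, ← hf b, hab]
    have c3 : Nat.card (st S ⧸ D.ker) ≤ Nat.card tK := by
      rw [Nat.card_congr (QuotientAddGroup.quotientKerEquivRange D).toEquiv]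
      have hc : ∀ x : D.range, x.1 ∈ tK := by
        rintro ⟨_, w, rfl⟩
        apply htK
        show m • d w.1 = 0
        rw [← map_nsmul, hmW, map_zero]
      apply Nat.card_le_card_of_injective (fun x => (⟨x.1, hc x⟩ : tK))
      intro a b hab
      apply Subtype.ext
      exact congrArg (fun z : tK => z.1) hab
    rw [c1, mul_comm]
    exact Nat.mul_le_mul c2 c3
  · have h2 : ∀ n (c : q.range), (S'^[n] c).1 = S^[n] c.1 := by
      intro n
      induction n with
      | zero => intro c; rfl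
      | succ n ih =>
        intro c
        rw [Function.iterate_succ_apply, Function.iterate_succ_apply, ih]
        rfl
    have h3 : ∀ x : st S', x.1.1 ∈ st S := by
      rintro ⟨x, hx⟩ k
      obtain ⟨y, hy⟩ := hx k
      exact ⟨y.1, by rw [← h2, hy]⟩
    apply Nat.card_le_card_of_injective (fun x => (⟨x.1.1, h3 x⟩ : st S))
    intro a b hab
    apply Subtype.ext
    apply Subtype.ext
    exact congrArg (fun z : st S => z.1) hab

/-- ROW E4' -/
theorem st_two {G : Type} [Group G] (θ : G →* G) (p : ℕ) [Fact p.Prime] (i : ℕ)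
    (h1 : Module.Finite ℤ (HZ G i)) (h2 : Module.Finite ℤ (HZ G (i + 1))) :
    ∃ C : ℕ, 0 < C ∧ ∀ k : ℕ, 0 < k →
      un θ (Fm G (p ^ k)) (Fm_inv θ (p ^ k)) i ≤ C * ub p (pull θ i).toAddMonoidHom ^ k ∧
      ub p (pull θ i).toAddMonoidHom ^ k ≤ C * un θ (Fm G (p ^ k)) (Fm_inv θ (p ^ k)) i := by
  have g1 := STB_cv h1
  have g2 := STB_cv h2
  have f2 : Finite (STB_t (HZ G (i + 1))) := STB_tors g2
  let T := TT θ (Rep.trivial ℤ G ℤ) (ZZ_inv θ) i
  obtain ⟨C, hC, hc⟩ := st_pow p g1 T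
  have ht : 0 < Nat.card (STB_t (HZ G (i + 1))) := Nat.card_pos
  refine ⟨C * Nat.card (STB_t (HZ G (i + 1))), Nat.mul_pos hC ht, fun k _ => ?_⟩
  have hpk : 0 < p ^ k := pow_pos (Fact.out : p.Prime).pos k
  let hX := XE_shortExact G (p ^ k) hpk
  let d : groupCohomology (Fm G (p ^ k)) i →+ HZ G (i + 1) :=
    (δ hX i (i + 1) rfl).hom.toAddMonoidHom
  let q : HZ G i →+ groupCohomology (Fm G (p ^ k)) i := (cmap (redE G (p ^ k)) i).toAddMonoidHom
  have f3 : Finite (groupCohomology (Fm G (p ^ k)) i) :=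
    STB_fin q d (fun w => les3 hX i (i + 1) rfl w) (p ^ k) hpk (STB_ann (p ^ k) i) g1 g2
  obtain ⟨S', hS, a1, a2⟩ := SW_abs T (TT θ (Fm G (p ^ k)) (Fm_inv θ (p ^ k)) i)
    (TT θ (Rep.trivial ℤ G ℤ) (ZZ_inv θ) (i + 1)) q d
    (fun x => TT_nat θ (ZZ_inv θ) (Fm_inv θ (p ^ k)) _ i x)
    (fun x => TT_delta θ hX (ZZ_inv θ) (ZZ_inv θ) (Fm_inv θ (p ^ k)) i (i + 1) rfl x)
    (fun w => les3 hX i (i + 1) rfl w) (p ^ k) (STB_ann (p ^ k) i) (STB_t (HZ G (i + 1)))
    (fun x hx => ⟨p ^ k, hpk, hx⟩)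
  obtain ⟨b1, b2⟩ := hc k q.range S' q.rangeRestrict q.rangeRestrict_surjective (fun x => by
    have e1 : q.rangeRestrict x = 0 ↔ q x = 0 :=
      ⟨fun h => congrArg Subtype.val h, fun h => Subtype.ext h⟩
    rw [e1]
    refine (les2 hX i x).trans ?_
    have e2 : ∀ y : HZ G i, cmap (XE G (p ^ k)).f i y = (p ^ k : ℕ) • y := by
      intro y
      have e3 : cmap (((p ^ k : ℕ) : ℤ) • 𝟙 (Rep.trivial ℤ G ℤ)) i y = (p ^ k : ℕ) • y := by
        rw [cmap_int_smul, cmap_id, natCast_zsmul]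
        rfl
      exact e3
    constructor
    · rintro ⟨y, hy⟩
      exact ⟨y, by rw [← hy]; exact e2 y⟩
    · rintro ⟨y, hy⟩
      exact ⟨y, by rw [hy]; exact e2 y⟩) hS
  have hu : un θ (Fm G (p ^ k)) (Fm_inv θ (p ^ k)) i =
      Nat.card (st (TT θ (Fm G (p ^ k)) (Fm_inv θ (p ^ k)) i)) := rfl
  have hT : ub p (pull θ i).toAddMonoidHom = ub p T := rfl
  rw [hu, hT]
  constructor
  · calc _ ≤ Nat.card (st S') * Nat.card (STB_t (HZ G (i + 1))) := a1
      _ ≤ C * ub p T ^ k * Nat.card (STB_t (HZ G (i + 1))) := Nat.mul_le_mul_right _ b1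
      _ = _ := by ring
  · calc _ ≤ C * Nat.card (st S') := b2
      _ ≤ C * Nat.card (st (TT θ (Fm G (p ^ k)) (Fm_inv θ (p ^ k)) i)) :=
        Nat.mul_le_mul_left _ a2
      _ ≤ _ := by
        rw [mul_assoc]
        exact Nat.mul_le_mul_left _ (Nat.le_mul_of_pos_left _ ht)

end BCX
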