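import Pool.Agent.BCX.Ub

/-!
# The stable part modulo a prime and torsion is a power of the prime
-/

set_option autoImplicit false

open CategoryTheory groupCohomology EssMap

namespace BCX

/-- subgroups of an elementary abelian group with a finite set of generators -/
private theorem UBP_abs (p : ℕ) [Fact p.Prime] {V : Type*} [AddCommGroup V] [Module (ZMod p) V]
    {ι : Type*} [Fintype ι] (w : ι → V) (hw : ∀ x : V, ∃ n : ι → ℤ, x = ∑ i, n i • w i)
    (S : AddSubgroup V) : ∃ a ≤ Fintype.card ι, Nat.card S = p ^ a := by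
  have hs : Submodule.span (ZMod p) (Set.range w) = ⊤ := by
    rw [eq_top_iff]
    intro x _
    obtain ⟨n, rfl⟩ := hw x
    exact Submodule.sum_mem _ fun i _ =>
      zsmul_mem (Submodule.subset_span (Set.mem_range_self i)) _
  have hf : Module.Finite (ZMod p) V := ⟨⟨(Set.finite_range w).toFinset, by
    rw [Set.Finite.coe_toFinset, hs]⟩⟩
  have hd : Module.finrank (ZMod p) V ≤ Fintype.card ι := by
    have h1 := finrank_range_le_card (R := ZMod p) w
    unfold Set.finrank at h1
    rwa [hs, finrank_top] at h1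
  let M : Submodule (ZMod p) V := AddSubgroup.toZModSubmodule p S
  refine ⟨Module.finrank (ZMod p) M, (Submodule.finrank_le M).trans hd, ?_⟩
  have h1 : Nat.card M = p ^ Module.finrank (ZMod p) M := by
    have h2 : Finite M := Module.finite_of_finite (ZMod p)
    have := Fintype.ofFinite M
    rw [Nat.card_eq_fintype_card, Module.card_eq_pow_finrank (K := ZMod p), ZMod.card]
  exact h1

/-- ROW Ubp -/
theorem ub_pow (p : ℕ) [Fact p.Prime] {H : Type} [AddCommGroup H] (hH : Module.Finite ℤ H)
    (T : H →+ H) : ∃ a, a ≤ Module.finrank ℤ H ∧ ub p T = p ^ a := by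
  have hk : ∀ x : H ⧸ PT p H, p • x = 0 := by
    intro x
    obtain ⟨y, rfl⟩ := QuotientAddGroup.mk'_surjective (PT p H) x
    rw [← map_nsmul, QuotientAddGroup.mk'_apply, QuotientAddGroup.eq_zero_iff]
    exact ⟨y, 1, one_ne_zero, by simp⟩
  have hL : Module.Free ℤ (H ⧸ Submodule.torsion ℤ H) := inferInstance
  let b := Module.Free.chooseBasis ℤ (H ⧸ Submodule.torsion ℤ H)
  have hr : Fintype.card (Module.Free.ChooseBasisIndex ℤ (H ⧸ Submodule.torsion ℤ H)) ≤
      Module.finrank ℤ H := by
    rw [← Module.finrank_eq_card_chooseBasisIndex]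
    exact Submodule.finrank_quotient_le _
  choose v hv using fun i => Submodule.mkQ_surjective (Submodule.torsion ℤ H) (b i)
  obtain ⟨a, ha, h⟩ := @UBP_abs p _ (H ⧸ PT p H) _ (AddCommGroup.zmodModule hk)
    (Module.Free.ChooseBasisIndex ℤ (H ⧸ Submodule.torsion ℤ H)) _
    (fun i => QuotientAddGroup.mk' _ (v i)) (by
    intro x
    obtain ⟨y, rfl⟩ := QuotientAddGroup.mk'_surjective (PT p H) x
    refine ⟨fun i => b.repr ((Submodule.torsion ℤ H).mkQ y) i, ?_⟩
    have h1 : (Submodule.torsion ℤ H).mkQ y =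
        (Submodule.torsion ℤ H).mkQ (∑ i, (b.repr ((Submodule.torsion ℤ H).mkQ y)) i • v i) := by
      rw [map_sum]
      simp_rw [map_zsmul, hv]
      exact (b.sum_repr _).symm
    have h2 : y - ∑ i, (b.repr ((Submodule.torsion ℤ H).mkQ y)) i • v i ∈
        Submodule.torsion ℤ H := by
      refine (Submodule.Quotient.mk_eq_zero _).1 ?_
      show (Submodule.torsion ℤ H).mkQ _ = 0
      rw [map_sub, ← h1, sub_self]
    rw [Submodule.mem_torsion_iff] at h2
    obtain ⟨e, he⟩ := h2
    have h4 : QuotientAddGroup.mk' (PT p H)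
        (y - ∑ i, (b.repr ((Submodule.torsion ℤ H).mkQ y)) i • v i) = 0 := by
      rw [QuotientAddGroup.mk'_apply, QuotientAddGroup.eq_zero_iff]
      refine ⟨0, e, nonZeroDivisors.ne_zero e.2, ?_⟩
      rw [smul_zero, sub_zero]
      exact he
    rw [map_sub, sub_eq_zero] at h4
    rw [h4, map_sum]
    simp_rw [map_zsmul]) (st (Tq p T))
  exact ⟨a, ha.trans hr, h⟩

end BCX
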