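import Pool.Agent.BCX.Egen
import Pool.Agent.BCX.Pbu
import Pool.Agent.BCX.Sha
import Pool.Agent.BCX.Coi
import Pool.Agent.BCX.Stw
import Pool.Agent.BCX.Ubp
import Pool.Agent.BCX.Fng

/-!
# The Euler characteristic of the unit part
-/

set_option autoImplicit false

open CategoryTheory groupCohomology EssMap
open scoped commutatorElement

namespace BCX

private theorem ELE_arith (a b C : ℕ) (h : ∀ k : ℕ, 0 < k → a ^ k ≤ C * b ^ k) : a ≤ b := by
  by_contra hab
  push Not at hab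
  rcases Nat.eq_zero_or_pos b with rfl | hb
  · have h1 := h 1 one_pos
    rw [pow_one, pow_one, Nat.mul_zero] at h1
    omega
  · obtain ⟨k, hk⟩ : ∃ k, k = C * b + 1 := ⟨_, rfl⟩
    have hk0 : 0 < k := by omega
    have h1 := h k hk0
    have h2 : (b + 1) ^ k ≤ a ^ k := Nat.pow_le_pow_left hab k
    have h3 : b ^ k + k * b ^ (k - 1) ≤ (b + 1) ^ k := by
      have h4 : ∀ n : ℕ, b ^ (n + 1) + (n + 1) * b ^ n ≤ (b + 1) ^ (n + 1) := by
        intro n
        induction n with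
        | zero => simp
        | succ n ih =>
          calc b ^ (n + 1 + 1) + (n + 1 + 1) * b ^ (n + 1)
              ≤ (b ^ (n + 1) + (n + 1) * b ^ n) * (b + 1) := by
                rw [pow_succ b (n + 1), pow_succ b n]
                ring_nf
                nlinarith [Nat.zero_le (b ^ n), Nat.zero_le (n * b ^ n)]
            _ ≤ (b + 1) ^ (n + 1) * (b + 1) := Nat.mul_le_mul_right _ ih
            _ = (b + 1) ^ (n + 1 + 1) := (pow_succ _ _).symm
      obtain ⟨n, rfl⟩ : ∃ n, k = n + 1 := ⟨k - 1, by omega⟩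
      exact h4 n
    have h5 : b ^ k = b * b ^ (k - 1) := by
      obtain ⟨n, rfl⟩ : ∃ n, k = n + 1 := ⟨k - 1, by omega⟩
      rw [Nat.add_sub_cancel, pow_succ, mul_comm]
    have h6 : 0 < b ^ (k - 1) := pow_pos hb _
    have h7 : (b + k) * b ^ (k - 1) ≤ (C * b) * b ^ (k - 1) := by
      calc (b + k) * b ^ (k - 1) = b ^ k + k * b ^ (k - 1) := by rw [h5]; ring
        _ ≤ C * b ^ k := h3.trans (h2.trans h1)
        _ = (C * b) * b ^ (k - 1) := by rw [h5]; ring
    have h8 := Nat.le_of_mul_le_mul_right h7 h6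
    omega

theorem evp_le (n : ℕ) (u v C : ℕ → ℕ) (k : ℕ) (hC : ∀ i < n, 1 ≤ C i)
    (h : ∀ i < n, u i ≤ C i * v i ^ k) :
    evp n u ≤ (∏ i ∈ Finset.range n, C i) * evp n v ^ k := by
  unfold evp
  rw [← Finset.prod_pow, ← Finset.prod_mul_distrib]
  apply Finset.prod_le_prod
  · intro i _
    exact Nat.zero_le _
  · intro i hi
    have hi' := Finset.mem_range.1 hi
    split_ifs
    · exact h i hi'
    · rw [one_pow, mul_one]
      exact hC i hi'

theorem odp_le (n : ℕ) (u v C : ℕ → ℕ) (k : ℕ) (hC : ∀ i < n, 1 ≤ C i)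
    (h : ∀ i < n, u i ≤ C i * v i ^ k) :
    odp n u ≤ (∏ i ∈ Finset.range n, C i) * odp n v ^ k := by
  unfold odp
  rw [← Finset.prod_pow, ← Finset.prod_mul_distrib]
  apply Finset.prod_le_prod
  · intro i _
    exact Nat.zero_le _
  · intro i hi
    have hi' := Finset.mem_range.1 hi
    split_ifs
    · rw [one_pow, mul_one]
      exact hC i hi'
    · exact h i hi'

theorem evp_le' (n : ℕ) (u v C : ℕ → ℕ) (k : ℕ) (hC : ∀ i < n, 1 ≤ C i)
    (h : ∀ i < n, v i ^ k ≤ C i * u i) :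
    evp n v ^ k ≤ (∏ i ∈ Finset.range n, C i) * evp n u := by
  unfold evp
  rw [← Finset.prod_pow, ← Finset.prod_mul_distrib]
  apply Finset.prod_le_prod
  · intro i _
    exact Nat.zero_le _
  · intro i hi
    have hi' := Finset.mem_range.1 hi
    split_ifs
    · exact h i hi'
    · rw [one_pow, mul_one]
      exact hC i hi'

theorem odp_le' (n : ℕ) (u v C : ℕ → ℕ) (k : ℕ) (hC : ∀ i < n, 1 ≤ C i)
    (h : ∀ i < n, v i ^ k ≤ C i * u i) :
    odp n v ^ k ≤ (∏ i ∈ Finset.range n, C i) * odp n u := by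
  unfold odp
  rw [← Finset.prod_pow, ← Finset.prod_mul_distrib]
  apply Finset.prod_le_prod
  · intro i _
    exact Nat.zero_le _
  · intro i hi
    have hi' := Finset.mem_range.1 hi
    split_ifs
    · rw [one_pow, mul_one]
      exact hC i hi'
    · exact h i hi'

/-- the product of the orders of the stable parts in even degrees -/
noncomputable def eu (n p : ℕ) {G : Type} [Group G] (θ : G →* G) : ℕ :=
  evp n (fun i => ub p (pull θ i).toAddMonoidHom)

/-- the product of the orders of the stable parts in odd degrees -/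
noncomputable def od (n p : ℕ) {G : Type} [Group G] (θ : G →* G) : ℕ :=
  odp n (fun i => ub p (pull θ i).toAddMonoidHom)

theorem euler_ratio {n : ℕ} (hn0 : 0 < n) {G : Type} [Group G] (hG : Dual n G)
    (ho : Ori n G = ⊤) (θ : G →* G) (hfin : θ.range.FiniteIndex) (p : ℕ) [hp0 : Fact p.Prime]
    (hp : p ∣ θ.range.index) (hfg : ∀ i, i ≤ n → Module.Finite ℤ (HZ G i)) :
    eu n p θ * odp n (un θ (Fm G p) (Fm_inv θ p)) =
      od n p θ * evp n (un θ (Fm G p) (Fm_inv θ p)) := by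
  have hC : ∀ i, ∃ C : ℕ, i < n → 1 ≤ C ∧ ∀ k : ℕ, 0 < k →
      un θ (Fm G (p ^ k)) (Fm_inv θ (p ^ k)) i ≤ C * ub p (pull θ i).toAddMonoidHom ^ k ∧
      ub p (pull θ i).toAddMonoidHom ^ k ≤ C * un θ (Fm G (p ^ k)) (Fm_inv θ (p ^ k)) i := by
    intro i
    by_cases hi : i < n
    · obtain ⟨C, hC, h⟩ := st_two θ p i (hfg i hi.le) (hfg (i + 1) hi)
      exact ⟨C, fun _ => ⟨hC, h⟩⟩
    · exact ⟨0, fun h => absurd h hi⟩
  choose C hC using hC
  set K : ℕ := ∏ i ∈ Finset.range n, C i with hK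
  have hF : ∀ i < n, Finite (groupCohomology (Fm G p) i) := fun i hi =>
    fin_of_fg p hp0.out.pos i (hfg i hi.le) (hfg (i + 1) hi)
  have hC1 : ∀ i < n, 1 ≤ C i := fun i hi => (hC i hi).1
  have key : ∀ k : ℕ, 0 < k → evp n (un θ (Fm G (p ^ k)) (Fm_inv θ (p ^ k))) *
      odp n (un θ (Fm G p) (Fm_inv θ p)) ^ k = odp n (un θ (Fm G (p ^ k)) (Fm_inv θ (p ^ k))) *
        evp n (un θ (Fm G p) (Fm_inv θ p)) ^ k := fun k _ =>
    chi_gen θ hn0 hG ho hfin p hp hF (Fm G (p ^ k)) (good_Fm θ p k) k (Nat.card_zmod _)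
  apply le_antisymm
  · apply ELE_arith _ _ (K * K)
    intro k hk
    have h1 := evp_le' n (un θ (Fm G (p ^ k)) (Fm_inv θ (p ^ k)))
      (fun i => ub p (pull θ i).toAddMonoidHom) C k hC1 (fun i hi => ((hC i hi).2 k hk).2)
    have h2 := odp_le n (un θ (Fm G (p ^ k)) (Fm_inv θ (p ^ k)))
      (fun i => ub p (pull θ i).toAddMonoidHom) C k hC1 (fun i hi => ((hC i hi).2 k hk).1)
    rw [← hK] at h1 h2
    rw [mul_pow, mul_pow]
    calc eu n p θ ^ k * odp n (un θ (Fm G p) (Fm_inv θ p)) ^ k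
        ≤ (K * evp n (un θ (Fm G (p ^ k)) (Fm_inv θ (p ^ k)))) *
          odp n (un θ (Fm G p) (Fm_inv θ p)) ^ k := Nat.mul_le_mul_right _ h1
      _ = K * (odp n (un θ (Fm G (p ^ k)) (Fm_inv θ (p ^ k))) *
          evp n (un θ (Fm G p) (Fm_inv θ p)) ^ k) := by rw [mul_assoc, key k hk]
      _ ≤ K * ((K * od n p θ ^ k) * evp n (un θ (Fm G p) (Fm_inv θ p)) ^ k) :=
          Nat.mul_le_mul_left _ (Nat.mul_le_mul_right _ h2)
      _ = K * K * (od n p θ ^ k * evp n (un θ (Fm G p) (Fm_inv θ p)) ^ k) := by ring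
  · apply ELE_arith _ _ (K * K)
    intro k hk
    have h1 := odp_le' n (un θ (Fm G (p ^ k)) (Fm_inv θ (p ^ k)))
      (fun i => ub p (pull θ i).toAddMonoidHom) C k hC1 (fun i hi => ((hC i hi).2 k hk).2)
    have h2 := evp_le n (un θ (Fm G (p ^ k)) (Fm_inv θ (p ^ k)))
      (fun i => ub p (pull θ i).toAddMonoidHom) C k hC1 (fun i hi => ((hC i hi).2 k hk).1)
    rw [← hK] at h1 h2
    rw [mul_pow, mul_pow]
    calc od n p θ ^ k * evp n (un θ (Fm G p) (Fm_inv θ p)) ^ k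
        ≤ (K * odp n (un θ (Fm G (p ^ k)) (Fm_inv θ (p ^ k)))) *
          evp n (un θ (Fm G p) (Fm_inv θ p)) ^ k := Nat.mul_le_mul_right _ h1
      _ = K * (evp n (un θ (Fm G (p ^ k)) (Fm_inv θ (p ^ k))) *
          odp n (un θ (Fm G p) (Fm_inv θ p)) ^ k) := by rw [mul_assoc, ← key k hk]
      _ ≤ K * ((K * eu n p θ ^ k) * odp n (un θ (Fm G p) (Fm_inv θ p)) ^ k) :=
          Nat.mul_le_mul_left _ (Nat.mul_le_mul_right _ h2)
      _ = K * K * (eu n p θ ^ k * odp n (un θ (Fm G p) (Fm_inv θ p)) ^ k) := by ring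

/-- the Euler characteristic of the unit part is multiplicative for unit subgroups -/
theorem euler_unit {n : ℕ} (hn0 : 0 < n) {G : Type} [Group G] (hG : Dual n G)
    (ho : Ori n G = ⊤) (θ : G →* G) (hinj : Function.Injective θ)
    (hfin : θ.range.FiniteIndex) (p : ℕ) [hp0 : Fact p.Prime]
    (hp : p ∣ θ.range.index) (hfg : ∀ i, i ≤ n → Module.Finite ℤ (HZ G i))
    (U : Subgroup G) [hUn : U.Normal] [hUf : U.FiniteIndex] (hU : ∀ x ∈ U, θ x ∈ U)
    (hpU : ∀ x : G, ∃ n : ℕ, x ^ p ^ n ∈ U) (hθ : ∀ g, g⁻¹ * θ g ∈ U)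
    (hfgU : ∀ i, i ≤ n → Module.Finite ℤ (HZ U i)) :
    eu n p (rst θ U hU) * od n p θ ^ U.index = od n p (rst θ U hU) * eu n p θ ^ U.index := by
  have hGU : Dual n U := hG.sub U
  have hoU : Ori n U = ⊤ := ori_top U n hG.cd (by rw [ho]; exact le_top)
  have hF : ∀ i < n, Finite (groupCohomology (Fm G p) i) := fun i hi =>
    fin_of_fg p hp0.out.pos i (hfg i hi.le) (hfg (i + 1) hi)
  have hFU : ∀ i < n, Finite (groupCohomology (Fm U p) i) := fun i hi =>
    fin_of_fg p hp0.out.pos i (hfgU i hi.le) (hfgU (i + 1) hi)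
  have hfinU : (rst θ U hU).range.FiniteIndex := rst_fin hinj hfin U hUf hU
  have hpU' : p ∣ (rst θ U hU).range.index := by
    rw [rst_idx hinj U hUf hU]
    exact hp
  have h1 := euler_ratio hn0 hG ho θ hfin p hp hfg
  have h2 := euler_ratio hn0 hGU hoU (rst θ U hU) hfinU p hpU' hfgU
  obtain ⟨hV, hc, -⟩ := coi_good θ p U hpU hθ
  have h3 := chi_gen θ hn0 hG ho hfin p hp hF (Rep.coind U.subtype (Fm U p)) hV U.index hc
  have h4 : ∀ i < n, un θ (Rep.coind U.subtype (Fm U p)) hV.inv i =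
      un (rst θ U hU) (Fm U p) (Fm_inv _ p) i := fun i hi =>
    shapiro_un θ p U hU hV.inv i (hFU i hi)
  rw [evp_congr n _ _ h4, odp_congr n _ _ h4] at h3
  have p1 : 0 < odp n (un (rst θ U hU) (Fm U p) (Fm_inv _ p)) :=
    odp_pos fun i hi => un_pos (rst θ U hU) p i (hFU i hi) (Fm U p) (good_Fp _ p)
  have p2 : 0 < evp n (un θ (Fm G p) (Fm_inv θ p)) :=
    evp_pos fun i hi => un_pos θ p i (hF i hi) (Fm G p) (good_Fp θ p)
  revert h1 h2 h3 p1 p2
  generalize odp n (un (rst θ U hU) (Fm U p) (Fm_inv _ p)) = oU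
  generalize evp n (un (rst θ U hU) (Fm U p) (Fm_inv _ p)) = eU
  generalize odp n (un θ (Fm G p) (Fm_inv θ p)) = oG
  generalize evp n (un θ (Fm G p) (Fm_inv θ p)) = eG
  generalize eu n p (rst θ U hU) = aU
  generalize od n p (rst θ U hU) = bU
  generalize eu n p θ = aG
  generalize od n p θ = bG
  generalize U.index = N
  intro h1 h2 h3 p1 p2
  apply Nat.eq_of_mul_eq_mul_right (Nat.mul_pos p1 (pow_pos p2 N))
  calc aU * bG ^ N * (oU * eG ^ N) = (aU * oU) * (bG * eG) ^ N := by rw [mul_pow]; ring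
    _ = (bU * eU) * (aG * oG) ^ N := by rw [h2, h1]
    _ = bU * aG ^ N * (eU * oG ^ N) := by rw [mul_pow]; ring
    _ = bU * aG ^ N * (oU * eG ^ N) := by rw [h3]

end BCX
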