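import Pool.Agent.BCX.Elef

/-!
# The theorems on unit quotients and on the Euler characteristic of the unit part
-/

set_option autoImplicit false

open CategoryTheory groupCohomology EssMap
open scoped commutatorElement

namespace BCX

/-- an injective homomorphism that is compatible with two endomorphisms, and its range -/
theorem ELF_range {Q Y : Type} [Group Q] [Group Y] (φ : Q →* Q) (j : Y →* Q) (η : Y →* Y)
    (hj : Function.Injective j) (hc : ∀ y, j (η y) = φ (j y)) :
    ∃ (hX : ∀ x ∈ j.range, φ x ∈ j.range) (e : Y ≃* j.range),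
      (∀ y, ((e y : j.range) : Q) = j y) ∧ ∀ y, e (η y) = rst φ j.range hX (e y) := by
  have hX : ∀ x ∈ j.range, φ x ∈ j.range := by
    rintro _ ⟨y, rfl⟩
    exact ⟨η y, hc y⟩
  refine ⟨hX, MonoidHom.ofInjective hj, fun y => MonoidHom.ofInjective_apply hj, fun y => ?_⟩
  apply Subtype.ext
  rw [MonoidHom.ofInjective_apply, hc, rst_coe, MonoidHom.ofInjective_apply]

theorem ELF_comap {X Y : Type} [Group X] [Group Y] (e : Y ≃* X) (η : Y →* Y) (ξ : X →* X)
    (h : ∀ y, e (η y) = ξ (e y)) (V : Subgroup Y) (hV : V.comap η = V) :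
    (V.map e.toMonoidHom).comap ξ = V.map e.toMonoidHom := by
  have hmem : ∀ y : Y, e y ∈ V.map e.toMonoidHom ↔ y ∈ V := by
    intro y
    constructor
    · rintro ⟨z, hz, hzy⟩
      have : z = y := e.injective hzy
      rwa [← this]
    · intro hy
      exact ⟨y, hy, rfl⟩
  ext x
  obtain ⟨y, rfl⟩ := e.surjective x
  rw [Subgroup.mem_comap, ← h, hmem, hmem]
  conv_rhs => rw [← hV]
  rfl

/-- the bounds for subgroups give the bounds for injections -/
theorem BU_of_sub {Q : Type} [Group Q] (φ : Q →* Q) (G : Subgroup Q) (hGf : G.FiniteIndex)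
    (hG : ∀ x ∈ G, φ x ∈ G) (p : ℕ)
    (hs : ∀ (X : Subgroup Q) (m : ℕ), X ≤ G → X.FiniteIndex → 0 < m →
      ∀ hX : (∀ x ∈ X, itr φ m x ∈ X), ∃ B : ℕ, ∀ V : Subgroup X, V.Normal → V.FiniteIndex →
        V.comap (rst (itr φ m) X hX) = V → ¬ p ^ B ∣ V.index) : BU (rst φ G hG) p := by
  intro Y _ j η m hj hjf hm hc
  have hji : Function.Injective (G.subtype.comp j) := G.subtype_injective.comp hj
  obtain ⟨hX, e, he, hη⟩ := ELF_range (itr φ m) (G.subtype.comp j) η hji (fun y => by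
    rw [MonoidHom.comp_apply, MonoidHom.comp_apply, hc]
    exact itr_rst φ G hG m (j y))
  obtain ⟨B, hB⟩ := hs (G.subtype.comp j).range m (by
    rintro _ ⟨y, rfl⟩
    exact (j y).2) ⟨by
      rw [MonoidHom.range_comp, Subgroup.index_map_subtype]
      exact mul_ne_zero hjf.index_ne_zero hGf.index_ne_zero⟩ hm hX
  refine ⟨B, fun V hV hVf h => ?_⟩
  have h1 : (V.map e.toMonoidHom).index = V.index := Subgroup.index_map_equiv V e
  have h2 := hB (V.map e.toMonoidHom) (hV.map _ e.surjective) ⟨by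
    rw [h1]; exact hVf.index_ne_zero⟩ (ELF_comap e η _ hη V h)
  rwa [h1] at h2

/-- THEOREM P'', in terms of subgroups -/
theorem nilp_of_bounded {Q : Type} [Group Q] (hfg : Group.FG Q) (φ : Q →* Q)
    (hinj : Function.Injective φ) (hfin : φ.range.FiniteIndex)
    (hcap : ∀ q : Q, (∀ k : ℕ, q ∈ Set.range (φ^[k])) → q = 1)
    (Q₀ : Subgroup Q) (hQ₀ : Q₀.FiniteIndex)
    (hs : ∀ p : ℕ, p.Prime → p ∣ φ.range.index → ∀ (X : Subgroup Q) (m : ℕ), X ≤ Q₀ →
      X.FiniteIndex → 0 < m → ∀ hX : (∀ x ∈ X, itr φ m x ∈ X), ∃ B : ℕ, ∀ V : Subgroup X,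
        V.Normal → V.FiniteIndex → V.comap (rst (itr φ m) X hX) = V → ¬ p ^ B ∣ V.index) :
    ∃ N : Subgroup Q, N.FiniteIndex ∧ Group.IsNilpotent N := by
  obtain ⟨G, -, hGf, hGφ, hGQ⟩ := exists_A φ Q₀ hQ₀
  have hGfg : Group.FG G := inferInstance
  have hit : ∀ (n : ℕ) (x : G), (((rst φ G hGφ)^[n] x : G) : Q) = φ^[n] x := by
    intro n x
    rw [← itr_eq_iterate, ← itr_eq_iterate, itr_rst]
  obtain ⟨N, hNf, hNn⟩ := nilp_of_bu (rst φ G hGφ) (rst_inj hinj G hGφ)
    (rst_fin hinj hfin G hGf hGφ) (fun q hq => by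
      apply Subtype.ext
      apply hcap
      intro k
      obtain ⟨z, hz⟩ := hq k
      exact ⟨z, by rw [← hit, hz]⟩) (fun p hp hpD => by
      rw [rst_idx hinj G hGf hGφ] at hpD
      exact BU_of_sub φ G hGf hGφ p (fun X m hXG hXf hm hX =>
        hs p hp hpD X m (hXG.trans hGQ) hXf hm hX))
  refine ⟨N.map G.subtype, ⟨?_⟩, ?_⟩
  · rw [Subgroup.index_map_subtype]
    exact mul_ne_zero hNf.index_ne_zero hGf.index_ne_zero
  · exact Group.nilpotent_of_mulEquiv (N.equivMapOfInjective G.subtype G.subtype_injective)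

/-! ### transport -/

theorem st_congr {A B : Type*} [AddCommGroup A] [AddCommGroup B] (E : A ≃+ B) (S : A →+ A)
    (T : B →+ B) (h : ∀ a, E (S a) = T (E a)) : Nat.card (st S) = Nat.card (st T) := by
  have hit : ∀ (k : ℕ) (a : A), E (S^[k] a) = T^[k] (E a) := by
    intro k
    induction k with
    | zero => intro a; rfl
    | succ k ih =>
      intro a
      rw [Function.iterate_succ_apply, Function.iterate_succ_apply, ih, h]
  refine Nat.card_congr (Equiv.subtypeEquiv E.toEquiv (fun a => ?_))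
  constructor
  · intro ha k
    obtain ⟨y, rfl⟩ := ha k
    exact ⟨E y, (hit k y).symm⟩
  · intro ha k
    obtain ⟨y, hy⟩ := ha k
    refine ⟨E.symm y, E.injective ?_⟩
    rw [hit, E.apply_symm_apply]
    exact hy

theorem ub_congr (p : ℕ) {H K : Type*} [AddCommGroup H] [AddCommGroup K] (e : H ≃+ K)
    (T : H →+ H) (S : K →+ K) (h : ∀ x, e (T x) = S (e x)) : ub p T = ub p S := by
  have he : (PT p H).map e.toAddMonoidHom = PT p K := by
    ext x
    constructor
    · rintro ⟨y, ⟨z, f, hf, hz⟩, rfl⟩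
      refine ⟨e z, f, hf, ?_⟩
      have h1 := congrArg e hz
      rw [map_zsmul, map_sub, map_zsmul, map_zero] at h1
      exact h1
    · rintro ⟨z, f, hf, hz⟩
      refine ⟨e.symm x, ⟨e.symm z, f, hf, ?_⟩, e.apply_symm_apply x⟩
      have h1 := congrArg e.symm hz
      rw [map_zsmul, map_sub, map_zsmul, map_zero] at h1
      exact h1
  refine st_congr (QuotientAddGroup.congr (PT p H) (PT p K) e he) (Tq p T) (Tq p S) ?_
  intro a
  obtain ⟨x, rfl⟩ := QuotientAddGroup.mk_surjective a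
  show ((e (T x) : K) : K ⧸ PT p K) = ((S (e x) : K) : K ⧸ PT p K)
  rw [h]

/-- isomorphic groups have isomorphic cohomology -/
noncomputable def pullE {X Y : Type} [Group X] [Group Y] (e : Y ≃* X) (i : ℕ) :
    HZ X i ≃ₗ[ℤ] HZ Y i :=
  LinearEquiv.ofLinearMap (pull e.toMonoidHom i) (pull e.symm.toMonoidHom i)
    (by
      ext x
      show pull e.toMonoidHom i (pull e.symm.toMonoidHom i x) = x
      rw [← pull_comp]
      have h : e.symm.toMonoidHom.comp e.toMonoidHom = MonoidHom.id Y := by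
        ext y
        exact e.symm_apply_apply y
      rw [h]
      have h2 : groupCohomology.map (MonoidHom.id Y) (tr (MonoidHom.id Y)) i = 𝟙 _ := by
        rw [← groupCohomology.map_id]
        rfl
      show (groupCohomology.map (MonoidHom.id Y) (tr (MonoidHom.id Y)) i).hom x = x
      rw [h2]
      rfl)
    (by
      ext x
      show pull e.symm.toMonoidHom i (pull e.toMonoidHom i x) = x
      rw [← pull_comp]
      have h : e.toMonoidHom.comp e.symm.toMonoidHom = MonoidHom.id X := by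
        ext y
        exact e.apply_symm_apply y
      rw [h]
      have h2 : groupCohomology.map (MonoidHom.id X) (tr (MonoidHom.id X)) i = 𝟙 _ := by
        rw [← groupCohomology.map_id]
        rfl
      show (groupCohomology.map (MonoidHom.id X) (tr (MonoidHom.id X)) i).hom x = x
      rw [h2]
      rfl)

theorem ub_pullE (p : ℕ) {X Y : Type} [Group X] [Group Y] (e : Y ≃* X) (η : Y →* Y)
    (ξ : X →* X) (h : ∀ y, e (η y) = ξ (e y)) (i : ℕ) :
    ub p (pull ξ i).toAddMonoidHom = ub p (pull η i).toAddMonoidHom := by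
  refine ub_congr p (pullE e i).toAddEquiv _ _ (fun x => ?_)
  show pull e.toMonoidHom i (pull ξ i x) = pull η i (pull e.toMonoidHom i x)
  rw [← pull_comp, ← pull_comp]
  have h1 : ξ.comp e.toMonoidHom = e.toMonoidHom.comp η := by
    ext y
    exact (h y).symm
  rw [h1]

/-- the hypothesis on the Euler characteristic of the unit part, for all restrictions of
powers of `θ` -/
def EHyp (n B p : ℕ) {G : Type} [Group G] (θ : G →* G) : Prop :=
  ∀ (Y : Type) [Group Y] (j : Y →* G) (η : Y →* Y) (m : ℕ), Function.Injective j →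
    j.range.FiniteIndex → 0 < m → (∀ y, j (η y) = itr θ m (j y)) →
    (∀ i, i ≤ n → Module.Finite ℤ (HZ Y i)) ∧ eu n p η ≠ od n p η ∧
      eu n p η ≤ p ^ B * od n p η ∧ od n p η ≤ p ^ B * eu n p η

theorem EHyp.sub {n B p : ℕ} {G : Type} [Group G] {θ : G →* G} (h : EHyp n B p θ)
    {G' : Type} [Group G']
    (i : G' →* G) (θ' : G' →* G') (M : ℕ) (hi : Function.Injective i) (hif : i.range.FiniteIndex)
    (hM : 0 < M) (hc : ∀ y, i (θ' y) = itr θ M (i y)) : EHyp n B p θ' := by
  intro Y _ j η m hj hjf hm hjc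
  have h1 : ∀ (k : ℕ) (y : G'), i (itr θ' k y) = itr (itr θ M) k (i y) := by
    intro k
    induction k with
    | zero => intro y; rfl
    | succ k ih =>
      intro y
      rw [itr_succ, itr_succ, hc, ih]
  refine h Y (i.comp j) η (M * m) (hi.comp hj) ⟨?_⟩ (Nat.mul_pos hM hm) (fun y => ?_)
  · rw [MonoidHom.range_comp, Subgroup.index_map_of_injective _ hi]
    exact mul_ne_zero hjf.index_ne_zero hif.index_ne_zero
  · rw [MonoidHom.comp_apply, MonoidHom.comp_apply, hjc, h1, itr_mulP]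

/-- from subgroups to injections -/
theorem EHyp_of_sub {Q : Type} [Group Q] (φ : Q →* Q) (G : Subgroup Q) (hGf : G.FiniteIndex)
    (hG : ∀ x ∈ G, φ x ∈ G) (n B p : ℕ)
    (hs : ∀ (X : Subgroup Q) (m : ℕ), X ≤ G → X.FiniteIndex → 0 < m →
      ∀ hX : (∀ x ∈ X, itr φ m x ∈ X), (∀ i, i ≤ n → Module.Finite ℤ (HZ X i)) ∧
        eu n p (rst (itr φ m) X hX) ≠ od n p (rst (itr φ m) X hX) ∧
        eu n p (rst (itr φ m) X hX) ≤ p ^ B * od n p (rst (itr φ m) X hX) ∧
        od n p (rst (itr φ m) X hX) ≤ p ^ B * eu n p (rst (itr φ m) X hX)) :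
    EHyp n B p (rst φ G hG) := by
  intro Y _ j η m hj hjf hm hc
  have hji : Function.Injective (G.subtype.comp j) := G.subtype_injective.comp hj
  obtain ⟨hX, e, he, hη⟩ := ELF_range (itr φ m) (G.subtype.comp j) η hji (fun y => by
    rw [MonoidHom.comp_apply, MonoidHom.comp_apply, hc]
    exact itr_rst φ G hG m (j y))
  obtain ⟨h1, h2⟩ := hs (G.subtype.comp j).range m (by
    rintro _ ⟨y, rfl⟩
    exact (j y).2) ⟨by
      rw [MonoidHom.range_comp, Subgroup.index_map_subtype]
      exact mul_ne_zero hjf.index_ne_zero hGf.index_ne_zero⟩ hm hX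
  have h3 : ∀ i, ub p (pull (rst (itr φ m) (G.subtype.comp j).range hX) i).toAddMonoidHom =
      ub p (pull η i).toAddMonoidHom := fun i => ub_pullE p e η _ hη i
  have h4 : eu n p (rst (itr φ m) (G.subtype.comp j).range hX) = eu n p η := by
    unfold eu
    exact evp_congr n _ _ (fun i _ => h3 i)
  have h5 : od n p (rst (itr φ m) (G.subtype.comp j).range hX) = od n p η := by
    unfold od
    exact odp_congr n _ _ (fun i _ => h3 i)
  rw [h4, h5] at h2
  refine ⟨fun i hi => ?_, h2⟩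
  have := h1 i hi
  exact Module.Finite.equiv (pullE e i)

theorem fin_int {M : ModuleCat ℤ} (h : Module.Finite ℤ M) :
    @Module.Finite ℤ M _ _ (AddCommGroup.toIntModule M) := by
  have h1 : (AddCommGroup.toIntModule M) = M.isModule := Subsingleton.elim _ _
  rw [h1]
  exact h

theorem eu_pow (n p : ℕ) [Fact p.Prime] {G : Type} [Group G] (θ : G →* G)
    (hfg : ∀ i, i < n → Module.Finite ℤ (HZ G i)) : ∃ a, eu n p θ = p ^ a := by
  unfold eu
  induction n with
  | zero => exact ⟨0, rfl⟩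
  | succ n ih =>
    obtain ⟨a, ha⟩ := ih (fun i hi => hfg i (by omega))
    rw [evp_succ, ha]
    split_ifs
    · obtain ⟨b, -, hb⟩ := ub_pow p (fin_int (hfg n (by omega))) (pull θ n).toAddMonoidHom
      exact ⟨a + b, by rw [hb, pow_add]⟩
    · exact ⟨a, mul_one _⟩

theorem od_pow (n p : ℕ) [Fact p.Prime] {G : Type} [Group G] (θ : G →* G)
    (hfg : ∀ i, i < n → Module.Finite ℤ (HZ G i)) : ∃ a, od n p θ = p ^ a := by
  unfold od
  induction n with
  | zero => exact ⟨0, rfl⟩
  | succ n ih =>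
    obtain ⟨a, ha⟩ := ih (fun i hi => hfg i (by omega))
    rw [odp_succ, ha]
    split_ifs
    · exact ⟨a, mul_one _⟩
    · obtain ⟨b, -, hb⟩ := ub_pow p (fin_int (hfg n (by omega))) (pull θ n).toAddMonoidHom
      exact ⟨a + b, by rw [hb, pow_add]⟩

theorem ELF_arith (p a b c d N B : ℕ) (hp : 1 < p) (hab : p ^ a ≠ p ^ b)
    (h : p ^ c * (p ^ b) ^ N = p ^ d * (p ^ a) ^ N) (h1 : p ^ c ≤ p ^ B * p ^ d)
    (h2 : p ^ d ≤ p ^ B * p ^ c) : N ≤ B := by
  have hab' : a ≠ b := fun h => hab (by rw [h])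
  rw [← pow_mul, ← pow_mul, ← pow_add, ← pow_add] at h
  have h3 : c + b * N = d + a * N := Nat.pow_right_injective hp h
  rw [← pow_add] at h1 h2
  have h4 := (Nat.pow_le_pow_iff_right hp).1 h1
  have h5 := (Nat.pow_le_pow_iff_right hp).1 h2
  rcases Nat.lt_or_gt_of_ne hab' with h6 | h6
  · obtain ⟨t, rfl⟩ : ∃ t, b = a + 1 + t := ⟨b - (a + 1), by omega⟩
    have h7 : (a + 1 + t) * N = a * N + N + t * N := by ring
    rw [h7] at h3
    have h8 : 0 ≤ t * N := Nat.zero_le _
    omega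
  · obtain ⟨t, rfl⟩ : ∃ t, a = b + 1 + t := ⟨a - (b + 1), by omega⟩
    have h7 : (b + 1 + t) * N = b * N + N + t * N := by ring
    rw [h7] at h3
    have h8 : 0 ≤ t * N := Nat.zero_le _
    omega

/-- the `p`-parts of the unit quotients are bounded -/
theorem unit_bdd {n : ℕ} (hn0 : 0 < n) {X : Type} [Group X] (hX : Dual n X)
    (ho : Ori n X = ⊤) (η : X →* X) (hinj : Function.Injective η) (hfin : η.range.FiniteIndex)
    (p : ℕ) [hp0 : Fact p.Prime] (hp : p ∣ η.range.index) (B : ℕ) (hE : EHyp n B p η)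
    (V : Subgroup X) (hV : V.Normal) (hVf : V.FiniteIndex) (h : V.comap η = V) :
    ¬ p ^ (B + 1) ∣ V.index := by
  intro hdvd
  obtain ⟨m, hm, hx⟩ := UNI_order η V h
  have hfinQ : Finite (X ⧸ V) := Subgroup.finite_quotient_of_finiteIndex
  let P : Sylow p (X ⧸ V) := default
  let X' : Subgroup X := (P : Subgroup (X ⧸ V)).comap (QuotientGroup.mk' V)
  have hmemX : ∀ x : X, x ∈ X' ↔ (x : X ⧸ V) ∈ (P : Subgroup (X ⧸ V)) := fun x => Iff.rfl
  have hVX : V ≤ X' := by
    intro x hx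
    rw [hmemX, (QuotientGroup.eq_one_iff x).2 hx]
    exact one_mem _
  have hXf : X'.FiniteIndex := Subgroup.finiteIndex_of_le hVX
  have hX' : ∀ x ∈ X', itr η m x ∈ X' := by
    intro x hxX
    rw [hmemX] at hxX ⊢
    rw [hx]
    exact hxX
  set V' : Subgroup X' := V.subgroupOf X' with hV'
  have hV'n : V'.Normal := by rw [hV']; infer_instance
  have hV'f : V'.FiniteIndex := by rw [hV']; infer_instance
  have hmemV : ∀ x : X', x ∈ V' ↔ (x : X) ∈ V := fun x => Iff.rfl
  set θ' : X' →* X' := rst (itr η m) X' hX' with hθ'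
  have hxV : ∀ x : X', (x⁻¹ * θ' x) ∈ V' := by
    intro x
    rw [hmemV]
    show (x : X)⁻¹ * itr η m (x : X) ∈ V
    rw [← QuotientGroup.eq]
    exact (hx x).symm
  have hU : ∀ x ∈ V', θ' x ∈ V' := by
    intro x hxV'
    have h1 := V'.mul_mem hxV' (hxV x)
    rwa [mul_inv_cancel_left] at h1
  have hpU : ∀ x : X', ∃ k : ℕ, x ^ p ^ k ∈ V' := by
    intro x
    obtain ⟨k, hk⟩ := P.2 ⟨(x : X ⧸ V), x.2⟩
    refine ⟨k, ?_⟩
    rw [hmemV, ← QuotientGroup.eq_one_iff]
    exact congrArg Subtype.val hk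
  have hcard : V'.index = Nat.card P := by
    have h1 : V.relIndex X' * X'.index = V.index := Subgroup.relIndex_mul_index hVX
    have h2 : X'.index = (P : Subgroup (X ⧸ V)).index :=
      Subgroup.index_comap_of_surjective _ (QuotientGroup.mk'_surjective V)
    have h3 : Nat.card (P : Subgroup (X ⧸ V)) * (P : Subgroup (X ⧸ V)).index = V.index :=
      Subgroup.card_mul_index _
    rw [← h3, h2] at h1
    exact Nat.eq_of_mul_eq_mul_right (Nat.pos_of_ne_zero (h2 ▸ hXf.index_ne_zero)) h1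
  have hlt : B < V'.index := by
    rw [hcard, P.card_eq_multiplicity]
    have h1 : B + 1 ≤ (Nat.card (X ⧸ V)).factorization p :=
      (hp0.out.pow_dvd_iff_le_factorization Nat.card_pos.ne').1 hdvd
    calc B < B + 1 := Nat.lt_succ_self B
      _ < p ^ (B + 1) := Nat.lt_pow_self hp0.out.one_lt
      _ ≤ _ := Nat.pow_le_pow_right hp0.out.pos h1
  have hinjm : Function.Injective (itr η m) := itr_inj hinj m
  have hfinm : (itr η m).range.FiniteIndex := itr_range_finiteIndex hinj hfin m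
  have hinj' : Function.Injective θ' := rst_inj hinjm X' hX'
  have hfin' : θ'.range.FiniteIndex := rst_fin hinjm hfinm X' hXf hX'
  have hp' : p ∣ θ'.range.index := by
    rw [hθ', rst_idx hinjm X' hXf hX', itr_index η hinj]
    exact dvd_pow hp hm.ne'
  have hD' : Dual n X' := hX.sub X'
  have ho' : Ori n X' = ⊤ := ori_top X' n hX.cd (by rw [ho]; exact le_top)
  obtain ⟨f1, n1, -, -⟩ := hE X' X'.subtype θ' m X'.subtype_injective
    (by rw [Subgroup.range_subtype]; exact hXf) hm (fun y => rfl)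
  obtain ⟨f2, -, b1, b2⟩ := hE V' (X'.subtype.comp V'.subtype) (rst θ' V' hU) m
    (X'.subtype_injective.comp V'.subtype_injective) ⟨by
      rw [MonoidHom.range_comp, Subgroup.range_subtype, Subgroup.index_map_subtype]
      exact mul_ne_zero hV'f.index_ne_zero hXf.index_ne_zero⟩ hm (fun y => rfl)
  have key := euler_unit hn0 hD' ho' θ' hinj' hfin' p hp' f1 V' hU hpU hxV f2
  obtain ⟨a, ha⟩ := eu_pow n p θ' (fun i hi => f1 i hi.le)
  obtain ⟨b, hb⟩ := od_pow n p θ' (fun i hi => f1 i hi.le)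
  obtain ⟨c, hc⟩ := eu_pow n p (rst θ' V' hU) (fun i hi => f2 i hi.le)
  obtain ⟨d, hd⟩ := od_pow n p (rst θ' V' hU) (fun i hi => f2 i hi.le)
  rw [ha, hb, hc, hd] at key
  rw [ha, hb] at n1
  rw [hc, hd] at b1 b2
  have := ELF_arith p a b c d V'.index B hp0.out.one_lt n1 key b1 b2
  omega

/-- THEOREM E'': the Euler characteristic of the unit part -/
theorem nilp_of_euler {n : ℕ} (hn0 : 0 < n) {Q : Type} [Group Q] (hQ : Dual n Q) (φ : Q →* Q)
    (hinj : Function.Injective φ) (hfin : φ.range.FiniteIndex)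
    (hcap : ∀ q : Q, (∀ k : ℕ, q ∈ Set.range (φ^[k])) → q = 1)
    (Q₀ : Subgroup Q) (hQ₀ : Q₀.FiniteIndex)
    (hfg : ∀ X : Subgroup Q, X ≤ Q₀ → X.FiniteIndex → ∀ i, i ≤ n → Module.Finite ℤ (HZ X i))
    (hs : ∀ p : ℕ, p.Prime → p ∣ φ.range.index → ∃ B : ℕ, ∀ (X : Subgroup Q) (m : ℕ), X ≤ Q₀ →
      X.FiniteIndex → 0 < m → ∀ hX : (∀ x ∈ X, itr φ m x ∈ X),
        eu n p (rst (itr φ m) X hX) ≠ od n p (rst (itr φ m) X hX) ∧
        eu n p (rst (itr φ m) X hX) ≤ p ^ B * od n p (rst (itr φ m) X hX) ∧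
        od n p (rst (itr φ m) X hX) ≤ p ^ B * eu n p (rst (itr φ m) X hX)) :
    ∃ N : Subgroup Q, N.FiniteIndex ∧ Group.IsNilpotent N := by
  obtain ⟨G, hGf, hGQ, hGφ, hGo⟩ := reduce hQ φ Q₀ hQ₀
  have hGD : Dual n G := hQ.sub G
  have hGfg : Group.FG G := hGD.fg
  have hinjG : Function.Injective (rst φ G hGφ) := rst_inj hinj G hGφ
  have hfinG : (rst φ G hGφ).range.FiniteIndex := rst_fin hinj hfin G hGf hGφ
  have hit : ∀ (n : ℕ) (x : G), (((rst φ G hGφ)^[n] x : G) : Q) = φ^[n] x := by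
    intro n x
    rw [← itr_eq_iterate, ← itr_eq_iterate, itr_rst]
  obtain ⟨N, hNf, hNn⟩ := nilp_of_bu (rst φ G hGφ) hinjG hfinG (fun q hq => by
      apply Subtype.ext
      apply hcap
      intro k
      obtain ⟨z, hz⟩ := hq k
      exact ⟨z, by rw [← hit, hz]⟩) (fun p hp hpD => by
      have hpf : Fact p.Prime := ⟨hp⟩
      have hpD' := hpD
      rw [rst_idx hinj G hGf hGφ] at hpD'
      obtain ⟨B, hB⟩ := hs p hp hpD'
      have hE : EHyp n B p (rst φ G hGφ) := EHyp_of_sub φ G hGf hGφ n B p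
        (fun X m hXG hXf hm hX => ⟨hfg X (hXG.trans hGQ) hXf,
          hB X m (hXG.trans hGQ) hXf hm hX⟩)
      intro Y _ j η m hj hjf hm hc
      obtain ⟨hX, e, he, hη⟩ := ELF_range (itr (rst φ G hGφ) m) j η hj hc
      refine ⟨B + 1, fun V hV hVf h => ?_⟩
      have h1 : (V.map e.toMonoidHom).index = V.index := Subgroup.index_map_equiv V e
      have hinjm : Function.Injective (itr (rst φ G hGφ) m) := itr_inj hinjG m
      have hfinm : (itr (rst φ G hGφ) m).range.FiniteIndex :=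
        itr_range_finiteIndex hinjG hfinG m
      rw [← h1]
      refine unit_bdd hn0 (hGD.sub j.range)
        (ori_top j.range n hGD.cd (by rw [hGo]; exact le_top))
        (rst (itr (rst φ G hGφ) m) j.range hX) (rst_inj hinjm j.range hX)
        (rst_fin hinjm hfinm j.range hjf hX) p (by
          rw [rst_idx hinjm j.range hjf hX, itr_index _ hinjG]
          exact dvd_pow hpD hm.ne') B
        (hE.sub j.range.subtype _ m j.range.subtype_injective
          (by rw [Subgroup.range_subtype]; exact hjf) hm (fun y => rfl))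
        (V.map e.toMonoidHom) (hV.map _ e.surjective)
        ⟨by rw [h1]; exact hVf.index_ne_zero⟩ (ELF_comap e η _ hη V h))
  refine ⟨N.map G.subtype, ⟨?_⟩, ?_⟩
  · rw [Subgroup.index_map_subtype]
    exact mul_ne_zero hNf.index_ne_zero hGf.index_ne_zero
  · exact Group.nilpotent_of_mulEquiv (N.equivMapOfInjective G.subtype G.subtype_injective)

end BCX
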