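import Pool.Agent.BCX.Sta

/-!
# Row EUL: Euler characteristic of the stable parts in a long exact sequence
-/

set_option autoImplicit false

open CategoryTheory groupCohomology EssMap
open scoped commutatorElement

namespace BCX

private theorem EUL_iter {A B : Type*} [AddCommGroup A] [AddCommGroup B] (S : A →+ A)
    (T : B →+ B) (f : A →+ B) (hf : ∀ a, f (S a) = T (f a)) (k : ℕ) (a : A) :
    f (S^[k] a) = T^[k] (f a) := by
  induction k generalizing a with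
  | zero => rfl
  | succ k ih => rw [Function.iterate_succ_apply, Function.iterate_succ_apply, ih, hf]

private theorem EUL_maps {A B : Type*} [AddCommGroup A] [AddCommGroup B] (S : A →+ A)
    (T : B →+ B) (f : A →+ B) (hf : ∀ a, f (S a) = T (f a)) (a : A) (ha : a ∈ st S) :
    f a ∈ st T := by
  intro k
  obtain ⟨y, rfl⟩ := ha k
  exact ⟨f y, (EUL_iter S T f hf k y).symm⟩

/-- one place of the sequence -/
private theorem EUL_step {A B C : Type*} [AddCommGroup A] [AddCommGroup B] [AddCommGroup C]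
    [Finite B] (S : A →+ A) (T : B →+ B) (f : A →+ B) (g : B →+ C)
    (hf : ∀ a, f (S a) = T (f a))
    (hex : ∀ b ∈ st T, (g b = 0 ↔ ∃ a ∈ st S, f a = b)) :
    Nat.card (st T) = Nat.card ((st S).map f) * Nat.card ((st T).map g) := by
  set φ : st T →+ C := g.comp (st T).subtype with hφ
  have h1 : Nat.card (st T) = Nat.card φ.ker * Nat.card (st T ⧸ φ.ker) := by
    rw [AddSubgroup.card_eq_card_quotient_mul_card_addSubgroup φ.ker, mul_comm]
  have h2 : Nat.card (st T ⧸ φ.ker) = Nat.card φ.range :=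
    Nat.card_congr (QuotientAddGroup.quotientKerEquivRange φ).toEquiv
  have h3 : φ.range = (st T).map g := by
    ext x
    constructor
    · rintro ⟨y, rfl⟩
      exact ⟨y.1, y.2, rfl⟩
    · rintro ⟨y, hy, rfl⟩
      exact ⟨⟨y, hy⟩, rfl⟩
  have h4 : Nat.card φ.ker = Nat.card ((st S).map f) := by
    refine Nat.card_congr ⟨fun x => ⟨x.1.1, ?_⟩, fun x => ⟨⟨x.1, ?_⟩, ?_⟩, ?_, ?_⟩
    · obtain ⟨a, ha, hab⟩ := (hex x.1.1 x.1.2).1 x.2
      exact ⟨a, ha, hab⟩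
    · obtain ⟨a, ha, hab⟩ := x.2
      rw [← hab]
      exact EUL_maps S T f hf a ha
    · obtain ⟨a, ha, hab⟩ := x.2
      have hm : x.1 ∈ st T := by
        rw [← hab]
        exact EUL_maps S T f hf a ha
      exact (hex x.1 hm).2 ⟨a, ha, hab⟩
    · intro x
      rfl
    · intro x
      rfl
  rw [h1, h2, h3, h4]

private theorem EUL_first {A B : Type*} [AddCommGroup A] [AddCommGroup B] (S : A →+ A)
    (f : A →+ B) (hf : Function.Injective f) :
    Nat.card (st S) = Nat.card ((st S).map f) :=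
  Nat.card_congr (AddSubgroup.equivMapOfInjective (st S) f hf).toEquiv

/-- the last place -/
private theorem EUL_last {A B C : Type*} [AddCommGroup A] [AddCommGroup B] [AddCommGroup C]
    [Finite A] [Finite B] (S : A →+ A) (T : B →+ B) (R : C →+ C) (f : A →+ B) (g : B →+ C)
    (hf : ∀ a, f (S a) = T (f a)) (hg : ∀ b, g (T b) = R (g b))
    (hex : ∀ b, g b = 0 ↔ ∃ a, f a = b) (k : ℕ) (hk : ∀ x, R^[k] x = 0) :
    Nat.card (st T) = Nat.card ((st S).map f) := by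
  have hzero : ∀ b ∈ st T, g b = 0 := by
    intro b hb
    obtain ⟨y, rfl⟩ := hb k
    rw [EUL_iter T R g hg, hk]
  have hR : ∀ x : g.range, R x.1 ∈ g.range := by
    rintro ⟨x, y, rfl⟩
    exact ⟨T y, hg y⟩
  set R' : g.range →+ g.range := (R.comp g.range.subtype).codRestrict g.range hR with hR'
  haveI : Finite g.range := Finite.of_surjective g.rangeRestrict g.rangeRestrict_surjective
  have hex' : ∀ b ∈ st T, (g b = 0 ↔ ∃ a ∈ st S, f a = b) := by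
    intro b hb
    have h := st_exact S T R' f g.rangeRestrict hf (fun b => Subtype.ext (hg b))
      (fun b => by
        rw [← hex b]
        exact Subtype.ext_iff) b hb
    rw [← h]
    exact ⟨fun h0 => Subtype.ext h0, fun h0 => congrArg Subtype.val h0⟩
  have h := EUL_step S T f g hf hex'
  have h1 : (st T).map g = ⊥ := by
    rw [eq_bot_iff]
    rintro x ⟨y, hy, rfl⟩
    exact hzero y hy
  rw [h, h1]
  simp

/-- ROW EUL (from STA): the Euler characteristic of stable parts in a long exact sequence -/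
theorem euler {A0 B0 C0 A1 B1 C1 A2 B2 C2 A3 : Type*} [AddCommGroup A0] [AddCommGroup B0]
    [AddCommGroup C0] [AddCommGroup A1] [AddCommGroup B1] [AddCommGroup C1] [AddCommGroup A2]
    [AddCommGroup B2] [AddCommGroup C2] [AddCommGroup A3] [Finite A0] [Finite B0] [Finite C0]
    [Finite A1] [Finite B1] [Finite C1] [Finite A2] [Finite B2] [Finite C2]
    (a0 : A0 →+ A0) (b0 : B0 →+ B0) (c0 : C0 →+ C0) (a1 : A1 →+ A1) (b1 : B1 →+ B1)
    (c1 : C1 →+ C1) (a2 : A2 →+ A2) (b2 : B2 →+ B2) (c2 : C2 →+ C2) (a3 : A3 →+ A3)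
    (f0 : A0 →+ B0) (g0 : B0 →+ C0) (d0 : C0 →+ A1) (f1 : A1 →+ B1) (g1 : B1 →+ C1)
    (d1 : C1 →+ A2) (f2 : A2 →+ B2) (g2 : B2 →+ C2) (d2 : C2 →+ A3)
    (hf0 : ∀ x, f0 (a0 x) = b0 (f0 x)) (hg0 : ∀ x, g0 (b0 x) = c0 (g0 x))
    (hd0 : ∀ x, d0 (c0 x) = a1 (d0 x)) (hf1 : ∀ x, f1 (a1 x) = b1 (f1 x))
    (hg1 : ∀ x, g1 (b1 x) = c1 (g1 x)) (hd1 : ∀ x, d1 (c1 x) = a2 (d1 x))
    (hf2 : ∀ x, f2 (a2 x) = b2 (f2 x)) (hg2 : ∀ x, g2 (b2 x) = c2 (g2 x))
    (hd2 : ∀ x, d2 (c2 x) = a3 (d2 x))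
    (e0 : Function.Injective f0) (e1 : ∀ x, g0 x = 0 ↔ ∃ y, f0 y = x)
    (e2 : ∀ x, d0 x = 0 ↔ ∃ y, g0 y = x) (e3 : ∀ x, f1 x = 0 ↔ ∃ y, d0 y = x)
    (e4 : ∀ x, g1 x = 0 ↔ ∃ y, f1 y = x) (e5 : ∀ x, d1 x = 0 ↔ ∃ y, g1 y = x)
    (e6 : ∀ x, f2 x = 0 ↔ ∃ y, d1 y = x) (e7 : ∀ x, g2 x = 0 ↔ ∃ y, f2 y = x)
    (e8 : ∀ x, d2 x = 0 ↔ ∃ y, g2 y = x) (k : ℕ) (hk : ∀ x, a3^[k] x = 0) :
    Nat.card (st b0) * Nat.card (st b2) * (Nat.card (st a1) * Nat.card (st c1)) =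
      Nat.card (st b1) * ((Nat.card (st a0) * Nat.card (st a2)) *
        (Nat.card (st c0) * Nat.card (st c2))) := by
  have k0 := EUL_first a0 f0 e0
  have k1 := EUL_step a0 b0 f0 g0 hf0 (fun b hb => st_exact a0 b0 c0 f0 g0 hf0 hg0 e1 b hb)
  have k2 := EUL_step b0 c0 g0 d0 hg0 (fun b hb => st_exact b0 c0 a1 g0 d0 hg0 hd0 e2 b hb)
  have k3 := EUL_step c0 a1 d0 f1 hd0 (fun b hb => st_exact c0 a1 b1 d0 f1 hd0 hf1 e3 b hb)
  have k4 := EUL_step a1 b1 f1 g1 hf1 (fun b hb => st_exact a1 b1 c1 f1 g1 hf1 hg1 e4 b hb)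
  have k5 := EUL_step b1 c1 g1 d1 hg1 (fun b hb => st_exact b1 c1 a2 g1 d1 hg1 hd1 e5 b hb)
  have k6 := EUL_step c1 a2 d1 f2 hd1 (fun b hb => st_exact c1 a2 b2 d1 f2 hd1 hf2 e6 b hb)
  have k7 := EUL_step a2 b2 f2 g2 hf2 (fun b hb => st_exact a2 b2 c2 f2 g2 hf2 hg2 e7 b hb)
  have k8 := EUL_last b2 c2 a3 g2 d2 hg2 hd2 e8 k hk
  rw [k0, k1, k2, k3, k4, k5, k6, k7, k8]
  ring

end BCX
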