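import Pool.Agent.BCX.Defs3

/-!
# Row EXT: invariant nilpotent homomorphisms of a unit subgroup extend
-/

set_option autoImplicit false

open CategoryTheory groupCohomology EssMap
open scoped commutatorElement

namespace BCX

private theorem ext_iter {G : Type} [Group G] {p : ℕ} {θ : G →* G} (u : US θ p) (k : ℕ)
    (x : u.U) : (((rst θ u.U u.inv)^[k] x : u.U) : G) = θ^[k] (x : G) := by
  induction k with
  | zero => rfl
  | succ k ih =>
    rw [Function.iterate_succ_apply', Function.iterate_succ_apply', ← ih]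
    rfl

private theorem ext_mem {G : Type} [Group G] {p : ℕ} {θ : G →* G} (u : US θ p) (k : ℕ) (x : G) :
    θ^[k] x ∈ u.U ↔ x ∈ u.U := by
  induction k with
  | zero => exact Iff.rfl
  | succ k ih => rw [Function.iterate_succ_apply', u.iff, ih]

private theorem ext_mul {G : Type} [Group G] (θ : G →* G) (k : ℕ) (x y : G) :
    θ^[k] (x * y) = θ^[k] x * θ^[k] y := iterate_map_mul θ k x y

private theorem ext_inv {G : Type} [Group G] (θ : G →* G) (k : ℕ) (x : G) :
    θ^[k] x⁻¹ = (θ^[k] x)⁻¹ := iterate_map_inv θ k x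

private theorem ext_one {G : Type} [Group G] (θ : G →* G) (k : ℕ) :
    θ^[k] (1 : G) = 1 := iterate_map_one θ k

/-- `G = θ^k(G) U` -/
private theorem ext_surj {G : Type} [Group G] {p : ℕ} {θ : G →* G} (u : US θ p) (k : ℕ) (g : G) :
    ∃ (h : G) (y : u.U), g = θ^[k] h * y := by
  have : Finite (G ⧸ u.U) := Subgroup.finite_quotient_of_finiteIndex
  let f : G ⧸ u.U → G ⧸ u.U := Quotient.map' (θ^[k]) (by
    intro a b hab
    rw [QuotientGroup.leftRel_apply] at hab ⊢
    rw [← ext_inv, ← ext_mul, ext_mem]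
    exact hab)
  have hinj : Function.Injective f := by
    intro a b
    induction a using QuotientGroup.induction_on with
    | H a =>
      induction b using QuotientGroup.induction_on with
      | H b =>
        intro h
        have h1 : (QuotientGroup.mk (θ^[k] a) : G ⧸ u.U) = QuotientGroup.mk (θ^[k] b) := h
        rw [QuotientGroup.eq, ← ext_inv, ← ext_mul, ext_mem] at h1
        exact QuotientGroup.eq.mpr h1
  obtain ⟨q, hq⟩ := (Finite.surjective_of_injective hinj) (QuotientGroup.mk g)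
  induction q using QuotientGroup.induction_on with
  | H h =>
    have h1 : (QuotientGroup.mk (θ^[k] h) : G ⧸ u.U) = QuotientGroup.mk g := hq
    rw [QuotientGroup.eq] at h1
    exact ⟨h, ⟨_, h1⟩, by simp⟩

/-- ROW EXT: G-invariant nilpotent homomorphisms of a unit subgroup extend -/
theorem ext_nil {G : Type} [Group G] (p : ℕ) [Fact p.Prime] (θ : G →* G) (u : US θ p)
    (c : Addf u.U (ZMod p))
    (hinv : ∀ (g : G) (x y : u.U), (y : G) = g * x * g⁻¹ → c.1 y = c.1 x)
    (k : ℕ) (hk : ∀ x : u.U, c.1 ((rst θ u.U u.inv)^[k] x) = 0) :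
    ∃ C : Addf G (ZMod p), (∀ x : u.U, C.1 x = c.1 x) ∧ ∀ g : G, C.1 (θ^[k] g) = 0 := by
  classical
  choose h y hy using ext_surj u k
  have hcinv : ∀ x : u.U, c.1 x⁻¹ = -c.1 x := by
    intro x
    have h1 := c.2 x x⁻¹
    rw [mul_inv_cancel, addf_one] at h1
    linear_combination -h1
  -- well defined
  have hwd : ∀ (a b : G) (x z : u.U), θ^[k] a * x = θ^[k] b * z → c.1 x = c.1 z := by
    intro a b x z hab
    have h1 : θ^[k] (b⁻¹ * a) = ((z * x⁻¹ : u.U) : G) := by
      rw [ext_mul, ext_inv]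
      push_cast
      rw [eq_mul_inv_iff_mul_eq, mul_assoc, hab, inv_mul_cancel_left]
    have h2 : b⁻¹ * a ∈ u.U := by
      rw [← ext_mem u k, h1]
      exact (z * x⁻¹).2
    have h3 : (rst θ u.U u.inv)^[k] ⟨_, h2⟩ = z * x⁻¹ := by
      apply Subtype.ext
      rw [ext_iter]
      exact h1
    have h4 := hk ⟨_, h2⟩
    rw [h3, c.2, hcinv] at h4
    linear_combination -h4
  refine ⟨⟨fun g => c.1 (y g), ?_⟩, ?_, ?_⟩
  · intro a b
    show c.1 (y (a * b)) = c.1 (y a) + c.1 (y b)
    have hmem : (θ^[k] (h b))⁻¹ * (y a : G) * θ^[k] (h b) ∈ u.U := by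
      have := u.norm.conj_mem (y a : G) (y a).2 (θ^[k] (h b))⁻¹
      rwa [inv_inv] at this
    have h1 : c.1 ⟨_, hmem⟩ = c.1 (y a) :=
      hinv (θ^[k] (h b))⁻¹ (y a) ⟨_, hmem⟩ (by rw [inv_inv])
    have h2 := hwd (h (a * b)) (h a * h b) (y (a * b)) (⟨_, hmem⟩ * y b) (by
      rw [← hy (a * b), ext_mul]
      push_cast
      calc a * b = (θ^[k] (h a) * y a) * (θ^[k] (h b) * y b) := by rw [← hy a, ← hy b]
        _ = _ := by group)
    rw [h2, c.2, h1]
  · intro x
    refine hwd (h x) 1 (y x) x ?_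
    rw [← hy x, ext_one, one_mul]
  · intro g
    show c.1 (y (θ^[k] g)) = 0
    have h1 := hwd (h (θ^[k] g)) g (y (θ^[k] g)) 1 (by
      rw [← hy (θ^[k] g)]
      simp)
    rw [h1, addf_one]

end BCX
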