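import Pool.Agent.BCX.B1

/-!
# Dimension three: the final form
-/

set_option autoImplicit false

open CategoryTheory groupCohomology EssMap

namespace BCX

/-- a nonzero homomorphism to `ℤ` stays nonzero on a subgroup of finite index -/
theorem res_ne {Q : Type} [Group Q] (Y G : Subgroup Q) (hG : G.FiniteIndex) (h : G ≤ Y)
    (c : Y →* Multiplicative ℤ) (hc : c ≠ 1) : c.comp (Subgroup.inclusion h) ≠ 1 := by
  intro h1
  apply hc
  ext y
  obtain ⟨m, hm, -, hmem⟩ := Subgroup.exists_pow_mem_of_index_ne_zero hG.index_ne_zero (y : Q)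
  have h2 := DFunLike.congr_fun h1 ⟨(y : Q) ^ m, hmem⟩
  have h3 : Subgroup.inclusion h ⟨(y : Q) ^ m, hmem⟩ = y ^ m := Subtype.ext rfl
  rw [MonoidHom.comp_apply, h3, map_pow] at h2
  have h4 : (c y).toAdd = 0 := by
    have h5 : m • (c y).toAdd = 0 := congrArg Multiplicative.toAdd h2
    rw [nsmul_eq_mul] at h5
    rcases mul_eq_zero.1 h5 with h6 | h6
    · exact absurd h6 (by exact_mod_cast hm.ne')
    · exact h6
  exact h4

/-- ROW FINAL -/
theorem final {Q : Type} [Group Q] (hQ : Dual 3 Q) (φ : Q →* Q) (hinj : Function.Injective φ)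
    (hfin : φ.range.FiniteIndex) (hne : φ.range ≠ ⊤) :
    (∃ Y : Subgroup Q, Y.FiniteIndex ∧ ∃ c : Y →* Multiplicative ℤ, c ≠ 1) ∧
    (Group.IsFinitelyPresented Q →
      (∀ q : Q, (∀ k : ℕ, q ∈ Set.range (φ^[k])) → q = 1) →
      (∃ N : Subgroup Q, N.FiniteIndex ∧ Group.IsNilpotent N) ∨
      ((∃ G : Subgroup Q, G.FiniteIndex ∧ (∀ x ∈ G, φ x ∈ G) ∧
          ∃ c : G →* Multiplicative ℤ, c ≠ 1) ∧
        ∀ (G : Subgroup Q) (hφ : ∀ x ∈ G, φ x ∈ G), G.FiniteIndex →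
          ∀ c : G →* Multiplicative ℤ, ∃ e : G →* Multiplicative ℤ,
            ∀ g : G, e ⟨φ g, hφ g g.2⟩ = c g)) := by
  have hfg := hQ.fg
  obtain ⟨Y, hY, c, hc⟩ := b1_pos hQ φ hinj hfin (fun h => hne (Subgroup.index_eq_one.1 h))
  refine ⟨⟨Y, hY, c, hc⟩, ?_⟩
  intro hfp hcap
  by_cases hall : ∀ (G : Subgroup Q) (hφ : ∀ x ∈ G, φ x ∈ G), G.FiniteIndex →
      ∀ c : G →* Multiplicative ℤ, ∃ e : G →* Multiplicative ℤ,
        ∀ g : G, e ⟨φ g, hφ g g.2⟩ = c g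
  · right
    refine ⟨?_, hall⟩
    obtain ⟨G, hG, hGY, hGφ⟩ := exists_invariant φ Y hY
    exact ⟨G, hG, hGφ, c.comp (Subgroup.inclusion hGY), res_ne Y G hG hGY c hc⟩
  · left
    push Not at hall
    obtain ⟨G, hφ, hG, c, hc⟩ := hall
    exact dim_three_full hQ hfp φ hinj hfin hcap G hG hφ ⟨c, hc⟩

end BCX
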