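import Pool.Agent.BCX.Defs3

/-!
# Fitting decomposition of the characters
-/

set_option autoImplicit false

open CategoryTheory groupCohomology EssMap

namespace BCX

private theorem fit_pow {X : Type} [Group X] (θ : X →* X) (p : ℕ) [Fact p.Prime] (k : ℕ)
    (c : Addf X (ZMod p)) (x : X) :
    ((prc (K := ZMod p) θ ^ k) c).1 x = c.1 (θ^[k] x) := by
  induction k generalizing c x with
  | zero => rfl
  | succ k ih =>
    rw [pow_succ, Module.End.mul_apply, ih, Function.iterate_succ_apply']
    rfl

/-- ROW FIT: Fitting decomposition of the characters -/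
theorem fitting {X : Type} [Group X] [Group.FG X] (θ : X →* X) (p : ℕ) [Fact p.Prime] :
    Module.finrank (ZMod p) (Addf X (ZMod p)) =
      Module.finrank (ZMod p) (stA θ p) + dnl θ p := by
  have hfd : FiniteDimensional (ZMod p) (Addf X (ZMod p)) := addf_fd
  have hst : stA θ p = ⨅ n, LinearMap.range (prc (K := ZMod p) θ ^ n) := by
    ext c
    rw [Submodule.mem_iInf]
    constructor
    · intro hc k
      obtain ⟨e, he⟩ := hc k
      refine ⟨e, ?_⟩
      apply Subtype.ext
      funext x
      rw [fit_pow]
      exact he x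
    · intro hc k
      obtain ⟨e, he⟩ := hc k
      refine ⟨e, fun x => ?_⟩
      rw [← fit_pow, he]
  have hnl : nlA θ p = ⨆ n, LinearMap.ker (prc (K := ZMod p) θ ^ n) := by
    apply le_antisymm
    · rintro c ⟨k, hk⟩
      refine Submodule.mem_iSup_of_mem k ?_
      rw [LinearMap.mem_ker]
      apply Subtype.ext
      funext x
      rw [fit_pow]
      exact hk x
    · refine iSup_le (fun k c hc => ?_)
      rw [LinearMap.mem_ker] at hc
      refine ⟨k, fun x => ?_⟩
      rw [← fit_pow, hc]
      rfl
  have hcompl := LinearMap.isCompl_iSup_ker_pow_iInf_range_pow (prc (K := ZMod p) (G := X) θ)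
  rw [← hst, ← hnl] at hcompl
  have h1 := Submodule.finrank_add_eq_of_isCompl hcompl
  unfold dnl
  rw [← h1, add_comm]

end BCX
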