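import Mathlib

/-!
# The abelian case: additive part
-/

set_option autoImplicit false

namespace BCX

/-- `A` is covered by finitely many translates of `e A`. -/
def Cov (A : Type) [AddCommGroup A] (e : ℕ) : Prop :=
  ∃ F : Set A, F.Finite ∧ ∀ x : A, ∃ f ∈ F, ∃ y : A, x = f + e • y

theorem cov_one (A : Type) [AddCommGroup A] : Cov A 1 :=
  ⟨{0}, Set.finite_singleton 0, fun x => ⟨0, rfl, x, by rw [one_nsmul, zero_add]⟩⟩

theorem cov_mul (A : Type) [AddCommGroup A] {m n : ℕ} (hm : Cov A m) (hn : Cov A n) :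
    Cov A (m * n) := by
  obtain ⟨F, hF, h1⟩ := hm
  obtain ⟨F', hF', h2⟩ := hn
  refine ⟨(fun p : A × A => p.1 + m • p.2) '' (F ×ˢ F'), (hF.prod hF').image _, fun x => ?_⟩
  obtain ⟨f, hf, y, rfl⟩ := h1 x
  obtain ⟨f', hf', y', rfl⟩ := h2 y
  refine ⟨f + m • f', ⟨(f, f'), ⟨hf, hf'⟩, rfl⟩, y', ?_⟩
  rw [smul_add, mul_smul, add_assoc]

theorem fin_of_dual (p : ℕ) [Fact p.Prime] (Q : Type) [AddCommGroup Q] [Module (ZMod p) Q]
    (h : Finite (Module.Dual (ZMod p) Q)) : Finite Q := by
  have h2 : Module.Finite (ZMod p) (Module.Dual (ZMod p) Q) := Module.Finite.of_finite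
  have h3 : Module.Finite (ZMod p) Q := Module.finite_dual_iff (ZMod p) |>.1 h2
  exact Module.finite_of_finite (ZMod p)

theorem cov_prime (A : Type) [AddCommGroup A] (p : ℕ) [Fact p.Prime]
    (hfin : Finite (A →+ ZMod p)) : Cov A p := by
  classical
  let S : AddSubgroup A := (nsmulAddMonoidHom p : A →+ A).range
  let Q := A ⧸ S
  have hp : ∀ x : Q, p • x = 0 := by
    intro x
    obtain ⟨y, rfl⟩ := QuotientAddGroup.mk_surjective x
    rw [← QuotientAddGroup.mk_nsmul, QuotientAddGroup.eq_zero_iff]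
    exact ⟨y, rfl⟩
  let _ : Module (ZMod p) Q := AddCommGroup.zmodModule hp
  have hinj : Function.Injective (fun f : Module.Dual (ZMod p) Q =>
      (f.toAddMonoidHom.comp (QuotientAddGroup.mk' S) : A →+ ZMod p)) := by
    intro f g hfg
    apply LinearMap.ext
    intro x
    obtain ⟨y, rfl⟩ := QuotientAddGroup.mk_surjective x
    exact DFunLike.congr_fun hfg y
  have h1 : Finite (Module.Dual (ZMod p) Q) := Finite.of_injective _ hinj
  have h4 : Finite Q := fin_of_dual p Q h1
  refine ⟨Set.range (fun q : Q => q.out), Set.finite_range _, fun x => ?_⟩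
  refine ⟨(QuotientAddGroup.mk x : Q).out, ⟨_, rfl⟩, ?_⟩
  have h5 : -(QuotientAddGroup.mk x : Q).out + x ∈ S := by
    rw [← QuotientAddGroup.eq, QuotientAddGroup.out_eq']
  obtain ⟨y, hy⟩ := h5
  refine ⟨y, ?_⟩
  have h6 : p • y = -(QuotientAddGroup.mk x : Q).out + x := hy
  rw [h6]
  abel

theorem cov_all (A : Type) [AddCommGroup A]
    (hfin : ∀ m : ℕ, 0 < m → Finite (A →+ ZMod m)) (e : ℕ) (he : 0 < e) : Cov A e := by
  induction e using induction_on_primes with
  | zero => exact absurd he (lt_irrefl 0)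
  | one => exact cov_one A
  | prime_mul p a hp ih =>
    have : Fact p.Prime := ⟨hp⟩
    refine cov_mul A (cov_prime A p (hfin p hp.pos)) (ih ?_)
    rcases Nat.eq_zero_or_pos a with h | h
    · rw [h, mul_zero] at he
      exact absurd he (lt_irrefl 0)
    · exact h

/-- Sums along the orbit of `σ`. -/
def osum {A : Type} [AddCommGroup A] (σ : A →+ A) (x : A) : ℕ → A
  | 0 => 0
  | i + 1 => x + σ (osum σ x i)

section
variable {A : Type} [AddCommGroup A] (σ : A →+ A)

theorem osum_add (x : A) (i j : ℕ) : osum σ x (i + j) = osum σ x i + σ^[i] (osum σ x j) := by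
  induction i with
  | zero => simp [osum]
  | succ i ih =>
    rw [Nat.succ_add]
    show x + σ (osum σ x (i + j)) = x + σ (osum σ x i) + σ^[i + 1] (osum σ x j)
    rw [ih, map_add, Function.iterate_succ_apply', add_assoc]

theorem osum_map (x : A) (B : A →+ A) (hc : ∀ y, B (σ y) = σ (B y)) (i : ℕ) :
    osum σ (B x) i = B (osum σ x i) := by
  induction i with
  | zero => exact (map_zero B).symm
  | succ i ih =>
    show B x + σ (osum σ (B x) i) = B (x + σ (osum σ x i))
    rw [ih, map_add, hc]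

/-- Some orbit sum is divisible by `e`. -/
theorem exists_osum (hσ : Function.Bijective σ) {e : ℕ} (hc : Cov A e) (x : A) :
    ∃ i : ℕ, 0 < i ∧ ∃ w : A, osum σ x i = e • w := by
  obtain ⟨F, hF, h⟩ := hc
  choose f hf y hy using fun i : ℕ => h (osum σ x i)
  obtain ⟨i, j, hij, hfe⟩ : ∃ i j : ℕ, i < j ∧ f i = f j := by
    have hFF : Finite F := hF
    obtain ⟨i, j, hne, heq⟩ := Finite.exists_ne_map_eq_of_infinite (fun i : ℕ => (⟨f i, hf i⟩ : F))
    have heq' : f i = f j := congrArg Subtype.val heq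
    rcases lt_or_gt_of_ne hne with h1 | h1
    · exact ⟨i, j, h1, heq'⟩
    · exact ⟨j, i, h1, heq'.symm⟩
  obtain ⟨k, rfl⟩ := Nat.exists_eq_add_of_lt hij
  have h1 := osum_add σ x i (k + 1)
  rw [← add_assoc] at h1
  have h2 : σ^[i] (osum σ x (k + 1)) = e • (y (i + k + 1) - y i) := by
    have h3 := hy (i + k + 1)
    have h4 := hy i
    rw [h1] at h3
    rw [← hfe] at h3
    rw [smul_sub]
    have h5 : σ^[i] (osum σ x (k + 1)) = f i + e • y (i + k + 1) - osum σ x i := by
      rw [← h3]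
      abel
    rw [h5]
    conv_lhs => rw [h4]
    abel
  obtain ⟨w, hw⟩ := (hσ.surjective.iterate i) (y (i + k + 1) - y i)
  refine ⟨k + 1, Nat.succ_pos k, w, (hσ.injective.iterate i) ?_⟩
  rw [h2, ← hw]
  have h6 : ∀ (n : ℕ) (z : A), σ^[n] (e • z) = e • σ^[n] z := by
    intro n
    induction n with
    | zero => intro z; rfl
    | succ n ih =>
      intro z
      rw [Function.iterate_succ_apply, Function.iterate_succ_apply, map_nsmul, ih]
  exact (h6 i w).symm

end

open Polynomial in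
/-- An element killed by a nonzero polynomial in `B`, where `B` has no fixed points. -/
theorem exists_mult {A : Type} [AddCommGroup A] (B : A →+ A) (hB : ∀ x, B x = x → x = 0)
    (u : A) (n : Fin 4 → ℤ) (hn : n ≠ 0)
    (h : n 0 • u + n 1 • B u + n 2 • B (B u) + n 3 • B (B (B u)) = 0) :
    ∃ e : ℕ, 0 < e ∧ ∃ x : A, e • u = x - B x := by
  classical
  let b : Module.End ℤ A := B.toIntLinearMap
  have hb : ∀ x, b x = B x := fun _ => rfl
  let P : ℤ[X] := C (n 0) + C (n 1) * X + C (n 2) * X ^ 2 + C (n 3) * X ^ 3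
  have hP : P ≠ 0 := by
    intro h0
    apply hn
    funext i
    have h1 : ∀ k : ℕ, P.coeff k = 0 := fun k => by rw [h0, coeff_zero]
    have c0 := h1 0
    have c1 := h1 1
    have c2 := h1 2
    have c3 := h1 3
    simp only [P, coeff_add, coeff_C_mul, coeff_X_pow, coeff_C, coeff_X] at c0 c1 c2 c3
    norm_num at c0 c1 c2 c3
    fin_cases i
    · exact c0
    · exact c1
    · exact c2
    · exact c3
  have hPu : aeval b P u = 0 := by
    have e1 : aeval b P = n 0 • (1 : Module.End ℤ A) + n 1 • b + n 2 • b ^ 2 + n 3 • b ^ 3 := by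
      simp only [P, map_add, map_mul, aeval_X, map_pow, aeval_C]
      simp only [Algebra.algebraMap_eq_smul_one, smul_mul_assoc, one_mul]
    rw [e1]
    show n 0 • u + n 1 • B u + n 2 • (b ^ 2) u + n 3 • (b ^ 3) u = 0
    have e2 : (b ^ 2) u = B (B u) := by
      rw [pow_two]
      rfl
    have e3 : (b ^ 3) u = B (B (B u)) := by
      rw [pow_succ, pow_two]
      rfl
    rw [e2, e3]
    exact h
  obtain ⟨Q, hQ1, hQ2⟩ := exists_eq_pow_rootMultiplicity_mul_and_not_dvd P hP 1
  have hQe : Q.eval 1 ≠ 0 := by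
    intro h0
    exact hQ2 (dvd_iff_isRoot.2 h0)
  have hb1 : aeval b (X - C (1 : ℤ)) = b - 1 := by
    simp
  have hker : ∀ (k : ℕ) (y : A), ((b - 1) ^ k) y = 0 → y = 0 := by
    intro k
    induction k with
    | zero => intro y hy; exact hy
    | succ k ih =>
      intro y hy
      have h1 : ((b - 1) ^ k) ((b - 1) y) = 0 := by
        rw [pow_succ] at hy
        exact hy
      have h2 := ih _ h1
      have h3 : B y - y = 0 := h2
      exact hB y (sub_eq_zero.1 h3)
  have hQu : aeval b Q u = 0 := by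
    apply hker (rootMultiplicity 1 P)
    rw [hQ1, map_mul, map_pow, hb1] at hPu
    exact hPu
  obtain ⟨R, hR⟩ : X - C 1 ∣ Q - C (Q.eval 1) := X_sub_C_dvd_sub_C_eval
  have hQR : Q = C (Q.eval 1) + (X - C 1) * R := by
    rw [← hR]
    ring
  have h1 : (Q.eval 1) • u + (B (aeval b R u) - aeval b R u) = 0 := by
    have h2 : aeval b Q u = (Q.eval 1) • u + (B (aeval b R u) - aeval b R u) := by
      conv_lhs => rw [hQR]
      rw [map_add, map_mul, hb1, aeval_C, Algebra.algebraMap_eq_smul_one]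
      rfl
    rw [← h2]
    exact hQu
  -- the sign
  rcases lt_or_gt_of_ne hQe with h3 | h3
  · refine ⟨(Q.eval 1).natAbs, Int.natAbs_pos.2 hQe, -(aeval b R u), ?_⟩
    have h4 : ((Q.eval 1).natAbs : ℤ) = -(Q.eval 1) := by
      rw [Int.natCast_natAbs, abs_of_neg h3]
    rw [← natCast_zsmul, h4, neg_smul, map_neg]
    have h5 : (Q.eval 1) • u = aeval b R u - B (aeval b R u) := by
      rw [eq_comm, ← sub_eq_zero, ← neg_eq_zero, ← h1]
      abel
    rw [h5]
    abel
  · refine ⟨(Q.eval 1).natAbs, Int.natAbs_pos.2 hQe, aeval b R u, ?_⟩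
    have h4 : ((Q.eval 1).natAbs : ℤ) = Q.eval 1 := by
      rw [Int.natCast_natAbs, abs_of_pos h3]
    rw [← natCast_zsmul, h4]
    rw [eq_comm, ← sub_eq_zero, ← neg_eq_zero, ← h1]
    abel

/-- The additive core. -/
theorem fix_core {A : Type} [AddCommGroup A] (B σ : A →+ A) (hσ : Function.Bijective σ)
    (hc : ∀ y, B (σ y) = σ (B y)) (hB : ∀ x, B x = x → x = 0)
    (htf : ∀ (n : ℕ) (x : A), 0 < n → n • x = 0 → x = 0) (u : A)
    (n : Fin 4 → ℤ) (hn : n ≠ 0)
    (h : n 0 • u + n 1 • B u + n 2 • B (B u) + n 3 • B (B (B u)) = 0)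
    (hfin : ∀ m : ℕ, 0 < m → Finite (A →+ ZMod m)) :
    ∃ i : ℕ, 0 < i ∧ ∃ w : A, osum σ u i + B w = w := by
  obtain ⟨e, he, x, hx⟩ := exists_mult B hB u n hn h
  obtain ⟨i, hi, w, hw⟩ := exists_osum σ hσ (cov_all A hfin e he) x
  refine ⟨i, hi, w, ?_⟩
  have h1 : osum σ (e • u) i = e • osum σ u i := by
    have := osum_map σ u (nsmulAddMonoidHom e) (fun y => (map_nsmul σ e y).symm) i
    exact this
  have h2 : ∀ j : ℕ, osum σ (x - B x) j = osum σ x j - B (osum σ x j) := by
    intro j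
    induction j with
    | zero =>
      show (0 : A) = 0 - B 0
      rw [map_zero, sub_zero]
    | succ j ih =>
      show x - B x + σ (osum σ (x - B x) j) = x + σ (osum σ x j) - B (x + σ (osum σ x j))
      rw [ih, map_sub, map_add, hc]
      abel
  have h3 : e • (osum σ u i + B w - w) = 0 := by
    rw [smul_sub, smul_add, ← h1, hx, h2, hw, map_nsmul]
    abel
  exact sub_eq_zero.1 (htf e _ he h3)

end BCX
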