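import Pool.Agent.BCX.Defs3

/-!
# Stable classes in degree one are the stable characters
-/

set_option autoImplicit false

open CategoryTheory groupCohomology EssMap
open scoped commutatorElement

namespace BCX

theorem una_map {X : Type} [Group X] (θ : X →* X) (m : ℕ) (z : cocycles₁ (Fm X m)) :
    (H1IsoOfIsTrivial (Fm X m)).hom
        (TT θ (Fm X m) (Fm_inv θ m) 1 (H1π (Fm X m) z)) =
      ((H1IsoOfIsTrivial (Fm X m)).hom (H1π (Fm X m) z) : Additive X →+ (Fm X m)).comp
        θ.toAdditive := by
  have h1 : TT θ (Fm X m) (Fm_inv θ m) 1 (H1π (Fm X m) z) =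
      H1π (Fm X m) (mapCocycles₁ θ (tw θ (Fm X m) (Fm_inv θ m)) z) :=
    H1π_comp_map_apply θ (tw θ (Fm X m) (Fm_inv θ m)) z
  rw [h1]
  refine AddMonoidHom.ext fun x => ?_
  have h2 := H1IsoOfIsTrivial_H1π_apply_apply
    ((mapCocycles₁ θ (tw θ (Fm X m) (Fm_inv θ m))) z) x
  have h3 := H1IsoOfIsTrivial_H1π_apply_apply z (θ.toAdditive x)
  exact h2.trans h3.symm

def unaEq (X : Type) [Group X] (p : ℕ) [Fact p.Prime] :
    (Additive X →+ ZMod p) ≃ Addf X (ZMod p) where
  toFun f := ⟨fun x => f (Additive.ofMul x), fun x y => f.map_add _ _⟩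
  invFun c := AddMonoidHom.mk' (fun x => c.1 x.toMul) (fun x y => c.2 _ _)
  left_inv f := rfl
  right_inv c := rfl

/-- ROW UNA: stable classes in degree one are the stable characters -/
theorem un_one_eq {X : Type} [Group X] [Group.FG X] (θ : X →* X) (p : ℕ) [Fact p.Prime] :
    un θ (Fm X p) (Fm_inv θ p) 1 = p ^ Module.finrank (ZMod p) (stA θ p) := by
  let e := (H1IsoOfIsTrivial (Fm X p)).toLinearEquiv
  have f1 : Finite (X →* Multiplicative (ZMod p)) := finite_hom X (Multiplicative (ZMod p))
  have f2 : Finite (Additive X →+ ZMod p) :=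
    Finite.of_equiv _ (AddMonoidHom.toMultiplicativeRight (α := X) (β := ZMod p)).symm
  have f3 : Finite (Addf X (ZMod p)) := Finite.of_equiv _ (unaEq X p)
  have f4 : Finite (stA θ p) := Subtype.finite
  have key : ∀ x : groupCohomology (Fm X p) 1,
      (e (TT θ (Fm X p) (Fm_inv θ p) 1 x) : Additive X →+ ZMod p) =
        (e x : Additive X →+ ZMod p).comp θ.toAdditive := by
    intro x
    induction x using H1_induction_on with
    | h z => exact una_map θ p z
  let E : groupCohomology (Fm X p) 1 ≃ Addf X (ZMod p) := e.toEquiv.trans (unaEq X p)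
  have hE : ∀ (k : ℕ) (x : groupCohomology (Fm X p) 1) (g : X),
      (E ((TT θ (Fm X p) (Fm_inv θ p) 1)^[k] x)).1 g = (E x).1 (θ^[k] g) := by
    intro k
    induction k with
    | zero => exact fun x g => rfl
    | succ k ih =>
      intro x g
      rw [Function.iterate_succ_apply, ih, Function.iterate_succ_apply']
      exact DFunLike.congr_fun (key x) (Additive.ofMul (θ^[k] g))
  have h1 : Nat.card (st (TT θ (Fm X p) (Fm_inv θ p) 1)) = Nat.card (stA θ p) := by
    refine Nat.card_congr (Equiv.subtypeEquiv E fun x => ?_)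
    constructor
    · intro hx k
      obtain ⟨y, hy⟩ := hx k
      refine ⟨E y, fun g => ?_⟩
      rw [← hE, hy]
    · intro hx k
      obtain ⟨c, hc⟩ := hx k
      refine ⟨E.symm c, E.injective (Subtype.ext (funext fun g => ?_))⟩
      rw [hE, Equiv.apply_symm_apply, hc]
  unfold un
  rw [h1, Module.natCard_eq_pow_finrank (K := ZMod p) (V := stA θ p), Nat.card_zmod]

end BCX
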