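import Pool.Agent.BCX.Ch2
import Pool.Agent.BCX.Chi2
import Pool.Agent.BCX.Fin2
import Pool.Agent.BCX.Una
import Pool.Agent.BCX.Coi
import Pool.Agent.BCX.Sha
import Pool.Agent.BCX.UNI

/-!
# The growth of the stable characters
-/

set_option autoImplicit false

open CategoryTheory groupCohomology EssMap
open scoped commutatorElement

namespace BCX

private theorem GRO_T0 {G : Type} [Group G] (θ : G →* G) (V : Rep ℤ G)
    (hV : ∀ g, V.ρ (θ g) = V.ρ g) (x : groupCohomology V 0) :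
    TT θ V hV 0 x = x := by
  have h := map_H0Iso_hom_f_apply (f := θ) (φ := tw θ V hV) x
  have hi : Function.Injective (fun y : groupCohomology V 0 =>
      (shortComplexH0 V).f ((H0Iso V).hom y)) := by
    intro a b hab
    have h1 : (H0Iso V).hom a = (H0Iso V).hom b := Subtype.ext hab
    have h2 := congrArg (H0Iso V).inv h1
    simpa using h2
  exact hi h

private theorem GRO_un0 {G : Type} [Group G] (θ : G →* G) (V : Rep ℤ G)
    (hV : ∀ g, V.ρ (θ g) = V.ρ g) : un θ V hV 0 = Nat.card (groupCohomology V 0) := by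
  have h1 : st (TT θ V hV 0) = ⊤ := by
    rw [eq_top_iff]
    intro x _ k
    refine ⟨x, ?_⟩
    induction k with
    | zero => rfl
    | succ k ih => rw [Function.iterate_succ_apply, GRO_T0, ih]
  unfold un
  rw [h1]
  exact Nat.card_congr AddSubgroup.topEquiv.toEquiv

private theorem GRO_card0 (G : Type) [Group G] (m : ℕ) :
    Nat.card (groupCohomology (Fm G m) 0) = m := by
  have e2 : groupCohomology (Fm G m) 0 ≃ ZMod m :=
    (H0IsoOfIsTrivial (Fm G m)).toLinearEquiv.toEquiv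
  rw [Nat.card_congr e2, Nat.card_zmod]

private theorem GRO_arith (p a b c d n : ℕ) (hp : 1 < p) (hc : 0 < c) (hd : 0 < d)
    (h1 : p * d * b ^ n = a * (p * c) ^ n) (h2 : p ^ 2 * c ≤ b) : p ^ (1 + n) ≤ a := by
  have h3 : p * 1 * (p ^ 2 * c) ^ n ≤ a * (p * c) ^ n := by
    rw [← h1]
    gcongr
    exact hd
  have h4 : p * 1 * (p ^ 2 * c) ^ n = p ^ (1 + n) * (p * c) ^ n := by
    rw [mul_pow, mul_pow, ← pow_mul, pow_add, pow_one]
    ring
  rw [h4] at h3
  exact Nat.le_of_mul_le_mul_right h3 (pow_pos (Nat.mul_pos (by omega) hc) n)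

private theorem GRO_iter {G : Type} [Group G] (θ : G →* G) (U : Subgroup G)
    (hU : ∀ x ∈ U, θ x ∈ U) (r : ℕ) (hU' : ∀ x ∈ U, itr θ r x ∈ U) (k : ℕ) (x : U) :
    (rst (itr θ r) U hU')^[k] x = (rst θ U hU)^[r * k] x := by
  have h0 : ∀ y : U, rst (itr θ r) U hU' y = (rst θ U hU)^[r] y := by
    intro y
    apply Subtype.ext
    rw [rst_coe, ← itr_eq_iterate, itr_rst]
  induction k with
  | zero => rfl
  | succ k ih =>
    rw [Function.iterate_succ_apply', ih, h0, ← Function.iterate_add_apply]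
    congr 1
    ring_nf

private theorem GRO_stA {G : Type} [Group G] (p : ℕ) [Fact p.Prime] (θ : G →* G) (U : Subgroup G)
    (hU : ∀ x ∈ U, θ x ∈ U) (r : ℕ) (hr : 0 < r) (hU' : ∀ x ∈ U, itr θ r x ∈ U) :
    stA (rst (itr θ r) U hU') p ≤ stA (rst θ U hU) p := by
  intro c hc k
  obtain ⟨e, he⟩ := hc k
  have hk : k ≤ r * k := Nat.le_mul_of_pos_left k hr
  refine ⟨prc (itr (rst θ U hU) (r * k - k)) e, fun x => ?_⟩
  rw [← he x, GRO_iter θ U hU r hU' k x]
  show e.1 (itr (rst θ U hU) (r * k - k) ((rst θ U hU)^[k] x)) = _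
  rw [itr_eq_iterate, ← Function.iterate_add_apply, Nat.sub_add_cancel hk]

/-- ROW GRO (from CH2, CHI2, COI, SHA, UNA) -/
theorem grow {X : Type} [Group X] (hX : Dual 3 X) (ho : Ori 3 X = ⊤) (θ : X →* X)
    (hinj : Function.Injective θ) (hfin : θ.range.FiniteIndex) (p : ℕ) [Fact p.Prime]
    (hp : p ∣ θ.range.index) (haut : ∀ r, 0 < r → AutH (itr θ r)) (h2 : Two X) (u : US θ p) :
    1 + u.U.index ≤ Module.finrank (ZMod p) (stA (rst θ u.U u.inv) p) := by
  have hfg := hX.fg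
  have hXU : Dual 3 u.U := hX.sub u.U
  have hfgU := hXU.fg
  have hoU : Ori 3 u.U = ⊤ := ori_top u.U 3 hX.cd (by rw [ho]; exact le_top)
  have hV : u.U.comap θ = u.U := by
    ext x
    exact u.iff x
  obtain ⟨r, hr, hrx⟩ := UNI_order θ u.U hV
  have hinj' := itr_inj hinj r
  have hfin' := itr_range_finiteIndex hinj hfin r
  have hp' : p ∣ (itr θ r).range.index := by
    rw [EssMap.itr_index hinj]
    exact dvd_pow hp hr.ne'
  have hθ' : ∀ g, g⁻¹ * itr θ r g ∈ u.U := fun g => QuotientGroup.eq.1 (hrx g).symm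
  have hU' : ∀ x ∈ u.U, itr θ r x ∈ u.U := by
    intro x hx
    have h3 := u.U.mul_mem hx (hθ' x)
    rwa [mul_inv_cancel_left] at h3
  obtain ⟨hg, hcard, -⟩ := coi_good (itr θ r) p u.U u.pg hθ'
  have hgF : Good (itr θ r) p (Fm X p) :=
    { fin := inferInstanceAs (Finite (ZMod p))
      pp := ⟨1, by rw [pow_one]; exact Nat.card_zmod _⟩
      pgr := fun g => ⟨0, rfl⟩
      inv := Fm_inv _ _ }
  have hgU : Good (rst (itr θ r) u.U hU') p (Fm u.U p) :=
    { fin := inferInstanceAs (Finite (ZMod p))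
      pp := ⟨1, by rw [pow_one]; exact Nat.card_zmod _⟩
      pgr := fun g => ⟨0, rfl⟩
      inv := Fm_inv _ _ }
  have hfF2 : Finite (groupCohomology (Fm X p) 2) :=
    fin_coh2 (itr θ r) hX ho p (Fm X p) hgF 2 le_rfl
  have hfV2 : Finite (groupCohomology (Rep.coind u.U.subtype (Fm u.U p)) 2) :=
    fin_coh2 (itr θ r) hX ho p _ hg 2 le_rfl
  have hfU1 : Finite (groupCohomology (Fm u.U p) 1) :=
    fin_coh2 (rst (itr θ r) u.U hU') hXU hoU p (Fm u.U p) hgU 1 (by norm_num)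
  have e1 := chi_mul2 (itr θ r) hX ho hinj' hfin' p hp' _ hg u.U.index hcard
  have e2 := chi_two hX ho (itr θ r) hinj' hfin' p hp' (haut r hr) h2
  have e3 : un (itr θ r) (Rep.coind u.U.subtype (Fm u.U p)) hg.inv 0 = p := by
    rw [GRO_un0]
    have i := (groupCohomology.coindIso (Fm u.U p) 0).toLinearEquiv.toEquiv
    rw [Nat.card_congr i, GRO_card0]
  have e4 : un (itr θ r) (Fm X p) (Fm_inv _ p) 0 = p := by
    rw [GRO_un0, GRO_card0]
  have e5 := shapiro_un (itr θ r) p u.U hU' hg.inv 1 hfU1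
  have e6 := un_one_eq (rst (itr θ r) u.U hU') p
  have c1 : 0 < un (itr θ r) (Fm X p) (Fm_inv _ p) 2 := Nat.card_pos
  have c2 : 0 < un (itr θ r) (Rep.coind u.U.subtype (Fm u.U p)) hg.inv 2 := Nat.card_pos
  rw [e3, e4] at e1
  have hpp : 1 < p := (Fact.out : p.Prime).one_lt
  have h5 := GRO_arith p _ _ _ _ u.U.index hpp c1 c2 e1 e2
  rw [e5, e6] at h5
  have h6 : 1 + u.U.index ≤
      Module.finrank (ZMod p) (stA (rst (itr θ r) u.U hU') p) :=
    (Nat.pow_le_pow_iff_right hpp).1 h5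
  refine h6.trans ?_
  have hfd : FiniteDimensional (ZMod p) (Addf u.U (ZMod p)) := addf_fd
  exact Submodule.finrank_mono (GRO_stA p θ u.U u.inv r hr hU')

end BCX
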