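import Pool.Agent.BCX.InjF

/-!
# Bounded kernels on the nilpotent quotients
-/

set_option autoImplicit false

open EssMap
open scoped commutatorElement

namespace BCX.INJ

variable {Q : Type} [Group Q]

/-- the elements of `X` mapped into `γ_{c+1}(X)` by the `k`-th iterate -/
def Kk (φ : Q →* Q) (c : ℕ) (X : Subgroup Q) (k : ℕ) : Subgroup Q :=
  X ⊓ (X.lowerCentralSeries c).comap (itr φ k)

/-- the elements of `X` mapped into `γ_{c+1}(X)` by some iterate -/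
def Cl (φ : Q →* Q) (c : ℕ) (X : Subgroup Q) : Subgroup Q := ⨆ k : ℕ, Kk φ c X k

theorem lcs_inv (φ : Q →* Q) (c : ℕ) (X : Subgroup Q) (hX : ∀ x ∈ X, φ x ∈ X) :
    ∀ y ∈ X.lowerCentralSeries c, φ y ∈ X.lowerCentralSeries c := by
  intro y hy
  have h1 : (X.lowerCentralSeries c).map φ ≤ X.lowerCentralSeries c := by
    rw [Subgroup.map_lowerCentralSeries]
    apply Subgroup.lowerCentralSeries_mono
    rintro _ ⟨a, ha, rfl⟩
    exact hX a ha
  exact h1 ⟨y, hy, rfl⟩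

theorem itr_inv (φ : Q →* Q) (X : Subgroup Q) (hX : ∀ x ∈ X, φ x ∈ X) (k : ℕ) :
    ∀ x ∈ X, itr φ k x ∈ X := by
  induction k with
  | zero => intro x hx; exact hx
  | succ k ih => intro x hx; rw [itr_succ]; exact hX _ (ih x hx)

theorem Kk_mono (φ : Q →* Q) (c : ℕ) (X : Subgroup Q) (hX : ∀ x ∈ X, φ x ∈ X) :
    Monotone (Kk φ c X) := by
  apply monotone_nat_of_le_succ
  intro k x hx
  refine ⟨hx.1, ?_⟩
  show itr φ (k + 1) x ∈ X.lowerCentralSeries c
  rw [itr_succ]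
  exact lcs_inv φ c X hX _ hx.2

theorem mem_Cl (φ : Q →* Q) (c : ℕ) (X : Subgroup Q) (hX : ∀ x ∈ X, φ x ∈ X) (x : Q) :
    x ∈ Cl φ c X ↔ x ∈ X ∧ ∃ k, itr φ k x ∈ X.lowerCentralSeries c := by
  unfold Cl
  rw [Subgroup.mem_iSup_of_directed (Kk_mono φ c X hX).directed_le]
  constructor
  · rintro ⟨k, hk⟩
    exact ⟨hk.1, k, hk.2⟩
  · rintro ⟨h1, k, hk⟩
    exact ⟨k, h1, hk⟩

theorem Cl_le (φ : Q →* Q) (c : ℕ) (X : Subgroup Q) : Cl φ c X ≤ X :=
  iSup_le fun _ => inf_le_left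

theorem lcs_le_Kk (φ : Q →* Q) (c : ℕ) (X : Subgroup Q) (hX : ∀ x ∈ X, φ x ∈ X) (k : ℕ) :
    X.lowerCentralSeries c ≤ Kk φ c X k := by
  intro x hx
  exact ⟨X.lowerCentralSeries_le_self c hx, itr_inv φ _ (lcs_inv φ c X hX) k x hx⟩

theorem lcs_le_Cl (φ : Q →* Q) (c : ℕ) (X : Subgroup Q) (hX : ∀ x ∈ X, φ x ∈ X) :
    X.lowerCentralSeries c ≤ Cl φ c X :=
  (lcs_le_Kk φ c X hX 0).trans (le_iSup (Kk φ c X) 0)

theorem lcs_conj (c : ℕ) (X : Subgroup Q) (x g : Q) (hx : x ∈ X)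
    (hg : g ∈ X.lowerCentralSeries c) : x * g * x⁻¹ ∈ X.lowerCentralSeries c := by
  have h1 := X.self_le_normalizer_lowerCentralSeries c hx
  exact (Subgroup.mem_normalizer_iff.1 h1 g).1 hg

theorem Cl_fun (φ : Q →* Q) (c : ℕ) (Q₀ : Subgroup Q) : Fun φ Q₀ (Cl φ c) where
  norm := by
    intro X hX x hx g hg
    rw [mem_Cl φ c X hX.inv] at hg ⊢
    obtain ⟨h1, k, hk⟩ := hg
    refine ⟨mul_mem (mul_mem hx h1) (inv_mem hx), k, ?_⟩
    rw [map_mul, map_mul, map_inv]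
    exact lcs_conj c X _ _ (itr_inv φ X hX.inv k x hx) hk
  mono := by
    intro U X hU hX hUX x hx
    rw [mem_Cl φ c U hU.inv] at hx
    rw [mem_Cl φ c X hX.inv]
    obtain ⟨h1, k, hk⟩ := hx
    exact ⟨hUX h1, k, Subgroup.lowerCentralSeries_mono c hUX hk⟩
  map := by
    intro X hX x hx
    rw [mem_Cl φ c X hX.inv] at hx ⊢
    obtain ⟨h1, k, hk⟩ := hx
    refine ⟨hX.inv x h1, k, ?_⟩
    rw [← itr_succ', itr_succ]
    exact lcs_inv φ c X hX.inv _ hk
  ker := by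
    intro X hX x hx hφx j
    refine ⟨1, one_mem _, ?_⟩
    rw [map_one, inv_one, one_mul]
    rw [mem_Cl φ c X hX.inv] at hφx ⊢
    obtain ⟨-, k, hk⟩ := hφx
    exact ⟨hx, k + 1, by rw [itr_succ']; exact hk⟩

/-- the kernels of all iterates on `X / γ_{c+1}(X)` have at most `B` elements -/
def KerBdd (φ : Q →* Q) (c : ℕ) (B : ℕ) (Q₀ : Subgroup Q) : Prop :=
  ∀ X : Subgroup Q, X.FiniteIndex → X ≤ Q₀ → (∀ x ∈ X, φ x ∈ X) → ∀ k : ℕ,
    (X.lowerCentralSeries c).relIndex (X ⊓ (X.lowerCentralSeries c).comap (itr φ k)) ≠ 0 ∧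
    (X.lowerCentralSeries c).relIndex (X ⊓ (X.lowerCentralSeries c).comap (itr φ k)) ≤ B

theorem Cl_bound (φ : Q →* Q) (c B : ℕ) (Q₀ : Subgroup Q) (hB : KerBdd φ c B Q₀)
    (X : Subgroup Q) (hX : Ad φ Q₀ X) :
    (X.lowerCentralSeries c).relIndex (Cl φ c X) ≠ 0 ∧
      (X.lowerCentralSeries c).relIndex (Cl φ c X) ≤ B := by
  let r : ℕ → ℕ := fun k => (X.lowerCentralSeries c).relIndex (Kk φ c X k)
  have hr : ∀ k, r k ≠ 0 ∧ r k ≤ B := fun k => hB X hX.fin hX.le hX.inv k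
  obtain ⟨k0, hk0⟩ : ∃ k0, ∀ k, r k ≤ r k0 := by
    have hne : (Set.range r).Nonempty := ⟨_, 0, rfl⟩
    have hb : BddAbove (Set.range r) := ⟨B, by rintro _ ⟨l, rfl⟩; exact (hr l).2⟩
    obtain ⟨l0, hl⟩ := Nat.sSup_mem hne hb
    exact ⟨l0, fun l => by rw [hl]; exact le_csSup hb ⟨l, rfl⟩⟩
  have hle : ∀ k, Kk φ c X k ≤ Kk φ c X k0 := by
    intro k
    have h1 : Kk φ c X k0 ≤ Kk φ c X (max k k0) := Kk_mono φ c X hX.inv (le_max_right _ _)
    have h2 := Subgroup.relIndex_mul_relIndex _ _ _ (lcs_le_Kk φ c X hX.inv k0) h1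
    have h3 : r k0 * (Kk φ c X k0).relIndex (Kk φ c X (max k k0)) = r (max k k0) := h2
    have h4 : (Kk φ c X k0).relIndex (Kk φ c X (max k k0)) = 1 := by
      have h5 := hk0 (max k k0)
      rw [← h3] at h5
      have h6 : 0 < r k0 := Nat.pos_of_ne_zero (hr k0).1
      have h7 : (Kk φ c X k0).relIndex (Kk φ c X (max k k0)) ≠ 0 := by
        intro h
        rw [h, mul_zero] at h3
        exact (hr (max k k0)).1 h3.symm
      have h8 : (Kk φ c X k0).relIndex (Kk φ c X (max k k0)) ≤ 1 := by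
        by_contra h
        push Not at h
        have h9 : r k0 * 2 ≤ r k0 * (Kk φ c X k0).relIndex (Kk φ c X (max k k0)) :=
          Nat.mul_le_mul_left _ h
        omega
      omega
    exact (Kk_mono φ c X hX.inv (le_max_left k k0)).trans (Subgroup.relIndex_eq_one.1 h4)
  have heq : Cl φ c X = Kk φ c X k0 :=
    le_antisymm (iSup_le hle) (le_iSup (Kk φ c X) k0)
  rw [heq]
  exact hr k0

/-- nilpotent action on a finite section -/
theorem nil_section (φ : Q →* Q) (A L : Subgroup Q) (hA : ∀ x ∈ A, φ x ∈ A) (hAL : A ≤ L)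
    (m : ℕ) (hm : ∀ x ∈ L, itr φ m x ∈ A) (hL : ∀ x ∈ L, φ x ∈ L)
    (h0 : A.relIndex L ≠ 0) (b : ℕ) (hb : A.relIndex L ≤ b) :
    ∀ x ∈ L, itr φ b x ∈ A := by
  let E : ℕ → Subgroup Q := fun i => L ⊓ A.comap (itr φ i)
  have hAE : ∀ i, A ≤ E i := fun i x hx => ⟨hAL hx, itr_inv φ A hA i x hx⟩
  have hEm : ∀ i, E i ≤ E (i + 1) := by
    intro i x hx
    refine ⟨hx.1, ?_⟩
    show itr φ (i + 1) x ∈ A
    rw [itr_succ]
    exact hA _ hx.2
  have hstat : ∀ i, E (i + 1) ≤ E i → L ≤ E i := by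
    intro i hi
    have h1 : ∀ k, E (i + k) ≤ E i := by
      intro k
      induction k with
      | zero => exact le_rfl
      | succ k ih =>
        intro x hx
        -- `φ^k`-shift
        have h2 : ∀ y ∈ L, itr φ (i + 1) y ∈ A → itr φ i y ∈ A := fun y hy h =>
          (hi ⟨hy, h⟩).2
        have h3 : itr φ (i + k) x ∈ A := by
          have h4 : itr φ k x ∈ L := itr_inv φ L hL k x hx.1
          have h5 : itr φ (i + 1) (itr φ k x) ∈ A := by
            rw [← itr_add]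
            have : i + 1 + k = i + (k + 1) := by ring
            rw [this]
            exact hx.2
          have h6 := h2 _ h4 h5
          rw [← itr_add] at h6
          exact h6
        exact ih ⟨hx.1, h3⟩
    intro x hx
    apply h1 m
    refine ⟨hx, ?_⟩
    show itr φ (i + m) x ∈ A
    rw [itr_add]
    exact itr_inv φ A hA i _ (hm x hx)
  have hne : ∀ i, A.relIndex (E i) ≠ 0 := by
    intro i h
    have h1 := Subgroup.relIndex_mul_relIndex _ _ _ (hAE i) (inf_le_left : E i ≤ L)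
    rw [h, zero_mul] at h1
    exact h0 h1.symm
  have hgrow : ∀ i, L ≤ E i ∨ i + 1 ≤ A.relIndex (E i) := by
    intro i
    induction i with
    | zero =>
      right
      have := hne 0
      omega
    | succ i ih =>
      rcases ih with h | h
      · exact Or.inl (h.trans (hEm i))
      · by_cases h1 : E (i + 1) ≤ E i
        · exact Or.inl ((hstat i h1).trans (hEm i))
        · right
          have h2 := Subgroup.relIndex_mul_relIndex _ _ _ (hAE i) (hEm i)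
          have h3 : (E i).relIndex (E (i + 1)) ≠ 1 := fun h4 => h1 (Subgroup.relIndex_eq_one.1 h4)
          have h4 : (E i).relIndex (E (i + 1)) ≠ 0 := by
            intro h5
            rw [h5, mul_zero] at h2
            exact hne (i + 1) h2.symm
          have h5 : 2 ≤ (E i).relIndex (E (i + 1)) := by omega
          calc i + 1 + 1 ≤ (i + 1) * 2 := by omega
            _ ≤ A.relIndex (E i) * (E i).relIndex (E (i + 1)) := Nat.mul_le_mul h h5
            _ = A.relIndex (E (i + 1)) := h2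
  have hfinal : L ≤ E b := by
    rcases hgrow b with h | h
    · exact h
    · exfalso
      have h1 := Subgroup.relIndex_mul_relIndex _ _ _ (hAE b) (inf_le_left : E b ≤ L)
      have h2 : (E b).relIndex L ≠ 0 := by
        intro h3
        rw [h3, mul_zero] at h1
        exact h0 h1.symm
      have h3 : A.relIndex (E b) ≤ A.relIndex L := by
        rw [← h1]
        exact Nat.le_mul_of_pos_right _ (Nat.pos_of_ne_zero h2)
      omega
  intro x hx
  exact (hfinal hx).2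

/-- three subgroups -/
theorem three (F L M : Subgroup Q) [hF : F.Normal] (h : ⁅⁅M, L⁆, L⁆ ≤ F) :
    ⁅⁅L, L⁆, M⁆ ≤ F := by
  let π := QuotientGroup.mk' F
  have hker : ∀ (S : Subgroup Q), S.map π = ⊥ ↔ S ≤ F := by
    intro S
    rw [Subgroup.map_eq_bot_iff, QuotientGroup.ker_mk']
  have h3 : ⁅⁅M.map π, L.map π⁆, L.map π⁆ = ⊥ := by
    rw [← Subgroup.map_commutator, ← Subgroup.map_commutator, hker]
    exact h
  have h4 : ⁅⁅L.map π, M.map π⁆, L.map π⁆ = ⊥ := by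
    rw [Subgroup.commutator_comm (L.map π) (M.map π)]
    exact h3
  have h5 := Subgroup.commutator_commutator_eq_bot_of_rotate h4 h3
  rw [← Subgroup.map_commutator, ← Subgroup.map_commutator, hker] at h5
  exact h5

theorem normal_of_conj (S : Subgroup Q) (h : ∀ q g : Q, g ∈ S → q * g * q⁻¹ ∈ S) : S.Normal :=
  ⟨fun g hg q => h q g hg⟩

theorem Cl_normal (φ : Q →* Q) (c : ℕ) (X : Subgroup Q) [hn : X.Normal]
    (hX : ∀ x ∈ X, φ x ∈ X) : (Cl φ c X).Normal := by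
  apply normal_of_conj
  intro q g hg
  rw [mem_Cl φ c X hX] at hg ⊢
  obtain ⟨h1, k, hk⟩ := hg
  refine ⟨hn.conj_mem g h1 q, k, ?_⟩
  rw [map_mul, map_mul, map_inv]
  exact (Subgroup.lowerCentralSeries_normal X c).conj_mem _ hk _


theorem relIndex_aux (F Γ W : Subgroup Q) [F.Normal] (hW : W = Γ ⊔ F) :
    F.relIndex W = F.relIndex Γ := by
  subst hW
  exact Subgroup.relIndex_sup_right _ _

/-- the index bound -/
theorem keyW (φ : Q →* Q) (c B : ℕ) (Q₀ : Subgroup Q) (hH : KerBdd φ c B Q₀)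
    (W A : Subgroup Q) (hW : Ad φ Q₀ W) (hWn : W.Normal) (hAn : A.Normal)
    (hAW : A ≤ W) (hWC : W ≤ A ⊔ Cl φ c W) :
    (A ⊔ W.lowerCentralSeries c).Normal ∧ A ⊔ W.lowerCentralSeries c ≤ W ∧
    (A ⊔ W.lowerCentralSeries c).relIndex W ≠ 0 ∧
      (A ⊔ W.lowerCentralSeries c).relIndex W ≤ B := by
  have hlW : (W.lowerCentralSeries c).Normal := inferInstance
  have hFn : (A ⊔ W.lowerCentralSeries c).Normal := inferInstance
  have hle : A ⊔ W.lowerCentralSeries c ≤ W := sup_le hAW (W.lowerCentralSeries_le_self c)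
  have hWC' : W = Cl φ c W ⊔ (A ⊔ W.lowerCentralSeries c) := by
    apply le_antisymm
    · refine hWC.trans (sup_le ?_ le_sup_left)
      exact le_sup_left.trans le_sup_right
    · exact sup_le (Cl_le φ c W) hle
  have hrel := relIndex_aux (A ⊔ W.lowerCentralSeries c) (Cl φ c W) W hWC'
  have hb := Cl_bound φ c B Q₀ hH W hW
  have h2 : (A ⊔ W.lowerCentralSeries c).relIndex (Cl φ c W) ∣
      (W.lowerCentralSeries c).relIndex (Cl φ c W) :=
    Subgroup.relIndex_dvd_of_le_left _ le_sup_right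
  refine ⟨hFn, hle, ?_, ?_⟩
  · rw [hrel]
    intro h
    rw [h] at h2
    exact hb.1 (Nat.eq_zero_of_zero_dvd h2)
  · rw [hrel]
    exact (Nat.le_of_dvd (Nat.pos_of_ne_zero hb.1) h2).trans hb.2

theorem comm_WW (A L W T : Subgroup Q) (hAn : A.Normal) (hLn : L.Normal) (hTn : T.Normal)
    (hW : W = A ⊔ ⁅L, L⁆) (hT : T = A ⊔ ⁅L, W⁆) : ⁅W, W⁆ ≤ A ⊔ ⁅L, T⁆ := by
  obtain ⟨F, hF⟩ : ∃ F : Subgroup Q, F = A ⊔ ⁅L, T⁆ := ⟨_, rfl⟩
  have hFn : F.Normal := by rw [hF]; infer_instance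
  have hLF : ⁅L, T⁆ ≤ F := by rw [hF]; exact le_sup_right
  have hAF : A ≤ F := by rw [hF]; exact le_sup_left
  rw [← hF]
  have h1 : ⁅⁅⁅L, L⁆, L⁆, L⁆ ≤ F := by
    have h2 : ⁅⁅L, L⁆, L⁆ ≤ T := by
      rw [Subgroup.commutator_comm ⁅L, L⁆ L, hT]
      refine (Subgroup.commutator_mono le_rfl ?_).trans le_sup_right
      rw [hW]
      exact le_sup_right
    rw [Subgroup.commutator_comm _ L]
    exact (Subgroup.commutator_mono le_rfl h2).trans hLF
  have h3 : ⁅⁅L, L⁆, ⁅L, L⁆⁆ ≤ F := three F L ⁅L, L⁆ h1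
  have hker : ∀ (S : Subgroup Q), S.map (QuotientGroup.mk' F) = ⊥ ↔ S ≤ F := by
    intro S
    rw [Subgroup.map_eq_bot_iff, QuotientGroup.ker_mk']
  have h4 : W.map (QuotientGroup.mk' F) = ⁅L, L⁆.map (QuotientGroup.mk' F) := by
    rw [hW, Subgroup.map_sup, (hker A).2 hAF, bot_sup_eq]
  rw [← hker, Subgroup.map_commutator, h4, ← Subgroup.map_commutator, hker]
  exact h3

/-- the main theorem -/
theorem mainB [Group.FG Q] (φ : Q →* Q)
    (hinj : Function.Injective φ) (hfin : φ.range.FiniteIndex)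
    (hcap : ∀ q : Q, (∀ k : ℕ, q ∈ Set.range (φ^[k])) → q = 1) (c : ℕ) (hc1 : 1 ≤ c)
    (B : ℕ) (Q₀ : Subgroup Q) (hQ₀ : Q₀.FiniteIndex) (hH : KerBdd φ c B Q₀) :
    ∃ N : Subgroup Q, N.FiniteIndex ∧ N.lowerCentralSeries c = ⊥ := by
  obtain ⟨X₁, h₁, hext⟩ := exists_maxF hinj hfin hQ₀ (Cl_fun φ c Q₀)
  obtain ⟨G1, hG1n, hG1f, hcen⟩ := exists_cen (G := Q) (max φ.range.index B)
  have h₁f := h₁.fin
  obtain ⟨X, hXn, hXf, hXφ, hXle⟩ := exists_A φ (X₁ ⊓ G1) inferInstance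
  have hX : Ad φ Q₀ X := ⟨hXf, (hXle.trans inf_le_left).trans h₁.le, hXφ⟩
  have hXi := itr_inv φ X hXφ
  refine ⟨X, hXf, ?_⟩
  rw [eq_bot_iff]
  intro x hxl
  rw [Subgroup.mem_bot]
  have hx : x ∈ X := X.lowerCentralSeries_le_self c hxl
  have hxC : x ∈ Cl φ c X := lcs_le_Cl φ c X hXφ hxl
  obtain ⟨b, hb⟩ : ∃ b : ℕ, b = B * B := ⟨_, rfl⟩
  -- it suffices to kill a power
  apply itr_inj hinj b
  rw [map_one]
  apply hcap
  intro j
  obtain ⟨A, hAn, hAf, hAφ, hAle⟩ := exists_A φ (X ⊓ (itr φ j).range) (by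
    have := itr_range_finiteIndex hinj hfin j
    infer_instance)
  obtain ⟨hch, m, hm⟩ := chain_unit φ hfin A hAn hAf hAφ
  obtain ⟨C, hC⟩ : ∃ C : ℕ → Subgroup Q, C = fun i => A.comap (itr φ i) := ⟨_, rfl⟩
  have hCi : ∀ i, A.comap (itr φ i) = C i := fun i => by rw [hC]
  simp only [hCi] at hch hm
  have hCn : ∀ i, (C i).Normal := fun i => by rw [hC]; infer_instance
  have h0 : C 0 = A := by
    rw [hC]
    ext x
    rfl
  have hc : ∀ i, ⁅G1, C (i + 1)⁆ ≤ C i := fun i =>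
    hcen (C (i + 1)) (C i) (hCn _) (hCn _) (hch i).1 (hch i).2.1
      ((hch i).2.2.trans (le_max_left _ _))
  have hAC : ∀ i, A ≤ C i := by
    intro i
    induction i with
    | zero => rw [h0]
    | succ i ih => exact ih.trans (hch i).1
  have hCmn : (C m).Normal := hCn m
  have hCmA : ∀ y ∈ C m, itr φ m y ∈ A := by
    intro y hy
    rw [hC] at hy
    exact hy
  obtain ⟨Y, hYdef⟩ : ∃ Y : Subgroup Q, Y = C m ⊓ X := ⟨_, rfl⟩
  have hYn : Y.Normal := by rw [hYdef]; infer_instance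
  have hYC : Y ≤ C m := by rw [hYdef]; exact inf_le_left
  have hYX : Y ≤ X := by rw [hYdef]; exact inf_le_right
  have hAY : A ≤ Y := by rw [hYdef]; exact le_inf (hAC m) (hAle.trans inf_le_left)
  have hYinv : ∀ y ∈ Y, φ y ∈ Y := by
    intro y hy
    have h1 : y ∈ (C m).comap φ := by rw [hm]; exact hYC hy
    rw [hYdef]
    exact ⟨h1, hXφ y (hYX hy)⟩
  have hY : Ad φ Q₀ Y := ⟨Subgroup.finiteIndex_of_le hAY, hYX.trans hX.le, hYinv⟩
  have hYA : ∀ y ∈ Y, itr φ m y ∈ A := fun y hy => hCmA y (hYC hy)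
  have hXG1 : X ≤ G1 := hXle.trans inf_le_right
  have hXX₁ : X ≤ X₁ := hXle.trans inf_le_left
  have hCYn : (Cl φ c Y).Normal := Cl_normal φ c Y hYinv
  obtain ⟨L, hL⟩ : ∃ L : Subgroup Q, L = A ⊔ Cl φ c Y := ⟨_, rfl⟩
  have hLn : L.Normal := by rw [hL]; infer_instance
  have hAL : A ≤ L := by rw [hL]; exact le_sup_left
  have hLY : L ≤ Y := by rw [hL]; exact sup_le hAY (Cl_le φ c Y)
  have hLinv : ∀ y ∈ L, φ y ∈ L := by
    have h1 : L.map φ ≤ L := by
      rw [hL, Subgroup.map_sup]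
      apply sup_le_sup
      · rintro _ ⟨a, ha, rfl⟩
        exact hAφ a ha
      · rintro _ ⟨a, ha, rfl⟩
        exact (Cl_fun φ c Q₀).map Y hY a ha
    intro y hy
    exact h1 ⟨y, hy, rfl⟩
  -- the two properties of normal invariant subgroups between `A` and `L`
  have key : ∀ W : Subgroup Q, W.Normal → (∀ w ∈ W, φ w ∈ W) → A ≤ W → W ≤ L →
      (A ⊔ W.lowerCentralSeries c).relIndex W ≠ 0 ∧
      (A ⊔ W.lowerCentralSeries c).relIndex W ≤ B ∧
      ⁅G1, W⁆ ≤ A ⊔ W.lowerCentralSeries c := by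
    intro W hWn hWinv hAW hWL
    have hW : Ad φ Q₀ W :=
      ⟨Subgroup.finiteIndex_of_le hAW, (hWL.trans hLY).trans hY.le, hWinv⟩
    have hWC : W ≤ A ⊔ Cl φ c W := by
      intro u hu
      have hu' := hWL hu
      rw [hL] at hu'
      obtain ⟨a, ha, g, hg, hag⟩ := Subgroup.mem_sup_of_normal_left.1 hu'
      have hgW : g ∈ W := by
        have h1 : g = a⁻¹ * u := by rw [← hag]; group
        rw [h1]
        exact mul_mem (inv_mem (hAW ha)) hu
      obtain ⟨v, hv, hvu⟩ := hext W Y hW hY (hWL.trans hLY) (hYX.trans hXX₁) g hgW hg m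
      have h1 : u = a * itr φ m v * ((itr φ m v)⁻¹ * g) := by rw [← hag]; group
      rw [h1]
      exact mul_mem (Subgroup.mem_sup_left
        (mul_mem ha (hYA v ((hWL.trans hLY) hv)))) (Subgroup.mem_sup_right hvu)
    obtain ⟨k1, k2, k3, k4⟩ := keyW φ c B Q₀ hH W A hW hWn hAn hAW hWC
    exact ⟨k3, k4, hcen W _ hWn k1 k2 k3 (k4.trans (le_max_right _ _))⟩
  have hlcs : ∀ W : Subgroup Q, W.lowerCentralSeries c ≤ ⁅W, W⁆ := fun W =>
    W.lowerCentralSeries_antitone hc1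
  obtain ⟨W, hW⟩ : ∃ W : Subgroup Q, W = A ⊔ ⁅L, L⁆ := ⟨_, rfl⟩
  have hAW : A ≤ W := by rw [hW]; exact le_sup_left
  have hLLW : ⁅L, L⁆ ≤ W := by rw [hW]; exact le_sup_right
  have hWL : W ≤ L := by rw [hW]; exact sup_le hAL L.commutator_le_self
  have hWn : W.Normal := by rw [hW]; infer_instance
  have hWinv : ∀ w ∈ W, φ w ∈ W := by
    have h1 : W.map φ ≤ W := by
      rw [hW, Subgroup.map_sup, Subgroup.map_commutator]
      apply sup_le_sup
      · rintro _ ⟨a, ha, rfl⟩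
        exact hAφ a ha
      · apply Subgroup.commutator_mono
        · rintro _ ⟨a, ha, rfl⟩
          exact hLinv a ha
        · rintro _ ⟨a, ha, rfl⟩
          exact hLinv a ha
    intro y hy
    exact h1 ⟨y, hy, rfl⟩
  have kL := key L hLn hLinv hAL le_rfl
  have kW := key W hWn hWinv hAW hWL
  have hLG1 : L ≤ G1 := hLY.trans (hYX.trans hXG1)
  obtain ⟨T, hT⟩ : ∃ T : Subgroup Q, T = A ⊔ ⁅L, W⁆ := ⟨_, rfl⟩
  have hTn : T.Normal := by rw [hT]; infer_instance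
  have hAT : A ≤ T := by rw [hT]; exact le_sup_left
  have hLWT : ⁅L, W⁆ ≤ T := by rw [hT]; exact le_sup_right
  have hWW : ⁅W, W⁆ ≤ A ⊔ ⁅L, T⁆ := comm_WW A L W T hAn hLn hTn hW hT
  have hTT : T ≤ A ⊔ ⁅L, T⁆ := by
    conv_lhs => rw [hT]
    apply sup_le le_sup_left
    refine (Subgroup.commutator_mono hLG1 le_rfl).trans (kW.2.2.trans ?_)
    exact sup_le le_sup_left ((hlcs W).trans hWW)
  have hTC : ∀ i, i ≤ m → T ≤ C (m - i) := by
    intro i
    induction i with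
    | zero =>
      intro _
      have h1 : T ≤ L := by rw [hT]; exact sup_le hAL (Subgroup.commutator_le_left L W)
      exact h1.trans (hLY.trans hYC)
    | succ i ih =>
      intro hi
      have h1 := ih (by omega)
      have h2 : m - i = (m - (i + 1)) + 1 := by omega
      rw [h2] at h1
      refine hTT.trans (sup_le (hAC _) ?_)
      exact (Subgroup.commutator_mono hLG1 h1).trans (hc _)
  have hTA : T ≤ A := by
    have h1 := hTC m le_rfl
    rwa [Nat.sub_self, h0] at h1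
  have hWWA : W.lowerCentralSeries c ≤ A :=
    (hlcs W).trans ((Subgroup.commutator_mono hWL le_rfl).trans (hLWT.trans hTA))
  have hAW' : A ⊔ W.lowerCentralSeries c = A := sup_eq_left.2 hWWA
  rw [hAW'] at kW
  have hLW : W.relIndex L ≠ 0 ∧ W.relIndex L ≤ B := by
    have h1 : W.relIndex L ∣ (A ⊔ L.lowerCentralSeries c).relIndex L :=
      Subgroup.relIndex_dvd_of_le_left _ (sup_le hAW ((hlcs L).trans hLLW))
    refine ⟨?_, (Nat.le_of_dvd (Nat.pos_of_ne_zero kL.1) h1).trans kL.2.1⟩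
    intro h
    rw [h] at h1
    exact kL.1 (Nat.eq_zero_of_zero_dvd h1)
  have hAL' : A.relIndex L ≠ 0 ∧ A.relIndex L ≤ b := by
    rw [hb, ← Subgroup.relIndex_mul_relIndex _ _ _ hAW hWL]
    exact ⟨mul_ne_zero kW.1 hLW.1, Nat.mul_le_mul kW.2.1 hLW.2⟩
  have hnil := nil_section φ A L hAφ hAL m (fun y hy => hYA y (hLY hy)) hLinv hAL'.1
    b hAL'.2
  -- a power of the endomorphism
  have hCmf : (C m).FiniteIndex := Subgroup.finiteIndex_of_le (hAC m)
  obtain ⟨r, hr, hrx⟩ := UNI_order φ (C m) hm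
  have hrk : ∀ k : ℕ, ((itr φ (r * k) x : Q) : Q ⧸ C m) = (x : Q ⧸ C m) := by
    intro k
    induction k with
    | zero => rfl
    | succ k ih =>
      have e : r * (k + 1) = r + r * k := by ring
      rw [e, itr_add, hrx, ih]
  obtain ⟨M, hMj, hMx⟩ : ∃ M : ℕ, j ≤ M ∧
      ((itr φ M x : Q) : Q ⧸ C m) = (x : Q ⧸ C m) := by
    refine ⟨r * j, ?_, hrk _⟩
    calc j ≤ 1 * j := by omega
      _ ≤ r * j := Nat.mul_le_mul_right _ hr
  have hy1 : x⁻¹ * itr φ M x ∈ Y := by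
    rw [hYdef]
    exact ⟨QuotientGroup.eq.1 hMx.symm, X.mul_mem (X.inv_mem hx) (hXi M x hx)⟩
  have hCX : ∀ k, itr φ k x ∈ Cl φ c X := fun k =>
    itr_inv φ _ ((Cl_fun φ c Q₀).map X hX) k x hxC
  have hy3 : x⁻¹ * itr φ M x ∈ Cl φ c X := mul_mem (inv_mem hxC) (hCX M)
  have hy2 : x⁻¹ * itr φ M x ∈ L := by
    obtain ⟨v, hv, hvu⟩ := hext Y X hY hX hYX hXX₁ _ hy1 hy3 m
    have h1 : x⁻¹ * itr φ M x = itr φ m v * ((itr φ m v)⁻¹ * (x⁻¹ * itr φ M x)) := by group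
    rw [h1, hL]
    exact mul_mem (Subgroup.mem_sup_left (hYA v hv)) (Subgroup.mem_sup_right hvu)
  have hjr : itr φ b (itr φ M x) ∈ (itr φ j).range := by
    refine ⟨itr φ (b + M - j) x, ?_⟩
    rw [← itr_add, ← itr_add, Nat.add_sub_cancel' (by omega)]
  have hxr : itr φ b x ∈ (itr φ j).range := by
    have h1 : itr φ b x = itr φ b (itr φ M x) * (itr φ b (x⁻¹ * itr φ M x))⁻¹ := by
      rw [map_mul (itr φ b) x⁻¹, map_inv]
      group
    rw [h1]
    exact mul_mem hjr (inv_mem (hAle (hnil _ hy2)).2)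
  obtain ⟨z, hz⟩ := hxr
  exact ⟨z, by rw [← itr_eq_iterate]; exact hz⟩

end BCX.INJ
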