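import Pool.Agent.BCX.PN
import Pool.Agent.BCX.CEN
import Pool.Agent.BCX.CHN
import Pool.Agent.BCX.EXA

/-!
# Unbounded p-quotients
-/

set_option autoImplicit false

open EssMap
open scoped commutatorElement

namespace BCX

theorem itr_index {G : Type*} [Group G] (θ : G →* G) (hinj : Function.Injective θ) (k : ℕ) :
    (itr θ k).range.index = θ.range.index ^ k := by
  induction k with
  | zero =>
    have : (itr θ 0).range = ⊤ := by
      show (MonoidHom.id G).range = ⊤
      exact MonoidHom.range_eq_top.2 Function.surjective_id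
    rw [this, Subgroup.index_top, pow_zero]
  | succ k ih =>
    have h1 : (itr θ (k + 1)).range = (itr θ k).range.map θ := by
      show (θ.comp (itr θ k)).range = _
      rw [MonoidHom.range_comp]
    rw [h1, Subgroup.index_map_of_injective _ hinj, ih, pow_succ]

/-- the images of the chain lie in the upper central series -/
theorem ucs_ge {G : Type*} [Group G] (G1 A : Subgroup G) (hA : A.Normal) (C : ℕ → Subgroup G)
    (h0 : C 0 = A) (hc : ∀ i, ⁅G1, C (i + 1)⁆ ≤ C i) (i : ℕ) (x : G1) (hx : (x : G) ∈ C i) :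
    (QuotientGroup.mk x : G1 ⧸ A.subgroupOf G1) ∈
      Subgroup.upperCentralSeries (G1 ⧸ A.subgroupOf G1) i := by
  induction i generalizing x with
  | zero =>
    rw [h0] at hx
    rw [Subgroup.upperCentralSeries_zero, Subgroup.mem_bot, QuotientGroup.eq_one_iff]
    exact hx
  | succ i ih =>
    rw [Subgroup.mem_upperCentralSeries_succ_iff]
    intro y
    obtain ⟨y, rfl⟩ := QuotientGroup.mk_surjective y
    have h1 : ((x * y * x⁻¹ * y⁻¹ : G1) : G) ∈ C i := by
      have h2 := hc i (Subgroup.commutator_mem_commutator y.2 hx)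
      have e : ((x * y * x⁻¹ * y⁻¹ : G1) : G) = ⁅(y : G), (x : G)⁆⁻¹ := by
        simp [commutatorElement_def, mul_assoc]
      rw [e]
      exact inv_mem h2
    have h3 := ih (x * y * x⁻¹ * y⁻¹) h1
    exact h3

/-- ROW UNB -/
theorem unb {G : Type} [Group G] [Group.FG G] (p : ℕ) [hp' : Fact p.Prime] (θ : G →* G)
    (hinj : Function.Injective θ) (hfin : θ.range.FiniteIndex) (hp : p ∣ θ.range.index)
    (hu : ∀ V : Subgroup G, V.Normal → V.FiniteIndex → V.comap θ = V → ¬ p ∣ V.index) :
    ∃ H : Subgroup G, H.FiniteIndex ∧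
      ∀ n : ℕ, ∃ K : Subgroup H, K.Normal ∧ (∃ a, K.index = p ^ a) ∧ n ≤ K.index := by
  obtain ⟨G1, hG1n, hG1f, hcen⟩ := exists_cen (G := G) θ.range.index
  refine ⟨G1, hG1f, ?_⟩
  intro n
  -- a small invariant normal subgroup
  set j := n + G1.index with hj
  obtain ⟨A, hAn, hAf, hAθ, hAle⟩ := exists_A θ (itr θ j).range
    ⟨by rw [itr_index θ hinj]; exact pow_ne_zero _ hfin.index_ne_zero⟩
  obtain ⟨hch, m, hm⟩ := chain_unit θ hfin A hAn hAf hAθ
  set C : ℕ → Subgroup G := fun i => A.comap (itr θ i) with hC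
  have hCn : ∀ i, (C i).Normal := fun i => by rw [hC]; infer_instance
  have h0 : C 0 = A := by
    ext x
    rfl
  have hc : ∀ i, ⁅G1, C (i + 1)⁆ ≤ C i := fun i =>
    hcen (C (i + 1)) (C i) (hCn _) (hCn _) (hch i).1 (hch i).2.1 (hch i).2.2
  have hAC : ∀ i, A ≤ C i := by
    intro i
    induction i with
    | zero => rw [h0]
    | succ i ih => exact ih.trans (hch i).1
  have hVf : (C m).FiniteIndex := Subgroup.finiteIndex_of_le (hAC m)
  have hV : ¬ p ∣ (C m).index := hu (C m) (hCn m) hVf hm
  -- the finite quotient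
  let A1 : Subgroup G1 := A.subgroupOf G1
  have hA1n : A1.Normal := inferInstance
  have hA1f : A1.FiniteIndex := inferInstance
  have hfin1 : Finite (G1 ⧸ A1) := inferInstance
  have h1 : ¬ p ∣ (Subgroup.upperCentralSeries (G1 ⧸ A1) m).index := by
    intro h
    apply hV
    have h2 : ((C m).subgroupOf G1) ≤
        (Subgroup.upperCentralSeries (G1 ⧸ A1) m).comap (QuotientGroup.mk' A1) := by
      intro x hx
      exact ucs_ge G1 A hAn C h0 hc m x hx
    have h3 := Subgroup.index_dvd_of_le h2
    rw [Subgroup.index_comap_of_surjective _ (QuotientGroup.mk'_surjective _)] at h3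
    have h4 : ((C m).subgroupOf G1).index ∣ (C m).index := by
      have hn : (C m).Normal := hCn m
      exact Subgroup.relIndex_dvd_index_of_normal _ _
    exact h.trans (h3.trans h4)
  obtain ⟨R, hRn, ⟨a, ha⟩, hR⟩ := p_compl m h1
  refine ⟨R.comap (QuotientGroup.mk' A1), inferInstance, ⟨a, ?_⟩, ?_⟩
  · rw [Subgroup.index_comap_of_surjective _ (QuotientGroup.mk'_surjective _), ha]
  · rw [Subgroup.index_comap_of_surjective _ (QuotientGroup.mk'_surjective _), ha]
    -- `p ^ j ∣ [G : G1] * |R| * p ^ a`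
    have h5 : p ^ j ∣ G1.index * (Nat.card R * p ^ a) := by
      have h6 : p ^ j ∣ A.index := by
        refine (pow_dvd_pow_of_dvd hp j).trans ?_
        rw [← itr_index θ hinj]
        exact Subgroup.index_dvd_of_le hAle
      have h7 : A.index ∣ (A ⊓ G1).index := Subgroup.index_dvd_of_le inf_le_left
      have h8 : (A ⊓ G1).index = A1.index * G1.index := by
        rw [← Subgroup.relIndex_mul_index (inf_le_right : A ⊓ G1 ≤ G1),
          Subgroup.inf_relIndex_right]
        rfl
      have h9 : A1.index = Nat.card R * p ^ a := by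
        rw [← ha, Subgroup.card_mul_index]
        rfl
      rw [← h9, mul_comm, ← h8]
      exact h6.trans h7
    have h10 : p ^ j ∣ G1.index * p ^ a := by
      have hco : Nat.Coprime (p ^ j) (Nat.card R) :=
        Nat.Coprime.pow_left _ ((Nat.Prime.coprime_iff_not_dvd hp'.out).2 hR)
      have e : G1.index * (Nat.card R * p ^ a) = Nat.card R * (G1.index * p ^ a) := by ring
      rw [e] at h5
      exact hco.dvd_of_dvd_mul_left h5
    have h11 : p ^ j ≤ G1.index * p ^ a :=
      Nat.le_of_dvd (Nat.mul_pos (Nat.pos_of_ne_zero hG1f.index_ne_zero)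
        (pow_pos hp'.out.pos _)) h10
    have h12 : p ^ j = p ^ n * p ^ G1.index := by rw [hj, pow_add]
    have h13 : G1.index < p ^ G1.index := Nat.lt_pow_self hp'.out.one_lt
    have h14 : p ^ n * G1.index ≤ G1.index * p ^ a :=
      (Nat.mul_le_mul_left _ h13.le).trans (h12 ▸ h11)
    have h15 : p ^ n ≤ p ^ a := by
      rw [mul_comm] at h14
      exact Nat.le_of_mul_le_mul_left h14 (Nat.pos_of_ne_zero hG1f.index_ne_zero)
    exact (Nat.lt_pow_self hp'.out.one_lt).le.trans h15

end BCX
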