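import Pool.Agent.BCX.UNI
import Pool.Agent.BCX.UNB
import Pool.Agent.EssMap.Asm
import Pool.Agent.BCX.B1

/-!
# Endomorphisms which are almost injective on nilpotent quotients
-/

set_option autoImplicit false

open EssMap
open scoped commutatorElement

namespace BCX.INJ

/-- roots of order prime to the index -/
theorem nil_root {P : Type*} [Group P] [Group.IsNilpotent P] : ∀ (H : Subgroup P),
    H.FiniteIndex → ∀ (r : ℕ), r.Coprime H.index → ∀ z : P, z ^ r ∈ H → z ∈ H := by
  refine Group.nilpotent_center_quotient_ind (P := fun P _ _ => ∀ (H : Subgroup P),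
    H.FiniteIndex → ∀ (r : ℕ), r.Coprime H.index → ∀ z : P, z ^ r ∈ H → z ∈ H) P ?_ ?_
  · intro G _ _ H _ r _ z _
    rw [Subsingleton.elim z 1]
    exact one_mem _
  · intro G _ _ ih H hH r hr z hz
    let Z := Subgroup.center G
    have hs : Function.Surjective (QuotientGroup.mk' Z) := QuotientGroup.mk'_surjective Z
    have hd : (H.map (QuotientGroup.mk' Z)).index ∣ H.index := Subgroup.index_map_dvd H hs
    have hf : (H.map (QuotientGroup.mk' Z)).FiniteIndex := by
      constructor
      intro h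
      rw [h] at hd
      exact hH.index_ne_zero (Nat.eq_zero_of_zero_dvd hd)
    have h1 : QuotientGroup.mk' Z z ∈ H.map (QuotientGroup.mk' Z) := by
      refine ih _ hf r (hr.coprime_dvd_right hd) _ ?_
      rw [← map_pow]
      exact Subgroup.mem_map_of_mem _ hz
    obtain ⟨h, hh, hhz⟩ := h1
    have hw : h⁻¹ * z ∈ Z := QuotientGroup.eq.1 hhz
    set w := h⁻¹ * z with hwdef
    have hzw : z = h * w := by rw [hwdef]; group
    have hcomm : Commute h w := (Subgroup.mem_center_iff.1 hw h)
    have hwr : w ^ r ∈ H := by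
      rw [hzw, hcomm.mul_pow] at hz
      exact (Subgroup.mul_mem_cancel_left H (pow_mem hh r)).1 hz
    -- `w ∈ H`
    let T : Subgroup G := H ⊔ Subgroup.zpowers w
    have hwT : w ∈ T := Subgroup.mem_sup_right (Subgroup.mem_zpowers w)
    have hTn : T ≤ Subgroup.normalizer (H : Set G) := by
      apply sup_le Subgroup.le_normalizer
      rw [Subgroup.zpowers_le]
      rw [Subgroup.mem_normalizer_iff]
      intro g
      have h2 : w * g * w⁻¹ = g := by
        rw [← (Subgroup.mem_center_iff.1 hw g)]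
        group
      rw [h2]
    have hN : (H.subgroupOf T).Normal := Subgroup.normal_subgroupOf_of_le_normalizer hTn
    have ht : (H.subgroupOf T).index ∣ H.index :=
      Subgroup.relIndex_dvd_index_of_le le_sup_left
    let q : T ⧸ H.subgroupOf T := ((⟨w, hwT⟩ : T) : T ⧸ H.subgroupOf T)
    have hq1 : q ^ r = 1 := by
      show (((⟨w, hwT⟩ : T) ^ r : T) : T ⧸ H.subgroupOf T) = 1
      rw [QuotientGroup.eq_one_iff]
      exact hwr
    have hq2 : q ^ (H.subgroupOf T).index = 1 := by
      show (((⟨w, hwT⟩ : T) ^ (H.subgroupOf T).index : T) : T ⧸ H.subgroupOf T) = 1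
      rw [QuotientGroup.eq_one_iff]
      exact Subgroup.pow_index_mem _ _
    have hq3 : orderOf q ∣ Nat.gcd r (H.subgroupOf T).index :=
      Nat.dvd_gcd (orderOf_dvd_of_pow_eq_one hq1) (orderOf_dvd_of_pow_eq_one hq2)
    rw [(hr.coprime_dvd_right ht).gcd_eq_one, Nat.dvd_one, orderOf_eq_one_iff] at hq3
    have hwH : w ∈ H := by
      have h3 : ((⟨w, hwT⟩ : T) : T ⧸ H.subgroupOf T) = 1 := hq3
      rw [QuotientGroup.eq_one_iff] at h3
      exact h3
    rw [hzw]
    exact mul_mem hh hwH

section abs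

variable {P P' : Type*} [Group P] [Group P']

theorem comap_itr (τ : P →* P) (hK : ∀ z, τ z = 1 → ∀ k, z ∈ (itr τ k).range) (k : ℕ) :
    (itr τ (k + 1)).range.comap τ = (itr τ k).range := by
  ext x
  constructor
  · rintro ⟨y, hy⟩
    have h1 : τ ((itr τ k y)⁻¹ * x) = 1 := by
      rw [map_mul, map_inv, ← hy, itr_succ, inv_mul_cancel]
    have h2 := hK _ h1 k
    have h3 : x = itr τ k y * ((itr τ k y)⁻¹ * x) := by group
    rw [h3]
    exact mul_mem ⟨y, rfl⟩ h2
  · rintro ⟨y, rfl⟩
    exact ⟨y, rfl⟩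

theorem index_itr (τ : P →* P) (hK : ∀ z, τ z = 1 → ∀ k, z ∈ (itr τ k).range) (k : ℕ) :
    (itr τ k).range.index = τ.range.index ^ k := by
  induction k with
  | zero =>
    have : (itr τ 0).range = ⊤ := by
      show (MonoidHom.id P).range = ⊤
      exact MonoidHom.range_eq_top.2 Function.surjective_id
    rw [this, Subgroup.index_top, pow_zero]
  | succ k ih =>
    have h1 : (itr τ (k + 1)).range ≤ τ.range := by
      rintro _ ⟨y, rfl⟩
      exact ⟨itr τ k y, rfl⟩
    have h2 := Subgroup.relIndex_mul_index h1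
    rw [← Subgroup.index_comap, comap_itr τ hK, ih] at h2
    rw [← h2, pow_succ]

theorem comap_bound (π : P' →* P) (hπf : π.range.FiniteIndex) (R : Subgroup P)
    (hR : R.FiniteIndex) : R.index ≤ (R.comap π).index * π.range.index := by
  have h1 : (R ⊓ π.range).index = (R.comap π).index * π.range.index := by
    rw [Subgroup.index_comap, ← Subgroup.inf_relIndex_right,
      Subgroup.relIndex_mul_index inf_le_right]
  rw [← h1]
  have : (R ⊓ π.range).FiniteIndex := inferInstance
  exact Nat.le_of_dvd (Nat.pos_of_ne_zero this.index_ne_zero)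
    (Subgroup.index_dvd_of_le inf_le_left)

theorem itr_comm (τ : P →* P) (τ' : P' →* P') (π : P' →* P) (hπ : ∀ x, π (τ' x) = τ (π x))
    (k : ℕ) (x : P') : π (itr τ' k x) = itr τ k (π x) := by
  induction k with
  | zero => rfl
  | succ k ih => rw [itr_succ, hπ, ih, itr_succ]

theorem mono (τ : P →* P) (τ' : P' →* P') (π : P' →* P) (hπ : ∀ x, π (τ' x) = τ (π x))
    (hπf : π.range.FiniteIndex)
    (hK : ∀ z, τ z = 1 → ∀ k, z ∈ (itr τ k).range)
    (hK' : ∀ z, τ' z = 1 → ∀ k, z ∈ (itr τ' k).range)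
    (hf : τ.range.FiniteIndex) (hf' : τ'.range.FiniteIndex) :
    τ.range.index ≤ τ'.range.index := by
  by_contra hlt
  push Not at hlt
  have h0 : ∀ k, τ.range.index ^ k ≤ τ'.range.index ^ k * π.range.index := by
    intro k
    have hRf : (itr τ k).range.FiniteIndex := by
      constructor
      rw [index_itr τ hK]
      exact pow_ne_zero _ hf.index_ne_zero
    have h1 := comap_bound π hπf (itr τ k).range hRf
    rw [index_itr τ hK] at h1
    refine h1.trans (Nat.mul_le_mul_right _ ?_)
    rw [← index_itr τ' hK']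
    apply Nat.le_of_dvd
    · rw [index_itr τ' hK']
      exact pow_pos (Nat.pos_of_ne_zero hf'.index_ne_zero) _
    · apply Subgroup.index_dvd_of_le
      rintro _ ⟨y, rfl⟩
      exact ⟨π y, (itr_comm τ τ' π hπ k y).symm⟩
  have hpos : (0 : ℚ) < τ'.range.index := by
    exact_mod_cast Nat.pos_of_ne_zero hf'.index_ne_zero
  have h1 : (1 : ℚ) < (τ.range.index : ℚ) / τ'.range.index := by
    rw [lt_div_iff₀ hpos, one_mul]
    exact_mod_cast hlt
  obtain ⟨k, hk⟩ := pow_unbounded_of_one_lt (π.range.index : ℚ) h1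
  rw [div_pow, lt_div_iff₀ (pow_pos hpos k)] at hk
  have h2 : (τ.range.index : ℚ) ^ k ≤ (τ'.range.index : ℚ) ^ k * π.range.index := by
    exact_mod_cast h0 k
  linarith

theorem pull (τ : P →* P) (τ' : P' →* P') (π : P' →* P) (hπ : ∀ x, π (τ' x) = τ (π x))
    (hπf : π.range.FiniteIndex)
    (hK : ∀ z, τ z = 1 → ∀ k, z ∈ (itr τ k).range)
    (hK' : ∀ z, τ' z = 1 → ∀ k, z ∈ (itr τ' k).range)
    (hf : τ.range.FiniteIndex) (hf' : τ'.range.FiniteIndex)
    (hle : τ'.range.index ≤ τ.range.index) (z : P') (hz : π z = 1) (j : ℕ) :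
    z ∈ (itr τ' j).range := by
  let M : ℕ → Subgroup P' := fun l => (itr τ l).range.comap π
  let w : ℕ → ℕ := fun l => (itr τ' l).range.relIndex (M l)
  have hR : ∀ l, (itr τ' l).range ≤ M l := by
    rintro l _ ⟨y, rfl⟩
    exact ⟨π y, (itr_comm τ τ' π hπ l y).symm⟩
  have hRne : ∀ l, (itr τ' l).range.index ≠ 0 := by
    intro l
    rw [index_itr τ' hK']
    exact pow_ne_zero _ hf'.index_ne_zero
  have hmul : ∀ l, w l * (M l).index = (itr τ' l).range.index := fun l =>
    Subgroup.relIndex_mul_index (hR l)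
  have hMne : ∀ l, (M l).index ≠ 0 := by
    intro l h
    have h1 := hmul l
    rw [h, mul_zero] at h1
    exact hRne l h1.symm
  have hwne : ∀ l, w l ≠ 0 := by
    intro l h
    have h1 := hmul l
    rw [h, zero_mul] at h1
    exact hRne l h1.symm
  have hbd : ∀ l, w l ≤ π.range.index := by
    intro l
    have hRf : (itr τ l).range.FiniteIndex := by
      constructor
      rw [index_itr τ hK]
      exact pow_ne_zero _ hf.index_ne_zero
    have h1 : (itr τ l).range.index ≤ (M l).index * π.range.index :=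
      comap_bound π hπf (itr τ l).range hRf
    rw [index_itr τ hK] at h1
    have h2 := hmul l
    rw [index_itr τ' hK'] at h2
    have h3 : w l * (M l).index ≤ π.range.index * (M l).index := by
      rw [h2, mul_comm _ (M l).index]
      exact (Nat.pow_le_pow_left hle l).trans h1
    exact Nat.le_of_mul_le_mul_right h3 (Nat.pos_of_ne_zero (hMne l))
  have hMM : ∀ l, (M l).map τ' ≤ M (l + 1) := by
    rintro l _ ⟨y, ⟨x, hx⟩, rfl⟩
    refine ⟨x, ?_⟩
    rw [itr_succ, hx, hπ]
  have hstep : ∀ l, w (l + 1) = w l * ((M l).map τ').relIndex (M (l + 1)) := by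
    intro l
    have h1 : (itr τ' (l + 1)).range ≤ (M l).map τ' := by
      rintro _ ⟨y, rfl⟩
      exact ⟨itr τ' l y, hR l ⟨y, rfl⟩, rfl⟩
    have h2 := Subgroup.relIndex_mul_relIndex _ _ _ h1 (hMM l)
    rw [← Subgroup.relIndex_comap, comap_itr τ' hK'] at h2
    exact h2.symm
  obtain ⟨l0, hl0⟩ : ∃ l0, ∀ l, w l ≤ w l0 := by
    have hne : (Set.range w).Nonempty := ⟨_, 0, rfl⟩
    have hb : BddAbove (Set.range w) := ⟨π.range.index, by rintro _ ⟨l, rfl⟩; exact hbd l⟩
    obtain ⟨l0, hl⟩ := Nat.sSup_mem hne hb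
    exact ⟨l0, fun l => by rw [hl]; exact le_csSup hb ⟨l, rfl⟩⟩
  have hge : ∀ l, w l ≤ w (l + 1) := by
    intro l
    rw [hstep]
    apply Nat.le_mul_of_pos_right
    apply Nat.pos_of_ne_zero
    intro h
    have h1 := hstep l
    rw [h, mul_zero] at h1
    exact hwne _ h1
  have hmono : Monotone w := monotone_nat_of_le_succ hge
  have heq : ∀ l, l0 ≤ l → w l = w l0 := fun l hl => le_antisymm (hl0 l) (hmono hl)
  have hM : ∀ l, l0 ≤ l → M (l + 1) ≤ (M l).map τ' := by
    intro l hl
    rw [← Subgroup.relIndex_eq_one]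
    have h1 := hstep l
    rw [heq l hl, heq (l + 1) (by omega)] at h1
    exact (Nat.eq_of_mul_eq_mul_left (Nat.pos_of_ne_zero (hwne l0)) (by rw [mul_one]; exact h1)).symm
  have hfin : ∀ j, M (l0 + j) ≤ (itr τ' j).range := by
    intro j
    induction j with
    | zero =>
      intro x _
      exact ⟨x, rfl⟩
    | succ j ih =>
      refine (hM (l0 + j) (by omega)).trans ?_
      rintro _ ⟨y, hy, rfl⟩
      obtain ⟨x, hx⟩ := ih hy
      exact ⟨x, by rw [itr_succ, hx]⟩
  apply hfin j
  show π z ∈ (itr τ (l0 + j)).range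
  rw [hz]
  exact one_mem _

end abs

end BCX.INJ
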