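import Pool.Agent.BCX.InjC

/-!
# Endomorphisms which are almost injective on nilpotent quotients: the main theorem
-/

set_option autoImplicit false

open EssMap
open scoped commutatorElement

namespace BCX.INJ

/-- the kernel of the map induced on `X / γ_{c+1}(X)` is contained in the images of all iterates,
for all invariant subgroups `X ≤ Q₀` of finite index -/
def KerIm {Q : Type} [Group Q] (φ : Q →* Q) (c : ℕ) (Q₀ : Subgroup Q) : Prop :=
  ∀ X : Subgroup Q, X.FiniteIndex → X ≤ Q₀ → (∀ x ∈ X, φ x ∈ X) →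
    ∀ x ∈ X, φ x ∈ X.lowerCentralSeries c →
      ∀ j : ℕ, ∃ y ∈ X, (itr φ j y)⁻¹ * x ∈ X.lowerCentralSeries c

/-- the admissible subgroups -/
structure Ad {Q : Type} [Group Q] (φ : Q →* Q) (Q₀ X : Subgroup Q) : Prop where
  fin : X.FiniteIndex
  le : X ≤ Q₀
  inv : ∀ x ∈ X, φ x ∈ X

/-- the term of the lower central series, as a subgroup of `X` -/
abbrev Gm {Q : Type} [Group Q] (c : ℕ) (X : Subgroup Q) : Subgroup X :=
  (⊤ : Subgroup X).lowerCentralSeries c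

theorem mem_Gm {Q : Type} [Group Q] (c : ℕ) (X : Subgroup Q) (x : X) :
    x ∈ Gm c X ↔ (x : Q) ∈ X.lowerCentralSeries c := by
  rw [← Subgroup.top_subtype_lowerCentralSeries]
  constructor
  · intro h
    exact ⟨x, h, rfl⟩
  · rintro ⟨y, hy, hyx⟩
    rwa [← Subtype.ext hyx]

theorem Gm_map {A B : Type} [Group A] [Group B] (c : ℕ) (f : A →* B) :
    (⊤ : Subgroup A).lowerCentralSeries c ≤
      ((⊤ : Subgroup B).lowerCentralSeries c).comap f := by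
  rw [← Subgroup.map_le_iff_le_comap, Subgroup.map_lowerCentralSeries]
  exact Subgroup.lowerCentralSeries_mono c le_top

/-- the induced endomorphism -/
def tt {Q : Type} [Group Q] (φ : Q →* Q) (c : ℕ) (X : Subgroup Q) (hX : ∀ x ∈ X, φ x ∈ X) :
    X ⧸ Gm c X →* X ⧸ Gm c X :=
  QuotientGroup.map (Gm c X) (Gm c X) (rst φ X hX) (Gm_map c _)

/-- the induced map -/
def pp {Q : Type} [Group Q] (c : ℕ) (U X : Subgroup Q) (h : U ≤ X) :
    U ⧸ Gm c U →* X ⧸ Gm c X :=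
  QuotientGroup.map (Gm c U) (Gm c X) (Subgroup.inclusion h) (Gm_map c _)

theorem tt_itr {Q : Type} [Group Q] (φ : Q →* Q) (c : ℕ) (X : Subgroup Q)
    (hX : ∀ x ∈ X, φ x ∈ X) (k : ℕ) (x : X) :
    itr (tt φ c X hX) k (x : X ⧸ Gm c X) = ((itr (rst φ X hX) k x : X) : X ⧸ Gm c X) := by
  induction k with
  | zero => rfl
  | succ k ih =>
    rw [itr_succ, ih, itr_succ]
    rfl

theorem mem_range_tt {Q : Type} [Group Q] (φ : Q →* Q) (c : ℕ) (X : Subgroup Q)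
    (hX : ∀ x ∈ X, φ x ∈ X) (k : ℕ) (x : X) :
    (x : X ⧸ Gm c X) ∈ (itr (tt φ c X hX) k).range ↔
      ∃ y ∈ X, (itr φ k y)⁻¹ * (x : Q) ∈ X.lowerCentralSeries c := by
  constructor
  · rintro ⟨y, hy⟩
    obtain ⟨y, rfl⟩ := QuotientGroup.mk_surjective y
    rw [tt_itr, QuotientGroup.eq, mem_Gm] at hy
    refine ⟨y, y.2, ?_⟩
    rw [← itr_rst φ X hX k y]
    exact hy
  · rintro ⟨y, hy, hyx⟩
    refine ⟨((⟨y, hy⟩ : X) : X ⧸ Gm c X), ?_⟩
    rw [tt_itr, QuotientGroup.eq, mem_Gm]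
    show ((itr (rst φ X hX) k ⟨y, hy⟩ : X) : Q)⁻¹ * (x : Q) ∈ _
    rw [itr_rst]
    exact hyx

theorem tt_eq {Q : Type} [Group Q] (φ : Q →* Q) (c : ℕ) (X : Subgroup Q)
    (hX : ∀ x ∈ X, φ x ∈ X) : itr (tt φ c X hX) 1 = tt φ c X hX := rfl

theorem tt_K {Q : Type} [Group Q] (φ : Q →* Q) (c : ℕ) (Q₀ : Subgroup Q)
    (hH : KerIm φ c Q₀) (X : Subgroup Q) (hX : Ad φ Q₀ X) :
    ∀ z, tt φ c X hX.inv z = 1 → ∀ k, z ∈ (itr (tt φ c X hX.inv) k).range := by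
  intro z hz k
  obtain ⟨x, rfl⟩ := QuotientGroup.mk_surjective z
  rw [mem_range_tt]
  apply hH X hX.fin hX.le hX.inv x x.2
  have h1 : ((rst φ X hX.inv x : X) : X ⧸ Gm c X) = 1 := hz
  rw [QuotientGroup.eq_one_iff, mem_Gm] at h1
  exact h1

theorem tt_dvd {Q : Type} [Group Q] (φ : Q →* Q) (hinj : Function.Injective φ) (c : ℕ)
    (X : Subgroup Q) (hXf : X.FiniteIndex) (hX : ∀ x ∈ X, φ x ∈ X) (k : ℕ) :
    (itr (tt φ c X hX) k).range.index ∣ φ.range.index ^ k := by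
  have h1 : ((itr (rst φ X hX) k).range.map (QuotientGroup.mk' (Gm c X))) ≤
      (itr (tt φ c X hX) k).range := by
    rintro _ ⟨_, ⟨y, rfl⟩, rfl⟩
    exact ⟨(y : X ⧸ Gm c X), tt_itr φ c X hX k y⟩
  have h2 := Subgroup.index_map_dvd (itr (rst φ X hX) k).range
    (QuotientGroup.mk'_surjective (Gm c X))
  rw [itr_index _ (rst_inj hinj X hX), rst_index hinj X hXf hX] at h2
  exact (Subgroup.index_dvd_of_le h1).trans h2

theorem tt_fin {Q : Type} [Group Q] (φ : Q →* Q) (hinj : Function.Injective φ)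
    (hfin : φ.range.FiniteIndex) (c : ℕ)
    (X : Subgroup Q) (hXf : X.FiniteIndex) (hX : ∀ x ∈ X, φ x ∈ X) :
    (tt φ c X hX).range.FiniteIndex := by
  constructor
  intro h
  have h1 := tt_dvd φ hinj c X hXf hX 1
  rw [tt_eq, h, pow_one] at h1
  exact hfin.index_ne_zero (Nat.eq_zero_of_zero_dvd h1)

theorem tt_le {Q : Type} [Group Q] (φ : Q →* Q) (hinj : Function.Injective φ)
    (hfin : φ.range.FiniteIndex) (c : ℕ)
    (X : Subgroup Q) (hXf : X.FiniteIndex) (hX : ∀ x ∈ X, φ x ∈ X) :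
    (tt φ c X hX).range.index ≤ φ.range.index := by
  have h1 := tt_dvd φ hinj c X hXf hX 1
  rw [tt_eq, pow_one] at h1
  exact Nat.le_of_dvd (Nat.pos_of_ne_zero hfin.index_ne_zero) h1

theorem pp_fin {Q : Type} [Group Q] (c : ℕ) (U X : Subgroup Q) (h : U ≤ X)
    (hU : U.FiniteIndex) : (pp c U X h).range.FiniteIndex := by
  have h1 : (Subgroup.inclusion h).range.map (QuotientGroup.mk' (Gm c X)) ≤
      (pp c U X h).range := by
    rintro _ ⟨_, ⟨y, rfl⟩, rfl⟩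
    exact ⟨(y : U ⧸ Gm c U), rfl⟩
  have h2 := Subgroup.index_map_dvd (Subgroup.inclusion h).range
    (QuotientGroup.mk'_surjective (Gm c X))
  have h3 : (Subgroup.inclusion h).range.FiniteIndex := by
    rw [Subgroup.inclusion_range]
    infer_instance
  constructor
  intro h4
  have h5 := (Subgroup.index_dvd_of_le h1).trans h2
  rw [h4] at h5
  exact h3.index_ne_zero (Nat.eq_zero_of_zero_dvd h5)

theorem pp_comm {Q : Type} [Group Q] (φ : Q →* Q) (c : ℕ) (U X : Subgroup Q) (h : U ≤ X)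
    (hU : ∀ x ∈ U, φ x ∈ U) (hX : ∀ x ∈ X, φ x ∈ X) (z : U ⧸ Gm c U) :
    pp c U X h (tt φ c U hU z) = tt φ c X hX (pp c U X h z) := by
  obtain ⟨x, rfl⟩ := QuotientGroup.mk_surjective z
  rfl

/-- below a suitable admissible subgroup, elements of `U ∩ γ(X)` are in `φ^j(U) γ(U)` -/
theorem exists_max {Q : Type} [Group Q] [Group.FG Q] (φ : Q →* Q)
    (hinj : Function.Injective φ) (hfin : φ.range.FiniteIndex) (c : ℕ) (Q₀ : Subgroup Q)
    (hQ₀ : Q₀.FiniteIndex) (hH : KerIm φ c Q₀) :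
    ∃ X₁ : Subgroup Q, Ad φ Q₀ X₁ ∧ ∀ (U X : Subgroup Q), Ad φ Q₀ U → Ad φ Q₀ X → U ≤ X →
      X ≤ X₁ → ∀ u ∈ U, u ∈ X.lowerCentralSeries c →
        ∀ j : ℕ, ∃ v ∈ U, (itr φ j v)⁻¹ * u ∈ U.lowerCentralSeries c := by
  let S : Set ℕ := {n | ∃ X : Subgroup Q, ∃ h : Ad φ Q₀ X, n = (tt φ c X h.inv).range.index}
  have hne : S.Nonempty := by
    obtain ⟨G, hG, hGQ, hGφ⟩ := exists_invariant φ Q₀ hQ₀
    exact ⟨_, G, ⟨hG, hGQ, hGφ⟩, rfl⟩
  have hbd : BddAbove S := by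
    refine ⟨φ.range.index, ?_⟩
    rintro _ ⟨X, h, rfl⟩
    exact tt_le φ hinj hfin c X h.fin h.inv
  obtain ⟨X₁, h₁, hc₁⟩ := Nat.sSup_mem hne hbd
  have hmax : ∀ (U : Subgroup Q) (h : Ad φ Q₀ U), (tt φ c U h.inv).range.index ≤
      (tt φ c X₁ h₁.inv).range.index := by
    intro U h
    rw [← hc₁]
    exact le_csSup hbd ⟨U, h, rfl⟩
  refine ⟨X₁, h₁, ?_⟩
  intro U X hU hX hUX hX1 u hu huX j
  have hle : (tt φ c U hU.inv).range.index ≤ (tt φ c X hX.inv).range.index :=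
    (hmax U hU).trans (mono (tt φ c X₁ h₁.inv) (tt φ c X hX.inv) (pp c X X₁ hX1)
      (pp_comm φ c X X₁ hX1 hX.inv h₁.inv) (pp_fin c X X₁ hX1 hX.fin)
      (tt_K φ c Q₀ hH X₁ h₁) (tt_K φ c Q₀ hH X hX)
      (tt_fin φ hinj hfin c X₁ h₁.fin h₁.inv) (tt_fin φ hinj hfin c X hX.fin hX.inv))
  have h1 := pull (tt φ c X hX.inv) (tt φ c U hU.inv) (pp c U X hUX)
    (pp_comm φ c U X hUX hU.inv hX.inv) (pp_fin c U X hUX hU.fin)
    (tt_K φ c Q₀ hH X hX) (tt_K φ c Q₀ hH U hU)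
    (tt_fin φ hinj hfin c X hX.fin hX.inv) (tt_fin φ hinj hfin c U hU.fin hU.inv) hle
    (((⟨u, hu⟩ : U) : U ⧸ Gm c U)) (by
      show ((Subgroup.inclusion hUX ⟨u, hu⟩ : X) : X ⧸ Gm c X) = 1
      rw [QuotientGroup.eq_one_iff, mem_Gm]
      exact huX) j
  exact (mem_range_tt φ c U hU.inv j ⟨u, hu⟩).1 h1

/-- the main theorem -/
theorem mainC {Q : Type} [Group Q] [Group.FG Q] (φ : Q →* Q)
    (hinj : Function.Injective φ) (hfin : φ.range.FiniteIndex)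
    (hcap : ∀ q : Q, (∀ k : ℕ, q ∈ Set.range (φ^[k])) → q = 1) (c : ℕ) (hc1 : 1 ≤ c)
    (Q₀ : Subgroup Q) (hQ₀ : Q₀.FiniteIndex) (hH : KerIm φ c Q₀) :
    ∃ N : Subgroup Q, N.FiniteIndex ∧ N.lowerCentralSeries c = ⊥ := by
  obtain ⟨X₁, h₁, hext⟩ := exists_max φ hinj hfin c Q₀ hQ₀ hH
  obtain ⟨G1, hG1n, hG1f, hcen⟩ := exists_cen (G := Q) φ.range.index
  have h₁f := h₁.fin
  obtain ⟨X, hXn, hXf, hXφ, hXle⟩ := exists_A φ (X₁ ⊓ G1) inferInstance
  have hX : Ad φ Q₀ X := ⟨hXf, (hXle.trans inf_le_left).trans h₁.le, hXφ⟩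
  have hXi : ∀ (k : ℕ) (x : Q), x ∈ X → itr φ k x ∈ X := by
    intro k x hx
    have := (itr (rst φ X hXφ) k ⟨x, hx⟩).2
    rwa [itr_rst] at this
  have hinvl : ∀ (Y : Subgroup Q), (∀ y ∈ Y, φ y ∈ Y) → ∀ y ∈ Y.lowerCentralSeries c,
      φ y ∈ Y.lowerCentralSeries c := by
    intro Y hY y hy
    have h1 : (Y.lowerCentralSeries c).map φ ≤ Y.lowerCentralSeries c := by
      rw [Subgroup.map_lowerCentralSeries]
      apply Subgroup.lowerCentralSeries_mono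
      rintro _ ⟨a, ha, rfl⟩
      exact hY a ha
    exact h1 ⟨y, hy, rfl⟩
  refine ⟨X, hXf, ?_⟩
  rw [eq_bot_iff]
  intro x hxl
  rw [Subgroup.mem_bot]
  have hx : x ∈ X := X.lowerCentralSeries_le_self c hxl
  apply hcap
  intro j
  obtain ⟨A, hAn, hAf, hAφ, hAle⟩ := exists_A φ (X ⊓ (itr φ j).range) (by
    have := itr_range_finiteIndex hinj hfin j
    infer_instance)
  obtain ⟨hch, m, hm⟩ := chain_unit φ hfin A hAn hAf hAφ
  set C : ℕ → Subgroup Q := fun i => A.comap (itr φ i) with hC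
  have hCn : ∀ i, (C i).Normal := fun i => by rw [hC]; infer_instance
  have h0 : C 0 = A := by
    ext x
    rfl
  have hc : ∀ i, ⁅G1, C (i + 1)⁆ ≤ C i := fun i =>
    hcen (C (i + 1)) (C i) (hCn _) (hCn _) (hch i).1 (hch i).2.1 (hch i).2.2
  have hAC : ∀ i, A ≤ C i := by
    intro i
    induction i with
    | zero => rw [h0]
    | succ i ih => exact ih.trans (hch i).1
  have hCmn : (C m).Normal := hCn m
  let Y : Subgroup Q := C m ⊓ X
  have hYn : Y.Normal := inferInstance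
  have hAY : A ≤ Y := le_inf (hAC m) (hAle.trans inf_le_left)
  have hYinv : ∀ y ∈ Y, φ y ∈ Y := by
    intro y hy
    refine ⟨?_, hXφ y hy.2⟩
    have h1 : y ∈ (C m).comap φ := by rw [hm]; exact hy.1
    exact h1
  have hYX : Y ≤ X := inf_le_right
  have hY : Ad φ Q₀ Y := ⟨Subgroup.finiteIndex_of_le hAY, hYX.trans hX.le, hYinv⟩
  have hYA : ∀ y ∈ Y, itr φ m y ∈ A := fun y hy => hy.1
  have hXG1 : X ≤ G1 := hXle.trans inf_le_right
  have hXX₁ : X ≤ X₁ := hXle.trans inf_le_left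
  -- `γ(Y) ≤ A`
  let L : Subgroup Q := A ⊔ Y.lowerCentralSeries c
  have hLY : L ≤ Y := sup_le hAY (Y.lowerCentralSeries_le_self c)
  have hLinv : ∀ y ∈ L, φ y ∈ L := by
    have h1 : L.map φ ≤ L := by
      show (A ⊔ Y.lowerCentralSeries c).map φ ≤ A ⊔ Y.lowerCentralSeries c
      rw [Subgroup.map_sup]
      apply sup_le_sup
      · rintro _ ⟨a, ha, rfl⟩
        exact hAφ a ha
      · rintro _ ⟨a, ha, rfl⟩
        exact hinvl Y hYinv a ha
    intro y hy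
    exact h1 ⟨y, hy, rfl⟩
  have hL : Ad φ Q₀ L := ⟨Subgroup.finiteIndex_of_le le_sup_left, hLY.trans hY.le, hLinv⟩
  have hLL : L ≤ A ⊔ L.lowerCentralSeries c := by
    apply sup_le le_sup_left
    intro u hu
    obtain ⟨v, hv, hvu⟩ := hext L Y hL hY hLY (hYX.trans hXX₁) u (Subgroup.mem_sup_right hu) hu m
    have h1 : u = itr φ m v * ((itr φ m v)⁻¹ * u) := by group
    rw [h1]
    exact mul_mem (Subgroup.mem_sup_left (hYA v (hLY hv))) (Subgroup.mem_sup_right hvu)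
  have hLLc : L.lowerCentralSeries c ≤ ⁅L, L⁆ := L.lowerCentralSeries_antitone hc1
  have hLC : ∀ i, i ≤ m → L ≤ C (m - i) := by
    intro i
    induction i with
    | zero =>
      intro _
      exact hLY.trans inf_le_left
    | succ i ih =>
      intro hi
      have h1 := ih (by omega)
      have h2 : m - i = (m - (i + 1)) + 1 := by omega
      rw [h2] at h1
      refine hLL.trans (sup_le (hAC _) ?_)
      exact (hLLc.trans (Subgroup.commutator_mono (hLY.trans (hYX.trans hXG1)) h1)).trans (hc _)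
  have hYA' : Y.lowerCentralSeries c ≤ A := by
    have h1 := hLC m le_rfl
    rw [Nat.sub_self, h0] at h1
    exact le_sup_right.trans h1
  -- a power of the endomorphism
  have hCmf : (C m).FiniteIndex := Subgroup.finiteIndex_of_le (hAC m)
  obtain ⟨r, hr, hrx⟩ := UNI_order φ (C m) hm
  have hrk : ∀ k : ℕ, ((itr φ (r * k) x : Q) : Q ⧸ C m) = (x : Q ⧸ C m) := by
    intro k
    induction k with
    | zero => rfl
    | succ k ih =>
      have e : r * (k + 1) = r + r * k := by ring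
      rw [e, itr_add, hrx, ih]
  obtain ⟨M, hMj, hMx⟩ : ∃ M : ℕ, j ≤ M ∧
      ((itr φ M x : Q) : Q ⧸ C m) = (x : Q ⧸ C m) := by
    refine ⟨r * j, ?_, hrk _⟩
    calc j ≤ 1 * j := by omega
      _ ≤ r * j := Nat.mul_le_mul_right _ hr
  have hy1 : x⁻¹ * itr φ M x ∈ Y :=
    ⟨QuotientGroup.eq.1 hMx.symm, X.mul_mem (X.inv_mem hx) (hXi M x hx)⟩
  have hy3 : x⁻¹ * itr φ M x ∈ X.lowerCentralSeries c := by
    apply mul_mem (inv_mem hxl)
    clear hMx hMj hy1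
    induction M with
    | zero => exact hxl
    | succ M ih =>
      rw [itr_succ]
      exact hinvl X hXφ _ ih
  have hy2 : x⁻¹ * itr φ M x ∈ A := by
    obtain ⟨v, hv, hvu⟩ := hext Y X hY hX hYX hXX₁ _ hy1 hy3 m
    have h1 : x⁻¹ * itr φ M x = itr φ m v * ((itr φ m v)⁻¹ * (x⁻¹ * itr φ M x)) := by group
    rw [h1]
    exact mul_mem (hYA v hv) (hYA' hvu)
  have hjr : itr φ M x ∈ (itr φ j).range := by
    refine ⟨itr φ (M - j) x, ?_⟩
    rw [← itr_add, Nat.add_sub_cancel' hMj]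
  have hxr : x ∈ (itr φ j).range := by
    have h1 : x = itr φ M x * (x⁻¹ * itr φ M x)⁻¹ := by group
    rw [h1]
    exact mul_mem hjr (inv_mem (hAle hy2).2)
  obtain ⟨z, hz⟩ := hxr
  exact ⟨z, by rw [← itr_eq_iterate]; exact hz⟩

/-- the kernel on `X / γ_{c+1}(X)` consists of elements of order prime to the index -/
def KerPrime {Q : Type} [Group Q] (φ : Q →* Q) (c : ℕ) (Q₀ : Subgroup Q) : Prop :=
  ∀ X : Subgroup Q, X.FiniteIndex → X ≤ Q₀ → (∀ x ∈ X, φ x ∈ X) →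
    ∀ x ∈ X, φ x ∈ X.lowerCentralSeries c →
      ∃ k : ℕ, k.Coprime φ.range.index ∧ x ^ k ∈ X.lowerCentralSeries c

theorem KerPrime.kerIm {Q : Type} [Group Q] (φ : Q →* Q) (hinj : Function.Injective φ)
    (hfin : φ.range.FiniteIndex) (c : ℕ) (Q₀ : Subgroup Q) (h : KerPrime φ c Q₀) :
    KerIm φ c Q₀ := by
  intro X hXf hXQ hX x hx hφx j
  obtain ⟨k, hk, hxk⟩ := h X hXf hXQ hX x hx hφx
  refine (mem_range_tt φ c X hX j ⟨x, hx⟩).1 ?_
  have hnil : Group.IsNilpotent (X ⧸ Gm c X) := by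
    rw [Subgroup.nilpotent_iff_lowerCentralSeries]
    refine ⟨c, ?_⟩
    have h1 : (⊤ : Subgroup (X ⧸ Gm c X)) = (⊤ : Subgroup X).map (QuotientGroup.mk' (Gm c X)) := by
      rw [← MonoidHom.range_eq_map, MonoidHom.range_eq_top.2 (QuotientGroup.mk'_surjective _)]
    rw [h1, ← Subgroup.map_lowerCentralSeries, eq_bot_iff]
    rintro _ ⟨y, hy, rfl⟩
    rw [Subgroup.mem_bot]
    exact (QuotientGroup.eq_one_iff y).2 hy
  have hd := tt_dvd φ hinj c X hXf hX j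
  refine nil_root (itr (tt φ c X hX) j).range ⟨?_⟩ k ?_ _ ?_
  · intro h0
    rw [h0] at hd
    exact pow_ne_zero _ hfin.index_ne_zero (Nat.eq_zero_of_zero_dvd hd)
  · exact (hk.pow_right j).coprime_dvd_right hd
  · have h1 : (((⟨x, hx⟩ : X) : X ⧸ Gm c X)) ^ k = 1 := by
      show (((⟨x, hx⟩ : X) ^ k : X) : X ⧸ Gm c X) = 1
      rw [QuotientGroup.eq_one_iff, mem_Gm]
      exact hxk
    rw [h1]
    exact one_mem _

theorem tfae {Q : Type} [Group Q] [Group.FG Q] (φ : Q →* Q)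
    (hinj : Function.Injective φ) (hfin : φ.range.FiniteIndex)
    (hcap : ∀ q : Q, (∀ k : ℕ, q ∈ Set.range (φ^[k])) → q = 1) (c : ℕ) (hc1 : 1 ≤ c) :
    List.TFAE [
      ∃ N : Subgroup Q, N.FiniteIndex ∧ N.lowerCentralSeries c = ⊥,
      ∃ Q₀ : Subgroup Q, Q₀.FiniteIndex ∧ ∀ X : Subgroup Q, X.FiniteIndex → X ≤ Q₀ →
        (∀ x ∈ X, φ x ∈ X) → ∀ x ∈ X, φ x ∈ X.lowerCentralSeries c →
          x ∈ X.lowerCentralSeries c,
      ∃ Q₀ : Subgroup Q, Q₀.FiniteIndex ∧ ∀ X : Subgroup Q, X.FiniteIndex → X ≤ Q₀ →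
        (∀ x ∈ X, φ x ∈ X) → ∀ x ∈ X, φ x ∈ X.lowerCentralSeries c →
          ∃ k : ℕ, k.Coprime φ.range.index ∧ x ^ k ∈ X.lowerCentralSeries c,
      ∃ Q₀ : Subgroup Q, Q₀.FiniteIndex ∧ ∀ X : Subgroup Q, X.FiniteIndex → X ≤ Q₀ →
        (∀ x ∈ X, φ x ∈ X) → ∀ x ∈ X, φ x ∈ X.lowerCentralSeries c →
          ∀ j : ℕ, ∃ y ∈ X, ((φ^[j]) y)⁻¹ * x ∈ X.lowerCentralSeries c] := by
  tfae_have 1 → 2 := by
    rintro ⟨N, hN, hNc⟩
    refine ⟨N, hN, fun X _ hXN _ x _ hφx => ?_⟩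
    have h1 : X.lowerCentralSeries c = ⊥ := by
      rw [eq_bot_iff, ← hNc]
      exact Subgroup.lowerCentralSeries_mono c hXN
    rw [h1, Subgroup.mem_bot] at hφx
    have h2 : x = 1 := hinj (hφx.trans (map_one φ).symm)
    rw [h2]
    exact one_mem _
  tfae_have 2 → 3 := by
    rintro ⟨Q₀, hQ₀, h⟩
    refine ⟨Q₀, hQ₀, fun X h1 h2 h3 x h4 h5 => ⟨1, Nat.coprime_one_left _, ?_⟩⟩
    rw [pow_one]
    exact h X h1 h2 h3 x h4 h5
  tfae_have 3 → 4 := by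
    rintro ⟨Q₀, hQ₀, h⟩
    refine ⟨Q₀, hQ₀, fun X h1 h2 h3 x h4 h5 j => ?_⟩
    obtain ⟨y, hy, hyx⟩ := KerPrime.kerIm φ hinj hfin c Q₀ h X h1 h2 h3 x h4 h5 j
    refine ⟨y, hy, ?_⟩
    rw [← itr_eq_iterate]
    exact hyx
  tfae_have 4 → 1 := by
    rintro ⟨Q₀, hQ₀, h⟩
    refine mainC φ hinj hfin hcap c hc1 Q₀ hQ₀ (fun X h1 h2 h3 x h4 h5 j => ?_)
    obtain ⟨y, hy, hyx⟩ := h X h1 h2 h3 x h4 h5 j
    refine ⟨y, hy, ?_⟩
    rw [itr_eq_iterate]
    exact hyx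
  tfae_finish

end BCX.INJ
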