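import Pool.Agent.BCX.InjCMain

/-!
# Comparison of invariant subgroups: a functorial form
-/

set_option autoImplicit false

open EssMap
open scoped commutatorElement

namespace BCX.INJ

/-- functorial normal subgroups, with small kernels of the induced maps -/
structure Fun {Q : Type} [Group Q] (φ : Q →* Q) (Q₀ : Subgroup Q)
    (F : Subgroup Q → Subgroup Q) : Prop where
  norm : ∀ X, Ad φ Q₀ X → ∀ x ∈ X, ∀ g ∈ F X, x * g * x⁻¹ ∈ F X
  mono : ∀ U X, Ad φ Q₀ U → Ad φ Q₀ X → U ≤ X → F U ≤ F X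
  map : ∀ X, Ad φ Q₀ X → ∀ g ∈ F X, φ g ∈ F X
  ker : ∀ X, Ad φ Q₀ X → ∀ x ∈ X, φ x ∈ F X → ∀ j : ℕ, ∃ y ∈ X, (itr φ j y)⁻¹ * x ∈ F X

variable {Q : Type} [Group Q] {φ : Q →* Q} {Q₀ : Subgroup Q} {F : Subgroup Q → Subgroup Q}

/-- the normal subgroup of `X` -/
def FN (_ : Fun φ Q₀ F) {X : Subgroup Q} (_ : Ad φ Q₀ X) : Subgroup X := (F X).subgroupOf X

theorem mem_FN (hF : Fun φ Q₀ F) {X : Subgroup Q} (hX : Ad φ Q₀ X) (x : X) :
    x ∈ FN hF hX ↔ (x : Q) ∈ F X := Iff.rfl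

instance FN_normal (hF : Fun φ Q₀ F) {X : Subgroup Q} (hX : Ad φ Q₀ X) :
    (FN hF hX).Normal := ⟨fun g hg x => hF.norm X hX x x.2 g hg⟩

/-- the induced endomorphism -/
def tF (hF : Fun φ Q₀ F) {X : Subgroup Q} (hX : Ad φ Q₀ X) :
    X ⧸ FN hF hX →* X ⧸ FN hF hX :=
  QuotientGroup.map (FN hF hX) (FN hF hX) (rst φ X hX.inv) (fun g hg => hF.map X hX g hg)

/-- the induced map -/
def pF (hF : Fun φ Q₀ F) {U X : Subgroup Q} (hU : Ad φ Q₀ U) (hX : Ad φ Q₀ X) (h : U ≤ X) :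
    U ⧸ FN hF hU →* X ⧸ FN hF hX :=
  QuotientGroup.map (FN hF hU) (FN hF hX) (Subgroup.inclusion h)
    (fun _ hg => hF.mono U X hU hX h hg)

theorem tF_itr (hF : Fun φ Q₀ F) {X : Subgroup Q} (hX : Ad φ Q₀ X) (k : ℕ) (x : X) :
    itr (tF hF hX) k (x : X ⧸ FN hF hX) =
      ((itr (rst φ X hX.inv) k x : X) : X ⧸ FN hF hX) := by
  induction k with
  | zero => rfl
  | succ k ih =>
    rw [itr_succ, ih, itr_succ]
    rfl

theorem mem_range_tF (hF : Fun φ Q₀ F) {X : Subgroup Q} (hX : Ad φ Q₀ X) (k : ℕ) (x : X) :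
    (x : X ⧸ FN hF hX) ∈ (itr (tF hF hX) k).range ↔
      ∃ y ∈ X, (itr φ k y)⁻¹ * (x : Q) ∈ F X := by
  constructor
  · rintro ⟨y, hy⟩
    obtain ⟨y, rfl⟩ := QuotientGroup.mk_surjective y
    rw [tF_itr, QuotientGroup.eq, mem_FN] at hy
    refine ⟨y, y.2, ?_⟩
    rw [← itr_rst φ X hX.inv k y]
    exact hy
  · rintro ⟨y, hy, hyx⟩
    refine ⟨((⟨y, hy⟩ : X) : X ⧸ FN hF hX), ?_⟩
    rw [tF_itr, QuotientGroup.eq, mem_FN]
    show ((itr (rst φ X hX.inv) k ⟨y, hy⟩ : X) : Q)⁻¹ * (x : Q) ∈ _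
    rw [itr_rst]
    exact hyx

theorem tF_eq (hF : Fun φ Q₀ F) {X : Subgroup Q} (hX : Ad φ Q₀ X) :
    itr (tF hF hX) 1 = tF hF hX := rfl

theorem tF_K (hF : Fun φ Q₀ F) {X : Subgroup Q} (hX : Ad φ Q₀ X) :
    ∀ z, tF hF hX z = 1 → ∀ k, z ∈ (itr (tF hF hX) k).range := by
  intro z hz k
  obtain ⟨x, rfl⟩ := QuotientGroup.mk_surjective z
  rw [mem_range_tF]
  apply hF.ker X hX x x.2
  have h1 : ((rst φ X hX.inv x : X) : X ⧸ FN hF hX) = 1 := hz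
  rw [QuotientGroup.eq_one_iff, mem_FN] at h1
  exact h1

theorem tF_dvd (hinj : Function.Injective φ) (hF : Fun φ Q₀ F) {X : Subgroup Q}
    (hX : Ad φ Q₀ X) (k : ℕ) :
    (itr (tF hF hX) k).range.index ∣ φ.range.index ^ k := by
  have h1 : ((itr (rst φ X hX.inv) k).range.map (QuotientGroup.mk' (FN hF hX))) ≤
      (itr (tF hF hX) k).range := by
    rintro _ ⟨_, ⟨y, rfl⟩, rfl⟩
    exact ⟨(y : X ⧸ FN hF hX), tF_itr hF hX k y⟩
  have h2 := Subgroup.index_map_dvd (itr (rst φ X hX.inv) k).range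
    (QuotientGroup.mk'_surjective (FN hF hX))
  rw [itr_index _ (rst_inj hinj X hX.inv), rst_index hinj X hX.fin hX.inv] at h2
  exact (Subgroup.index_dvd_of_le h1).trans h2

theorem tF_fin (hinj : Function.Injective φ) (hfin : φ.range.FiniteIndex)
    (hF : Fun φ Q₀ F) {X : Subgroup Q} (hX : Ad φ Q₀ X) :
    (tF hF hX).range.FiniteIndex := by
  constructor
  intro h
  have h1 := tF_dvd hinj hF hX 1
  rw [tF_eq, h, pow_one] at h1
  exact hfin.index_ne_zero (Nat.eq_zero_of_zero_dvd h1)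

theorem tF_le (hinj : Function.Injective φ) (hfin : φ.range.FiniteIndex)
    (hF : Fun φ Q₀ F) {X : Subgroup Q} (hX : Ad φ Q₀ X) :
    (tF hF hX).range.index ≤ φ.range.index := by
  have h1 := tF_dvd hinj hF hX 1
  rw [tF_eq, pow_one] at h1
  exact Nat.le_of_dvd (Nat.pos_of_ne_zero hfin.index_ne_zero) h1

theorem pF_fin (hF : Fun φ Q₀ F) {U X : Subgroup Q} (hU : Ad φ Q₀ U) (hX : Ad φ Q₀ X)
    (h : U ≤ X) : (pF hF hU hX h).range.FiniteIndex := by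
  have h1 : (Subgroup.inclusion h).range.map (QuotientGroup.mk' (FN hF hX)) ≤
      (pF hF hU hX h).range := by
    rintro _ ⟨_, ⟨y, rfl⟩, rfl⟩
    exact ⟨(y : U ⧸ FN hF hU), rfl⟩
  have h2 := Subgroup.index_map_dvd (Subgroup.inclusion h).range
    (QuotientGroup.mk'_surjective (FN hF hX))
  have h3 : (Subgroup.inclusion h).range.FiniteIndex := by
    have := hU.fin
    rw [Subgroup.inclusion_range]
    infer_instance
  constructor
  intro h4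
  have h5 := (Subgroup.index_dvd_of_le h1).trans h2
  rw [h4] at h5
  exact h3.index_ne_zero (Nat.eq_zero_of_zero_dvd h5)

theorem pF_comm (hF : Fun φ Q₀ F) {U X : Subgroup Q} (hU : Ad φ Q₀ U) (hX : Ad φ Q₀ X)
    (h : U ≤ X) (z : U ⧸ FN hF hU) :
    pF hF hU hX h (tF hF hU z) = tF hF hX (pF hF hU hX h z) := by
  obtain ⟨x, rfl⟩ := QuotientGroup.mk_surjective z
  rfl

/-- below a suitable admissible subgroup, elements of `U ∩ F(X)` are in `φ^j(U) F(U)` -/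
theorem exists_maxF [Group.FG Q] (hinj : Function.Injective φ) (hfin : φ.range.FiniteIndex)
    (hQ₀ : Q₀.FiniteIndex) (hF : Fun φ Q₀ F) :
    ∃ X₁ : Subgroup Q, Ad φ Q₀ X₁ ∧ ∀ (U X : Subgroup Q), Ad φ Q₀ U → Ad φ Q₀ X → U ≤ X →
      X ≤ X₁ → ∀ u ∈ U, u ∈ F X → ∀ j : ℕ, ∃ v ∈ U, (itr φ j v)⁻¹ * u ∈ F U := by
  let S : Set ℕ := {n | ∃ X : Subgroup Q, ∃ h : Ad φ Q₀ X, n = (tF hF h).range.index}
  have hne : S.Nonempty := by
    obtain ⟨G, hG, hGQ, hGφ⟩ := exists_invariant φ Q₀ hQ₀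
    exact ⟨_, G, ⟨hG, hGQ, hGφ⟩, rfl⟩
  have hbd : BddAbove S := by
    refine ⟨φ.range.index, ?_⟩
    rintro _ ⟨X, h, rfl⟩
    exact tF_le hinj hfin hF h
  obtain ⟨X₁, h₁, hc₁⟩ := Nat.sSup_mem hne hbd
  have hmax : ∀ (U : Subgroup Q) (h : Ad φ Q₀ U), (tF hF h).range.index ≤
      (tF hF h₁).range.index := by
    intro U h
    rw [← hc₁]
    exact le_csSup hbd ⟨U, h, rfl⟩
  refine ⟨X₁, h₁, ?_⟩
  intro U X hU hX hUX hX1 u hu huX j
  have hle : (tF hF hU).range.index ≤ (tF hF hX).range.index :=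
    (hmax U hU).trans (INJ.mono (tF hF h₁) (tF hF hX) (pF hF hX h₁ hX1)
      (pF_comm hF hX h₁ hX1) (pF_fin hF hX h₁ hX1) (tF_K hF h₁) (tF_K hF hX)
      (tF_fin hinj hfin hF h₁) (tF_fin hinj hfin hF hX))
  have h1 := pull (tF hF hX) (tF hF hU) (pF hF hU hX hUX)
    (pF_comm hF hU hX hUX) (pF_fin hF hU hX hUX) (tF_K hF hX) (tF_K hF hU)
    (tF_fin hinj hfin hF hX) (tF_fin hinj hfin hF hU) hle
    (((⟨u, hu⟩ : U) : U ⧸ FN hF hU)) (by
      show ((Subgroup.inclusion hUX ⟨u, hu⟩ : X) : X ⧸ FN hF hX) = 1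
      rw [QuotientGroup.eq_one_iff, mem_FN]
      exact huX) j
  exact (mem_range_tF hF hU j ⟨u, hu⟩).1 h1

end BCX.INJ
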