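import Mathlib

/-!
# Finite groups whose hypercentre has index prime to `p` are `p`-nilpotent
-/

set_option autoImplicit false

namespace BCX

universe uPN

/-- a finite group whose centre has index prime to `p`: the kernel of a suitable power map -/
theorem PN_center {p : ℕ} [hp : Fact p.Prime] {H : Type uPN} [Group H] [Finite H]
    (h : ¬ p ∣ (Subgroup.center H).index) :
    ∃ N : ℕ, ∃ K : Subgroup H, (∀ g, g ∈ K ↔ g ^ N = 1) ∧ (∃ a, K.index = p ^ a) ∧
      ¬ p ∣ Nat.card K := by
  classical
  obtain ⟨b, c, hc, hn⟩ := Nat.exists_eq_pow_mul_and_not_dvd (Nat.card_pos (α := H)).ne' p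
    hp.out.ne_one
  set z := (Subgroup.center H).index with hz
  let ψ : H →* Subgroup.center H :=
    { toFun := fun g => (MonoidHom.transferCenterPow H g) ^ c
      map_one' := by rw [map_one, one_pow]
      map_mul' := fun x y => by
        rw [map_mul]
        have hcom : Commute (MonoidHom.transferCenterPow H x) (MonoidHom.transferCenterPow H y) :=
          Subtype.ext ((Subgroup.mem_center_iff.1 (MonoidHom.transferCenterPow H y).2 _))
        exact hcom.mul_pow c }
  have hψ : ∀ g : H, ((ψ g : Subgroup.center H) : H) = g ^ (z * c) := by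
    intro g
    show (((MonoidHom.transferCenterPow H g) ^ c : Subgroup.center H) : H) = g ^ (z * c)
    rw [SubmonoidClass.coe_pow, MonoidHom.transferCenterPow_apply, pow_mul, hz]
  refine ⟨z * c, ψ.ker, ?_, ?_, ?_⟩
  · intro g
    rw [MonoidHom.mem_ker, ← hψ g, ← OneMemClass.coe_one (Subgroup.center H), Subtype.coe_inj]
  · rw [Subgroup.index_ker]
    have hP : IsPGroup p ψ.range := by
      rintro ⟨x, g, rfl⟩
      refine ⟨b, ?_⟩
      apply Subtype.ext
      apply Subtype.ext
      show ((ψ g : Subgroup.center H) : H) ^ p ^ b = 1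
      rw [hψ, ← pow_mul]
      have : z * c * p ^ b = Nat.card H * z := by rw [hn]; ring
      rw [this, pow_mul, pow_card_eq_one', one_pow]
    exact (IsPGroup.iff_card.1 hP)
  · intro hdvd
    obtain ⟨x, hx⟩ := exists_prime_orderOf_dvd_card' (G := ψ.ker) p hdvd
    have hx1 : ((x : H)) ^ (z * c) = 1 := by
      have := x.2
      rw [MonoidHom.mem_ker] at this
      rw [← hψ, this]
      rfl
    have hx2 : orderOf (x : H) ∣ z * c := orderOf_dvd_of_pow_eq_one hx1
    rw [Subgroup.orderOf_coe, hx] at hx2
    rcases (Nat.Prime.dvd_mul hp.out).1 hx2 with h1 | h1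
    · exact h h1
    · exact hc h1

theorem PN_aux {p : ℕ} [hp : Fact p.Prime] (m : ℕ) : ∀ (F : Type uPN) [Group F] [Finite F],
    (¬ p ∣ (Subgroup.upperCentralSeries F m).index) →
    ∃ R : Subgroup F, R.Normal ∧ (∃ a, R.index = p ^ a) ∧ ¬ p ∣ Nat.card R := by
  induction m with
  | zero =>
    intro F _ _ h
    rw [Subgroup.upperCentralSeries_zero, Subgroup.index_bot] at h
    exact ⟨⊤, inferInstance, ⟨0, by simp⟩, by rwa [Subgroup.card_top]⟩
  | succ m ih =>
    intro F _ _ h
    have h1 : ¬ p ∣ (Subgroup.upperCentralSeries (F ⧸ Subgroup.center F) m).index := by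
      rw [← Subgroup.comap_upperCentralSeries_quotient_center,
        Subgroup.index_comap_of_surjective _ (QuotientGroup.mk'_surjective _)] at h
      exact h
    obtain ⟨R1, hR1, ⟨a, ha⟩, hc⟩ := ih (F ⧸ Subgroup.center F) h1
    set R2 : Subgroup F := R1.comap (QuotientGroup.mk' (Subgroup.center F)) with hR2
    have hR2n : R2.Normal := hR1.comap _
    have hR2i : R2.index = p ^ a := by
      rw [hR2, Subgroup.index_comap_of_surjective _ (QuotientGroup.mk'_surjective _), ha]
    have hle : Subgroup.center F ≤ R2 := by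
      intro x hx
      rw [hR2, Subgroup.mem_comap]
      have : (QuotientGroup.mk' (Subgroup.center F)) x = 1 := by
        rw [QuotientGroup.mk'_apply, QuotientGroup.eq_one_iff]
        exact hx
      rw [this]
      exact one_mem _
    have hrel : ¬ p ∣ (Subgroup.center F).relIndex R2 := by
      intro hd
      apply hc
      have e1 : (Subgroup.center F).relIndex R2 * R2.index = (Subgroup.center F).index :=
        Subgroup.relIndex_mul_index hle
      have e2 : Nat.card R1 * R1.index = Nat.card (F ⧸ Subgroup.center F) :=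
        Subgroup.card_mul_index R1
      rw [← Subgroup.index_eq_card] at e2
      rw [← e1, hR2i, ha] at e2
      have e3 := Nat.eq_of_mul_eq_mul_right (pow_pos hp.out.pos a) e2
      rw [e3]
      exact hd
    have hcen : ¬ p ∣ (Subgroup.center R2).index := by
      intro hd
      apply hrel
      refine hd.trans ?_
      have hle2 : (Subgroup.center F).subgroupOf R2 ≤ Subgroup.center R2 := by
        intro x hx
        rw [Subgroup.mem_subgroupOf] at hx
        rw [Subgroup.mem_center_iff] at hx ⊢
        intro y
        exact Subtype.ext (hx y)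
      exact Subgroup.index_dvd_of_le hle2
    obtain ⟨N, K, hK, ⟨b, hb⟩, hKc⟩ := PN_center hcen
    refine ⟨K.map R2.subtype, ?_, ⟨b + a, ?_⟩, ?_⟩
    · constructor
      intro x hx g
      rw [Subgroup.mem_map] at hx ⊢
      obtain ⟨y, hy, rfl⟩ := hx
      refine ⟨⟨g * R2.subtype y * g⁻¹, hR2n.conj_mem _ y.2 g⟩, ?_, rfl⟩
      rw [hK] at hy ⊢
      apply Subtype.ext
      show (g * (y : F) * g⁻¹) ^ N = 1
      rw [conj_pow]
      have : ((y : F)) ^ N = 1 := by
        have := congrArg (Subtype.val) hy
        simpa using this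
      rw [this]
      simp
    · rw [Subgroup.index_map_subtype, hb, hR2i, pow_add]
    · rwa [Subgroup.card_map_of_injective R2.subtype_injective]

/-- ROW PN: finite groups whose hypercentre has index prime to `p` are `p`-nilpotent -/
theorem p_compl {p : ℕ} [Fact p.Prime] {F : Type*} [Group F] [Finite F] (m : ℕ)
    (h : ¬ p ∣ (Subgroup.upperCentralSeries F m).index) :
    ∃ R : Subgroup F, R.Normal ∧ (∃ a, R.index = p ^ a) ∧ ¬ p ∣ Nat.card R :=
  PN_aux m F h

end BCX
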