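import Pool.Agent.BCX.InjB
import Pool.Agent.BCX.PN

/-!
# Bounded `p`-parts of the kernels on the nilpotent quotients
-/

set_option autoImplicit false

open EssMap
open scoped commutatorElement

namespace BCX.INJ

variable {Q : Type} [Group Q]

/-- the part of order prime to `p` of a finite nilpotent section -/
theorem LK_O (A Y : Subgroup Q) (hAn : A.Normal) (hYn : Y.Normal) (hAY : A ≤ Y)
    (h0 : A.relIndex Y ≠ 0) (p : ℕ) (hp : p.Prime)
    (C : ℕ → Subgroup Q) (m : ℕ) (hC0 : C 0 = A) (hYC : Y ≤ C m)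
    (hc : ∀ i, ⁅Y, C (i + 1)⁆ ≤ C i) :
    ∃ O : Subgroup Q, O.Normal ∧ A ≤ O ∧ O ≤ Y ∧
      (∀ y, y ∈ O ↔ y ∈ Y ∧ ∃ e : ℕ, ¬ p ∣ e ∧ y ^ e ∈ A) ∧ ∃ a : ℕ, O.relIndex Y = p ^ a := by
  have hpf : Fact p.Prime := ⟨hp⟩
  have hAs : (A.subgroupOf Y).Normal := hAn.subgroupOf Y
  have hAf : (A.subgroupOf Y).FiniteIndex := ⟨h0⟩
  have hfin : Finite (Y ⧸ A.subgroupOf Y) := inferInstance
  have hnil : Group.IsNilpotent (Y ⧸ A.subgroupOf Y) := by
    rw [Subgroup.nilpotent_iff_finite_descending_central_series]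
    refine ⟨m, fun j => ((C (m - j)).subgroupOf Y).map (QuotientGroup.mk' _), ⟨?_, ?_⟩, ?_⟩
    · show ((C (m - 0)).subgroupOf Y).map (QuotientGroup.mk' (A.subgroupOf Y)) = ⊤
      rw [Nat.sub_zero, Subgroup.subgroupOf_eq_top.2 hYC,
        Subgroup.map_top_of_surjective _ (QuotientGroup.mk'_surjective _)]
    · rintro _ n ⟨u, hu, rfl⟩ g
      obtain ⟨v, rfl⟩ := QuotientGroup.mk'_surjective _ g
      refine ⟨u * v * u⁻¹ * v⁻¹, ?_, by
        rw [commutatorElement_def, map_mul, map_mul, map_mul, map_inv, map_inv]⟩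
      have hu' : (u : Q) ∈ C (m - n) := hu
      show ((u * v * u⁻¹ * v⁻¹ : Y) : Q) ∈ C (m - (n + 1))
      rcases Nat.eq_zero_or_pos (m - n) with h | h
      · have h1 : m - (n + 1) = 0 := by omega
        rw [h1, hC0]
        rw [h, hC0] at hu'
        have h2 : ((u * v * u⁻¹ * v⁻¹ : Y) : Q) = (u : Q) * ((v : Q) * (u : Q)⁻¹ * (v : Q)⁻¹) := by
          push_cast
          group
        rw [h2]
        exact A.mul_mem hu' (hAn.conj_mem _ (A.inv_mem hu') _)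
      · have h1 : m - n = (m - (n + 1)) + 1 := by omega
        rw [h1] at hu'
        have h2 : ((u * v * u⁻¹ * v⁻¹ : Y) : Q) = ⁅(v : Q), (u : Q)⁆⁻¹ := by
          push_cast
          rw [commutatorElement_def]
          group
        rw [h2]
        exact (C _).inv_mem (hc _ (Subgroup.commutator_mem_commutator v.2 hu'))
    · show ((C (m - m)).subgroupOf Y).map (QuotientGroup.mk' (A.subgroupOf Y)) = ⊥
      rw [Nat.sub_self, hC0, QuotientGroup.map_mk'_self]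
  obtain ⟨n, hn⟩ := Group.IsNilpotent.nilpotent (Y ⧸ A.subgroupOf Y)
  obtain ⟨R, hRn, ⟨a, ha⟩, hRp⟩ := p_compl (p := p) (F := Y ⧸ A.subgroupOf Y) n (by
    rw [hn, Subgroup.index_top]
    exact hp.one_lt.ne' ∘ Nat.dvd_one.1)
  have hRmem : ∀ f : Y ⧸ A.subgroupOf Y, f ∈ R ↔ ∃ e : ℕ, ¬ p ∣ e ∧ f ^ e = 1 := by
    intro f
    constructor
    · intro hf
      refine ⟨Nat.card R, hRp, ?_⟩
      have h1 : (⟨f, hf⟩ : R) ^ Nat.card R = 1 := pow_card_eq_one'
      exact congrArg Subtype.val h1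
    · rintro ⟨e, he, hfe⟩
      rw [← QuotientGroup.eq_one_iff (N := R)]
      have h1 : ((f : (Y ⧸ A.subgroupOf Y) ⧸ R)) ^ e = 1 := by
        rw [← QuotientGroup.mk_pow, hfe, QuotientGroup.mk_one]
      have h2 : ((f : (Y ⧸ A.subgroupOf Y) ⧸ R)) ^ (p ^ a) = 1 := by
        rw [← ha, Subgroup.index_eq_card]
        exact pow_card_eq_one'
      have h3 : Nat.Coprime e (p ^ a) :=
        Nat.Coprime.pow_right a ((Nat.Prime.coprime_iff_not_dvd hp).2 he).symm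
      have h4 := Nat.dvd_gcd (orderOf_dvd_of_pow_eq_one h1) (orderOf_dvd_of_pow_eq_one h2)
      rw [h3] at h4
      exact orderOf_eq_one_iff.1 (Nat.dvd_one.1 h4)
  obtain ⟨O, hO⟩ : ∃ O : Subgroup Q, O =
      (R.comap (QuotientGroup.mk' (A.subgroupOf Y))).map Y.subtype := ⟨_, rfl⟩
  have hOmem : ∀ y, y ∈ O ↔ y ∈ Y ∧ ∃ e : ℕ, ¬ p ∣ e ∧ y ^ e ∈ A := by
    intro y
    rw [hO]
    constructor
    · rintro ⟨u, hu, rfl⟩
      obtain ⟨e, he, h⟩ := (hRmem _).1 (show QuotientGroup.mk' (A.subgroupOf Y) u ∈ R from hu)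
      refine ⟨u.2, e, he, ?_⟩
      rw [← map_pow, QuotientGroup.mk'_apply, QuotientGroup.eq_one_iff] at h
      exact h
    · rintro ⟨hy, e, he, h⟩
      refine ⟨⟨y, hy⟩, ?_, rfl⟩
      show QuotientGroup.mk' (A.subgroupOf Y) ⟨y, hy⟩ ∈ R
      rw [hRmem]
      refine ⟨e, he, ?_⟩
      rw [← map_pow, QuotientGroup.mk'_apply, QuotientGroup.eq_one_iff]
      exact h
  refine ⟨O, ⟨?_⟩, ?_, ?_, hOmem, a, ?_⟩
  · intro y hy g
    rw [hOmem] at hy ⊢
    obtain ⟨h1, e, he, h2⟩ := hy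
    refine ⟨hYn.conj_mem y h1 g, e, he, ?_⟩
    rw [conj_pow]
    exact hAn.conj_mem _ h2 g
  · intro y hy
    rw [hOmem]
    refine ⟨hAY hy, 1, ?_, by rwa [pow_one]⟩
    exact hp.one_lt.ne' ∘ Nat.dvd_one.1
  · intro y hy
    exact ((hOmem y).1 hy).1
  · have h1 : O.subgroupOf Y = R.comap (QuotientGroup.mk' (A.subgroupOf Y)) := by
      rw [hO, Subgroup.subgroupOf, Subgroup.comap_map_eq_self_of_injective Y.subtype_injective]
    show (O.subgroupOf Y).index = p ^ a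
    rw [h1, Subgroup.index_comap_of_surjective _ (QuotientGroup.mk'_surjective _), ha]

/-- the `p`-parts of the orders of the kernels of all iterates on `X / γ_{c+1}(X)` are less than
`p ^ B`, and the kernels are finite -/
def KerBddP (φ : Q →* Q) (c B p : ℕ) (Q₀ : Subgroup Q) : Prop :=
  ∀ X : Subgroup Q, X.FiniteIndex → X ≤ Q₀ → (∀ x ∈ X, φ x ∈ X) → ∀ k : ℕ,
    ¬ p ^ B ∣ (X.lowerCentralSeries c).relIndex (X ⊓ (X.lowerCentralSeries c).comap (itr φ k))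

/-- the index bound -/
theorem keyWP (φ : Q →* Q) (c B p : ℕ) (hp : p.Prime) (Q₀ : Subgroup Q)
    (hH : KerBddP φ c B p Q₀) (W A : Subgroup Q) (hW : Ad φ Q₀ W) (hWn : W.Normal)
    (hAn : A.Normal) (hAW : A ≤ W) (h0 : ∃ a, A.relIndex W = p ^ a) (hWC : W ≤ A ⊔ Cl φ c W) :
    (A ⊔ W.lowerCentralSeries c).Normal ∧ A ⊔ W.lowerCentralSeries c ≤ W ∧
    (A ⊔ W.lowerCentralSeries c).relIndex W ≠ 0 ∧
      (A ⊔ W.lowerCentralSeries c).relIndex W ≤ p ^ B := by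
  have hlW : (W.lowerCentralSeries c).Normal := inferInstance
  have hFn : (A ⊔ W.lowerCentralSeries c).Normal := inferInstance
  have hle : A ⊔ W.lowerCentralSeries c ≤ W := sup_le hAW (W.lowerCentralSeries_le_self c)
  obtain ⟨a, ha⟩ := h0
  have hA0 : A.relIndex W ≠ 0 := by
    rw [ha]
    exact (pow_pos hp.pos a).ne'
  -- one of the kernels is enough
  obtain ⟨k, hk⟩ : ∃ k, W ≤ A ⊔ Kk φ c W k := by
    have hmono : Monotone fun k => A ⊔ Kk φ c W k := fun i j hij =>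
      sup_le_sup le_rfl (Kk_mono φ c W hW.inv hij)
    have hle1 : ∀ k, A ⊔ Kk φ c W k ≤ W := fun k => sup_le hAW inf_le_left
    have hne : ∀ k, (A ⊔ Kk φ c W k).relIndex W ≠ 0 := by
      intro k h
      have h1 := Subgroup.relIndex_mul_relIndex A (A ⊔ Kk φ c W k) W le_sup_left (hle1 k)
      rw [h, mul_zero] at h1
      exact hA0 h1.symm
    obtain ⟨k0, hk0⟩ : ∃ k0, ∀ k, (A ⊔ Kk φ c W k0).relIndex W ≤ (A ⊔ Kk φ c W k).relIndex W := by
      obtain ⟨n, ⟨k0, hk0⟩, hmin⟩ := WellFounded.has_min (wellFounded_lt (α := ℕ))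
        (Set.range fun k => (A ⊔ Kk φ c W k).relIndex W) ⟨_, 0, rfl⟩
      refine ⟨k0, fun k => ?_⟩
      have h1 := hmin _ ⟨k, rfl⟩
      have h2 : (A ⊔ Kk φ c W k0).relIndex W = n := hk0
      rw [h2]
      exact not_lt.1 h1
    have hall : ∀ k, Kk φ c W k ≤ A ⊔ Kk φ c W k0 := by
      intro k
      have h1 : A ⊔ Kk φ c W k0 ≤ A ⊔ Kk φ c W (max k k0) := hmono (le_max_right _ _)
      have h2 := Subgroup.relIndex_mul_relIndex _ _ _ h1 (hle1 (max k k0))
      have h3 : (A ⊔ Kk φ c W k0).relIndex (A ⊔ Kk φ c W (max k k0)) = 1 := by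
        have h4 := hk0 (max k k0)
        have h5 : 0 < (A ⊔ Kk φ c W (max k k0)).relIndex W := Nat.pos_of_ne_zero (hne _)
        have h6 : (A ⊔ Kk φ c W k0).relIndex (A ⊔ Kk φ c W (max k k0)) ≠ 0 := by
          intro h
          rw [h, zero_mul] at h2
          exact hne k0 h2.symm
        have h7 : (A ⊔ Kk φ c W k0).relIndex (A ⊔ Kk φ c W (max k k0)) ≤ 1 := by
          by_contra h
          push Not at h
          have h9 : 2 * (A ⊔ Kk φ c W (max k k0)).relIndex W ≤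
              (A ⊔ Kk φ c W k0).relIndex (A ⊔ Kk φ c W (max k k0)) *
                (A ⊔ Kk φ c W (max k k0)).relIndex W := Nat.mul_le_mul_right _ h
          omega
        omega
      exact (Kk_mono φ c W hW.inv (le_max_left k k0)).trans
        (le_sup_right.trans (Subgroup.relIndex_eq_one.1 h3))
    exact ⟨k0, hWC.trans (sup_le le_sup_left (iSup_le hall))⟩
  have hWC' : W = Kk φ c W k ⊔ (A ⊔ W.lowerCentralSeries c) := by
    apply le_antisymm
    · refine hk.trans (sup_le ?_ le_sup_left)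
      exact le_sup_left.trans le_sup_right
    · exact sup_le inf_le_left hle
  have hrel := relIndex_aux (A ⊔ W.lowerCentralSeries c) (Kk φ c W k) W hWC'
  have hnd := hH W hW.fin hW.le hW.inv k
  have h2 : (A ⊔ W.lowerCentralSeries c).relIndex (Kk φ c W k) ∣
      (W.lowerCentralSeries c).relIndex (Kk φ c W k) :=
    Subgroup.relIndex_dvd_of_le_left _ le_sup_right
  have h3 : (A ⊔ W.lowerCentralSeries c).relIndex W ∣ p ^ a := by
    rw [← ha]
    exact Subgroup.relIndex_dvd_of_le_left _ le_sup_left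
  obtain ⟨i, -, hi⟩ := (Nat.dvd_prime_pow hp).1 h3
  have h4 : ¬ B ≤ i := by
    intro h
    apply hnd
    refine (pow_dvd_pow p h).trans ?_
    rw [← hi, hrel]
    exact h2
  refine ⟨hFn, hle, ?_, ?_⟩
  · rw [hi]
    exact (pow_pos hp.pos i).ne'
  · rw [hi]
    exact Nat.pow_le_pow_right hp.pos (by omega)

/-- ROW LK: the main theorem at one prime -/
theorem localK [Group.FG Q] (φ : Q →* Q)
    (hinj : Function.Injective φ) (hfin : φ.range.FiniteIndex) (c : ℕ) (hc1 : 1 ≤ c)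
    (p : ℕ) (hp : p.Prime) (B : ℕ) (Q₀ : Subgroup Q) (hQ₀ : Q₀.FiniteIndex)
    (hH : KerBddP φ c B p Q₀) :
    ∃ (X₁ : Subgroup Q) (b : ℕ), X₁.FiniteIndex ∧ ∀ X : Subgroup Q, X.Normal → X.FiniteIndex →
      (∀ x ∈ X, φ x ∈ X) → X ≤ X₁ →
      ∀ A : Subgroup Q, A.Normal → A.FiniteIndex → (∀ x ∈ A, φ x ∈ A) → A ≤ X → ∀ m : ℕ,
      (A.comap (itr φ m)).comap φ = A.comap (itr φ m) → ∀ (M : ℕ) (x : Q),
      x ∈ X.lowerCentralSeries c → x⁻¹ * itr φ M x ∈ A.comap (itr φ m) →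
      ∃ e : ℕ, ¬ p ∣ e ∧ (itr φ b (x⁻¹ * itr φ M x)) ^ e ∈ A := by
  obtain ⟨X₁, h₁, hext⟩ := exists_maxF hinj hfin hQ₀ (Cl_fun φ c Q₀)
  obtain ⟨G1, hG1n, hG1f, hcen⟩ := exists_cen (G := Q) (max φ.range.index (p ^ B))
  have h₁f := h₁.fin
  obtain ⟨b, hb⟩ : ∃ b : ℕ, b = p ^ B * p ^ B := ⟨_, rfl⟩
  refine ⟨X₁ ⊓ G1, b, inferInstance, ?_⟩
  intro X hXn hXf hXφ hXle A hAn hAf hAφ hAle m hm M x hxl hxm
  have hX : Ad φ Q₀ X := ⟨hXf, (hXle.trans inf_le_left).trans h₁.le, hXφ⟩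
  have hXi := itr_inv φ X hXφ
  have hx : x ∈ X := X.lowerCentralSeries_le_self c hxl
  have hxC : x ∈ Cl φ c X := lcs_le_Cl φ c X hXφ hxl
  obtain ⟨hch, -⟩ := chain_unit φ hfin A hAn hAf hAφ
  obtain ⟨C, hC⟩ : ∃ C : ℕ → Subgroup Q, C = fun i => A.comap (itr φ i) := ⟨_, rfl⟩
  have hCi : ∀ i, A.comap (itr φ i) = C i := fun i => by rw [hC]
  simp only [hCi] at hch hm hxm
  have hCn : ∀ i, (C i).Normal := fun i => by rw [hC]; infer_instance
  have h0 : C 0 = A := by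
    rw [hC]
    ext x
    rfl
  have hc : ∀ i, ⁅G1, C (i + 1)⁆ ≤ C i := fun i =>
    hcen (C (i + 1)) (C i) (hCn _) (hCn _) (hch i).1 (hch i).2.1
      ((hch i).2.2.trans (le_max_left _ _))
  have hAC : ∀ i, A ≤ C i := by
    intro i
    induction i with
    | zero => rw [h0]
    | succ i ih => exact ih.trans (hch i).1
  have hCmn : (C m).Normal := hCn m
  have hCmA : ∀ y ∈ C m, itr φ m y ∈ A := by
    intro y hy
    rw [hC] at hy
    exact hy
  obtain ⟨Y, hYdef⟩ : ∃ Y : Subgroup Q, Y = C m ⊓ X := ⟨_, rfl⟩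
  have hYn : Y.Normal := by rw [hYdef]; infer_instance
  have hYC : Y ≤ C m := by rw [hYdef]; exact inf_le_left
  have hYX : Y ≤ X := by rw [hYdef]; exact inf_le_right
  have hAY : A ≤ Y := by rw [hYdef]; exact le_inf (hAC m) hAle
  have hYinv : ∀ y ∈ Y, φ y ∈ Y := by
    intro y hy
    have h1 : y ∈ (C m).comap φ := by rw [hm]; exact hYC hy
    rw [hYdef]
    exact ⟨h1, hXφ y (hYX hy)⟩
  have hY : Ad φ Q₀ Y := ⟨Subgroup.finiteIndex_of_le hAY, hYX.trans hX.le, hYinv⟩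
  have hYA : ∀ y ∈ Y, itr φ m y ∈ A := fun y hy => hCmA y (hYC hy)
  have hXG1 : X ≤ G1 := hXle.trans inf_le_right
  have hXX₁ : X ≤ X₁ := hXle.trans inf_le_left
  have hCYn : (Cl φ c Y).Normal := Cl_normal φ c Y hYinv
  have hAY0 : A.relIndex Y ≠ 0 := by
    intro h
    have h1 := Subgroup.relIndex_mul_index hAY
    rw [h, zero_mul] at h1
    exact hAf.index_ne_zero h1.symm
  obtain ⟨O, hOn, hAO, hOY, hOmem, a, ha⟩ := LK_O A Y hAn hYn hAY hAY0 p hp C m h0 hYC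
    (fun i => (Subgroup.commutator_mono (hYX.trans hXG1) le_rfl).trans (hc i))
  have hOφ : ∀ y ∈ O, φ y ∈ O := by
    intro y hy
    rw [hOmem] at hy ⊢
    obtain ⟨h1, e, he, h2⟩ := hy
    refine ⟨hYinv y h1, e, he, ?_⟩
    rw [← map_pow]
    exact hAφ _ h2
  have hO0 : ∀ W : Subgroup Q, O ≤ W → W ≤ Y → ∃ a, O.relIndex W = p ^ a := by
    intro W hOW hWY
    have h1 := Subgroup.relIndex_mul_relIndex O W Y hOW hWY
    rw [ha] at h1
    obtain ⟨i, -, hi⟩ := (Nat.dvd_prime_pow hp).1 (Dvd.intro _ h1)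
    exact ⟨i, hi⟩
  obtain ⟨L, hL⟩ : ∃ L : Subgroup Q, L = O ⊔ Cl φ c Y := ⟨_, rfl⟩
  have hLn : L.Normal := by rw [hL]; infer_instance
  have hOL : O ≤ L := by rw [hL]; exact le_sup_left
  have hLY : L ≤ Y := by rw [hL]; exact sup_le hOY (Cl_le φ c Y)
  have hLinv : ∀ y ∈ L, φ y ∈ L := by
    have h1 : L.map φ ≤ L := by
      rw [hL, Subgroup.map_sup]
      apply sup_le_sup
      · rintro _ ⟨a, ha, rfl⟩
        exact hOφ a ha
      · rintro _ ⟨a, ha, rfl⟩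
        exact (Cl_fun φ c Q₀).map Y hY a ha
    intro y hy
    exact h1 ⟨y, hy, rfl⟩
  -- the two properties of normal invariant subgroups between `O` and `L`
  have key : ∀ W : Subgroup Q, W.Normal → (∀ w ∈ W, φ w ∈ W) → O ≤ W → W ≤ L →
      (O ⊔ W.lowerCentralSeries c).relIndex W ≠ 0 ∧
      (O ⊔ W.lowerCentralSeries c).relIndex W ≤ p ^ B ∧
      ⁅G1, W⁆ ≤ O ⊔ W.lowerCentralSeries c := by
    intro W hWn hWinv hOW hWL
    have hW : Ad φ Q₀ W :=
      ⟨Subgroup.finiteIndex_of_le (hAO.trans hOW), (hWL.trans hLY).trans hY.le, hWinv⟩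
    have hWC : W ≤ O ⊔ Cl φ c W := by
      intro u hu
      have hu' := hWL hu
      rw [hL] at hu'
      obtain ⟨a, ha, g, hg, hag⟩ := Subgroup.mem_sup_of_normal_left.1 hu'
      have hgW : g ∈ W := by
        have h1 : g = a⁻¹ * u := by rw [← hag]; group
        rw [h1]
        exact mul_mem (inv_mem (hOW ha)) hu
      obtain ⟨v, hv, hvu⟩ := hext W Y hW hY (hWL.trans hLY) (hYX.trans hXX₁) g hgW hg m
      have h1 : u = a * itr φ m v * ((itr φ m v)⁻¹ * g) := by rw [← hag]; group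
      rw [h1]
      exact mul_mem (Subgroup.mem_sup_left
        (mul_mem ha (hAO (hYA v ((hWL.trans hLY) hv))))) (Subgroup.mem_sup_right hvu)
    obtain ⟨k1, k2, k3, k4⟩ := keyWP φ c B p hp Q₀ hH W O hW hWn hOn hOW
      (hO0 W hOW (hWL.trans hLY)) hWC
    exact ⟨k3, k4, hcen W _ hWn k1 k2 k3 (k4.trans (le_max_right _ _))⟩
  have hlcs : ∀ W : Subgroup Q, W.lowerCentralSeries c ≤ ⁅W, W⁆ := fun W =>
    W.lowerCentralSeries_antitone hc1
  obtain ⟨W, hW⟩ : ∃ W : Subgroup Q, W = O ⊔ ⁅L, L⁆ := ⟨_, rfl⟩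
  have hOW : O ≤ W := by rw [hW]; exact le_sup_left
  have hLLW : ⁅L, L⁆ ≤ W := by rw [hW]; exact le_sup_right
  have hWL : W ≤ L := by rw [hW]; exact sup_le hOL L.commutator_le_self
  have hWn : W.Normal := by rw [hW]; infer_instance
  have hWinv : ∀ w ∈ W, φ w ∈ W := by
    have h1 : W.map φ ≤ W := by
      rw [hW, Subgroup.map_sup, Subgroup.map_commutator]
      apply sup_le_sup
      · rintro _ ⟨a, ha, rfl⟩
        exact hOφ a ha
      · apply Subgroup.commutator_mono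
        · rintro _ ⟨a, ha, rfl⟩
          exact hLinv a ha
        · rintro _ ⟨a, ha, rfl⟩
          exact hLinv a ha
    intro y hy
    exact h1 ⟨y, hy, rfl⟩
  have kL := key L hLn hLinv hOL le_rfl
  have kW := key W hWn hWinv hOW hWL
  have hLG1 : L ≤ G1 := hLY.trans (hYX.trans hXG1)
  obtain ⟨T, hT⟩ : ∃ T : Subgroup Q, T = O ⊔ ⁅L, W⁆ := ⟨_, rfl⟩
  have hTn : T.Normal := by rw [hT]; infer_instance
  have hOT : O ≤ T := by rw [hT]; exact le_sup_left
  have hLWT : ⁅L, W⁆ ≤ T := by rw [hT]; exact le_sup_right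
  have hWW : ⁅W, W⁆ ≤ O ⊔ ⁅L, T⁆ := comm_WW O L W T hOn hLn hTn hW hT
  have hTT : T ≤ O ⊔ ⁅L, T⁆ := by
    conv_lhs => rw [hT]
    apply sup_le le_sup_left
    refine (Subgroup.commutator_mono hLG1 le_rfl).trans (kW.2.2.trans ?_)
    exact sup_le le_sup_left ((hlcs W).trans hWW)
  have hcO : ∀ i, ⁅G1, O ⊔ C (i + 1)⁆ ≤ O ⊔ C i := by
    intro i
    rw [Subgroup.commutator_le]
    intro g hg u hu
    obtain ⟨o, ho, z, hz, rfl⟩ := Subgroup.mem_sup_of_normal_left.1 hu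
    have h1 : ⁅g, o * z⁆ = (g * o * g⁻¹ * o⁻¹) * (o * ⁅g, z⁆ * o⁻¹) := by
      rw [commutatorElement_def, commutatorElement_def]
      group
    rw [h1]
    have hCin := hCn i
    refine mul_mem (Subgroup.mem_sup_left
      (mul_mem (hOn.conj_mem o ho g) (inv_mem ho))) (Subgroup.mem_sup_right ?_)
    exact hCin.conj_mem _ (hc i (Subgroup.commutator_mem_commutator hg hz)) o
  have hTC : ∀ i, i ≤ m → T ≤ O ⊔ C (m - i) := by
    intro i
    induction i with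
    | zero =>
      intro _
      have h1 : T ≤ L := by rw [hT]; exact sup_le hOL (Subgroup.commutator_le_left L W)
      exact (h1.trans (hLY.trans hYC)).trans le_sup_right
    | succ i ih =>
      intro hi
      have h1 := ih (by omega)
      have h2 : m - i = (m - (i + 1)) + 1 := by omega
      rw [h2] at h1
      refine hTT.trans (sup_le le_sup_left ?_)
      exact (Subgroup.commutator_mono hLG1 h1).trans (hcO _)
  have hTO : T ≤ O := by
    have h1 := hTC m le_rfl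
    rw [Nat.sub_self, h0] at h1
    exact h1.trans (sup_le le_rfl hAO)
  have hWWO : W.lowerCentralSeries c ≤ O :=
    (hlcs W).trans ((Subgroup.commutator_mono hWL le_rfl).trans (hLWT.trans hTO))
  have hOW' : O ⊔ W.lowerCentralSeries c = O := sup_eq_left.2 hWWO
  rw [hOW'] at kW
  have hLW : W.relIndex L ≠ 0 ∧ W.relIndex L ≤ p ^ B := by
    have h1 : W.relIndex L ∣ (O ⊔ L.lowerCentralSeries c).relIndex L :=
      Subgroup.relIndex_dvd_of_le_left _ (sup_le hOW ((hlcs L).trans hLLW))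
    refine ⟨?_, (Nat.le_of_dvd (Nat.pos_of_ne_zero kL.1) h1).trans kL.2.1⟩
    intro h
    rw [h] at h1
    exact kL.1 (Nat.eq_zero_of_zero_dvd h1)
  have hOL' : O.relIndex L ≠ 0 ∧ O.relIndex L ≤ b := by
    rw [hb, ← Subgroup.relIndex_mul_relIndex _ _ _ hOW hWL]
    exact ⟨mul_ne_zero kW.1 hLW.1, Nat.mul_le_mul kW.2.1 hLW.2⟩
  have hnil := nil_section φ O L hOφ hOL m (fun y hy => hAO (hYA y (hLY hy))) hLinv hOL'.1
    b hOL'.2
  have hy1 : x⁻¹ * itr φ M x ∈ Y := by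
    rw [hYdef]
    exact ⟨hxm, X.mul_mem (X.inv_mem hx) (hXi M x hx)⟩
  have hCX : ∀ k, itr φ k x ∈ Cl φ c X := fun k =>
    itr_inv φ _ ((Cl_fun φ c Q₀).map X hX) k x hxC
  have hy3 : x⁻¹ * itr φ M x ∈ Cl φ c X := mul_mem (inv_mem hxC) (hCX M)
  have hy2 : x⁻¹ * itr φ M x ∈ L := by
    obtain ⟨v, hv, hvu⟩ := hext Y X hY hX hYX hXX₁ _ hy1 hy3 m
    have h1 : x⁻¹ * itr φ M x = itr φ m v * ((itr φ m v)⁻¹ * (x⁻¹ * itr φ M x)) := by group
    rw [h1, hL]
    exact mul_mem (Subgroup.mem_sup_left (hAO (hYA v hv))) (Subgroup.mem_sup_right hvu)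
  exact ((hOmem _).1 (hnil _ hy2)).2

end BCX.INJ
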