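import Pool.Agent.BCX.InjB

/-!
# Virtual nilpotency and the kernels on the nilpotent quotients: the equivalence
-/

set_option autoImplicit false

open EssMap
open scoped commutatorElement

namespace BCX.INJ

theorem relIndex_of_pigeon {Q : Type} [Group Q] (S K : Subgroup Q) (B : ℕ)
    (h : ∀ f : Fin (B + 1) → Q, (∀ i, f i ∈ K) → ∃ i j, i ≠ j ∧ (f i)⁻¹ * f j ∈ S) :
    S.relIndex K ≠ 0 ∧ S.relIndex K ≤ B := by
  have hno : ¬ Nonempty (Fin (B + 1) ↪ K ⧸ S.subgroupOf K) := by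
    rintro ⟨e⟩
    obtain ⟨i, j, hij, hS⟩ := h (fun i => ((e i).out : K)) (fun i => (e i).out.2)
    apply hij
    apply e.injective
    rw [← QuotientGroup.out_eq' (e i), ← QuotientGroup.out_eq' (e j), QuotientGroup.eq]
    exact hS
  have hfin : Finite (K ⧸ S.subgroupOf K) := by
    by_contra hinf
    rw [not_finite_iff_infinite] at hinf
    exact hno ⟨(Fin.valEmbedding).trans (Infinite.natEmbedding _)⟩
  have hcard : S.relIndex K = Nat.card (K ⧸ S.subgroupOf K) := rfl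
  constructor
  · rw [hcard]
    exact Nat.card_pos.ne'
  · rw [hcard]
    by_contra hlt
    push Not at hlt
    apply hno
    have := Fintype.ofFinite (K ⧸ S.subgroupOf K)
    apply Function.Embedding.nonempty_of_card_le
    rw [Fintype.card_fin, ← Nat.card_eq_fintype_card]
    exact hlt

theorem tfae5 {Q : Type} [Group Q] [Group.FG Q] (φ : Q →* Q)
    (hinj : Function.Injective φ) (hfin : φ.range.FiniteIndex)
    (hcap : ∀ q : Q, (∀ k : ℕ, q ∈ Set.range (φ^[k])) → q = 1) (c : ℕ) (hc1 : 1 ≤ c) :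
    List.TFAE [
      ∃ N : Subgroup Q, N.FiniteIndex ∧ N.lowerCentralSeries c = ⊥,
      ∃ Q₀ : Subgroup Q, Q₀.FiniteIndex ∧ ∀ X : Subgroup Q, X.FiniteIndex → X ≤ Q₀ →
        (∀ x ∈ X, φ x ∈ X) → ∀ x ∈ X, φ x ∈ X.lowerCentralSeries c →
          x ∈ X.lowerCentralSeries c,
      ∃ Q₀ : Subgroup Q, Q₀.FiniteIndex ∧ ∀ X : Subgroup Q, X.FiniteIndex → X ≤ Q₀ →
        (∀ x ∈ X, φ x ∈ X) → ∀ x ∈ X, φ x ∈ X.lowerCentralSeries c →
          ∃ k : ℕ, k.Coprime φ.range.index ∧ x ^ k ∈ X.lowerCentralSeries c,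
      ∃ Q₀ : Subgroup Q, Q₀.FiniteIndex ∧ ∀ X : Subgroup Q, X.FiniteIndex → X ≤ Q₀ →
        (∀ x ∈ X, φ x ∈ X) → ∀ x ∈ X, φ x ∈ X.lowerCentralSeries c →
          ∀ j : ℕ, ∃ y ∈ X, ((φ^[j]) y)⁻¹ * x ∈ X.lowerCentralSeries c,
      ∃ (B : ℕ) (Q₀ : Subgroup Q), Q₀.FiniteIndex ∧ ∀ X : Subgroup Q, X.FiniteIndex → X ≤ Q₀ →
        (∀ x ∈ X, φ x ∈ X) → ∀ (k : ℕ) (f : Fin (B + 1) → Q),
          (∀ i, f i ∈ X ∧ (φ^[k]) (f i) ∈ X.lowerCentralSeries c) →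
            ∃ i j, i ≠ j ∧ (f i)⁻¹ * f j ∈ X.lowerCentralSeries c] := by
  have h := tfae φ hinj hfin hcap c hc1
  tfae_have 1 ↔ 2 := h.out 0 1
  tfae_have 2 ↔ 3 := h.out 1 2
  tfae_have 3 ↔ 4 := h.out 2 3
  tfae_have 2 → 5 := by
    rintro ⟨Q₀, hQ₀, h2⟩
    refine ⟨1, Q₀, hQ₀, fun X h3 h4 h5 k f hf => ?_⟩
    have h6 : ∀ (k : ℕ) (x : Q), x ∈ X → (φ^[k]) x ∈ X.lowerCentralSeries c →
        x ∈ X.lowerCentralSeries c := by
      intro k
      induction k with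
      | zero => intro x _ hx; exact hx
      | succ k ih =>
        intro x hx hkx
        rw [Function.iterate_succ_apply] at hkx
        exact h2 X h3 h4 h5 x hx (ih (φ x) (h5 x hx) hkx)
    refine ⟨0, 1, by decide, ?_⟩
    exact mul_mem (inv_mem (h6 k _ (hf 0).1 (hf 0).2)) (h6 k _ (hf 1).1 (hf 1).2)
  tfae_have 5 → 1 := by
    rintro ⟨B, Q₀, hQ₀, h2⟩
    refine mainB φ hinj hfin hcap c hc1 B Q₀ hQ₀ (fun X h3 h4 h5 k => ?_)
    apply relIndex_of_pigeon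
    intro f hf
    refine h2 X h3 h4 h5 k f (fun i => ⟨(hf i).1, ?_⟩)
    rw [← itr_eq_iterate]
    exact (hf i).2
  tfae_finish

end BCX.INJ
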