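import Pool.Agent.BCX.Defs

/-!
# The long exact sequence, elementwise
-/

set_option autoImplicit false

open CategoryTheory groupCohomology EssMap

namespace BCX

variable {G : Type} [Group G]

theorem les2 {X : ShortComplex (Rep ℤ G)} (hX : X.ShortExact) (n : ℕ)
    (x : groupCohomology X.X₂ n) : cmap X.g n x = 0 ↔ ∃ y, cmap X.f n y = x := by
  have h2 := mapShortComplex₂_exact hX n
  rw [ShortComplex.moduleCat_exact_iff] at h2
  constructor
  · intro h
    obtain ⟨y, hy⟩ := h2 x h
    exact ⟨y, hy⟩
  · rintro ⟨y, rfl⟩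
    rw [← cmap_comp, X.zero, cmap_zero]
    rfl

theorem les3 {X : ShortComplex (Rep ℤ G)} (hX : X.ShortExact) (i j : ℕ) (hij : i + 1 = j)
    (x : groupCohomology X.X₃ i) :
    (δ hX i j hij).hom x = 0 ↔ ∃ y, cmap X.g i y = x := by
  have h2 := mapShortComplex₃_exact hX hij
  rw [ShortComplex.moduleCat_exact_iff] at h2
  constructor
  · intro h
    obtain ⟨y, hy⟩ := h2 x h
    exact ⟨y, hy⟩
  · rintro ⟨y, rfl⟩
    have h := (mapShortComplex₃ hX hij).zero
    exact congrArg (fun F => F.hom y) h

theorem les1 {X : ShortComplex (Rep ℤ G)} (hX : X.ShortExact) (i j : ℕ) (hij : i + 1 = j)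
    (x : groupCohomology X.X₁ j) :
    cmap X.f j x = 0 ↔ ∃ y, (δ hX i j hij).hom y = x := by
  have h2 := mapShortComplex₁_exact hX hij
  rw [ShortComplex.moduleCat_exact_iff] at h2
  constructor
  · intro h
    obtain ⟨y, hy⟩ := h2 x h
    exact ⟨y, hy⟩
  · rintro ⟨y, rfl⟩
    have h := (mapShortComplex₁ hX hij).zero
    exact congrArg (fun F => F.hom y) h

theorem coh_sub (V : Rep ℤ G) [Subsingleton V] (n : ℕ) (x : groupCohomology V n) : x = 0 := by
  induction x using groupCohomology_induction_on with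
  | h z =>
    have h : z = 0 := by
      apply iCocycles_inj
      funext g
      exact Subsingleton.elim _ _
    rw [h, map_zero]

end BCX
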