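import Pool.Agent.BCX.Elfb

/-!
# The criterion, prime by prime
-/

set_option autoImplicit false

open CategoryTheory groupCohomology EssMap
open scoped commutatorElement

namespace BCX

/-- the `p`-parts of the orders of the unit quotients of the small subgroups are bounded -/
def BddUnits {Q : Type} [Group Q] (φ : Q →* Q) (Q₀ : Subgroup Q) (p : ℕ) : Prop :=
  ∀ (X : Subgroup Q) (m : ℕ), X ≤ Q₀ → X.FiniteIndex → 0 < m →
    ∀ hX : (∀ x ∈ X, itr φ m x ∈ X), ∃ B : ℕ, ∀ V : Subgroup X, V.Normal → V.FiniteIndex →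
      V.comap (rst (itr φ m) X hX) = V → ¬ p ^ B ∣ V.index

/-- the Euler characteristics of the unit parts of the small subgroups are bounded, and none of
them is zero -/
def EulerUnits {Q : Type} [Group Q] (n : ℕ) (φ : Q →* Q) (Q₀ : Subgroup Q) (p : ℕ) : Prop :=
  ∃ B : ℕ, ∀ (X : Subgroup Q) (m : ℕ), X ≤ Q₀ → X.FiniteIndex → 0 < m →
    ∀ hX : (∀ x ∈ X, itr φ m x ∈ X),
      eu n p (rst (itr φ m) X hX) ≠ od n p (rst (itr φ m) X hX) ∧
      eu n p (rst (itr φ m) X hX) ≤ p ^ B * od n p (rst (itr φ m) X hX) ∧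
      od n p (rst (itr φ m) X hX) ≤ p ^ B * eu n p (rst (itr φ m) X hX)

/-- The criterion: at each prime divisor of the degree one of the two conditions. -/
theorem nilp_mixed {Q : Type} [Group Q] (hfg : Group.FG Q) (φ : Q →* Q)
    (hinj : Function.Injective φ) (hfin : φ.range.FiniteIndex)
    (hcap : ∀ q : Q, (∀ k : ℕ, q ∈ Set.range (φ^[k])) → q = 1)
    (Q₀ : Subgroup Q) (hQ₀ : Q₀.FiniteIndex) (n : ℕ) (hn : 0 < n)
    (hs : ∀ p : ℕ, p.Prime → p ∣ φ.range.index → BddUnits φ Q₀ p ∨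
      (Dual n Q ∧ (∀ X : Subgroup Q, X ≤ Q₀ → X.FiniteIndex → ∀ i, i ≤ n →
        Module.Finite ℤ (HZ X i)) ∧ EulerUnits n φ Q₀ p)) :
    ∃ N : Subgroup Q, N.FiniteIndex ∧ Group.IsNilpotent N := by
  have hred : ∃ G : Subgroup Q, G.FiniteIndex ∧ G ≤ Q₀ ∧ (∀ x ∈ G, φ x ∈ G) ∧
      (Dual n Q → Ori n G = ⊤) := by
    by_cases hQ : Dual n Q
    · obtain ⟨G, h1, h2, h3, h4⟩ := reduce hQ φ Q₀ hQ₀
      exact ⟨G, h1, h2, h3, fun _ => h4⟩
    · obtain ⟨G, -, h1, h2, h3⟩ := exists_A φ Q₀ hQ₀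
      exact ⟨G, h1, h3, h2, fun h => absurd h hQ⟩
  obtain ⟨G, hGf, hGQ, hGφ, hGo⟩ := hred
  have hGfg : Group.FG G := inferInstance
  have hinjG : Function.Injective (rst φ G hGφ) := rst_inj hinj G hGφ
  have hfinG : (rst φ G hGφ).range.FiniteIndex := rst_fin hinj hfin G hGf hGφ
  have hit : ∀ (n : ℕ) (x : G), (((rst φ G hGφ)^[n] x : G) : Q) = φ^[n] x := by
    intro n x
    rw [← itr_eq_iterate, ← itr_eq_iterate, itr_rst]
  obtain ⟨N, hNf, hNn⟩ := nilp_of_bu (rst φ G hGφ) hinjG hfinG (fun q hq => by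
      apply Subtype.ext
      apply hcap
      intro k
      obtain ⟨z, hz⟩ := hq k
      exact ⟨z, by rw [← hit, hz]⟩) (fun p hp hpD => by
      have hpf : Fact p.Prime := ⟨hp⟩
      have hpD' := hpD
      rw [rst_idx hinj G hGf hGφ] at hpD'
      rcases hs p hp hpD' with hA | ⟨hQ, hfgc, B, hB⟩
      · exact BU_of_sub φ G hGf hGφ p (fun X m hXG hXf hm hX =>
          hA X m (hXG.trans hGQ) hXf hm hX)
      · have hGD : Dual n G := hQ.sub G
        have hE : EHyp n B p (rst φ G hGφ) := EHyp_of_sub φ G hGf hGφ n B p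
          (fun X m hXG hXf hm hX => ⟨hfgc X (hXG.trans hGQ) hXf,
            hB X m (hXG.trans hGQ) hXf hm hX⟩)
        intro Y _ j η m hj hjf hm hc
        obtain ⟨hX, e, he, hη⟩ := ELF_range (itr (rst φ G hGφ) m) j η hj hc
        refine ⟨B + 1, fun V hV hVf h => ?_⟩
        have h1 : (V.map e.toMonoidHom).index = V.index := Subgroup.index_map_equiv V e
        have hinjm : Function.Injective (itr (rst φ G hGφ) m) := itr_inj hinjG m
        have hfinm : (itr (rst φ G hGφ) m).range.FiniteIndex :=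
          itr_range_finiteIndex hinjG hfinG m
        rw [← h1]
        refine unit_bdd hn (hGD.sub j.range)
          (ori_top j.range n hGD.cd (by rw [hGo hQ]; exact le_top))
          (rst (itr (rst φ G hGφ) m) j.range hX) (rst_inj hinjm j.range hX)
          (rst_fin hinjm hfinm j.range hjf hX) p (by
            rw [rst_idx hinjm j.range hjf hX, itr_index _ hinjG]
            exact dvd_pow hpD hm.ne') B
          (hE.sub j.range.subtype _ m j.range.subtype_injective
            (by rw [Subgroup.range_subtype]; exact hjf) hm (fun y => rfl))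
          (V.map e.toMonoidHom) (hV.map _ e.surjective)
          ⟨by rw [h1]; exact hVf.index_ne_zero⟩ (ELF_comap e η _ hη V h))
  refine ⟨N.map G.subtype, ⟨?_⟩, ?_⟩
  · rw [Subgroup.index_map_subtype]
    exact mul_ne_zero hNf.index_ne_zero hGf.index_ne_zero
  · exact Group.nilpotent_of_mulEquiv (N.equivMapOfInjective G.subtype G.subtype_injective)

end BCX
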