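import Pool.Agent.BCX.Pbu
import Pool.Agent.BCX.InjP

/-!
# The criterion with kernels: residual part
-/

set_option autoImplicit false

open EssMap
open scoped commutatorElement

namespace BCX

theorem comap_itr_unit {Y : Type*} [Group Y] (η : Y →* Y) (W : Subgroup Y) (r : ℕ)
    (h : W.comap (itr η r) = W) (s : ℕ) : W.comap (itr η (r * s)) = W := by
  have h1 : ∀ x, itr η r x ∈ W ↔ x ∈ W := by
    intro x
    conv_rhs => rw [← h]
    rfl
  ext x
  rw [Subgroup.mem_comap, ← itr_mulP]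
  induction s with
  | zero => exact Iff.rfl
  | succ s ih => rw [itr_succ, h1, ih]

/-- the largest unit quotients, for finitely many primes -/
theorem max_unit1 {G : Type} [Group G] (θ : G →* G) (P : Finset ℕ) (hP : ∀ p ∈ P, p.Prime)
    (hbd : ∀ p ∈ P, ∃ B : ℕ, ∀ V : Subgroup G, V.Normal → V.FiniteIndex → V.comap θ = V →
      ¬ p ^ B ∣ V.index) :
    ∃ (Q : Subgroup G) (hQ : ∀ x ∈ Q, θ x ∈ Q), Q.Normal ∧
      Q.FiniteIndex ∧ ∀ (m : ℕ) (W : Subgroup Q), 0 < m → W.Normal → W.FiniteIndex →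
        W.comap (itr (rst θ Q hQ) m) = W → ∀ p ∈ P, ¬ p ∣ W.index := by
  classical
  choose! B hB using hbd
  let S : Subgroup G → Prop := fun V => V.Normal ∧ V.FiniteIndex ∧ ∃ m, 0 < m ∧
    V.comap (itr θ m) = V
  let f : Subgroup G → ℕ := fun V => ∑ p ∈ P, V.index.factorization p
  have hle : ∀ V, S V → ∀ p ∈ P, V.index.factorization p ≤ B p := by
    rintro V ⟨hV, hVf, m, hm, h⟩ p hp
    obtain ⟨W, hWV, hWn, hWf, hW⟩ := unit_inter θ m hm V hV hVf h
    have h1 := hB p hp W hWn hWf hW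
    have h2 : ¬ p ^ B p ∣ V.index := fun h3 => h1 (h3.trans (Subgroup.index_dvd_of_le hWV))
    rw [(hP p hp).pow_dvd_iff_le_factorization hVf.index_ne_zero] at h2
    omega
  have hfle : ∀ V, S V → f V ≤ ∑ p ∈ P, B p := fun V hV => Finset.sum_le_sum (hle V hV)
  have hST : S ⊤ := ⟨inferInstance, inferInstance, 1, one_pos, rfl⟩
  let R : ℕ → Prop := fun n => ∃ V, S V ∧ f V = n
  have hR := Nat.findGreatest_spec (P := R) (hfle ⊤ hST) ⟨⊤, hST, rfl⟩
  obtain ⟨V₀, ⟨hV₀n, hV₀f, m, hm, hV₀m⟩, hfV₀⟩ := hR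
  have hmax₀ : ∀ W, S W → f W ≤ f V₀ := by
    intro W hW
    rw [hfV₀]
    exact Nat.le_findGreatest (hfle W hW) ⟨W, hW, rfl⟩
  obtain ⟨V, hVV₀, hVn, hVf, hVθ⟩ := unit_inter θ m hm V₀ hV₀n hV₀f hV₀m
  have hmax : ∀ W, S W → f W ≤ f V := by
    intro W hW
    refine (hmax₀ W hW).trans (Finset.sum_le_sum fun q _ => ?_)
    exact (Nat.factorization_le_iff_dvd hV₀f.index_ne_zero hVf.index_ne_zero).2
      (Subgroup.index_dvd_of_le hVV₀) q
  obtain ⟨s, hs, hxs⟩ := UNI_order θ V hVθ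
  have hQ : ∀ x ∈ V, θ x ∈ V := by
    intro x hxV
    rw [← hVθ] at hxV
    exact hxV
  refine ⟨V, hQ, hVn, hVf, ?_⟩
  intro r W hr hWn hWf hW
  have hxr : ∀ x : G, ((itr θ (s * r) x : G) : G ⧸ V) = (x : G ⧸ V) := by
    intro x
    rw [← itr_mulP]
    have h1 : ∀ (k : ℕ) (x : G), ((itr (itr θ s) k x : G) : G ⧸ V) = (x : G ⧸ V) := by
      intro k
      induction k with
      | zero => intro x; rfl
      | succ k ih => intro x; rw [itr_succ, hxs, ih]
    exact h1 r x
  have hWs : W.comap (itr (rst θ V hQ) (s * r)) = W := by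
    rw [mul_comm]
    exact comap_itr_unit _ W r hW s
  set Θ : G →* G := itr θ (s * r) with hΘ
  have hVΘ : ∀ x, (Θ x ∈ V ↔ x ∈ V) := by
    intro x
    rw [← QuotientGroup.eq_one_iff, ← QuotientGroup.eq_one_iff, hxr]
  -- the image of `W` in `G`
  set W1 : Subgroup G := W.map V.subtype with hW1
  have hW1V : W1 ≤ V := by
    rintro _ ⟨x, -, rfl⟩
    exact x.2
  have hmemW1 : ∀ x : V, ((x : G) ∈ W1 ↔ x ∈ W) := by
    intro x
    constructor
    · rintro ⟨y, hy, hyx⟩
      have : y = x := Subtype.ext hyx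
      rw [← this]
      exact hy
    · intro h
      exact ⟨x, h, rfl⟩
  have hW1f : W1.FiniteIndex := by
    constructor
    rw [hW1, Subgroup.index_map_subtype]
    exact mul_ne_zero hWf.index_ne_zero hVf.index_ne_zero
  have hcW1 : ∀ v ∈ V, ∀ x ∈ W1, v * x * v⁻¹ ∈ W1 := by
    rintro v hv _ ⟨x, hxW, rfl⟩
    exact ⟨⟨v, hv⟩ * x * ⟨v, hv⟩⁻¹, hWn.conj_mem x hxW _, rfl⟩
  have hcW2 : ∀ v ∈ V, ∀ x, (v * x * v⁻¹ ∈ W1 ↔ x ∈ W1) := by
    intro v hv x
    constructor
    · intro h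
      have h1 := hcW1 v⁻¹ (V.inv_mem hv) _ h
      have h2 : v⁻¹ * (v * x * v⁻¹) * v⁻¹⁻¹ = x := by group
      rwa [h2] at h1
    · intro h
      exact hcW1 v hv x h
  have hW1Θ : ∀ z, (Θ z ∈ W1 ↔ z ∈ W1) := by
    have h0 : ∀ z : V, (Θ z ∈ W1 ↔ (z : G) ∈ W1) := by
      intro z
      have h1 : ((itr (rst θ V hQ) (s * r) z : V) : G) = Θ z := by
        rw [itr_rst]
      rw [hmemW1, ← h1, hmemW1]
      conv_rhs => rw [← hWs]
      rfl
    intro z
    constructor
    · intro h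
      have hz : z ∈ V := (hVΘ z).1 (hW1V h)
      exact (h0 ⟨z, hz⟩).1 h
    · intro h
      exact (h0 ⟨z, hW1V h⟩).2 h
  set K : Subgroup G := W1.normalCore with hK
  have hKmem : ∀ x, x ∈ K ↔ ∀ g : G, g * x * g⁻¹ ∈ W1 := fun x => Iff.rfl
  have hKS : S K := by
    refine ⟨inferInstance, inferInstance, s * r, Nat.mul_pos hs hr, ?_⟩
    ext x
    rw [Subgroup.mem_comap, hKmem, hKmem]
    have h1 : ∀ g : G, (g * Θ x * g⁻¹ ∈ W1 ↔ g * x * g⁻¹ ∈ W1) := by
      intro g
      have hv : Θ g * g⁻¹ ∈ V := by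
        have h1 := hxr g
        rw [← QuotientGroup.eq_one_iff, QuotientGroup.mk_mul, h1, ← QuotientGroup.mk_mul,
          mul_inv_cancel]
        rfl
      rw [← hcW2 _ hv, ← hW1Θ (g * x * g⁻¹), map_mul, map_mul, map_inv]
      have h2 : Θ g * g⁻¹ * (g * Θ x * g⁻¹) * (Θ g * g⁻¹)⁻¹ = Θ g * Θ x * (Θ g)⁻¹ := by group
      rw [h2]
    exact forall_congr' h1
  have hKW : K ≤ W1 := Subgroup.normalCore_le W1
  have hdvd : W.index * V.index ∣ K.index := by
    have h1 := Subgroup.index_dvd_of_le hKW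
    rw [hW1, Subgroup.index_map_subtype] at h1
    exact h1
  intro p hp hpW
  have h1 := hmax K hKS
  have hK0 : K.index ≠ 0 := hKS.2.1.index_ne_zero
  have h2 : f V < f K := by
    apply Finset.sum_lt_sum
    · intro q hq
      have h3 := (Nat.factorization_le_iff_dvd (mul_ne_zero hWf.index_ne_zero
        hVf.index_ne_zero) hK0).2 hdvd q
      rw [Nat.factorization_mul hWf.index_ne_zero hVf.index_ne_zero, Finsupp.add_apply] at h3
      omega
    · refine ⟨p, hp, ?_⟩
      have h3 := (Nat.factorization_le_iff_dvd (mul_ne_zero hWf.index_ne_zero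
        hVf.index_ne_zero) hK0).2 hdvd p
      rw [Nat.factorization_mul hWf.index_ne_zero hVf.index_ne_zero, Finsupp.add_apply] at h3
      have h4 : 0 < W.index.factorization p :=
        (hP p hp).factorization_pos_of_dvd hWf.index_ne_zero hpW
      omega
  omega

/-- the residual part -/
theorem residM {G : Type} [Group G] [Group.FG G] (θ : G →* G)
    (hinj : Function.Injective θ) (hfin : θ.range.FiniteIndex)
    (X : Subgroup G) (hXn : X.Normal) (hXf : X.FiniteIndex) (hXθ : ∀ x ∈ X, θ x ∈ X)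
    (hcen : ∀ E F : Subgroup G, E.Normal → F.Normal →
      F ≤ E → F.relIndex E ≠ 0 → F.relIndex E ≤ θ.range.index → ⁅X, E⁆ ≤ F)
    (b : ℕ) (x : X)
    (hloc : ∀ p : ℕ, p.Prime → p ∣ θ.range.index →
      (∀ A : Subgroup G, A.Normal → A.FiniteIndex → (∀ x ∈ A, θ x ∈ A) → A ≤ X → ∀ m : ℕ,
        (A.comap (itr θ m)).comap θ = A.comap (itr θ m) → ∀ M : ℕ,
        (x : G)⁻¹ * itr θ M x ∈ A.comap (itr θ m) → ∃ e : ℕ, ¬ p ∣ e ∧
          (itr θ b ((x : G)⁻¹ * itr θ M x)) ^ e ∈ A) ∨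
      ((∀ V : Subgroup G, V.Normal → V.FiniteIndex → V.comap θ = V → ¬ p ∣ V.index) ∧
        ∀ m, x ∈ (PCN.L p m : Subgroup X)))
    (j : ℕ) : itr θ b (x : G) ∈ (itr θ j).range := by
  classical
  have hSf : (itr θ j).range.FiniteIndex :=
    ⟨by rw [itr_index θ hinj]; exact pow_ne_zero _ hfin.index_ne_zero⟩
  obtain ⟨A, hAn, hAf, hAθ, hAle⟩ := exists_A θ (X ⊓ (itr θ j).range) inferInstance
  have hAX : A ≤ X := hAle.trans inf_le_left
  have hAS : A ≤ (itr θ j).range := hAle.trans inf_le_right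
  obtain ⟨hch, m, hm⟩ := chain_unit θ hfin A hAn hAf hAθ
  have hm' := hm
  obtain ⟨C, hC⟩ : ∃ C : ℕ → Subgroup G, C = fun i => A.comap (itr θ i) := ⟨_, rfl⟩
  have hCi : ∀ i, A.comap (itr θ i) = C i := fun i => by rw [hC]
  simp only [hCi] at hch hm
  have hCn : ∀ i, (C i).Normal := fun i => by rw [hC]; infer_instance
  have h0 : C 0 = A := by
    rw [hC]
    ext x
    rfl
  have hc : ∀ i, ⁅X, C (i + 1)⁆ ≤ C i := fun i =>
    hcen (C (i + 1)) (C i) (hCn _) (hCn _) (hch i).1 (hch i).2.1 (hch i).2.2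
  have hAC : ∀ i, A ≤ C i := by
    intro i
    induction i with
    | zero => rw [h0]
    | succ i ih => exact ih.trans (hch i).1
  have hCmn : (C m).Normal := hCn m
  have hVf : (C m).FiniteIndex := Subgroup.finiteIndex_of_le (hAC m)
  -- the subgroup `Y`
  obtain ⟨Y, hYdef⟩ : ∃ Y : Subgroup G, Y = C m ⊓ X := ⟨_, rfl⟩
  have hYn : Y.Normal := by rw [hYdef]; infer_instance
  have hYC : Y ≤ C m := by rw [hYdef]; exact inf_le_left
  have hYX : Y ≤ X := by rw [hYdef]; exact inf_le_right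
  have hAY : A ≤ Y := by rw [hYdef]; exact le_inf (hAC m) hAX
  have hYf : Y.FiniteIndex := Subgroup.finiteIndex_of_le hAY
  have hYinv : ∀ y ∈ Y, θ y ∈ Y := by
    intro y hy
    have h1 : y ∈ (C m).comap θ := by rw [hm]; exact hYC hy
    rw [hYdef]
    exact ⟨h1, hXθ y (hYX hy)⟩
  have hYi : ∀ (k : ℕ) (y : G), y ∈ Y → itr θ k y ∈ Y := by
    intro k
    induction k with
    | zero => intro y hy; exact hy
    | succ k ih => intro y hy; rw [itr_succ]; exact hYinv _ (ih y hy)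
  have hXi : ∀ (k : ℕ) (y : G), y ∈ X → itr θ k y ∈ X := by
    intro k
    induction k with
    | zero => intro y hy; exact hy
    | succ k ih => intro y hy; rw [itr_succ]; exact hXθ _ (ih y hy)
  have hAi : ∀ (k : ℕ) (y : G), y ∈ A → itr θ k y ∈ A := by
    intro k
    induction k with
    | zero => intro y hy; exact hy
    | succ k ih => intro y hy; rw [itr_succ]; exact hAθ _ (ih y hy)
  -- a power of the endomorphism
  obtain ⟨r, hr, hrx⟩ := UNI_order θ (C m) hm
  have hrk : ∀ k : ℕ, ((itr θ (r * k) (x : G) : G) : G ⧸ C m) = ((x : G) : G ⧸ C m) := by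
    intro k
    induction k with
    | zero => rfl
    | succ k ih =>
      have e : r * (k + 1) = r + r * k := by ring
      rw [e, itr_add, hrx, ih]
  obtain ⟨M, hMj, hMx⟩ : ∃ M : ℕ, j ≤ M ∧
      ((itr θ M (x : G) : G) : G ⧸ C m) = ((x : G) : G ⧸ C m) := by
    refine ⟨r * j, ?_, hrk _⟩
    calc j ≤ 1 * j := by omega
      _ ≤ r * j := Nat.mul_le_mul_right _ hr
  have hyC : (x : G)⁻¹ * itr θ M x ∈ C m := QuotientGroup.eq.1 hMx.symm
  have hyX : (x : G)⁻¹ * itr θ M x ∈ X := X.mul_mem (X.inv_mem x.2) (hXi M x x.2)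
  have hyY : (x : G)⁻¹ * itr θ M x ∈ Y := by
    rw [hYdef]
    exact ⟨hyC, hyX⟩
  obtain ⟨z, hz⟩ : ∃ z, z = itr θ b ((x : G)⁻¹ * itr θ M x) := ⟨_, rfl⟩
  have hzY : z ∈ Y := by rw [hz]; exact hYi b _ hyY
  -- the local statement
  let A1 : Subgroup X := A.subgroupOf X
  have hA1n : A1.Normal := inferInstance
  have hfin1 : Finite (X ⧸ A1) := inferInstance
  have hex : ∀ p : ℕ, p.Prime → p ∣ θ.range.index → ∃ e : ℕ, ¬ p ∣ e ∧ z ^ e ∈ A := by
    intro p hp hpD
    rcases hloc p hp hpD with h1 | ⟨hN, hxL⟩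
    · obtain ⟨e, he, heA⟩ := h1 A hAn hAf hAθ hAX m hm' M (by rw [hCi]; exact hyC)
      exact ⟨e, he, by rw [hz]; exact heA⟩
    · have hpf : Fact p.Prime := ⟨hp⟩
      have hV : ¬ p ∣ (C m).index := hN (C m) (hCn m) hVf hm
      have h1 : ¬ p ∣ (Subgroup.upperCentralSeries (X ⧸ A1) m).index := by
        intro h
        apply hV
        have h2 : ((C m).subgroupOf X) ≤
            (Subgroup.upperCentralSeries (X ⧸ A1) m).comap (QuotientGroup.mk' A1) := by
          intro x hx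
          exact ucs_ge X A hAn C h0 hc m x hx
        have h3 := Subgroup.index_dvd_of_le h2
        rw [Subgroup.index_comap_of_surjective _ (QuotientGroup.mk'_surjective _)] at h3
        have h4 : ((C m).subgroupOf X).index ∣ (C m).index :=
          Subgroup.relIndex_dvd_index_of_normal _ _
        exact h.trans (h3.trans h4)
      obtain ⟨R, hRn, ⟨a, ha⟩, hR⟩ := p_compl m h1
      obtain ⟨l, hl⟩ := term_le p a (R.comap (QuotientGroup.mk' A1)) (hRn.comap _) (by
        rw [Subgroup.index_comap_of_surjective _ (QuotientGroup.mk'_surjective _), ha])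
      have h5 : QuotientGroup.mk' A1 x ∈ R := hl (hxL l)
      have h6 : QuotientGroup.mk' A1 (itr (rst θ X hXθ) M x) ∈ R := by
        apply hl
        exact L_hom p (itr (rst θ X hXθ) M) l x (hxL l)
      have h7 : QuotientGroup.mk' A1 (x⁻¹ * itr (rst θ X hXθ) M x) ∈ R := by
        rw [map_mul, map_inv]
        exact R.mul_mem (R.inv_mem h5) h6
      refine ⟨Nat.card R, hR, ?_⟩
      have h8 : (QuotientGroup.mk' A1 (x⁻¹ * itr (rst θ X hXθ) M x)) ^ Nat.card R = 1 := by
        have h9 : (⟨_, h7⟩ : R) ^ Nat.card R = 1 := pow_card_eq_one'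
        exact congrArg Subtype.val h9
      rw [← map_pow] at h8
      have h9 : (x⁻¹ * itr (rst θ X hXθ) M x) ^ Nat.card R ∈ A1 :=
        (QuotientGroup.eq_one_iff _).1 h8
      have h10 : ((x : G)⁻¹ * itr θ M x) ^ Nat.card R ∈ A := by
        have h11 : (((x⁻¹ * itr (rst θ X hXθ) M x) ^ Nat.card R : X) : G) ∈ A := h9
        rw [Subgroup.coe_pow, Subgroup.coe_mul, Subgroup.coe_inv, itr_rst] at h11
        exact h11
      rw [hz, ← map_pow]
      exact hAi b _ h10
  -- a common exponent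
  have hYA1 : (A.subgroupOf Y).Normal := inferInstance
  have hfinY : Finite (Y ⧸ A.subgroupOf Y) := inferInstance
  set q : Y ⧸ A.subgroupOf Y := ((⟨z, hzY⟩ : Y) : Y ⧸ A.subgroupOf Y) with hq
  have hqe : ∀ e : ℕ, z ^ e ∈ A → q ^ e = 1 := by
    intro e he
    show (((⟨z, hzY⟩ : Y) ^ e : Y) : Y ⧸ A.subgroupOf Y) = 1
    rw [QuotientGroup.eq_one_iff]
    exact he
  have hcop : Nat.Coprime (orderOf q) (θ.range.index ^ j) := by
    apply Nat.Coprime.pow_right
    apply Nat.Coprime.symm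
    apply Nat.coprime_of_dvd
    intro p hp hpD hpq
    obtain ⟨e, he, heA⟩ := hex p hp hpD
    exact he (hpq.trans (orderOf_dvd_of_pow_eq_one (hqe e heA)))
  -- nilpotency
  have hlcs : ∀ i, i ≤ m → Y.lowerCentralSeries i ≤ C (m - i) := by
    intro i
    induction i with
    | zero =>
      intro _
      exact hYC
    | succ i ih =>
      intro hi
      have h1 := ih (by omega)
      have h2 : m - i = (m - (i + 1)) + 1 := by omega
      rw [h2] at h1
      rw [Subgroup.lowerCentralSeries_succ]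
      rw [Subgroup.commutator_comm]
      exact (Subgroup.commutator_mono hYX h1).trans (hc _)
  have hnil : Group.IsNilpotent (Y ⧸ A.subgroupOf Y) := by
    rw [Subgroup.nilpotent_iff_lowerCentralSeries]
    refine ⟨m, ?_⟩
    have h1 : (⊤ : Subgroup (Y ⧸ A.subgroupOf Y)) =
        (⊤ : Subgroup Y).map (QuotientGroup.mk' (A.subgroupOf Y)) := by
      rw [← MonoidHom.range_eq_map, MonoidHom.range_eq_top.2 (QuotientGroup.mk'_surjective _)]
    rw [h1, ← Subgroup.map_lowerCentralSeries, eq_bot_iff]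
    rintro _ ⟨y, hy, rfl⟩
    rw [Subgroup.mem_bot]
    have h2 : (y : G) ∈ Y.lowerCentralSeries m := by
      rw [← Subgroup.top_subtype_lowerCentralSeries]
      exact ⟨y, hy, rfl⟩
    have h3 := hlcs m le_rfl h2
    rw [Nat.sub_self, h0] at h3
    exact (QuotientGroup.eq_one_iff y).2 h3
  -- `z` is in the image
  have hzS : z ∈ (itr θ j).range := by
    have h1 : ((((itr θ j).range.subgroupOf Y).map (QuotientGroup.mk' (A.subgroupOf Y))).index) ∣
        θ.range.index ^ j := by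
      refine (Subgroup.index_map_dvd _ (QuotientGroup.mk'_surjective _)).trans ?_
      rw [← itr_index θ hinj]
      exact rel_dvd (itr θ j).range Y hYf.index_ne_zero
    have h2 := INJ.nil_root
      (((itr θ j).range.subgroupOf Y).map (QuotientGroup.mk' (A.subgroupOf Y)))
      ⟨fun h => by
        rw [h] at h1
        exact pow_ne_zero _ hfin.index_ne_zero (Nat.eq_zero_of_zero_dvd h1)⟩ (orderOf q)
      (hcop.coprime_dvd_right h1) q (by
        rw [pow_orderOf_eq_one]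
        exact one_mem _)
    obtain ⟨y, hy, hyq⟩ := h2
    have h3 : (y : Y)⁻¹ * ⟨z, hzY⟩ ∈ A.subgroupOf Y := QuotientGroup.eq.1 hyq
    have h4 : (y : G)⁻¹ * z ∈ A := h3
    have h5 : z = (y : G) * ((y : G)⁻¹ * z) := by group
    rw [h5]
    exact mul_mem hy (hAS h4)
  have hjr : itr θ b (itr θ M x) ∈ (itr θ j).range := by
    refine ⟨itr θ (b + M - j) x, ?_⟩
    rw [← itr_add, ← itr_add, Nat.add_sub_cancel' (by omega)]
  have h1 : itr θ b (x : G) = itr θ b (itr θ M x) * z⁻¹ := by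
    rw [hz, map_mul (itr θ b) (x : G)⁻¹, map_inv]
    group
  rw [h1]
  exact mul_mem hjr (inv_mem hzS)

end BCX
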