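import Pool.Agent.BCX.Mx1

/-!
# The criterion with kernels: core
-/

set_option autoImplicit false

open EssMap
open scoped commutatorElement

namespace BCX

/-- the bound for the unit quotients of the pair `(X, η)` -/
def UB {X : Type} [Group X] (η : X →* X) (p : ℕ) : Prop :=
  ∃ B : ℕ, ∀ V : Subgroup X, V.Normal → V.FiniteIndex → V.comap η = V → ¬ p ^ B ∣ V.index

/-- at a prime: bounded kernels, or bounded unit quotients and no unit quotient of `Q` itself -/
theorem coreM {Q : Type} [Group Q] [Group.FG Q] (φ : Q →* Q)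
    (hinj : Function.Injective φ) (hfin : φ.range.FiniteIndex)
    (hcap : ∀ q : Q, (∀ k : ℕ, q ∈ Set.range (φ^[k])) → q = 1)
    (hloc : ∀ p : ℕ, p.Prime → p ∣ φ.range.index →
      (∃ c : ℕ, 1 ≤ c ∧ ∃ (B : ℕ) (Q₀ : Subgroup Q), Q₀.FiniteIndex ∧
        INJ.KerBddP φ c B p Q₀) ∨
      ((∀ V : Subgroup Q, V.Normal → V.FiniteIndex → V.comap φ = V → ¬ p ∣ V.index) ∧
        ∀ (X : Subgroup Q) (hX : ∀ x ∈ X, φ x ∈ X), X.FiniteIndex → UB (rst φ X hX) p)) :
    ∃ N : Subgroup Q, N.FiniteIndex ∧ Group.IsNilpotent N := by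
  classical
  have hD0 : φ.range.index ≠ 0 := hfin.index_ne_zero
  let P : Finset ℕ := φ.range.index.primeFactors
  have hP : ∀ p, p ∈ P ↔ p.Prime ∧ p ∣ φ.range.index := by
    intro p
    show p ∈ φ.range.index.primeFactors ↔ _
    rw [Nat.mem_primeFactors]
    exact ⟨fun h => ⟨h.1, h.2.1⟩, fun h => ⟨h.1, h.2, hD0⟩⟩
  -- the local data
  have hdat : ∀ p : ℕ, ∃ (X₁ : Subgroup Q) (b c : ℕ), X₁.FiniteIndex ∧
      (p.Prime → p ∣ φ.range.index →
        (∀ X : Subgroup Q, X.Normal → X.FiniteIndex → (∀ x ∈ X, φ x ∈ X) → X ≤ X₁ →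
          ∀ A : Subgroup Q, A.Normal → A.FiniteIndex → (∀ x ∈ A, φ x ∈ A) → A ≤ X → ∀ m : ℕ,
          (A.comap (itr φ m)).comap φ = A.comap (itr φ m) → ∀ (M : ℕ) (x : Q),
          x ∈ X.lowerCentralSeries c → x⁻¹ * itr φ M x ∈ A.comap (itr φ m) →
            ∃ e : ℕ, ¬ p ∣ e ∧ (itr φ b (x⁻¹ * itr φ M x)) ^ e ∈ A) ∨
        ((∀ V : Subgroup Q, V.Normal → V.FiniteIndex → V.comap φ = V → ¬ p ∣ V.index) ∧
          ∀ (X : Subgroup Q) (hX : ∀ x ∈ X, φ x ∈ X), X.FiniteIndex →
            UB (rst φ X hX) p)) := by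
    intro p
    by_cases hp : p.Prime ∧ p ∣ φ.range.index
    · rcases hloc p hp.1 hp.2 with ⟨c, hc1, B, Q₀, hQ₀, hK⟩ | h
      · obtain ⟨X₁, b, h1, h2⟩ := INJ.localK φ hinj hfin c hc1 p hp.1 B Q₀ hQ₀ hK
        exact ⟨X₁, b, c, h1, fun _ _ => Or.inl h2⟩
      · exact ⟨⊤, 0, 0, inferInstance, fun _ _ => Or.inr h⟩
    · exact ⟨⊤, 0, 0, inferInstance, fun h1 h2 => absurd ⟨h1, h2⟩ hp⟩
  choose X₁ b c hX₁ hd using hdat
  let PU : Finset ℕ := P.filter (fun p =>
    (∀ V : Subgroup Q, V.Normal → V.FiniteIndex → V.comap φ = V → ¬ p ∣ V.index) ∧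
      ∀ (X : Subgroup Q) (hX : ∀ x ∈ X, φ x ∈ X), X.FiniteIndex → UB (rst φ X hX) p)
  have hPU : ∀ p ∈ PU, (p.Prime ∧ p ∣ φ.range.index) ∧
      (∀ V : Subgroup Q, V.Normal → V.FiniteIndex → V.comap φ = V → ¬ p ∣ V.index) ∧
      ∀ (X : Subgroup Q) (hX : ∀ x ∈ X, φ x ∈ X), X.FiniteIndex → UB (rst φ X hX) p := by
    intro p hp
    have h1 := Finset.mem_filter.1 hp
    exact ⟨(hP p).1 h1.1, h1.2⟩
  let XX : Subgroup Q := ⨅ p : P, X₁ p
  have hXXf : XX.FiniteIndex := Subgroup.finiteIndex_iInf fun p => hX₁ p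
  obtain ⟨G1, hG1n, hG1f, hcen⟩ := exists_cen (G := Q) φ.range.index
  obtain ⟨X, hXn, hXf, hXφ, hXle⟩ := exists_A φ (XX ⊓ G1) inferInstance
  have hXG1 : X ≤ G1 := hXle.trans inf_le_right
  have hXX : X ≤ XX := hXle.trans inf_le_left
  have hcen' : ∀ E F : Subgroup Q, E.Normal → F.Normal →
      F ≤ E → F.relIndex E ≠ 0 → F.relIndex E ≤ φ.range.index → ⁅X, E⁆ ≤ F :=
    fun E F hE hF hFE h1 h2 =>
      (Subgroup.commutator_mono hXG1 le_rfl).trans (hcen E F hE hF hFE h1 h2)
  have hXfg : Group.FG X := inferInstance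
  obtain ⟨Y, hY, hYn, hYf, hYu⟩ := max_unit1 (rst φ X hXφ) PU (fun p hp => (hPU p hp).1.1)
    (fun p hp => (hPU p hp).2.2 X hXφ hXf)
  have hYfg : Group.FG Y := inferInstance
  set ψ : Y →* Y := rst (rst φ X hXφ) Y hY with hψ
  have hψf : ψ.range.FiniteIndex :=
    rst_fin (rst_inj hinj X hXφ) (rst_fin hinj hfin X hXf hXφ) Y hYf hY
  -- contraction modulo the primes in `PU`
  have hcon : ∀ p : ℕ, ∃ n w : ℕ, (p ∈ PU →
      (PCN.L p n : Subgroup Y).FiniteIndex ∧
      ∀ x : Y, x ∈ (⊤ : Subgroup Y).lowerCentralSeries w → x ∈ (PCN.L p n : Subgroup Y) →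
        ∀ m, x ∈ (PCN.L p m : Subgroup Y)) := by
    intro p
    by_cases hp : p ∈ PU
    · have hpf : Fact p.Prime := ⟨(hPU p hp).1.1⟩
      have hW : Finite (Y →* Multiplicative (ZMod p)) := finite_hom Y (Multiplicative (ZMod p))
      obtain ⟨n, hn, hi⟩ := exists_idem_iter
        (fun c : Y →* Multiplicative (ZMod p) => c.comp ψ)
      have hT : ∀ (k : ℕ) (c : Y →* Multiplicative (ZMod p)) (x : Y),
          ((fun c : Y →* Multiplicative (ZMod p) => c.comp ψ)^[k] c) x = c (ψ^[k] x) := by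
        intro k
        induction k with
        | zero => intro c x; rfl
        | succ k ih =>
          intro c x
          rw [Function.iterate_succ_apply, ih, Function.iterate_succ_apply']
          rfl
      have hz : ∀ (c : Y →* Multiplicative (ZMod p)) (x : Y), c (ψ^[n] x) = 1 := by
        intro c x
        have h1 := no_char ψ p n hn
          (fun m W hm hWn hWf hW => hYu m W hm hWn hWf hW p hp)
          ((fun c : Y →* Multiplicative (ZMod p) => c.comp ψ)^[n] c) (fun y => by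
            have h2 := DFunLike.congr_fun (hi c) y
            rw [hT n _ y] at h2
            exact h2)
        rw [← hT, h1]
        rfl
      obtain ⟨n', w, h1, h2⟩ := contr_core p ψ hψf n (fun x => by
        apply mem_L_one
        intro c
        exact hz c x)
      exact ⟨n', w, fun _ => ⟨h1, h2⟩⟩
    · exact ⟨0, 0, fun h1 => absurd h1 hp⟩
  choose n w hnw using hcon
  let N : Subgroup Y := ⨅ p : PU, PCN.L (p : ℕ) (n p)
  have hNf : N.FiniteIndex := by
    apply Subgroup.finiteIndex_iInf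
    intro p
    exact (hnw p p.2).1
  let w0 : ℕ := max (PU.sup w) (P.sup c)
  let b0 : ℕ := P.sup b
  have hbot : (⊤ : Subgroup N).lowerCentralSeries w0 = ⊥ := by
    rw [eq_bot_iff]
    intro y hy
    have h1 : (N.subtype y) ∈ (⊤ : Subgroup Y).lowerCentralSeries w0 := by
      have h2 : ((⊤ : Subgroup N).lowerCentralSeries w0).map N.subtype ≤
          (⊤ : Subgroup Y).lowerCentralSeries w0 := by
        rw [Subgroup.map_lowerCentralSeries]
        exact Subgroup.lowerCentralSeries_mono w0 le_top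
      exact h2 ⟨y, hy, rfl⟩
    have h1' : ((Y.subtype (N.subtype y) : X) : Q) ∈ X.lowerCentralSeries w0 := by
      have h2 : ((⊤ : Subgroup Y).lowerCentralSeries w0).map (X.subtype.comp Y.subtype) ≤
          X.lowerCentralSeries w0 := by
        rw [Subgroup.map_lowerCentralSeries]
        apply Subgroup.lowerCentralSeries_mono
        rintro _ ⟨z, -, rfl⟩
        exact (Y.subtype z).2
      exact h2 ⟨_, h1, rfl⟩
    have h3 : ∀ p ∈ PU, ∀ m, Y.subtype (N.subtype y) ∈ (PCN.L p m : Subgroup X) := by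
      intro p hp m
      apply L_hom p Y.subtype m
      refine (hnw p hp).2 _ ?_ ?_ m
      · exact Subgroup.lowerCentralSeries_antitone _
          ((Finset.le_sup hp).trans (le_max_left _ _)) h1
      · exact (Subgroup.mem_iInf.1 y.2) ⟨p, hp⟩
    have h4 : itr φ b0 ((Y.subtype (N.subtype y) : X) : Q) = 1 := by
      apply hcap
      intro k
      obtain ⟨z, hz⟩ := residM φ hinj hfin X hXn hXf hXφ hcen' b0 (Y.subtype (N.subtype y))
        (fun p hp hpD => by
          have hpP : p ∈ P := (hP p).2 ⟨hp, hpD⟩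
          rcases hd p hp hpD with h5 | h5
          · left
            intro A hAn hAf hAφ hAX m hm M hM
            obtain ⟨e, he, heA⟩ := h5 X hXn hXf hXφ
              (hXX.trans (iInf_le (fun q : P => X₁ q) ⟨p, hpP⟩)) A hAn hAf hAφ hAX m hm M _
              (Subgroup.lowerCentralSeries_antitone _
                ((Finset.le_sup hpP).trans (le_max_right _ _)) h1') hM
            refine ⟨e, he, ?_⟩
            have h6 : b p ≤ b0 := Finset.le_sup hpP
            have h7 : b0 = (b0 - b p) + b p := by omega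
            rw [h7, itr_add, ← map_pow]
            exact INJ.itr_inv φ A hAφ _ _ heA
          · right
            exact ⟨h5.1, h3 p (Finset.mem_filter.2 ⟨hpP, h5⟩)⟩) k
      exact ⟨z, by rw [← itr_eq_iterate]; exact hz⟩
    have h5 : ((Y.subtype (N.subtype y) : X) : Q) = 1 :=
      itr_inj hinj b0 (h4.trans (map_one _).symm)
    rw [Subgroup.mem_bot]
    exact Subtype.ext (Subtype.ext (Subtype.ext h5))
  have hNn : Group.IsNilpotent N := by
    rw [Subgroup.nilpotent_iff_lowerCentralSeries]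
    exact ⟨w0, hbot⟩
  have hinjX : Function.Injective (X.subtype.comp Y.subtype) :=
    X.subtype_injective.comp Y.subtype_injective
  refine ⟨N.map (X.subtype.comp Y.subtype), ⟨?_⟩, ?_⟩
  · rw [Subgroup.index_map_of_injective _ hinjX, MonoidHom.range_comp, Subgroup.range_subtype,
      Subgroup.index_map_subtype]
    exact mul_ne_zero hNf.index_ne_zero (mul_ne_zero hYf.index_ne_zero hXf.index_ne_zero)
  · exact Group.nilpotent_of_mulEquiv (N.equivMapOfInjective _ hinjX)

end BCX
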