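import Pool.Agent.BCX.Mix

/-!
# The unit quotients of the group bound the unit quotients of its subgroups
-/

set_option autoImplicit false

open EssMap

namespace BCX

/-- If the `p`-parts of the orders of the unit quotients of `Q` are bounded, then so are those of
all the small subgroups. -/
theorem bdd_of_top {Q : Type} [Group Q] (hfg : Group.FG Q) (φ : Q →* Q) (Q₀ : Subgroup Q) (p : ℕ)
    (h : ∃ B : ℕ, ∀ W : Subgroup Q, W.Normal → W.FiniteIndex → W.comap φ = W →
      ¬ p ^ B ∣ W.index) : BddUnits φ Q₀ p := by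
  obtain ⟨B, hB⟩ := h
  intro X m _ hXf hm hX
  refine ⟨B, fun V hVn hVf hV hdvd => ?_⟩
  have hV'f : (V.map X.subtype).FiniteIndex := ⟨by
    rw [Subgroup.index_map_subtype]
    exact mul_ne_zero hVf.index_ne_zero hXf.index_ne_zero⟩
  obtain ⟨N, hNn, hNf, hNφ, hNV⟩ := exists_A φ (V.map X.subtype) hV'f
  have hNk : ∀ (l : ℕ) (x : Q), x ∈ N → φ^[l] x ∈ N := by
    intro l
    induction l with
    | zero => exact fun x hx => hx
    | succ l ih =>
      intro x hx
      rw [Function.iterate_succ_apply]
      exact ih _ (hNφ x hx)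
  let W : Subgroup Q :=
    { carrier := {x | ∃ k : ℕ, φ^[k] x ∈ N}
      one_mem' := ⟨0, N.one_mem⟩
      mul_mem' := by
        rintro a b ⟨k, hk⟩ ⟨l, hl⟩
        refine ⟨k + l, ?_⟩
        rw [iterate_map_mul]
        refine N.mul_mem ?_ ?_
        · rw [add_comm, Function.iterate_add_apply]
          exact hNk l _ hk
        · rw [Function.iterate_add_apply]
          exact hNk k _ hl
      inv_mem' := by
        rintro a ⟨k, hk⟩
        exact ⟨k, by rw [iterate_map_inv]; exact N.inv_mem hk⟩ }
  have hNW : N ≤ W := fun x hx => ⟨0, hx⟩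
  have hWf : W.FiniteIndex := Subgroup.finiteIndex_of_le hNW
  have hWn : W.Normal := ⟨by
    rintro x ⟨k, hk⟩ g
    refine ⟨k, ?_⟩
    rw [iterate_map_mul, iterate_map_mul, iterate_map_inv]
    exact hNn.conj_mem _ hk _⟩
  have hWc : W.comap φ = W := by
    ext x
    constructor
    · rintro ⟨k, hk⟩
      exact ⟨k + 1, hk⟩
    · rintro ⟨k, hk⟩
      refine ⟨k, ?_⟩
      rw [← Function.iterate_succ_apply, Function.iterate_succ_apply']
      exact hNφ _ hk
  refine hB W hWn hWf hWc ?_
  have hVk : ∀ (k : ℕ) (x : X), itr (rst (itr φ m) X hX) k x ∈ V → x ∈ V := by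
    intro k
    induction k with
    | zero => exact fun x hx => hx
    | succ k ih =>
      intro x hx
      rw [itr_succ'] at hx
      have h1 := ih _ hx
      rw [← hV]
      exact h1
  have h1 : W.subgroupOf X ≤ V := by
    intro x hx
    obtain ⟨k, hk⟩ : ∃ k : ℕ, φ^[k] (x : Q) ∈ N := hx
    apply hVk k
    have h2 : φ^[m * k] (x : Q) ∈ N := by
      obtain ⟨l, hl⟩ : ∃ l, m * k = l + k := ⟨m * k - k, by
        have := Nat.le_mul_of_pos_left k hm
        omega⟩
      rw [hl, Function.iterate_add_apply]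
      exact hNk l _ hk
    have h3 : ((itr (rst (itr φ m) X hX) k x : X) : Q) ∈ N := by
      rw [itr_rst, itr_mulP, itr_eq_iterate]
      exact h2
    obtain ⟨y, hy, hyx⟩ := hNV h3
    have h4 : y = itr (rst (itr φ m) X hX) k x := Subtype.ext hyx
    rw [← h4]
    exact hy
  have h2 : (W.subgroupOf X).index ∣ W.index := Subgroup.relIndex_dvd_index_of_normal W X
  exact hdvd.trans ((Subgroup.index_dvd_of_le h1).trans h2)

end BCX
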