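import Pool.Agent.BCX.Mx2
import Pool.Agent.BCX.Utop

/-!
# The criterion, prime by prime: the equivalence
-/

set_option autoImplicit false

open CategoryTheory groupCohomology EssMap
open scoped commutatorElement

namespace BCX

/-- the kernel condition passes to invariant subgroups of finite index -/
theorem kerBddP_sub {Q : Type} [Group Q] (φ : Q →* Q) (c B p : ℕ) (Q₀ : Subgroup Q)
    (h : INJ.KerBddP φ c B p Q₀) (G : Subgroup Q) (hGf : G.FiniteIndex)
    (hG : ∀ x ∈ G, φ x ∈ G) : INJ.KerBddP (rst φ G hG) c B p (Q₀.subgroupOf G) := by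
  intro X hXf hXQ hX k
  have hι : Function.Injective G.subtype := G.subtype_injective
  have h1 := h (X.map G.subtype) ⟨by
      rw [Subgroup.index_map_subtype]
      exact mul_ne_zero hXf.index_ne_zero hGf.index_ne_zero⟩ (by
      rintro _ ⟨x, hx, rfl⟩
      exact hXQ hx) (by
      rintro _ ⟨x, hx, rfl⟩
      exact ⟨rst φ G hG x, hX x hx, rfl⟩) k
  have h2 : (X.map G.subtype).lowerCentralSeries c = (X.lowerCentralSeries c).map G.subtype :=
    (Subgroup.map_lowerCentralSeries _ _ _).symm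
  have h3 : X.map G.subtype ⊓ ((X.map G.subtype).lowerCentralSeries c).comap (itr φ k) =
      (X ⊓ (X.lowerCentralSeries c).comap (itr (rst φ G hG) k)).map G.subtype := by
    rw [h2]
    ext x
    constructor
    · rintro ⟨⟨y, hy, rfl⟩, hk⟩
      refine ⟨y, ⟨hy, ?_⟩, rfl⟩
      obtain ⟨z, hz, hzy⟩ := hk
      have h4 : z = itr (rst φ G hG) k y := by
        apply Subtype.ext
        rw [itr_rst]
        exact hzy
      show itr (rst φ G hG) k y ∈ X.lowerCentralSeries c
      rw [← h4]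
      exact hz
    · rintro ⟨y, ⟨hy, hk⟩, rfl⟩
      refine ⟨⟨y, hy, rfl⟩, itr (rst φ G hG) k y, hk, ?_⟩
      exact itr_rst φ G hG k y
  rw [h3, h2, Subgroup.relIndex_map_map_of_injective _ _ hι] at h1
  exact h1

/-- For the subgroups `X` of finite index that are the full preimage of themselves under a power
of `θ`: the cohomology is finitely generated up to degree `n`, and the Euler characteristics of
the unit parts are bounded, none of them zero. -/
def EulerU (n p : ℕ) {G : Type} [Group G] (θ : G →* G) : Prop :=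
  ∃ B : ℕ, ∀ (X : Subgroup G) (m : ℕ), X.FiniteIndex → 0 < m → X.comap (itr θ m) = X →
    ∀ hX : (∀ x ∈ X, itr θ m x ∈ X), (∀ i, i ≤ n → Module.Finite ℤ (HZ X i)) ∧
      eu n p (rst (itr θ m) X hX) ≠ od n p (rst (itr θ m) X hX) ∧
      eu n p (rst (itr θ m) X hX) ≤ p ^ B * od n p (rst (itr θ m) X hX) ∧
      od n p (rst (itr θ m) X hX) ≤ p ^ B * eu n p (rst (itr θ m) X hX)

/-- the `p`-parts of the unit quotients are bounded -/
theorem unit_bddU {n : ℕ} (hn0 : 0 < n) {X : Type} [Group X] (hX : Dual n X)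
    (ho : Ori n X = ⊤) (η : X →* X) (hinj : Function.Injective η) (hfin : η.range.FiniteIndex)
    (p : ℕ) (hp0 : p.Prime) (hp : p ∣ η.range.index) (hE : EulerU n p η) :
    ∃ B : ℕ, ∀ V : Subgroup X, V.Normal → V.FiniteIndex → V.comap η = V →
      ¬ p ^ B ∣ V.index := by
  have hpf : Fact p.Prime := ⟨hp0⟩
  obtain ⟨B, hE⟩ := hE
  refine ⟨B + 1, fun V hV hVf h hdvd => ?_⟩
  obtain ⟨m, hm, hx⟩ := UNI_order η V h
  have hfinQ : Finite (X ⧸ V) := Subgroup.finite_quotient_of_finiteIndex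
  let P : Sylow p (X ⧸ V) := default
  let X' : Subgroup X := (P : Subgroup (X ⧸ V)).comap (QuotientGroup.mk' V)
  have hmemX : ∀ x : X, x ∈ X' ↔ (x : X ⧸ V) ∈ (P : Subgroup (X ⧸ V)) := fun x => Iff.rfl
  have hVX : V ≤ X' := by
    intro x hx
    rw [hmemX, (QuotientGroup.eq_one_iff x).2 hx]
    exact one_mem _
  have hXf : X'.FiniteIndex := Subgroup.finiteIndex_of_le hVX
  have hX' : ∀ x ∈ X', itr η m x ∈ X' := by
    intro x hxX
    rw [hmemX] at hxX ⊢
    rw [hx]
    exact hxX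
  have hX'c : X'.comap (itr η m) = X' := by
    ext x
    rw [Subgroup.mem_comap, hmemX, hmemX, hx]
  have hVi : ∀ x ∈ V, itr η m x ∈ V := by
    intro x hxV
    rw [← QuotientGroup.eq_one_iff] at hxV ⊢
    rw [hx, hxV]
  have hVc : V.comap (itr η m) = V := by
    ext x
    rw [Subgroup.mem_comap, ← QuotientGroup.eq_one_iff, hx, QuotientGroup.eq_one_iff]
  set V' : Subgroup X' := V.subgroupOf X' with hV'
  have hV'n : V'.Normal := by rw [hV']; infer_instance
  have hV'f : V'.FiniteIndex := by rw [hV']; infer_instance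
  have hmemV : ∀ x : X', x ∈ V' ↔ (x : X) ∈ V := fun x => Iff.rfl
  set θ' : X' →* X' := rst (itr η m) X' hX' with hθ'
  have hxV : ∀ x : X', (x⁻¹ * θ' x) ∈ V' := by
    intro x
    rw [hmemV]
    show (x : X)⁻¹ * itr η m (x : X) ∈ V
    rw [← QuotientGroup.eq]
    exact (hx x).symm
  have hU : ∀ x ∈ V', θ' x ∈ V' := by
    intro x hxV'
    have h1 := V'.mul_mem hxV' (hxV x)
    rwa [mul_inv_cancel_left] at h1
  have hpU : ∀ x : X', ∃ k : ℕ, x ^ p ^ k ∈ V' := by
    intro x
    obtain ⟨k, hk⟩ := P.2 ⟨(x : X ⧸ V), x.2⟩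
    refine ⟨k, ?_⟩
    rw [hmemV, ← QuotientGroup.eq_one_iff]
    exact congrArg Subtype.val hk
  have hcard : V'.index = Nat.card P := by
    have h1 : V.relIndex X' * X'.index = V.index := Subgroup.relIndex_mul_index hVX
    have h2 : X'.index = (P : Subgroup (X ⧸ V)).index :=
      Subgroup.index_comap_of_surjective _ (QuotientGroup.mk'_surjective V)
    have h3 : Nat.card (P : Subgroup (X ⧸ V)) * (P : Subgroup (X ⧸ V)).index = V.index :=
      Subgroup.card_mul_index _
    rw [← h3, h2] at h1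
    exact Nat.eq_of_mul_eq_mul_right (Nat.pos_of_ne_zero (h2 ▸ hXf.index_ne_zero)) h1
  have hlt : B < V'.index := by
    rw [hcard, P.card_eq_multiplicity]
    have h1 : B + 1 ≤ (Nat.card (X ⧸ V)).factorization p :=
      (hp0.pow_dvd_iff_le_factorization Nat.card_pos.ne').1 hdvd
    calc B < B + 1 := Nat.lt_succ_self B
      _ < p ^ (B + 1) := Nat.lt_pow_self hp0.one_lt
      _ ≤ _ := Nat.pow_le_pow_right hp0.pos h1
  have hinjm : Function.Injective (itr η m) := itr_inj hinj m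
  have hfinm : (itr η m).range.FiniteIndex := itr_range_finiteIndex hinj hfin m
  have hinj' : Function.Injective θ' := rst_inj hinjm X' hX'
  have hfin' : θ'.range.FiniteIndex := rst_fin hinjm hfinm X' hXf hX'
  have hp' : p ∣ θ'.range.index := by
    rw [hθ', rst_idx hinjm X' hXf hX', itr_index η hinj]
    exact dvd_pow hp hm.ne'
  have hD' : Dual n X' := hX.sub X'
  have ho' : Ori n X' = ⊤ := ori_top X' n hX.cd (by rw [ho]; exact le_top)
  obtain ⟨f1, n1, -, -⟩ := hE X' m hXf hm hX'c hX'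
  obtain ⟨f2, -, b1, b2⟩ := hE V m hVf hm hVc hVi
  -- from `V'` to `V`
  let e : V' ≃* V := Subgroup.subgroupOfEquivOfLe hVX
  have he : ∀ y : V', e (rst θ' V' hU y) = rst (itr η m) V hVi (e y) := by
    intro y
    apply Subtype.ext
    rfl
  have hub : ∀ i, ub p (pull (rst (itr η m) V hVi) i).toAddMonoidHom =
      ub p (pull (rst θ' V' hU) i).toAddMonoidHom := fun i =>
    ub_pullE p e (rst θ' V' hU) (rst (itr η m) V hVi) he i
  have hee : eu n p (rst (itr η m) V hVi) = eu n p (rst θ' V' hU) := by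
    unfold eu
    exact evp_congr n _ _ (fun i _ => hub i)
  have hoo : od n p (rst (itr η m) V hVi) = od n p (rst θ' V' hU) := by
    unfold od
    exact odp_congr n _ _ (fun i _ => hub i)
  rw [hee, hoo] at b1 b2
  have f2' : ∀ i, i ≤ n → Module.Finite ℤ (HZ V' i) := by
    intro i hi
    have := f2 i hi
    exact Module.Finite.equiv (pullE e i)
  have key := euler_unit hn0 hD' ho' θ' hinj' hfin' p hp' f1 V' hU hpU hxV f2'
  obtain ⟨a, ha⟩ := eu_pow n p θ' (fun i hi => f1 i hi.le)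
  obtain ⟨b, hb⟩ := od_pow n p θ' (fun i hi => f1 i hi.le)
  obtain ⟨c, hc⟩ := eu_pow n p (rst θ' V' hU) (fun i hi => f2' i hi.le)
  obtain ⟨d, hd⟩ := od_pow n p (rst θ' V' hU) (fun i hi => f2' i hi.le)
  rw [ha, hb, hc, hd] at key
  rw [ha, hb] at n1
  rw [hc, hd] at b1 b2
  have := ELF_arith p a b c d V'.index B hp0.one_lt n1 key b1 b2
  omega

/-- bounds for a subgroup of finite index give bounds for the group -/
theorem top_of_sub {Q : Type} [Group Q] (φ : Q →* Q) (G : Subgroup Q) (hGf : G.FiniteIndex)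
    (hG : ∀ x ∈ G, φ x ∈ G) (p : ℕ) (hp : p.Prime)
    (h : ∃ B : ℕ, ∀ V : Subgroup G, V.Normal → V.FiniteIndex → V.comap (rst φ G hG) = V →
      ¬ p ^ B ∣ V.index) :
    ∃ B : ℕ, ∀ W : Subgroup Q, W.Normal → W.FiniteIndex → W.comap φ = W →
      ¬ p ^ B ∣ W.index := by
  obtain ⟨B, hB⟩ := h
  refine ⟨B + G.index, fun W hWn hWf hW hdvd => ?_⟩
  have hV : (W.subgroupOf G).comap (rst φ G hG) = W.subgroupOf G := by
    ext x
    show φ (x : Q) ∈ W ↔ (x : Q) ∈ W
    conv_rhs => rw [← hW]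
    rfl
  have h1 : ¬ p ^ B ∣ (W.subgroupOf G).index :=
    hB (W.subgroupOf G) inferInstance inferInstance hV
  have h2 : (W.subgroupOf G).index * G.index = (W ⊓ G).index := by
    have h3 : (W ⊓ G).relIndex G * G.index = (W ⊓ G).index :=
      Subgroup.relIndex_mul_index inf_le_right
    rw [Subgroup.inf_relIndex_right] at h3
    exact h3
  have h3 : p ^ (B + G.index) ∣ (W.subgroupOf G).index * G.index := by
    rw [h2]
    exact hdvd.trans (Subgroup.index_dvd_of_le inf_le_left)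
  have hV0 : (W.subgroupOf G).index ≠ 0 := by
    have h4 : (W.subgroupOf G).FiniteIndex := inferInstance
    exact h4.index_ne_zero
  have hG0 : G.index ≠ 0 := hGf.index_ne_zero
  rw [hp.pow_dvd_iff_le_factorization (mul_ne_zero hV0 hG0), Nat.factorization_mul hV0 hG0,
    Finsupp.add_apply] at h3
  rw [hp.pow_dvd_iff_le_factorization hV0] at h1
  have h4 : G.index.factorization p < G.index := Nat.factorization_lt p hG0
  omega

/-- THE CRITERION: virtual nilpotency, prime by prime -/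
theorem nilp_iff {Q : Type} [Group Q] (hfg : Group.FG Q) (φ : Q →* Q)
    (hinj : Function.Injective φ) (hfin : φ.range.FiniteIndex)
    (hcap : ∀ q : Q, (∀ k : ℕ, q ∈ Set.range (φ^[k])) → q = 1) :
    (∃ N : Subgroup Q, N.FiniteIndex ∧ Group.IsNilpotent N) ↔
    ∀ p : ℕ, p.Prime → p ∣ φ.range.index →
      (∃ B : ℕ, ∀ W : Subgroup Q, W.Normal → W.FiniteIndex → W.comap φ = W →
        ¬ p ^ B ∣ W.index) ∨
      (∃ Q₀ : Subgroup Q, Q₀.FiniteIndex ∧ ∃ c : ℕ, 1 ≤ c ∧ ∃ B : ℕ,
        INJ.KerBddP φ c B p Q₀) ∨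
      (∃ (Q₁ : Subgroup Q) (h₁ : ∀ x ∈ Q₁, φ x ∈ Q₁) (n : ℕ), Q₁.FiniteIndex ∧ 0 < n ∧
        Dual n Q₁ ∧ Ori n Q₁ = ⊤ ∧ EulerU n p (rst φ Q₁ h₁)) := by
  classical
  constructor
  · rintro ⟨N, hNf, hNn⟩ p hp _
    refine Or.inr (Or.inl ⟨N, hNf, ?_⟩)
    rw [Subgroup.nilpotent_iff_lowerCentralSeries] at hNn
    obtain ⟨c, hc⟩ := hNn
    have hNc : N.lowerCentralSeries (c + 1) = ⊥ := by
      rw [eq_bot_iff, ← Subgroup.top_subtype_lowerCentralSeries]
      rintro _ ⟨x, hx, rfl⟩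
      have h1 : x ∈ (⊤ : Subgroup N).lowerCentralSeries c :=
        Subgroup.lowerCentralSeries_antitone _ (Nat.le_succ c) hx
      rw [hc, Subgroup.mem_bot] at h1
      rw [h1]
      exact one_mem _
    refine ⟨c + 1, by omega, 1, fun X hXf hXN hX k => ?_⟩
    have h1 : X.lowerCentralSeries (c + 1) = ⊥ := by
      rw [eq_bot_iff, ← hNc]
      exact Subgroup.lowerCentralSeries_mono _ hXN
    have h2 : X ⊓ (X.lowerCentralSeries (c + 1)).comap (itr φ k) = ⊥ := by
      rw [h1, eq_bot_iff]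
      rintro x ⟨-, hx⟩
      have h3 : itr φ k x = 1 := hx
      rw [Subgroup.mem_bot]
      exact itr_inj hinj k (h3.trans (map_one _).symm)
    rw [h2, Subgroup.relIndex_bot_right, pow_one]
    exact hp.one_lt.ne' ∘ Nat.dvd_one.1
  · intro hs
    -- at each prime one of the first two conditions
    have hs' : ∀ p : ℕ, p.Prime → p ∣ φ.range.index →
        (∃ B : ℕ, ∀ W : Subgroup Q, W.Normal → W.FiniteIndex → W.comap φ = W →
          ¬ p ^ B ∣ W.index) ∨ (∃ Q₀ : Subgroup Q, Q₀.FiniteIndex ∧ ∃ c : ℕ, 1 ≤ c ∧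
            ∃ B : ℕ, INJ.KerBddP φ c B p Q₀) := by
      intro p hp hpD
      rcases hs p hp hpD with h | h | ⟨Q₁, h₁, n, hQ₁, hn, hD₁, ho₁, hE⟩
      · exact Or.inl h
      · exact Or.inr h
      · left
        refine top_of_sub φ Q₁ hQ₁ h₁ p hp ?_
        exact unit_bddU hn hD₁ ho₁ (rst φ Q₁ h₁) (rst_inj hinj Q₁ h₁)
          (rst_fin hinj hfin Q₁ hQ₁ h₁) p hp (by rw [rst_idx hinj Q₁ hQ₁ h₁]; exact hpD) hE
    have hD0 : φ.range.index ≠ 0 := hfin.index_ne_zero
    let PU : Finset ℕ := φ.range.index.primeFactors.filter (fun p =>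
      ∃ B : ℕ, ∀ W : Subgroup Q, W.Normal → W.FiniteIndex → W.comap φ = W → ¬ p ^ B ∣ W.index)
    obtain ⟨G, hG, hGn, hGf, hGu⟩ := max_unit1 φ PU
      (fun p hp => (Nat.mem_primeFactors.1 (Finset.mem_filter.1 hp).1).1)
      (fun p hp => (Finset.mem_filter.1 hp).2)
    have hGfg : Group.FG G := inferInstance
    have hinjG : Function.Injective (rst φ G hG) := rst_inj hinj G hG
    have hfinG : (rst φ G hG).range.FiniteIndex := rst_fin hinj hfin G hGf hG
    have hit : ∀ (n : ℕ) (x : G), (((rst φ G hG)^[n] x : G) : Q) = φ^[n] x := by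
      intro n x
      rw [← itr_eq_iterate, ← itr_eq_iterate, itr_rst]
    obtain ⟨N, hNf, hNn⟩ := coreM (rst φ G hG) hinjG hfinG (fun q hq => by
        apply Subtype.ext
        apply hcap
        intro k
        obtain ⟨z, hz⟩ := hq k
        exact ⟨z, by rw [← hit, hz]⟩) (fun p hp hpD => by
        rw [rst_idx hinj G hGf hG] at hpD
        rcases hs' p hp hpD with h | ⟨Q₀, hQ₀, c, hc1, B, hK⟩
        · right
          have hpPU : p ∈ PU := Finset.mem_filter.2 ⟨Nat.mem_primeFactors.2 ⟨hp, hpD, hD0⟩, h⟩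
          have hN : ∀ V : Subgroup G, V.Normal → V.FiniteIndex → V.comap (rst φ G hG) = V →
              ¬ p ∣ V.index := fun V hVn hVf hV => hGu 1 V one_pos hVn hVf hV p hpPU
          refine ⟨hN, fun X hX hXf => ?_⟩
          exact bdd_of_top hGfg (rst φ G hG) ⊤ p ⟨1, fun W h1 h2 h3 => by
            rw [pow_one]
            exact hN W h1 h2 h3⟩ X 1 le_top hXf one_pos hX
        · left
          exact ⟨c, hc1, B, Q₀.subgroupOf G, inferInstance,
            kerBddP_sub φ c B p Q₀ hK G hGf hG⟩)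
    refine ⟨N.map G.subtype, ⟨?_⟩, ?_⟩
    · rw [Subgroup.index_map_subtype]
      exact mul_ne_zero hNf.index_ne_zero hGf.index_ne_zero
    · exact Group.nilpotent_of_mulEquiv (N.equivMapOfInjective G.subtype G.subtype_injective)

end BCX
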