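import Pool.Agent.BCX.Pbu
import Pool.Agent.BCX.InjB

/-!
# The criterion with subgroups: residual part
-/

set_option autoImplicit false

open EssMap
open scoped commutatorElement

namespace BCX

/-- the residual part, with data on subgroups of the ambient group -/
theorem residAq {G : Type} [Group G] [Group.FG G] (θ : G →* G)
    (hinj : Function.Injective θ) (hfin : θ.range.FiniteIndex)
    (X : Subgroup G) (hXn : X.Normal) (hXf : X.FiniteIndex) (hXθ : ∀ x ∈ X, θ x ∈ X)
    (hcen : ∀ E F : Subgroup G, E.Normal → F.Normal →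
      F ≤ E → F.relIndex E ≠ 0 → F.relIndex E ≤ θ.range.index → ⁅X, E⁆ ≤ F)
    (X' : Subgroup G) (hXf' : X'.FiniteIndex)
    (b : ℕ) (x : G) (hxX : x ∈ X)
    (hloc : ∀ p : ℕ, p.Prime → p ∣ θ.range.index →
      ∀ A : Subgroup G, A.Normal → A.FiniteIndex → (∀ x ∈ A, θ x ∈ A) → A ≤ X → A ≤ X' →
        ∀ m : ℕ, (A.comap (itr θ m)).comap θ = A.comap (itr θ m) → ∀ M : ℕ, m ≤ M →
        (∀ g : G, g⁻¹ * itr θ M g ∈ A.comap (itr θ m)) → ∃ e : ℕ, ¬ p ∣ e ∧
          (itr θ b (x⁻¹ * itr θ M x)) ^ e ∈ A)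
    (j : ℕ) : itr θ b x ∈ (itr θ j).range := by
  classical
  have hSf : (itr θ j).range.FiniteIndex :=
    ⟨by rw [itr_index θ hinj]; exact pow_ne_zero _ hfin.index_ne_zero⟩
  obtain ⟨A, hAn, hAf, hAθ, hAle⟩ := exists_A θ ((X ⊓ X') ⊓ (itr θ j).range) inferInstance
  have hAX : A ≤ X := hAle.trans (inf_le_left.trans inf_le_left)
  have hAX' : A ≤ X' := hAle.trans (inf_le_left.trans inf_le_right)
  have hAS : A ≤ (itr θ j).range := hAle.trans inf_le_right
  obtain ⟨hch, m, hm⟩ := chain_unit θ hfin A hAn hAf hAθ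
  have hm' := hm
  obtain ⟨C, hC⟩ : ∃ C : ℕ → Subgroup G, C = fun i => A.comap (itr θ i) := ⟨_, rfl⟩
  have hCi : ∀ i, A.comap (itr θ i) = C i := fun i => by rw [hC]
  simp only [hCi] at hch hm
  have hCn : ∀ i, (C i).Normal := fun i => by rw [hC]; infer_instance
  have h0 : C 0 = A := by
    rw [hC]
    ext x
    rfl
  have hc : ∀ i, ⁅X, C (i + 1)⁆ ≤ C i := fun i =>
    hcen (C (i + 1)) (C i) (hCn _) (hCn _) (hch i).1 (hch i).2.1 (hch i).2.2
  have hAC : ∀ i, A ≤ C i := by
    intro i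
    induction i with
    | zero => rw [h0]
    | succ i ih => exact ih.trans (hch i).1
  have hCmn : (C m).Normal := hCn m
  have hVf : (C m).FiniteIndex := Subgroup.finiteIndex_of_le (hAC m)
  -- the subgroup `Y`
  obtain ⟨Y, hYdef⟩ : ∃ Y : Subgroup G, Y = C m ⊓ X := ⟨_, rfl⟩
  have hYn : Y.Normal := by rw [hYdef]; infer_instance
  have hYC : Y ≤ C m := by rw [hYdef]; exact inf_le_left
  have hYX : Y ≤ X := by rw [hYdef]; exact inf_le_right
  have hAY : A ≤ Y := by rw [hYdef]; exact le_inf (hAC m) hAX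
  have hYf : Y.FiniteIndex := Subgroup.finiteIndex_of_le hAY
  have hYinv : ∀ y ∈ Y, θ y ∈ Y := by
    intro y hy
    have h1 : y ∈ (C m).comap θ := by rw [hm]; exact hYC hy
    rw [hYdef]
    exact ⟨h1, hXθ y (hYX hy)⟩
  have hYi : ∀ (k : ℕ) (y : G), y ∈ Y → itr θ k y ∈ Y := by
    intro k
    induction k with
    | zero => intro y hy; exact hy
    | succ k ih => intro y hy; rw [itr_succ]; exact hYinv _ (ih y hy)
  have hXi : ∀ (k : ℕ) (y : G), y ∈ X → itr θ k y ∈ X := by
    intro k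
    induction k with
    | zero => intro y hy; exact hy
    | succ k ih => intro y hy; rw [itr_succ]; exact hXθ _ (ih y hy)
  have hAi : ∀ (k : ℕ) (y : G), y ∈ A → itr θ k y ∈ A := by
    intro k
    induction k with
    | zero => intro y hy; exact hy
    | succ k ih => intro y hy; rw [itr_succ]; exact hAθ _ (ih y hy)
  -- a power of the endomorphism
  obtain ⟨r, hr, hrx⟩ := UNI_order θ (C m) hm
  have hrk : ∀ (x : G) (k : ℕ), ((itr θ (r * k) x : G) : G ⧸ C m) = ((x : G) : G ⧸ C m) := by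
    intro x k
    induction k with
    | zero => rfl
    | succ k ih =>
      have e : r * (k + 1) = r + r * k := by ring
      rw [e, itr_add, hrx, ih]
  obtain ⟨M, hMj, hMm, hMx⟩ : ∃ M : ℕ, j ≤ M ∧ m ≤ M ∧
      ∀ x : G, ((itr θ M x : G) : G ⧸ C m) = ((x : G) : G ⧸ C m) := by
    have h1 : j + m ≤ r * (j + m) := by
      calc j + m ≤ 1 * (j + m) := by omega
        _ ≤ r * (j + m) := Nat.mul_le_mul_right _ hr
    refine ⟨r * (j + m), by omega, by omega, fun x => hrk x _⟩
  have hyC : x⁻¹ * itr θ M x ∈ C m := QuotientGroup.eq.1 (hMx x).symm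
  have hyX : x⁻¹ * itr θ M x ∈ X := X.mul_mem (X.inv_mem hxX) (hXi M x hxX)
  have hyY : x⁻¹ * itr θ M x ∈ Y := by
    rw [hYdef]
    exact ⟨hyC, hyX⟩
  obtain ⟨z, hz⟩ : ∃ z, z = itr θ b (x⁻¹ * itr θ M x) := ⟨_, rfl⟩
  have hzY : z ∈ Y := by rw [hz]; exact hYi b _ hyY
  -- the local statement
  have hex : ∀ p : ℕ, p.Prime → p ∣ θ.range.index → ∃ e : ℕ, ¬ p ∣ e ∧ z ^ e ∈ A := by
    intro p hp hpD
    obtain ⟨e, he, heA⟩ := hloc p hp hpD A hAn hAf hAθ hAX hAX' m hm' M hMm
      (fun g => by rw [hCi]; exact QuotientGroup.eq.1 (hMx g).symm)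
    exact ⟨e, he, by rw [hz]; exact heA⟩
  -- a common exponent
  have hYA1 : (A.subgroupOf Y).Normal := inferInstance
  have hfinY : Finite (Y ⧸ A.subgroupOf Y) := inferInstance
  set q : Y ⧸ A.subgroupOf Y := ((⟨z, hzY⟩ : Y) : Y ⧸ A.subgroupOf Y) with hq
  have hqe : ∀ e : ℕ, z ^ e ∈ A → q ^ e = 1 := by
    intro e he
    show (((⟨z, hzY⟩ : Y) ^ e : Y) : Y ⧸ A.subgroupOf Y) = 1
    rw [QuotientGroup.eq_one_iff]
    exact he
  have hcop : Nat.Coprime (orderOf q) (θ.range.index ^ j) := by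
    apply Nat.Coprime.pow_right
    apply Nat.Coprime.symm
    apply Nat.coprime_of_dvd
    intro p hp hpD hpq
    obtain ⟨e, he, heA⟩ := hex p hp hpD
    exact he (hpq.trans (orderOf_dvd_of_pow_eq_one (hqe e heA)))
  -- nilpotency
  have hlcs : ∀ i, i ≤ m → Y.lowerCentralSeries i ≤ C (m - i) := by
    intro i
    induction i with
    | zero =>
      intro _
      exact hYC
    | succ i ih =>
      intro hi
      have h1 := ih (by omega)
      have h2 : m - i = (m - (i + 1)) + 1 := by omega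
      rw [h2] at h1
      rw [Subgroup.lowerCentralSeries_succ]
      rw [Subgroup.commutator_comm]
      exact (Subgroup.commutator_mono hYX h1).trans (hc _)
  have hnil : Group.IsNilpotent (Y ⧸ A.subgroupOf Y) := by
    rw [Subgroup.nilpotent_iff_lowerCentralSeries]
    refine ⟨m, ?_⟩
    have h1 : (⊤ : Subgroup (Y ⧸ A.subgroupOf Y)) =
        (⊤ : Subgroup Y).map (QuotientGroup.mk' (A.subgroupOf Y)) := by
      rw [← MonoidHom.range_eq_map, MonoidHom.range_eq_top.2 (QuotientGroup.mk'_surjective _)]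
    rw [h1, ← Subgroup.map_lowerCentralSeries, eq_bot_iff]
    rintro _ ⟨y, hy, rfl⟩
    rw [Subgroup.mem_bot]
    have h2 : (y : G) ∈ Y.lowerCentralSeries m := by
      rw [← Subgroup.top_subtype_lowerCentralSeries]
      exact ⟨y, hy, rfl⟩
    have h3 := hlcs m le_rfl h2
    rw [Nat.sub_self, h0] at h3
    exact (QuotientGroup.eq_one_iff y).2 h3
  -- `z` is in the image
  have hzS : z ∈ (itr θ j).range := by
    have h1 : ((((itr θ j).range.subgroupOf Y).map (QuotientGroup.mk' (A.subgroupOf Y))).index) ∣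
        θ.range.index ^ j := by
      refine (Subgroup.index_map_dvd _ (QuotientGroup.mk'_surjective _)).trans ?_
      rw [← itr_index θ hinj]
      exact rel_dvd (itr θ j).range Y hYf.index_ne_zero
    have h2 := INJ.nil_root
      (((itr θ j).range.subgroupOf Y).map (QuotientGroup.mk' (A.subgroupOf Y)))
      ⟨fun h => by
        rw [h] at h1
        exact pow_ne_zero _ hfin.index_ne_zero (Nat.eq_zero_of_zero_dvd h1)⟩ (orderOf q)
      (hcop.coprime_dvd_right h1) q (by
        rw [pow_orderOf_eq_one]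
        exact one_mem _)
    obtain ⟨y, hy, hyq⟩ := h2
    have h3 : (y : Y)⁻¹ * ⟨z, hzY⟩ ∈ A.subgroupOf Y := QuotientGroup.eq.1 hyq
    have h4 : (y : G)⁻¹ * z ∈ A := h3
    have h5 : z = (y : G) * ((y : G)⁻¹ * z) := by group
    rw [h5]
    exact mul_mem hy (hAS h4)
  have hjr : itr θ b (itr θ M x) ∈ (itr θ j).range := by
    refine ⟨itr θ (b + M - j) x, ?_⟩
    rw [← itr_add, ← itr_add, Nat.add_sub_cancel' (by omega)]
  have h1 : itr θ b x = itr θ b (itr θ M x) * z⁻¹ := by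
    rw [hz, map_mul (itr θ b) x⁻¹, map_inv]
    group
  rw [h1]
  exact mul_mem hjr (inv_mem hzS)

end BCX
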