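import Pool.Agent.BCX.Elfb

/-!
# The Euler characteristics of the unit parts bound the unit quotients of prime power order
-/

set_option autoImplicit false

open CategoryTheory groupCohomology EssMap
open scoped commutatorElement

namespace BCX

theorem st_iter {W : Type*} [AddCommGroup W] (T S : W →+ W) (m : ℕ) (hm : 0 < m)
    (h : ∀ x, S x = T^[m] x) : Nat.card (st S) = Nat.card (st T) := by
  have hS : ∀ (k : ℕ) (x : W), S^[k] x = T^[m * k] x := by
    intro k
    induction k with
    | zero => intro x; rfl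
    | succ k ih =>
      intro x
      rw [Function.iterate_succ_apply, ih, h, ← Function.iterate_add_apply, Nat.mul_succ]
  have h1 : st S = st T := by
    ext x
    constructor
    · intro hx k
      obtain ⟨y, hy⟩ := hx k
      rw [hS] at hy
      have h2 : k ≤ m * k := Nat.le_mul_of_pos_left k hm
      refine ⟨T^[m * k - k] y, ?_⟩
      rw [← Function.iterate_add_apply, Nat.add_sub_cancel' h2, hy]
    · intro hx k
      obtain ⟨y, hy⟩ := hx (m * k)
      exact ⟨y, by rw [hS, hy]⟩
  rw [h1]

theorem ub_itr (p : ℕ) {X : Type} [Group X] (η : X →* X) (m : ℕ) (hm : 0 < m) (i : ℕ) :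
    ub p (pull (itr η m) i).toAddMonoidHom = ub p (pull η i).toAddMonoidHom := by
  refine st_iter (Tq p (pull η i).toAddMonoidHom) (Tq p (pull (itr η m) i).toAddMonoidHom) m hm ?_
  have hid : ∀ x : HZ X i, pull (MonoidHom.id X) i x = x := by
    intro x
    have h2 : groupCohomology.map (MonoidHom.id X) (tr (MonoidHom.id X)) i = 𝟙 _ := by
      rw [← groupCohomology.map_id]
      rfl
    show (groupCohomology.map (MonoidHom.id X) (tr (MonoidHom.id X)) i).hom x = x
    rw [h2]
    rfl
  have h0 : ∀ (k : ℕ) (x : HZ X i), pull (itr η k) i x = (pull η i)^[k] x := by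
    intro k
    induction k with
    | zero =>
      intro x
      have h3 : itr η 0 = MonoidHom.id X := rfl
      rw [h3, hid]
      rfl
    | succ k ih =>
      intro x
      have h1 : itr η (k + 1) = η.comp (itr η k) := by
        ext y
        exact itr_succ η k y
      rw [h1, pull_comp, ih, Function.iterate_succ_apply]
  have h1 : ∀ (k : ℕ) (x : HZ X i),
      (Tq p (pull η i).toAddMonoidHom)^[k] ((x : HZ X i) : HZ X i ⧸ PT p (HZ X i)) =
        (((pull η i)^[k] x : HZ X i) : HZ X i ⧸ PT p (HZ X i)) := by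
    intro k
    induction k with
    | zero => intro x; rfl
    | succ k ih =>
      intro x
      rw [Function.iterate_succ_apply', ih, Function.iterate_succ_apply']
      rfl
  intro a
  obtain ⟨x, rfl⟩ := QuotientAddGroup.mk_surjective a
  rw [h1, ← h0]
  rfl

theorem eu_itr (n p : ℕ) {X : Type} [Group X] (η : X →* X) (m : ℕ) (hm : 0 < m) :
    eu n p (itr η m) = eu n p η := by
  unfold eu
  exact evp_congr n _ _ (fun i _ => ub_itr p η m hm i)

theorem od_itr (n p : ℕ) {X : Type} [Group X] (η : X →* X) (m : ℕ) (hm : 0 < m) :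
    od n p (itr η m) = od n p η := by
  unfold od
  exact odp_congr n _ _ (fun i _ => ub_itr p η m hm i)

/-- For the normal subgroups `V` of `p`-power index with `θ⁻¹(V) = V`: the cohomology is finitely
generated up to degree `n`, and the Euler characteristics of the unit parts are bounded, none of
them zero. -/
def EulerP (n p : ℕ) {G : Type} [Group G] (θ : G →* G) : Prop :=
  ∃ B : ℕ, ∀ V : Subgroup G, V.Normal → (∃ b : ℕ, V.index = p ^ b) → V.comap θ = V →
    ∀ hV : (∀ x ∈ V, θ x ∈ V), (∀ i, i ≤ n → Module.Finite ℤ (HZ V i)) ∧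
      eu n p (rst θ V hV) ≠ od n p (rst θ V hV) ∧
      eu n p (rst θ V hV) ≤ p ^ B * od n p (rst θ V hV) ∧
      od n p (rst θ V hV) ≤ p ^ B * eu n p (rst θ V hV)

/-- the unit quotients of `p`-power order are bounded -/
theorem unit_bddP {n : ℕ} (hn0 : 0 < n) {X : Type} [Group X] (hX : Dual n X)
    (ho : Ori n X = ⊤) (η : X →* X) (hinj : Function.Injective η) (hfin : η.range.FiniteIndex)
    (p : ℕ) (hp0 : p.Prime) (hp : p ∣ η.range.index) (hE : EulerP n p η) :
    ∃ B : ℕ, ∀ V : Subgroup X, V.Normal → V.comap η = V → ∀ b : ℕ, V.index = p ^ b → b ≤ B := by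
  have hpf : Fact p.Prime := ⟨hp0⟩
  obtain ⟨B, hE⟩ := hE
  refine ⟨B, fun V hV h b hb => ?_⟩
  have hVf : V.FiniteIndex := ⟨by rw [hb]; exact (pow_pos hp0.pos b).ne'⟩
  obtain ⟨m, hm, hx⟩ := UNI_order η V h
  have hfinQ : Finite (X ⧸ V) := Subgroup.finite_quotient_of_finiteIndex
  have hVη : ∀ x ∈ V, η x ∈ V := by
    intro x hxV
    rw [← h] at hxV
    exact hxV
  have hVi : ∀ x ∈ V, itr η m x ∈ V := by
    intro x hxV
    rw [← QuotientGroup.eq_one_iff] at hxV ⊢
    rw [hx, hxV]
  have hxV : ∀ x : X, (x⁻¹ * itr η m x) ∈ V := by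
    intro x
    rw [← QuotientGroup.eq]
    exact (hx x).symm
  have hpU : ∀ x : X, ∃ k : ℕ, x ^ p ^ k ∈ V := by
    intro x
    refine ⟨b, ?_⟩
    rw [← QuotientGroup.eq_one_iff, QuotientGroup.mk_pow, ← hb, Subgroup.index_eq_card]
    exact pow_card_eq_one'
  have hinjm : Function.Injective (itr η m) := itr_inj hinj m
  have hfinm : (itr η m).range.FiniteIndex := itr_range_finiteIndex hinj hfin m
  have hp' : p ∣ (itr η m).range.index := by
    rw [itr_index η hinj]
    exact dvd_pow hp hm.ne'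
  -- the group itself
  have htop : ∀ x ∈ (⊤ : Subgroup X), η x ∈ (⊤ : Subgroup X) := fun x _ => Subgroup.mem_top _
  obtain ⟨f1, n1, -, -⟩ := hE ⊤ inferInstance ⟨0, by rw [Subgroup.index_top, pow_zero]⟩ rfl htop
  obtain ⟨f2, -, b1, b2⟩ := hE V hV ⟨b, hb⟩ h hVη
  have f1' : ∀ i, i ≤ n → Module.Finite ℤ (HZ X i) := by
    intro i hi
    have := f1 i hi
    exact Module.Finite.equiv (pullE Subgroup.topEquiv i).symm
  have t1 : eu n p η = eu n p (rst η ⊤ htop) := by
    unfold eu
    exact evp_congr n _ _ (fun i _ => ub_pullE p Subgroup.topEquiv (rst η ⊤ htop) η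
      (fun y => rfl) i)
  have t2 : od n p η = od n p (rst η ⊤ htop) := by
    unfold od
    exact odp_congr n _ _ (fun i _ => ub_pullE p Subgroup.topEquiv (rst η ⊤ htop) η
      (fun y => rfl) i)
  rw [← t1, ← t2] at n1
  have hr : rst (itr η m) V hVi = itr (rst η V hVη) m := by
    ext x
    show itr η m (x : X) = ((itr (rst η V hVη) m x : V) : X)
    rw [itr_rst]
  have key := euler_unit hn0 hX ho (itr η m) hinjm hfinm p hp' f1' V hVi hpU hxV f2
  rw [hr, eu_itr n p _ m hm, od_itr n p _ m hm, eu_itr n p _ m hm, od_itr n p _ m hm] at key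
  obtain ⟨a, ha⟩ := eu_pow n p η (fun i hi => f1' i hi.le)
  obtain ⟨b', hb'⟩ := od_pow n p η (fun i hi => f1' i hi.le)
  obtain ⟨c, hc⟩ := eu_pow n p (rst η V hVη) (fun i hi => f2 i hi.le)
  obtain ⟨d, hd⟩ := od_pow n p (rst η V hVη) (fun i hi => f2 i hi.le)
  rw [ha, hb', hc, hd] at key
  rw [ha, hb'] at n1
  rw [hc, hd] at b1 b2
  have h1 := ELF_arith p a b' c d V.index B hp0.one_lt n1 key b1 b2
  rw [hb] at h1
  exact ((Nat.lt_pow_self hp0.one_lt).le.trans h1)

end BCX
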