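import Pool.Agent.BCX.UL

/-!
# Groups without unit quotients of `p`-power order: ambient form
-/

set_option autoImplicit false

open EssMap
open scoped commutatorElement

namespace BCX

/-- the subgroup `Z` has no proper normal subgroup `V` of `p`-power index with
`φ⁻¹(V) ∩ Z = V` -/
def NoUq {Q : Type} [Group Q] (φ : Q →* Q) (p : ℕ) (Z : Subgroup Q) : Prop :=
  ∀ V : Subgroup Q, V ≤ Z → (V.subgroupOf Z).Normal → (∃ b : ℕ, V.relIndex Z = p ^ b) →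
    V.comap φ ⊓ Z = V → V = Z

theorem mapq_le {Q : Type} [Group Q] (Z : Subgroup Q) (V : Subgroup Z) :
    V.map Z.subtype ≤ Z := by
  rintro _ ⟨x, -, rfl⟩
  exact x.2

theorem mapq_sub {Q : Type} [Group Q] (Z : Subgroup Q) (V : Subgroup Z) :
    (V.map Z.subtype).subgroupOf Z = V := by
  rw [Subgroup.subgroupOf, Subgroup.comap_map_eq_self_of_injective Z.subtype_injective]

theorem mapq_mem {Q : Type} [Group Q] (Z : Subgroup Q) (V : Subgroup Z) (x : Z) :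
    ((x : Q) ∈ V.map Z.subtype ↔ x ∈ V) := by
  conv_rhs => rw [← mapq_sub Z V]
  rfl

theorem mapq_unit {Q : Type} [Group Q] (φ : Q →* Q) (Z : Subgroup Q) (hZ : ∀ x ∈ Z, φ x ∈ Z)
    (V : Subgroup Z) (hV : V.comap (rst φ Z hZ) = V) :
    (V.map Z.subtype).comap φ ⊓ Z = V.map Z.subtype := by
  ext x
  constructor
  · rintro ⟨h1, h2⟩
    have h3 : rst φ Z hZ ⟨x, h2⟩ ∈ V := (mapq_mem Z V _).1 h1
    have h4 : (⟨x, h2⟩ : Z) ∈ V := by
      rw [← hV]
      exact h3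
    exact ⟨_, h4, rfl⟩
  · intro h
    have h2 : x ∈ Z := mapq_le Z V h
    refine ⟨?_, h2⟩
    have h3 : (⟨x, h2⟩ : Z) ∈ V := (mapq_mem Z V ⟨x, h2⟩).1 h
    rw [← hV] at h3
    exact (mapq_mem Z V (rst φ Z hZ ⟨x, h2⟩)).2 h3

/-- conversely -/
theorem subq_unit {Q : Type} [Group Q] (φ : Q →* Q) (Z : Subgroup Q) (hZ : ∀ x ∈ Z, φ x ∈ Z)
    (V : Subgroup Q) (hVZ : V ≤ Z) (hV : V.comap φ ⊓ Z = V) :
    (V.subgroupOf Z).comap (rst φ Z hZ) = V.subgroupOf Z := by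
  ext x
  show φ (x : Q) ∈ V ↔ (x : Q) ∈ V
  constructor
  · intro h
    rw [← hV]
    exact ⟨h, x.2⟩
  · intro h
    rw [← hV] at h
    exact h.1

theorem NoUq.noU {Q : Type} [Group Q] {φ : Q →* Q} {p : ℕ} {Z : Subgroup Q}
    (h : NoUq φ p Z) (hZ : ∀ x ∈ Z, φ x ∈ Z) : NoU (rst φ Z hZ) p := by
  rintro V hVn ⟨a, ha⟩ hV
  have h1 := h (V.map Z.subtype) (mapq_le Z V) (by rw [mapq_sub]; exact hVn)
    ⟨a, by
      show ((V.map Z.subtype).subgroupOf Z).index = p ^ a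
      rw [mapq_sub, ha]⟩ (mapq_unit φ Z hZ V hV)
  rw [← mapq_sub Z V, h1]
  exact Subgroup.subgroupOf_self Z

/-- a maximal unit subgroup of `p`-power index -/
theorem maxUq {Q : Type} [Group Q] (φ : Q →* Q) (p : ℕ) (hp : p.Prime) (Z : Subgroup Q)
    (hZf : Z.FiniteIndex) (hZ : ∀ x ∈ Z, φ x ∈ Z) (B : ℕ)
    (hB : ∀ V : Subgroup Q, V ≤ Z → (V.subgroupOf Z).Normal → V.comap φ ⊓ Z = V →
      ∀ b : ℕ, V.relIndex Z = p ^ b → b ≤ B) :
    ∃ V : Subgroup Q, V ≤ Z ∧ V.FiniteIndex ∧ (∀ x ∈ V, φ x ∈ V) ∧ NoUq φ p V := by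
  obtain ⟨W, hW, hWf, hWU⟩ := maxU (rst φ Z hZ) p hp B (fun V hVn a ha hV =>
    hB (V.map Z.subtype) (mapq_le Z V) (by rw [mapq_sub]; exact hVn) (mapq_unit φ Z hZ V hV) a (by
      show ((V.map Z.subtype).subgroupOf Z).index = p ^ a
      rw [mapq_sub, ha]))
  have hmem := mapq_mem Z W
  obtain ⟨V, hVdef⟩ : ∃ V : Subgroup Q, V = W.map Z.subtype := ⟨_, rfl⟩
  rw [← hVdef] at hmem
  have hVZ : V ≤ Z := by rw [hVdef]; exact mapq_le Z W
  have hVφ : ∀ x ∈ V, φ x ∈ V := by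
    intro x hx
    have h1 : (⟨x, hVZ hx⟩ : Z) ∈ W := (hmem ⟨x, hVZ hx⟩).1 hx
    exact (hmem (rst φ Z hZ ⟨x, hVZ hx⟩)).2 (hW _ h1)
  refine ⟨V, hVZ, ⟨?_⟩, hVφ, ?_⟩
  · rw [hVdef, Subgroup.index_map_subtype]
    exact mul_ne_zero hWf.index_ne_zero hZf.index_ne_zero
  · intro U hUV hUn hUi hU
    -- the subgroup of `W`
    let e : W →* Q := Z.subtype.comp W.subtype
    have he : Function.Injective e := Z.subtype_injective.comp W.subtype_injective
    have heV : ∀ w : W, e w ∈ V := fun w => (hmem w).2 w.2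
    have heU : e.range = V := by
      ext x
      constructor
      · rintro ⟨w, rfl⟩
        exact heV w
      · intro hx
        exact ⟨⟨⟨x, hVZ hx⟩, (hmem ⟨x, hVZ hx⟩).1 hx⟩, rfl⟩
    have h1 := hWU (U.comap e) (by
        constructor
        intro u hu g
        exact hUn.conj_mem ⟨e u, heV u⟩ hu ⟨e g, heV g⟩) (by
        obtain ⟨b, hb⟩ := hUi
        refine ⟨b, ?_⟩
        rw [Subgroup.index_comap, heU, hb]) (by
        ext w
        show φ (e w) ∈ U ↔ e w ∈ U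
        constructor
        · intro h
          rw [← hU]
          exact ⟨h, heV w⟩
        · intro h
          rw [← hU] at h
          exact h.1)
    apply le_antisymm hUV
    rw [← heU]
    rintro _ ⟨w, rfl⟩
    have h2 : w ∈ U.comap e := by
      rw [h1]
      exact Subgroup.mem_top w
    exact h2

/-- the contraction modulo `p` -/
theorem contrUq {Q : Type} [Group Q] [Group.FG Q] (φ : Q →* Q) (hinj : Function.Injective φ)
    (hfin : φ.range.FiniteIndex) (p : ℕ) (hp : p.Prime) (Z : Subgroup Q)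
    (hZf : Z.FiniteIndex) (hZ : ∀ x ∈ Z, φ x ∈ Z) (hN : NoUq φ p Z) :
    ∃ n w : ℕ, (PCN.L p n : Subgroup Z).FiniteIndex ∧
      ∀ x : Z, x ∈ (⊤ : Subgroup Z).lowerCentralSeries w → x ∈ (PCN.L p n : Subgroup Z) →
        ∀ k, x ∈ (PCN.L p k : Subgroup Z) := by
  have hpf : Fact p.Prime := ⟨hp⟩
  have hfg : Group.FG Z := inferInstance
  exact contrU (rst φ Z hZ) p (rst_fin hinj hfin Z hZf hZ) (hN.noU hZ)

/-- the local statement -/
theorem localUq {Q : Type} [Group Q] [Group.FG Q] (φ : Q →* Q)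
    (hfin : φ.range.FiniteIndex) (G1 : Subgroup Q)
    (hcen : ∀ E F : Subgroup Q, E.Normal → F.Normal → F ≤ E → F.relIndex E ≠ 0 →
      F.relIndex E ≤ φ.range.index → ⁅G1, E⁆ ≤ F)
    (p : ℕ) (hp : p.Prime) (Z : Subgroup Q)
    (hZ : ∀ x ∈ Z, φ x ∈ Z) (hZG : Z ≤ G1) (hN : NoUq φ p Z) :
    ∀ A : Subgroup Q, A.Normal → A.FiniteIndex → (∀ x ∈ A, φ x ∈ A) → ∀ m : ℕ,
      (A.comap (itr φ m)).comap φ = A.comap (itr φ m) → ∀ (M : ℕ) (x : Z), m ≤ M →
      (∀ k, x ∈ (PCN.L p k : Subgroup Z)) →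
      (∀ g : Q, g ∈ Z → g⁻¹ * itr φ M g ∈ A.comap (itr φ m)) →
      ∃ e : ℕ, ¬ p ∣ e ∧ ((x : Q)⁻¹ * itr φ M x) ^ e ∈ A := by
  intro A hAn hAf hAφ m hm M x hM hx hMx
  obtain ⟨hch, -⟩ := chain_unit φ hfin A hAn hAf hAφ
  have hcm : ∀ i, ∀ z : Z, (z ∈ (A.subgroupOf Z).comap (itr (rst φ Z hZ) i) ↔
      (z : Q) ∈ A.comap (itr φ i)) := by
    intro i z
    show ((itr (rst φ Z hZ) i z : Z) : Q) ∈ A ↔ itr φ i z ∈ A
    rw [itr_rst]
  obtain ⟨e, he, h⟩ := localU (rst φ Z hZ) p hp (hN.noU hZ) (A.subgroupOf Z) inferInstance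
    inferInstance (fun a ha => hAφ _ ha)
    (fun i => (A.subgroupOf Z).comap (itr (rst φ Z hZ) i)) (fun i => rfl) (by
      intro i
      rw [Subgroup.commutator_le]
      intro g _ z hz
      rw [hcm] at hz ⊢
      have h1 : ⁅G1, A.comap (itr φ (i + 1))⁆ ≤ A.comap (itr φ i) :=
        hcen _ _ inferInstance inferInstance (hch i).1 (hch i).2.1 (hch i).2.2
      exact h1 (Subgroup.commutator_mem_commutator (hZG g.2) hz)) m (by
      ext z
      rw [Subgroup.mem_comap]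
      rw [hcm, hcm]
      show φ (z : Q) ∈ _ ↔ _
      rw [← Subgroup.mem_comap, hm]) M hM (fun g => by
      rw [hcm]
      have h1 := hMx g g.2
      rw [Subgroup.coe_mul, Subgroup.coe_inv, itr_rst]
      exact h1) x hx
  refine ⟨e, he, ?_⟩
  have h1 : (((x⁻¹ * itr (rst φ Z hZ) M x) ^ e : Z) : Q) ∈ A := h
  rw [Subgroup.coe_pow, Subgroup.coe_mul, Subgroup.coe_inv, itr_rst] at h1
  exact h1

end BCX
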