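import Pool.Agent.BCX.Mx5q
import Pool.Agent.BCX.Mx6
import Pool.Agent.BCX.Utop
import Pool.Agent.BCX.ULq
import Pool.Agent.BCX.InjN

/-!
# The criterion, prime by prime, with small subgroups
-/

set_option autoImplicit false

open CategoryTheory groupCohomology EssMap
open scoped commutatorElement

namespace BCX

/-- the local statement at one prime -/
theorem local_dataq {Q : Type} [Group Q] [Group.FG Q] (φ : Q →* Q)
    (hinj : Function.Injective φ) (hfin : φ.range.FiniteIndex) (G1 : Subgroup Q)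
    (hG1 : G1.FiniteIndex) (hcen : ∀ E F : Subgroup Q, E.Normal → F.Normal →
      F ≤ E → F.relIndex E ≠ 0 → F.relIndex E ≤ φ.range.index → ⁅G1, E⁆ ≤ F)
    (p : ℕ) (hp : p.Prime)
    (hloc : (∃ Q₀ : Subgroup Q, Q₀.FiniteIndex ∧ ∃ c : ℕ, 1 ≤ c ∧ ∃ B : ℕ,
        INJN.KerBddN φ c B p Q₀) ∨
      (∀ Q₁ : Subgroup Q, Q₁.FiniteIndex → ∃ Z : Subgroup Q, Z ≤ Q₁ ∧ Z.FiniteIndex ∧
        (∀ x ∈ Z, φ x ∈ Z) ∧ NoUq φ p Z)) :
    ∃ (X₁ Z N' : Subgroup Q) (b w : ℕ), X₁.FiniteIndex ∧ Z.FiniteIndex ∧ N'.FiniteIndex ∧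
      N' ≤ Z ∧ ∀ X : Subgroup Q, X.Normal → X.FiniteIndex → (∀ x ∈ X, φ x ∈ X) → X ≤ X₁ →
      ∀ A : Subgroup Q, A.Normal → A.FiniteIndex → (∀ x ∈ A, φ x ∈ A) → A ≤ X → A ≤ Z →
      ∀ m : ℕ, (A.comap (itr φ m)).comap φ = A.comap (itr φ m) → ∀ (M : ℕ) (x : Q), m ≤ M →
      x ∈ X.lowerCentralSeries w → x ∈ N' → x ∈ Z.lowerCentralSeries w →
      (∀ g : Q, g⁻¹ * itr φ M g ∈ A.comap (itr φ m)) →
      ∃ e : ℕ, ¬ p ∣ e ∧ (itr φ b (x⁻¹ * itr φ M x)) ^ e ∈ A := by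
  rcases hloc with ⟨Q₀, hQ₀, c, hc1, B, hK⟩ | hU
  · obtain ⟨X₁, b, h1, h2⟩ := INJN.localN φ hinj hfin c hc1 p hp B Q₀ hQ₀ hK
    exact ⟨X₁, ⊤, ⊤, b, c, h1, inferInstance, inferInstance, le_rfl,
      fun X hXn hXf hXφ hX A hAn hAf hAφ hAX _ m hm M x _ hx _ _ hM =>
        h2 X hXn hXf hXφ hX A hAn hAf hAφ hAX m hm M x hx (hM x)⟩
  · obtain ⟨Z, hZG, hZf, hZ, hN⟩ := hU G1 hG1
    obtain ⟨n, w, hn, hw⟩ := contrUq φ hinj hfin p hp Z hZf hZ hN
    have hloc := localUq φ hfin G1 hcen p hp Z hZ hZG hN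
    refine ⟨⊤, Z, (PCN.L p n : Subgroup Z).map Z.subtype, 0, w, inferInstance, hZf, ⟨?_⟩, ?_, ?_⟩
    · rw [Subgroup.index_map_subtype]
      exact mul_ne_zero hn.index_ne_zero hZf.index_ne_zero
    · rintro _ ⟨x, -, rfl⟩
      exact x.2
    · rintro X - - - - A hAn hAf hAφ - hAZ m hm M _ hM - ⟨x, hx, rfl⟩ hxw hx'
      have hxw' : x ∈ (⊤ : Subgroup Z).lowerCentralSeries w := by
        rw [← Subgroup.top_subtype_lowerCentralSeries] at hxw
        obtain ⟨y, hy, hyx⟩ := hxw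
        have : y = x := Subtype.ext hyx
        rw [← this]
        exact hy
      exact hloc A hAn hAf hAφ m hm M x hM (hw x hxw' hx) (fun g _ => hx' g)

/-- nilpotency from the local conditions -/
theorem nilp_coreA {Q : Type} [Group Q] [Group.FG Q] (φ : Q →* Q)
    (hinj : Function.Injective φ) (hfin : φ.range.FiniteIndex)
    (hcap : ∀ q : Q, (∀ k : ℕ, q ∈ Set.range (φ^[k])) → q = 1)
    (hloc : ∀ p : ℕ, p.Prime → p ∣ φ.range.index →
      (∃ Q₀ : Subgroup Q, Q₀.FiniteIndex ∧ ∃ c : ℕ, 1 ≤ c ∧ ∃ B : ℕ,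
        INJN.KerBddN φ c B p Q₀) ∨
      (∀ Q₁ : Subgroup Q, Q₁.FiniteIndex → ∃ Z : Subgroup Q, Z ≤ Q₁ ∧ Z.FiniteIndex ∧
        (∀ x ∈ Z, φ x ∈ Z) ∧ NoUq φ p Z)) :
    ∃ N : Subgroup Q, N.FiniteIndex ∧ Group.IsNilpotent N := by
  classical
  have hD0 : φ.range.index ≠ 0 := hfin.index_ne_zero
  let P : Finset ℕ := φ.range.index.primeFactors
  have hP : ∀ p, p ∈ P ↔ p.Prime ∧ p ∣ φ.range.index := by
    intro p
    show p ∈ φ.range.index.primeFactors ↔ _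
    rw [Nat.mem_primeFactors]
    exact ⟨fun h => ⟨h.1, h.2.1⟩, fun h => ⟨h.1, h.2, hD0⟩⟩
  obtain ⟨G1, hG1n, hG1f, hcen⟩ := exists_cen (G := Q) φ.range.index
  have hdat := fun p : P => local_dataq φ hinj hfin G1 hG1f hcen p ((hP p).1 p.2).1
    (hloc p ((hP p).1 p.2).1 ((hP p).1 p.2).2)
  choose X₁ Z N' b w hX₁ hZ hN' hNZ hd using hdat
  let XX : Subgroup Q := ⨅ p : P, X₁ p
  have hXXf : XX.FiniteIndex := Subgroup.finiteIndex_iInf fun p => hX₁ p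
  let ZZ : Subgroup Q := ⨅ p : P, Z p
  have hZZf : ZZ.FiniteIndex := Subgroup.finiteIndex_iInf fun p => hZ p
  let NN : Subgroup Q := ⨅ p : P, N' p
  have hNNf : NN.FiniteIndex := Subgroup.finiteIndex_iInf fun p => hN' p
  obtain ⟨X, hXn, hXf, hXφ, hXle⟩ := exists_A φ (XX ⊓ G1) inferInstance
  have hXG1 : X ≤ G1 := hXle.trans inf_le_right
  have hXX : X ≤ XX := hXle.trans inf_le_left
  have hcen' : ∀ E F : Subgroup Q, E.Normal → F.Normal →
      F ≤ E → F.relIndex E ≠ 0 → F.relIndex E ≤ φ.range.index → ⁅X, E⁆ ≤ F :=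
    fun E F hE hF hFE h1 h2 =>
      (Subgroup.commutator_mono hXG1 le_rfl).trans (hcen E F hE hF hFE h1 h2)
  let w0 : ℕ := Finset.univ.sup w
  let b0 : ℕ := Finset.univ.sup b
  let N : Subgroup Q := X ⊓ NN
  have hNf : N.FiniteIndex := inferInstance
  have hNX : N ≤ X := inf_le_left
  have hNN : ∀ p, N ≤ N' p := fun p => inf_le_right.trans (iInf_le N' p)
  refine ⟨N, hNf, ?_⟩
  have hbot : N.lowerCentralSeries w0 = ⊥ := by
    rw [eq_bot_iff]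
    intro x hx
    have hxN : x ∈ N := N.lowerCentralSeries_le_self w0 hx
    have h4 : itr φ b0 x = 1 := by
      apply hcap
      intro k
      obtain ⟨z, hz⟩ := residAq φ hinj hfin X hXn hXf hXφ hcen' ZZ hZZf b0 x (hNX hxN)
        (fun p hp hpD A hAn hAf hAφ hAX hAZ m hm M hM hx' => by
          obtain ⟨p', hp'⟩ : ∃ p' : P, (p' : ℕ) = p := ⟨⟨p, (hP p).2 ⟨hp, hpD⟩⟩, rfl⟩
          have hw0 : w p' ≤ w0 := Finset.le_sup (Finset.mem_univ p')
          obtain ⟨e, he, heA⟩ := hd p' X hXn hXf hXφ (hXX.trans (iInf_le X₁ p')) A hAn hAf hAφ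
            hAX (hAZ.trans (iInf_le Z p')) m hm M x hM
            (Subgroup.lowerCentralSeries_antitone _ hw0
              (Subgroup.lowerCentralSeries_mono w0 hNX hx))
            (hNN p' hxN)
            (Subgroup.lowerCentralSeries_antitone _ hw0
              (Subgroup.lowerCentralSeries_mono w0 ((hNN p').trans (hNZ p')) hx)) hx'
          refine ⟨e, by rw [← hp']; exact he, ?_⟩
          have h6 : b p' ≤ b0 := Finset.le_sup (Finset.mem_univ p')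
          have h7 : b0 = (b0 - b p') + b p' := by omega
          rw [h7, itr_add, ← map_pow]
          exact INJ.itr_inv φ A hAφ _ _ heA) k
      exact ⟨z, by rw [← itr_eq_iterate]; exact hz⟩
    rw [Subgroup.mem_bot]
    exact itr_inj hinj b0 (h4.trans (map_one _).symm)
  rw [Subgroup.nilpotent_iff_lowerCentralSeries]
  refine ⟨w0, ?_⟩
  rw [eq_bot_iff]
  intro y hy
  have h1 : (y : Q) ∈ N.lowerCentralSeries w0 := by
    rw [← Subgroup.top_subtype_lowerCentralSeries]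
    exact ⟨y, hy, rfl⟩
  rw [hbot, Subgroup.mem_bot] at h1
  rw [Subgroup.mem_bot]
  exact Subtype.ext h1

/-- THE CRITERION: virtual nilpotency, prime by prime -/
theorem nilp_iffA {Q : Type} [Group Q] (hfg : Group.FG Q) (φ : Q →* Q)
    (hinj : Function.Injective φ) (hfin : φ.range.FiniteIndex)
    (hcap : ∀ q : Q, (∀ k : ℕ, q ∈ Set.range (φ^[k])) → q = 1) :
    (∃ N : Subgroup Q, N.FiniteIndex ∧ Group.IsNilpotent N) ↔
    ∀ p : ℕ, p.Prime → p ∣ φ.range.index →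
      (∀ Q₁ : Subgroup Q, Q₁.FiniteIndex → ∃ (Z : Subgroup Q) (hZ : ∀ x ∈ Z, φ x ∈ Z),
        Z ≤ Q₁ ∧ Z.FiniteIndex ∧ ∃ B : ℕ, ∀ V : Subgroup Z, V.Normal →
          V.comap (rst φ Z hZ) = V → ∀ b : ℕ, V.index = p ^ b → b ≤ B) ∨
      (∃ Q₀ : Subgroup Q, Q₀.FiniteIndex ∧ ∃ c : ℕ, 1 ≤ c ∧ ∃ B : ℕ,
        INJN.KerBddN φ c B p Q₀) ∨
      (∀ Q₁ : Subgroup Q, Q₁.FiniteIndex → ∃ (Z : Subgroup Q) (hZ : ∀ x ∈ Z, φ x ∈ Z) (n : ℕ),
        Z ≤ Q₁ ∧ Z.FiniteIndex ∧ 0 < n ∧ Dual n Z ∧ Ori n Z = ⊤ ∧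
          EulerP n p (rst φ Z hZ)) := by
  classical
  constructor
  · rintro ⟨N, hNf, hNn⟩ p hp _
    refine Or.inr (Or.inl ⟨N, hNf, ?_⟩)
    rw [Subgroup.nilpotent_iff_lowerCentralSeries] at hNn
    obtain ⟨c, hc⟩ := hNn
    have hNc : N.lowerCentralSeries (c + 1) = ⊥ := by
      rw [eq_bot_iff, ← Subgroup.top_subtype_lowerCentralSeries]
      rintro _ ⟨x, hx, rfl⟩
      have h1 : x ∈ (⊤ : Subgroup N).lowerCentralSeries c :=
        Subgroup.lowerCentralSeries_antitone _ (Nat.le_succ c) hx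
      rw [hc, Subgroup.mem_bot] at h1
      rw [h1]
      exact one_mem _
    refine ⟨c + 1, by omega, 1, fun X _ hXf hXN hX k => ?_⟩
    have h1 : X.lowerCentralSeries (c + 1) = ⊥ := by
      rw [eq_bot_iff, ← hNc]
      exact Subgroup.lowerCentralSeries_mono _ hXN
    have h2 : X ⊓ (X.lowerCentralSeries (c + 1)).comap (itr φ k) = ⊥ := by
      rw [h1, eq_bot_iff]
      rintro x ⟨-, hx⟩
      have h3 : itr φ k x = 1 := hx
      rw [Subgroup.mem_bot]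
      exact itr_inj hinj k (h3.trans (map_one _).symm)
    rw [h2, Subgroup.relIndex_bot_right, pow_one]
    exact hp.one_lt.ne' ∘ Nat.dvd_one.1
  · intro hs
    apply nilp_coreA φ hinj hfin hcap
    intro p hp hpD
    have key : ∀ (Z : Subgroup Q) (hZ : ∀ x ∈ Z, φ x ∈ Z), Z.FiniteIndex →
        (∃ B : ℕ, ∀ V : Subgroup Z, V.Normal →
          V.comap (rst φ Z hZ) = V → ∀ b : ℕ, V.index = p ^ b → b ≤ B) →
        ∃ V : Subgroup Q, V ≤ Z ∧ V.FiniteIndex ∧ (∀ x ∈ V, φ x ∈ V) ∧ NoUq φ p V := by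
      rintro Z hZ hZf ⟨B, hB⟩
      refine maxUq φ p hp Z hZf hZ B (fun V hVZ hVn hV b hb => ?_)
      refine hB (V.subgroupOf Z) hVn ?_ b hb
      ext x
      show φ (x : Q) ∈ V ↔ (x : Q) ∈ V
      constructor
      · intro h
        have h1 : (x : Q) ∈ V.comap φ ⊓ Z := ⟨h, x.2⟩
        rw [hV] at h1
        exact h1
      · intro h
        rw [← hV] at h
        exact h.1
    rcases hs p hp hpD with h | h | h
    · right
      intro Q₁ hQ₁
      obtain ⟨Z, hZ, hZle, hZf, hB⟩ := h Q₁ hQ₁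
      obtain ⟨V, hVZ, hVf, hVφ, hVN⟩ := key Z hZ hZf hB
      exact ⟨V, hVZ.trans hZle, hVf, hVφ, hVN⟩
    · left
      exact h
    · right
      intro Q₁ hQ₁
      obtain ⟨Z, hZ, n, hZle, hZf, hn, hD, ho, hE⟩ := h Q₁ hQ₁
      obtain ⟨V, hVZ, hVf, hVφ, hVN⟩ := key Z hZ hZf
        (unit_bddP hn hD ho (rst φ Z hZ) (rst_inj hinj Z hZ) (rst_fin hinj hfin Z hZf hZ) p hp
          (by rw [rst_idx hinj Z hZf hZ]; exact hpD) hE)
      exact ⟨V, hVZ.trans hZle, hVf, hVφ, hVN⟩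

end BCX
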