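import Pool.Agent.BCX.Mx7

/-!
# The criterion with the class of nilpotency
-/

set_option autoImplicit false

open CategoryTheory groupCohomology EssMap
open scoped commutatorElement

namespace BCX

/-- the class from bounded kernels at all primes -/
theorem nilp_coreK {Q : Type} [Group Q] [Group.FG Q] (φ : Q →* Q)
    (hinj : Function.Injective φ) (hfin : φ.range.FiniteIndex)
    (hcap : ∀ q : Q, (∀ k : ℕ, q ∈ Set.range (φ^[k])) → q = 1) (c : ℕ) (hc1 : 1 ≤ c)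
    (hloc : ∀ p : ℕ, p.Prime → p ∣ φ.range.index →
      ∃ Q₀ : Subgroup Q, Q₀.FiniteIndex ∧ ∃ B : ℕ, INJN.KerBddN φ c B p Q₀) :
    ∃ N : Subgroup Q, N.FiniteIndex ∧ N.lowerCentralSeries c = ⊥ := by
  classical
  have hD0 : φ.range.index ≠ 0 := hfin.index_ne_zero
  let P : Finset ℕ := φ.range.index.primeFactors
  have hP : ∀ p, p ∈ P ↔ p.Prime ∧ p ∣ φ.range.index := by
    intro p
    show p ∈ φ.range.index.primeFactors ↔ _
    rw [Nat.mem_primeFactors]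
    exact ⟨fun h => ⟨h.1, h.2.1⟩, fun h => ⟨h.1, h.2, hD0⟩⟩
  obtain ⟨G1, hG1n, hG1f, hcen⟩ := exists_cen (G := Q) φ.range.index
  have hdat : ∀ p : P, ∃ (X₁ : Subgroup Q) (b : ℕ), X₁.FiniteIndex ∧
      ∀ X : Subgroup Q, X.Normal → X.FiniteIndex → (∀ x ∈ X, φ x ∈ X) → X ≤ X₁ →
      ∀ A : Subgroup Q, A.Normal → A.FiniteIndex → (∀ x ∈ A, φ x ∈ A) → A ≤ X → ∀ m : ℕ,
      (A.comap (itr φ m)).comap φ = A.comap (itr φ m) → ∀ (M : ℕ) (x : Q),
      x ∈ X.lowerCentralSeries c → x⁻¹ * itr φ M x ∈ A.comap (itr φ m) →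
      ∃ e : ℕ, ¬ (p : ℕ) ∣ e ∧ (itr φ b (x⁻¹ * itr φ M x)) ^ e ∈ A := by
    intro p
    obtain ⟨Q₀, hQ₀, B, hK⟩ := hloc p ((hP p).1 p.2).1 ((hP p).1 p.2).2
    exact INJN.localN φ hinj hfin c hc1 p ((hP p).1 p.2).1 B Q₀ hQ₀ hK
  choose X₁ b hX₁ hd using hdat
  let XX : Subgroup Q := ⨅ p : P, X₁ p
  have hXXf : XX.FiniteIndex := Subgroup.finiteIndex_iInf fun p => hX₁ p
  obtain ⟨X, hXn, hXf, hXφ, hXle⟩ := exists_A φ (XX ⊓ G1) inferInstance
  have hXG1 : X ≤ G1 := hXle.trans inf_le_right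
  have hXX : X ≤ XX := hXle.trans inf_le_left
  have hcen' : ∀ E F : Subgroup Q, E.Normal → F.Normal →
      F ≤ E → F.relIndex E ≠ 0 → F.relIndex E ≤ φ.range.index → ⁅X, E⁆ ≤ F :=
    fun E F hE hF hFE h1 h2 =>
      (Subgroup.commutator_mono hXG1 le_rfl).trans (hcen E F hE hF hFE h1 h2)
  let b0 : ℕ := Finset.univ.sup b
  refine ⟨X, hXf, ?_⟩
  rw [eq_bot_iff]
  intro x hx
  have hxX : x ∈ X := X.lowerCentralSeries_le_self c hx
  have h4 : itr φ b0 x = 1 := by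
    apply hcap
    intro k
    obtain ⟨z, hz⟩ := residA φ hinj hfin X hXn hXf hXφ hcen' ⊤ inferInstance b0 x hxX
      (fun p hp hpD A hAn hAf hAφ hAX _ m hm M hM hx' => by
        obtain ⟨p', hp'⟩ : ∃ p' : P, (p' : ℕ) = p := ⟨⟨p, (hP p).2 ⟨hp, hpD⟩⟩, rfl⟩
        obtain ⟨e, he, heA⟩ := hd p' X hXn hXf hXφ (hXX.trans (iInf_le X₁ p')) A hAn hAf hAφ
          hAX m hm M x hx (hx' x)
        refine ⟨e, by rw [← hp']; exact he, ?_⟩
        have h6 : b p' ≤ b0 := Finset.le_sup (Finset.mem_univ p')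
        have h7 : b0 = (b0 - b p') + b p' := by omega
        rw [h7, itr_add, ← map_pow]
        exact INJ.itr_inv φ A hAφ _ _ heA) k
    exact ⟨z, by rw [← itr_eq_iterate]; exact hz⟩
  rw [Subgroup.mem_bot]
  exact itr_inj hinj b0 (h4.trans (map_one _).symm)

/-- THE CRITERION: virtual nilpotency prime by prime, and the class -/
theorem nilp_iffC {Q : Type} [Group Q] (hfg : Group.FG Q) (φ : Q →* Q)
    (hinj : Function.Injective φ) (hfin : φ.range.FiniteIndex)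
    (hcap : ∀ q : Q, (∀ k : ℕ, q ∈ Set.range (φ^[k])) → q = 1) (c : ℕ) (hc1 : 1 ≤ c) :
    (∃ N : Subgroup Q, N.FiniteIndex ∧ N.lowerCentralSeries c = ⊥) ↔
    ∀ p : ℕ, p.Prime → p ∣ φ.range.index →
      ∃ Q₀ : Subgroup Q, Q₀.FiniteIndex ∧ ∃ B : ℕ, INJN.KerBddN φ c B p Q₀ := by
  constructor
  · rintro ⟨N, hNf, hNc⟩ p hp _
    refine ⟨N, hNf, 1, fun X _ hXf hXN hX k => ?_⟩
    have h1 : X.lowerCentralSeries c = ⊥ := by
      rw [eq_bot_iff, ← hNc]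
      exact Subgroup.lowerCentralSeries_mono _ hXN
    have h2 : X ⊓ (X.lowerCentralSeries c).comap (itr φ k) = ⊥ := by
      rw [h1, eq_bot_iff]
      rintro x ⟨-, hx⟩
      have h3 : itr φ k x = 1 := hx
      rw [Subgroup.mem_bot]
      exact itr_inj hinj k (h3.trans (map_one _).symm)
    rw [h2, Subgroup.relIndex_bot_right, pow_one]
    exact hp.one_lt.ne' ∘ Nat.dvd_one.1
  · exact nilp_coreK φ hinj hfin hcap c hc1

end BCX
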