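import Pool.Agent.BCX.Defs

/-!
# The nilpotency index of a group of order `p^2` and exponent `p`
-/

set_option autoImplicit false

namespace BCX

/-- products of elements `X a + Y b` -/
private theorem NIT_prod {R : Type*} [CommRing R] (p : ℕ) (X Y : R) (hX : X ^ p = 0)
    (hY : Y ^ p = 0) (l : List R) (hl : ∀ z ∈ l, ∃ a b, a * X + b * Y = z) :
    ∀ i j : ℕ, 2 * p - 1 ≤ i + j + l.length → X ^ i * Y ^ j * l.prod = 0 := by
  induction l with
  | nil =>
    intro i j h
    simp only [List.length_nil, add_zero] at h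
    by_cases hi : p ≤ i
    · obtain ⟨k, rfl⟩ := Nat.exists_eq_add_of_le hi
      rw [pow_add, hX]
      simp
    · have hj : p ≤ j := by omega
      obtain ⟨k, rfl⟩ := Nat.exists_eq_add_of_le hj
      rw [pow_add, hY]
      simp
  | cons z l ih =>
    intro i j h
    simp only [List.length_cons] at h
    obtain ⟨a, b, rfl⟩ := hl z (by simp)
    have ih' := ih (fun w hw => hl w (List.mem_cons_of_mem _ hw))
    have h1 := ih' (i + 1) j (by omega)
    have h2 := ih' i (j + 1) (by omega)
    rw [List.prod_cons]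
    calc X ^ i * Y ^ j * ((a * X + b * Y) * l.prod)
        = a * (X ^ (i + 1) * Y ^ j * l.prod) + b * (X ^ i * Y ^ (j + 1) * l.prod) := by ring
      _ = 0 := by rw [h1, h2]; simp

private theorem NIT_comm {p : ℕ} [Fact p.Prime] {B : Type} [CommGroup B]
    (hc : Nat.card B = p ^ 2) (h : ∀ b : B, b ^ p = 1) (l : List B)
    (hl : l.length = 2 * p - 1) :
    (l.map fun b => (MonoidAlgebra.of (ZMod p) B b - 1 : MonoidAlgebra (ZMod p) B)).prod = 0 := by
  have hp : p.Prime := Fact.out
  have hfin : Finite B := Nat.finite_of_card_ne_zero (by rw [hc]; exact pow_ne_zero _ hp.ne_zero)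
  have hcp : CharP (MonoidAlgebra (ZMod p) B) p :=
    charP_of_injective_algebraMap (algebraMap (ZMod p) (MonoidAlgebra (ZMod p) B)).injective p
  have hlt : p < p ^ 2 := by
    have := hp.one_lt
    nlinarith
  have hne : ∃ x : B, x ≠ 1 := by
    by_contra hcon
    push Not at hcon
    have : Subsingleton B := ⟨fun a b => by rw [hcon a, hcon b]⟩
    have h1 : Nat.card B = 1 := Nat.card_eq_one_iff_unique.2 ⟨this, ⟨1⟩⟩
    rw [hc] at h1
    have := hp.one_lt
    nlinarith
  obtain ⟨x, hx⟩ := hne
  have hcx : Nat.card (Subgroup.zpowers x) = p := by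
    rw [Nat.card_zpowers]
    exact orderOf_eq_prime (h x) hx
  have hy : ∃ y : B, y ∉ Subgroup.zpowers x := by
    by_contra hcon
    push Not at hcon
    have h1 : Subgroup.zpowers x = ⊤ := (Subgroup.eq_top_iff' _).2 hcon
    rw [h1, Subgroup.card_top, hc] at hcx
    omega
  obtain ⟨y, hy⟩ := hy
  set X : MonoidAlgebra (ZMod p) B := MonoidAlgebra.of (ZMod p) B x - 1 with hXd
  set Y : MonoidAlgebra (ZMod p) B := MonoidAlgebra.of (ZMod p) B y - 1 with hYd
  have hX : X ^ p = 0 := by
    rw [hXd, sub_pow_char, ← map_pow, h, one_pow, map_one, sub_self]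
  have hY : Y ^ p = 0 := by
    rw [hYd, sub_pow_char, ← map_pow, h, one_pow, map_one, sub_self]
  let I : Ideal (MonoidAlgebra (ZMod p) B) := Ideal.span {X, Y}
  let H : Subgroup B :=
    { carrier := {b | (MonoidAlgebra.of (ZMod p) B b - 1 : MonoidAlgebra (ZMod p) B) ∈ I}
      one_mem' := by
        show (MonoidAlgebra.of (ZMod p) B 1 - 1 : MonoidAlgebra (ZMod p) B) ∈ I
        rw [map_one, sub_self]
        exact I.zero_mem
      mul_mem' := by
        intro a b ha hb
        show (MonoidAlgebra.of (ZMod p) B (a * b) - 1 : MonoidAlgebra (ZMod p) B) ∈ I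
        have e : (MonoidAlgebra.of (ZMod p) B (a * b) - 1 : MonoidAlgebra (ZMod p) B) =
            MonoidAlgebra.of (ZMod p) B a * (MonoidAlgebra.of (ZMod p) B b - 1) +
              (MonoidAlgebra.of (ZMod p) B a - 1) := by
          rw [map_mul]
          ring
        rw [e]
        exact I.add_mem (I.mul_mem_left _ hb) ha
      inv_mem' := by
        intro a ha
        show (MonoidAlgebra.of (ZMod p) B a⁻¹ - 1 : MonoidAlgebra (ZMod p) B) ∈ I
        have e1 : (MonoidAlgebra.of (ZMod p) B a⁻¹ : MonoidAlgebra (ZMod p) B) *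
            MonoidAlgebra.of (ZMod p) B a = 1 := by
          rw [← map_mul, inv_mul_cancel, map_one]
        have e : (MonoidAlgebra.of (ZMod p) B a⁻¹ - 1 : MonoidAlgebra (ZMod p) B) =
            -MonoidAlgebra.of (ZMod p) B a⁻¹ * (MonoidAlgebra.of (ZMod p) B a - 1) := by
          have : -MonoidAlgebra.of (ZMod p) B a⁻¹ * (MonoidAlgebra.of (ZMod p) B a - 1) =
              MonoidAlgebra.of (ZMod p) B a⁻¹ -
                MonoidAlgebra.of (ZMod p) B a⁻¹ * MonoidAlgebra.of (ZMod p) B a := by ring
          rw [this, e1]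
        rw [e]
        exact I.mul_mem_left _ ha }
  have hxH : x ∈ H := Ideal.subset_span (by simp [hXd])
  have hyH : y ∈ H := Ideal.subset_span (by simp [hYd])
  have hle : Subgroup.zpowers x ≤ H := Subgroup.zpowers_le.2 hxH
  have hH : H = ⊤ := by
    have hdvd : Nat.card H ∣ p ^ 2 := by
      rw [← hc]
      exact H.card_subgroup_dvd_card
    obtain ⟨k, hk, hk'⟩ := (Nat.dvd_prime_pow hp).1 hdvd
    by_cases hk2 : k = 2
    · apply Subgroup.eq_top_of_card_eq
      rw [hk', hk2, hc]
    · exfalso
      have hk1 : k ≤ 1 := by omega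
      have hcard : Nat.card H ≤ Nat.card (Subgroup.zpowers x) := by
        rw [hk', hcx]
        calc p ^ k ≤ p ^ 1 := Nat.pow_le_pow_right hp.pos hk1
          _ = p := pow_one p
      have heq := Subgroup.eq_of_le_of_card_ge hle hcard
      exact hy (heq ▸ hyH)
  have hmem : ∀ b : B, ∃ a c, a * X + c * Y =
      (MonoidAlgebra.of (ZMod p) B b - 1 : MonoidAlgebra (ZMod p) B) := by
    intro b
    have hb : b ∈ H := by rw [hH]; exact Subgroup.mem_top b
    exact Ideal.mem_span_pair.1 hb
  have hfinal := NIT_prod p X Y hX hY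
    (l.map fun b => (MonoidAlgebra.of (ZMod p) B b - 1 : MonoidAlgebra (ZMod p) B)) (by
      intro z hz
      obtain ⟨b, -, rfl⟩ := List.mem_map.1 hz
      exact hmem b) 0 0 (by simp [hl])
  simpa using hfinal

theorem NI_two {p : ℕ} [Fact p.Prime] {B : Type} [Group B] (hc : Nat.card B = p ^ 2)
    (h : ∀ b : B, b ^ p = 1) : NI p B (2 * p - 1) := by
  have hcomm : ∀ a b : B, a * b = b * a :=
    (IsPGroup.isMulCommutative_of_card_eq_prime_sq hc).is_comm.comm
  let iB : CommGroup B := { (inferInstance : Group B) with mul_comm := hcomm }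
  intro M _ _ ρ l hl
  have h1 := @NIT_comm p _ B iB hc h l hl
  have h2 := congrArg (MonoidAlgebra.lift (ZMod p) (Module.End (ZMod p) M) B ρ) h1
  rw [map_zero, map_list_prod, List.map_map] at h2
  rw [← h2]
  congr 1
  apply List.map_congr_left
  intro b _
  simp

end BCX
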