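import Pool.Agent.BCX.Res

/-!
# Nondegeneracy of the cup product modulo `m`
-/

set_option autoImplicit false

open CategoryTheory groupCohomology EssMap

namespace BCX

variable {X : Type} [Group X]

/-- an integral lift of a cocycle modulo `m` -/
theorem int_lift (hX : Dual 3 X) (ho : Ori 3 X = ⊤) (m : ℕ) (hm : 0 < m)
    (c : X → X → ZMod m) (hc : IsZ2 c) :
    ∃ c' : X → X → ℤ, IsZ2 c' ∧ ∀ g h, ((c' g h : ℤ) : ZMod m) = c g h := by
  have hm2 : (m : ℤ) ≠ 0 := by exact_mod_cast hm.ne'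
  have h1 : ∀ g h, ∃ l : ℤ, ((l : ℤ) : ZMod m) = c g h := fun g h => ZMod.intCast_surjective _
  choose C hC using h1
  have h2 : ∀ g h k, ∃ l : ℤ, (m : ℤ) * l = C h k - C (g * h) k + C g (h * k) - C g h := by
    intro g h k
    have h3 : (((C h k - C (g * h) k + C g (h * k) - C g h : ℤ)) : ZMod m) = 0 := by
      push_cast
      rw [hC, hC, hC, hC]
      exact hc g h k
    rw [ZMod.intCast_zmod_eq_zero_iff_dvd] at h3
    obtain ⟨l, hl⟩ := h3
    exact ⟨l, hl.symm⟩
  choose D hD using h2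
  have hDz : IsZ3 D := by
    intro g h k l
    apply mul_left_cancel₀ hm2
    rw [mul_zero, mul_add, mul_sub, mul_add, mul_sub, hD, hD, hD, hD, hD]
    rw [mul_assoc g h k, mul_assoc h k l]
    ring
  have h3 : (m : ℤ) • k3 D hDz = 0 := by
    have hz : IsZ3 (fun g h k => (m : ℤ) * D g h k) := by
      intro g h k l
      have := hDz g h k l
      linear_combination (m : ℤ) * this
    have h4 : (m : ℤ) • k3 D hDz = k3 (fun g h k => (m : ℤ) * D g h k) hz := by
      unfold k3 clsB
      rw [← map_zsmul]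
      congr 1
      apply iCocycles_inj
      rw [map_zsmul, iCocycles_mk, iCocycles_mk]
      funext g
      exact smul_eq_mul _ _
    rw [h4, k3_zero]
    exact ⟨C, hD⟩
  obtain ⟨E, hE⟩ := (k3_zero D hDz).1 (h3Z_tf hX ho m hm2 _ h3)
  refine ⟨fun g h => C g h - m * E g h, ?_, ?_⟩
  · intro g h k
    have h4 := hD g h k
    rw [hE] at h4
    linear_combination -h4
  · intro g h
    push_cast
    rw [hC, ZMod.natCast_self, zero_mul, sub_zero]

theorem pow_comm_of {w : X} (m : ℕ) (hm : 0 < m)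
    (h : ∀ y : X →* Multiplicative (ZMod m), y w = 1) :
    ∃ v z : X, z ∈ commutator X ∧ w = v ^ m * z := by
  let A := Abelianization X
  let P : Subgroup A := (powMonoidHom (α := A) m).range
  let f : X →* A ⧸ P := (QuotientGroup.mk' P).comp Abelianization.of
  have h1 : f w = 1 := by
    by_contra hne
    obtain ⟨ψ, hψ⟩ := exists_charE f m hm (fun x => by
      rw [← map_pow]
      exact (QuotientGroup.eq_one_iff _).2 ⟨Abelianization.of x, (map_pow _ _ _).symm⟩) w hne
    exact hψ (h ψ)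
  obtain ⟨a, ha⟩ := (QuotientGroup.eq_one_iff _).1 h1
  obtain ⟨v, rfl⟩ := QuotientGroup.mk'_surjective _ a
  have ha2 : (Abelianization.of v) ^ m = Abelianization.of w := ha
  refine ⟨v, (v ^ m)⁻¹ * w, ?_, ?_⟩
  · have h2 : Abelianization.of ((v ^ m)⁻¹ * w) = 1 := by
      rw [map_mul, map_inv, map_pow, ha2, inv_mul_cancel]
    exact (QuotientGroup.eq_one_iff _).1 h2
  · rw [mul_inv_cancel_left]

/-- ROW ND: nondegeneracy of the cup product modulo `m` -/
theorem nd {X : Type} [Group X] (hX : Dual 3 X) (ho : Ori 3 X = ⊤) (m : ℕ) (hm : 2 ≤ m)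
    (c : X → X → ZMod m) (hc : IsZ2 c)
    (h : ∀ y : X →* Multiplicative (ZMod m), IsB3 (fun g h k => (y g).toAdd * c h k)) :
    IsB2 c := by
  have hm0 : 0 < m := by omega
  have := hX.fg
  obtain ⟨u⟩ := hX.top
  obtain ⟨c', hc', hcc⟩ := int_lift hX ho m hm0 c hc
  have hd : Mono (δ (XG_shortExact X) 2 3 rfl) :=
    mono_δ_of_isZero (XG_shortExact X) 2 (hX.low 2 rfl)
  have hd2 := (ModuleCat.mono_iff_injective _).1 hd
  have hz := (z2_iff c').2 hc'
  obtain ⟨w, hw⟩ := cl_surjective 3 u hX.cd ho (δ (XG_shortExact X) 2 3 rfl (cls (u2 c') hz))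
  -- all homomorphisms vanish on `w`
  have hy : ∀ y : X →* Multiplicative (ZMod m), y w = 1 := by
    intro y
    have h1 := chiB_delta y (u2 c') hz
    rw [hw] at h1
    have h2 : cupB y (u2 c') = u3 (fun g h k => (y g).toAdd * c h k) := by
      funext g
      show (c' (g 1) (g 2)) • (y (g 0)).toAdd = (y (g 0)).toAdd * c (g 1) (g 2)
      rw [zsmul_eq_mul, hcc, mul_comm]
    have h3 : clsB (cupB y (u2 c')) (cupB_cocycle y (u2 c') hz) = 0 := by
      have hz3 : inhomogeneousCochains.d (Rep.trivial ℤ X (ZMod m)) 3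
          (u3 (fun g h k => (y g).toAdd * c h k)) = 0 := by
        rw [← h2]
        exact cupB_cocycle y (u2 c') hz
      have h4 := (k3_zero _ ((z3_iff _).1 hz3)).2 (h y)
      unfold k3 at h4
      rw [← h4]
      congr 1
    rw [h3] at h1
    unfold cl at h1
    rw [← cmap_comp, kg_chiB, cmap_comp] at h1
    obtain ⟨k, hk⟩ := ZMod.intCast_surjective (y w).toAdd
    have h5 : redB (G := X) (zmultiplesHom (ZMod m) (y w).toAdd) = k • redE X m := by
      ext
      show (1 : ℤ) • (y w).toAdd = k • ((1 : ℤ) : ZMod m)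
      rw [← hk]
      simp
    rw [h5, cmap_int_smul] at h1
    have h6 : k • fm u m = 0 := h1
    rw [fm_ker hX ho u m hm0] at h6
    apply Multiplicative.toAdd.injective
    rw [← hk, toAdd_one]
    exact (ZMod.intCast_zmod_eq_zero_iff_dvd _ _).2 h6
  obtain ⟨v, z, hz1, hwv⟩ := pow_comm_of m hm0 hy
  -- the class of `w` is divisible by `m`
  have h7 : cl 3 (u.symm 1) w = (m : ℤ) • cl 3 (u.symm 1) v := by
    have h8 : clHom 3 ho (u.symm 1) w = (clHom 3 ho (u.symm 1) v) ^ m := by
      have h9 : clHom 3 ho (u.symm 1) z = 1 := Abelianization.commutator_subset_ker _ hz1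
      rw [hwv, map_mul, map_pow, h9, mul_one]
    have h10 : Multiplicative.ofAdd (cl 3 (u.symm 1) w) =
        Multiplicative.ofAdd ((m : ℤ) • cl 3 (u.symm 1) v) := by
      rw [natCast_zsmul, ofAdd_nsmul]
      exact h8
    exact Multiplicative.ofAdd.injective h10
  have h11 : cmap (inc X) 3 (cl 3 (u.symm 1) v) = 0 := by
    apply eps_injective 3 u hX.cd ho
    rw [← cmap_comp, inc_eps, cmap_zero]
    rfl
  obtain ⟨y, hy2⟩ := (les1 (XG_shortExact X) 2 3 rfl (cl 3 (u.symm 1) v)).1 h11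
  obtain ⟨c'', hc'', rfl⟩ := k2_surj y
  have h12 : cls (u2 c') hz = (m : ℤ) • k2 c'' hc'' := by
    apply hd2
    have h13 : (δ (XG_shortExact X) 2 3 rfl).hom ((m : ℤ) • k2 c'' hc'') =
      (m : ℤ) • (δ (XG_shortExact X) 2 3 rfl).hom (k2 c'' hc'') := map_zsmul _ _ _
    refine (hw.trans h7).trans ?_
    rw [← hy2]
    exact h13.symm
  have hz4 : IsZ2 (fun g h => c' g h - m * c'' g h) := by
    intro g h k
    have e1 := hc' g h k
    have e2 := hc'' g h k
    linear_combination e1 - m * e2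
  have h14 : k2 (fun g h => c' g h - m * c'' g h) hz4 = 0 := by
    have h15 : k2 (fun g h => c' g h - m * c'' g h) hz4 = k2 c' hc' - (m : ℤ) • k2 c'' hc'' := by
      unfold k2 clsB
      rw [← map_zsmul, ← map_sub]
      congr 1
      apply iCocycles_inj
      rw [map_sub, map_zsmul, iCocycles_mk, iCocycles_mk, iCocycles_mk]
      funext g
      show c' (g 0) (g 1) - m * c'' (g 0) (g 1) = c' (g 0) (g 1) - (m : ℤ) • c'' (g 0) (g 1)
      rw [smul_eq_mul]
    rw [h15, sub_eq_zero]
    exact h12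
  obtain ⟨b, hb⟩ := (k2_zero _ _).1 h14
  refine ⟨fun x => ((b x : ℤ) : ZMod m), fun g h => ?_⟩
  have h16 := congrArg (fun l : ℤ => (l : ZMod m)) (hb g h)
  push_cast at h16
  rw [hcc, ZMod.natCast_self, zero_mul, sub_zero] at h16
  exact h16

end BCX
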