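import Pool.Agent.BCX.InjT

/-!
# Virtual nilpotency and the kernels on the nilpotent quotients of the normal subgroups
-/

set_option autoImplicit false

open EssMap
open scoped commutatorElement

namespace BCX.INJ

variable {Q : Type} [Group Q]

/-- for all normal invariant subgroups `X ≤ Q₀` of finite index: the image of the kernel of each
iterate on `X / γ_{c+1}(X)` in the coset space of the image of each iterate has at most `B`
elements -/
def KerN (φ : Q →* Q) (c : ℕ) (B : ℕ) (Q₀ : Subgroup Q) : Prop :=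
  ∀ X : Subgroup Q, X.Normal → X.FiniteIndex → X ≤ Q₀ → (∀ x ∈ X, φ x ∈ X) →
    ∀ (k m : ℕ) (f : Fin (B + 1) → Q),
      (∀ i, f i ∈ X ∧ itr φ k (f i) ∈ X.lowerCentralSeries c) →
        ∃ i j, i ≠ j ∧ ∃ y ∈ X, (itr φ m y)⁻¹ * ((f i)⁻¹ * f j) ∈ X.lowerCentralSeries c

/-- the index bound -/
theorem keyN (φ : Q →* Q) (c B : ℕ) (Q₀ : Subgroup Q) (hH : KerN φ c B Q₀)
    (W A : Subgroup Q) (hW : Ad φ Q₀ W) (hWn : W.Normal) (hAn : A.Normal)
    (hAW : A ≤ W) (hWC : W ≤ A ⊔ Cl φ c W) (m : ℕ) (hm : ∀ w ∈ W, itr φ m w ∈ A) :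
    (A ⊔ W.lowerCentralSeries c).Normal ∧ A ⊔ W.lowerCentralSeries c ≤ W ∧
    (A ⊔ W.lowerCentralSeries c).relIndex W ≠ 0 ∧
      (A ⊔ W.lowerCentralSeries c).relIndex W ≤ B := by
  have hlW : (W.lowerCentralSeries c).Normal := inferInstance
  have hFn : (A ⊔ W.lowerCentralSeries c).Normal := inferInstance
  have hle : A ⊔ W.lowerCentralSeries c ≤ W := sup_le hAW (W.lowerCentralSeries_le_self c)
  have hWC' : W = Cl φ c W ⊔ (A ⊔ W.lowerCentralSeries c) := by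
    apply le_antisymm
    · refine hWC.trans (sup_le ?_ le_sup_left)
      exact le_sup_left.trans le_sup_right
    · exact sup_le (Cl_le φ c W) hle
  have hrel := relIndex_aux (A ⊔ W.lowerCentralSeries c) (Cl φ c W) W hWC'
  have hb := relIndex_of_pigeon (A ⊔ W.lowerCentralSeries c) (Cl φ c W) B (by
    intro f hf
    have h1 : ∀ i, f i ∈ W ∧ ∃ k, itr φ k (f i) ∈ W.lowerCentralSeries c := fun i =>
      (mem_Cl φ c W hW.inv (f i)).1 (hf i)
    choose h2 k hk using h1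
    have h3 : ∀ i, itr φ (Finset.univ.sup k) (f i) ∈ W.lowerCentralSeries c := by
      intro i
      have h4 : k i ≤ Finset.univ.sup k := Finset.le_sup (Finset.mem_univ i)
      obtain ⟨d, hd⟩ := Nat.exists_eq_add_of_le h4
      rw [hd, add_comm, itr_add]
      exact itr_inv φ _ (lcs_inv φ c W hW.inv) d _ (hk i)
    obtain ⟨i, j, hij, y, hy, hyf⟩ := hH W hWn hW.fin hW.le hW.inv (Finset.univ.sup k) m f
      (fun i => ⟨h2 i, h3 i⟩)
    refine ⟨i, j, hij, ?_⟩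
    have h5 : (f i)⁻¹ * f j = itr φ m y * ((itr φ m y)⁻¹ * ((f i)⁻¹ * f j)) := by group
    rw [h5]
    exact mul_mem (Subgroup.mem_sup_left (hm y hy)) (Subgroup.mem_sup_right hyf))
  refine ⟨hFn, hle, ?_, ?_⟩
  · rw [hrel]
    exact hb.1
  · rw [hrel]
    exact hb.2

/-- the main theorem -/
theorem mainN [Group.FG Q] (φ : Q →* Q)
    (hinj : Function.Injective φ) (hfin : φ.range.FiniteIndex)
    (hcap : ∀ q : Q, (∀ k : ℕ, q ∈ Set.range (φ^[k])) → q = 1) (c : ℕ) (hc1 : 1 ≤ c)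
    (B : ℕ) (Q₀ : Subgroup Q) (hQ₀ : Q₀.FiniteIndex) (hH : KerN φ c B Q₀) :
    ∃ N : Subgroup Q, N.FiniteIndex ∧ N.lowerCentralSeries c = ⊥ := by
  obtain ⟨X₁, h₁, hext⟩ := exists_maxF hinj hfin hQ₀ (Cl_fun φ c Q₀)
  obtain ⟨G1, hG1n, hG1f, hcen⟩ := exists_cen (G := Q) (max φ.range.index B)
  have h₁f := h₁.fin
  obtain ⟨X, hXn, hXf, hXφ, hXle⟩ := exists_A φ (X₁ ⊓ G1) inferInstance
  have hX : Ad φ Q₀ X := ⟨hXf, (hXle.trans inf_le_left).trans h₁.le, hXφ⟩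
  have hXi := itr_inv φ X hXφ
  refine ⟨X, hXf, ?_⟩
  rw [eq_bot_iff]
  intro x hxl
  rw [Subgroup.mem_bot]
  have hx : x ∈ X := X.lowerCentralSeries_le_self c hxl
  have hxC : x ∈ Cl φ c X := lcs_le_Cl φ c X hXφ hxl
  obtain ⟨b, hb⟩ : ∃ b : ℕ, b = B * B := ⟨_, rfl⟩
  -- it suffices to kill a power
  apply itr_inj hinj b
  rw [map_one]
  apply hcap
  intro j
  obtain ⟨A, hAn, hAf, hAφ, hAle⟩ := exists_A φ (X ⊓ (itr φ j).range) (by
    have := itr_range_finiteIndex hinj hfin j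
    infer_instance)
  obtain ⟨hch, m, hm⟩ := chain_unit φ hfin A hAn hAf hAφ
  obtain ⟨C, hC⟩ : ∃ C : ℕ → Subgroup Q, C = fun i => A.comap (itr φ i) := ⟨_, rfl⟩
  have hCi : ∀ i, A.comap (itr φ i) = C i := fun i => by rw [hC]
  simp only [hCi] at hch hm
  have hCn : ∀ i, (C i).Normal := fun i => by rw [hC]; infer_instance
  have h0 : C 0 = A := by
    rw [hC]
    ext x
    rfl
  have hc : ∀ i, ⁅G1, C (i + 1)⁆ ≤ C i := fun i =>
    hcen (C (i + 1)) (C i) (hCn _) (hCn _) (hch i).1 (hch i).2.1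
      ((hch i).2.2.trans (le_max_left _ _))
  have hAC : ∀ i, A ≤ C i := by
    intro i
    induction i with
    | zero => rw [h0]
    | succ i ih => exact ih.trans (hch i).1
  have hCmn : (C m).Normal := hCn m
  have hCmA : ∀ y ∈ C m, itr φ m y ∈ A := by
    intro y hy
    rw [hC] at hy
    exact hy
  obtain ⟨Y, hYdef⟩ : ∃ Y : Subgroup Q, Y = C m ⊓ X := ⟨_, rfl⟩
  have hYn : Y.Normal := by rw [hYdef]; infer_instance
  have hYC : Y ≤ C m := by rw [hYdef]; exact inf_le_left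
  have hYX : Y ≤ X := by rw [hYdef]; exact inf_le_right
  have hAY : A ≤ Y := by rw [hYdef]; exact le_inf (hAC m) (hAle.trans inf_le_left)
  have hYinv : ∀ y ∈ Y, φ y ∈ Y := by
    intro y hy
    have h1 : y ∈ (C m).comap φ := by rw [hm]; exact hYC hy
    rw [hYdef]
    exact ⟨h1, hXφ y (hYX hy)⟩
  have hY : Ad φ Q₀ Y := ⟨Subgroup.finiteIndex_of_le hAY, hYX.trans hX.le, hYinv⟩
  have hYA : ∀ y ∈ Y, itr φ m y ∈ A := fun y hy => hCmA y (hYC hy)
  have hXG1 : X ≤ G1 := hXle.trans inf_le_right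
  have hXX₁ : X ≤ X₁ := hXle.trans inf_le_left
  have hCYn : (Cl φ c Y).Normal := Cl_normal φ c Y hYinv
  obtain ⟨L, hL⟩ : ∃ L : Subgroup Q, L = A ⊔ Cl φ c Y := ⟨_, rfl⟩
  have hLn : L.Normal := by rw [hL]; infer_instance
  have hAL : A ≤ L := by rw [hL]; exact le_sup_left
  have hLY : L ≤ Y := by rw [hL]; exact sup_le hAY (Cl_le φ c Y)
  have hLinv : ∀ y ∈ L, φ y ∈ L := by
    have h1 : L.map φ ≤ L := by
      rw [hL, Subgroup.map_sup]
      apply sup_le_sup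
      · rintro _ ⟨a, ha, rfl⟩
        exact hAφ a ha
      · rintro _ ⟨a, ha, rfl⟩
        exact (Cl_fun φ c Q₀).map Y hY a ha
    intro y hy
    exact h1 ⟨y, hy, rfl⟩
  -- the two properties of normal invariant subgroups between `A` and `L`
  have key : ∀ W : Subgroup Q, W.Normal → (∀ w ∈ W, φ w ∈ W) → A ≤ W → W ≤ L →
      (A ⊔ W.lowerCentralSeries c).relIndex W ≠ 0 ∧
      (A ⊔ W.lowerCentralSeries c).relIndex W ≤ B ∧
      ⁅G1, W⁆ ≤ A ⊔ W.lowerCentralSeries c := by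
    intro W hWn hWinv hAW hWL
    have hW : Ad φ Q₀ W :=
      ⟨Subgroup.finiteIndex_of_le hAW, (hWL.trans hLY).trans hY.le, hWinv⟩
    have hWC : W ≤ A ⊔ Cl φ c W := by
      intro u hu
      have hu' := hWL hu
      rw [hL] at hu'
      obtain ⟨a, ha, g, hg, hag⟩ := Subgroup.mem_sup_of_normal_left.1 hu'
      have hgW : g ∈ W := by
        have h1 : g = a⁻¹ * u := by rw [← hag]; group
        rw [h1]
        exact mul_mem (inv_mem (hAW ha)) hu
      obtain ⟨v, hv, hvu⟩ := hext W Y hW hY (hWL.trans hLY) (hYX.trans hXX₁) g hgW hg m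
      have h1 : u = a * itr φ m v * ((itr φ m v)⁻¹ * g) := by rw [← hag]; group
      rw [h1]
      exact mul_mem (Subgroup.mem_sup_left
        (mul_mem ha (hYA v ((hWL.trans hLY) hv)))) (Subgroup.mem_sup_right hvu)
    obtain ⟨k1, k2, k3, k4⟩ := keyN φ c B Q₀ hH W A hW hWn hAn hAW hWC m
      (fun w hw => hYA w ((hWL.trans hLY) hw))
    exact ⟨k3, k4, hcen W _ hWn k1 k2 k3 (k4.trans (le_max_right _ _))⟩
  have hlcs : ∀ W : Subgroup Q, W.lowerCentralSeries c ≤ ⁅W, W⁆ := fun W =>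
    W.lowerCentralSeries_antitone hc1
  obtain ⟨W, hW⟩ : ∃ W : Subgroup Q, W = A ⊔ ⁅L, L⁆ := ⟨_, rfl⟩
  have hAW : A ≤ W := by rw [hW]; exact le_sup_left
  have hLLW : ⁅L, L⁆ ≤ W := by rw [hW]; exact le_sup_right
  have hWL : W ≤ L := by rw [hW]; exact sup_le hAL L.commutator_le_self
  have hWn : W.Normal := by rw [hW]; infer_instance
  have hWinv : ∀ w ∈ W, φ w ∈ W := by
    have h1 : W.map φ ≤ W := by
      rw [hW, Subgroup.map_sup, Subgroup.map_commutator]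
      apply sup_le_sup
      · rintro _ ⟨a, ha, rfl⟩
        exact hAφ a ha
      · apply Subgroup.commutator_mono
        · rintro _ ⟨a, ha, rfl⟩
          exact hLinv a ha
        · rintro _ ⟨a, ha, rfl⟩
          exact hLinv a ha
    intro y hy
    exact h1 ⟨y, hy, rfl⟩
  have kL := key L hLn hLinv hAL le_rfl
  have kW := key W hWn hWinv hAW hWL
  have hLG1 : L ≤ G1 := hLY.trans (hYX.trans hXG1)
  obtain ⟨T, hT⟩ : ∃ T : Subgroup Q, T = A ⊔ ⁅L, W⁆ := ⟨_, rfl⟩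
  have hTn : T.Normal := by rw [hT]; infer_instance
  have hAT : A ≤ T := by rw [hT]; exact le_sup_left
  have hLWT : ⁅L, W⁆ ≤ T := by rw [hT]; exact le_sup_right
  have hWW : ⁅W, W⁆ ≤ A ⊔ ⁅L, T⁆ := comm_WW A L W T hAn hLn hTn hW hT
  have hTT : T ≤ A ⊔ ⁅L, T⁆ := by
    conv_lhs => rw [hT]
    apply sup_le le_sup_left
    refine (Subgroup.commutator_mono hLG1 le_rfl).trans (kW.2.2.trans ?_)
    exact sup_le le_sup_left ((hlcs W).trans hWW)
  have hTC : ∀ i, i ≤ m → T ≤ C (m - i) := by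
    intro i
    induction i with
    | zero =>
      intro _
      have h1 : T ≤ L := by rw [hT]; exact sup_le hAL (Subgroup.commutator_le_left L W)
      exact h1.trans (hLY.trans hYC)
    | succ i ih =>
      intro hi
      have h1 := ih (by omega)
      have h2 : m - i = (m - (i + 1)) + 1 := by omega
      rw [h2] at h1
      refine hTT.trans (sup_le (hAC _) ?_)
      exact (Subgroup.commutator_mono hLG1 h1).trans (hc _)
  have hTA : T ≤ A := by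
    have h1 := hTC m le_rfl
    rwa [Nat.sub_self, h0] at h1
  have hWWA : W.lowerCentralSeries c ≤ A :=
    (hlcs W).trans ((Subgroup.commutator_mono hWL le_rfl).trans (hLWT.trans hTA))
  have hAW' : A ⊔ W.lowerCentralSeries c = A := sup_eq_left.2 hWWA
  rw [hAW'] at kW
  have hLW : W.relIndex L ≠ 0 ∧ W.relIndex L ≤ B := by
    have h1 : W.relIndex L ∣ (A ⊔ L.lowerCentralSeries c).relIndex L :=
      Subgroup.relIndex_dvd_of_le_left _ (sup_le hAW ((hlcs L).trans hLLW))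
    refine ⟨?_, (Nat.le_of_dvd (Nat.pos_of_ne_zero kL.1) h1).trans kL.2.1⟩
    intro h
    rw [h] at h1
    exact kL.1 (Nat.eq_zero_of_zero_dvd h1)
  have hAL' : A.relIndex L ≠ 0 ∧ A.relIndex L ≤ b := by
    rw [hb, ← Subgroup.relIndex_mul_relIndex _ _ _ hAW hWL]
    exact ⟨mul_ne_zero kW.1 hLW.1, Nat.mul_le_mul kW.2.1 hLW.2⟩
  have hnil := nil_section φ A L hAφ hAL m (fun y hy => hYA y (hLY hy)) hLinv hAL'.1
    b hAL'.2
  -- a power of the endomorphism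
  have hCmf : (C m).FiniteIndex := Subgroup.finiteIndex_of_le (hAC m)
  obtain ⟨r, hr, hrx⟩ := UNI_order φ (C m) hm
  have hrk : ∀ k : ℕ, ((itr φ (r * k) x : Q) : Q ⧸ C m) = (x : Q ⧸ C m) := by
    intro k
    induction k with
    | zero => rfl
    | succ k ih =>
      have e : r * (k + 1) = r + r * k := by ring
      rw [e, itr_add, hrx, ih]
  obtain ⟨M, hMj, hMx⟩ : ∃ M : ℕ, j ≤ M ∧
      ((itr φ M x : Q) : Q ⧸ C m) = (x : Q ⧸ C m) := by
    refine ⟨r * j, ?_, hrk _⟩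
    calc j ≤ 1 * j := by omega
      _ ≤ r * j := Nat.mul_le_mul_right _ hr
  have hy1 : x⁻¹ * itr φ M x ∈ Y := by
    rw [hYdef]
    exact ⟨QuotientGroup.eq.1 hMx.symm, X.mul_mem (X.inv_mem hx) (hXi M x hx)⟩
  have hCX : ∀ k, itr φ k x ∈ Cl φ c X := fun k =>
    itr_inv φ _ ((Cl_fun φ c Q₀).map X hX) k x hxC
  have hy3 : x⁻¹ * itr φ M x ∈ Cl φ c X := mul_mem (inv_mem hxC) (hCX M)
  have hy2 : x⁻¹ * itr φ M x ∈ L := by
    obtain ⟨v, hv, hvu⟩ := hext Y X hY hX hYX hXX₁ _ hy1 hy3 m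
    have h1 : x⁻¹ * itr φ M x = itr φ m v * ((itr φ m v)⁻¹ * (x⁻¹ * itr φ M x)) := by group
    rw [h1, hL]
    exact mul_mem (Subgroup.mem_sup_left (hYA v hv)) (Subgroup.mem_sup_right hvu)
  have hjr : itr φ b (itr φ M x) ∈ (itr φ j).range := by
    refine ⟨itr φ (b + M - j) x, ?_⟩
    rw [← itr_add, ← itr_add, Nat.add_sub_cancel' (by omega)]
  have hxr : itr φ b x ∈ (itr φ j).range := by
    have h1 : itr φ b x = itr φ b (itr φ M x) * (itr φ b (x⁻¹ * itr φ M x))⁻¹ := by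
      rw [map_mul (itr φ b) x⁻¹, map_inv]
      group
    rw [h1]
    exact mul_mem hjr (inv_mem (hAle (hnil _ hy2)).2)
  obtain ⟨z, hz⟩ := hxr
  exact ⟨z, by rw [← itr_eq_iterate]; exact hz⟩


/-- the kernel lies in the images, at one subgroup -/
theorem kerIm_at (φ : Q →* Q) (hinj : Function.Injective φ)
    (hfin : φ.range.FiniteIndex) (c : ℕ) (X : Subgroup Q) (hXf : X.FiniteIndex)
    (hX : ∀ x ∈ X, φ x ∈ X) (x : Q) (hx : x ∈ X)
    (k : ℕ) (hk : k.Coprime φ.range.index) (hxk : x ^ k ∈ X.lowerCentralSeries c) (j : ℕ) :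
    ∃ y ∈ X, (itr φ j y)⁻¹ * x ∈ X.lowerCentralSeries c := by
  refine (mem_range_tt φ c X hX j ⟨x, hx⟩).1 ?_
  have hnil : Group.IsNilpotent (X ⧸ Gm c X) := by
    rw [Subgroup.nilpotent_iff_lowerCentralSeries]
    refine ⟨c, ?_⟩
    have h1 : (⊤ : Subgroup (X ⧸ Gm c X)) = (⊤ : Subgroup X).map (QuotientGroup.mk' (Gm c X)) := by
      rw [← MonoidHom.range_eq_map, MonoidHom.range_eq_top.2 (QuotientGroup.mk'_surjective _)]
    rw [h1, ← Subgroup.map_lowerCentralSeries, eq_bot_iff]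
    rintro _ ⟨y, hy, rfl⟩
    rw [Subgroup.mem_bot]
    exact (QuotientGroup.eq_one_iff y).2 hy
  have hd := tt_dvd φ hinj c X hXf hX j
  refine nil_root (itr (tt φ c X hX) j).range ⟨?_⟩ k ?_ _ ?_
  · intro h0
    rw [h0] at hd
    exact pow_ne_zero _ hfin.index_ne_zero (Nat.eq_zero_of_zero_dvd hd)
  · exact (hk.pow_right j).coprime_dvd_right hd
  · have h1 : (((⟨x, hx⟩ : X) : X ⧸ Gm c X)) ^ k = 1 := by
      show (((⟨x, hx⟩ : X) ^ k : X) : X ⧸ Gm c X) = 1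
      rw [QuotientGroup.eq_one_iff, mem_Gm]
      exact hxk
    rw [h1]
    exact one_mem _

theorem tfaeN {Q : Type} [Group Q] [Group.FG Q] (φ : Q →* Q)
    (hinj : Function.Injective φ) (hfin : φ.range.FiniteIndex)
    (hcap : ∀ q : Q, (∀ k : ℕ, q ∈ Set.range (φ^[k])) → q = 1) (c : ℕ) (hc1 : 1 ≤ c) :
    List.TFAE [
      ∃ N : Subgroup Q, N.FiniteIndex ∧ N.lowerCentralSeries c = ⊥,
      ∃ Q₀ : Subgroup Q, Q₀.FiniteIndex ∧ ∀ X : Subgroup Q, X.Normal → X.FiniteIndex → X ≤ Q₀ →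
        (∀ x ∈ X, φ x ∈ X) → ∀ x ∈ X, φ x ∈ X.lowerCentralSeries c →
          x ∈ X.lowerCentralSeries c,
      ∃ Q₀ : Subgroup Q, Q₀.FiniteIndex ∧ ∀ X : Subgroup Q, X.Normal → X.FiniteIndex → X ≤ Q₀ →
        (∀ x ∈ X, φ x ∈ X) → ∀ x ∈ X, φ x ∈ X.lowerCentralSeries c →
          ∃ k : ℕ, k.Coprime φ.range.index ∧ x ^ k ∈ X.lowerCentralSeries c,
      ∃ Q₀ : Subgroup Q, Q₀.FiniteIndex ∧ ∀ X : Subgroup Q, X.Normal → X.FiniteIndex → X ≤ Q₀ →
        (∀ x ∈ X, φ x ∈ X) → ∀ x ∈ X, φ x ∈ X.lowerCentralSeries c →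
          ∀ j : ℕ, ∃ y ∈ X, ((φ^[j]) y)⁻¹ * x ∈ X.lowerCentralSeries c,
      ∃ (B : ℕ) (Q₀ : Subgroup Q), Q₀.FiniteIndex ∧ ∀ X : Subgroup Q, X.Normal →
        X.FiniteIndex → X ≤ Q₀ → (∀ x ∈ X, φ x ∈ X) → ∀ (k : ℕ) (f : Fin (B + 1) → Q),
          (∀ i, f i ∈ X ∧ (φ^[k]) (f i) ∈ X.lowerCentralSeries c) →
            ∃ i j, i ≠ j ∧ (f i)⁻¹ * f j ∈ X.lowerCentralSeries c] := by
  tfae_have 1 → 2 := by
    rintro ⟨N, hN, hNc⟩
    refine ⟨N, hN, fun X _ _ hXN _ x _ hφx => ?_⟩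
    have h1 : X.lowerCentralSeries c = ⊥ := by
      rw [eq_bot_iff, ← hNc]
      exact Subgroup.lowerCentralSeries_mono c hXN
    rw [h1, Subgroup.mem_bot] at hφx
    have h2 : x = 1 := hinj (hφx.trans (map_one φ).symm)
    rw [h2]
    exact one_mem _
  tfae_have 2 → 3 := by
    rintro ⟨Q₀, hQ₀, h⟩
    refine ⟨Q₀, hQ₀, fun X h0 h1 h2 h3 x h4 h5 => ⟨1, Nat.coprime_one_left _, ?_⟩⟩
    rw [pow_one]
    exact h X h0 h1 h2 h3 x h4 h5
  tfae_have 3 → 4 := by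
    rintro ⟨Q₀, hQ₀, h⟩
    refine ⟨Q₀, hQ₀, fun X h0 h1 h2 h3 x h4 h5 j => ?_⟩
    obtain ⟨k, hk, hxk⟩ := h X h0 h1 h2 h3 x h4 h5
    obtain ⟨y, hy, hyx⟩ := kerIm_at φ hinj hfin c X h1 h3 x h4 k hk hxk j
    refine ⟨y, hy, ?_⟩
    rw [← itr_eq_iterate]
    exact hyx
  tfae_have 2 → 5 := by
    rintro ⟨Q₀, hQ₀, h2⟩
    refine ⟨1, Q₀, hQ₀, fun X h1 h3 h4 h5 k f hf => ?_⟩
    have h6 : ∀ (k : ℕ) (x : Q), x ∈ X → (φ^[k]) x ∈ X.lowerCentralSeries c →
        x ∈ X.lowerCentralSeries c := by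
      intro k
      induction k with
      | zero => intro x _ hx; exact hx
      | succ k ih =>
        intro x hx hkx
        rw [Function.iterate_succ_apply] at hkx
        exact h2 X h1 h3 h4 h5 x hx (ih (φ x) (h5 x hx) hkx)
    refine ⟨0, 1, by decide, ?_⟩
    exact mul_mem (inv_mem (h6 k _ (hf 0).1 (hf 0).2)) (h6 k _ (hf 1).1 (hf 1).2)
  tfae_have 4 → 1 := by
    rintro ⟨Q₀, hQ₀, h⟩
    refine mainN φ hinj hfin hcap c hc1 1 Q₀ hQ₀ (fun X h0 h1 h2 h3 k m f hf => ?_)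
    -- the kernels of all iterates are contained in the images
    have h6 : ∀ (k : ℕ) (x : Q), x ∈ X → itr φ k x ∈ X.lowerCentralSeries c →
        ∀ m, ∃ y ∈ X, (itr φ m y)⁻¹ * x ∈ X.lowerCentralSeries c := by
      intro k
      induction k with
      | zero =>
        intro x _ hx m
        refine ⟨1, one_mem _, ?_⟩
        rw [map_one, inv_one, one_mul]
        exact hx
      | succ k ih =>
        intro x hx hkx m
        rw [itr_succ'] at hkx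
        obtain ⟨y, hy, hyx⟩ := ih (φ x) (h3 x hx) hkx (m + 1)
        -- `φ (φ^m(y)⁻¹ x) ∈ γ(X)`
        have h7 : φ ((itr φ m y)⁻¹ * x) ∈ X.lowerCentralSeries c := by
          rw [map_mul, map_inv, ← itr_succ]
          exact hyx
        have h8 : (itr φ m y)⁻¹ * x ∈ X := mul_mem (inv_mem (itr_inv φ X h3 m y hy)) hx
        obtain ⟨z, hz, hzx⟩ := h X h0 h1 h2 h3 _ h8 h7 m
        refine ⟨y * z, mul_mem hy hz, ?_⟩
        have h9 : (itr φ m (y * z))⁻¹ * x = (itr φ m z)⁻¹ * ((itr φ m y)⁻¹ * x) := by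
          rw [map_mul]
          group
        rw [h9, itr_eq_iterate φ m z]
        exact hzx
    refine ⟨0, 1, by decide, ?_⟩
    obtain ⟨y, hy, hyx⟩ := h6 k (f 0) (hf 0).1 (hf 0).2 m
    obtain ⟨z, hz, hzx⟩ := h6 k (f 1) (hf 1).1 (hf 1).2 m
    refine ⟨y⁻¹ * z, mul_mem (inv_mem hy) hz, ?_⟩
    -- write `f 0 = φ^m(y) a`, `f 1 = φ^m(z) b`
    have hn : (X.lowerCentralSeries c).Normal := inferInstance
    have e : (itr φ m (y⁻¹ * z))⁻¹ * ((f 0)⁻¹ * f 1) =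
        ((itr φ m z)⁻¹ * (itr φ m y) * ((itr φ m y)⁻¹ * f 0)⁻¹ * ((itr φ m z)⁻¹ * (itr φ m y))⁻¹) *
          ((itr φ m z)⁻¹ * f 1) := by
      rw [map_mul, map_inv]
      group
    rw [e]
    exact mul_mem (hn.conj_mem _ (inv_mem hyx) _) hzx
  tfae_have 5 → 1 := by
    rintro ⟨B, Q₀, hQ₀, h2⟩
    refine mainN φ hinj hfin hcap c hc1 B Q₀ hQ₀ (fun X h1 h3 h4 h5 k m f hf => ?_)
    obtain ⟨i, j, hij, hf2⟩ := h2 X h1 h3 h4 h5 k f (fun i => ⟨(hf i).1, by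
      rw [← itr_eq_iterate]
      exact (hf i).2⟩)
    refine ⟨i, j, hij, 1, one_mem _, ?_⟩
    rw [map_one, inv_one, one_mul]
    exact hf2
  tfae_finish

end BCX.INJ
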