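import Pool.Agent.BCX.Defs3

/-!
# The pairing of characters of the kernel
-/

set_option autoImplicit false

open CategoryTheory groupCohomology EssMap
open scoped commutatorElement

namespace BCX

/-- characters of a finite abelian group with values in `Z/n` -/
theorem pr_card_hom_le (A : Type) [CommGroup A] [Finite A] (n : ℕ) [NeZero n] :
    Finite (A →* Multiplicative (ZMod n)) ∧
      Nat.card (A →* Multiplicative (ZMod n)) ≤ Nat.card A := by
  classical
  have hinj : Function.Injective
      (fun f : A →* Multiplicative (ZMod n) =>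
        (MonoidHom.toHomUnits (ZMod.stdAddChar (N := n)).toMonoidHom).comp f) := by
    intro f g h
    ext x
    have h1 := DFunLike.congr_fun h x
    have h2 : ZMod.stdAddChar (N := n) (f x).toAdd = ZMod.stdAddChar (N := n) (g x).toAdd := by
      have := congrArg Units.val h1
      simpa using this
    exact ZMod.injective_stdAddChar h2
  haveI : Finite (A →* ℂˣ) := by
    refine Nat.finite_of_card_ne_zero ?_
    rw [CommGroup.card_monoidHom_of_hasEnoughRootsOfUnity A ℂ]
    exact Nat.card_pos.ne'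
  refine ⟨Finite.of_injective _ hinj, ?_⟩
  have := Nat.card_le_card_of_injective _ hinj
  rwa [CommGroup.card_monoidHom_of_hasEnoughRootsOfUnity A ℂ] at this

section

variable {G : Type} [Group G] (a : G →* Multiplicative ℤ) (m : ℕ)

/-- the cup product `w ∪ a ∪ v` -/
def cp (w v : G →* Multiplicative (ZMod m)) : G → G → G → ZMod m :=
  fun g h k => (w g).toAdd * (((a h).toAdd : ZMod m) * (v k).toAdd)

variable {a m}

theorem cp_z3 (w v : G →* Multiplicative (ZMod m)) : IsZ3 (cp a m w v) := by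
  intro g h k l
  simp only [cp, map_mul, toAdd_mul, Int.cast_add]
  ring

theorem cp_mul_left (w w' v : G →* Multiplicative (ZMod m)) :
    cp a m (w * w') v = cp a m w v + cp a m w' v := by
  funext g h k
  simp only [cp, MonoidHom.mul_apply, toAdd_mul, Pi.add_apply]
  ring

theorem cp_mul_right (w v v' : G →* Multiplicative (ZMod m)) :
    cp a m w (v * v') = cp a m w v + cp a m w v' := by
  funext g h k
  simp only [cp, MonoidHom.mul_apply, toAdd_mul, Pi.add_apply]
  ring

/-- half of `n (n - 1)` along `a` -/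
theorem tri (x y : ℤ) : (x + y) * (x + y - 1) / 2 = x * (x - 1) / 2 + y * (y - 1) / 2 + x * y := by
  have h1 : ∀ z : ℤ, 2 ∣ z * (z - 1) := by
    intro z
    have := Int.even_mul_pred_self z
    exact this.two_dvd
  obtain ⟨p, hp⟩ := h1 x
  obtain ⟨q, hq⟩ := h1 y
  obtain ⟨r, hr⟩ := h1 (x + y)
  rw [hp, hq, hr]
  rw [Int.mul_ediv_cancel_left _ two_ne_zero, Int.mul_ediv_cancel_left _ two_ne_zero,
    Int.mul_ediv_cancel_left _ two_ne_zero]
  nlinarith

/-- `c a ∪ a ∪ v` is a coboundary -/
theorem cp_left_a (w v : G →* Multiplicative (ZMod m)) (c : ZMod m)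
    (hw : ∀ g, (w g).toAdd = c * ((a g).toAdd : ZMod m)) : IsB3 (cp a m w v) := by
  refine ⟨fun g h => -(c * ((((a g).toAdd * ((a g).toAdd - 1) / 2 : ℤ)) : ZMod m) *
    (v h).toAdd), fun g h k => ?_⟩
  simp only [cp, hw, map_mul, toAdd_mul, tri]
  push_cast
  ring

/-- `w ∪ a ∪ c a` is a coboundary -/
theorem cp_right_a (w v : G →* Multiplicative (ZMod m)) (c : ZMod m)
    (hv : ∀ g, (v g).toAdd = c * ((a g).toAdd : ZMod m)) : IsB3 (cp a m w v) := by
  refine ⟨fun g h => c * ((((a h).toAdd * ((a h).toAdd - 1) / 2 : ℤ)) : ZMod m) *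
    (w g).toAdd, fun g h k => ?_⟩
  simp only [cp, hv, map_mul, toAdd_mul, tri]
  push_cast
  ring

theorem b3_add {A : Type} [AddCommGroup A] {d d' : G → G → G → A} (h : IsB3 d) (h' : IsB3 d') :
    IsB3 (d + d') := by
  obtain ⟨b, hb⟩ := h
  obtain ⟨b', hb'⟩ := h'
  refine ⟨b + b', fun g h k => ?_⟩
  simp only [Pi.add_apply, hb, hb']
  abel

/-- every homomorphism is an extension of a character of the kernel plus a multiple of `a` -/
theorem ker_decomp {t : G} (ht : a t = Multiplicative.ofAdd 1)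
    {w w' : G →* Multiplicative (ZMod m)} (h : ∀ x ∈ a.ker, w x = w' x) :
    ∃ z : G →* Multiplicative (ZMod m), ∃ c : ZMod m, w = z * w' ∧
      ∀ g, (z g).toAdd = c * ((a g).toAdd : ZMod m) := by
  refine ⟨w * w'⁻¹, ((w * w'⁻¹) t).toAdd, ?_, fun g => ?_⟩
  · ext x
    simp
  · have h1 : g * (t ^ (a g).toAdd)⁻¹ ∈ a.ker := by
      rw [MonoidHom.mem_ker, map_mul, map_inv, map_zpow, ht, ← ofAdd_zsmul]
      simp
    have h2 := h _ h1
    have h3 : (w * w'⁻¹) (g * (t ^ (a g).toAdd)⁻¹) = 1 := by
      rw [MonoidHom.mul_apply, MonoidHom.inv_apply, h2, mul_inv_cancel]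
    rw [map_mul, map_inv, map_zpow, mul_inv_eq_one] at h3
    rw [h3, toAdd_zpow, zsmul_eq_mul, mul_comm]

end

end BCX
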