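import Pool.Agent.BCX.UNB
import Pool.Agent.BCX.UNI
import Pool.Agent.BCX.NilpP
import Pool.Agent.BCX.Chr
import Pool.Agent.PCN.Contr

/-!
# No stable characters modulo the primes that divide the degree
-/

set_option autoImplicit false

open EssMap
open scoped commutatorElement

namespace BCX

/-- No subgroup `X` of finite index with `φ^m(X) ≤ X` has a nonzero character modulo a prime
divisor of the degree that is fixed by `φ^m`. -/
def NoSt {Q : Type} [Group Q] (φ : Q →* Q) : Prop :=
  ∀ p : ℕ, p.Prime → p ∣ φ.range.index → ∀ (X : Subgroup Q) (m : ℕ), X.FiniteIndex → 0 < m →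
    ∀ (hX : ∀ x ∈ X, φ^[m] x ∈ X) (c : X →* Multiplicative (ZMod p)),
      (∀ x : X, c ⟨φ^[m] x, hX x x.2⟩ = c x) → c = 1

theorem rel_dvd {G : Type*} [Group G] (S K : Subgroup G) [hK : K.Normal] (hKf : K.index ≠ 0) :
    S.relIndex K ∣ S.index := by
  have h1 : (S ⊓ K).relIndex K * K.index = (S ⊓ K).index :=
    Subgroup.relIndex_mul_index inf_le_right
  have h2 : (S ⊓ K).relIndex S * S.index = (S ⊓ K).index :=
    Subgroup.relIndex_mul_index inf_le_left
  rw [Subgroup.inf_relIndex_right] at h1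
  rw [Subgroup.inf_relIndex_left] at h2
  obtain ⟨e, he⟩ : K.relIndex S ∣ K.index := Subgroup.relIndex_dvd_index_of_normal K S
  have h0 : K.relIndex S ≠ 0 := by
    intro h
    apply hKf
    rw [he, h, zero_mul]
  refine ⟨e, ?_⟩
  have h3 : K.relIndex S * (S.relIndex K * e) = K.relIndex S * S.index := by
    rw [h2, ← h1, he]
    ring
  exact (Nat.eq_of_mul_eq_mul_left (Nat.pos_of_ne_zero h0) h3).symm

theorem unit_index_st {G : Type} [Group G] (θ : G →* G) (hst : NoSt θ) (p : ℕ) (hpp : p.Prime)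
    (hp : p ∣ θ.range.index)
    (V : Subgroup G) (hV : V.Normal) (hVf : V.FiniteIndex) (h : V.comap θ = V) :
    ¬ p ∣ V.index := by
  intro hpV
  have : Fact p.Prime := ⟨hpp⟩
  obtain ⟨m, hm, hmx⟩ := UNI_order θ V h
  have hfinQ : Finite (G ⧸ V) := Subgroup.finite_quotient_of_finiteIndex
  obtain ⟨g, hg⟩ := exists_prime_orderOf_dvd_card' (G := G ⧸ V) p hpV
  let X : Subgroup G := (Subgroup.zpowers g).comap (QuotientGroup.mk' V)
  have hmemX : ∀ x : G, x ∈ X ↔ (x : G ⧸ V) ∈ Subgroup.zpowers g := fun x => Iff.rfl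
  have hVX : V ≤ X := by
    intro x hx
    rw [hmemX, (QuotientGroup.eq_one_iff x).2 hx]
    exact one_mem _
  have hXf : X.FiniteIndex := Subgroup.finiteIndex_of_le hVX
  have hmx' : ∀ x : G, ((θ^[m] x : G) : G ⧸ V) = (x : G ⧸ V) := by
    intro x
    rw [← itr_eq_iterate]
    exact hmx x
  have hX : ∀ x ∈ X, θ^[m] x ∈ X := by
    intro x hx
    rw [hmemX] at hx ⊢
    rw [hmx']
    exact hx
  let E : Subgroup.zpowers g ≃* Multiplicative (ZMod p) :=
    mulEquivOfPrimeCardEq (p := p) (by rw [Nat.card_zpowers, hg])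
      (by rw [Nat.card_eq_fintype_card, Fintype.card_multiplicative, ZMod.card])
  let π : X →* Subgroup.zpowers g :=
    ((QuotientGroup.mk' V).comp X.subtype).codRestrict (Subgroup.zpowers g) (fun x => x.2)
  have hπ : ∀ x : X, π ⟨θ^[m] x, hX x x.2⟩ = π x := fun x => Subtype.ext (hmx' x)
  obtain ⟨x₀, hx₀⟩ := QuotientGroup.mk_surjective g
  have hx₀X : x₀ ∈ X := by
    rw [hmemX, hx₀]
    exact Subgroup.mem_zpowers g
  have h1 := DFunLike.congr_fun (hst p hpp hp X m hXf hm hX (E.toMonoidHom.comp π) (fun x => by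
    rw [MonoidHom.comp_apply, MonoidHom.comp_apply, hπ])) ⟨x₀, hx₀X⟩
  have h2 : E (π ⟨x₀, hx₀X⟩) = 1 := h1
  rw [map_eq_one_iff E E.injective] at h2
  have h3 : (x₀ : G ⧸ V) = 1 := congrArg Subtype.val h2
  rw [hx₀] at h3
  rw [h3, orderOf_one] at hg
  exact hpp.one_lt.ne hg

/-- a normal subgroup of `p`-power index contains a term of the series -/
theorem term_le {X : Type} [Group X] (p : ℕ) [hp : Fact p.Prime] : ∀ (a : ℕ)
    (K : Subgroup X), K.Normal → K.index = p ^ a → ∃ m, (PCN.L p m : Subgroup X) ≤ K := by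
  intro a
  induction a with
  | zero =>
    intro K _ hK
    refine ⟨0, ?_⟩
    rw [pow_zero, Subgroup.index_eq_one] at hK
    rw [hK]
    exact le_top
  | succ a ih =>
    intro K hKn hK
    have hcard : Nat.card (X ⧸ K) = p ^ (a + 1) := hK
    have hfin : Finite (X ⧸ K) := Nat.finite_of_card_ne_zero (by
      rw [hcard]; exact pow_ne_zero _ hp.out.ne_zero)
    have hP : IsPGroup p (X ⧸ K) := IsPGroup.of_card hcard
    have hnt : Nontrivial (X ⧸ K) := by
      rw [← Finite.one_lt_card_iff_nontrivial, hcard]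
      exact Nat.one_lt_pow (Nat.succ_ne_zero a) hp.out.one_lt
    have hcnt : Nontrivial (Subgroup.center (X ⧸ K)) := hP.center_nontrivial
    have hPc : IsPGroup p (Subgroup.center (X ⧸ K)) := hP.to_subgroup _
    obtain ⟨k, hk⟩ := IsPGroup.iff_card.mp hPc
    have hk0 : k ≠ 0 := by
      rintro rfl
      rw [pow_zero] at hk
      have := Finite.one_lt_card_iff_nontrivial.mpr hcnt
      omega
    obtain ⟨z, hz⟩ := exists_prime_orderOf_dvd_card' (G := Subgroup.center (X ⧸ K)) p
      (by rw [hk]; exact dvd_pow_self p hk0)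
    have hzo : orderOf (z : X ⧸ K) = p := by rw [Subgroup.orderOf_coe, hz]
    set Z : Subgroup (X ⧸ K) := Subgroup.zpowers (z : X ⧸ K) with hZ
    have hZc : Z ≤ Subgroup.center (X ⧸ K) := by
      rw [hZ, Subgroup.zpowers_le]
      exact z.2
    have hZn : Z.Normal := by
      constructor
      intro n hn g
      have h1 := Subgroup.mem_center_iff.mp (hZc hn) g
      rw [h1, mul_inv_cancel_right]
      exact hn
    set K' : Subgroup X := Z.comap (QuotientGroup.mk' K) with hK'
    have hK'n : K'.Normal := hZn.comap _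
    have hidx : K'.index = p ^ a := by
      rw [hK', Subgroup.index_comap_of_surjective _ (QuotientGroup.mk'_surjective K)]
      have h1 := Z.card_mul_index
      rw [hcard, hZ, Nat.card_zpowers, hzo, pow_succ'] at h1
      exact Nat.eq_of_mul_eq_mul_left hp.out.pos h1
    obtain ⟨m, hm⟩ := ih K' hK'n hidx
    refine ⟨m + 1, ?_⟩
    rw [PCN.L_succ, sup_le_iff]
    constructor
    · rw [Subgroup.commutator_le]
      intro x hx g _
      have h1 : (QuotientGroup.mk' K x) ∈ Subgroup.center (X ⧸ K) := hZc (hm hx)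
      have h2 := Subgroup.mem_center_iff.mp h1 (QuotientGroup.mk' K g)
      have h3 : QuotientGroup.mk' K ⁅x, g⁆ = 1 := by
        rw [map_commutatorElement, commutatorElement_eq_one_iff_mul_comm]
        exact h2.symm
      exact (QuotientGroup.eq_one_iff _).mp h3
    · refine PCN.pw_le fun x hx => ?_
      have h1 : (QuotientGroup.mk' K x) ∈ Z := hm hx
      obtain ⟨i, hi⟩ := Subgroup.mem_zpowers_iff.mp h1
      have h2 : QuotientGroup.mk' K (x ^ p) = 1 := by
        rw [map_pow, ← hi, ← zpow_natCast, ← zpow_mul, mul_comm, zpow_mul, zpow_natCast]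
        have : (z : X ⧸ K) ^ p = 1 := by
          have := pow_orderOf_eq_one (z : X ⧸ K)
          rwa [hzo] at this
        rw [this, one_zpow]
      exact (QuotientGroup.eq_one_iff _).mp h2

/-- elements in all terms of all series lie in all images -/
theorem resid {G : Type} [Group G] [Group.FG G] (θ : G →* G)
    (hinj : Function.Injective θ) (hfin : θ.range.FiniteIndex) (hst : NoSt θ)
    (X : Subgroup G) (hXn : X.Normal) (hXf : X.FiniteIndex)
    (hcen : ∀ E F : Subgroup G, E.Normal → F.Normal →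
      F ≤ E → F.relIndex E ≠ 0 → F.relIndex E ≤ θ.range.index → ⁅X, E⁆ ≤ F)
    (x : X) (hx : ∀ p : ℕ, p.Prime → p ∣ θ.range.index → ∀ m, x ∈ (PCN.L p m : Subgroup X))
    (j : ℕ) : (x : G) ∈ (itr θ j).range := by
  classical
  have hSf : (itr θ j).range.FiniteIndex :=
    ⟨by rw [itr_index θ hinj]; exact pow_ne_zero _ hfin.index_ne_zero⟩
  obtain ⟨A, hAn, hAf, hAθ, hAle⟩ := exists_A θ (itr θ j).range hSf
  obtain ⟨hch, m, hm⟩ := chain_unit θ hfin A hAn hAf hAθ
  set C : ℕ → Subgroup G := fun i => A.comap (itr θ i) with hC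
  have hCn : ∀ i, (C i).Normal := fun i => by rw [hC]; infer_instance
  have h0 : C 0 = A := by
    ext x
    rfl
  have hc : ∀ i, ⁅X, C (i + 1)⁆ ≤ C i := fun i =>
    hcen (C (i + 1)) (C i) (hCn _) (hCn _) (hch i).1 (hch i).2.1 (hch i).2.2
  have hAC : ∀ i, A ≤ C i := by
    intro i
    induction i with
    | zero => rw [h0]
    | succ i ih => exact ih.trans (hch i).1
  have hVf : (C m).FiniteIndex := Subgroup.finiteIndex_of_le (hAC m)
  let A1 : Subgroup X := A.subgroupOf X
  have hA1n : A1.Normal := inferInstance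
  have hA1f : A1.FiniteIndex := inferInstance
  have hfin1 : Finite (X ⧸ A1) := inferInstance
  have hR : ∀ p : ℕ, ∃ R : Subgroup (X ⧸ A1), R.Normal ∧ (QuotientGroup.mk' A1 x) ∈ R ∧
      (p.Prime → p ∣ θ.range.index → ¬ p ∣ Nat.card R) := by
    intro p
    by_cases hp : p.Prime ∧ p ∣ θ.range.index
    · have hpf : Fact p.Prime := ⟨hp.1⟩
      have hV : ¬ p ∣ (C m).index :=
        unit_index_st θ hst p hp.1 hp.2 (C m) (hCn m) hVf hm
      have h1 : ¬ p ∣ (Subgroup.upperCentralSeries (X ⧸ A1) m).index := by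
        intro h
        apply hV
        have h2 : ((C m).subgroupOf X) ≤
            (Subgroup.upperCentralSeries (X ⧸ A1) m).comap (QuotientGroup.mk' A1) := by
          intro x hx
          exact ucs_ge X A hAn C h0 hc m x hx
        have h3 := Subgroup.index_dvd_of_le h2
        rw [Subgroup.index_comap_of_surjective _ (QuotientGroup.mk'_surjective _)] at h3
        have h4 : ((C m).subgroupOf X).index ∣ (C m).index := by
          have hn : (C m).Normal := hCn m
          exact Subgroup.relIndex_dvd_index_of_normal _ _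
        exact h.trans (h3.trans h4)
      obtain ⟨R, hRn, ⟨a, ha⟩, hR⟩ := p_compl m h1
      refine ⟨R, hRn, ?_, fun _ _ => hR⟩
      obtain ⟨l, hl⟩ := term_le p a (R.comap (QuotientGroup.mk' A1)) (hRn.comap _) (by
        rw [Subgroup.index_comap_of_surjective _ (QuotientGroup.mk'_surjective _), ha])
      exact hl (hx p hp.1 hp.2 l)
    · exact ⟨⊤, inferInstance, Subgroup.mem_top _, fun h1 h2 => absurd ⟨h1, h2⟩ hp⟩
  choose R hRn hRx hRp using hR
  let R0 : Subgroup (X ⧸ A1) := ⨅ p, R p
  have hR0n : R0.Normal := Subgroup.normal_iInf_normal hRn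
  have hR0x : QuotientGroup.mk' A1 x ∈ R0 := Subgroup.mem_iInf.2 hRx
  let K : Subgroup X := R0.comap (QuotientGroup.mk' A1)
  have hKn : K.Normal := hR0n.comap _
  have hKx : x ∈ K := hR0x
  have hA1K : A1 ≤ K := by
    intro y hy
    show QuotientGroup.mk' A1 y ∈ R0
    have : QuotientGroup.mk' A1 y = 1 := (QuotientGroup.eq_one_iff y).2 hy
    rw [this]
    exact one_mem _
  have hKf : K.FiniteIndex := Subgroup.finiteIndex_of_le hA1K
  let S : Subgroup X := (itr θ j).range.subgroupOf X
  have hAS : A1 ≤ S := fun y hy => hAle hy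
  -- the index of `S ∩ K` in `K`
  have h1 : S.relIndex K ∣ Nat.card R0 := by
    have h2 : A1.relIndex K = Nat.card R0 := by
      have h3 : A1.relIndex K * K.index = A1.index := Subgroup.relIndex_mul_index hA1K
      have h4 : K.index = R0.index :=
        Subgroup.index_comap_of_surjective _ (QuotientGroup.mk'_surjective _)
      have h5 : Nat.card R0 * R0.index = A1.index := Subgroup.card_mul_index R0
      rw [h4, ← h5] at h3
      exact Nat.eq_of_mul_eq_mul_right (Nat.pos_of_ne_zero (h4 ▸ hKf.index_ne_zero)) h3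
    rw [← h2]
    exact Subgroup.relIndex_dvd_of_le_left K hAS
  have h2 : S.relIndex K ∣ θ.range.index ^ j := by
    refine (rel_dvd S K hKf.index_ne_zero).trans ?_
    rw [← itr_index θ hinj]
    exact rel_dvd (itr θ j).range X hXf.index_ne_zero
  have h3 : Nat.Coprime (Nat.card R0) (θ.range.index ^ j) := by
    apply Nat.Coprime.pow_right
    apply Nat.Coprime.symm
    apply Nat.coprime_of_dvd
    intro p hp hpD hpR
    apply hRp p hp hpD
    exact hpR.trans (Subgroup.card_dvd_of_le (iInf_le R p))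
  have h4 : S.relIndex K = 1 := Nat.eq_one_of_dvd_coprimes h3 h1 h2
  exact (Subgroup.relIndex_eq_one.1 h4) hKx

/-- THEOREM P: no stable characters modulo the prime divisors of the degree. -/
theorem nilp_of_noSt {Q : Type} [Group Q] [Group.FG Q] (φ : Q →* Q)
    (hinj : Function.Injective φ) (hfin : φ.range.FiniteIndex)
    (hcap : ∀ q : Q, (∀ k : ℕ, q ∈ Set.range (φ^[k])) → q = 1) (hst : NoSt φ) :
    ∃ N : Subgroup Q, N.FiniteIndex ∧ Group.IsNilpotent N := by
  classical
  obtain ⟨G1, hG1n, hG1f, hcen⟩ := exists_cen (G := Q) φ.range.index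
  obtain ⟨X, hXn, hXf, hXφ, hXG1⟩ := exists_A φ G1 hG1f
  have hcen' : ∀ E F : Subgroup Q, E.Normal → F.Normal →
      F ≤ E → F.relIndex E ≠ 0 → F.relIndex E ≤ φ.range.index → ⁅X, E⁆ ≤ F :=
    fun E F hE hF hFE h1 h2 =>
      (Subgroup.commutator_mono hXG1 le_rfl).trans (hcen E F hE hF hFE h1 h2)
  have hXfg : Group.FG X := inferInstance
  have hψf : (rst φ X hXφ).range.FiniteIndex := rst_fin hinj hfin X hXf hXφ
  have hit : ∀ (n : ℕ) (x : X), (((rst φ X hXφ)^[n] x : X) : Q) = φ^[n] x := by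
    intro n x
    rw [← itr_eq_iterate, ← itr_eq_iterate, itr_rst]
  -- contraction modulo each prime
  have hcon : ∀ p : ℕ, ∃ n w : ℕ, (p.Prime → p ∣ φ.range.index →
      (PCN.L p n : Subgroup X).FiniteIndex ∧
      ∀ x : X, x ∈ (⊤ : Subgroup X).lowerCentralSeries w → x ∈ (PCN.L p n : Subgroup X) →
        ∀ m, x ∈ (PCN.L p m : Subgroup X)) := by
    intro p
    by_cases hp : p.Prime ∧ p ∣ φ.range.index
    · have hpf : Fact p.Prime := ⟨hp.1⟩
      have hW : Finite (X →* Multiplicative (ZMod p)) := finite_hom X (Multiplicative (ZMod p))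
      obtain ⟨n, hn, hi⟩ := exists_idem_iter
        (fun c : X →* Multiplicative (ZMod p) => c.comp (rst φ X hXφ))
      have hT : ∀ (k : ℕ) (c : X →* Multiplicative (ZMod p)) (x : X),
          ((fun c : X →* Multiplicative (ZMod p) => c.comp (rst φ X hXφ))^[k] c) x =
            c ((rst φ X hXφ)^[k] x) := by
        intro k
        induction k with
        | zero => intro c x; rfl
        | succ k ih =>
          intro c x
          rw [Function.iterate_succ_apply, ih, Function.iterate_succ_apply']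
          rfl
      have hX : ∀ x ∈ X, φ^[n] x ∈ X := by
        intro x hx
        rw [← hit n ⟨x, hx⟩]
        exact SetLike.coe_mem _
      have hz : ∀ (c : X →* Multiplicative (ZMod p)) (x : X),
          c ((rst φ X hXφ)^[n] x) = 1 := by
        intro c x
        have h1 := hst p hp.1 hp.2 X n hXf hn hX
          ((fun c : X →* Multiplicative (ZMod p) => c.comp (rst φ X hXφ))^[n] c) (fun y => by
            have h2 := DFunLike.congr_fun (hi c) y
            rw [hT n _ y] at h2
            rw [← h2]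
            congr 1
            exact Subtype.ext (hit n y).symm)
        rw [← hT, h1]
        rfl
      obtain ⟨n', w, h1, h2⟩ := contr_core p (rst φ X hXφ) hψf n (fun x => by
        apply mem_L_one
        intro c
        exact hz c x)
      exact ⟨n', w, fun _ _ => ⟨h1, h2⟩⟩
    · exact ⟨0, 0, fun h1 h2 => absurd ⟨h1, h2⟩ hp⟩
  choose n w hnw using hcon
  have hD0 : φ.range.index ≠ 0 := hfin.index_ne_zero
  let P : Finset ℕ := φ.range.index.primeFactors
  have hP : ∀ p, p ∈ P ↔ p.Prime ∧ p ∣ φ.range.index := by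
    intro p
    show p ∈ φ.range.index.primeFactors ↔ _
    rw [Nat.mem_primeFactors]
    exact ⟨fun h => ⟨h.1, h.2.1⟩, fun h => ⟨h.1, h.2, hD0⟩⟩
  let N : Subgroup X := ⨅ p : P, PCN.L (p : ℕ) (n p)
  have hNf : N.FiniteIndex := by
    apply Subgroup.finiteIndex_iInf
    intro p
    exact (hnw p ((hP p).1 p.2).1 ((hP p).1 p.2).2).1
  let w0 : ℕ := P.sup w
  have hbot : (⊤ : Subgroup N).lowerCentralSeries w0 = ⊥ := by
    rw [eq_bot_iff]
    intro y hy
    have h1 : (N.subtype y) ∈ (⊤ : Subgroup X).lowerCentralSeries w0 := by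
      have h2 : ((⊤ : Subgroup N).lowerCentralSeries w0).map N.subtype ≤
          (⊤ : Subgroup X).lowerCentralSeries w0 := by
        rw [Subgroup.map_lowerCentralSeries]
        exact Subgroup.lowerCentralSeries_mono w0 le_top
      exact h2 ⟨y, hy, rfl⟩
    have h3 : ∀ p : ℕ, p.Prime → p ∣ φ.range.index → ∀ m,
        (N.subtype y) ∈ (PCN.L p m : Subgroup X) := by
      intro p hp hpD m
      have hpP : p ∈ P := (hP p).2 ⟨hp, hpD⟩
      refine (hnw p hp hpD).2 _ ?_ ?_ m
      · exact Subgroup.lowerCentralSeries_antitone _ (Finset.le_sup hpP) h1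
      · exact (Subgroup.mem_iInf.1 y.2) ⟨p, hpP⟩
    have h4 : ((N.subtype y : X) : Q) = 1 := by
      apply hcap
      intro k
      obtain ⟨z, hz⟩ := resid φ hinj hfin hst X hXn hXf hcen' (N.subtype y) h3 k
      exact ⟨z, by rw [← itr_eq_iterate]; exact hz⟩
    rw [Subgroup.mem_bot]
    exact Subtype.ext (Subtype.ext h4)
  have hNn : Group.IsNilpotent N := by
    rw [Subgroup.nilpotent_iff_lowerCentralSeries]
    exact ⟨w0, hbot⟩
  refine ⟨N.map X.subtype, ⟨?_⟩, ?_⟩
  · rw [Subgroup.index_map_subtype]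
    exact mul_ne_zero hNf.index_ne_zero hXf.index_ne_zero
  · exact Group.nilpotent_of_mulEquiv (N.equivMapOfInjective X.subtype X.subtype_injective)

theorem rst_idx {Q : Type*} [Group Q] {φ : Q →* Q} (h : Function.Injective φ)
    (G : Subgroup Q) (hGf : G.FiniteIndex) (hG : ∀ x ∈ G, φ x ∈ G) :
    (rst φ G hG).range.index = φ.range.index := by
  have h1 : (rst φ G hG).range.map G.subtype = G.map φ := by
    ext x
    constructor
    · rintro ⟨_, ⟨y, rfl⟩, rfl⟩
      exact ⟨y, y.2, rfl⟩
    · rintro ⟨y, hy, rfl⟩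
      exact ⟨_, ⟨⟨y, hy⟩, rfl⟩, rfl⟩
  have h2 := Subgroup.index_map_subtype (rst φ G hG).range
  rw [h1, Subgroup.index_map_of_injective _ h, mul_comm] at h2
  exact (Nat.eq_of_mul_eq_mul_right (Nat.pos_of_ne_zero hGf.index_ne_zero) h2).symm

/-- THEOREM P, for the subgroups of a subgroup of finite index. -/
theorem nilp_of_noSt_sub {Q : Type} [Group Q] [Group.FG Q] (φ : Q →* Q)
    (hinj : Function.Injective φ) (hfin : φ.range.FiniteIndex)
    (hcap : ∀ q : Q, (∀ k : ℕ, q ∈ Set.range (φ^[k])) → q = 1)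
    (Q0 : Subgroup Q) (hQ0 : Q0.FiniteIndex)
    (hst : ∀ p : ℕ, p.Prime → p ∣ φ.range.index → ∀ (X : Subgroup Q) (m : ℕ), X ≤ Q0 →
      X.FiniteIndex → 0 < m → ∀ (hX : ∀ x ∈ X, φ^[m] x ∈ X) (c : X →* Multiplicative (ZMod p)),
      (∀ x : X, c ⟨φ^[m] x, hX x x.2⟩ = c x) → c = 1) :
    ∃ N : Subgroup Q, N.FiniteIndex ∧ Group.IsNilpotent N := by
  obtain ⟨G, -, hGf, hGφ, hGQ⟩ := exists_A φ Q0 hQ0
  have hGfg : Group.FG G := inferInstance
  have hit : ∀ (n : ℕ) (x : G), (((rst φ G hGφ)^[n] x : G) : Q) = φ^[n] x := by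
    intro n x
    rw [← itr_eq_iterate, ← itr_eq_iterate, itr_rst]
  obtain ⟨N, hNf, hNn⟩ := nilp_of_noSt (rst φ G hGφ) (rst_inj hinj G hGφ)
    (rst_fin hinj hfin G hGf hGφ) (fun q hq => by
      apply Subtype.ext
      apply hcap
      intro k
      obtain ⟨z, hz⟩ := hq k
      exact ⟨z, by rw [← hit, hz]⟩) (by
      intro p hp hpD X m hXf hm hX c hc
      rw [rst_idx hinj G hGf hGφ] at hpD
      let e : X ≃* X.map G.subtype := X.equivMapOfInjective G.subtype G.subtype_injective
      have he : ∀ x : X, ((e x : Q)) = ((x : G) : Q) := fun x => rfl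
      have hYf : (X.map G.subtype).FiniteIndex := by
        constructor
        rw [Subgroup.index_map_subtype]
        exact mul_ne_zero hXf.index_ne_zero hGf.index_ne_zero
      have hY : ∀ y ∈ X.map G.subtype, φ^[m] y ∈ X.map G.subtype := by
        rintro _ ⟨x, hx, rfl⟩
        exact ⟨(rst φ G hGφ)^[m] x, hX x hx, hit m x⟩
      have h1 := hst p hp hpD (X.map G.subtype) m (by
        rintro _ ⟨x, -, rfl⟩
        exact hGQ x.2) hYf hm hY (c.comp e.symm.toMonoidHom) (by
          intro y
          obtain ⟨x, rfl⟩ := e.surjective y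
          have h2 : e ⟨(rst φ G hGφ)^[m] x, hX x x.2⟩ = ⟨φ^[m] (e x : Q), hY _ (e x).2⟩ := by
            apply Subtype.ext
            exact hit m x
          rw [← h2]
          show c (e.symm (e _)) = c (e.symm (e x))
          rw [e.symm_apply_apply, e.symm_apply_apply, hc])
      ext x
      have h3 := DFunLike.congr_fun h1 (e x)
      have h4 : c (e.symm (e x)) = 1 := h3
      rw [e.symm_apply_apply] at h4
      rw [h4]
      rfl)
  refine ⟨N.map G.subtype, ⟨?_⟩, ?_⟩
  · rw [Subgroup.index_map_subtype]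
    exact mul_ne_zero hNf.index_ne_zero hGf.index_ne_zero
  · exact Group.nilpotent_of_mulEquiv (N.equivMapOfInjective G.subtype G.subtype_injective)

end BCX
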