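import Pool.Agent.BCX.Defs

/-!
# BCX, row STA: stable and nilpotent parts of an endomorphism of a finite group
-/

set_option autoImplicit false

open CategoryTheory groupCohomology EssMap
open scoped commutatorElement

namespace BCX

/-- the iterate as an additive homomorphism -/
private def STA_it {W : Type*} [AddCommGroup W] (T : W →+ W) (k : ℕ) : W →+ W where
  toFun := T^[k]
  map_zero' := iterate_map_zero T k
  map_add' := iterate_map_add T k

/-- ranges and kernels of a large iterate are the stable and the nilpotent part -/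
private theorem STA_stab {W : Type*} [AddCommGroup W] [Finite W] (T : W →+ W) :
    ∃ N : ℕ, (∀ x, x ∈ st T ↔ ∃ y, T^[N] y = x) ∧ (∀ x, x ∈ nl T ↔ T^[N] x = 0) := by
  classical
  have := Fintype.ofFinite W
  -- the nilpotent part
  have h1 : ∃ N : ℕ, ∀ x, x ∈ nl T → T^[N] x = 0 := by
    have h : ∀ x : W, ∃ n : ℕ, x ∈ nl T → T^[n] x = 0 := by
      intro x
      by_cases hx : x ∈ nl T
      · obtain ⟨k, hk⟩ := hx
        exact ⟨k, fun _ => hk⟩
      · exact ⟨0, fun h => absurd h hx⟩
    choose n hn using h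
    refine ⟨∑ x, n x, fun x hx => ?_⟩
    have hle : n x ≤ ∑ x, n x := Finset.single_le_sum (fun _ _ => Nat.zero_le _)
      (Finset.mem_univ x)
    obtain ⟨m, hm⟩ := Nat.exists_eq_add_of_le hle
    rw [hm, add_comm, Function.iterate_add_apply, hn x hx, iterate_map_zero]
  have h2 : ∃ N : ℕ, ∀ x, (∃ y, T^[N] y = x) → x ∈ st T := by
    have h : ∀ x : W, ∃ n : ℕ, (∃ y, T^[n] y = x) → x ∈ st T := by
      intro x
      by_cases hx : x ∈ st T
      · exact ⟨0, fun _ => hx⟩
      · have : ¬ ∀ k : ℕ, ∃ y, T^[k] y = x := hx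
        push Not at this
        obtain ⟨k, hk⟩ := this
        exact ⟨k, fun ⟨y, hy⟩ => absurd hy (hk y)⟩
    choose n hn using h
    refine ⟨∑ x, n x, fun x ⟨y, hy⟩ => ?_⟩
    have hle : n x ≤ ∑ x, n x := Finset.single_le_sum (fun _ _ => Nat.zero_le _)
      (Finset.mem_univ x)
    obtain ⟨m, hm⟩ := Nat.exists_eq_add_of_le hle
    exact hn x ⟨T^[m] y, by rw [← Function.iterate_add_apply, ← hm, hy]⟩
  obtain ⟨N1, h1⟩ := h1
  obtain ⟨N2, h2⟩ := h2
  refine ⟨N1 + N2, fun x => ⟨fun hx => hx _, fun ⟨y, hy⟩ => ?_⟩, fun x => ⟨fun hx => ?_,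
    fun hx => ⟨_, hx⟩⟩⟩
  · exact h2 x ⟨T^[N1] y, by rw [← Function.iterate_add_apply, add_comm, hy]⟩
  · rw [add_comm, Function.iterate_add_apply, h1 x hx, iterate_map_zero]

/-- ROW STA -/
theorem st_card {W : Type*} [AddCommGroup W] [Finite W] (T : W →+ W) :
    Nat.card (st T) * Nat.card (nl T) = Nat.card W := by
  obtain ⟨N, h1, h2⟩ := STA_stab T
  have e1 : st T = (STA_it T N).range := by
    ext x
    rw [h1 x, AddMonoidHom.mem_range]
    rfl
  have e2 : nl T = (STA_it T N).ker := by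
    ext x
    rw [h2 x, AddMonoidHom.mem_ker]
    rfl
  rw [e1, e2]
  have h3 := AddSubgroup.card_eq_card_quotient_mul_card_addSubgroup (STA_it T N).ker
  rw [h3, Nat.card_congr (QuotientAddGroup.quotientKerEquivRange (STA_it T N)).toEquiv]

private theorem STA_surj {W : Type*} [AddCommGroup W] [Finite W] (T : W →+ W) (x : W)
    (hx : x ∈ st T) : ∃ y ∈ st T, T y = x := by
  obtain ⟨N, h1, h2⟩ := STA_stab T
  obtain ⟨z, hz⟩ := hx (N + 1)
  refine ⟨T^[N] z, (h1 _).2 ⟨z, rfl⟩, ?_⟩
  rw [← Function.iterate_succ_apply' T N z, hz]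

private theorem STA_mem {W : Type*} [AddCommGroup W] (T : W →+ W) (x : W)
    (hx : x ∈ st T) : T x ∈ st T := by
  intro k
  obtain ⟨y, hy⟩ := hx k
  exact ⟨T y, by rw [← Function.iterate_succ_apply, Function.iterate_succ_apply', hy]⟩

theorem st_inj {W : Type*} [AddCommGroup W] [Finite W] (T : W →+ W) (x : W) (hx : x ∈ st T)
    (k : ℕ) (h : T^[k] x = 0) : x = 0 := by
  have hinj : Function.Injective (fun y : st T => (⟨T y.1, STA_mem T y.1 y.2⟩ : st T)) := by
    apply Finite.injective_iff_surjective.mpr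
    rintro ⟨y, hy⟩
    obtain ⟨z, hz, hzy⟩ := STA_surj T y hy
    exact ⟨⟨z, hz⟩, Subtype.ext hzy⟩
  have key : ∀ k : ℕ, ∀ y : st T, T^[k] y.1 = 0 → y = 0 := by
    intro k
    induction k with
    | zero => intro y hy; exact Subtype.ext hy
    | succ k ih =>
      intro y hy
      rw [Function.iterate_succ_apply] at hy
      have h1 := ih ⟨T y.1, STA_mem T y.1 y.2⟩ hy
      apply hinj
      refine Subtype.ext ?_
      have h2 := congrArg Subtype.val h1
      show T y.1 = T (0 : W)
      rw [map_zero]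
      exact h2
  have := key k ⟨x, hx⟩ h
  exact congrArg Subtype.val this

theorem st_exact {A B C : Type*} [AddCommGroup A] [AddCommGroup B] [AddCommGroup C]
    [Finite A] [Finite B] [Finite C] (S : A →+ A) (T : B →+ B) (R : C →+ C)
    (f : A →+ B) (g : B →+ C) (hf : ∀ a, f (S a) = T (f a)) (hg : ∀ b, g (T b) = R (g b))
    (hex : ∀ b, g b = 0 ↔ ∃ a, f a = b) (b : B) (hb : b ∈ st T) :
    g b = 0 ↔ ∃ a ∈ st S, f a = b := by
  constructor
  · intro h
    obtain ⟨N, h1, h2⟩ := STA_stab S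
    have hfi : ∀ n a, f (S^[n] a) = T^[n] (f a) := by
      intro n
      induction n with
      | zero => intro a; rfl
      | succ n ih => intro a; rw [Function.iterate_succ_apply, Function.iterate_succ_apply, ih, hf]
    have hgi : ∀ n b, g (T^[n] b) = R^[n] (g b) := by
      intro n
      induction n with
      | zero => intro a; rfl
      | succ n ih => intro a; rw [Function.iterate_succ_apply, Function.iterate_succ_apply, ih, hg]
    -- b = T^N b' with b' stable; g b' is stable and killed by R^N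
    have hst : ∀ n : ℕ, ∃ b' ∈ st T, T^[n] b' = b := by
      intro n
      induction n with
      | zero => exact ⟨b, hb, rfl⟩
      | succ n ih =>
        obtain ⟨b', hb', h'⟩ := ih
        obtain ⟨b'', hb'', h''⟩ := STA_surj T b' hb'
        exact ⟨b'', hb'', by rw [Function.iterate_succ_apply, h'', h']⟩
    obtain ⟨b', hb', hbb⟩ := hst N
    have hgst : g b' ∈ st R := by
      intro k
      obtain ⟨y, hy⟩ := hb' k
      exact ⟨g y, by rw [← hgi, hy]⟩
    have hg0 : g b' = 0 := by
      apply st_inj R (g b') hgst N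
      rw [← hgi, hbb, h]
    obtain ⟨a, ha⟩ := (hex b').1 hg0
    refine ⟨S^[N] a, (h1 _).2 ⟨a, rfl⟩, ?_⟩
    rw [hfi, ha, hbb]
  · rintro ⟨a, _, ha⟩
    exact (hex b).2 ⟨a, ha⟩

end BCX
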