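import Pool.Agent.BCX.Bock
import Pool.Agent.BCX.Sta

/-!
# The stable parts with coefficients modulo the powers of a prime are bounded
-/

set_option autoImplicit false

open CategoryTheory groupCohomology EssMap

namespace BCX

/-- the abstract form: the order of the stable part is at most the product of the orders of the
two torsion subgroups -/
private theorem STB_abs {H W K : Type*} [AddCommGroup H] [AddCommGroup W] [AddCommGroup K]
    [Finite W] (T : H →+ H) (S : W →+ W) (R : K →+ K) (q : H →+ W) (d : W →+ K)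
    (hq : ∀ x, q (T x) = S (q x)) (hd : ∀ x, d (S x) = R (d x))
    (hex : ∀ w, d w = 0 ↔ ∃ h, q h = w) (m : ℕ) (hmW : ∀ w : W, m • w = 0)
    (tH : AddSubgroup H) [Finite tH] (tK : AddSubgroup K) [Finite tK]
    (htK : ∀ x : K, m • x = 0 → x ∈ tK)
    (N : ℕ) (hN : ∀ h, ∃ y, ∃ t ∈ tH, T^[N] h = m • y + t) :
    Nat.card (st S) ≤ Nat.card tH * Nat.card tK := by
  have hqi : ∀ n x, q (T^[n] x) = S^[n] (q x) := by
    intro n
    induction n with
    | zero => intro x; rfl
    | succ n ih =>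
      intro x
      rw [Function.iterate_succ_apply, Function.iterate_succ_apply, ih, hq]
  -- the map on the range of `q`
  let S' : q.range →+ q.range :=
    { toFun := fun x => ⟨S x.1, by
        obtain ⟨y, hy⟩ := x.2
        exact ⟨T y, by rw [hq, hy]⟩⟩
      map_zero' := Subtype.ext (map_zero S)
      map_add' := fun a b => Subtype.ext (map_add S a.1 b.1) }
  let R' : d.range →+ d.range :=
    { toFun := fun x => ⟨R x.1, by
        obtain ⟨y, hy⟩ := x.2
        exact ⟨S y, by rw [hd, hy]⟩⟩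
      map_zero' := Subtype.ext (map_zero R)
      map_add' := fun a b => Subtype.ext (map_add R a.1 b.1) }
  have fr : Finite d.range := Finite.of_surjective _ d.rangeRestrict_surjective
  have key : ∀ w ∈ st S, d w = 0 → ∃ t : tH, q t.1 = w := by
    intro w hw h0
    have h1 := (st_exact S' S R' q.range.subtype d.rangeRestrict (fun _ => rfl)
      (fun b => Subtype.ext (hd b)) (fun b => by
        constructor
        · intro h
          have h2 : d b = 0 := congrArg Subtype.val h
          obtain ⟨x, hx⟩ := (hex b).1 h2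
          exact ⟨⟨b, x, hx⟩, rfl⟩
        · rintro ⟨⟨a, x, hx⟩, rfl⟩
          apply Subtype.ext
          exact (hex _).2 ⟨x, hx⟩) w hw).1 (Subtype.ext h0)
    obtain ⟨a, ha, rfl⟩ := h1
    obtain ⟨b, hb⟩ := ha N
    obtain ⟨x, hx⟩ := b.2
    obtain ⟨y, t, ht, hy⟩ := hN x
    refine ⟨⟨t, ht⟩, ?_⟩
    have h2 : ∀ n (c : q.range), (S'^[n] c).1 = S^[n] c.1 := by
      intro n
      induction n with
      | zero => intro c; rfl
      | succ n ih =>
        intro c
        rw [Function.iterate_succ_apply, Function.iterate_succ_apply, ih]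
        rfl
    have h3 : (a : W) = q t := by
      rw [← hb, h2, ← hx, ← hqi, hy, map_add, map_nsmul, hmW, zero_add]
    exact h3.symm
  let D : st S →+ K := d.comp (st S).subtype
  have c1 := AddSubgroup.card_eq_card_quotient_mul_card_addSubgroup D.ker
  have c2 : Nat.card D.ker ≤ Nat.card tH := by
    have hc : ∀ x : D.ker, ∃ t : tH, q t.1 = x.1.1 := fun x => key x.1.1 x.1.2 x.2
    choose f hf using hc
    apply Nat.card_le_card_of_injective f
    intro a b hab
    apply Subtype.ext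
    apply Subtype.ext
    rw [← hf a, ← hf b, hab]
  have c3 : Nat.card (st S ⧸ D.ker) ≤ Nat.card tK := by
    rw [Nat.card_congr (QuotientAddGroup.quotientKerEquivRange D).toEquiv]
    have hc : ∀ x : D.range, x.1 ∈ tK := by
      rintro ⟨_, w, rfl⟩
      apply htK
      show m • d w.1 = 0
      rw [← map_nsmul, hmW, map_zero]
    apply Nat.card_le_card_of_injective (fun x => (⟨x.1, hc x⟩ : tK))
    intro a b hab
    apply Subtype.ext
    exact congrArg (fun z : tK => z.1) hab
  rw [c1, mul_comm]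
  exact Nat.mul_le_mul c2 c3

/-- the torsion subgroup -/
def STB_t (H : Type*) [AddCommGroup H] : AddSubgroup H where
  carrier := {x | ∃ n : ℕ, 0 < n ∧ n • x = 0}
  zero_mem' := ⟨1, one_pos, smul_zero _⟩
  add_mem' := by
    rintro a b ⟨n, hn, ha⟩ ⟨m, hm, hb⟩
    refine ⟨n * m, Nat.mul_pos hn hm, ?_⟩
    rw [smul_add, mul_comm n m, mul_smul, ha, smul_zero, zero_add, mul_comm m n, mul_smul, hb,
      smul_zero]
  neg_mem' := by
    rintro a ⟨n, hn, ha⟩
    exact ⟨n, hn, by rw [smul_neg, ha, neg_zero]⟩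

theorem STB_cv {H : Type*} [AddCommGroup H] [inst : Module ℤ H]
    (h : Module.Finite ℤ H) : @Module.Finite ℤ H _ _ (AddCommGroup.toIntModule H) := by
  obtain rfl : inst = AddCommGroup.toIntModule H := Subsingleton.elim _ _
  exact h

/-- the torsion of a finitely generated abelian group is finite -/
theorem STB_tors {H : Type*} [AddCommGroup H]
    (hH : @Module.Finite ℤ H _ _ (AddCommGroup.toIntModule H)) : Finite (STB_t H) := by
  have h1 : Module.IsTorsion ℤ (STB_t H) := by
    rintro ⟨x, n, hn, hx⟩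
    refine ⟨⟨(n : ℤ), mem_nonZeroDivisors_of_ne_zero (by exact_mod_cast hn.ne')⟩, ?_⟩
    show (n : ℤ) • (⟨x, n, hn, hx⟩ : STB_t H) = 0
    rw [natCast_zsmul]
    exact Subtype.ext hx
  have h3 : Module.Finite ℤ (AddSubgroup.toIntSubmodule (STB_t H)) := inferInstance
  have h4 : Module.Finite ℤ (STB_t H) := h3
  exact Module.finite_of_fg_torsion _ h1

private theorem STB_it {H : Type*} [AddCommGroup H] (T : H →+ H) (n : ℕ) (u : H)
    (hu : u ∈ STB_t H) : T^[n] u ∈ STB_t H := by
  obtain ⟨m, hm, h⟩ := hu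
  exact ⟨m, hm, by rw [← iterate_map_nsmul, h, iterate_map_zero]⟩

/-- one power of `T` carries everything into `p H + torsion` -/
private theorem STB_unif {H : Type*} [AddCommGroup H]
    (hH : @Module.Finite ℤ H _ _ (AddCommGroup.toIntModule H)) (T : H →+ H) (p : ℕ)
    (hn : ∀ x : H, ∃ (k : ℕ) (y : H) (e : ℤ), e ≠ 0 ∧ e • (T^[k] x - (p : ℤ) • y) = 0) :
    ∃ r : ℕ, ∀ x : H, ∃ y, ∃ t ∈ STB_t H, T^[r] x = p • y + t := by
  let Q : ℕ →o AddSubgroup H :=
    { toFun := fun k =>
        { carrier := {x | ∃ y, ∃ t ∈ STB_t H, T^[k] x = p • y + t}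
          zero_mem' := ⟨0, 0, AddSubgroup.zero_mem _, by rw [iterate_map_zero]; simp⟩
          add_mem' := by
            rintro a b ⟨y, t, ht, h⟩ ⟨y', t', ht', h'⟩
            refine ⟨y + y', t + t', AddSubgroup.add_mem _ ht ht', ?_⟩
            rw [iterate_map_add, h, h', smul_add]
            abel
          neg_mem' := by
            rintro a ⟨y, t, ht, h⟩
            refine ⟨-y, -t, AddSubgroup.neg_mem _ ht, ?_⟩
            rw [iterate_map_neg, h, smul_neg]
            abel }
      monotone' := by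
        apply monotone_nat_of_le_succ
        rintro n x ⟨y, t, ht, h⟩
        refine ⟨T y, T t, STB_it T 1 t ht, ?_⟩
        rw [Function.iterate_succ_apply', h, map_add, map_nsmul] }
  let Q' : ℕ →o Submodule ℤ H :=
    { toFun := fun k => AddSubgroup.toIntSubmodule (Q k)
      monotone' := fun a b hab => AddSubgroup.toIntSubmodule.monotone (Q.monotone hab) }
  obtain ⟨r, hr⟩ := (monotone_stabilizes_iff_noetherian (R := ℤ) (M := H)).2 inferInstance Q'
  refine ⟨r, fun x => ?_⟩
  obtain ⟨k, y, e, he, h⟩ := hn x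
  have h1 : x ∈ Q' k := by
    refine ⟨y, T^[k] x - (p : ℤ) • y, ⟨e.natAbs, Int.natAbs_pos.2 he, ?_⟩, ?_⟩
    · rcases Int.natAbs_eq e with h2 | h2
      · rw [h2, natCast_zsmul] at h
        exact h
      · rw [h2, neg_smul, neg_eq_zero, natCast_zsmul] at h
        exact h
    · rw [natCast_zsmul]
      abel
  have h2 : x ∈ Q' (max k r) := Q'.monotone (le_max_left k r) h1
  rw [← hr _ (le_max_right k r)] at h2
  exact h2

/-- the powers of `p` -/
private theorem STB_pow {H : Type*} [AddCommGroup H] (T : H →+ H) (p r : ℕ)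
    (h : ∀ x : H, ∃ y, ∃ t ∈ STB_t H, T^[r] x = p • y + t) (k : ℕ) :
    ∀ x : H, ∃ y, ∃ t ∈ STB_t H, T^[r * k] x = p ^ k • y + t := by
  induction k with
  | zero => exact fun x => ⟨x, 0, AddSubgroup.zero_mem _, by simp⟩
  | succ k ih =>
    intro x
    obtain ⟨y, t, ht, hy⟩ := ih x
    obtain ⟨z, s, hs, hz⟩ := h y
    refine ⟨z, p ^ k • s + T^[r] t, AddSubgroup.add_mem _ (AddSubgroup.nsmul_mem _ hs _)
      (STB_it T r t ht), ?_⟩
    rw [mul_add, mul_one, add_comm (r * k) r, Function.iterate_add_apply, hy, iterate_map_add,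
      iterate_map_nsmul, hz, smul_add, smul_smul, ← pow_succ]
    abel

/-- finiteness from an exact sequence -/
theorem STB_fin {H W K : Type*} [AddCommGroup H] [AddCommGroup W] [AddCommGroup K]
    (q : H →+ W) (d : W →+ K) (hex : ∀ w, d w = 0 ↔ ∃ h, q h = w) (m : ℕ) (hm : 0 < m)
    (hmW : ∀ w : W, m • w = 0)
    (hH : @Module.Finite ℤ H _ _ (AddCommGroup.toIntModule H))
    (hK : @Module.Finite ℤ K _ _ (AddCommGroup.toIntModule K)) : Finite W := by
  let d' : W →ₗ[ℤ] K := d.toIntLinearMap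
  let q' : H →ₗ[ℤ] W := q.toIntLinearMap
  have e1 : LinearMap.ker d' = LinearMap.range q' := by
    ext x
    exact hex x
  have e2 : Module.Finite ℤ (LinearMap.ker d') := by
    rw [e1]
    infer_instance
  have e3 : Module.Finite ℤ (W ⧸ LinearMap.ker d') :=
    Module.Finite.equiv d'.quotKerEquivRange.symm
  have e4 : Module.Finite ℤ W := Module.Finite.of_submodule_quotient (LinearMap.ker d')
  have e5 : Module.IsTorsion ℤ W := by
    intro x
    refine ⟨⟨(m : ℤ), mem_nonZeroDivisors_of_ne_zero (by exact_mod_cast hm.ne')⟩, ?_⟩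
    show (m : ℤ) • x = 0
    rw [natCast_zsmul]
    exact hmW x
  exact Module.finite_of_fg_torsion _ e5

/-- `m` kills the cohomology with coefficients modulo `m` -/
theorem STB_ann {G : Type} [Group G] (m i : ℕ) (x : groupCohomology (Fm G m) i) :
    m • x = 0 := by
  have h1 : (m : ℤ) • 𝟙 (Fm G m) = 0 := by
    ext a
    show (m : ℤ) • (a : ZMod m) = 0
    rw [zsmul_eq_mul, Int.cast_natCast, ZMod.natCast_self, zero_mul]
  have h2 := cmap_int_smul i (𝟙 (Fm G m)) (m : ℤ) x
  rw [h1, cmap_zero, cmap_id] at h2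
  have h3 : (m : ℤ) • x = 0 := h2.symm
  rwa [natCast_zsmul] at h3

/-- ROW E4 -/
theorem st_bound {G : Type} [Group G] (θ : G →* G) (p : ℕ) [Fact p.Prime] (i : ℕ)
    (h1 : Module.Finite ℤ (HZ G i)) (h2 : Module.Finite ℤ (HZ G (i + 1)))
    (hn : ∀ x : HZ G i, ∃ (k : ℕ) (y : HZ G i) (e : ℤ), e ≠ 0 ∧
      e • ((fun z => pull θ i z)^[k] x - (p : ℤ) • y) = 0) :
    ∃ C : ℕ, 0 < C ∧ ∀ k : ℕ, 0 < k → un θ (Fm G (p ^ k)) (Fm_inv θ (p ^ k)) i ≤ C := by
  have g1 := STB_cv h1
  have g2 := STB_cv h2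
  have f1 : Finite (STB_t (HZ G i)) := STB_tors g1
  have f2 : Finite (STB_t (HZ G (i + 1))) := STB_tors g2
  let T := TT θ (Rep.trivial ℤ G ℤ) (ZZ_inv θ) i
  obtain ⟨r, hr⟩ := STB_unif g1 T p hn
  refine ⟨Nat.card (STB_t (HZ G i)) * Nat.card (STB_t (HZ G (i + 1))),
    Nat.mul_pos Nat.card_pos Nat.card_pos, fun k _ => ?_⟩
  have hpk : 0 < p ^ k := pow_pos (Fact.out : p.Prime).pos k
  let hX := XE_shortExact G (p ^ k) hpk
  let d : groupCohomology (Fm G (p ^ k)) i →+ HZ G (i + 1) :=
    (δ hX i (i + 1) rfl).hom.toAddMonoidHom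
  let q : HZ G i →+ groupCohomology (Fm G (p ^ k)) i := (cmap (redE G (p ^ k)) i).toAddMonoidHom
  have f3 : Finite (groupCohomology (Fm G (p ^ k)) i) :=
    STB_fin q d (fun w => les3 hX i (i + 1) rfl w) (p ^ k) hpk (STB_ann (p ^ k) i) g1 g2
  exact STB_abs T (TT θ (Fm G (p ^ k)) (Fm_inv θ (p ^ k)) i)
    (TT θ (Rep.trivial ℤ G ℤ) (ZZ_inv θ) (i + 1)) q d
    (fun x => TT_nat θ (ZZ_inv θ) (Fm_inv θ (p ^ k)) _ i x)
    (fun x => TT_delta θ hX (ZZ_inv θ) (ZZ_inv θ) (Fm_inv θ (p ^ k)) i (i + 1) rfl x)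
    (fun w => les3 hX i (i + 1) rfl w) (p ^ k) (STB_ann (p ^ k) i) _ _
    (fun x hx => ⟨p ^ k, hpk, hx⟩) (r * k) (STB_pow T p r hr k)

end BCX
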