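import Pool.Agent.BCX.Ub
import Pool.Agent.BCX.Egen
import Pool.Agent.BCX.Stb

/-!
# The stable part modulo a power of a prime, for a finitely generated abelian group
-/

set_option autoImplicit false

open CategoryTheory groupCohomology EssMap

namespace BCX

theorem SQ_sub (m n : ℕ) (H : Type*) [AddCommGroup H] : PT (m * n) H ≤ PT n H := by
  rintro a ⟨y, e, he, h⟩
  refine ⟨(m : ℤ) • y, e, he, ?_⟩
  rw [smul_smul, mul_comm, ← Nat.cast_mul]
  exact h

/-- the stable part of a surjective image, for finite groups -/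
theorem SQ_map {A B : Type*} [AddCommGroup A] [AddCommGroup B] [Finite A] [Finite B]
    (S : A →+ A) (T : B →+ B) (f : A →+ B) (hf : ∀ a, f (S a) = T (f a))
    (hs : Function.Surjective f) : (st S).map f = st T := by
  ext x
  have h0 : ∀ b ∈ st T, ((0 : B →+ B) b = 0 ↔ ∃ a ∈ st S, f a = b) :=
    fun b hb => st_exact S T 0 f 0 hf (fun _ => rfl) (fun b => ⟨fun _ => hs b, fun _ => rfl⟩) b hb
  constructor
  · rintro ⟨a, ha, rfl⟩ k
    obtain ⟨y, hy⟩ := ha k
    have hi : ∀ n c, f (S^[n] c) = T^[n] (f c) := by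
      intro n
      induction n with
      | zero => intro c; rfl
      | succ n ih => intro c; rw [Function.iterate_succ_apply, Function.iterate_succ_apply, ih, hf]
    exact ⟨f y, by rw [← hi, hy]⟩
  · intro hx
    obtain ⟨a, ha, h⟩ := (h0 x hx).1 rfl
    exact ⟨a, ha, h⟩

/-- the quotient of a finitely generated group by the multiples of `m` is finite -/
theorem SQ_fin {H : Type*} [AddCommGroup H] (hH : Module.Finite ℤ H) (m : ℕ) (hm : 0 < m) :
    Finite (H ⧸ PT m H) := by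
  have h1 : Module.Finite ℤ (H ⧸ PT m H) :=
    Module.Finite.of_surjective (QuotientAddGroup.mk' (PT m H)).toIntLinearMap
      (QuotientAddGroup.mk'_surjective _)
  refine Module.finite_of_fg_torsion _ ?_
  intro x
  refine ⟨⟨(m : ℤ), mem_nonZeroDivisors_of_ne_zero (by exact_mod_cast hm.ne')⟩, ?_⟩
  show (m : ℤ) • x = 0
  obtain ⟨y, rfl⟩ := QuotientAddGroup.mk'_surjective (PT m H) x
  rw [← map_zsmul, QuotientAddGroup.mk'_apply, QuotientAddGroup.eq_zero_iff]
  exact ⟨y, 1, one_ne_zero, by simp⟩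

/-- multiplicativity -/
theorem ub_mul {H : Type*} [AddCommGroup H] (hH : Module.Finite ℤ H) (T : H →+ H) (m n : ℕ)
    (hm : 0 < m) (hn : 0 < n) : ub (m * n) T = ub m T * ub n T := by
  have f1 := SQ_fin hH m hm
  have f2 := SQ_fin hH n hn
  have f3 := SQ_fin hH (m * n) (Nat.mul_pos hm hn)
  have hn' : (n : ℤ) ≠ 0 := by exact_mod_cast hn.ne'
  let f : (H ⧸ PT m H) →+ (H ⧸ PT (m * n) H) :=
    QuotientAddGroup.map (PT m H) (PT (m * n) H) (n • AddMonoidHom.id H) (by
      rintro a ⟨y, e, he, h⟩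
      refine ⟨y, e, he, ?_⟩
      show e • (n • a - ((m * n : ℕ) : ℤ) • y) = 0
      have h1 : e • (n • a - ((m * n : ℕ) : ℤ) • y) = (n : ℤ) • (e • (a - (m : ℤ) • y)) := by
        push_cast
        module
      rw [h1, h, smul_zero])
  let g : (H ⧸ PT (m * n) H) →+ (H ⧸ PT n H) :=
    QuotientAddGroup.map (PT (m * n) H) (PT n H) (AddMonoidHom.id H) (SQ_sub m n H)
  have hf : ∀ a, f (Tq m T a) = Tq (m * n) T (f a) := by
    intro a
    obtain ⟨x, rfl⟩ := QuotientAddGroup.mk'_surjective _ a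
    show ((n • T x : H) : H ⧸ PT (m * n) H) = ((T (n • x) : H) : H ⧸ PT (m * n) H)
    rw [map_nsmul]
  have hg : ∀ b, g (Tq (m * n) T b) = Tq n T (g b) := by
    intro b
    obtain ⟨x, rfl⟩ := QuotientAddGroup.mk'_surjective _ b
    rfl
  have hgs : Function.Surjective g := by
    intro b
    obtain ⟨x, rfl⟩ := QuotientAddGroup.mk'_surjective _ b
    exact ⟨(x : H ⧸ PT (m * n) H), rfl⟩
  have hex : ∀ b, g b = 0 ↔ ∃ a, f a = b := by
    intro b
    obtain ⟨x, rfl⟩ := QuotientAddGroup.mk'_surjective _ b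
    constructor
    · intro h
      have h1 : ((x : H) : H ⧸ PT n H) = 0 := h
      rw [QuotientAddGroup.eq_zero_iff] at h1
      obtain ⟨y, e, he, hy⟩ := h1
      refine ⟨(y : H ⧸ PT m H), ?_⟩
      show ((n • y : H) : H ⧸ PT (m * n) H) = ((x : H) : H ⧸ PT (m * n) H)
      rw [QuotientAddGroup.eq]
      refine ⟨0, e, he, ?_⟩
      have h2 : e • (-(n • y) + x - ((m * n : ℕ) : ℤ) • (0 : H)) = e • (x - (n : ℤ) • y) := by
        module
      rw [h2, hy]
    · rintro ⟨a, ha⟩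
      obtain ⟨y, rfl⟩ := QuotientAddGroup.mk'_surjective _ a
      rw [← ha]
      show ((n • y : H) : H ⧸ PT n H) = 0
      rw [QuotientAddGroup.eq_zero_iff]
      exact ⟨y, 1, one_ne_zero, by simp⟩
  have hfi : Function.Injective f := by
    rw [injective_iff_map_eq_zero]
    intro a ha
    obtain ⟨x, rfl⟩ := QuotientAddGroup.mk'_surjective _ a
    have h1 : ((n • x : H) : H ⧸ PT (m * n) H) = 0 := ha
    rw [QuotientAddGroup.eq_zero_iff] at h1
    obtain ⟨y, e, he, hy⟩ := h1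
    rw [QuotientAddGroup.mk'_apply, QuotientAddGroup.eq_zero_iff]
    refine ⟨y, e * n, mul_ne_zero he hn', ?_⟩
    have h2 : (e * (n : ℤ)) • (x - (m : ℤ) • y) = e • (n • x - ((m * n : ℕ) : ℤ) • y) := by
      push_cast
      module
    rw [h2, hy]
  have e1 := EG_step (Tq m T) (Tq (m * n) T) f g hf
    (fun b hb => st_exact (Tq m T) (Tq (m * n) T) (Tq n T) f g hf hg hex b hb)
  rw [← EG_first (Tq m T) f hfi, SQ_map (Tq (m * n) T) (Tq n T) g hg hgs] at e1
  exact e1

theorem ub_one {H : Type*} [AddCommGroup H] (T : H →+ H) : ub 1 T = 1 := by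
  have h1 : Subsingleton (H ⧸ PT 1 H) := by
    refine ⟨fun a b => ?_⟩
    obtain ⟨x, rfl⟩ := QuotientAddGroup.mk'_surjective _ a
    obtain ⟨y, rfl⟩ := QuotientAddGroup.mk'_surjective _ b
    rw [QuotientAddGroup.mk'_apply, QuotientAddGroup.mk'_apply, QuotientAddGroup.eq]
    exact ⟨-x + y, 1, one_ne_zero, by simp⟩
  have h2 : Subsingleton (st (Tq 1 T)) := inferInstance
  exact Nat.card_eq_one_iff_unique.2 ⟨h2, inferInstance⟩

theorem ub_ppow {H : Type*} [AddCommGroup H] (hH : Module.Finite ℤ H) (T : H →+ H) (p : ℕ)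
    (hp : 0 < p) (k : ℕ) : ub (p ^ k) T = ub p T ^ k := by
  induction k with
  | zero => rw [pow_zero, pow_zero, ub_one]
  | succ k ih => rw [pow_succ, ub_mul hH T _ _ (pow_pos hp k) hp, ih, pow_succ]

/-- ROW Stq -/
theorem st_pow (p : ℕ) [Fact p.Prime] {H : Type} [AddCommGroup H] (hH : Module.Finite ℤ H)
    (T : H →+ H) :
    ∃ C : ℕ, 0 < C ∧ ∀ (k : ℕ) (W : Type) [AddCommGroup W] (S : W →+ W) (ρ : H →+ W),
      Function.Surjective ρ → (∀ x, ρ x = 0 ↔ ∃ y, x = (p ^ k : ℕ) • y) →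
      (∀ x, ρ (T x) = S (ρ x)) →
      Nat.card (st S) ≤ C * ub p T ^ k ∧ ub p T ^ k ≤ C * Nat.card (st S) := by
  have ft : Finite (Submodule.torsion ℤ H) :=
    Module.finite_of_fg_torsion _ Submodule.torsion_isTorsion
  have hC : 0 < Nat.card (Submodule.torsion ℤ H) := Nat.card_pos
  refine ⟨Nat.card (Submodule.torsion ℤ H), hC, fun k W _ S ρ hs hk hT => ?_⟩
  have hp : 0 < p := (Fact.out : p.Prime).pos
  have hpk : 0 < p ^ k := pow_pos hp k
  rw [← ub_ppow hH T p hp k]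
  have fV := SQ_fin hH (p ^ k) hpk
  have fW : Finite W := by
    have h1 : Module.Finite ℤ W := Module.Finite.of_surjective ρ.toIntLinearMap hs
    refine Module.finite_of_fg_torsion _ ?_
    intro x
    refine ⟨⟨((p ^ k : ℕ) : ℤ), mem_nonZeroDivisors_of_ne_zero (by exact_mod_cast hpk.ne')⟩, ?_⟩
    show ((p ^ k : ℕ) : ℤ) • x = 0
    obtain ⟨y, rfl⟩ := hs x
    rw [← map_zsmul, hk]
    exact ⟨y, natCast_zsmul _ _⟩
  let g : W →+ (H ⧸ PT (p ^ k) H) := ρ.liftOfSurjective hs ⟨QuotientAddGroup.mk' _, by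
    intro x hx
    obtain ⟨y, hy⟩ := (hk x).1 hx
    rw [AddMonoidHom.mem_ker, QuotientAddGroup.mk'_apply, QuotientAddGroup.eq_zero_iff]
    exact ⟨y, 1, one_ne_zero, by rw [hy, natCast_zsmul, sub_self, smul_zero]⟩⟩
  have hg : ∀ x, g (ρ x) = (x : H ⧸ PT (p ^ k) H) := fun x =>
    AddMonoidHom.liftOfRightInverse_comp_apply ρ _ _ _ x
  have hgs : Function.Surjective g := by
    intro b
    obtain ⟨x, rfl⟩ := QuotientAddGroup.mk'_surjective _ b
    exact ⟨ρ x, hg x⟩
  have hgT : ∀ w, g (S w) = Tq (p ^ k) T (g w) := by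
    intro w
    obtain ⟨x, rfl⟩ := hs w
    rw [← hT, hg, hg]
    rfl
  have e0 := SQ_map S (Tq (p ^ k) T) g hgT hgs
  let D : st S →+ (H ⧸ PT (p ^ k) H) := g.comp (st S).subtype
  have e1 : D.range = st (Tq (p ^ k) T) := by
    rw [← e0]
    ext x
    constructor
    · rintro ⟨y, rfl⟩
      exact ⟨y.1, y.2, rfl⟩
    · rintro ⟨y, hy, rfl⟩
      exact ⟨⟨y, hy⟩, rfl⟩
  have c1 := AddSubgroup.card_eq_card_quotient_mul_card_addSubgroup D.ker
  have c2 : Nat.card (st S ⧸ D.ker) = ub (p ^ k) T := by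
    rw [Nat.card_congr (QuotientAddGroup.quotientKerEquivRange D).toEquiv, e1]
    rfl
  have c3 : Nat.card D.ker ≤ Nat.card (Submodule.torsion ℤ H) := by
    have hc : ∀ x : D.ker, ∃ t : Submodule.torsion ℤ H, ρ t.1 = x.1.1 := by
      rintro ⟨⟨w, hw⟩, hx⟩
      obtain ⟨x, rfl⟩ := hs w
      have h1 : g (ρ x) = 0 := hx
      rw [hg, QuotientAddGroup.eq_zero_iff] at h1
      obtain ⟨y, e, he, hy⟩ := h1
      refine ⟨⟨x - ((p ^ k : ℕ) : ℤ) • y, ?_⟩, ?_⟩
      · rw [Submodule.mem_torsion_iff]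
        exact ⟨⟨e, mem_nonZeroDivisors_of_ne_zero he⟩, hy⟩
      · show ρ (x - ((p ^ k : ℕ) : ℤ) • y) = ρ x
        rw [map_sub, (hk _).2 ⟨y, natCast_zsmul _ _⟩, sub_zero]
    choose f hf using hc
    apply Nat.card_le_card_of_injective f
    intro a b hab
    apply Subtype.ext
    apply Subtype.ext
    rw [← hf a, ← hf b, hab]
  constructor
  · rw [c1, c2, mul_comm]
    exact Nat.mul_le_mul_right _ c3
  · have h1 : 0 < Nat.card D.ker := Nat.card_pos
    have h2 : ub (p ^ k) T ≤ Nat.card (st S) := by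
      rw [c1, c2]
      exact Nat.le_mul_of_pos_right _ h1
    exact h2.trans (Nat.le_mul_of_pos_left _ hC)

end BCX
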