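import Pool.Agent.BCX.InjP
import Pool.Agent.BCX.Pbu

/-!
# Groups without unit quotients of `p`-power order
-/

set_option autoImplicit false

open EssMap
open scoped commutatorElement

namespace BCX

/-- there is no nontrivial quotient of `p`-power order on which the endomorphism induces an
automorphism -/
def NoU {G : Type} [Group G] (θ : G →* G) (p : ℕ) : Prop :=
  ∀ V : Subgroup G, V.Normal → (∃ a : ℕ, V.index = p ^ a) → V.comap θ = V → V = ⊤

/-- a criterion for `p`-power index -/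
theorem index_ppow {G : Type} [Group G] (p : ℕ) (hp : p.Prime) (V : Subgroup G) (hV : V.Normal)
    (hVf : V.FiniteIndex) (h : ∀ g : G, ∃ s : ℕ, g ^ p ^ s ∈ V) : ∃ a : ℕ, V.index = p ^ a := by
  have hpf : Fact p.Prime := ⟨hp⟩
  have hfin : Finite (G ⧸ V) := Subgroup.finite_quotient_of_finiteIndex
  have h1 : IsPGroup p (G ⧸ V) := by
    intro q
    obtain ⟨g, rfl⟩ := QuotientGroup.mk_surjective q
    obtain ⟨s, hs⟩ := h g
    refine ⟨s, ?_⟩
    rw [← QuotientGroup.mk_pow, QuotientGroup.eq_one_iff]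
    exact hs
  exact IsPGroup.iff_card.1 h1

theorem pow_of_index {G : Type} [Group G] (V : Subgroup G) (hV : V.Normal) (n k : ℕ)
    (h : V.index = n) (hk : n ∣ k) (g : G) : g ^ k ∈ V := by
  obtain ⟨e, rfl⟩ := hk
  rw [pow_mul]
  apply V.pow_mem
  rw [← h]
  exact Subgroup.pow_index_mem V g

/-- normal subgroups of `p`-power index containing a unit subgroup -/
theorem NoU.top {G : Type} [Group G] {θ : G →* G} {p : ℕ} (hp : p.Prime) (hU : NoU θ p)
    (K : Subgroup G) (hK : K.Normal) (hKf : K.FiniteIndex) (hKθ : K.comap θ = K)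
    (V : Subgroup G) (hV : V.Normal) (hVi : ∃ a : ℕ, V.index = p ^ a) (hKV : K ≤ V) : V = ⊤ := by
  let S : Set (Subgroup G) := {V | V.Normal ∧ (∃ a : ℕ, V.index = p ^ a) ∧ K ≤ V}
  let W : Subgroup G := ⨅ V : S, (V : Subgroup G)
  have hWle : ∀ V ∈ S, W ≤ V := fun V hV => iInf_le (fun V : S => (V : Subgroup G)) ⟨V, hV⟩
  have hWn : W.Normal := Subgroup.normal_iInf_normal fun V => V.2.1
  have hKW : K ≤ W := le_iInf fun V => V.2.2.2
  have hWf : W.FiniteIndex := Subgroup.finiteIndex_of_le hKW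
  have hpow : ∀ g : G, g ^ p ^ K.index ∈ W := by
    intro g
    rw [Subgroup.mem_iInf]
    rintro ⟨V, hVn, ⟨a, ha⟩, hKV⟩
    apply pow_of_index V hVn _ _ ha
    apply pow_dvd_pow
    have h1 : p ^ a ≤ K.index := by
      rw [← ha]
      exact Nat.le_of_dvd (Nat.pos_of_ne_zero hKf.index_ne_zero) (Subgroup.index_dvd_of_le hKV)
    exact (Nat.lt_pow_self hp.one_lt).le.trans h1
  have hWi := index_ppow p hp W hWn hWf (fun g => ⟨_, hpow g⟩)
  have hcom : ∀ V ∈ S, V.comap θ ∈ S := by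
    rintro V ⟨hVn, ⟨a, ha⟩, hKV⟩
    refine ⟨hVn.comap θ, ?_, ?_⟩
    · apply index_ppow p hp _ (hVn.comap θ)
      · apply Subgroup.finiteIndex_of_le (H := K)
        rw [← hKθ]
        exact Subgroup.comap_mono hKV
      · intro g
        refine ⟨a, ?_⟩
        show θ (g ^ p ^ a) ∈ V
        rw [map_pow]
        exact pow_of_index V hVn _ _ ha dvd_rfl _
    · rw [← hKθ]
      exact Subgroup.comap_mono hKV
  have hθW : ∀ g ∈ W, θ g ∈ W := by
    intro g hg
    rw [Subgroup.mem_iInf]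
    rintro ⟨V, hVS⟩
    exact hWle _ (hcom V hVS) hg
  obtain ⟨r, hr, hrx⟩ := UNI_order θ K hKθ
  have hWθ : W.comap θ = W := by
    ext g
    constructor
    · intro hg
      obtain ⟨s, rfl⟩ : ∃ s, r = s + 1 := ⟨r - 1, by omega⟩
      have h1 : itr θ (s + 1) g ∈ W := by
        rw [itr_succ']
        exact INJ.itr_inv θ W hθW s _ hg
      have h2 : (itr θ (s + 1) g)⁻¹ * g ∈ K := QuotientGroup.eq.1 (hrx g)
      have h3 : g = itr θ (s + 1) g * ((itr θ (s + 1) g)⁻¹ * g) := by group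
      rw [h3]
      exact mul_mem h1 (hKW h2)
    · exact hθW g
  have h1 := hU W hWn hWi hWθ
  rw [eq_top_iff, ← h1]
  exact hWle V ⟨hV, hVi, hKV⟩

/-- ROW localU -/
theorem localU {G : Type} [Group G] (θ : G →* G) (p : ℕ) (hp : p.Prime) (hU : NoU θ p)
    (A : Subgroup G) (hAn : A.Normal) (hAf : A.FiniteIndex) (hAθ : ∀ a ∈ A, θ a ∈ A)
    (C : ℕ → Subgroup G) (hC : ∀ i, C i = A.comap (itr θ i))
    (hc : ∀ i, ⁅(⊤ : Subgroup G), C (i + 1)⁆ ≤ C i) (m : ℕ) (hm : (C m).comap θ = C m)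
    (M : ℕ) (hM : m ≤ M) (hMx : ∀ g : G, g⁻¹ * itr θ M g ∈ C m)
    (x : G) (hx : ∀ k, x ∈ (PCN.L p k : Subgroup G)) :
    ∃ e : ℕ, ¬ p ∣ e ∧ (x⁻¹ * itr θ M x) ^ e ∈ A := by
  have hpf : Fact p.Prime := ⟨hp⟩
  have hCn : ∀ i, (C i).Normal := fun i => by rw [hC]; infer_instance
  have hC0 : C 0 = A := by
    rw [hC]
    ext y
    rfl
  have hmono : ∀ i, C i ≤ C (i + 1) := by
    intro i y hy
    rw [hC] at hy ⊢
    show itr θ (i + 1) y ∈ A
    rw [itr_succ]
    exact hAθ _ hy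
  have hmono' : ∀ i j, i ≤ j → C i ≤ C j := fun i j hij => monotone_nat_of_le_succ hmono hij
  obtain ⟨K, hK⟩ : ∃ K : Subgroup G, K = C m := ⟨_, rfl⟩
  have hKn : K.Normal := by rw [hK]; exact hCn m
  have hAK : A ≤ K := by rw [hK, ← hC0]; exact hmono' 0 m (Nat.zero_le _)
  have hKf : K.FiniteIndex := Subgroup.finiteIndex_of_le hAK
  have hψK : ∀ y ∈ K, itr θ M y ∈ A := by
    intro y hy
    rw [hK, hC] at hy
    obtain ⟨d, rfl⟩ := Nat.exists_eq_add_of_le hM
    rw [add_comm, itr_add]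
    exact INJ.itr_inv θ A hAθ d _ hy
  rw [← hK] at hm hMx
  have h0 : A.relIndex K ≠ 0 := by
    intro h
    have h1 := Subgroup.relIndex_mul_index hAK
    rw [h, zero_mul] at h1
    exact hAf.index_ne_zero h1.symm
  obtain ⟨O, hOn, hAO, hOK, hOmem, a, ha⟩ := INJ.LK_O A K hAn hKn hAK h0 p hp C m hC0
    (by rw [hK]) (fun i => (Subgroup.commutator_mono le_top le_rfl).trans (hc i))
  have hOf : O.FiniteIndex := Subgroup.finiteIndex_of_le hAO
  -- powers in `K / O`
  have hKO : ∀ y ∈ K, y ^ p ^ a ∈ O := by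
    intro y hy
    have h1 : (O.subgroupOf K).Normal := hOn.subgroupOf K
    exact pow_of_index (O.subgroupOf K) h1 (p ^ a) (p ^ a) ha dvd_rfl ⟨y, hy⟩
  -- step 1
  have step1 : ∀ u : G, ∀ i, i ≤ m → ∃ s : ℕ, ∀ k ∈ C i, ⁅k, u ^ p ^ s⁆ ∈ O := by
    intro u i
    induction i with
    | zero =>
      intro _
      refine ⟨0, fun k hk => ?_⟩
      rw [hC0] at hk
      rw [commutatorElement_def, mul_assoc, mul_assoc]
      apply O.mul_mem (hAO hk)
      rw [← mul_assoc]
      exact hOn.conj_mem _ (O.inv_mem (hAO hk)) _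
    | succ i ih =>
      intro hi
      obtain ⟨s, hs⟩ := ih (by omega)
      refine ⟨s + a, fun k hk => ?_⟩
      have h1 : ⁅k, u ^ p ^ s⁆ ∈ C i := by
        have h2 := hc i (Subgroup.commutator_mem_commutator (Subgroup.mem_top (u ^ p ^ s)) hk)
        rw [← inv_mem_iff, commutatorElement_inv]
        exact h2
      have h3 := PCN.comm_pow_eq (hs _ h1) (p ^ a)
      have h4 : ⁅k, u ^ p ^ s⁆ ∈ K := by
        rw [hK]
        exact hmono' i m (by omega) h1
      have h5 := hKO _ h4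
      rw [← QuotientGroup.eq_one_iff] at h5
      rw [h5, QuotientGroup.eq_one_iff, ← pow_mul, ← pow_add] at h3
      exact h3
  -- step 2
  have hczn : (PCN.cz K O).Normal := by
    constructor
    intro y hy g
    rw [PCN.mem_cz] at hy ⊢
    intro k hk
    have h1 := hy (g⁻¹ * k * g⁻¹⁻¹) (hKn.conj_mem k hk g⁻¹)
    have h2 : ⁅k, g * y * g⁻¹⁆ = g * ⁅g⁻¹ * k * g⁻¹⁻¹, y⁆ * g⁻¹ := by
      rw [commutatorElement_def, commutatorElement_def]
      group
    rw [h2]
    exact hOn.conj_mem _ h1 g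
  have hVtop : (PCN.cz K O).comap (itr θ M) = ⊤ := by
    have hKV : K ≤ (PCN.cz K O).comap (itr θ M) := by
      intro y hy
      show itr θ M y ∈ PCN.cz K O
      rw [PCN.mem_cz]
      intro k _
      rw [commutatorElement_def]
      exact O.mul_mem (hOn.conj_mem _ (hAO (hψK y hy)) _) (O.inv_mem (hAO (hψK y hy)))
    refine hU.top hp K hKn hKf hm _ (hczn.comap _) ?_ hKV
    apply index_ppow p hp _ (hczn.comap _) (Subgroup.finiteIndex_of_le hKV)
    intro g
    obtain ⟨s, hs⟩ := step1 (itr θ M g) m le_rfl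
    refine ⟨s, ?_⟩
    show itr θ M (g ^ p ^ s) ∈ PCN.cz K O
    rw [PCN.mem_cz, map_pow]
    intro k hk
    rw [hK] at hk
    exact hs k hk
  have hcent : ∀ (g : G), ∀ k ∈ K, ⁅k, itr θ M g⁆ ∈ O := by
    intro g
    have h1 : g ∈ (PCN.cz K O).comap (itr θ M) := by
      rw [hVtop]
      exact Subgroup.mem_top g
    exact h1
  -- step 3: the homomorphism to `G / O`
  have hmemK : ∀ g : G, g * (itr θ M g)⁻¹ ∈ K := by
    intro g
    have h1 := hKn.conj_mem _ (K.inv_mem (hMx g)) g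
    have h2 : g * (g⁻¹ * itr θ M g)⁻¹ * g⁻¹ = g * (itr θ M g)⁻¹ := by group
    rwa [h2] at h1
  let f : G →* G ⧸ O := MonoidHom.mk' (fun g => ((g * (itr θ M g)⁻¹ : G) : G ⧸ O)) (by
    intro g h
    rw [← QuotientGroup.mk_mul, QuotientGroup.eq]
    have h1 := hcent g _ (hmemK h)
    -- `⁅k, ψ g⁆ ∈ O` with `k = h ψ(h)⁻¹`
    have h2 : (g * h * (itr θ M (g * h))⁻¹)⁻¹ * (g * (itr θ M g)⁻¹ * (h * (itr θ M h)⁻¹)) =
        (h * (itr θ M h)⁻¹)⁻¹ * ⁅h * (itr θ M h)⁻¹, itr θ M g⁆ * (h * (itr θ M h)⁻¹)⁻¹⁻¹ := by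
      rw [map_mul, commutatorElement_def]
      group
    rw [h2]
    exact hOn.conj_mem _ h1 _)
  have hfker : f.ker.Normal := inferInstance
  have hfin : f.ker.FiniteIndex := by
    have : Finite (G ⧸ O) := Subgroup.finite_quotient_of_finiteIndex
    infer_instance
  obtain ⟨t, ht⟩ := index_ppow p hp f.ker hfker hfin (by
    intro g
    refine ⟨a, ?_⟩
    rw [MonoidHom.mem_ker, map_pow]
    show (((g * (itr θ M g)⁻¹ : G) : G ⧸ O)) ^ p ^ a = 1
    rw [← QuotientGroup.mk_pow, QuotientGroup.eq_one_iff]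
    exact hKO _ (hmemK g))
  obtain ⟨l, hl⟩ := term_le p t f.ker hfker ht
  have h1 : f x = 1 := hl (hx l)
  have h2 : x * (itr θ M x)⁻¹ ∈ O := (QuotientGroup.eq_one_iff _).1 h1
  have h3 : x⁻¹ * itr θ M x ∈ O := by
    have h4 := hOn.conj_mem _ (O.inv_mem h2) x⁻¹
    have h5 : x⁻¹ * (x * (itr θ M x)⁻¹)⁻¹ * x⁻¹⁻¹ = x⁻¹ * itr θ M x := by group
    rwa [h5] at h4
  exact ((hOmem _).1 h3).2

/-- a maximal unit subgroup of `p`-power index -/
theorem maxU {G : Type} [Group G] (θ : G →* G) (p : ℕ) (hp : p.Prime) (B : ℕ)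
    (hB : ∀ V : Subgroup G, V.Normal → ∀ a : ℕ, V.index = p ^ a → V.comap θ = V → a ≤ B) :
    ∃ (V : Subgroup G) (hV : ∀ v ∈ V, θ v ∈ V), V.FiniteIndex ∧ NoU (rst θ V hV) p := by
  classical
  let S : ℕ → Prop := fun a => ∃ V : Subgroup G, V.Normal ∧ V.index = p ^ a ∧ V.comap θ = V
  have hS0 : S 0 := ⟨⊤, inferInstance, by rw [Subgroup.index_top, pow_zero], rfl⟩
  obtain ⟨V, hVn, hVi, hVθ⟩ := Nat.findGreatest_spec (P := S) (Nat.zero_le B) hS0
  have hmax : ∀ a, S a → a ≤ Nat.findGreatest S B := by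
    rintro a ⟨W, h1, h2, h3⟩
    exact Nat.le_findGreatest (hB W h1 a h2 h3) ⟨W, h1, h2, h3⟩
  set b := Nat.findGreatest S B with hb
  have hVf : V.FiniteIndex := ⟨by rw [hVi]; exact pow_ne_zero _ hp.ne_zero⟩
  have hmemV : ∀ x, (θ x ∈ V ↔ x ∈ V) := by
    intro x
    conv_rhs => rw [← hVθ]
    rfl
  have hV : ∀ v ∈ V, θ v ∈ V := fun v hv => (hmemV v).2 hv
  refine ⟨V, hV, hVf, ?_⟩
  intro W hWn hWi hWθ
  obtain ⟨a, ha⟩ := hWi
  have hWf : W.FiniteIndex := ⟨by rw [ha]; exact pow_ne_zero _ hp.ne_zero⟩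
  set W1 : Subgroup G := W.map V.subtype with hW1
  have hW1V : W1 ≤ V := by
    rintro _ ⟨x, -, rfl⟩
    exact x.2
  have hmemW1 : ∀ x : V, ((x : G) ∈ W1 ↔ x ∈ W) := by
    intro x
    constructor
    · rintro ⟨y, hy, hyx⟩
      have : y = x := Subtype.ext hyx
      rw [← this]
      exact hy
    · intro h
      exact ⟨x, h, rfl⟩
  have hW1f : W1.FiniteIndex := by
    constructor
    rw [hW1, Subgroup.index_map_subtype]
    exact mul_ne_zero hWf.index_ne_zero hVf.index_ne_zero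
  have hcW1 : ∀ v ∈ V, ∀ x ∈ W1, v * x * v⁻¹ ∈ W1 := by
    rintro v hv _ ⟨x, hxW, rfl⟩
    exact ⟨⟨v, hv⟩ * x * ⟨v, hv⟩⁻¹, hWn.conj_mem x hxW _, rfl⟩
  have hcW2 : ∀ v ∈ V, ∀ x, (v * x * v⁻¹ ∈ W1 ↔ x ∈ W1) := by
    intro v hv x
    constructor
    · intro h
      have h1 := hcW1 v⁻¹ (V.inv_mem hv) _ h
      have h2 : v⁻¹ * (v * x * v⁻¹) * v⁻¹⁻¹ = x := by group
      rwa [h2] at h1
    · intro h
      exact hcW1 v hv x h
  have hW1θ : ∀ z, (θ z ∈ W1 ↔ z ∈ W1) := by
    have h0 : ∀ z : V, (θ z ∈ W1 ↔ (z : G) ∈ W1) := by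
      intro z
      have h1 : ((rst θ V hV z : V) : G) = θ z := rfl
      rw [hmemW1, ← h1, hmemW1]
      conv_rhs => rw [← hWθ]
      rfl
    intro z
    constructor
    · intro h
      exact (h0 ⟨z, (hmemV z).1 (hW1V h)⟩).1 h
    · intro h
      exact (h0 ⟨z, hW1V h⟩).2 h
  set K : Subgroup G := W1.normalCore with hK
  have hKmem : ∀ x, x ∈ K ↔ ∀ g : G, g * x * g⁻¹ ∈ W1 := fun x => Iff.rfl
  have hKn : K.Normal := inferInstance
  have hKf : K.FiniteIndex := inferInstance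
  obtain ⟨r, hr, hrx⟩ := UNI_order θ V hVθ
  have hKθ : K.comap θ = K := by
    ext x
    rw [Subgroup.mem_comap, hKmem, hKmem]
    constructor
    · intro h g
      rw [← hW1θ, map_mul, map_mul, map_inv]
      exact h (θ g)
    · intro h g
      obtain ⟨s, rfl⟩ : ∃ s, r = s + 1 := ⟨r - 1, by omega⟩
      have h1 : (itr θ (s + 1) g)⁻¹ * g ∈ V := QuotientGroup.eq.1 (hrx g)
      have h2 : g * (itr θ (s + 1) g)⁻¹ ∈ V := by
        have h3 := hVn.conj_mem _ h1 (itr θ (s + 1) g)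
        have h4 : itr θ (s + 1) g * ((itr θ (s + 1) g)⁻¹ * g) * (itr θ (s + 1) g)⁻¹ =
            g * (itr θ (s + 1) g)⁻¹ := by group
        rwa [h4] at h3
      have h5 : θ (itr θ s g * x * (itr θ s g)⁻¹) ∈ W1 := (hW1θ _).2 (h _)
      have h6 := hcW1 _ h2 _ h5
      have h7 : g * (itr θ (s + 1) g)⁻¹ * θ (itr θ s g * x * (itr θ s g)⁻¹) *
          (g * (itr θ (s + 1) g)⁻¹)⁻¹ = g * θ x * g⁻¹ := by
        rw [map_mul, map_mul, map_inv, ← itr_succ]
        group
      rwa [h7] at h6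
  have hKi := index_ppow p hp K hKn hKf (by
    intro g
    refine ⟨b + a, ?_⟩
    rw [hKmem]
    intro y
    have h1 : g ^ p ^ b ∈ V := pow_of_index V hVn _ _ hVi dvd_rfl g
    have h2 : y * g ^ p ^ b * y⁻¹ ∈ V := hVn.conj_mem _ h1 y
    have h3 := pow_of_index W hWn _ _ ha dvd_rfl ⟨_, h2⟩
    have h4 : (y * g ^ p ^ b * y⁻¹) ^ p ^ a ∈ W1 := ⟨_, h3, rfl⟩
    rw [conj_pow, ← pow_mul, ← pow_add] at h4
    exact h4)
  obtain ⟨d, hd⟩ := hKi
  have h1 := hmax d ⟨K, hKn, hd, hKθ⟩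
  have h2 : K.index ∣ V.index := by
    rw [hd, hVi]
    exact pow_dvd_pow p h1
  have h3 : V.index * W.index ∣ K.index := by
    have h4 := Subgroup.index_dvd_of_le (Subgroup.normalCore_le W1)
    rw [hW1, Subgroup.index_map_subtype, mul_comm] at h4
    exact h4
  have h4 : W.index ∣ 1 := by
    apply Nat.dvd_of_mul_dvd_mul_left (Nat.pos_of_ne_zero hVf.index_ne_zero)
    rw [mul_one]
    exact h3.trans h2
  exact Subgroup.index_eq_one.1 (Nat.dvd_one.1 h4)

/-- without unit quotients of `p`-power order, some power kills all characters modulo `p` -/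
theorem contrU {G : Type} [Group G] [Group.FG G] (θ : G →* G) (p : ℕ) [hp : Fact p.Prime]
    (hfin : θ.range.FiniteIndex) (hU : NoU θ p) :
    ∃ n w : ℕ, (PCN.L p n : Subgroup G).FiniteIndex ∧
      ∀ x : G, x ∈ (⊤ : Subgroup G).lowerCentralSeries w → x ∈ (PCN.L p n : Subgroup G) →
        ∀ m, x ∈ (PCN.L p m : Subgroup G) := by
  have hno : ∀ (n : ℕ), 0 < n → ∀ c : G →* Multiplicative (ZMod p),
      (∀ x, c (θ^[n] x) = c x) → c = 1 := by
    intro n hn c hc
    have hcard : ∀ z : Multiplicative (ZMod p), z ^ p = 1 := pow_p_one p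
    let V : Subgroup G := ⨅ i : Fin n, c.ker.comap (itr θ i)
    have hmem : ∀ x, x ∈ V ↔ ∀ i, i < n → c (θ^[i] x) = 1 := by
      intro x
      show x ∈ ⨅ i : Fin n, c.ker.comap (itr θ i) ↔ _
      rw [Subgroup.mem_iInf]
      constructor
      · intro h i hi
        have h1 := h ⟨i, hi⟩
        rw [← itr_eq_iterate]
        exact h1
      · intro h i
        show c (itr θ i x) = 1
        rw [itr_eq_iterate]
        exact h i i.2
    have hVn : V.Normal := Subgroup.normal_iInf_normal fun i => inferInstance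
    have hVf : V.FiniteIndex := by
      apply Subgroup.finiteIndex_iInf
      intro i
      have h1 : c.ker.FiniteIndex := inferInstance
      constructor
      rw [Subgroup.index_comap]
      have h2 : (c.ker.subgroupOf (itr θ i).range).FiniteIndex := inferInstance
      exact h2.index_ne_zero
    have hVi := index_ppow p hp.out V hVn hVf (by
      intro g
      refine ⟨1, ?_⟩
      rw [hmem]
      intro i _
      rw [pow_one, ← itr_eq_iterate, map_pow, map_pow]
      exact hcard _)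
    have hVθ : V.comap θ = V := by
      ext x
      rw [Subgroup.mem_comap, hmem, hmem]
      constructor
      · intro h i hi
        rcases Nat.eq_zero_or_pos i with rfl | h0
        · have h1 := h (n - 1) (by omega)
          rw [← Function.iterate_succ_apply, show (n - 1).succ = n by omega, hc] at h1
          exact h1
        · have h1 := h (i - 1) (by omega)
          rw [← Function.iterate_succ_apply, show (i - 1).succ = i by omega] at h1
          exact h1
      · intro h i hi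
        rw [← Function.iterate_succ_apply]
        rcases Nat.lt_or_ge (i + 1) n with h1 | h1
        · exact h (i + 1) h1
        · have h2 : i.succ = n := by omega
          rw [h2, hc]
          exact h 0 hn
    have h1 := hU V hVn hVi hVθ
    ext x
    have h2 : x ∈ V := by rw [h1]; exact Subgroup.mem_top x
    rw [hmem] at h2
    exact h2 0 hn
  have hW : Finite (G →* Multiplicative (ZMod p)) := finite_hom G (Multiplicative (ZMod p))
  obtain ⟨n, hn, hi⟩ := exists_idem_iter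
    (fun c : G →* Multiplicative (ZMod p) => c.comp θ)
  have hT : ∀ (k : ℕ) (c : G →* Multiplicative (ZMod p)) (x : G),
      ((fun c : G →* Multiplicative (ZMod p) => c.comp θ)^[k] c) x = c (θ^[k] x) := by
    intro k
    induction k with
    | zero => intro c x; rfl
    | succ k ih =>
      intro c x
      rw [Function.iterate_succ_apply, ih, Function.iterate_succ_apply']
      rfl
  have hz : ∀ (c : G →* Multiplicative (ZMod p)) (x : G), c (θ^[n] x) = 1 := by
    intro c x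
    have h1 := hno n hn
      ((fun c : G →* Multiplicative (ZMod p) => c.comp θ)^[n] c) (fun y => by
        have h2 := DFunLike.congr_fun (hi c) y
        rw [hT n _ y] at h2
        exact h2)
    rw [← hT, h1]
    rfl
  exact contr_core p θ hfin n (fun x => by
    apply mem_L_one
    intro c
    exact hz c x)

end BCX
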