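import Pool.Agent.BCX.UNI
import Pool.Agent.BCX.NilpP

/-!
# Unit quotients have order prime to `p`
-/

set_option autoImplicit false

open EssMap

namespace BCX

/-- the main theorem in the form used in `unit_index_of` -/
theorem nilpModP_main : NilpModP := by
  intro G _ hG ho θ hinj hfin p _ hp hb
  obtain ⟨k, hk⟩ := nilp_mod_p hG ho θ hinj hfin p hp hb
  refine ⟨k, fun c => ?_⟩
  have hit : ∀ (j : ℕ) (x : G), itr θ j x = θ^[j] x := by
    intro j
    induction j with
    | zero => intro x; rfl
    | succ j ih => intro x; rw [itr_succ, ih, Function.iterate_succ_apply']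
  ext x
  have h1 := hk c x
  rw [← hit k x] at h1
  exact congrArg Multiplicative.toAdd h1

/-- unit quotients have order prime to `p` -/
theorem unit_index {G : Type} [Group G] (hG : Dual 3 G) (ho : Ori 3 G = ⊤) (θ : G →* G)
    (hinj : Function.Injective θ) (hfin : θ.range.FiniteIndex) (p : ℕ) [Fact p.Prime]
    (hp : p ∣ θ.range.index)
    (hb : ∀ U : Subgroup G, U.FiniteIndex → ∀ f : U →* Multiplicative ℤ, f = 1)
    (V : Subgroup G) (hV : V.Normal) (hVf : V.FiniteIndex) (h : V.comap θ = V) :
    ¬ p ∣ V.index :=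
  unit_index_of nilpModP_main hG ho θ hinj hfin p hp hb V hV hVf h

end BCX
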