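import Pool.Agent.BCX.Defs

/-!
# The stable part modulo a prime and modulo torsion
-/

set_option autoImplicit false

open CategoryTheory groupCohomology EssMap

namespace BCX

/-- the elements that are multiples of `p` up to torsion -/
def PT (p : ℕ) (H : Type*) [AddCommGroup H] : AddSubgroup H where
  carrier := {x | ∃ (y : H) (e : ℤ), e ≠ 0 ∧ e • (x - (p : ℤ) • y) = 0}
  zero_mem' := ⟨0, 1, one_ne_zero, by simp⟩
  add_mem' := by
    rintro a b ⟨y, e, he, h⟩ ⟨z, f, hf, h'⟩
    refine ⟨y + z, e * f, mul_ne_zero he hf, ?_⟩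
    have h1 : (e * f) • (a + b - (p : ℤ) • (y + z)) =
        f • (e • (a - (p : ℤ) • y)) + e • (f • (b - (p : ℤ) • z)) := by
      module
    rw [h1, h, h', smul_zero, smul_zero, add_zero]
  neg_mem' := by
    rintro a ⟨y, e, he, h⟩
    refine ⟨-y, e, he, ?_⟩
    have h1 : e • (-a - (p : ℤ) • (-y)) = -(e • (a - (p : ℤ) • y)) := by module
    rw [h1, h, neg_zero]

theorem PT_le (p : ℕ) {H : Type*} [AddCommGroup H] (T : H →+ H) :
    PT p H ≤ (PT p H).comap T := by
  rintro a ⟨y, e, he, h⟩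
  refine ⟨T y, e, he, ?_⟩
  have h1 := congrArg T h
  rw [map_zsmul, map_sub, map_zsmul, map_zero] at h1
  exact h1

/-- the endomorphism modulo `p` and torsion -/
def Tq (p : ℕ) {H : Type*} [AddCommGroup H] (T : H →+ H) : (H ⧸ PT p H) →+ (H ⧸ PT p H) :=
  QuotientAddGroup.map (PT p H) (PT p H) T (PT_le p T)

/-- the order of the stable part modulo `p` and torsion -/
noncomputable def ub (p : ℕ) {H : Type*} [AddCommGroup H] (T : H →+ H) : ℕ :=
  Nat.card (st (Tq p T))

end BCX
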