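import Pool.Agent.BCX.Ext
import Pool.Agent.BCX.B1
import Pool.Agent.EssMap.ModP
import Pool.Agent.EssMap.Lat

/-!
# Row UPP: the nilpotent homomorphisms of a unit subgroup
-/

set_option autoImplicit false

open CategoryTheory groupCohomology EssMap
open scoped commutatorElement

namespace BCX

section

variable {G : Type} [Group G] {p : ℕ} [Fact p.Prime] {θ : G →* G}

private theorem upp_iter (u : US θ p) (k : ℕ)
    (x : u.U) : (((rst θ u.U u.inv)^[k] x : u.U) : G) = θ^[k] (x : G) := by
  induction k with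
  | zero => rfl
  | succ k ih =>
    rw [Function.iterate_succ_apply', Function.iterate_succ_apply', ← ih]
    rfl

private theorem upp_mem (u : US θ p) (k : ℕ) (x : G) : θ^[k] x ∈ u.U ↔ x ∈ u.U := by
  induction k with
  | zero => exact Iff.rfl
  | succ k ih => rw [Function.iterate_succ_apply', u.iff, ih]

/-- `G = θ^k(G) U` -/
private theorem upp_surj (u : US θ p) (k : ℕ) (g : G) :
    ∃ (h : G) (y : u.U), g = θ^[k] h * y := by
  have : Finite (G ⧸ u.U) := Subgroup.finite_quotient_of_finiteIndex
  let f : G ⧸ u.U → G ⧸ u.U := Quotient.map' (θ^[k]) (by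
    intro a b hab
    rw [QuotientGroup.leftRel_apply] at hab ⊢
    rw [← iterate_map_inv θ, ← iterate_map_mul θ, upp_mem]
    exact hab)
  have hinj : Function.Injective f := by
    intro a b
    induction a using QuotientGroup.induction_on with
    | H a =>
      induction b using QuotientGroup.induction_on with
      | H b =>
        intro h
        have h1 : (QuotientGroup.mk (θ^[k] a) : G ⧸ u.U) = QuotientGroup.mk (θ^[k] b) := h
        rw [QuotientGroup.eq, ← iterate_map_inv θ, ← iterate_map_mul θ, upp_mem] at h1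
        exact QuotientGroup.eq.mpr h1
  obtain ⟨q, hq⟩ := (Finite.surjective_of_injective hinj) (QuotientGroup.mk g)
  induction q using QuotientGroup.induction_on with
  | H h =>
    have h1 : (QuotientGroup.mk (θ^[k] h) : G ⧸ u.U) = QuotientGroup.mk g := hq
    rw [QuotientGroup.eq] at h1
    exact ⟨h, ⟨_, h1⟩, by simp⟩

/-- conjugation on a normal subgroup -/
private def cj (u : US θ p) (g : G) (x : u.U) : u.U :=
  ⟨g⁻¹ * x * g, by simpa using u.norm.conj_mem x x.2 g⁻¹⟩

private theorem cj_mul (u : US θ p) (g : G) (x y : u.U) : cj u g (x * y) = cj u g x * cj u g y := by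
  apply Subtype.ext
  show g⁻¹ * (x * y : G) * g = (g⁻¹ * x * g) * (g⁻¹ * y * g)
  group

private theorem cj_comp (u : US θ p) (g h : G) (x : u.U) : cj u (g * h) x = cj u h (cj u g x) := by
  apply Subtype.ext
  show (g * h)⁻¹ * (x : G) * (g * h) = h⁻¹ * (g⁻¹ * x * g) * h
  group

private theorem cj_one (u : US θ p) (x : u.U) : cj u 1 x = x := by
  apply Subtype.ext
  show (1 : G)⁻¹ * (x : G) * 1 = x
  group

/-- the action on the homomorphisms -/
private noncomputable def ro (u : US θ p) : G →* Module.End (ZMod p) (Addf u.U (ZMod p)) where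
  toFun g :=
    { toFun := fun c => ⟨fun x => c.1 (cj u g x), fun x y => by
        show c.1 (cj u g (x * y)) = c.1 (cj u g x) + c.1 (cj u g y)
        rw [cj_mul]
        exact c.2 _ _⟩
      map_add' := fun _ _ => rfl
      map_smul' := fun _ _ => rfl }
  map_one' := by
    apply LinearMap.ext
    intro c
    apply Subtype.ext
    funext x
    show c.1 (cj u 1 x) = c.1 x
    rw [cj_one]
  map_mul' g h := by
    apply LinearMap.ext
    intro c
    apply Subtype.ext
    funext x
    show c.1 (cj u (g * h) x) = c.1 (cj u h (cj u g x))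
    rw [cj_comp]

private theorem ro_apply (u : US θ p) (g : G) (c : Addf u.U (ZMod p)) (x : u.U) :
    (ro u g c).1 x = c.1 (cj u g x) := rfl

private theorem ro_triv (u : US θ p) : u.U ≤ (ro u).ker := by
  intro g hg
  rw [MonoidHom.mem_ker]
  apply LinearMap.ext
  intro c
  apply Subtype.ext
  funext x
  show c.1 (cj u g x) = c.1 x
  have h1 : cj u g x = (⟨g, hg⟩ : u.U)⁻¹ * x * ⟨g, hg⟩ := rfl
  rw [h1, c.2, c.2]
  have h2 := c.2 (⟨g, hg⟩ : u.U)⁻¹ ⟨g, hg⟩
  rw [inv_mul_cancel, addf_one] at h2
  linear_combination -h2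

private theorem ro_nil (u : US θ p) {N : ℕ} (hN : NI p (G ⧸ u.U) N) (l : List G)
    (hl : l.length = N) : (l.map fun g => ro u g - 1).prod = 0 := by
  have h1 := hN (Addf u.U (ZMod p)) (QuotientGroup.lift u.U (ro u) (ro_triv u))
    (l.map (QuotientGroup.mk)) (by rw [List.length_map, hl])
  rw [List.map_map] at h1
  exact h1

private theorem prc_iter (u : US θ p) (k : ℕ) (c : Addf u.U (ZMod p)) (x : u.U) :
    (((prc (K := ZMod p) (rst θ u.U u.inv)) ^ k) c).1 x = c.1 ((rst θ u.U u.inv)^[k] x) := by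
  induction k generalizing c with
  | zero => rfl
  | succ k ih =>
    rw [pow_succ, Module.End.mul_apply, ih]
    exact congrArg c.1 (Function.iterate_succ_apply' (rst θ u.U u.inv) k x).symm

private theorem cj_iter (u : US θ p) (k : ℕ) (g : G) (x : u.U) :
    cj u (θ^[k] g) ((rst θ u.U u.inv)^[k] x) = (rst θ u.U u.inv)^[k] (cj u g x) := by
  apply Subtype.ext
  rw [upp_iter]
  show (θ^[k] g)⁻¹ * (((rst θ u.U u.inv)^[k] x : u.U) : G) * θ^[k] g = θ^[k] (g⁻¹ * x * g)
  rw [upp_iter, iterate_map_mul θ, iterate_map_mul θ, iterate_map_inv θ]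

/-- nilpotent homomorphisms are stable under conjugation -/
private theorem ro_mem (u : US θ p) (g : G) (c : Addf u.U (ZMod p))
    (hc : c ∈ nlA (rst θ u.U u.inv) p) : ro u g c ∈ nlA (rst θ u.U u.inv) p := by
  obtain ⟨k, hk⟩ := hc
  refine ⟨k, fun x => ?_⟩
  obtain ⟨h, y, hy⟩ := upp_surj u k g
  have h1 : ro u g = ro u (θ^[k] h) := by
    rw [hy, map_mul]
    have := ro_triv u y.2
    rw [MonoidHom.mem_ker] at this
    rw [this, mul_one]
  rw [h1, ro_apply, cj_iter]
  exact hk _

private theorem upp_main [Group.FG G] (u : US θ p) (v : ℕ)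
    (hv : ∀ c : Addf G (ZMod p), c ∈ nlA θ p → ∀ x, c.1 (θ^[v] x) = 0) (j : ℕ) :
    ∀ c ∈ nlA (rst θ u.U u.inv) p,
      (∀ l : List G, l.length = j → (l.map fun g => ro u g - 1).prod c = 0) →
      ((prc (K := ZMod p) (rst θ u.U u.inv)) ^ (v * j)) c = 0 := by
  induction j with
  | zero =>
    intro c _ h
    have h1 := h [] rfl
    simpa using h1
  | succ j ih =>
    intro c hc h
    set T := prc (K := ZMod p) (rst θ u.U u.inv) with hT
    have hinv : ∀ g : G, ro u g ((T ^ (v * j)) c) = (T ^ (v * j)) c := by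
      intro g
      have hc' : ro u (θ^[v * j] g) c - c ∈ nlA (rst θ u.U u.inv) p :=
        Submodule.sub_mem _ (ro_mem u _ c hc) hc
      have h1 := ih _ hc' (fun l hl => by
        have h2 := h (l ++ [θ^[v * j] g]) (by rw [List.length_append, hl]; rfl)
        rw [List.map_append, List.prod_append, List.map_singleton, List.prod_singleton,
          Module.End.mul_apply] at h2
        exact h2)
      rw [map_sub, sub_eq_zero] at h1
      refine Eq.trans ?_ h1
      apply Subtype.ext
      funext x
      rw [ro_apply, prc_iter, prc_iter, ro_apply, cj_iter]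
    obtain ⟨k, hk⟩ := hc
    have hT' : ∀ x, ((T ^ (v * j)) c).1 ((rst θ u.U u.inv)^[k] x) = 0 := by
      intro x
      rw [prc_iter, ← Function.iterate_add_apply, add_comm, Function.iterate_add_apply]
      exact hk _
    obtain ⟨C, hC1, hC2⟩ := ext_nil p θ u ((T ^ (v * j)) c) (by
      intro g x y hxy
      have h1 := congrArg (fun d : Addf u.U (ZMod p) => d.1 y) (hinv g)
      simp only [ro_apply] at h1
      rw [← h1]
      refine congrArg _ (Subtype.ext ?_)
      show g⁻¹ * (y : G) * g = x
      rw [hxy]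
      group) k hT'
    have h3 := hv C ⟨k, hC2⟩
    rw [mul_add, mul_one, add_comm, pow_add, Module.End.mul_apply]
    apply Subtype.ext
    funext x
    rw [prc_iter, ← hC1, upp_iter]
    exact h3 _

end

/-- UPP with the kernel bound as a hypothesis -/
theorem upp_of {G : Type} [Group G] [Group.FG G] (p : ℕ) [Fact p.Prime] (θ : G →* G)
    (hinj : Function.Injective θ) (u : US θ p) (N v : ℕ)
    (hker : Module.finrank (ZMod p) (LinearMap.ker (prc (K := ZMod p) (rst θ u.U u.inv))) ≤
      (rst θ u.U u.inv).range.index)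
    (hN : NI p (G ⧸ u.U) N) (hv : ∀ c : Addf G (ZMod p), c ∈ nlA θ p → ∀ x, c.1 (θ^[v] x) = 0) :
    dnl (rst θ u.U u.inv) p ≤ v * N * θ.range.index := by
  have hfd : FiniteDimensional (ZMod p) (Addf u.U (ZMod p)) := addf_fd
  set T := prc (K := ZMod p) (rst θ u.U u.inv) with hT
  have hmem : ∀ c ∈ nlA (rst θ u.U u.inv) p, T c ∈ nlA (rst θ u.U u.inv) p := by
    rintro c ⟨k, hk⟩
    refine ⟨k, fun x => ?_⟩
    show c.1 (rst θ u.U u.inv ((rst θ u.U u.inv)^[k] x)) = 0
    have h1 : rst θ u.U u.inv ((rst θ u.U u.inv)^[k] x) =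
        (rst θ u.U u.inv)^[k] (rst θ u.U u.inv x) :=
      (Function.iterate_succ_apply' (rst θ u.U u.inv) k x).symm.trans
        (Function.iterate_succ_apply (rst θ u.U u.inv) k x)
    rw [h1]
    exact hk _
  set T' : Module.End (ZMod p) (nlA (rst θ u.U u.inv) p) := T.restrict hmem with hT'
  have hpow : ∀ (n : ℕ) (c : nlA (rst θ u.U u.inv) p), (((T' ^ n) c : nlA _ p) :
      Addf u.U (ZMod p)) = (T ^ n) c.1 := by
    intro n c
    rw [hT', Module.End.pow_restrict]
    rfl
  have h0 : T' ^ (v * N) = 0 := by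
    apply LinearMap.ext
    intro c
    apply Subtype.ext
    rw [hpow]
    refine upp_main u v hv N c.1 c.2 (fun l hl => ?_)
    rw [ro_nil u hN l hl]
    rfl
  have h1 := nil_bound T' (v * N) h0
  have h2 : Module.finrank (ZMod p) (LinearMap.ker T') ≤
      Module.finrank (ZMod p) (LinearMap.ker T) := by
    let f : LinearMap.ker T' →ₗ[ZMod p] LinearMap.ker T :=
      ((nlA (rst θ u.U u.inv) p).subtype.comp (LinearMap.ker T').subtype).codRestrict
        (LinearMap.ker T) (by
          intro c
          rw [LinearMap.mem_ker]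
          have h3 : T' c.1 = 0 := c.2
          exact congrArg Subtype.val h3)
    refine LinearMap.finrank_le_finrank_of_injective (f := f) ?_
    intro a b hab
    apply Subtype.ext
    apply Subtype.ext
    have h3 : ((f a : LinearMap.ker T) : Addf u.U (ZMod p)) = f b := by rw [hab]
    exact h3
  have h3 := rst_index hinj u.U u.fin u.inv
  unfold dnl
  calc Module.finrank (ZMod p) (nlA (rst θ u.U u.inv) p)
      ≤ v * N * Module.finrank (ZMod p) (LinearMap.ker T') := h1
    _ ≤ v * N * θ.range.index := Nat.mul_le_mul_left _ (h2.trans (hker.trans h3.le))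

private theorem upp_ker {X : Type} [Group X] (p : ℕ) [Fact p.Prime] (θ : X →* X)
    (hfin : θ.range.FiniteIndex) :
    Module.finrank (ZMod p) (LinearMap.ker (prc (K := ZMod p) θ)) ≤ θ.range.index := by
  have hF : Finite (X ⧸ θ.range) := Subgroup.finite_quotient_of_finiteIndex
  have := Fintype.ofFinite (X ⧸ θ.range)
  let f : LinearMap.ker (prc (K := ZMod p) θ) →ₗ[ZMod p] ((X ⧸ θ.range) → ZMod p) :=
    { toFun := fun c q => c.1.1 (Quotient.out q)
      map_add' := fun _ _ => rfl
      map_smul' := fun _ _ => rfl }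
  have hf : Function.Injective f := by
    rw [injective_iff_map_eq_zero]
    intro c hc
    apply Subtype.ext
    apply Subtype.ext
    funext x
    have h1 : c.1.1 (Quotient.out (QuotientGroup.mk x : X ⧸ θ.range)) = 0 :=
      congrFun hc (QuotientGroup.mk x)
    obtain ⟨⟨_, ⟨y, rfl⟩⟩, hy⟩ := QuotientGroup.mk_out_eq_mul θ.range x
    rw [hy, c.1.2] at h1
    have h2 : prc (K := ZMod p) θ c.1 = 0 := c.2
    have h3 : c.1.1 (θ y) = 0 := congrArg (fun d : Addf X (ZMod p) => d.1 y) h2
    rw [h3, add_zero] at h1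
    exact h1
  have h1 := LinearMap.finrank_le_finrank_of_injective hf
  rw [Module.finrank_fintype_fun_eq_card] at h1
  rwa [Subgroup.index_eq_card, Nat.card_eq_fintype_card]

/-- ROW UPP (from EXT, KER) -/
theorem upp {G : Type} [Group G] [Group.FG G] (p : ℕ) [Fact p.Prime] (θ : G →* G)
    (hinj : Function.Injective θ) (hfin : θ.range.FiniteIndex) (u : US θ p) (N v : ℕ)
    (hN : NI p (G ⧸ u.U) N) (hv : ∀ c : Addf G (ZMod p), c ∈ nlA θ p → ∀ x, c.1 (θ^[v] x) = 0) :
    dnl (rst θ u.U u.inv) p ≤ v * N * θ.range.index :=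
  upp_of p θ hinj u N v (upp_ker p _ (rst_fin hinj hfin u.U u.fin u.inv)) hN hv

end BCX
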