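import Pool.Agent.BCX.Mx8

/-!
# The vertical criterion: one subgroup, all lower central quotients
-/

set_option autoImplicit false

open EssMap
open scoped commutatorElement

namespace BCX

/-- the second isomorphism theorem for indices, only one of the subgroups is normal -/
theorem relIndex_sup_nrm {G : Type} [Group G] (H K : Subgroup G) (hK : K.Normal) :
    H.relIndex (H ⊔ K) = H.relIndex K := by
  symm
  apply Nat.card_eq_of_bijective
    (Subgroup.quotientSubgroupOfEmbeddingOfLE H (le_sup_right : K ≤ H ⊔ K))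
  refine ⟨(Subgroup.quotientSubgroupOfEmbeddingOfLE H _).injective, ?_⟩
  intro q
  obtain ⟨⟨x, hx⟩, rfl⟩ := QuotientGroup.mk_surjective q
  have hx' : x ∈ K ⊔ H := by rw [sup_comm]; exact hx
  obtain ⟨k, hk, h, hh, rfl⟩ := Subgroup.mem_sup_of_normal_left.1 hx'
  refine ⟨((⟨k, hk⟩ : K) : K ⧸ H.subgroupOf K), ?_⟩
  rw [Subgroup.quotientSubgroupOfEmbeddingOfLE_apply_mk, QuotientGroup.eq]
  show k⁻¹ * (k * h) ∈ H
  rw [inv_mul_cancel_left]
  exact hh

/-- the index in a normal subgroup divides the index in a larger subgroup -/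
theorem relIndex_dvd_nrm {G : Type} [Group G] (H Γ W : Subgroup G) (hΓ : Γ.Normal) (h : Γ ≤ W) :
    H.relIndex Γ ∣ H.relIndex W := by
  have h1 := Subgroup.relIndex_mul_relIndex (H ⊓ W) ((H ⊓ W) ⊔ Γ) W le_sup_left
    (sup_le inf_le_right h)
  rw [relIndex_sup_nrm _ _ hΓ, Subgroup.inf_relIndex_right] at h1
  have h2 : (H ⊓ W).relIndex Γ = H.relIndex Γ := by
    rw [← Subgroup.inf_relIndex_right (H ⊓ W) Γ, ← Subgroup.inf_relIndex_right H Γ, inf_assoc,
      inf_eq_right.2 h]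
  rw [h2] at h1
  exact ⟨_, h1.symm⟩

/-- if every element of `O` has a power prime to `p` in `A`, the index is prime to `p` -/
theorem not_dvd_of_pow {G : Type} [Group G] (p : ℕ) (hp : p.Prime) (A O : Subgroup G)
    (hA : A.Normal) (hAf : A.FiniteIndex) (h : ∀ y ∈ O, ∃ e : ℕ, ¬ p ∣ e ∧ y ^ e ∈ A) :
    ¬ p ∣ A.relIndex O := by
  intro hd
  have hpf : Fact p.Prime := ⟨hp⟩
  have h1 : (A.subgroupOf O).Normal := hA.subgroupOf O
  have hfin : Finite (O ⧸ A.subgroupOf O) := inferInstance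
  have h2 : p ∣ Nat.card (O ⧸ A.subgroupOf O) := hd
  obtain ⟨q, hq⟩ := exists_prime_orderOf_dvd_card' p h2
  obtain ⟨⟨y, hy⟩, rfl⟩ := QuotientGroup.mk_surjective q
  obtain ⟨e, he, hye⟩ := h y hy
  apply he
  rw [← hq]
  apply orderOf_dvd_of_pow_eq_one
  show (((⟨y, hy⟩ : O) ^ e : O) : O ⧸ A.subgroupOf O) = 1
  rw [QuotientGroup.eq_one_iff]
  exact hye

/-- the subgroup of the elements which are fixed by a power of `θ` up to order prime to `p` -/
theorem localH {G : Type} [Group G] (θ : G →* G) (p : ℕ) (hp : p.Prime)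
    (A : Subgroup G) (hAn : A.Normal) (hAf : A.FiniteIndex) (hAθ : ∀ a ∈ A, θ a ∈ A)
    (C : ℕ → Subgroup G) (hC : ∀ i, C i = A.comap (itr θ i))
    (hc : ∀ i, ⁅(⊤ : Subgroup G), C (i + 1)⁆ ≤ C i) (m : ℕ)
    (M : ℕ) (hM : m ≤ M) (hMx : ∀ g : G, g⁻¹ * itr θ M g ∈ C m) :
    ∃ H O : Subgroup G, O.Normal ∧ A ≤ O ∧ (∀ y ∈ O, ∃ e : ℕ, ¬ p ∣ e ∧ y ^ e ∈ A) ∧
      (∀ x ∈ H, x⁻¹ * itr θ M x ∈ O) ∧ (∀ x, itr θ M x ∈ H) ∧ (∃ a : ℕ, H.index = p ^ a) ∧
      (∃ N : Subgroup G, N.Normal ∧ N ≤ H ∧ ∃ a : ℕ, N.index = p ^ a) := by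
  have hpf : Fact p.Prime := ⟨hp⟩
  have hCn : ∀ i, (C i).Normal := fun i => by rw [hC]; infer_instance
  have hC0 : C 0 = A := by
    rw [hC]
    ext y
    rfl
  have hmono : ∀ i, C i ≤ C (i + 1) := by
    intro i y hy
    rw [hC] at hy ⊢
    show itr θ (i + 1) y ∈ A
    rw [itr_succ]
    exact hAθ _ hy
  have hmono' : ∀ i j, i ≤ j → C i ≤ C j := fun i j hij => monotone_nat_of_le_succ hmono hij
  obtain ⟨K, hK⟩ : ∃ K : Subgroup G, K = C m := ⟨_, rfl⟩
  have hKn : K.Normal := by rw [hK]; exact hCn m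
  have hAK : A ≤ K := by rw [hK, ← hC0]; exact hmono' 0 m (Nat.zero_le _)
  have hKf : K.FiniteIndex := Subgroup.finiteIndex_of_le hAK
  have hψK : ∀ y ∈ K, itr θ M y ∈ A := by
    intro y hy
    rw [hK, hC] at hy
    obtain ⟨d, rfl⟩ := Nat.exists_eq_add_of_le hM
    rw [add_comm, itr_add]
    exact INJ.itr_inv θ A hAθ d _ hy
  rw [← hK] at hMx
  have h0 : A.relIndex K ≠ 0 := by
    intro h
    have h1 := Subgroup.relIndex_mul_index hAK
    rw [h, zero_mul] at h1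
    exact hAf.index_ne_zero h1.symm
  obtain ⟨O, hOn, hAO, hOK, hOmem, a, ha⟩ := INJ.LK_O A K hAn hKn hAK h0 p hp C m hC0
    (by rw [hK]) (fun i => (Subgroup.commutator_mono le_top le_rfl).trans (hc i))
  have hOf : O.FiniteIndex := Subgroup.finiteIndex_of_le hAO
  -- powers in `K / O`
  have hKO : ∀ y ∈ K, y ^ p ^ a ∈ O := by
    intro y hy
    have h1 : (O.subgroupOf K).Normal := hOn.subgroupOf K
    exact pow_of_index (O.subgroupOf K) h1 (p ^ a) (p ^ a) ha dvd_rfl ⟨y, hy⟩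
  -- step 1
  have step1 : ∀ u : G, ∀ i, i ≤ m → ∃ s : ℕ, ∀ k ∈ C i, ⁅k, u ^ p ^ s⁆ ∈ O := by
    intro u i
    induction i with
    | zero =>
      intro _
      refine ⟨0, fun k hk => ?_⟩
      rw [hC0] at hk
      rw [commutatorElement_def, mul_assoc, mul_assoc]
      apply O.mul_mem (hAO hk)
      rw [← mul_assoc]
      exact hOn.conj_mem _ (O.inv_mem (hAO hk)) _
    | succ i ih =>
      intro hi
      obtain ⟨s, hs⟩ := ih (by omega)
      refine ⟨s + a, fun k hk => ?_⟩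
      have h1 : ⁅k, u ^ p ^ s⁆ ∈ C i := by
        have h2 := hc i (Subgroup.commutator_mem_commutator (Subgroup.mem_top (u ^ p ^ s)) hk)
        rw [← inv_mem_iff, commutatorElement_inv]
        exact h2
      have h3 := PCN.comm_pow_eq (hs _ h1) (p ^ a)
      have h4 : ⁅k, u ^ p ^ s⁆ ∈ K := by
        rw [hK]
        exact hmono' i m (by omega) h1
      have h5 := hKO _ h4
      rw [← QuotientGroup.eq_one_iff] at h5
      rw [h5, QuotientGroup.eq_one_iff, ← pow_mul, ← pow_add] at h3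
      exact h3
  -- step 2
  have hczn : (PCN.cz K O).Normal := by
    constructor
    intro y hy g
    rw [PCN.mem_cz] at hy ⊢
    intro k hk
    have h1 := hy (g⁻¹ * k * g⁻¹⁻¹) (hKn.conj_mem k hk g⁻¹)
    have h2 : ⁅k, g * y * g⁻¹⁆ = g * ⁅g⁻¹ * k * g⁻¹⁻¹, y⁆ * g⁻¹ := by
      rw [commutatorElement_def, commutatorElement_def]
      group
    rw [h2]
    exact hOn.conj_mem _ h1 g
  obtain ⟨V, hVdef⟩ : ∃ V : Subgroup G, V = (PCN.cz K O).comap (itr θ M) := ⟨_, rfl⟩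
  have hVn : V.Normal := by rw [hVdef]; exact hczn.comap _
  have hVmem : ∀ g, g ∈ V ↔ ∀ k ∈ K, ⁅k, itr θ M g⁆ ∈ O := by
    intro g
    rw [hVdef]
    show itr θ M g ∈ PCN.cz K O ↔ _
    rw [PCN.mem_cz]
  have hKV : K ≤ V := by
    intro y hy
    rw [hVmem]
    intro k _
    rw [commutatorElement_def]
    exact O.mul_mem (hOn.conj_mem _ (hAO (hψK y hy)) _) (O.inv_mem (hAO (hψK y hy)))
  have hVf : V.FiniteIndex := Subgroup.finiteIndex_of_le hKV
  obtain ⟨s, hs⟩ := index_ppow p hp V hVn hVf (by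
    intro g
    obtain ⟨s, hs⟩ := step1 (itr θ M g) m le_rfl
    refine ⟨s, ?_⟩
    rw [hVmem]
    intro k hk
    rw [map_pow]
    rw [hK] at hk
    exact hs k hk)
  -- the subgroup `H`
  let H : Subgroup G :=
    { carrier := {x | x⁻¹ * itr θ M x ∈ O}
      mul_mem' := by
        intro x y hx hy
        show (x * y)⁻¹ * itr θ M (x * y) ∈ O
        have h1 := hOn.conj_mem _ (show x⁻¹ * itr θ M x ∈ O from hx) y⁻¹
        have h2 := O.mul_mem h1 (show y⁻¹ * itr θ M y ∈ O from hy)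
        have h3 : y⁻¹ * (x⁻¹ * itr θ M x) * y⁻¹⁻¹ * (y⁻¹ * itr θ M y) =
            (x * y)⁻¹ * itr θ M (x * y) := by
          rw [map_mul]
          group
        rwa [h3] at h2
      one_mem' := by
        show (1 : G)⁻¹ * itr θ M 1 ∈ O
        rw [map_one, inv_one, one_mul]
        exact O.one_mem
      inv_mem' := by
        intro x hx
        show x⁻¹⁻¹ * itr θ M x⁻¹ ∈ O
        have h1 := hOn.conj_mem _ (O.inv_mem (show x⁻¹ * itr θ M x ∈ O from hx)) x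
        have h3 : x * (x⁻¹ * itr θ M x)⁻¹ * x⁻¹ = x⁻¹⁻¹ * itr θ M x⁻¹ := by
          rw [map_inv]
          group
        rwa [h3] at h1 }
  have hHmem : ∀ x, x ∈ H ↔ x⁻¹ * itr θ M x ∈ O := fun x => Iff.rfl
  have hψH : ∀ x, itr θ M x ∈ H := by
    intro x
    rw [hHmem, ← map_inv, ← map_mul]
    exact hAO (hψK _ (hMx x))
  have hHK : H ⊓ K = O := by
    ext k
    constructor
    · rintro ⟨h1, h2⟩
      have h3 := O.mul_mem (hAO (hψK k h2)) (O.inv_mem ((hHmem k).1 h1))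
      have h4 : itr θ M k * (k⁻¹ * itr θ M k)⁻¹ = k := by group
      rwa [h4] at h3
    · intro h
      exact ⟨(hHmem k).2 (O.mul_mem (O.inv_mem h) (hAO (hψK k (hOK h)))), hOK h⟩
  have hHtop : H ⊔ K = ⊤ := by
    rw [eq_top_iff]
    intro x _
    have h1 := Subgroup.mul_mem_sup (hψH x) (K.inv_mem (hMx x))
    have h2 : itr θ M x * (x⁻¹ * itr θ M x)⁻¹ = x := by group
    rwa [h2] at h1
  have hHi : H.index = p ^ a := by
    rw [← Subgroup.relIndex_top_right, ← hHtop, relIndex_sup_nrm _ _ hKn,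
      ← Subgroup.inf_relIndex_right, hHK, ha]
  -- the homomorphism on `V`
  have hpowH : ∀ g ∈ V, g ^ p ^ a ∈ H := by
    have hmemK : ∀ g : G, g * (itr θ M g)⁻¹ ∈ K := by
      intro g
      have h1 := hKn.conj_mem _ (K.inv_mem (hMx g)) g
      have h2 : g * (g⁻¹ * itr θ M g)⁻¹ * g⁻¹ = g * (itr θ M g)⁻¹ := by group
      rwa [h2] at h1
    let f : V →* G ⧸ O := MonoidHom.mk' (fun g => (((g : G) * (itr θ M g)⁻¹ : G) : G ⧸ O)) (by
      intro g h
      rw [← QuotientGroup.mk_mul, QuotientGroup.eq]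
      have h1 := (hVmem g).1 g.2 _ (hmemK h)
      have h2 : (((g * h : V) : G) * (itr θ M (g * h : V))⁻¹)⁻¹ *
          ((g : G) * (itr θ M g)⁻¹ * ((h : G) * (itr θ M h)⁻¹)) =
          ((h : G) * (itr θ M h)⁻¹)⁻¹ * ⁅(h : G) * (itr θ M h)⁻¹, itr θ M g⁆ *
            ((h : G) * (itr θ M h)⁻¹)⁻¹⁻¹ := by
        rw [Subgroup.coe_mul, map_mul, commutatorElement_def]
        group
      rw [h2]
      exact hOn.conj_mem _ h1 _)
    intro g hg
    have h1 : f (⟨g, hg⟩ ^ p ^ a) = 1 := by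
      rw [map_pow]
      show (((g * (itr θ M g)⁻¹ : G) : G ⧸ O)) ^ p ^ a = 1
      rw [← QuotientGroup.mk_pow, QuotientGroup.eq_one_iff]
      exact hKO _ (hmemK g)
    have h2 : g ^ p ^ a * (itr θ M (g ^ p ^ a))⁻¹ ∈ O := (QuotientGroup.eq_one_iff _).1 h1
    rw [hHmem]
    have h4 := hOn.conj_mem _ (O.inv_mem h2) (g ^ p ^ a)⁻¹
    have h5 : (g ^ p ^ a)⁻¹ * (g ^ p ^ a * (itr θ M (g ^ p ^ a))⁻¹)⁻¹ * (g ^ p ^ a)⁻¹⁻¹ =
        (g ^ p ^ a)⁻¹ * itr θ M (g ^ p ^ a) := by group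
    rwa [h5] at h4
  have hHf : H.FiniteIndex := ⟨by rw [hHi]; exact pow_ne_zero _ hp.ne_zero⟩
  refine ⟨H, O, hOn, hAO, fun y hy => ((hOmem y).1 hy).2, fun x hx => (hHmem x).1 hx, hψH,
    ⟨a, hHi⟩, H.normalCore, inferInstance, H.normalCore_le, ?_⟩
  apply index_ppow p hp _ inferInstance inferInstance
  intro g
  refine ⟨s + a, ?_⟩
  show ∀ y : G, y * g ^ p ^ (s + a) * y⁻¹ ∈ H
  intro y
  have h1 : (y * g * y⁻¹) ^ p ^ s ∈ V := pow_of_index V hVn _ _ hs dvd_rfl _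
  have h2 := hpowH _ h1
  rw [← pow_mul, ← pow_add, conj_pow] at h2
  exact h2

end BCX
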