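import Pool.Agent.BCX.Vx1

/-!
# The vertical criterion: the local statement
-/

set_option autoImplicit false

open EssMap
open scoped commutatorElement

namespace BCX

/-- admissible subgroups -/
def Gd {G : Type} [Group G] (θ : G →* G) (A : Subgroup G) : Prop :=
  A.Normal ∧ A.FiniteIndex ∧ (∀ a ∈ A, θ a ∈ A) ∧
    ∀ i, ⁅(⊤ : Subgroup G), A.comap (itr θ (i + 1))⁆ ≤ A.comap (itr θ i)

/-- a normal subgroup equal to its preimage: the indices of the images of the iterates -/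
theorem relIndex_itr_sat {G : Type} [Group G] (θ : G →* G) (hinj : Function.Injective θ)
    (S : Subgroup G) (hS : S.comap θ = S) (j : ℕ) :
    (itr θ j).range.relIndex S = θ.range.relIndex S ^ j := by
  have hmap : ∀ T : Subgroup G, T ⊓ (S.map θ) = T ⊓ (θ.range ⊓ S) := by
    intro T
    ext x
    constructor
    · rintro ⟨h1, y, hy, rfl⟩
      refine ⟨h1, ⟨y, rfl⟩, ?_⟩
      rw [← hS] at hy
      exact hy
    · rintro ⟨h1, ⟨y, rfl⟩, h2⟩
      refine ⟨h1, y, ?_, rfl⟩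
      rw [← hS]
      exact h2
  induction j with
  | zero =>
    rw [pow_zero, Subgroup.relIndex_eq_one]
    intro x _
    exact ⟨x, rfl⟩
  | succ j ih =>
    have h1 : ((itr θ j).range ⊓ S).map θ ≤ S.map θ := Subgroup.map_mono inf_le_right
    have h2 : S.map θ ≤ S := by
      rintro _ ⟨y, hy, rfl⟩
      rw [← hS] at hy
      exact hy
    have h3 := Subgroup.relIndex_mul_relIndex _ _ _ h1 h2
    have h4 : ((itr θ j).range ⊓ S).map θ = (itr θ (j + 1)).range ⊓ S := by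
      ext x
      constructor
      · rintro ⟨_, ⟨⟨y, rfl⟩, hy⟩, rfl⟩
        refine ⟨⟨y, ?_⟩, h2 ⟨_, hy, rfl⟩⟩
        rw [itr_succ]
      · rintro ⟨⟨y, rfl⟩, hx⟩
        rw [itr_succ] at hx ⊢
        refine ⟨itr θ j y, ⟨⟨y, rfl⟩, ?_⟩, rfl⟩
        rw [← hS]
        exact hx
    have h5 : (S.map θ).relIndex S = θ.range.relIndex S := by
      rw [← Subgroup.inf_relIndex_right (S.map θ), ← Subgroup.inf_relIndex_right θ.range]
      congr 1
      have h6 := hmap S
      rw [inf_comm, h6]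
      ext x
      constructor
      · rintro ⟨-, h⟩
        exact h
      · intro h
        exact ⟨h.2, h⟩
    rw [h4, Subgroup.inf_relIndex_right, ← h4,
      Subgroup.relIndex_map_map_of_injective _ _ hinj, Subgroup.inf_relIndex_right, ih, h5] at h3
    rw [← h3, pow_succ]

/-- the union of the preimages of a subgroup -/
theorem exists_sat {G : Type} [Group G] (θ : G →* G) (γ : Subgroup G) (hn : γ.Normal)
    (hγ : ∀ x ∈ γ, θ x ∈ γ) :
    ∃ S : Subgroup G, S.Normal ∧ S.comap θ = S ∧ γ ≤ S ∧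
      (∀ x ∈ S, ∃ k, x ∈ γ.comap (itr θ k)) ∧ (∀ k, γ.comap (itr θ k) ≤ S) ∧
      Monotone fun k => γ.comap (itr θ k) := by
  have hmono : Monotone fun k => γ.comap (itr θ k) := by
    refine monotone_nat_of_le_succ fun k x hx => ?_
    show itr θ (k + 1) x ∈ γ
    rw [itr_succ]
    exact hγ _ hx
  have hmem : ∀ x, x ∈ (⨆ k, γ.comap (itr θ k)) ↔ ∃ k, x ∈ γ.comap (itr θ k) := fun x =>
    Subgroup.mem_iSup_of_directed hmono.directed_le
  refine ⟨⨆ k, γ.comap (itr θ k), ?_, ?_, ?_, fun x hx => (hmem x).1 hx,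
    fun k => le_iSup (fun k => γ.comap (itr θ k)) k, hmono⟩
  · refine ⟨fun x hx g => ?_⟩
    rw [hmem] at hx ⊢
    obtain ⟨k, hk⟩ := hx
    exact ⟨k, Subgroup.Normal.conj_mem inferInstance x hk g⟩
  · ext x
    rw [Subgroup.mem_comap, hmem, hmem]
    constructor
    · rintro ⟨k, hk⟩
      refine ⟨k + 1, ?_⟩
      show itr θ (k + 1) x ∈ γ
      rw [itr_succ']
      exact hk
    · rintro ⟨k, hk⟩
      refine ⟨k, ?_⟩
      show itr θ k (θ x) ∈ γ
      rw [← itr_succ', itr_succ]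
      exact hγ _ hk
  · intro x hx
    rw [hmem]
    exact ⟨0, hx⟩

/-- the index of a subgroup in an increasing union of normal subgroups -/
theorem relIndex_union {G : Type} [Group G] (L S : Subgroup G) (T : ℕ → Subgroup G)
    (hT : Monotone T) (hTn : ∀ k, (T k).Normal) (hTS : ∀ k, T k ≤ S) (hLS : L ≤ S)
    (hS : ∀ x ∈ S, ∃ k, x ∈ T k) (hf : L.relIndex S ≠ 0) :
    ∃ k, L.relIndex S = L.relIndex (T k) := by
  have hle : ∀ k, L ⊔ T k ≤ S := fun k => sup_le hLS (hTS k)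
  have hne : ∀ k, (L ⊔ T k).relIndex S ≠ 0 := by
    intro k h
    have h1 := Subgroup.relIndex_mul_relIndex L (L ⊔ T k) S le_sup_left (hle k)
    rw [h, mul_zero] at h1
    exact hf h1.symm
  obtain ⟨k0, hk0⟩ : ∃ k0, ∀ k, (L ⊔ T k0).relIndex S ≤ (L ⊔ T k).relIndex S := by
    obtain ⟨n, ⟨k0, hk0⟩, hmin⟩ := WellFounded.has_min (wellFounded_lt (α := ℕ))
      (Set.range fun k => (L ⊔ T k).relIndex S) ⟨_, 0, rfl⟩
    refine ⟨k0, fun k => ?_⟩
    have h1 := hmin _ ⟨k, rfl⟩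
    have h2 : (L ⊔ T k0).relIndex S = n := hk0
    rw [h2]
    exact not_lt.1 h1
  refine ⟨k0, ?_⟩
  have hSeq : L ⊔ T k0 = S := by
    apply le_antisymm (hle k0)
    intro x hx
    obtain ⟨k1, hk1⟩ := hS x hx
    have h1 : L ⊔ T k0 ≤ L ⊔ T (max k1 k0) := sup_le_sup le_rfl (hT (le_max_right _ _))
    have h2 := Subgroup.relIndex_mul_relIndex _ _ _ h1 (hle (max k1 k0))
    have h3 : (L ⊔ T k0).relIndex (L ⊔ T (max k1 k0)) = 1 := by
      have h4 := hk0 (max k1 k0)
      have h5 : 0 < (L ⊔ T (max k1 k0)).relIndex S := Nat.pos_of_ne_zero (hne _)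
      rw [← h2] at h4
      have h6 : (L ⊔ T k0).relIndex (L ⊔ T (max k1 k0)) ≤ 1 := by
        by_contra h7
        have h8 : 2 ≤ (L ⊔ T k0).relIndex (L ⊔ T (max k1 k0)) := by omega
        have h9 := Nat.mul_le_mul_right ((L ⊔ T (max k1 k0)).relIndex S) h8
        omega
      have h7 : (L ⊔ T k0).relIndex (L ⊔ T (max k1 k0)) ≠ 0 := by
        intro h8
        rw [h8, zero_mul] at h2
        exact hne k0 h2.symm
      omega
    rw [Subgroup.relIndex_eq_one] at h3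
    exact h3 (Subgroup.mem_sup_right (hT (le_max_left k1 k0) hk1))
  calc L.relIndex S = L.relIndex (L ⊔ T k0) := by rw [hSeq]
    _ = L.relIndex (T k0) := relIndex_sup_nrm _ _ (hTn k0)

/-- THE LOCAL STATEMENT -/
theorem localV {G : Type} [Group G] (θ : G →* G) (hinj : Function.Injective θ)
    (hfin : θ.range.FiniteIndex) (p : ℕ) (hp : p.Prime) (B : ℕ)
    (hV : ∀ n : ℕ, ∃ c : ℕ, n ≤ c ∧ ∀ k : ℕ,
      ¬ p ^ B ∣ ((⊤ : Subgroup G).lowerCentralSeries c).relIndex
        (((⊤ : Subgroup G).lowerCentralSeries c).comap (itr θ k)))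
    (hsm : ∃ A : Subgroup G, Gd θ A ∧ A ≤ (itr θ B).range) :
    ∃ w : ℕ, ∀ A : Subgroup G, Gd θ A → ∀ m M : ℕ, m ≤ M →
      (∀ g : G, g⁻¹ * itr θ M g ∈ A.comap (itr θ m)) →
      ∀ x ∈ (⊤ : Subgroup G).lowerCentralSeries w,
        ∃ e : ℕ, ¬ p ∣ e ∧ (x⁻¹ * itr θ M x) ^ e ∈ A := by
  have hpf : Fact p.Prime := ⟨hp⟩
  obtain ⟨A₀, ⟨hAn, hAf, hAθ, hAc⟩, hA₀⟩ := hsm
  obtain ⟨hch, m, hm⟩ := chain_unit θ hfin A₀ hAn hAf hAθ
  have hAC : A₀ ≤ A₀.comap (itr θ m) := by
    intro x hx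
    exact INJ.itr_inv θ A₀ hAθ m _ hx
  have hCf : (A₀.comap (itr θ m)).FiniteIndex := Subgroup.finiteIndex_of_le hAC
  obtain ⟨r, hr, hrx⟩ := UNI_order θ (A₀.comap (itr θ m)) hm
  have hrk : ∀ (k : ℕ) (g : G),
      ((itr θ (r * k) g : G) : G ⧸ A₀.comap (itr θ m)) = (g : G ⧸ A₀.comap (itr θ m)) := by
    intro k g
    induction k with
    | zero => rfl
    | succ k ih =>
      have e : r * (k + 1) = r + r * k := by ring
      rw [e, itr_add, hrx, ih]
  obtain ⟨M, hMB, hMm, hMx⟩ : ∃ M : ℕ, B ≤ M ∧ m ≤ M ∧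
      ∀ g : G, g⁻¹ * itr θ M g ∈ A₀.comap (itr θ m) := by
    have h1 : B + m ≤ r * (B + m) := by
      calc B + m ≤ 1 * (B + m) := by omega
        _ ≤ r * (B + m) := Nat.mul_le_mul_right _ hr
    exact ⟨r * (B + m), by omega, by omega, fun g => QuotientGroup.eq.1 (hrk _ g).symm⟩
  obtain ⟨H, O, hOn, hAO, hOp, hHO, hψH, -, N, hNn, hNH, a, hNi⟩ :=
    localH θ p hp A₀ hAn hAf hAθ (fun i => A₀.comap (itr θ i)) (fun i => rfl) hAc m M hMm hMx
  -- a late term of the lower central series is in `H`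
  obtain ⟨n, hn⟩ : ∃ n, (⊤ : Subgroup G).lowerCentralSeries n ≤ N := by
    have hNf : N.FiniteIndex := ⟨by rw [hNi]; exact pow_ne_zero _ hp.ne_zero⟩
    have hfinN : Finite (G ⧸ N) := Subgroup.finite_quotient_of_finiteIndex
    have hP : IsPGroup p (G ⧸ N) := IsPGroup.of_card hNi
    have hnil : Group.IsNilpotent (G ⧸ N) := hP.isNilpotent
    rw [Subgroup.nilpotent_iff_lowerCentralSeries] at hnil
    obtain ⟨n, hn⟩ := hnil
    refine ⟨n, fun x hx => ?_⟩
    have h1 : ((⊤ : Subgroup G).lowerCentralSeries n).map (QuotientGroup.mk' N) ≤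
        (⊤ : Subgroup (G ⧸ N)).lowerCentralSeries n := by
      rw [Subgroup.map_lowerCentralSeries]
      exact Subgroup.lowerCentralSeries_mono n le_top
    rw [hn] at h1
    have h2 := h1 ⟨x, hx, rfl⟩
    rw [Subgroup.mem_bot] at h2
    exact (QuotientGroup.eq_one_iff x).1 h2
  obtain ⟨c, hnc, hk⟩ := hV n
  obtain ⟨γ, hγ⟩ : ∃ γ : Subgroup G, γ = (⊤ : Subgroup G).lowerCentralSeries c := ⟨_, rfl⟩
  rw [← hγ] at hk
  have hγn : γ.Normal := by rw [hγ]; infer_instance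
  have hγθ : ∀ x ∈ γ, θ x ∈ γ := by
    intro x hx
    rw [hγ] at hx ⊢
    have h1 : ((⊤ : Subgroup G).lowerCentralSeries c).map θ ≤
        (⊤ : Subgroup G).lowerCentralSeries c := by
      rw [Subgroup.map_lowerCentralSeries]
      exact Subgroup.lowerCentralSeries_mono c le_top
    exact h1 ⟨x, hx, rfl⟩
  have hγH : γ ≤ H := by
    rw [hγ]
    exact (Subgroup.lowerCentralSeries_antitone _ hnc).trans (hn.trans hNH)
  -- the index of `θ ^ B` in `γ`
  have hRM : (itr θ M).range ≤ (itr θ B).range := by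
    rintro _ ⟨x, rfl⟩
    refine ⟨itr θ (M - B) x, ?_⟩
    rw [← itr_add, Nat.add_sub_cancel' hMB]
  have h1 : ¬ p ∣ (itr θ B).range.relIndex γ := by
    intro hd
    apply not_dvd_of_pow p hp A₀ O hAn hAf hOp
    have hW : γ ≤ ((itr θ M).range ⊔ A₀) ⊔ O := by
      intro x hx
      have h2 : itr θ M x ∈ (itr θ M).range ⊔ A₀ := Subgroup.mem_sup_left ⟨x, rfl⟩
      have h3 := Subgroup.mul_mem_sup h2 (O.inv_mem (hHO x (hγH hx)))
      have h4 : itr θ M x * (x⁻¹ * itr θ M x)⁻¹ = x := by group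
      rwa [h4] at h3
    have h2 := relIndex_dvd_nrm (itr θ B).range γ _ hγn hW
    have h3 : (itr θ B).range.relIndex (((itr θ M).range ⊔ A₀) ⊔ O) ∣
        ((itr θ M).range ⊔ A₀).relIndex (((itr θ M).range ⊔ A₀) ⊔ O) :=
      Subgroup.relIndex_dvd_of_le_left _ (sup_le hRM hA₀)
    rw [relIndex_sup_nrm _ _ hOn] at h3
    have h4 : ((itr θ M).range ⊔ A₀).relIndex O ∣ A₀.relIndex O :=
      Subgroup.relIndex_dvd_of_le_left _ le_sup_right
    exact hd.trans (h2.trans (h3.trans h4))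
  -- the saturation
  obtain ⟨S, hSn, hSθ, hγS, hSk, hTS, hTm⟩ := exists_sat θ γ hγn hγθ
  have hs : ¬ p ∣ θ.range.relIndex S := by
    intro hd
    have hB : p ^ B ∣ (itr θ B).range.relIndex S := by
      rw [relIndex_itr_sat θ hinj S hSθ]
      exact pow_dvd_pow_of_dvd hd B
    obtain ⟨L, hL⟩ : ∃ L : Subgroup G, L = ((itr θ B).range ⊓ S) ⊔ γ := ⟨_, rfl⟩
    have hLS : L ≤ S := by rw [hL]; exact sup_le inf_le_right hγS
    have h2 := Subgroup.relIndex_mul_relIndex ((itr θ B).range ⊓ S) L S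
      (by rw [hL]; exact le_sup_left) hLS
    have h3 : ((itr θ B).range ⊓ S).relIndex L = (itr θ B).range.relIndex γ := by
      rw [hL, relIndex_sup_nrm _ _ hγn, ← Subgroup.inf_relIndex_right ((itr θ B).range ⊓ S) γ,
        inf_assoc, inf_eq_right.2 hγS, Subgroup.inf_relIndex_right]
    rw [h3, Subgroup.inf_relIndex_right] at h2
    have hRf : (itr θ B).range.FiniteIndex :=
      ⟨by rw [itr_index θ hinj]; exact pow_ne_zero _ hfin.index_ne_zero⟩
    have hRS : (itr θ B).range.relIndex S ≠ 0 :=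
      (inferInstance : ((itr θ B).range.subgroupOf S).FiniteIndex).index_ne_zero
    have hLf : L.relIndex S ≠ 0 := by
      intro h
      rw [h, mul_zero] at h2
      exact hRS h2.symm
    have h4 : p ^ B ∣ L.relIndex S := by
      rw [← h2] at hB
      exact (Nat.Coprime.pow_left B ((Nat.Prime.coprime_iff_not_dvd hp).2 h1)).dvd_of_dvd_mul_left
        hB
    obtain ⟨k, hk'⟩ := relIndex_union L S (fun k => γ.comap (itr θ k)) hTm
      (fun k => inferInstance) hTS hLS hSk hLf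
    apply hk k
    rw [hk'] at h4
    exact h4.trans (Subgroup.relIndex_dvd_of_le_left _ (by rw [hL]; exact le_sup_right))
  refine ⟨c, ?_⟩
  rintro A ⟨hAn', hAf', hAθ', hAc'⟩ m' M' hM' hMx' x hx
  obtain ⟨H', O', -, -, hOp', hHO', hψH', ⟨a', ha'⟩, -⟩ :=
    localH θ p hp A hAn' hAf' hAθ' (fun i => A.comap (itr θ i)) (fun i => rfl) hAc' m' M' hM' hMx'
  have hSH : S ≤ H' := by
    rw [← Subgroup.relIndex_eq_one]
    have h2 : H'.relIndex S ∣ (itr θ M').range.relIndex S := by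
      apply Subgroup.relIndex_dvd_of_le_left
      rintro _ ⟨y, rfl⟩
      exact hψH' y
    rw [relIndex_itr_sat θ hinj S hSθ] at h2
    have h3 : H'.relIndex S ∣ H'.index := by
      rw [← Subgroup.relIndex_top_right]
      exact relIndex_dvd_nrm H' S ⊤ hSn le_top
    rw [ha'] at h3
    have h4 : Nat.Coprime (θ.range.relIndex S ^ M') (p ^ a') :=
      Nat.Coprime.pow _ _ ((Nat.Prime.coprime_iff_not_dvd hp).2 hs).symm
    exact Nat.eq_one_of_dvd_coprimes h4 h2 h3
  rw [← hγ] at hx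
  exact hOp' _ (hHO' x (hSH (hγS hx)))

end BCX
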