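import Pool.Agent.BCX.Vx2

/-!
# The vertical criterion: assembly
-/

set_option autoImplicit false

open CategoryTheory groupCohomology EssMap
open scoped commutatorElement

namespace BCX

/-- for infinitely many `c` the kernels of all iterates on `X / γ_{c+1}(X)` are finite of order
not divisible by `p ^ B` -/
def KerV {Q : Type} [Group Q] (φ : Q →* Q) (X : Subgroup Q) (p : ℕ) : Prop :=
  ∃ B : ℕ, ∀ n : ℕ, ∃ c : ℕ, n ≤ c ∧ ∀ k : ℕ,
    ¬ p ^ B ∣ (X.lowerCentralSeries c).relIndex (X ⊓ (X.lowerCentralSeries c).comap (itr φ k))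

theorem localVq {Q : Type} [Group Q] [Group.FG Q] (φ : Q →* Q) (hinj : Function.Injective φ)
    (hfin : φ.range.FiniteIndex) (X : Subgroup Q) (hXn : X.Normal) (hXf : X.FiniteIndex)
    (hXφ : ∀ x ∈ X, φ x ∈ X)
    (hcen : ∀ E F : Subgroup Q, E.Normal → F.Normal → F ≤ E → F.relIndex E ≠ 0 →
      F.relIndex E ≤ φ.range.index → ⁅X, E⁆ ≤ F)
    (p : ℕ) (hp : p.Prime) (hV : KerV φ X p) :
    ∃ w : ℕ, ∀ A : Subgroup Q, A.Normal → A.FiniteIndex → (∀ x ∈ A, φ x ∈ A) → ∀ m M : ℕ,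
      m ≤ M → (∀ g : Q, g⁻¹ * itr φ M g ∈ A.comap (itr φ m)) →
      ∀ x ∈ X.lowerCentralSeries w, ∃ e : ℕ, ¬ p ∣ e ∧ (x⁻¹ * itr φ M x) ^ e ∈ A := by
  obtain ⟨B, hB⟩ := hV
  have hcm : ∀ (A : Subgroup Q) (i : ℕ) (z : X),
      (z ∈ (A.subgroupOf X).comap (itr (rst φ X hXφ) i) ↔ (z : Q) ∈ A.comap (itr φ i)) := by
    intro A i z
    show ((itr (rst φ X hXφ) i z : X) : Q) ∈ A ↔ itr φ i z ∈ A
    rw [itr_rst]
  have hgd : ∀ A : Subgroup Q, A.Normal → A.FiniteIndex → (∀ x ∈ A, φ x ∈ A) →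
      Gd (rst φ X hXφ) (A.subgroupOf X) := by
    intro A hAn hAf hAφ
    obtain ⟨hch, -⟩ := chain_unit φ hfin A hAn hAf hAφ
    refine ⟨inferInstance, inferInstance, fun a ha => hAφ _ ha, fun i => ?_⟩
    rw [Subgroup.commutator_le]
    intro g _ z hz
    rw [hcm] at hz ⊢
    have h1 : ⁅X, A.comap (itr φ (i + 1))⁆ ≤ A.comap (itr φ i) :=
      hcen _ _ inferInstance inferInstance (hch i).1 (hch i).2.1 (hch i).2.2
    exact h1 (Subgroup.commutator_mem_commutator g.2 hz)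
  have hlc : ∀ c, X.lowerCentralSeries c =
      ((⊤ : Subgroup X).lowerCentralSeries c).map X.subtype := fun c =>
    (Subgroup.top_subtype_lowerCentralSeries X c).symm
  obtain ⟨w, hw⟩ := localV (rst φ X hXφ) (rst_inj hinj X hXφ) (rst_fin hinj hfin X hXf hXφ) p hp B
    (by
      intro n
      obtain ⟨c, hnc, hk⟩ := hB n
      refine ⟨c, hnc, fun k => ?_⟩
      have h1 := hk k
      have h2 : X ⊓ (X.lowerCentralSeries c).comap (itr φ k) =
          (((⊤ : Subgroup X).lowerCentralSeries c).comap (itr (rst φ X hXφ) k)).map X.subtype := by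
        ext x
        constructor
        · rintro ⟨hx, hx'⟩
          refine ⟨⟨x, hx⟩, ?_, rfl⟩
          have h3 : itr φ k x ∈ X.lowerCentralSeries c := hx'
          rw [hlc] at h3
          obtain ⟨y, hy, hyx⟩ := h3
          show itr (rst φ X hXφ) k ⟨x, hx⟩ ∈ (⊤ : Subgroup X).lowerCentralSeries c
          have h4 : itr (rst φ X hXφ) k ⟨x, hx⟩ = y := by
            apply Subtype.ext
            rw [itr_rst]
            exact hyx.symm
          rw [h4]
          exact hy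
        · rintro ⟨y, hy, rfl⟩
          refine ⟨y.2, ?_⟩
          show itr φ k (y : Q) ∈ X.lowerCentralSeries c
          rw [hlc]
          refine ⟨itr (rst φ X hXφ) k y, hy, ?_⟩
          show ((itr (rst φ X hXφ) k y : X) : Q) = _
          rw [itr_rst]
      rw [h2, hlc, Subgroup.relIndex_map_map_of_injective _ _ X.subtype_injective] at h1
      exact h1)
    (by
      have h1 : (X.map (itr φ B)).FiniteIndex := by
        constructor
        rw [Subgroup.index_map_of_injective _ (itr_inj hinj B), itr_index φ hinj]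
        exact mul_ne_zero hXf.index_ne_zero (pow_ne_zero _ hfin.index_ne_zero)
      obtain ⟨A, hAn, hAf, hAφ, hAle⟩ := exists_A φ (X.map (itr φ B)) h1
      refine ⟨A.subgroupOf X, hgd A hAn hAf hAφ, ?_⟩
      intro z hz
      obtain ⟨y, hy, hyz⟩ := hAle hz
      refine ⟨⟨y, hy⟩, ?_⟩
      apply Subtype.ext
      rw [itr_rst]
      exact hyz)
  refine ⟨w, ?_⟩
  intro A hAn hAf hAφ m M hmM hMx x hx
  rw [hlc] at hx
  obtain ⟨y, hy, rfl⟩ := hx
  obtain ⟨e, he, heA⟩ := hw (A.subgroupOf X) (hgd A hAn hAf hAφ) m M hmM (fun g => by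
    rw [hcm]
    have h1 := hMx g
    rw [Subgroup.coe_mul, Subgroup.coe_inv, itr_rst]
    exact h1) y hy
  refine ⟨e, he, ?_⟩
  have h1 : (((y⁻¹ * itr (rst φ X hXφ) M y) ^ e : X) : Q) ∈ A := heA
  rw [Subgroup.coe_pow, Subgroup.coe_mul, Subgroup.coe_inv, itr_rst] at h1
  exact h1

/-- the two old conditions at the prime `p` -/
def KU {Q : Type} [Group Q] (φ : Q →* Q) (p : ℕ) : Prop :=
  (∃ Q₀ : Subgroup Q, Q₀.FiniteIndex ∧ ∃ c : ℕ, 1 ≤ c ∧ ∃ B : ℕ, INJN.KerBddN φ c B p Q₀) ∨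
  (∀ Q₁ : Subgroup Q, Q₁.FiniteIndex → ∃ Z : Subgroup Q, Z ≤ Q₁ ∧ Z.FiniteIndex ∧
    (∀ x ∈ Z, φ x ∈ Z) ∧ NoUq φ p Z)

/-- nilpotency from the local conditions -/
theorem nilp_coreV {Q : Type} [Group Q] [Group.FG Q] (φ : Q →* Q)
    (hinj : Function.Injective φ) (hfin : φ.range.FiniteIndex)
    (hcap : ∀ q : Q, (∀ k : ℕ, q ∈ Set.range (φ^[k])) → q = 1)
    (hloc : ∀ Q₁ : Subgroup Q, Q₁.FiniteIndex → ∃ X : Subgroup Q, X ≤ Q₁ ∧ X.Normal ∧
      X.FiniteIndex ∧ (∀ x ∈ X, φ x ∈ X) ∧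
      ∀ p : ℕ, p.Prime → p ∣ φ.range.index → KU φ p ∨ KerV φ X p) :
    ∃ N : Subgroup Q, N.FiniteIndex ∧ Group.IsNilpotent N := by
  classical
  have hD0 : φ.range.index ≠ 0 := hfin.index_ne_zero
  let P : Finset ℕ := φ.range.index.primeFactors
  have hP : ∀ p, p ∈ P ↔ p.Prime ∧ p ∣ φ.range.index := by
    intro p
    show p ∈ φ.range.index.primeFactors ↔ _
    rw [Nat.mem_primeFactors]
    exact ⟨fun h => ⟨h.1, h.2.1⟩, fun h => ⟨h.1, h.2, hD0⟩⟩
  obtain ⟨G1, hG1n, hG1f, hcen⟩ := exists_cen (G := Q) φ.range.index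
  have hdat : ∀ p : P, ∃ (X₁ Z N' : Subgroup Q) (b w : ℕ), X₁.FiniteIndex ∧ Z.FiniteIndex ∧
      N'.FiniteIndex ∧ N' ≤ Z ∧ (KU φ p → ∀ X : Subgroup Q, X.Normal → X.FiniteIndex →
      (∀ x ∈ X, φ x ∈ X) → X ≤ X₁ →
      ∀ A : Subgroup Q, A.Normal → A.FiniteIndex → (∀ x ∈ A, φ x ∈ A) → A ≤ X → A ≤ Z →
      ∀ m : ℕ, (A.comap (itr φ m)).comap φ = A.comap (itr φ m) → ∀ (M : ℕ) (x : Q), m ≤ M →
      x ∈ X.lowerCentralSeries w → x ∈ N' → x ∈ Z.lowerCentralSeries w →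
      (∀ g : Q, g⁻¹ * itr φ M g ∈ A.comap (itr φ m)) →
      ∃ e : ℕ, ¬ (p : ℕ) ∣ e ∧ (itr φ b (x⁻¹ * itr φ M x)) ^ e ∈ A) := by
    intro p
    by_cases h : KU φ p
    · obtain ⟨X₁, Z, N', b, w, h1, h2, h3, h4, h5⟩ :=
        local_data φ hinj hfin G1 hG1f hcen p ((hP p).1 p.2).1 h
      exact ⟨X₁, Z, N', b, w, h1, h2, h3, h4, fun _ => h5⟩
    · exact ⟨⊤, ⊤, ⊤, 0, 0, inferInstance, inferInstance, inferInstance, le_rfl,
        fun h' => absurd h' h⟩
  choose X₁ Z N' b w hX₁ hZ hN' hNZ hd using hdat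
  let XX : Subgroup Q := ⨅ p : P, X₁ p
  have hXXf : XX.FiniteIndex := Subgroup.finiteIndex_iInf fun p => hX₁ p
  let ZZ : Subgroup Q := ⨅ p : P, Z p
  have hZZf : ZZ.FiniteIndex := Subgroup.finiteIndex_iInf fun p => hZ p
  let NN : Subgroup Q := ⨅ p : P, N' p
  have hNNf : NN.FiniteIndex := Subgroup.finiteIndex_iInf fun p => hN' p
  obtain ⟨X, hXle, hXn, hXf, hXφ, hXV⟩ := hloc (XX ⊓ G1) inferInstance
  have hXG1 : X ≤ G1 := hXle.trans inf_le_right
  have hXX : X ≤ XX := hXle.trans inf_le_left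
  have hcen' : ∀ E F : Subgroup Q, E.Normal → F.Normal →
      F ≤ E → F.relIndex E ≠ 0 → F.relIndex E ≤ φ.range.index → ⁅X, E⁆ ≤ F :=
    fun E F hE hF hFE h1 h2 =>
      (Subgroup.commutator_mono hXG1 le_rfl).trans (hcen E F hE hF hFE h1 h2)
  have hdatV : ∀ p : P, ∃ v : ℕ, ¬ KU φ p → ∀ A : Subgroup Q, A.Normal → A.FiniteIndex →
      (∀ x ∈ A, φ x ∈ A) → ∀ m M : ℕ, m ≤ M →
      (∀ g : Q, g⁻¹ * itr φ M g ∈ A.comap (itr φ m)) →
      ∀ x ∈ X.lowerCentralSeries v, ∃ e : ℕ, ¬ (p : ℕ) ∣ e ∧ (x⁻¹ * itr φ M x) ^ e ∈ A := by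
    intro p
    by_cases h : KU φ p
    · exact ⟨0, fun h' => absurd h h'⟩
    · obtain ⟨v, hv⟩ := localVq φ hinj hfin X hXn hXf hXφ hcen' p ((hP p).1 p.2).1
        ((hXV p ((hP p).1 p.2).1 ((hP p).1 p.2).2).resolve_left h)
      exact ⟨v, fun _ => hv⟩
  choose v hv using hdatV
  let w0 : ℕ := max (Finset.univ.sup w) (Finset.univ.sup v)
  let b0 : ℕ := Finset.univ.sup b
  let N : Subgroup Q := X ⊓ NN
  have hNf : N.FiniteIndex := inferInstance
  have hNX : N ≤ X := inf_le_left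
  have hNN : ∀ p, N ≤ N' p := fun p => inf_le_right.trans (iInf_le N' p)
  refine ⟨N, hNf, ?_⟩
  have hbot : N.lowerCentralSeries w0 = ⊥ := by
    rw [eq_bot_iff]
    intro x hx
    have hxN : x ∈ N := N.lowerCentralSeries_le_self w0 hx
    have h4 : itr φ b0 x = 1 := by
      apply hcap
      intro k
      obtain ⟨z, hz⟩ := residA φ hinj hfin X hXn hXf hXφ hcen' ZZ hZZf b0 x (hNX hxN)
        (fun p hp hpD A hAn hAf hAφ hAX hAZ m hm M hM hx' => by
          obtain ⟨p', hp'⟩ : ∃ p' : P, (p' : ℕ) = p := ⟨⟨p, (hP p).2 ⟨hp, hpD⟩⟩, rfl⟩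
          have hw0 : w p' ≤ w0 := (Finset.le_sup (Finset.mem_univ p')).trans (le_max_left _ _)
          have hv0 : v p' ≤ w0 := (Finset.le_sup (Finset.mem_univ p')).trans (le_max_right _ _)
          have h6 : b p' ≤ b0 := Finset.le_sup (Finset.mem_univ p')
          by_cases h : KU φ p'
          · obtain ⟨e, he, heA⟩ := hd p' h X hXn hXf hXφ (hXX.trans (iInf_le X₁ p')) A hAn hAf
              hAφ hAX (hAZ.trans (iInf_le Z p')) m hm M x hM
              (Subgroup.lowerCentralSeries_antitone _ hw0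
                (Subgroup.lowerCentralSeries_mono w0 hNX hx))
              (hNN p' hxN)
              (Subgroup.lowerCentralSeries_antitone _ hw0
                (Subgroup.lowerCentralSeries_mono w0 ((hNN p').trans (hNZ p')) hx)) hx'
            refine ⟨e, by rw [← hp']; exact he, ?_⟩
            have h7 : b0 = (b0 - b p') + b p' := by omega
            rw [h7, itr_add, ← map_pow]
            exact INJ.itr_inv φ A hAφ _ _ heA
          · obtain ⟨e, he, heA⟩ := hv p' h A hAn hAf hAφ m M hM hx' x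
              (Subgroup.lowerCentralSeries_antitone _ hv0
                (Subgroup.lowerCentralSeries_mono w0 hNX hx))
            refine ⟨e, by rw [← hp']; exact he, ?_⟩
            rw [← map_pow]
            exact INJ.itr_inv φ A hAφ _ _ heA) k
      exact ⟨z, by rw [← itr_eq_iterate]; exact hz⟩
    rw [Subgroup.mem_bot]
    exact itr_inj hinj b0 (h4.trans (map_one _).symm)
  rw [Subgroup.nilpotent_iff_lowerCentralSeries]
  refine ⟨w0, ?_⟩
  rw [eq_bot_iff]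
  intro y hy
  have h1 : (y : Q) ∈ N.lowerCentralSeries w0 := by
    rw [← Subgroup.top_subtype_lowerCentralSeries]
    exact ⟨y, hy, rfl⟩
  rw [hbot, Subgroup.mem_bot] at h1
  rw [Subgroup.mem_bot]
  exact Subtype.ext h1

end BCX
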