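import Pool.Agent.BCX.Vx3

/-!
# The criterion with the vertical condition
-/

set_option autoImplicit false

open CategoryTheory groupCohomology EssMap
open scoped commutatorElement

namespace BCX

/-- THE CRITERION: virtual nilpotency, prime by prime, with the vertical condition -/
theorem nilp_iffV {Q : Type} [Group Q] (hfg : Group.FG Q) (φ : Q →* Q)
    (hinj : Function.Injective φ) (hfin : φ.range.FiniteIndex)
    (hcap : ∀ q : Q, (∀ k : ℕ, q ∈ Set.range (φ^[k])) → q = 1) :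
    (∃ N : Subgroup Q, N.FiniteIndex ∧ Group.IsNilpotent N) ↔
    ∀ Q₀ : Subgroup Q, Q₀.FiniteIndex → ∃ X : Subgroup Q, X ≤ Q₀ ∧ X.Normal ∧
      X.FiniteIndex ∧ (∀ x ∈ X, φ x ∈ X) ∧ ∀ p : ℕ, p.Prime → p ∣ φ.range.index →
      (∃ Q₀ : Subgroup Q, Q₀.FiniteIndex ∧ ∃ c : ℕ, 1 ≤ c ∧ ∃ B : ℕ,
        INJN.KerBddN φ c B p Q₀) ∨ KerV φ X p ∨
      (∀ Q₁ : Subgroup Q, Q₁.FiniteIndex → ∃ (Z : Subgroup Q) (hZ : ∀ x ∈ Z, φ x ∈ Z),
        Z ≤ Q₁ ∧ Z.FiniteIndex ∧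
        ((∃ B : ℕ, ∀ V : Subgroup Z, V.Normal → V.comap (rst φ Z hZ) = V →
            ∀ b : ℕ, V.index = p ^ b → b ≤ B) ∨
          (∃ n : ℕ, 0 < n ∧ Dual n Z ∧ Ori n Z = ⊤ ∧ EulerP n p (rst φ Z hZ)))) := by
  classical
  constructor
  · intro hN Q₀ hQ₀
    obtain ⟨X, hXn, hXf, hXφ, hXle⟩ := exists_A φ Q₀ hQ₀
    refine ⟨X, hXle, hXn, hXf, hXφ, fun p hp hpD => ?_⟩
    rcases (nilp_iffA hfg φ hinj hfin hcap).1 hN p hp hpD with h | h
    · exact Or.inl h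
    · exact Or.inr (Or.inr h)
  · intro hs
    apply nilp_coreV φ hinj hfin hcap
    intro Q₁ hQ₁
    obtain ⟨X, hXle, hXn, hXf, hXφ, hX⟩ := hs Q₁ hQ₁
    refine ⟨X, hXle, hXn, hXf, hXφ, fun p hp hpD => ?_⟩
    rcases hX p hp hpD with h | h | h
    · exact Or.inl (Or.inl h)
    · exact Or.inr h
    · refine Or.inl (Or.inr ?_)
      intro Q₁ hQ₁
      obtain ⟨Z, hZ, hZle, hZf, h⟩ := h Q₁ hQ₁
      have hB : ∃ B : ℕ, ∀ V : Subgroup Z, V.Normal → V.comap (rst φ Z hZ) = V →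
          ∀ b : ℕ, V.index = p ^ b → b ≤ B := by
        rcases h with h | ⟨n, hn, hD, ho, hE⟩
        · exact h
        · exact unit_bddP hn hD ho (rst φ Z hZ) (rst_inj hinj Z hZ) (rst_fin hinj hfin Z hZf hZ)
            p hp (by rw [rst_idx hinj Z hZf hZ]; exact hpD) hE
      obtain ⟨B, hB⟩ := hB
      obtain ⟨V, hVZ, hVf, hVφ, hVN⟩ := maxUq φ p hp Z hZf hZ B (fun V hVZ hVn hV b hb => by
        refine hB (V.subgroupOf Z) hVn ?_ b hb
        ext x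
        show φ (x : Q) ∈ V ↔ (x : Q) ∈ V
        constructor
        · intro h
          have h1 : (x : Q) ∈ V.comap φ ⊓ Z := ⟨h, x.2⟩
          rw [hV] at h1
          exact h1
        · intro h
          rw [← hV] at h
          exact h.1)
      exact ⟨V, hVZ.trans hZle, hVf, hVφ, hVN⟩

end BCX
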